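import Mathlib
import Pool.Agent.Lib.MP_1dbab3_gt.W.FlH
import Pool.Agent.Lib.MP_1dbab3_gt.W.FlTa
import Pool.Agent.Lib.MP_1dbab3_gt.W.FlTb
import Pool.Agent.Lib.MP_1dbab3_gt.W.FlTc
import Pool.Agent.Lib.MP_1dbab3_gt.W.FlTd
import Pool.Agent.Lib.MP_1dbab3_gt.W.FlTe

/-!
# `CellOk` in all cells
-/

set_option maxRecDepth 100000

open Real MeasureTheory Set Filter Topology intervalIntegral

namespace LpSec.Fl

open LpSec.W LpSec.ML

theorem T_sub {j : ℕ} (hj : j < 160) {l : ℝ} (hl : 0 ≤ l) (hl1 : l ≤ 1) (hw : 0 < (j : ℝ) + l)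
    {P' Q' E' : List ℕ} {dd : ℕ}
    (hB : Base (1 / (((j : ℝ) + l) / 400)) P' Q' E' (bA (j / 4)) (bC (j / 4)) dd) :
    TOk (1 / (((j : ℝ) + l) / 400)) (cD100 (j / 4)).T := by
  rcases lt_or_ge j 36 with h0 | h0
  · have h := tda_all (j - 0) (by omega)
    rw [show 0 + (j - 0) = j by omega] at h
    exact tSub_sound (by omega) hl hl1 hw hB (sb400a (Nat.zero_le _) (by omega) hl hl1 hw) h
  rcases lt_or_ge j 72 with h1 | h1
  · have h := tdb_all (j - 36) (by omega)
    rw [show 36 + (j - 36) = j by omega] at h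
    exact tSub_sound (by omega) hl hl1 hw hB (sb400a (Nat.zero_le _) (by omega) hl hl1 hw) h
  rcases lt_or_ge j 104 with h2 | h2
  · have h := tdc_all (j - 72) (by omega)
    rw [show 72 + (j - 72) = j by omega] at h
    exact tSub_sound (by omega) hl hl1 hw hB (sb400a (Nat.zero_le _) (by omega) hl hl1 hw) h
  rcases lt_or_ge j 152 with h3 | h3
  · have h := tdd_all (j - 104) (by omega)
    rw [show 104 + (j - 104) = j by omega] at h
    exact tSub_sound (by omega) hl hl1 hw hB (sb400 (by omega) (by omega) hl hl1 hw) h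
  have h := tde_all (j - 152) (by omega)
  rw [show 152 + (j - 152) = j by omega] at h
  exact tSub_sound (by omega) hl hl1 hw hB (sb400b (by omega) (by omega) hl hl1 hw) h

/-- **`CellOk` on the cells of width `1 / 100`** -/
theorem cell100 {i : ℕ} (hi : i < 80) {l : ℝ} (hl : 0 ≤ l) (hl1 : l ≤ 1) (hw : 0 < (i : ℝ) + l) :
    CellOk (1 / (((i : ℝ) + l) / 100)) (cD100 i) := by
  have hB := base_cell hi hl hl1 hw
  have hc := cellChk_all i hi
  rw [Bool.and_eq_true] at hc
  have hq := aux_cell100 (i := i) (by omega) hl hl1 hw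
  have hA' := bOk1_sound (by omega) hc.1 hl hl1 hw
  refine cell_sound hB hl hl1 hq hA' ?_ ?_ hc.2
  · rcases lt_or_ge i 60 with h | h
    · exact hChk1_sound (by omega) hl hl1 hw (sb100 (by omega) hl hl1 hw) (hd1_all i h)
    · obtain ⟨r, hr, m, hm, hm1, e⟩ := sub_cell i hl hl1
      have hw' : 0 < ((4 * i + r : ℕ) : ℝ) + m := by
        have h1 : 0 < ((i : ℝ) + l) / 100 := by positivity
        rw [e] at h1
        linarith
      rw [e]
      have h2 := hd4_all (4 * i + r - 240) (by omega)
      rw [show 240 + (4 * i + r - 240) = 4 * i + r by omega,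
        show (4 * i + r) / 4 = i by omega] at h2
      exact hChk4_sound (by omega) hm hm1 hw' (sb400c (by omega) (by omega) hm hm1 hw') h2
  · rcases lt_or_ge i 40 with h | h
    · obtain ⟨r, hr, m, hm, hm1, e⟩ := sub_cell i hl hl1
      have hw' : 0 < ((4 * i + r : ℕ) : ℝ) + m := by
        have h1 : 0 < ((i : ℝ) + l) / 100 := by positivity
        rw [e] at h1
        linarith
      rw [e] at hB ⊢
      have h3 := T_sub (j := 4 * i + r) (by omega) hm hm1 hw' (P' := pol i) (Q' := pol (i + 1))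
        (E' := err i) (dd := bD i) (by rw [show (4 * i + r) / 4 = i by omega]; exact hB)
      rw [show (4 * i + r) / 4 = i by omega] at h3
      exact h3
    · have h2 : ∀ m < 40, (cD100 (40 + m)).T.isEmpty = true := by decide +kernel
      have h3 := h2 (i - 40) (by omega)
      rw [show 40 + (i - 40) = i by omega, List.isEmpty_iff] at h3
      rw [h3]
      exact TOk_nil _

/-- **`CellOk` on the cells of width `1 / 400`** -/
theorem cell400 {i : ℕ} (h1 : 320 ≤ i) (h2 : i < 360) {l : ℝ} (hl : 0 ≤ l) (hl1 : l ≤ 1)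
    (hw : 0 < (i : ℝ) + l) : CellOk (1 / (((i : ℝ) + l) / 400)) (cD400 i) := by
  have hB := base_cell4 h1 h2 hl hl1 hw
  have hc := cellChk4_all (i - 320) (by omega)
  rw [show 320 + (i - 320) = i by omega, Bool.and_eq_true] at hc
  have hq := aux_cell400 (i := i) (by omega) hl hl1 hw
  have hA' := bOk_sound (by omega) hc.1 hl hl1 hw
  refine cell_sound hB hl hl1 hq hA' ?_ ?_ hc.2
  · have h3 := hd5_all (i - 320) (by omega)
    rw [show 320 + (i - 320) = i by omega] at h3
    exact hChk4_sound (by omega) hl hl1 hw (sb400d h1 (by omega) hl hl1 hw) h3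
  · have h2 : ∀ m < 40, (cD400 (320 + m)).T.isEmpty = true := by decide +kernel
    have h3 := h2 (i - 320) (by omega)
    rw [show 320 + (i - 320) = i by omega, List.isEmpty_iff] at h3
    rw [h3]
    exact TOk_nil _

end LpSec.Fl
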