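import Mathlib
import Pool.Agent.Lib.MP_1dbab3_gt.W.FlCell
import Pool.Agent.Lib.MP_1dbab3_gt.W.FlN0
import Pool.Agent.Lib.MP_1dbab3_gt.W.FlN10
import Pool.Agent.Lib.MP_1dbab3_gt.W.FlN20
import Pool.Agent.Lib.MP_1dbab3_gt.W.FlN30
import Pool.Agent.Lib.MP_1dbab3_gt.W.FlN40
import Pool.Agent.Lib.MP_1dbab3_gt.W.FlN50
import Pool.Agent.Lib.MP_1dbab3_gt.W.FlN60
import Pool.Agent.Lib.MP_1dbab3_gt.W.FlN70
import Pool.Agent.Lib.MP_1dbab3_gt.W.FlN320
import Pool.Agent.Lib.MP_1dbab3_gt.W.FlN330
import Pool.Agent.Lib.MP_1dbab3_gt.W.FlN340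
import Pool.Agent.Lib.MP_1dbab3_gt.W.FlN350
import Pool.Agent.Lib.MP_1dbab3_gt.W.FlM0
import Pool.Agent.Lib.MP_1dbab3_gt.W.FlM13
import Pool.Agent.Lib.MP_1dbab3_gt.W.FlP

/-!
# `NumOk` in all cells
-/

open Real MeasureTheory Set Filter Topology intervalIntegral

namespace LpSec.Fl

open LpSec.W LpSec.ML

theorem ch100 : ∀ i < 80, (cD100 i).ch = 10000 * bC i := by decide +kernel

theorem ch400 : ∀ j < 40, (cD400 (320 + j)).ch = 10000 * bC4 (320 + j) := by decide +kernel

/-- the numbers of the cell `i` (width `1/100`) in dimension `n`, `4 ≤ n ≤ 7`; `n = 3`: `i < 26` -/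
def nD100 (n i : ℕ) : NumD :=
  match n, i / 10 with
  | 3, _ => if i < 13 then nNT0 i 0 else nNT13 (i - 13) 0
  | m, 0 => nN0 (i % 10) (m - 4)
  | m, 1 => nN10 (i % 10) (m - 4)
  | m, 2 => nN20 (i % 10) (m - 4)
  | m, 3 => nN30 (i % 10) (m - 4)
  | m, 4 => nN40 (i % 10) (m - 4)
  | m, 5 => nN50 (i % 10) (m - 4)
  | m, 6 => nN60 (i % 10) (m - 4)
  | m, 7 => nN70 (i % 10) (m - 4)
  | _, _ => default

/-- the numbers of the cell `i` (width `1/400`, `320 ≤ i < 360`) in dimension `n`, `4 ≤ n ≤ 7` -/
def nD400 (n i : ℕ) : NumD :=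
  match i / 10 with
  | 32 => nN320 (i % 10) (n - 4)
  | 33 => nN330 (i % 10) (n - 4)
  | 34 => nN340 (i % 10) (n - 4)
  | 35 => nN350 (i % 10) (n - 4)
  | _ => default

/-- **`NumOk`, dimension 3** -/
theorem num100_3 {i : ℕ} (hi : i < 26) {l : ℝ} (hl : 0 ≤ l) (hl1 : l ≤ 1) (hw : 0 < (i : ℝ) + l) :
    NumOk (1 / (((i : ℝ) + l) / 100)) (cD100 i) (nD100 3 i) := by
  have hch : (cD100 i).ch = 10000 * bC i := ch100 i (by omega)
  have hB := base_cell (i := i) (by omega) hl hl1 hw
  rcases lt_or_ge i 13 with h | h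
  · have h1 := nkT0 i h 0 (by norm_num)
    rw [Nat.zero_add] at h1
    have e : nD100 3 i = nNT0 i 0 := by
      unfold nD100
      simp [h]
    rw [e]
    exact num_sound hB hch h1
  · have h1 := nkT13 (i - 13) (by omega) 0 (by norm_num)
    rw [show 13 + (i - 13) = i by omega] at h1
    have e : nD100 3 i = nNT13 (i - 13) 0 := by
      unfold nD100
      simp [show ¬ i < 13 by omega]
    rw [e]
    exact num_sound hB hch h1

/-- **`NumOk`, cells of width `1 / 100`** -/
theorem num100 {i : ℕ} (hi : i < 80) {n : ℕ} (hn : 4 ≤ n) (hn7 : n ≤ 7) {l : ℝ} (hl : 0 ≤ l)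
    (hl1 : l ≤ 1) (hw : 0 < (i : ℝ) + l) :
    NumOk (1 / (((i : ℝ) + l) / 100)) (cD100 i) (nD100 n i) := by
  have hch : (cD100 i).ch = 10000 * bC i := ch100 i hi
  have hB := base_cell (i := i) (by omega) hl hl1 hw
  obtain ⟨t, rfl⟩ : ∃ t, n = t + 4 := ⟨n - 4, by omega⟩
  have ht : t < 4 := by omega
  rcases lt_or_ge i 10 with h0 | h0
  · have h := nk0 (i - 0) (by omega) t ht
    rw [show 0 + (i - 0) = i by omega] at h
    have e : nD100 (t + 4) i = nN0 (i - 0) t := by
      have e1 : i / 10 = 0 := by omega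
      have e2 : i % 10 = i - 0 := by omega
      unfold nD100
      rw [e1, e2]
      rfl
    rw [e]
    exact num_sound hB hch h
  rcases lt_or_ge i 20 with h1 | h1
  · have h := nk10 (i - 10) (by omega) t ht
    rw [show 10 + (i - 10) = i by omega] at h
    have e : nD100 (t + 4) i = nN10 (i - 10) t := by
      have e1 : i / 10 = 1 := by omega
      have e2 : i % 10 = i - 10 := by omega
      unfold nD100
      rw [e1, e2]
      rfl
    rw [e]
    exact num_sound hB hch h
  rcases lt_or_ge i 30 with h2 | h2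
  · have h := nk20 (i - 20) (by omega) t ht
    rw [show 20 + (i - 20) = i by omega] at h
    have e : nD100 (t + 4) i = nN20 (i - 20) t := by
      have e1 : i / 10 = 2 := by omega
      have e2 : i % 10 = i - 20 := by omega
      unfold nD100
      rw [e1, e2]
      rfl
    rw [e]
    exact num_sound hB hch h
  rcases lt_or_ge i 40 with h3 | h3
  · have h := nk30 (i - 30) (by omega) t ht
    rw [show 30 + (i - 30) = i by omega] at h
    have e : nD100 (t + 4) i = nN30 (i - 30) t := by
      have e1 : i / 10 = 3 := by omega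
      have e2 : i % 10 = i - 30 := by omega
      unfold nD100
      rw [e1, e2]
      rfl
    rw [e]
    exact num_sound hB hch h
  rcases lt_or_ge i 50 with h4 | h4
  · have h := nk40 (i - 40) (by omega) t ht
    rw [show 40 + (i - 40) = i by omega] at h
    have e : nD100 (t + 4) i = nN40 (i - 40) t := by
      have e1 : i / 10 = 4 := by omega
      have e2 : i % 10 = i - 40 := by omega
      unfold nD100
      rw [e1, e2]
      rfl
    rw [e]
    exact num_sound hB hch h
  rcases lt_or_ge i 60 with h5 | h5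
  · have h := nk50 (i - 50) (by omega) t ht
    rw [show 50 + (i - 50) = i by omega] at h
    have e : nD100 (t + 4) i = nN50 (i - 50) t := by
      have e1 : i / 10 = 5 := by omega
      have e2 : i % 10 = i - 50 := by omega
      unfold nD100
      rw [e1, e2]
      rfl
    rw [e]
    exact num_sound hB hch h
  rcases lt_or_ge i 70 with h6 | h6
  · have h := nk60 (i - 60) (by omega) t ht
    rw [show 60 + (i - 60) = i by omega] at h
    have e : nD100 (t + 4) i = nN60 (i - 60) t := by
      have e1 : i / 10 = 6 := by omega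
      have e2 : i % 10 = i - 60 := by omega
      unfold nD100
      rw [e1, e2]
      rfl
    rw [e]
    exact num_sound hB hch h
  have h := nk70 (i - 70) (by omega) t ht
  rw [show 70 + (i - 70) = i by omega] at h
  have e : nD100 (t + 4) i = nN70 (i - 70) t := by
    have e1 : i / 10 = 7 := by omega
    have e2 : i % 10 = i - 70 := by omega
    unfold nD100
    rw [e1, e2]
    rfl
  rw [e]
  exact num_sound hB hch h

/-- **`NumOk`, cells of width `1 / 400`** -/
theorem num400 {i : ℕ} (hi1 : 320 ≤ i) (hi : i < 360) {n : ℕ} (hn : 4 ≤ n) (hn7 : n ≤ 7) {l : ℝ}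
    (hl : 0 ≤ l) (hl1 : l ≤ 1) (hw : 0 < (i : ℝ) + l) :
    NumOk (1 / (((i : ℝ) + l) / 400)) (cD400 i) (nD400 n i) := by
  have hch : (cD400 i).ch = 10000 * bC4 i := by
    have := ch400 (i - 320) (by omega)
    rw [show 320 + (i - 320) = i by omega] at this
    exact this
  have hB := base_cell4 (i := i) hi1 hi hl hl1 hw
  obtain ⟨t, rfl⟩ : ∃ t, n = t + 4 := ⟨n - 4, by omega⟩
  have ht : t < 4 := by omega
  rcases lt_or_ge i 330 with h32 | h32
  · have h := nk320 (i - 320) (by omega) t ht
    rw [show 320 + (i - 320) = i by omega] at h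
    have e : nD400 (t + 4) i = nN320 (i - 320) t := by
      have e1 : i / 10 = 32 := by omega
      have e2 : i % 10 = i - 320 := by omega
      unfold nD400
      rw [e1, e2]
      rfl
    rw [e]
    exact num_sound hB hch h
  rcases lt_or_ge i 340 with h33 | h33
  · have h := nk330 (i - 330) (by omega) t ht
    rw [show 330 + (i - 330) = i by omega] at h
    have e : nD400 (t + 4) i = nN330 (i - 330) t := by
      have e1 : i / 10 = 33 := by omega
      have e2 : i % 10 = i - 330 := by omega
      unfold nD400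
      rw [e1, e2]
      rfl
    rw [e]
    exact num_sound hB hch h
  rcases lt_or_ge i 350 with h34 | h34
  · have h := nk340 (i - 340) (by omega) t ht
    rw [show 340 + (i - 340) = i by omega] at h
    have e : nD400 (t + 4) i = nN340 (i - 340) t := by
      have e1 : i / 10 = 34 := by omega
      have e2 : i % 10 = i - 340 := by omega
      unfold nD400
      rw [e1, e2]
      rfl
    rw [e]
    exact num_sound hB hch h
  have h := nk350 (i - 350) (by omega) t ht
  rw [show 350 + (i - 350) = i by omega] at h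
  have e : nD400 (t + 4) i = nN350 (i - 350) t := by
    have e1 : i / 10 = 35 := by omega
    have e2 : i % 10 = i - 350 := by omega
    unfold nD400
    rw [e1, e2]
    rfl
  rw [e]
  exact num_sound hB hch h

end LpSec.Fl
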