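import Mathlib

/-!
# Expansion of `log Γ (1 + x)`

`log Γ (1 + x) = κ x - ∑_{i < N} log (1 + x / (i + 1)) + T_N x`, `κ = κ(N)`, with explicit rational
bounds of `T_N x`.
-/

namespace LpSec.W

open Real Filter Topology Finset

/-- one term of the tail -/
noncomputable def tt (N : ℕ) (x : ℝ) (i : ℕ) : ℝ :=
  x / ((N : ℝ) + 1 + i) - log (1 + x / ((N : ℝ) + 1 + i))

/-- the tail -/
noncomputable def TT (N : ℕ) (x : ℝ) : ℝ := ∑' i, tt N x i

theorem log_up {t : ℝ} (ht : 0 ≤ t) : t - log (1 + t) ≤ t ^ 2 / 2 - t ^ 3 / 3 + t ^ 4 / 4 := by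
  -- log (1 + t) ≥ t - t²/2 + t³/3 - t⁴/4
  set f : ℝ → ℝ := fun t => log (1 + t) - (t - t ^ 2 / 2 + t ^ 3 / 3 - t ^ 4 / 4) with hf
  have hd : ∀ s ∈ Set.Ici (0 : ℝ), HasDerivWithinAt f (s ^ 4 / (1 + s)) (Set.Ici 0) s := by
    intro s hs
    have hs' : (0 : ℝ) < 1 + s := by
      have : (0 : ℝ) ≤ s := hs
      linarith
    have h1 : HasDerivAt (fun t : ℝ => log (1 + t)) (1 / (1 + s)) s := by
      have := ((hasDerivAt_id s).const_add 1).log hs'.ne'
      simpa using this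
    have h2 : HasDerivAt (fun t : ℝ => t - t ^ 2 / 2 + t ^ 3 / 3 - t ^ 4 / 4)
        (1 - s + s ^ 2 - s ^ 3) s := by
      have := (((hasDerivAt_id s).sub ((hasDerivAt_pow 2 s).div_const 2)).add
        ((hasDerivAt_pow 3 s).div_const 3)).sub ((hasDerivAt_pow 4 s).div_const 4)
      refine this.congr_deriv ?_
      norm_num
    refine (h1.sub h2).hasDerivWithinAt.congr_deriv ?_
    field_simp
    ring
  have hmono : MonotoneOn f (Set.Ici 0) := by
    refine monotoneOn_of_deriv_nonneg (convex_Ici 0) (fun s hs => (hd s hs).continuousWithinAt)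
      ?_ ?_
    · intro s hs
      rw [interior_Ici] at hs
      exact ((hd s (Set.Ioi_subset_Ici_self hs)).hasDerivAt (Ici_mem_nhds hs)).differentiableAt.differentiableWithinAt
    · intro s hs
      rw [interior_Ici] at hs
      rw [((hd s (Set.Ioi_subset_Ici_self hs)).hasDerivAt (Ici_mem_nhds hs)).deriv]
      have : (0 : ℝ) < s := hs
      positivity
  have h0 : f 0 ≤ f t := hmono (Set.mem_Ici.2 le_rfl) ht ht
  have h1 : f 0 = 0 := by simp [hf]
  rw [h1] at h0
  simp only [hf] at h0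
  linarith

theorem log_lo {t : ℝ} (ht : 0 ≤ t) :
    t ^ 2 / 2 - t ^ 3 / 3 + t ^ 4 / 4 - t ^ 5 / 5 ≤ t - log (1 + t) := by
  set f : ℝ → ℝ := fun t => (t - t ^ 2 / 2 + t ^ 3 / 3 - t ^ 4 / 4 + t ^ 5 / 5) - log (1 + t)
    with hf
  have hd : ∀ s ∈ Set.Ici (0 : ℝ), HasDerivWithinAt f (s ^ 5 / (1 + s)) (Set.Ici 0) s := by
    intro s hs
    have hs' : (0 : ℝ) < 1 + s := by
      have : (0 : ℝ) ≤ s := hs
      linarith
    have h1 : HasDerivAt (fun t : ℝ => log (1 + t)) (1 / (1 + s)) s := by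
      have := ((hasDerivAt_id s).const_add 1).log hs'.ne'
      simpa using this
    have h2 : HasDerivAt (fun t : ℝ => t - t ^ 2 / 2 + t ^ 3 / 3 - t ^ 4 / 4 + t ^ 5 / 5)
        (1 - s + s ^ 2 - s ^ 3 + s ^ 4) s := by
      have := ((((hasDerivAt_id s).sub ((hasDerivAt_pow 2 s).div_const 2)).add
        ((hasDerivAt_pow 3 s).div_const 3)).sub ((hasDerivAt_pow 4 s).div_const 4)).add
        ((hasDerivAt_pow 5 s).div_const 5)
      refine this.congr_deriv ?_
      norm_num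
    refine (h2.sub h1).hasDerivWithinAt.congr_deriv ?_
    field_simp
    ring
  have hmono : MonotoneOn f (Set.Ici 0) := by
    refine monotoneOn_of_deriv_nonneg (convex_Ici 0) (fun s hs => (hd s hs).continuousWithinAt)
      ?_ ?_
    · intro s hs
      rw [interior_Ici] at hs
      exact ((hd s (Set.Ioi_subset_Ici_self hs)).hasDerivAt (Ici_mem_nhds hs)).differentiableAt.differentiableWithinAt
    · intro s hs
      rw [interior_Ici] at hs
      rw [((hd s (Set.Ioi_subset_Ici_self hs)).hasDerivAt (Ici_mem_nhds hs)).deriv]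
      have : (0 : ℝ) < s := hs
      positivity
  have h0 : f 0 ≤ f t := hmono (Set.mem_Ici.2 le_rfl) ht ht
  have h1 : f 0 = 0 := by simp [hf]
  rw [h1] at h0
  simp only [hf] at h0
  linarith

theorem tt_nonneg (N : ℕ) {x : ℝ} (hx : 0 ≤ x) (i : ℕ) : 0 ≤ tt N x i := by
  unfold tt
  have h0 : (0 : ℝ) < (N : ℝ) + 1 + i := by positivity
  have h1 : 0 ≤ x / ((N : ℝ) + 1 + i) := by positivity
  have h2 := log_le_sub_one_of_pos (x := 1 + x / ((N : ℝ) + 1 + i)) (by linarith)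
  linarith

/-- the power sums -/
noncomputable def SS (N j : ℕ) : ℝ := ∑' i : ℕ, 1 / ((N : ℝ) + 1 + i) ^ j

theorem SS_summable (N : ℕ) {j : ℕ} (hj : 2 ≤ j) :
    Summable fun i : ℕ => 1 / ((N : ℝ) + 1 + i) ^ j := by
  have h1 : Summable fun i : ℕ => 1 / (i : ℝ) ^ j := Real.summable_one_div_nat_pow.2 (by omega)
  have h2 := (summable_nat_add_iff (N + 1)).2 h1
  refine h2.congr fun i => ?_
  push_cast
  congr 2
  ring

theorem tt_summable (N : ℕ) {x : ℝ} (hx : 0 ≤ x) : Summable (tt N x) := by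
  have h1 : Summable fun i : ℕ => x ^ 2 * (1 / ((N : ℝ) + 1 + i) ^ 2) +
      x ^ 4 * (1 / ((N : ℝ) + 1 + i) ^ 4) :=
    ((SS_summable N (le_refl 2)).mul_left _).add ((SS_summable N (by norm_num)).mul_left _)
  refine Summable.of_nonneg_of_le (tt_nonneg N hx) (fun i => ?_) h1
  have h0 : (0 : ℝ) < (N : ℝ) + 1 + i := by positivity
  have h2 : 0 ≤ x / ((N : ℝ) + 1 + i) := by positivity
  have h3 := log_up h2
  unfold tt
  have e2 : (x / ((N : ℝ) + 1 + i)) ^ 2 = x ^ 2 * (1 / ((N : ℝ) + 1 + i) ^ 2) := by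
    rw [div_pow]; ring
  have e4 : (x / ((N : ℝ) + 1 + i)) ^ 4 = x ^ 4 * (1 / ((N : ℝ) + 1 + i) ^ 4) := by
    rw [div_pow]; ring
  rw [← e2, ← e4]
  have h5 : 0 ≤ (x / ((N : ℝ) + 1 + i)) ^ 3 := by positivity
  have h6 : 0 ≤ (x / ((N : ℝ) + 1 + i)) ^ 2 := by positivity
  have h7 : 0 ≤ (x / ((N : ℝ) + 1 + i)) ^ 4 := by positivity
  linarith

theorem TT_le (N : ℕ) {x : ℝ} (hx : 0 ≤ x) :
    TT N x ≤ x ^ 2 / 2 * SS N 2 - x ^ 3 / 3 * SS N 3 + x ^ 4 / 4 * SS N 4 := by
  unfold TT SS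
  rw [← tsum_mul_left, ← tsum_mul_left, ← tsum_mul_left,
    ← ((SS_summable N (le_refl 2)).mul_left _).tsum_sub ((SS_summable N (by norm_num)).mul_left _),
    ← (((SS_summable N (le_refl 2)).mul_left _).sub
      ((SS_summable N (by norm_num : 2 ≤ 3)).mul_left _)).tsum_add
      ((SS_summable N (by norm_num : 2 ≤ 4)).mul_left _)]
  refine (tt_summable N hx).tsum_le_tsum (fun i => ?_)
    ((((SS_summable N (le_refl 2)).mul_left _).sub
      ((SS_summable N (by norm_num : 2 ≤ 3)).mul_left _)).add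
      ((SS_summable N (by norm_num : 2 ≤ 4)).mul_left _))
  have h0 : (0 : ℝ) < (N : ℝ) + 1 + i := by positivity
  have h2 : 0 ≤ x / ((N : ℝ) + 1 + i) := by positivity
  have h3 := log_up h2
  unfold tt
  refine h3.trans (le_of_eq ?_)
  rw [div_pow, div_pow, div_pow]
  ring

theorem TT_ge (N : ℕ) {x : ℝ} (hx : 0 ≤ x) :
    x ^ 2 / 2 * SS N 2 - x ^ 3 / 3 * SS N 3 + x ^ 4 / 4 * SS N 4 - x ^ 5 / 5 * SS N 5 ≤ TT N x := by
  unfold TT SS
  rw [← tsum_mul_left, ← tsum_mul_left, ← tsum_mul_left, ← tsum_mul_left,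
    ← ((SS_summable N (le_refl 2)).mul_left _).tsum_sub ((SS_summable N (by norm_num)).mul_left _),
    ← (((SS_summable N (le_refl 2)).mul_left _).sub
      ((SS_summable N (by norm_num : 2 ≤ 3)).mul_left _)).tsum_add
      ((SS_summable N (by norm_num : 2 ≤ 4)).mul_left _),
    ← ((((SS_summable N (le_refl 2)).mul_left _).sub
      ((SS_summable N (by norm_num : 2 ≤ 3)).mul_left _)).add
      ((SS_summable N (by norm_num : 2 ≤ 4)).mul_left _)).tsum_sub
      ((SS_summable N (by norm_num : 2 ≤ 5)).mul_left _)]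
  refine Summable.tsum_le_tsum (fun i => ?_)
    (((((SS_summable N (le_refl 2)).mul_left _).sub
      ((SS_summable N (by norm_num : 2 ≤ 3)).mul_left _)).add
      ((SS_summable N (by norm_num : 2 ≤ 4)).mul_left _)).sub
      ((SS_summable N (by norm_num : 2 ≤ 5)).mul_left _)) (tt_summable N hx)
  have h0 : (0 : ℝ) < (N : ℝ) + 1 + i := by positivity
  have h2 : 0 ≤ x / ((N : ℝ) + 1 + i) := by positivity
  have h3 := log_lo h2
  unfold tt
  refine (le_of_eq ?_).trans h3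
  rw [div_pow, div_pow, div_pow, div_pow]
  ring

/-- the expansion -/
theorem log_Gamma_expand (N : ℕ) : ∃ κ : ℝ, ∀ x : ℝ, 0 ≤ x →
    log (Gamma (1 + x)) = κ * x - ∑ i ∈ range N, log (1 + x / ((i : ℝ) + 1)) + TT N x := by
  set c : ℕ → ℝ := fun n => log ((N + n : ℕ) : ℝ) - ∑ i ∈ range (n + 1), 1 / ((N : ℝ) + 1 + i)
    with hc
  set e : ℕ → ℝ := fun n => log ((N + n : ℕ) : ℝ) - log ((N + n + 1 : ℕ) : ℝ) with he
  have key : ∀ x : ℝ, 0 ≤ x → ∀ n : ℕ, BohrMollerup.logGammaSeq (1 + x) (N + n) =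
      x * c n + e n - ∑ i ∈ range N, log (1 + x / ((i : ℝ) + 1)) +
        ∑ i ∈ range (n + 1), tt N x i := by
    intro x hx n
    unfold BohrMollerup.logGammaSeq
    have h1 : ∀ m : ℕ, log (1 + x + m) = log ((m : ℝ) + 1) + log (1 + x / ((m : ℝ) + 1)) := by
      intro m
      have hm : (0 : ℝ) < (m : ℝ) + 1 := by positivity
      have hx' : (0 : ℝ) < 1 + x / ((m : ℝ) + 1) := by positivity
      rw [← log_mul hm.ne' hx'.ne']
      congr 1
      field_simp
      ring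
    have h2 : ∑ m ∈ range (N + n + 1), log ((m : ℝ) + 1) = log ((N + n + 1).factorial : ℝ) := by
      induction (N + n + 1) with
      | zero => simp
      | succ k ih =>
        rw [sum_range_succ, ih, Nat.factorial_succ]
        push_cast
        rw [log_mul (by positivity) (by positivity)]
        ring
    have h3 : ∑ m ∈ range (N + n + 1), log (1 + x / ((m : ℝ) + 1)) =
        ∑ i ∈ range N, log (1 + x / ((i : ℝ) + 1)) +
        ∑ i ∈ range (n + 1), log (1 + x / ((N : ℝ) + 1 + i)) := by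
      rw [show N + n + 1 = N + (n + 1) by ring, sum_range_add]
      congr 1
      refine sum_congr rfl fun i _ => ?_
      push_cast
      congr 3
      ring
    have h4 : ∑ i ∈ range (n + 1), tt N x i = x * ∑ i ∈ range (n + 1), 1 / ((N : ℝ) + 1 + i) -
        ∑ i ∈ range (n + 1), log (1 + x / ((N : ℝ) + 1 + i)) := by
      unfold tt
      rw [sum_sub_distrib, mul_sum]
      congr 1
      exact sum_congr rfl fun i _ => by ring
    rw [sum_congr rfl fun m _ => h1 m, sum_add_distrib, h2, h3, h4]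
    rw [Nat.factorial_succ]
    push_cast
    rw [log_mul (by positivity) (by positivity)]
    simp only [hc, he]
    push_cast
    ring
  have he0 : Tendsto e atTop (𝓝 0) := by
    have h1 : Tendsto (fun m : ℕ => log ((m : ℝ) + 1) - log m) atTop (𝓝 0) :=
      tendsto_log_nat_add_one_sub_log
    have h2 := (h1.comp (tendsto_add_atTop_nat N)).neg
    rw [neg_zero] at h2
    refine h2.congr fun n => ?_
    simp only [he, Function.comp]
    push_cast
    rw [add_comm (n : ℝ) N]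
    ring
  have hT : ∀ x : ℝ, 0 ≤ x → Tendsto (fun n => ∑ i ∈ range (n + 1), tt N x i) atTop
      (𝓝 (TT N x)) := fun x hx =>
    ((tt_summable N hx).hasSum.tendsto_sum_nat).comp (tendsto_add_atTop_nat 1)
  have hA : ∀ x : ℝ, 0 ≤ x → Tendsto (fun n => BohrMollerup.logGammaSeq (1 + x) (N + n)) atTop
      (𝓝 (log (Gamma (1 + x)))) := by
    intro x hx
    have h1 := BohrMollerup.tendsto_log_gamma (x := 1 + x) (by linarith)
    have h2 := h1.comp (tendsto_add_atTop_nat N)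
    refine h2.congr fun n => ?_
    simp only [Function.comp]
    rw [add_comm n N]
  set κ : ℝ := log (Gamma (1 + 1)) + ∑ i ∈ range N, log (1 + 1 / ((i : ℝ) + 1)) - TT N 1 with hκ
  have hcl : Tendsto c atTop (𝓝 κ) := by
    have h1 := (((hA 1 zero_le_one).sub he0).add_const
      (∑ i ∈ range N, log (1 + 1 / ((i : ℝ) + 1)))).sub (hT 1 zero_le_one)
    rw [sub_zero] at h1
    refine h1.congr fun n => ?_
    rw [key 1 zero_le_one n]
    ring
  refine ⟨κ, fun x hx => ?_⟩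
  refine tendsto_nhds_unique (hA x hx) ?_
  have h1 := (((hcl.const_mul x).add he0).sub_const
    (∑ i ∈ range N, log (1 + x / ((i : ℝ) + 1)))).add (hT x hx)
  rw [add_zero, mul_comm x κ] at h1
  refine h1.congr fun n => ?_
  rw [key x hx n]

/-! ### numerical bounds of the power sums -/

theorem SS_le_of_tele {N j : ℕ} (hj : 2 ≤ j) {f : ℝ → ℝ}
    (hf : ∀ m : ℝ, (N : ℝ) + 1 ≤ m → 1 / m ^ j ≤ f m - f (m + 1))
    (h0 : ∀ m : ℝ, (N : ℝ) + 1 ≤ m → 0 ≤ f m) : SS N j ≤ f (N + 1) := by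
  unfold SS
  refine (SS_summable N hj).tsum_le_of_sum_range_le fun n => ?_
  have h1 : ∀ n : ℕ, ∑ i ∈ range n, 1 / ((N : ℝ) + 1 + i) ^ j ≤ f (N + 1) - f (N + 1 + n) := by
    intro n
    induction n with
    | zero => simp
    | succ n ih =>
      rw [sum_range_succ]
      have h2 := hf ((N : ℝ) + 1 + n) (by linarith [(Nat.cast_nonneg n : (0 : ℝ) ≤ n)])
      push_cast
      rw [← add_assoc ((N : ℝ) + 1)]
      linarith
  have h3 := h0 ((N : ℝ) + 1 + n) (by linarith [(Nat.cast_nonneg n : (0 : ℝ) ≤ n)])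
  linarith [h1 n]

theorem SS_ge_of_tele {N j : ℕ} (hj : 2 ≤ j) {f : ℝ → ℝ}
    (hf : ∀ m : ℝ, (N : ℝ) + 1 ≤ m → f m - f (m + 1) ≤ 1 / m ^ j)
    (h0 : Tendsto (fun n : ℕ => f ((N : ℝ) + 1 + n)) atTop (𝓝 0)) : f (N + 1) ≤ SS N j := by
  unfold SS
  have h1 : ∀ n : ℕ, f (N + 1) - f (N + 1 + n) ≤ ∑ i ∈ range n, 1 / ((N : ℝ) + 1 + i) ^ j := by
    intro n
    induction n with
    | zero => simp
    | succ n ih =>
      rw [sum_range_succ]
      have h2 := hf ((N : ℝ) + 1 + n) (by linarith [(Nat.cast_nonneg n : (0 : ℝ) ≤ n)])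
      push_cast
      rw [← add_assoc ((N : ℝ) + 1)]
      linarith
  have h2 : Tendsto (fun n : ℕ => f ((N : ℝ) + 1) - f ((N : ℝ) + 1 + n)) atTop
      (𝓝 (f ((N : ℝ) + 1) - 0)) := h0.const_sub _
  rw [sub_zero] at h2
  exact le_of_tendsto_of_tendsto' h2 ((SS_summable N hj).hasSum.tendsto_sum_nat) h1

theorem tele_lim {j : ℕ} (hj : j ≠ 0) (N : ℕ) (c d : ℝ) :
    Tendsto (fun n : ℕ => c / ((N : ℝ) + 1 + n + d) ^ j) atTop (𝓝 0) := by
  have h1 : Tendsto (fun n : ℕ => (N : ℝ) + 1 + n + d) atTop atTop := by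
    have : Tendsto (fun n : ℕ => (n : ℝ) + ((N : ℝ) + 1 + d)) atTop atTop :=
      tendsto_atTop_add_const_right _ _ tendsto_natCast_atTop_atTop
    refine this.congr fun n => ?_
    ring
  exact ((tendsto_pow_atTop hj).comp h1).const_div_atTop c

end LpSec.W
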