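import Mathlib
import Pool.Agent.Lib.MP_1dbab3_gt.W.GamT

/-!
# Rational bounds of the power sums and of `T_N`
-/

namespace LpSec.W

open Real Filter Topology Finset

theorem shift_exists {N : ℕ} {m : ℝ} (hm : (N : ℝ) + 1 ≤ m) : ∃ a : ℝ, 0 < a ∧ m = a + 1 / 2 := by
  refine ⟨m - 1 / 2, ?_, by ring⟩
  have : (0 : ℝ) ≤ N := Nat.cast_nonneg N
  linarith

theorem SS2_le (N : ℕ) : SS N 2 ≤ 1 / ((N : ℝ) + 1 / 2) := by
  have h := SS_le_of_tele (N := N) (j := 2) le_rfl (f := fun m => 1 / (m - 1 / 2)) ?_ ?_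
  · refine h.trans (le_of_eq ?_)
    congr 1
    ring
  · intro m hm
    obtain ⟨a, ha, rfl⟩ := shift_exists hm
    have e1 : a + 1 / 2 - 1 / 2 = a := by ring
    have e2 : a + 1 / 2 + 1 - 1 / 2 = a + 1 := by ring
    simp only [e1, e2]
    rw [div_sub_div _ _ ha.ne' (by positivity), div_le_div_iff₀ (by positivity) (by positivity)]
    nlinarith
  · intro m hm
    obtain ⟨a, ha, rfl⟩ := shift_exists hm
    have e1 : a + 1 / 2 - 1 / 2 = a := by ring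
    simp only [e1]
    positivity

theorem SS2_ge (N : ℕ) :
    1 / ((N : ℝ) + 1 / 2) - 1 / 12 / ((N : ℝ) + 1 / 2) ^ 3 ≤ SS N 2 := by
  have h := SS_ge_of_tele (N := N) (j := 2) le_rfl
    (f := fun m => 1 / (m - 1 / 2) - 1 / 12 / (m - 1 / 2) ^ 3) ?_ ?_
  · refine (le_of_eq ?_).trans h
    have e : (N : ℝ) + 1 - 1 / 2 = N + 1 / 2 := by ring
    simp only [e]
  · intro m hm
    obtain ⟨a, ha, rfl⟩ := shift_exists hm
    have e1 : a + 1 / 2 - 1 / 2 = a := by ring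
    have e2 : a + 1 / 2 + 1 - 1 / 2 = a + 1 := by ring
    simp only [e1, e2]
    have h1 : 1 / (a + 1 / 2) ^ 2 - (1 / a - 1 / 12 / a ^ 3 - (1 / (a + 1) - 1 / 12 / (a + 1) ^ 3)) =
        (7 / 48 * (a * (a + 1)) + 1 / 48) / ((a + 1 / 2) ^ 2 * (a * (a + 1)) ^ 3) := by
      field_simp
      ring
    have h2 : 0 ≤ (7 / 48 * (a * (a + 1)) + 1 / 48) / ((a + 1 / 2) ^ 2 * (a * (a + 1)) ^ 3) := by
      positivity
    linarith
  · have h1 := tele_lim (j := 1) one_ne_zero N 1 (-1 / 2)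
    have h2 := tele_lim (j := 3) (by norm_num) N (1 / 12) (-1 / 2)
    have h3 := h1.sub h2
    rw [sub_zero] at h3
    refine h3.congr fun n => ?_
    rw [pow_one]
    congr 2
    · ring
    · congr 1
      ring

theorem SS3_le (N : ℕ) : SS N 3 ≤ 1 / 2 / ((N : ℝ) + 1 / 2) ^ 2 := by
  have h := SS_le_of_tele (N := N) (j := 3) (by norm_num) (f := fun m => 1 / 2 / (m - 1 / 2) ^ 2)
    ?_ ?_
  · refine h.trans (le_of_eq ?_)
    congr 2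
    ring
  · intro m hm
    obtain ⟨a, ha, rfl⟩ := shift_exists hm
    have e1 : a + 1 / 2 - 1 / 2 = a := by ring
    have e2 : a + 1 / 2 + 1 - 1 / 2 = a + 1 := by ring
    simp only [e1, e2]
    have h1 : 1 / 2 / a ^ 2 - 1 / 2 / (a + 1) ^ 2 - 1 / (a + 1 / 2) ^ 3 =
        (1 / 2 * (a * (a + 1)) + 1 / 16) / ((a + 1 / 2) ^ 3 * (a * (a + 1)) ^ 2) := by
      field_simp
      ring
    have h2 : 0 ≤ (1 / 2 * (a * (a + 1)) + 1 / 16) / ((a + 1 / 2) ^ 3 * (a * (a + 1)) ^ 2) := by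
      positivity
    linarith
  · intro m hm
    obtain ⟨a, ha, rfl⟩ := shift_exists hm
    have e1 : a + 1 / 2 - 1 / 2 = a := by ring
    simp only [e1]
    positivity

theorem SS3_ge (N : ℕ) :
    1 / 2 / ((N : ℝ) + 1 / 2) ^ 2 - 1 / 8 / ((N : ℝ) + 1 / 2) ^ 4 ≤ SS N 3 := by
  have h := SS_ge_of_tele (N := N) (j := 3) (by norm_num)
    (f := fun m => 1 / 2 / (m - 1 / 2) ^ 2 - 1 / 8 / (m - 1 / 2) ^ 4) ?_ ?_
  · refine (le_of_eq ?_).trans h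
    have e : (N : ℝ) + 1 - 1 / 2 = N + 1 / 2 := by ring
    simp only [e]
  · intro m hm
    obtain ⟨a, ha, rfl⟩ := shift_exists hm
    have e1 : a + 1 / 2 - 1 / 2 = a := by ring
    have e2 : a + 1 / 2 + 1 - 1 / 2 = a + 1 := by ring
    simp only [e1, e2]
    have h1 : 1 / (a + 1 / 2) ^ 3 - (1 / 2 / a ^ 2 - 1 / 8 / a ^ 4 -
        (1 / 2 / (a + 1) ^ 2 - 1 / 8 / (a + 1) ^ 4)) =
        (7 / 16 * (a * (a + 1)) ^ 2 + 5 / 32 * (a * (a + 1)) + 1 / 64) /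
          ((a + 1 / 2) ^ 3 * (a * (a + 1)) ^ 4) := by
      field_simp
      ring
    have h2 : 0 ≤ (7 / 16 * (a * (a + 1)) ^ 2 + 5 / 32 * (a * (a + 1)) + 1 / 64) /
          ((a + 1 / 2) ^ 3 * (a * (a + 1)) ^ 4) := by
      positivity
    linarith
  · have h1 := tele_lim (j := 2) (by norm_num) N (1 / 2) (-1 / 2)
    have h2 := tele_lim (j := 4) (by norm_num) N (1 / 8) (-1 / 2)
    have h3 := h1.sub h2
    rw [sub_zero] at h3
    refine h3.congr fun n => ?_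
    congr 2
    · congr 1
      ring
    · congr 1
      ring

theorem SS4_le (N : ℕ) : SS N 4 ≤ 1 / 3 / ((N : ℝ) + 1 / 2) ^ 3 := by
  have h := SS_le_of_tele (N := N) (j := 4) (by norm_num) (f := fun m => 1 / 3 / (m - 1 / 2) ^ 3)
    ?_ ?_
  · refine h.trans (le_of_eq ?_)
    congr 2
    ring
  · intro m hm
    obtain ⟨a, ha, rfl⟩ := shift_exists hm
    have e1 : a + 1 / 2 - 1 / 2 = a := by ring
    have e2 : a + 1 / 2 + 1 - 1 / 2 = a + 1 := by ring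
    simp only [e1, e2]
    have h1 : 1 / 3 / a ^ 3 - 1 / 3 / (a + 1) ^ 3 - 1 / (a + 1 / 2) ^ 4 =
        ((5 / 6 * (a * (a + 1)) ^ 2 + 11 / 48 * (a * (a + 1)) + 1 / 48)) /
          ((a + 1 / 2) ^ 4 * (a * (a + 1)) ^ 3) := by
      field_simp
      ring
    have h2 : 0 ≤ ((5 / 6 * (a * (a + 1)) ^ 2 + 11 / 48 * (a * (a + 1)) + 1 / 48)) /
          ((a + 1 / 2) ^ 4 * (a * (a + 1)) ^ 3) := by
      positivity
    linarith
  · intro m hm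
    obtain ⟨a, ha, rfl⟩ := shift_exists hm
    have e1 : a + 1 / 2 - 1 / 2 = a := by ring
    simp only [e1]
    positivity

theorem SS4_ge (N : ℕ) : 1 / 3 / ((N : ℝ) + 1) ^ 3 ≤ SS N 4 := by
  have h := SS_ge_of_tele (N := N) (j := 4) (by norm_num) (f := fun m => 1 / 3 / m ^ 3) ?_ ?_
  · exact h
  · intro m hm
    have hm0 : 0 < m := by
      have : (0 : ℝ) ≤ N := Nat.cast_nonneg N
      linarith
    have h1 : 1 / m ^ 4 - (1 / 3 / m ^ 3 - 1 / 3 / (m + 1) ^ 3) =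
        (2 * m ^ 2 + 8 / 3 * m + 1) / (m ^ 4 * (m + 1) ^ 3) := by
      field_simp
      ring
    have h2 : 0 ≤ (2 * m ^ 2 + 8 / 3 * m + 1) / (m ^ 4 * (m + 1) ^ 3) := by positivity
    linarith
  · have h1 := tele_lim (j := 3) (by norm_num) N (1 / 3) 0
    simpa using h1

theorem SS5_le (N : ℕ) : SS N 5 ≤ 1 / 4 / ((N : ℝ) + 1 / 2) ^ 4 := by
  have h := SS_le_of_tele (N := N) (j := 5) (by norm_num) (f := fun m => 1 / 4 / (m - 1 / 2) ^ 4)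
    ?_ ?_
  · refine h.trans (le_of_eq ?_)
    congr 2
    ring
  · intro m hm
    obtain ⟨a, ha, rfl⟩ := shift_exists hm
    have e1 : a + 1 / 2 - 1 / 2 = a := by ring
    have e2 : a + 1 / 2 + 1 - 1 / 2 = a + 1 := by ring
    simp only [e1, e2]
    have h0 : 1 / 4 / a ^ 4 - 1 / 4 / (a + 1) ^ 4 =
        ((a + 1 / 2) ^ 3 + 1 / 4 * (a + 1 / 2)) / (a * (a + 1)) ^ 4 := by
      field_simp
      ring
    rw [h0, div_le_div_iff₀ (by positivity) (by positivity)]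
    have h3 : a * (a + 1) ≤ (a + 1 / 2) ^ 2 := by nlinarith
    have h4 : (a * (a + 1)) ^ 4 ≤ ((a + 1 / 2) ^ 2) ^ 4 := pow_le_pow_left₀ (by positivity) h3 4
    have h5 : ((a + 1 / 2) ^ 3 + 1 / 4 * (a + 1 / 2)) * (a + 1 / 2) ^ 5 =
        ((a + 1 / 2) ^ 2) ^ 4 + 1 / 4 * (a + 1 / 2) ^ 6 := by ring
    have h6 : 0 ≤ (a + 1 / 2) ^ 6 := by positivity
    rw [h5]
    linarith
  · intro m hm
    obtain ⟨a, ha, rfl⟩ := shift_exists hm
    have e1 : a + 1 / 2 - 1 / 2 = a := by ring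
    simp only [e1]
    positivity

/-! ### bounds of the tail -/

/-- upper bound of `T_N x`, `n = N + 1/2` -/
def tHi {K : Type*} [Field K] (N : ℕ) (x : K) : K :=
  x ^ 2 / 2 / (N + 1 / 2) - x ^ 3 / 3 * (1 / 2 / (N + 1 / 2) ^ 2 - 1 / 8 / (N + 1 / 2) ^ 4) +
    x ^ 4 / 12 / (N + 1 / 2) ^ 3

/-- lower bound of `T_N x` -/
def tLo {K : Type*} [Field K] (N : ℕ) (x : K) : K :=
  x ^ 2 / 2 * (1 / (N + 1 / 2) - 1 / 12 / (N + 1 / 2) ^ 3) - x ^ 3 / 6 / (N + 1 / 2) ^ 2 +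
    x ^ 4 / 12 / (N + 1) ^ 3 - x ^ 5 / 20 / (N + 1 / 2) ^ 4

theorem TT_le_tHi (N : ℕ) {x : ℝ} (hx : 0 ≤ x) : TT N x ≤ tHi N x := by
  refine (TT_le N hx).trans ?_
  have h2 := mul_le_mul_of_nonneg_left (SS2_le N) (by positivity : 0 ≤ x ^ 2 / 2)
  have h3 := mul_le_mul_of_nonneg_left (SS3_ge N) (by positivity : 0 ≤ x ^ 3 / 3)
  have h4 := mul_le_mul_of_nonneg_left (SS4_le N) (by positivity : 0 ≤ x ^ 4 / 4)
  have e2 : x ^ 2 / 2 / ((N : ℝ) + 1 / 2) = x ^ 2 / 2 * (1 / ((N : ℝ) + 1 / 2)) := by ring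
  have e4 : x ^ 4 / 12 / ((N : ℝ) + 1 / 2) ^ 3 = x ^ 4 / 4 * (1 / 3 / ((N : ℝ) + 1 / 2) ^ 3) := by
    ring
  unfold tHi
  rw [e2, e4]
  linarith

theorem tLo_le_TT (N : ℕ) {x : ℝ} (hx : 0 ≤ x) : tLo N x ≤ TT N x := by
  refine le_trans ?_ (TT_ge N hx)
  have h2 := mul_le_mul_of_nonneg_left (SS2_ge N) (by positivity : 0 ≤ x ^ 2 / 2)
  have h3 := mul_le_mul_of_nonneg_left (SS3_le N) (by positivity : 0 ≤ x ^ 3 / 3)
  have h4 := mul_le_mul_of_nonneg_left (SS4_ge N) (by positivity : 0 ≤ x ^ 4 / 4)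
  have h5 := mul_le_mul_of_nonneg_left (SS5_le N) (by positivity : 0 ≤ x ^ 5 / 5)
  have e3 : x ^ 3 / 6 / ((N : ℝ) + 1 / 2) ^ 2 = x ^ 3 / 3 * (1 / 2 / ((N : ℝ) + 1 / 2) ^ 2) := by
    ring
  have e4 : x ^ 4 / 12 / ((N : ℝ) + 1) ^ 3 = x ^ 4 / 4 * (1 / 3 / ((N : ℝ) + 1) ^ 3) := by
    ring
  have e5 : x ^ 5 / 20 / ((N : ℝ) + 1 / 2) ^ 4 = x ^ 5 / 5 * (1 / 4 / ((N : ℝ) + 1 / 2) ^ 4) := by
    ring
  unfold tLo
  rw [e3, e4, e5]
  linarith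

end LpSec.W
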