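import Mathlib
import Pool.Agent.Lib.MP_1dbab3_gt.W.GamS

/-!
# Two-sided rational bounds of the moments `m_k(u)` and of `D(u)`
-/

namespace LpSec.W

open Real Filter Topology Finset

/-- the finite product -/
noncomputable def PP (N : ℕ) (x : ℝ) : ℝ := ∏ i ∈ range N, (1 + x / ((i : ℝ) + 1))

theorem PP_pos (N : ℕ) {x : ℝ} (hx : 0 ≤ x) : 0 < PP N x :=
  prod_pos fun i _ => by positivity

theorem Gamma_form (N : ℕ) : ∃ κ : ℝ, ∀ x : ℝ, 0 ≤ x →
    Gamma (1 + x) = exp (κ * x) * exp (TT N x) / PP N x := by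
  obtain ⟨κ, hκ⟩ := log_Gamma_expand N
  refine ⟨κ, fun x hx => ?_⟩
  have h1 : 0 < Gamma (1 + x) := Gamma_pos_of_pos (by linarith)
  rw [← exp_log h1, hκ x hx, exp_add, exp_sub]
  have h2 : exp (∑ i ∈ range N, log (1 + x / ((i : ℝ) + 1))) = PP N x := by
    rw [exp_sum]
    exact prod_congr rfl fun i _ => exp_log (by positivity)
  rw [h2]
  ring

/-- the moments of the profile (`k ≥ 1`) -/
noncomputable def mm (k : ℕ) (u : ℝ) : ℝ :=
  2 ^ k / (k + 1) * (Gamma (1 + (k + 1) * u) * Gamma (1 + u) ^ (k - 1) / Gamma (1 + 2 * u) ^ k)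

/-- exponent of the tail -/
noncomputable def th (N k : ℕ) (u : ℝ) : ℝ :=
  TT N ((k + 1) * u) + (k - 1 : ℕ) * TT N u - k * TT N (2 * u)

theorem mm_form (N : ℕ) {k : ℕ} (hk : 1 ≤ k) {u : ℝ} (hu : 0 ≤ u) :
    mm k u = 2 ^ k / (k + 1) * (PP N (2 * u) ^ k / (PP N ((k + 1) * u) * PP N u ^ (k - 1))) *
      exp (th N k u) := by
  obtain ⟨κ, hκ⟩ := Gamma_form N
  have h1 : 0 ≤ ((k : ℝ) + 1) * u := by positivity
  have h2 : 0 ≤ 2 * u := by positivity
  have p1 := PP_pos N h1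
  have p2 := PP_pos N h2
  have p3 := PP_pos N hu
  unfold mm
  rw [hκ _ h1, hκ _ hu, hκ _ h2]
  obtain ⟨j, rfl⟩ : ∃ j, k = j + 1 := ⟨k - 1, by omega⟩
  have e1 : th N (j + 1) u = TT N (((j + 1 : ℕ) + 1) * u) + j * TT N u -
      ((j + 1 : ℕ) : ℝ) * TT N (2 * u) := by
    unfold th
    rw [Nat.add_sub_cancel]
  rw [e1, exp_sub, exp_add, exp_nat_mul, exp_nat_mul, Nat.add_sub_cancel]
  rw [div_pow, div_pow, mul_pow, mul_pow, ← exp_nat_mul (κ * u), ← exp_nat_mul (κ * (2 * u))]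
  have e2 : exp (κ * (((j + 1 : ℕ) + 1) * u)) * exp ((j : ℝ) * (κ * u)) =
      exp (((j + 1 : ℕ) : ℝ) * (κ * (2 * u))) := by
    rw [← exp_add]
    congr 1
    push_cast
    ring
  rw [← e2]
  have q1 := exp_pos (κ * (((j + 1 : ℕ) + 1) * u))
  have q2 := exp_pos ((j : ℝ) * (κ * u))
  have q3 := exp_pos (TT N (2 * u))
  field_simp

/-- integer products -/
def NP (b : ℕ) : ℕ → ℕ → ℕ
  | 0, _ => 1
  | n + 1, c => Nat.mul (NP b n c) (Nat.add (Nat.mul b (n + 1)) c)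

theorem NP_eq (b c : ℕ) (hb : 0 < b) (N : ℕ) :
    (NP b N c : ℝ) = (b : ℝ) ^ N * N.factorial * PP N ((c : ℝ) / b) := by
  have hb' : (0 : ℝ) < b := by exact_mod_cast hb
  induction N with
  | zero => simp [NP, PP]
  | succ N ih =>
    have e : NP b (N + 1) c = NP b N c * (b * (N + 1) + c) := rfl
    rw [e]
    unfold PP at ih ⊢
    rw [prod_range_succ, Nat.factorial_succ]
    push_cast
    rw [ih]
    field_simp
    ring

theorem NP_pos (b c : ℕ) (hb : 0 < b) (N : ℕ) : 0 < NP b N c := by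
  induction N with
  | zero => simp [NP]
  | succ N ih =>
    have e : NP b (N + 1) c = NP b N c * (b * (N + 1) + c) := rfl
    rw [e]
    positivity

/-- partial exponential sums -/
def eLo {K : Type*} [Field K] (x : K) : K := 1 + x + x ^ 2 / 2 + x ^ 3 / 6
def eHi {K : Type*} [Field K] (x : K) : K := 1 + x + x ^ 2 / 2 + x ^ 3 / 6 + x ^ 4 * 5 / 96

theorem eLo_le {x : ℝ} (hx : 0 ≤ x) : eLo x ≤ exp x := by
  have h := Real.sum_le_exp_of_nonneg hx 4
  refine (le_of_eq ?_).trans h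
  unfold eLo
  simp [sum_range_succ, Nat.factorial]

theorem le_eHi {x : ℝ} (hx : 0 ≤ x) (hx1 : x ≤ 1) : exp x ≤ eHi x := by
  have h := Real.exp_bound' hx hx1 (n := 4) (by norm_num)
  refine h.trans (le_of_eq ?_)
  unfold eHi
  simp [sum_range_succ, Nat.factorial]
  ring

/-- rational bounds of the exponent, `u = a / b` -/
def thLo {K : Type*} [Field K] (N k : ℕ) (u : K) : K :=
  tLo N ((k + 1) * u) + (k - 1 : ℕ) * tLo N u - k * tHi N (2 * u)
def thHi {K : Type*} [Field K] (N k : ℕ) (u : K) : K :=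
  tHi N ((k + 1) * u) + (k - 1 : ℕ) * tHi N u - k * tLo N (2 * u)

theorem thLo_le (N k : ℕ) {u : ℝ} (hu : 0 ≤ u) : thLo N k u ≤ th N k u := by
  unfold thLo th
  have h1 := tLo_le_TT N (x := ((k : ℝ) + 1) * u) (by positivity)
  have h2 := mul_le_mul_of_nonneg_left (tLo_le_TT N hu) (Nat.cast_nonneg (α := ℝ) (k - 1))
  have h3 := mul_le_mul_of_nonneg_left (TT_le_tHi N (x := 2 * u) (by positivity))
    (Nat.cast_nonneg (α := ℝ) k)
  linarith

theorem le_thHi (N k : ℕ) {u : ℝ} (hu : 0 ≤ u) : th N k u ≤ thHi N k u := by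
  unfold thHi th
  have h1 := TT_le_tHi N (x := ((k : ℝ) + 1) * u) (by positivity)
  have h2 := mul_le_mul_of_nonneg_left (TT_le_tHi N hu) (Nat.cast_nonneg (α := ℝ) (k - 1))
  have h3 := mul_le_mul_of_nonneg_left (tLo_le_TT N (x := 2 * u) (by positivity))
    (Nat.cast_nonneg (α := ℝ) k)
  linarith

/-- main factor, `u = a / b` -/
def mMain (N k a b : ℕ) : ℚ :=
  ((2 * NP b N (2 * a)) ^ k : ℕ) / ((k + 1) * NP b N ((k + 1) * a) * NP b N a ^ (k - 1) : ℕ)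

theorem mMain_eq (N k a b : ℕ) (hb : 0 < b) (hk : 1 ≤ k) : ((mMain N k a b : ℚ) : ℝ) =
    2 ^ k / (k + 1) * (PP N (2 * ((a : ℝ) / b)) ^ k /
      (PP N ((k + 1) * ((a : ℝ) / b)) * PP N ((a : ℝ) / b) ^ (k - 1))) := by
  have hb' : (0 : ℝ) < b := by exact_mod_cast hb
  have hu : 0 ≤ (a : ℝ) / b := by positivity
  unfold mMain
  push_cast
  rw [NP_eq b _ hb, NP_eq b _ hb, NP_eq b _ hb]
  push_cast
  have e1 : 2 * (a : ℝ) / b = 2 * ((a : ℝ) / b) := by ring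
  have e2 : ((k : ℝ) + 1) * a / b = (k + 1) * ((a : ℝ) / b) := by ring
  rw [e1, e2]
  have p1 := PP_pos N (x := ((k : ℝ) + 1) * ((a : ℝ) / b)) (by positivity)
  have p2 := PP_pos N (x := 2 * ((a : ℝ) / b)) (by positivity)
  have p3 := PP_pos N hu
  have p4 : (0 : ℝ) < (b : ℝ) ^ N * N.factorial := by positivity
  obtain ⟨j, rfl⟩ : ∃ j, k = j + 1 := ⟨k - 1, by omega⟩
  rw [Nat.add_sub_cancel]
  set c : ℝ := (b : ℝ) ^ N * N.factorial with hc
  set X := PP N (((j + 1 : ℕ) + 1) * ((a : ℝ) / b))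
  set Y := PP N (2 * ((a : ℝ) / b))
  set W := PP N ((a : ℝ) / b)
  clear_value c
  field_simp
  rw [mul_pow, mul_pow, mul_pow]
  ring

/-- lower bound of the moment -/
theorem mm_ge {N k a b : ℕ} (hb : 0 < b) (hk : 1 ≤ k) {q : ℚ}
    (h0 : 0 ≤ thLo N k ((a : ℚ) / b)) (h : q ≤ mMain N k a b * eLo (thLo N k ((a : ℚ) / b))) :
    (q : ℝ) ≤ mm k ((a : ℝ) / b) := by
  have hu : 0 ≤ (a : ℝ) / b := by positivity
  have h1 : ((thLo N k ((a : ℚ) / b) : ℚ) : ℝ) = thLo N k ((a : ℝ) / b) := by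
    unfold thLo tLo tHi
    push_cast
    rfl
  have h0' : 0 ≤ thLo N k ((a : ℝ) / b) := by
    rw [← h1]
    exact_mod_cast h0
  have h2 : (q : ℝ) ≤ ((mMain N k a b : ℚ) : ℝ) * eLo (thLo N k ((a : ℝ) / b)) := by
    have h3 : (q : ℝ) ≤ ((mMain N k a b * eLo (thLo N k ((a : ℚ) / b)) : ℚ) : ℝ) := by
      exact_mod_cast h
    refine h3.trans (le_of_eq ?_)
    rw [← h1]
    unfold eLo
    push_cast
    rfl
  have hp : (0 : ℝ) ≤ ((mMain N k a b : ℚ) : ℝ) := by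
    have : (0 : ℚ) ≤ mMain N k a b := by
      unfold mMain
      positivity
    exact_mod_cast this
  rw [mm_form N hk hu, ← mMain_eq N k a b hb hk]
  refine h2.trans (mul_le_mul_of_nonneg_left ?_ hp)
  exact (eLo_le h0').trans (exp_le_exp.2 (thLo_le N k hu))

/-- upper bound of the moment -/
theorem mm_le {N k a b : ℕ} (hb : 0 < b) (hk : 1 ≤ k) {q : ℚ}
    (h0 : 0 ≤ thHi N k ((a : ℚ) / b)) (h1 : thHi N k ((a : ℚ) / b) ≤ 1)
    (h : mMain N k a b * eHi (thHi N k ((a : ℚ) / b)) ≤ q) :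
    mm k ((a : ℝ) / b) ≤ (q : ℝ) := by
  have hu : 0 ≤ (a : ℝ) / b := by positivity
  have he : ((thHi N k ((a : ℚ) / b) : ℚ) : ℝ) = thHi N k ((a : ℝ) / b) := by
    unfold thHi tLo tHi
    push_cast
    rfl
  have h0' : 0 ≤ thHi N k ((a : ℝ) / b) := by
    rw [← he]
    exact_mod_cast h0
  have h1' : thHi N k ((a : ℝ) / b) ≤ 1 := by
    rw [← he]
    exact_mod_cast h1
  have h2 : ((mMain N k a b : ℚ) : ℝ) * eHi (thHi N k ((a : ℝ) / b)) ≤ (q : ℝ) := by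
    have h3 : ((mMain N k a b * eHi (thHi N k ((a : ℚ) / b)) : ℚ) : ℝ) ≤ (q : ℝ) := by
      exact_mod_cast h
    refine (le_of_eq ?_).trans h3
    rw [← he]
    unfold eHi
    push_cast
    rfl
  have hp : (0 : ℝ) ≤ ((mMain N k a b : ℚ) : ℝ) := by
    have : (0 : ℚ) ≤ mMain N k a b := by
      unfold mMain
      positivity
    exact_mod_cast this
  rw [mm_form N hk hu, ← mMain_eq N k a b hb hk]
  refine le_trans (mul_le_mul_of_nonneg_left ?_ hp) h2
  exact (exp_le_exp.2 (le_thHi N k hu)).trans (le_eHi h0' h1')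

end LpSec.W
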