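import Mathlib
import Pool.Agent.Lib.MP_1dbab3_gt.W.GamM

/-!
# Chords of the moments in `u`
-/

namespace LpSec.W

open Real Filter Topology Finset

/-- `g t = t - log (1 + t)` -/
noncomputable def gf (t : ℝ) : ℝ := t - log (1 + t)

/-- one factor of the moment -/
noncomputable def phk (κ x : ℝ) : ℝ := gf ((κ + 1) * x) + (κ - 1) * gf x - κ * gf (2 * x)

noncomputable def phk1 (κ x : ℝ) : ℝ :=
  (κ + 1) * ((κ + 1) * x / (1 + (κ + 1) * x)) + (κ - 1) * (x / (1 + x)) -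
    κ * (2 * (2 * x / (1 + 2 * x)))

noncomputable def phk2 (κ x : ℝ) : ℝ :=
  (κ + 1) ^ 2 / (1 + (κ + 1) * x) ^ 2 + (κ - 1) / (1 + x) ^ 2 - 4 * κ / (1 + 2 * x) ^ 2

theorem gf_hasDerivAt {c x : ℝ} (h : 0 < 1 + c * x) :
    HasDerivAt (fun x => gf (c * x)) (c * (c * x / (1 + c * x))) x := by
  unfold gf
  have h1 : HasDerivAt (fun x : ℝ => c * x) c x := by
    simpa using (hasDerivAt_id x).const_mul c
  have h2 : HasDerivAt (fun x : ℝ => log (1 + c * x)) (c / (1 + c * x)) x :=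
    (h1.const_add 1).log h.ne'
  refine (h1.sub h2).congr_deriv ?_
  field_simp
  ring

theorem gf1_hasDerivAt {c x : ℝ} (h : 0 < 1 + c * x) :
    HasDerivAt (fun x => c * x / (1 + c * x)) (c / (1 + c * x) ^ 2) x := by
  have h1 : HasDerivAt (fun x : ℝ => c * x) c x := by
    simpa using (hasDerivAt_id x).const_mul c
  refine (h1.div (h1.const_add 1) h.ne').congr_deriv ?_
  field_simp
  ring

theorem phk_hasDerivAt {κ x : ℝ} (hκ : 1 ≤ κ) (hx : 0 ≤ x) :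
    HasDerivAt (phk κ) (phk1 κ x) x := by
  have p1 : 0 < 1 + (κ + 1) * x := by positivity
  have p2 : 0 < 1 + 2 * x := by positivity
  have p3 : 0 < 1 + 1 * x := by linarith
  have h3 := gf_hasDerivAt p3
  simp only [one_mul] at h3
  exact ((gf_hasDerivAt p1).add (h3.const_mul (κ - 1))).sub ((gf_hasDerivAt p2).const_mul κ)

theorem phk1_hasDerivAt {κ x : ℝ} (hκ : 1 ≤ κ) (hx : 0 ≤ x) :
    HasDerivAt (phk1 κ) (phk2 κ x) x := by
  have p1 : 0 < 1 + (κ + 1) * x := by positivity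
  have p2 : 0 < 1 + 2 * x := by positivity
  have p3 : 0 < 1 + 1 * x := by linarith
  have h3 := gf1_hasDerivAt p3
  simp only [one_mul] at h3
  refine ((((gf1_hasDerivAt p1).const_mul (κ + 1)).add (h3.const_mul (κ - 1))).sub
    (((gf1_hasDerivAt p2).const_mul 2).const_mul κ)).congr_deriv ?_
  unfold phk2
  ring

theorem phk2_ge {κ x : ℝ} (hκ : 1 ≤ κ) (hx : 0 ≤ x) : -(3 * (κ - 1)) ≤ phk2 κ x := by
  unfold phk2
  have p1 : 0 < 1 + (κ + 1) * x := by positivity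
  have p2 : 0 < 1 + 2 * x := by positivity
  have p3 : 0 < 1 + x := by positivity
  have h1 : 2 / (1 + 2 * x) ≤ (κ + 1) / (1 + (κ + 1) * x) := by
    rw [div_le_div_iff₀ p2 p1]; nlinarith
  have h2 : (2 / (1 + 2 * x)) ^ 2 ≤ ((κ + 1) / (1 + (κ + 1) * x)) ^ 2 :=
    pow_le_pow_left₀ (by positivity) h1 2
  rw [div_pow, div_pow] at h2
  have h3 : 4 / (1 + 2 * x) ^ 2 - 1 / (1 + x) ^ 2 ≤ 3 := by
    rw [div_sub_div _ _ (by positivity) (by positivity), div_le_iff₀ (by positivity)]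
    have e : 3 * ((1 + 2 * x) ^ 2 * (1 + x) ^ 2) - (4 * (1 + x) ^ 2 - (1 + 2 * x) ^ 2 * 1) =
        14 * x + 39 * x ^ 2 + 36 * x ^ 3 + 12 * x ^ 4 := by ring
    have : 0 ≤ 14 * x + 39 * x ^ 2 + 36 * x ^ 3 + 12 * x ^ 4 := by positivity
    linarith
  have h4 : 0 ≤ κ - 1 := by linarith
  have h5 := mul_le_mul_of_nonneg_left h3 h4
  have e1 : 4 * κ / (1 + 2 * x) ^ 2 = 2 ^ 2 / (1 + 2 * x) ^ 2 + (κ - 1) * (4 / (1 + 2 * x) ^ 2) := by
    ring
  have e2 : (κ - 1) / (1 + x) ^ 2 = (κ - 1) * (1 / (1 + x) ^ 2) := by ring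
  rw [e1, e2]
  linarith

theorem phk2_le {κ x : ℝ} (hκ : 1 ≤ κ) (hx : 0 ≤ x) : phk2 κ x ≤ κ ^ 2 - κ := by
  unfold phk2
  set w : ℝ := (κ + 1) * x with hw
  have hw0 : 0 ≤ w := by positivity
  have p1 : 0 < 1 + w := by positivity
  have p2 : 0 < 1 + 2 * x := by positivity
  have p3 : 0 < 1 + x := by positivity
  have h4 : 0 ≤ κ - 1 := by linarith
  -- (κ+1)^2 (1 - 1/(1+w)^2) + (κ-1)(1 - 1/(1+x)^2) ≥ 4 κ (1 - 1/(1+2x)^2)
  have e1 : (κ + 1) ^ 2 / (1 + w) ^ 2 =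
      (κ + 1) ^ 2 - x * ((κ + 1) ^ 3 / (1 + w) + (κ + 1) ^ 3 / (1 + w) ^ 2) := by
    have : x * ((κ + 1) ^ 3 / (1 + w) + (κ + 1) ^ 3 / (1 + w) ^ 2) =
        (κ + 1) ^ 2 * (w * ((1 + w) + 1) / (1 + w) ^ 2) := by
      rw [hw]; field_simp
    rw [this]
    field_simp
    ring
  have e2 : (κ - 1) / (1 + x) ^ 2 = (κ - 1) - x * ((κ - 1) * ((2 + x) / (1 + x) ^ 2)) := by
    field_simp
    ring
  have e3 : 4 * κ / (1 + 2 * x) ^ 2 = 4 * κ - x * (16 * κ * (1 + x) / (1 + 2 * x) ^ 2) := by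
    field_simp
    ring
  rw [e1, e2, e3]
  have h1 : 2 * (κ + 1) / (1 + 2 * x) ≤ (κ + 1) ^ 2 / (1 + w) := by
    rw [div_le_div_iff₀ p2 p1, hw]; nlinarith
  have h2 : 2 * (κ + 1) ^ 2 / (1 + 2 * x) ≤ (κ + 1) ^ 3 / (1 + w) := by
    have := mul_le_mul_of_nonneg_left h1 (by positivity : 0 ≤ κ + 1)
    have e : (κ + 1) * (2 * (κ + 1) / (1 + 2 * x)) = 2 * (κ + 1) ^ 2 / (1 + 2 * x) := by ring
    have e' : (κ + 1) * ((κ + 1) ^ 2 / (1 + w)) = (κ + 1) ^ 3 / (1 + w) := by ring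
    rw [e, e'] at this
    exact this
  have h5 : 4 * (κ + 1) / (1 + 2 * x) ^ 2 ≤ (κ + 1) ^ 3 / (1 + w) ^ 2 := by
    have h6 : 2 / (1 + 2 * x) ≤ (κ + 1) / (1 + w) := by
      rw [div_le_div_iff₀ p2 p1, hw]; nlinarith
    have h7 := mul_le_mul_of_nonneg_left (pow_le_pow_left₀ (by positivity) h6 2)
      (by positivity : 0 ≤ κ + 1)
    have e : (κ + 1) * (2 / (1 + 2 * x)) ^ 2 = 4 * (κ + 1) / (1 + 2 * x) ^ 2 := by
      rw [div_pow]; ring
    have e' : (κ + 1) * ((κ + 1) / (1 + w)) ^ 2 = (κ + 1) ^ 3 / (1 + w) ^ 2 := by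
      rw [div_pow]; ring
    rw [e, e'] at h7
    exact h7
  have h8 : 4 / (1 + 2 * x) ^ 2 ≤ 2 / (1 + 2 * x) + (2 + x) / (1 + x) ^ 2 := by
    have a1 : 2 / (1 + 2 * x) ^ 2 ≤ 2 / (1 + 2 * x) := by
      rw [div_le_div_iff₀ (by positivity) p2]
      nlinarith [mul_nonneg hx p2.le]
    have a2 : 2 / (1 + 2 * x) ^ 2 ≤ (2 + x) / (1 + x) ^ 2 := by
      rw [div_le_div_iff₀ (by positivity) (by positivity)]
      have e : (2 + x) * (1 + 2 * x) ^ 2 - 2 * (1 + x) ^ 2 = 5 * x + 10 * x ^ 2 + 4 * x ^ 3 := by ring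
      have : 0 ≤ 5 * x + 10 * x ^ 2 + 4 * x ^ 3 := by positivity
      linarith
    have a3 : 4 / (1 + 2 * x) ^ 2 = 2 / (1 + 2 * x) ^ 2 + 2 / (1 + 2 * x) ^ 2 := by ring
    linarith
  have h9 : 16 * κ * (1 + x) / (1 + 2 * x) ^ 2 ≤ (κ + 1) ^ 3 / (1 + w) + (κ + 1) ^ 3 / (1 + w) ^ 2 +
      (κ - 1) * ((2 + x) / (1 + x) ^ 2) := by
    have a1 : 16 * κ * (1 + x) / (1 + 2 * x) ^ 2 = 8 * κ / (1 + 2 * x) + 8 * κ / (1 + 2 * x) ^ 2 := by
      field_simp
      ring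
    have a2 : 2 * (κ + 1) ^ 2 / (1 + 2 * x) = 8 * κ / (1 + 2 * x) +
        (κ - 1) * (κ - 1) * (2 / (1 + 2 * x)) := by
      field_simp
      ring
    have a3 : 4 * (κ + 1) / (1 + 2 * x) ^ 2 = 8 * κ / (1 + 2 * x) ^ 2 -
        (κ - 1) * (4 / (1 + 2 * x) ^ 2) := by
      field_simp
      ring
    have a4 := mul_le_mul_of_nonneg_left h8 h4
    -- need (κ-1)(κ-1) 2/(1+2x) + (κ-1)(2+x)/(1+x)^2 ≥ (κ-1) 4/(1+2x)^2 when κ ≥ 2; for κ < 2 use slack
    rcases le_total 2 κ with h | h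
    · have a5 : (κ - 1) * (2 / (1 + 2 * x)) ≤ (κ - 1) * (κ - 1) * (2 / (1 + 2 * x)) := by
        have : 0 ≤ 2 / (1 + 2 * x) := by positivity
        have : 1 ≤ κ - 1 := by linarith
        nlinarith [mul_nonneg h4 ‹0 ≤ 2 / (1 + 2 * x)›]
      linarith
    · -- κ ≤ 2: use more precise first term
      have b1 : (κ + 1) ^ 3 / (1 + w) - 2 * (κ + 1) ^ 2 / (1 + 2 * x) =
          (κ + 1) ^ 2 * (κ - 1) / ((1 + w) * (1 + 2 * x)) := by
        rw [hw]
        field_simp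
        ring
      have b2 : (κ - 1) * (4 / (1 + 2 * x) ^ 2) - (κ - 1) * ((2 + x) / (1 + x) ^ 2) ≤
          (κ - 1) * (2 / (1 + 2 * x)) := by linarith
      have b3 : (κ - 1) * (2 / (1 + 2 * x)) ≤ (κ + 1) ^ 2 * (κ - 1) / ((1 + w) * (1 + 2 * x)) +
          (κ - 1) * (κ - 1) * (2 / (1 + 2 * x)) + 2 * (κ - 1) / (1 + 2 * x) := by
        have c1 : 0 ≤ (κ + 1) ^ 2 * (κ - 1) / ((1 + w) * (1 + 2 * x)) := by positivity
        have c2 : 0 ≤ (κ - 1) * (κ - 1) * (2 / (1 + 2 * x)) := by positivity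
        have c3 : (κ - 1) * (2 / (1 + 2 * x)) = 2 * (κ - 1) / (1 + 2 * x) := by ring
        linarith
      -- sharper second term
      have b4 : 4 * (κ + 1) / (1 + 2 * x) ^ 2 + 0 ≤ (κ + 1) ^ 3 / (1 + w) ^ 2 := by linarith
      have b5 : (κ - 1) * (4 / (1 + 2 * x) ^ 2) - (κ - 1) * ((2 + x) / (1 + x) ^ 2) ≤
          (κ + 1) ^ 2 * (κ - 1) / ((1 + w) * (1 + 2 * x)) := by
        have c1 : (κ + 1) ^ 2 * (κ - 1) / ((1 + w) * (1 + 2 * x)) =
            (κ - 1) * (((κ + 1) ^ 2 / (1 + w)) / (1 + 2 * x)) := by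
          field_simp
        have c2 : 2 * (κ + 1) / (1 + 2 * x) / (1 + 2 * x) ≤ ((κ + 1) ^ 2 / (1 + w)) / (1 + 2 * x) :=
          div_le_div_of_nonneg_right h1 p2.le
        have c3 : 4 / (1 + 2 * x) ^ 2 ≤ 2 * (κ + 1) / (1 + 2 * x) / (1 + 2 * x) := by
          rw [div_div, ← sq]
          refine div_le_div_of_nonneg_right ?_ (by positivity)
          linarith
        have c4 : 0 ≤ (2 + x) / (1 + x) ^ 2 := by positivity
        rw [c1]
        have c5 := mul_le_mul_of_nonneg_left (c3.trans c2) h4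
        have c6 := mul_nonneg h4 c4
        linarith
      have b6 : 0 ≤ (κ - 1) * (κ - 1) * (2 / (1 + 2 * x)) := by positivity
      linarith
  have h10 := mul_le_mul_of_nonneg_left h9 hx
  nlinarith

theorem phk1_nonneg {κ x : ℝ} (hκ : 1 ≤ κ) (hx : 0 ≤ x) : 0 ≤ phk1 κ x := by
  unfold phk1
  set w : ℝ := (κ + 1) * x with hw
  have hw0 : 0 ≤ w := by positivity
  have p1 : 0 < 1 + w := by positivity
  have p2 : 0 < 1 + 2 * x := by positivity
  have p3 : 0 < 1 + x := by positivity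
  have h4 : 0 ≤ κ - 1 := by linarith
  have e1 : (κ + 1) * (w / (1 + w)) + (κ - 1) * (x / (1 + x)) - κ * (2 * (2 * x / (1 + 2 * x))) =
      x * ((κ + 1) ^ 2 / (1 + w) + (κ - 1) / (1 + x) - 4 * κ / (1 + 2 * x)) := by
    rw [hw]; ring
  rw [e1]
  refine mul_nonneg hx ?_
  have b1 : (κ + 1) ^ 2 / (1 + w) - 2 * (κ + 1) / (1 + 2 * x) =
      (κ + 1) * (κ - 1) / ((1 + w) * (1 + 2 * x)) := by
    rw [hw]
    field_simp
    ring
  have b2 : (κ - 1) / ((1 + x) * (1 + 2 * x)) ≤ (κ + 1) * (κ - 1) / ((1 + w) * (1 + 2 * x)) := by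
    rw [div_le_div_iff₀ (by positivity) (by positivity), hw]
    have : 0 ≤ κ * (κ - 1) * (1 + 2 * x) := by positivity
    nlinarith
  have b3 : (κ - 1) / ((1 + x) * (1 + 2 * x)) + (κ - 1) / (1 + x) = 2 * (κ - 1) / (1 + 2 * x) := by
    field_simp
    ring
  have b4 : 4 * κ / (1 + 2 * x) = 2 * (κ + 1) / (1 + 2 * x) + 2 * (κ - 1) / (1 + 2 * x) := by
    field_simp
    ring
  linarith

theorem phk_lower_cx {κ : ℝ} (hκ : 1 ≤ κ) :
    ConvexOn ℝ (Set.Ici 0) (fun x => phk κ x + 3 * (κ - 1) / 2 * x ^ 2) := by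
  refine convexOn_of_hasDerivWithinAt2_nonneg (convex_Ici 0)
    (f' := fun x => phk1 κ x + 3 * (κ - 1) * x) (f'' := fun x => phk2 κ x + 3 * (κ - 1)) ?_ ?_ ?_ ?_
  · intro x hx
    exact ((phk_hasDerivAt hκ hx).continuousAt.add (by fun_prop)).continuousWithinAt
  · intro x hx
    rw [interior_Ici] at hx
    refine HasDerivAt.hasDerivWithinAt (((phk_hasDerivAt hκ (le_of_lt hx)).add
      ((hasDerivAt_pow 2 x).const_mul (3 * (κ - 1) / 2))).congr_deriv ?_)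
    simp only [Nat.cast_ofNat, Nat.add_one_sub_one, pow_one]
    ring
  · intro x hx
    rw [interior_Ici] at hx
    refine HasDerivAt.hasDerivWithinAt (((phk1_hasDerivAt hκ (le_of_lt hx)).add
      ((hasDerivAt_id x).const_mul (3 * (κ - 1)))).congr_deriv ?_)
    ring
  · intro x hx
    rw [interior_Ici] at hx
    have := phk2_ge hκ (le_of_lt hx)
    linarith

theorem phk_upper_cx {κ : ℝ} (hκ : 1 ≤ κ) :
    ConvexOn ℝ (Set.Ici 0) (fun x => (κ ^ 2 - κ) / 2 * x ^ 2 - phk κ x) := by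
  refine convexOn_of_hasDerivWithinAt2_nonneg (convex_Ici 0)
    (f' := fun x => (κ ^ 2 - κ) * x - phk1 κ x) (f'' := fun x => (κ ^ 2 - κ) - phk2 κ x) ?_ ?_ ?_ ?_
  · intro x hx
    exact ((by fun_prop : ContinuousAt (fun x : ℝ => (κ ^ 2 - κ) / 2 * x ^ 2) x).sub
      (phk_hasDerivAt hκ hx).continuousAt).continuousWithinAt
  · intro x hx
    rw [interior_Ici] at hx
    refine HasDerivAt.hasDerivWithinAt ((((hasDerivAt_pow 2 x).const_mul ((κ ^ 2 - κ) / 2)).sub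
      (phk_hasDerivAt hκ (le_of_lt hx))).congr_deriv ?_)
    simp only [Nat.cast_ofNat, Nat.add_one_sub_one, pow_one]
    ring
  · intro x hx
    rw [interior_Ici] at hx
    refine HasDerivAt.hasDerivWithinAt ((((hasDerivAt_id x).const_mul (κ ^ 2 - κ)).sub
      (phk1_hasDerivAt hκ (le_of_lt hx))).congr_deriv ?_)
    ring
  · intro x hx
    rw [interior_Ici] at hx
    have := phk2_le hκ (le_of_lt hx)
    linarith

theorem phk_chord_le {κ x y l : ℝ} (hκ : 1 ≤ κ) (hx : 0 ≤ x) (hy : 0 ≤ y) (hl : 0 ≤ l)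
    (hl1 : l ≤ 1) : phk κ ((1 - l) * x + l * y) ≤ (1 - l) * phk κ x + l * phk κ y +
      3 * (κ - 1) / 2 * (l * (1 - l)) * (y - x) ^ 2 := by
  have h := (phk_lower_cx hκ).2 (show x ∈ Set.Ici (0 : ℝ) from hx)
    (show y ∈ Set.Ici (0 : ℝ) from hy) (show 0 ≤ 1 - l by linarith) hl (by ring)
  simp only [smul_eq_mul] at h
  have e : ((1 - l) * x + l * y) ^ 2 = (1 - l) * x ^ 2 + l * y ^ 2 - (l * (1 - l)) * (y - x) ^ 2 := by
    ring
  rw [e] at h
  nlinarith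

theorem phk_chord_ge {κ x y l : ℝ} (hκ : 1 ≤ κ) (hx : 0 ≤ x) (hy : 0 ≤ y) (hl : 0 ≤ l)
    (hl1 : l ≤ 1) : (1 - l) * phk κ x + l * phk κ y -
      (κ ^ 2 - κ) / 2 * (l * (1 - l)) * (y - x) ^ 2 ≤ phk κ ((1 - l) * x + l * y) := by
  have h := (phk_upper_cx hκ).2 (show x ∈ Set.Ici (0 : ℝ) from hx)
    (show y ∈ Set.Ici (0 : ℝ) from hy) (show 0 ≤ 1 - l by linarith) hl (by ring)
  simp only [smul_eq_mul] at h
  have e : ((1 - l) * x + l * y) ^ 2 = (1 - l) * x ^ 2 + l * y ^ 2 - (l * (1 - l)) * (y - x) ^ 2 := by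
    ring
  rw [e] at h
  nlinarith

theorem th_hasSum (N : ℕ) {k : ℕ} (hk : 1 ≤ k) {u : ℝ} (hu : 0 ≤ u) :
    HasSum (fun i : ℕ => phk k (u / ((N : ℝ) + 1 + i))) (th N k u) := by
  have h1 := (tt_summable N (x := ((k : ℝ) + 1) * u) (by positivity)).hasSum
  have h2 := (tt_summable N hu).hasSum
  have h3 := (tt_summable N (x := 2 * u) (by positivity)).hasSum
  have h4 := (h1.add (h2.mul_left ((k - 1 : ℕ) : ℝ))).sub (h3.mul_left (k : ℝ))
  have hk' : ((k - 1 : ℕ) : ℝ) = (k : ℝ) - 1 := by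
    rw [Nat.cast_sub hk, Nat.cast_one]
  have e : (fun i : ℕ => phk k (u / ((N : ℝ) + 1 + i))) = fun i : ℕ =>
      tt N (((k : ℝ) + 1) * u) i + ((k - 1 : ℕ) : ℝ) * tt N u i - (k : ℝ) * tt N (2 * u) i := by
    funext i
    unfold phk gf tt
    rw [hk', mul_div_assoc, mul_div_assoc]
  rw [e]
  exact h4

theorem SS02_le : SS 0 2 ≤ 1.645 := by
  have h := hasSum_zeta_two
  have h1 := (hasSum_nat_add_iff' 1).2 h
  simp only [Finset.sum_range_one, Nat.cast_zero] at h1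
  norm_num at h1
  have h2 : SS 0 2 = π ^ 2 / 6 := by
    unfold SS
    rw [← h1.tsum_eq]
    refine tsum_congr fun i => ?_
    push_cast
    rw [one_div]
    congr 2
    ring
  rw [h2]
  have hp := Real.pi_lt_d4
  have hp0 := Real.pi_pos
  nlinarith

theorem th_chord_le {k : ℕ} (hk : 1 ≤ k) {u v l : ℝ} (hu : 0 ≤ u) (hv : 0 ≤ v) (hl : 0 ≤ l)
    (hl1 : l ≤ 1) : th 0 k ((1 - l) * u + l * v) ≤ (1 - l) * th 0 k u + l * th 0 k v +
      3 * ((k : ℝ) - 1) / 8 * 1.645 * (v - u) ^ 2 := by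
  have hk1 : (1 : ℝ) ≤ k := by exact_mod_cast hk
  have hw : 0 ≤ (1 - l) * u + l * v := by
    have : 0 ≤ 1 - l := by linarith
    positivity
  have h1 := th_hasSum 0 hk hw
  have h2 := ((th_hasSum 0 hk hu).mul_left (1 - l)).add ((th_hasSum 0 hk hv).mul_left l)
  have h3 := (SS_summable 0 (le_refl 2)).hasSum.mul_left (3 * ((k : ℝ) - 1) / 2 * (l * (1 - l)) *
    (v - u) ^ 2)
  have h4 := hasSum_le (fun i => ?_) h1 (h2.add h3)
  · refine h4.trans ?_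
    have h5 : l * (1 - l) ≤ 1 / 4 := by nlinarith [sq_nonneg (l - 1 / 2)]
    have h5' : 0 ≤ l * (1 - l) := mul_nonneg hl (by linarith)
    have h6 := SS02_le
    have h7 : 0 ≤ SS 0 2 := tsum_nonneg fun i => by positivity
    have h8 : l * (1 - l) * SS 0 2 ≤ 1 / 4 * 1.645 := mul_le_mul h5 h6 h7 (by norm_num)
    have h9 : 0 ≤ 3 * ((k : ℝ) - 1) / 2 * (v - u) ^ 2 := by
      have : 0 ≤ (k : ℝ) - 1 := by linarith
      positivity
    have h10 := mul_le_mul_of_nonneg_left h8 h9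
    have e : ∑' i : ℕ, 1 / (((0 : ℕ) : ℝ) + 1 + i) ^ 2 = SS 0 2 := rfl
    rw [e]
    nlinarith
  · have p : (0 : ℝ) < ((0 : ℕ) : ℝ) + 1 + i := by positivity
    have h5 := phk_chord_le (κ := k) hk1 (x := u / (((0 : ℕ) : ℝ) + 1 + i))
      (y := v / (((0 : ℕ) : ℝ) + 1 + i)) (by positivity) (by positivity) hl hl1
    have e1 : ((1 - l) * u + l * v) / (((0 : ℕ) : ℝ) + 1 + i) =
        (1 - l) * (u / (((0 : ℕ) : ℝ) + 1 + i)) + l * (v / (((0 : ℕ) : ℝ) + 1 + i)) := by ring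
    have e2 : (v / (((0 : ℕ) : ℝ) + 1 + i) - u / (((0 : ℕ) : ℝ) + 1 + i)) ^ 2 =
        (v - u) ^ 2 * (1 / (((0 : ℕ) : ℝ) + 1 + i) ^ 2) := by
      rw [← sub_div, div_pow]; ring
    rw [e1]
    rw [e2] at h5
    refine h5.trans (le_of_eq ?_)
    ring

theorem th_chord_ge {k : ℕ} (hk : 1 ≤ k) {u v l : ℝ} (hu : 0 ≤ u) (hv : 0 ≤ v) (hl : 0 ≤ l)
    (hl1 : l ≤ 1) : (1 - l) * th 0 k u + l * th 0 k v -
      ((k : ℝ) ^ 2 - k) / 8 * 1.645 * (v - u) ^ 2 ≤ th 0 k ((1 - l) * u + l * v) := by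
  have hk1 : (1 : ℝ) ≤ k := by exact_mod_cast hk
  have hw : 0 ≤ (1 - l) * u + l * v := by
    have : 0 ≤ 1 - l := by linarith
    positivity
  have h1 := th_hasSum 0 hk hw
  have h2 := ((th_hasSum 0 hk hu).mul_left (1 - l)).add ((th_hasSum 0 hk hv).mul_left l)
  have h3 := (SS_summable 0 (le_refl 2)).hasSum.mul_left (((k : ℝ) ^ 2 - k) / 2 * (l * (1 - l)) *
    (v - u) ^ 2)
  have h4 := hasSum_le (fun i => ?_) (h2.sub h3) h1
  · refine le_trans ?_ h4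
    have h5 : l * (1 - l) ≤ 1 / 4 := by nlinarith [sq_nonneg (l - 1 / 2)]
    have h5' : 0 ≤ l * (1 - l) := mul_nonneg hl (by linarith)
    have h6 := SS02_le
    have h7 : 0 ≤ SS 0 2 := tsum_nonneg fun i => by positivity
    have h8 : l * (1 - l) * SS 0 2 ≤ 1 / 4 * 1.645 := mul_le_mul h5 h6 h7 (by norm_num)
    have h9 : 0 ≤ ((k : ℝ) ^ 2 - k) / 2 * (v - u) ^ 2 := by
      have : 0 ≤ (k : ℝ) ^ 2 - k := by nlinarith
      positivity
    have h10 := mul_le_mul_of_nonneg_left h8 h9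
    have e : ∑' i : ℕ, 1 / (((0 : ℕ) : ℝ) + 1 + i) ^ 2 = SS 0 2 := rfl
    rw [e]
    nlinarith
  · have p : (0 : ℝ) < ((0 : ℕ) : ℝ) + 1 + i := by positivity
    have h5 := phk_chord_ge (κ := k) hk1 (x := u / (((0 : ℕ) : ℝ) + 1 + i))
      (y := v / (((0 : ℕ) : ℝ) + 1 + i)) (by positivity) (by positivity) hl hl1
    have e1 : ((1 - l) * u + l * v) / (((0 : ℕ) : ℝ) + 1 + i) =
        (1 - l) * (u / (((0 : ℕ) : ℝ) + 1 + i)) + l * (v / (((0 : ℕ) : ℝ) + 1 + i)) := by ring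
    have e2 : (v / (((0 : ℕ) : ℝ) + 1 + i) - u / (((0 : ℕ) : ℝ) + 1 + i)) ^ 2 =
        (v - u) ^ 2 * (1 / (((0 : ℕ) : ℝ) + 1 + i) ^ 2) := by
      rw [← sub_div, div_pow]; ring
    rw [e1]
    rw [e2] at h5
    refine le_trans (le_of_eq ?_) h5
    ring

theorem phk_mono {κ : ℝ} (hκ : 1 ≤ κ) : MonotoneOn (phk κ) (Set.Ici 0) := by
  refine monotoneOn_of_deriv_nonneg (convex_Ici 0) (fun x hx =>
    (phk_hasDerivAt hκ hx).continuousAt.continuousWithinAt) (fun x hx => ?_) fun x hx => ?_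
  · rw [interior_Ici] at hx
    exact (phk_hasDerivAt hκ (le_of_lt hx)).differentiableAt.differentiableWithinAt
  · rw [interior_Ici] at hx
    rw [(phk_hasDerivAt hκ (le_of_lt hx)).deriv]
    exact phk1_nonneg hκ (le_of_lt hx)

theorem th_mono {N k : ℕ} (hk : 1 ≤ k) {u v : ℝ} (hu : 0 ≤ u) (huv : u ≤ v) :
    th N k u ≤ th N k v := by
  have hk1 : (1 : ℝ) ≤ k := by exact_mod_cast hk
  refine hasSum_le (fun i => ?_) (th_hasSum N hk hu) (th_hasSum N hk (hu.trans huv))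
  have p : (0 : ℝ) < (N : ℝ) + 1 + i := by positivity
  refine phk_mono hk1 ?_ ?_ (div_le_div_of_nonneg_right huv p.le)
  · exact (div_nonneg hu p.le : (0 : ℝ) ≤ _)
  · exact (div_nonneg (hu.trans huv) p.le : (0 : ℝ) ≤ _)

theorem mm_exp {k : ℕ} (hk : 1 ≤ k) {u : ℝ} (hu : 0 ≤ u) :
    mm k u = 2 ^ k / (k + 1) * exp (th 0 k u) := by
  rw [mm_form 0 hk hu]
  unfold PP
  simp

theorem mm_pos {k : ℕ} (hk : 1 ≤ k) {u : ℝ} (hu : 0 ≤ u) : 0 < mm k u := by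
  rw [mm_exp hk hu]
  positivity

theorem mm_mono {k : ℕ} (hk : 1 ≤ k) {u v : ℝ} (hu : 0 ≤ u) (huv : u ≤ v) : mm k u ≤ mm k v := by
  rw [mm_exp hk hu, mm_exp hk (hu.trans huv)]
  exact mul_le_mul_of_nonneg_left (exp_le_exp.2 (th_mono hk hu huv)) (by positivity)

/-- upper chord -/
theorem mm_chord_le {k : ℕ} (hk : 1 ≤ k) {u v l : ℝ} (hu : 0 ≤ u) (hv : 0 ≤ v) (hl : 0 ≤ l)
    (hl1 : l ≤ 1) : mm k ((1 - l) * u + l * v) ≤
      exp (3 * ((k : ℝ) - 1) / 8 * 1.645 * (v - u) ^ 2) * ((1 - l) * mm k u + l * mm k v) := by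
  have hw : 0 ≤ (1 - l) * u + l * v := by
    have : 0 ≤ 1 - l := by linarith
    positivity
  rw [mm_exp hk hw, mm_exp hk hu, mm_exp hk hv]
  have h1 := th_chord_le hk hu hv hl hl1
  have h2 := convexOn_exp.2 (Set.mem_univ (th 0 k u)) (Set.mem_univ (th 0 k v))
    (show 0 ≤ 1 - l by linarith) hl (by ring)
  simp only [smul_eq_mul] at h2
  set e := 3 * ((k : ℝ) - 1) / 8 * 1.645 * (v - u) ^ 2
  have h3 : exp (th 0 k ((1 - l) * u + l * v)) ≤
      exp e * ((1 - l) * exp (th 0 k u) + l * exp (th 0 k v)) := by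
    refine (exp_le_exp.2 h1).trans ?_
    rw [add_comm _ e, exp_add]
    exact mul_le_mul_of_nonneg_left h2 (exp_pos _).le
  have h4 : (0 : ℝ) ≤ 2 ^ k / (k + 1) := by positivity
  have h5 := mul_le_mul_of_nonneg_left h3 h4
  refine h5.trans (le_of_eq ?_)
  ring

theorem exp_gap {a b l : ℝ} (hab : a ≤ b) (hl : 0 ≤ l) (hl1 : l ≤ 1) :
    (1 - l) * exp a + l * exp b - (exp b - exp a) ^ 2 / (8 * exp a) ≤
      exp ((1 - l) * a + l * b) := by
  -- f(l) = exp((1-l) a + l b) - C l^2 is concave for C ≥ t^2 e^b / 2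
  set t : ℝ := b - a with ht
  have ht0 : 0 ≤ t := by rw [ht]; linarith
  have hsinh : t ^ 2 * exp b ≤ (exp b - exp a) ^ 2 / exp a := by
    have h1 : t * exp (t / 2) ≤ exp t - 1 := by
      -- t ≤ exp(t/2) - exp(-t/2)
      have h2 : t / 2 ≤ Real.sinh (t / 2) := Real.self_le_sinh_iff.2 (by positivity)
      rw [Real.sinh_eq] at h2
      have h3 : t ≤ exp (t / 2) - exp (-(t / 2)) := by linarith
      have h4 := mul_le_mul_of_nonneg_right h3 (exp_pos (t / 2)).le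
      have e1 : exp (t / 2) * exp (t / 2) = exp t := by rw [← exp_add]; congr 1; ring
      have e2 : exp (-(t / 2)) * exp (t / 2) = 1 := by rw [← exp_add]; simp
      nlinarith
    have h5 : 0 ≤ t * exp (t / 2) := by positivity
    have h6 : (t * exp (t / 2)) ^ 2 ≤ (exp t - 1) ^ 2 := pow_le_pow_left₀ h5 h1 2
    have e3 : (t * exp (t / 2)) ^ 2 = t ^ 2 * exp t := by
      rw [mul_pow, ← exp_nat_mul]; congr 2; push_cast; ring
    have e4 : exp b = exp a * exp t := by rw [← exp_add]; congr 1; rw [ht]; ring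
    rw [e3] at h6
    rw [e4, le_div_iff₀ (exp_pos a)]
    have e5 : (exp a * exp t - exp a) ^ 2 = exp a ^ 2 * (exp t - 1) ^ 2 := by ring
    rw [e5]
    have := mul_le_mul_of_nonneg_left h6 (sq_nonneg (exp a))
    nlinarith
  have hC : ConcaveOn ℝ (Set.Icc (0 : ℝ) 1)
      (fun l => exp ((1 - l) * a + l * b) - t ^ 2 * exp b / 2 * l ^ 2) := by
    refine concaveOn_of_hasDerivWithinAt2_nonpos (convex_Icc 0 1)
      (f' := fun l => t * exp ((1 - l) * a + l * b) - t ^ 2 * exp b * l)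
      (f'' := fun l => t ^ 2 * exp ((1 - l) * a + l * b) - t ^ 2 * exp b) ?_ ?_ ?_ ?_
    · fun_prop
    · intro x _
      have h1 : HasDerivAt (fun l : ℝ => (1 - l) * a + l * b) t x := by
        have := (((hasDerivAt_id x).const_sub 1).mul_const a).add ((hasDerivAt_id x).mul_const b)
        refine this.congr_deriv ?_
        rw [ht]; ring
      refine HasDerivAt.hasDerivWithinAt ((h1.exp.sub
        ((hasDerivAt_pow 2 x).const_mul (t ^ 2 * exp b / 2))).congr_deriv ?_)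
      simp only [Nat.cast_ofNat, Nat.add_one_sub_one, pow_one]
      ring
    · intro x _
      have h1 : HasDerivAt (fun l : ℝ => (1 - l) * a + l * b) t x := by
        have := (((hasDerivAt_id x).const_sub 1).mul_const a).add ((hasDerivAt_id x).mul_const b)
        refine this.congr_deriv ?_
        rw [ht]; ring
      refine HasDerivAt.hasDerivWithinAt (((h1.exp.const_mul t).sub
        ((hasDerivAt_id x).const_mul (t ^ 2 * exp b))).congr_deriv ?_)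
      ring
    · intro x hx
      rw [interior_Icc] at hx
      have h1 : exp ((1 - x) * a + x * b) ≤ exp b := by
        refine exp_le_exp.2 ?_
        have := hx.2
        nlinarith
      have := mul_le_mul_of_nonneg_left h1 (sq_nonneg t)
      linarith
  have h := hC.2 (show (0 : ℝ) ∈ Set.Icc (0 : ℝ) 1 from ⟨le_rfl, zero_le_one⟩)
    (show (1 : ℝ) ∈ Set.Icc (0 : ℝ) 1 from ⟨zero_le_one, le_rfl⟩)
    (show 0 ≤ 1 - l by linarith) hl (by ring)
  simp only [smul_eq_mul] at h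
  norm_num at h
  have h5 : l * (1 - l) ≤ 1 / 4 := by nlinarith [sq_nonneg (l - 1 / 2)]
  have h6 : 0 ≤ t ^ 2 * exp b := by positivity
  have h7 : t ^ 2 * exp b / 2 * (l * (1 - l)) ≤ (exp b - exp a) ^ 2 / (8 * exp a) := by
    have h8 : t ^ 2 * exp b / 2 * (l * (1 - l)) ≤ t ^ 2 * exp b / 2 * (1 / 4) :=
      mul_le_mul_of_nonneg_left h5 (by positivity)
    have h9 : (exp b - exp a) ^ 2 / (8 * exp a) = (exp b - exp a) ^ 2 / exp a / 8 := by
      rw [div_div, mul_comm (exp a) 8]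
    rw [h9]
    linarith
  nlinarith

/-- lower chord -/
theorem mm_chord_ge {k : ℕ} (hk : 1 ≤ k) {u v l : ℝ} (hu : 0 ≤ u) (huv : u ≤ v) (hl : 0 ≤ l)
    (hl1 : l ≤ 1) : exp (-(((k : ℝ) ^ 2 - k) / 8 * 1.645 * (v - u) ^ 2)) *
      ((1 - l) * mm k u + l * mm k v - (mm k v - mm k u) ^ 2 / (8 * mm k u)) ≤
      mm k ((1 - l) * u + l * v) := by
  have hv := hu.trans huv
  have hw : 0 ≤ (1 - l) * u + l * v := by
    have : 0 ≤ 1 - l := by linarith
    positivity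
  rw [mm_exp hk hw, mm_exp hk hu, mm_exp hk hv]
  have h1 := th_chord_ge hk hu hv hl hl1
  have h2 := exp_gap (th_mono (N := 0) hk hu huv) hl hl1
  set e := ((k : ℝ) ^ 2 - k) / 8 * 1.645 * (v - u) ^ 2
  set c : ℝ := 2 ^ k / (k + 1)
  have hc : 0 < c := by positivity
  have h3 : exp (-e) * exp ((1 - l) * th 0 k u + l * th 0 k v) ≤
      exp (th 0 k ((1 - l) * u + l * v)) := by
    rw [← exp_add]
    exact exp_le_exp.2 (by linarith)
  have h4 : exp (-e) * ((1 - l) * exp (th 0 k u) + l * exp (th 0 k v) -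
      (exp (th 0 k v) - exp (th 0 k u)) ^ 2 / (8 * exp (th 0 k u))) ≤
      exp (th 0 k ((1 - l) * u + l * v)) :=
    (mul_le_mul_of_nonneg_left h2 (exp_pos _).le).trans h3
  have h5 := mul_le_mul_of_nonneg_left h4 hc.le
  refine le_trans (le_of_eq ?_) h5
  have hE : exp (th 0 k u) ≠ 0 := (exp_pos _).ne'
  field_simp

end LpSec.W
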