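import Mathlib
import Pool.Agent.Lib.MP_1dbab3_gt.WKey
import Pool.Agent.Lib.MP_1dbab3_gt.W.GamM

/-!
# Checker for the cells in `u = 1 / α`: `Lobe (1 / u)` from tables of moments
-/

open Real MeasureTheory Set Filter Topology

namespace LpSec.W

/-- one value for each of the moments `2, …, 16`, scaled by `10^10` -/
structure Rw where
  m2 : ℕ
  m3 : ℕ
  m4 : ℕ
  m5 : ℕ
  m6 : ℕ
  m7 : ℕ
  m8 : ℕ
  m9 : ℕ
  m10 : ℕ
  m11 : ℕ
  m12 : ℕ
  m13 : ℕ
  m14 : ℕ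
  m15 : ℕ
  m16 : ℕ

/-- the values as a real function (`m_0 = m_1 = 1`) -/
noncomputable def Rw.f (r : Rw) : ℕ → ℝ
  | 0 => 1
  | 1 => 1
  | 2 => (r.m2 : ℝ) / 10000000000
  | 3 => (r.m3 : ℝ) / 10000000000
  | 4 => (r.m4 : ℝ) / 10000000000
  | 5 => (r.m5 : ℝ) / 10000000000
  | 6 => (r.m6 : ℝ) / 10000000000
  | 7 => (r.m7 : ℝ) / 10000000000
  | 8 => (r.m8 : ℝ) / 10000000000
  | 9 => (r.m9 : ℝ) / 10000000000
  | 10 => (r.m10 : ℝ) / 10000000000
  | 11 => (r.m11 : ℝ) / 10000000000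
  | 12 => (r.m12 : ℝ) / 10000000000
  | 13 => (r.m13 : ℝ) / 10000000000
  | 14 => (r.m14 : ℝ) / 10000000000
  | 15 => (r.m15 : ℝ) / 10000000000
  | 16 => (r.m16 : ℝ) / 10000000000
  | _ => 0

/-- one table entry at `u = a / D` -/
def ent (N a D k lo hi : ℕ) : Bool :=
  decide (0 ≤ thLo N k ((a : ℚ) / D)) &&
  (decide (((lo : ℚ) / 10000000000) ≤ mMain N k a D * eLo (thLo N k ((a : ℚ) / D))) &&
  (decide (thHi N k ((a : ℚ) / D) ≤ 1) &&
  decide (mMain N k a D * eHi (thHi N k ((a : ℚ) / D)) ≤ ((hi : ℚ) / 10000000000))))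

theorem ent_sound {N a D k lo hi : ℕ} (hD : 0 < D) (hk : 1 ≤ k) (h : ent N a D k lo hi = true) :
    (lo : ℝ) / 10000000000 ≤ mm k ((a : ℝ) / D) ∧ mm k ((a : ℝ) / D) ≤ (hi : ℝ) / 10000000000 := by
  unfold ent at h
  simp only [Bool.and_eq_true, decide_eq_true_eq] at h
  obtain ⟨h1, h2, h4, h5⟩ := h
  have hle : ((thLo N k ((a : ℚ) / D) : ℚ) : ℝ) ≤ ((thHi N k ((a : ℚ) / D) : ℚ) : ℝ) := by
    have e1 : ((thLo N k ((a : ℚ) / D) : ℚ) : ℝ) = thLo N k ((a : ℝ) / D) := by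
      unfold thLo tLo tHi
      push_cast
      ring
    have e2 : ((thHi N k ((a : ℚ) / D) : ℚ) : ℝ) = thHi N k ((a : ℝ) / D) := by
      unfold thHi tLo tHi
      push_cast
      ring
    rw [e1, e2]
    have hu : 0 ≤ (a : ℝ) / D := by positivity
    exact (thLo_le N k hu).trans (le_thHi N k hu)
  have h3 : 0 ≤ thHi N k ((a : ℚ) / D) := by
    have : (0 : ℝ) ≤ ((thHi N k ((a : ℚ) / D) : ℚ) : ℝ) := le_trans (by exact_mod_cast h1) hle
    exact_mod_cast this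
  have e := mm_ge (N := N) (a := a) (b := D) hD hk h1 h2
  have f := mm_le (N := N) (a := a) (b := D) hD hk h3 h4 h5
  push_cast at e f
  exact ⟨e, f⟩

/-- the row of table entries at `u = a / D` -/
def rowOkR (N a D : ℕ) (l u : Rw) : Bool :=
  ent N a D 2 l.m2 u.m2 && (
  ent N a D 3 l.m3 u.m3 && (
  ent N a D 4 l.m4 u.m4 && (
  ent N a D 5 l.m5 u.m5 && (
  ent N a D 6 l.m6 u.m6 && (
  ent N a D 7 l.m7 u.m7 && (
  ent N a D 8 l.m8 u.m8 && (
  ent N a D 9 l.m9 u.m9 && (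
  ent N a D 10 l.m10 u.m10 && (
  ent N a D 11 l.m11 u.m11 && (
  ent N a D 12 l.m12 u.m12 && (
  ent N a D 13 l.m13 u.m13 && (
  ent N a D 14 l.m14 u.m14 && (
  ent N a D 15 l.m15 u.m15 && (
  ent N a D 16 l.m16 u.m16))))))))))))))

/-- bounds of the moments at a point -/
structure RowB (v : ℝ) (l u : Rw) : Prop where
  b2 : (l.m2 : ℝ) / 10000000000 ≤ mm 2 v ∧ mm 2 v ≤ (u.m2 : ℝ) / 10000000000
  b3 : (l.m3 : ℝ) / 10000000000 ≤ mm 3 v ∧ mm 3 v ≤ (u.m3 : ℝ) / 10000000000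
  b4 : (l.m4 : ℝ) / 10000000000 ≤ mm 4 v ∧ mm 4 v ≤ (u.m4 : ℝ) / 10000000000
  b5 : (l.m5 : ℝ) / 10000000000 ≤ mm 5 v ∧ mm 5 v ≤ (u.m5 : ℝ) / 10000000000
  b6 : (l.m6 : ℝ) / 10000000000 ≤ mm 6 v ∧ mm 6 v ≤ (u.m6 : ℝ) / 10000000000
  b7 : (l.m7 : ℝ) / 10000000000 ≤ mm 7 v ∧ mm 7 v ≤ (u.m7 : ℝ) / 10000000000
  b8 : (l.m8 : ℝ) / 10000000000 ≤ mm 8 v ∧ mm 8 v ≤ (u.m8 : ℝ) / 10000000000
  b9 : (l.m9 : ℝ) / 10000000000 ≤ mm 9 v ∧ mm 9 v ≤ (u.m9 : ℝ) / 10000000000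
  b10 : (l.m10 : ℝ) / 10000000000 ≤ mm 10 v ∧ mm 10 v ≤ (u.m10 : ℝ) / 10000000000
  b11 : (l.m11 : ℝ) / 10000000000 ≤ mm 11 v ∧ mm 11 v ≤ (u.m11 : ℝ) / 10000000000
  b12 : (l.m12 : ℝ) / 10000000000 ≤ mm 12 v ∧ mm 12 v ≤ (u.m12 : ℝ) / 10000000000
  b13 : (l.m13 : ℝ) / 10000000000 ≤ mm 13 v ∧ mm 13 v ≤ (u.m13 : ℝ) / 10000000000
  b14 : (l.m14 : ℝ) / 10000000000 ≤ mm 14 v ∧ mm 14 v ≤ (u.m14 : ℝ) / 10000000000
  b15 : (l.m15 : ℝ) / 10000000000 ≤ mm 15 v ∧ mm 15 v ≤ (u.m15 : ℝ) / 10000000000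
  b16 : (l.m16 : ℝ) / 10000000000 ≤ mm 16 v ∧ mm 16 v ≤ (u.m16 : ℝ) / 10000000000

theorem rowOkR_sound {N a D : ℕ} {l u : Rw} (hD : 0 < D) (h : rowOkR N a D l u = true) :
    RowB ((a : ℝ) / D) l u := by
  unfold rowOkR at h
  simp only [Bool.and_eq_true] at h
  obtain ⟨h2, h3, h4, h5, h6, h7, h8, h9, h10, h11, h12, h13, h14, h15, h16⟩ := h
  exact ⟨ent_sound hD (by norm_num) h2, ent_sound hD (by norm_num) h3, ent_sound hD (by norm_num) h4, ent_sound hD (by norm_num) h5, ent_sound hD (by norm_num) h6, ent_sound hD (by norm_num) h7, ent_sound hD (by norm_num) h8, ent_sound hD (by norm_num) h9, ent_sound hD (by norm_num) h10, ent_sound hD (by norm_num) h11, ent_sound hD (by norm_num) h12, ent_sound hD (by norm_num) h13, ent_sound hD (by norm_num) h14, ent_sound hD (by norm_num) h15, ent_sound hD (by norm_num) h16⟩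

/-- check of upper bounds on a cell of width `1 / D` -/
def evOk (D k au bu x y : ℕ) : Bool :=
  Nat.ble (au * (8000 * D ^ 2) + x * (4935 * (k - 1))) (x * (8000 * D ^ 2)) &&
  Nat.ble (bu * (8000 * D ^ 2) + y * (4935 * (k - 1))) (y * (8000 * D ^ 2))

theorem ev_sound {D k au bu x y : ℕ} (hD : 0 < D) (hk : 1 ≤ k) {u v l : ℝ} (hu : 0 ≤ u)
    (hv : v = u + 1 / D) (hl : 0 ≤ l) (hl1 : l ≤ 1) (hA : mm k u ≤ (au : ℝ) / 10000000000)
    (hB : mm k v ≤ (bu : ℝ) / 10000000000) (h : evOk D k au bu x y = true) :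
    mm k ((1 - l) * u + l * v) ≤ (1 - l) * ((x : ℝ) / 10000000000) + l * ((y : ℝ) / 10000000000) := by
  unfold evOk at h
  simp only [Bool.and_eq_true, Nat.ble_eq] at h
  obtain ⟨h1, h2⟩ := h
  have hD' : (0 : ℝ) < D := by exact_mod_cast hD
  have hv0 : 0 ≤ v := by rw [hv]; positivity
  have hk1 : (1 : ℝ) ≤ k := by exact_mod_cast hk
  have h3 := mm_chord_le hk hu hv0 hl hl1
  set e : ℝ := 3 * ((k : ℝ) - 1) / 8 * 1.645 * (v - u) ^ 2 with he
  have he' : e * (8000 * (D : ℝ) ^ 2) = 4935 * ((k : ℝ) - 1) := by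
    rw [he, hv]
    field_simp
    ring
  have hden : (0 : ℝ) < 8000 * (D : ℝ) ^ 2 := by positivity
  have hkc : ((k - 1 : ℕ) : ℝ) = (k : ℝ) - 1 := by rw [Nat.cast_sub hk, Nat.cast_one]
  have g1 : (au : ℝ) * (8000 * (D : ℝ) ^ 2) + x * (4935 * ((k : ℝ) - 1)) ≤
      x * (8000 * (D : ℝ) ^ 2) := by
    rw [← hkc]
    exact_mod_cast h1
  have g2 : (bu : ℝ) * (8000 * (D : ℝ) ^ 2) + y * (4935 * ((k : ℝ) - 1)) ≤
      y * (8000 * (D : ℝ) ^ 2) := by
    rw [← hkc]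
    exact_mod_cast h2
  have i1 : (au : ℝ) ≤ (1 - e) * x := by
    rw [← he'] at g1
    have : (au : ℝ) * (8000 * (D : ℝ) ^ 2) ≤ ((1 - e) * x) * (8000 * (D : ℝ) ^ 2) := by linarith
    exact le_of_mul_le_mul_right this hden
  have i2 : (bu : ℝ) ≤ (1 - e) * y := by
    rw [← he'] at g2
    have : (bu : ℝ) * (8000 * (D : ℝ) ^ 2) ≤ ((1 - e) * y) * (8000 * (D : ℝ) ^ 2) := by linarith
    exact le_of_mul_le_mul_right this hden
  have hexp : exp e * (1 - e) ≤ 1 := by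
    have h4 := Real.one_sub_le_exp_neg e
    have h5 := mul_le_mul_of_nonneg_left h4 (exp_pos e).le
    rwa [← exp_add, add_neg_cancel, exp_zero] at h5
  have hx : (0 : ℝ) ≤ x := Nat.cast_nonneg _
  have hy : (0 : ℝ) ≤ y := Nat.cast_nonneg _
  have h1l : 0 ≤ 1 - l := by linarith
  have h6 : (1 - l) * mm k u + l * mm k v ≤
      (1 - e) * ((1 - l) * ((x : ℝ) / 10000000000) + l * ((y : ℝ) / 10000000000)) := by
    have j1 : mm k u ≤ (1 - e) * ((x : ℝ) / 10000000000) := by linarith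
    have j2 : mm k v ≤ (1 - e) * ((y : ℝ) / 10000000000) := by linarith
    have := mul_le_mul_of_nonneg_left j1 h1l
    have := mul_le_mul_of_nonneg_left j2 hl
    linarith
  have h7 : 0 ≤ (1 - l) * ((x : ℝ) / 10000000000) + l * ((y : ℝ) / 10000000000) := by positivity
  calc mm k ((1 - l) * u + l * v) ≤ exp e * ((1 - l) * mm k u + l * mm k v) := h3
    _ ≤ exp e * ((1 - e) * ((1 - l) * ((x : ℝ) / 10000000000) + l * ((y : ℝ) / 10000000000))) :=
        mul_le_mul_of_nonneg_left h6 (exp_pos e).le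
    _ = (exp e * (1 - e)) * ((1 - l) * ((x : ℝ) / 10000000000) + l * ((y : ℝ) / 10000000000)) := by
        ring
    _ ≤ 1 * ((1 - l) * ((x : ℝ) / 10000000000) + l * ((y : ℝ) / 10000000000)) :=
        mul_le_mul_of_nonneg_right hexp h7
    _ = _ := one_mul _

/-- check of lower bounds on a cell of width `1 / D` -/
def odOk (D k al bl bu x y : ℕ) : Bool :=
  Nat.ble 1 al && (Nat.ble al bu &&
  (Nat.ble (x * (8 * al) * (8000 * D ^ 2) + 1645 * (k * (k - 1)) * (8 * al * al) +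
    (8000 * D ^ 2) * (bu - al) ^ 2) ((8000 * D ^ 2) * (8 * al * al)) &&
  Nat.ble (y * (8 * al) * (8000 * D ^ 2) + 1645 * (k * (k - 1)) * (8 * al * bl) +
    (8000 * D ^ 2) * (bu - al) ^ 2) ((8000 * D ^ 2) * (8 * al * bl))))

theorem od_sound {D k al bl bu x y : ℕ} (hD : 0 < D) (hk : 1 ≤ k) {u v l : ℝ} (hu : 0 ≤ u)
    (hv : v = u + 1 / D) (hl : 0 ≤ l) (hl1 : l ≤ 1) (hA : (al : ℝ) / 10000000000 ≤ mm k u)
    (hB : (bl : ℝ) / 10000000000 ≤ mm k v) (hB' : mm k v ≤ (bu : ℝ) / 10000000000)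
    (h : odOk D k al bl bu x y = true) :
    (1 - l) * ((x : ℝ) / 10000000000) + l * ((y : ℝ) / 10000000000) ≤
      mm k ((1 - l) * u + l * v) := by
  unfold odOk at h
  simp only [Bool.and_eq_true, Nat.ble_eq] at h
  obtain ⟨h0, h00, h1, h2⟩ := h
  have hD' : (0 : ℝ) < D := by exact_mod_cast hD
  have huv : u ≤ v := by
    rw [hv]
    have : (0 : ℝ) ≤ 1 / D := by positivity
    linarith
  have hk1 : (1 : ℝ) ≤ k := by exact_mod_cast hk
  have h3 := mm_chord_ge hk hu huv hl hl1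
  set e : ℝ := ((k : ℝ) ^ 2 - k) / 8 * 1.645 * (v - u) ^ 2 with he
  have he' : e * (8000 * (D : ℝ) ^ 2) = 1645 * ((k : ℝ) * (k - 1)) := by
    rw [he, hv]
    field_simp
    ring
  have hden : (0 : ℝ) < 8000 * (D : ℝ) ^ 2 := by positivity
  have hkc : ((k - 1 : ℕ) : ℝ) = (k : ℝ) - 1 := by rw [Nat.cast_sub hk, Nat.cast_one]
  have hbc : ((bu - al : ℕ) : ℝ) = (bu : ℝ) - al := by rw [Nat.cast_sub h00]
  have hal : (1 : ℝ) ≤ al := by exact_mod_cast h0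
  have hbl : (0 : ℝ) ≤ bl := Nat.cast_nonneg _
  have hx : (0 : ℝ) ≤ x := Nat.cast_nonneg _
  have hy : (0 : ℝ) ≤ y := Nat.cast_nonneg _
  set d : ℝ := (bu : ℝ) - al with hd
  have hd0 : 0 ≤ d := by
    have : (al : ℝ) ≤ bu := by exact_mod_cast h00
    linarith
  have g1 : (x : ℝ) * (8 * al) * (8000 * (D : ℝ) ^ 2) + 1645 * ((k : ℝ) * (k - 1)) * (8 * al * al) +
      (8000 * (D : ℝ) ^ 2) * d ^ 2 ≤ (8000 * (D : ℝ) ^ 2) * (8 * al * al) := by
    rw [← hkc, ← hbc]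
    exact_mod_cast h1
  have g2 : (y : ℝ) * (8 * al) * (8000 * (D : ℝ) ^ 2) + 1645 * ((k : ℝ) * (k - 1)) * (8 * al * bl) +
      (8000 * (D : ℝ) ^ 2) * d ^ 2 ≤ (8000 * (D : ℝ) ^ 2) * (8 * al * bl) := by
    rw [← hkc, ← hbc]
    exact_mod_cast h2
  rw [← he'] at g1 g2
  have he0 : 0 ≤ e := by
    have : 0 ≤ (k : ℝ) ^ 2 - k := by nlinarith
    rw [he]
    positivity
  set g : ℝ := d ^ 2 / (8 * al) with hg
  have hg0 : 0 ≤ g := by positivity
  have hgd : d ^ 2 = g * (8 * al) := by rw [hg]; field_simp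
  rw [hgd] at g1 g2
  have h8al : (0 : ℝ) < 8 * al := by linarith
  have i1 : (x : ℝ) + g ≤ (1 - e) * al := by
    have : ((x : ℝ) + g) * (8 * al * (8000 * (D : ℝ) ^ 2)) ≤
        ((1 - e) * al) * (8 * al * (8000 * (D : ℝ) ^ 2)) := by linarith
    exact le_of_mul_le_mul_right this (by positivity)
  have i2 : (y : ℝ) + g ≤ (1 - e) * bl := by
    have : ((y : ℝ) + g) * (8 * al * (8000 * (D : ℝ) ^ 2)) ≤
        ((1 - e) * bl) * (8 * al * (8000 * (D : ℝ) ^ 2)) := by linarith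
    exact le_of_mul_le_mul_right this (by positivity)
  have h1l : 0 ≤ 1 - l := by linarith
  have hmu : 0 < mm k u := lt_of_lt_of_le (by positivity) hA
  have hmono : mm k u ≤ mm k v := mm_mono hk hu huv
  -- the correction term
  have hG : (mm k v - mm k u) ^ 2 / (8 * mm k u) ≤ g / 10000000000 := by
    have a1 : mm k v - mm k u ≤ d / 10000000000 := by rw [hd]; linarith
    have a2 : 0 ≤ mm k v - mm k u := by linarith
    have a3 : (mm k v - mm k u) ^ 2 ≤ (d / 10000000000) ^ 2 := pow_le_pow_left₀ a2 a1 2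
    have a4 : (8 : ℝ) * ((al : ℝ) / 10000000000) ≤ 8 * mm k u := by linarith
    calc (mm k v - mm k u) ^ 2 / (8 * mm k u) ≤ (d / 10000000000) ^ 2 / (8 * ((al : ℝ) / 10000000000)) :=
          div_le_div₀ (by positivity) a3 (by positivity) a4
      _ = g / 10000000000 := by rw [hg]; field_simp
  have hxe : 0 ≤ (1 - e) * al := by linarith
  have he1 : 0 ≤ 1 - e := by
    by_contra hneg
    push Not at hneg
    have : (1 - e) * al < 0 := mul_neg_of_neg_of_pos hneg (by linarith)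
    linarith
  have hexp : 1 - e ≤ exp (-e) := Real.one_sub_le_exp_neg e
  set X : ℝ := (1 - l) * mm k u + l * mm k v - (mm k v - mm k u) ^ 2 / (8 * mm k u) with hX
  have hXge : (1 - l) * (((al : ℝ) - g) / 10000000000) + l * (((bl : ℝ) - g) / 10000000000) ≤ X := by
    have := mul_le_mul_of_nonneg_left hA h1l
    have := mul_le_mul_of_nonneg_left hB hl
    rw [hX]
    linarith
  have hga : (x : ℝ) ≤ (1 - e) * ((al : ℝ) - g) := by nlinarith
  have hgb : (y : ℝ) ≤ (1 - e) * ((bl : ℝ) - g) := by nlinarith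
  have hag : 0 ≤ (al : ℝ) - g := by nlinarith
  have hbg : 0 ≤ (bl : ℝ) - g := by nlinarith
  have hX0 : 0 ≤ X := by
    refine le_trans ?_ hXge
    positivity
  calc (1 - l) * ((x : ℝ) / 10000000000) + l * ((y : ℝ) / 10000000000) ≤
        (1 - e) * ((1 - l) * (((al : ℝ) - g) / 10000000000) + l * (((bl : ℝ) - g) / 10000000000)) := by
        have := mul_le_mul_of_nonneg_left hga h1l
        have := mul_le_mul_of_nonneg_left hgb hl
        linarith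
    _ ≤ (1 - e) * X := mul_le_mul_of_nonneg_left hXge he1
    _ ≤ exp (-e) * X := mul_le_mul_of_nonneg_right hexp hX0
    _ ≤ _ := h3

/-- alternating upper bounds of the moments on a cell -/
def ABox (α : ℝ) (A B : Rw) : Prop := ∃ l : ℝ, 0 ≤ l ∧ l ≤ 1 ∧ ∀ k, k < 17 →
    (-1) ^ k * mom α k ≤ (1 - l) * ((-1) ^ k * A.f k) + l * ((-1) ^ k * B.f k)

theorem ABox.lin {α : ℝ} {A B : Rw} (h : ABox α A B) (n : ℕ) (hn : n ≤ 17) (c : ℕ → ℝ)
    (hc : ∀ k, 0 ≤ c k) {V : ℝ} (hA : ∑ k ∈ Finset.range n, c k * ((-1) ^ k * A.f k) ≤ V)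
    (hB : ∑ k ∈ Finset.range n, c k * ((-1) ^ k * B.f k) ≤ V) :
    ∑ k ∈ Finset.range n, c k * ((-1) ^ k * mom α k) ≤ V := by
  obtain ⟨l, hl0, hl1, hl⟩ := h
  have h1 : ∀ k ∈ Finset.range n, c k * ((-1) ^ k * mom α k) ≤
      (1 - l) * (c k * ((-1) ^ k * A.f k)) + l * (c k * ((-1) ^ k * B.f k)) := by
    intro k hk
    have hk' : k < 17 := lt_of_lt_of_le (Finset.mem_range.1 hk) hn
    have := mul_le_mul_of_nonneg_left (hl k hk') (hc k)
    linarith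
  refine (Finset.sum_le_sum h1).trans ?_
  rw [Finset.sum_add_distrib, ← Finset.mul_sum, ← Finset.mul_sum]
  have h6 : 0 ≤ 1 - l := by linarith
  have := mul_le_mul_of_nonneg_left hA h6
  have := mul_le_mul_of_nonneg_left hB hl0
  linarith

/-- check of a cell -/
def cellOk (D : ℕ) (al au bl bu A B : Rw) : Bool :=
  evOk D 2 au.m2 bu.m2 A.m2 B.m2 && (
  odOk D 3 al.m3 bl.m3 bu.m3 A.m3 B.m3 && (
  evOk D 4 au.m4 bu.m4 A.m4 B.m4 && (
  odOk D 5 al.m5 bl.m5 bu.m5 A.m5 B.m5 && (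
  evOk D 6 au.m6 bu.m6 A.m6 B.m6 && (
  odOk D 7 al.m7 bl.m7 bu.m7 A.m7 B.m7 && (
  evOk D 8 au.m8 bu.m8 A.m8 B.m8 && (
  odOk D 9 al.m9 bl.m9 bu.m9 A.m9 B.m9 && (
  evOk D 10 au.m10 bu.m10 A.m10 B.m10 && (
  odOk D 11 al.m11 bl.m11 bu.m11 A.m11 B.m11 && (
  evOk D 12 au.m12 bu.m12 A.m12 B.m12 && (
  odOk D 13 al.m13 bl.m13 bu.m13 A.m13 B.m13 && (
  evOk D 14 au.m14 bu.m14 A.m14 B.m14 && (
  odOk D 15 al.m15 bl.m15 bu.m15 A.m15 B.m15 && (
  evOk D 16 au.m16 bu.m16 A.m16 B.m16))))))))))))))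

theorem cellOk_sound {D : ℕ} {al au bl bu A B : Rw} {u v w : ℝ} (hD : 0 < D) (hu : 0 ≤ u)
    (hv : v = u + 1 / D) (ha : RowB u al au) (hb : RowB v bl bu)
    (h : cellOk D al au bl bu A B = true) (hw0 : 0 < w) (hw1 : w < 1) (huw : u ≤ w) (hwv : w ≤ v) :
    ABox (1 / w) A B := by
  unfold cellOk at h
  simp only [Bool.and_eq_true] at h
  obtain ⟨h2, h3, h4, h5, h6, h7, h8, h9, h10, h11, h12, h13, h14, h15, h16⟩ := h
  have hD' : (0 : ℝ) < D := by exact_mod_cast hD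
  have hα : 1 < 1 / w := by rw [lt_div_iff₀ hw0]; linarith
  set l : ℝ := (w - u) * D with hl
  have hl0 : 0 ≤ l := mul_nonneg (by linarith) hD'.le
  have hl1 : l ≤ 1 := by
    rw [hl]
    have : w - u ≤ 1 / D := by rw [hv] at hwv; linarith
    calc (w - u) * D ≤ 1 / D * D := mul_le_mul_of_nonneg_right this hD'.le
      _ = 1 := by field_simp
  have hww : (1 - l) * u + l * v = w := by
    rw [hv, hl]
    field_simp
    ring
  have hmom : ∀ k, 1 ≤ k → mom (1 / w) k = mm k ((1 - l) * u + l * v) := by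
    intro k hk
    rw [mom_eq_mm hα hk, one_div_one_div, hww]
  refine ⟨l, hl0, hl1, fun k hk => ?_⟩
  interval_cases k
  · rw [mom_zero hα]; simp only [Rw.f, pow_zero]; linarith
  · rw [mom_one hα]; simp only [Rw.f, pow_one]; linarith
  · rw [hmom 2 (by norm_num)]
    have := ev_sound hD (by norm_num) hu hv hl0 hl1 ha.b2.2 hb.b2.2 h2
    simp only [Rw.f]
    norm_num
    linarith
  · rw [hmom 3 (by norm_num)]
    have := od_sound hD (by norm_num) hu hv hl0 hl1 ha.b3.1 hb.b3.1 hb.b3.2 h3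
    simp only [Rw.f]
    norm_num
    linarith
  · rw [hmom 4 (by norm_num)]
    have := ev_sound hD (by norm_num) hu hv hl0 hl1 ha.b4.2 hb.b4.2 h4
    simp only [Rw.f]
    norm_num
    linarith
  · rw [hmom 5 (by norm_num)]
    have := od_sound hD (by norm_num) hu hv hl0 hl1 ha.b5.1 hb.b5.1 hb.b5.2 h5
    simp only [Rw.f]
    norm_num
    linarith
  · rw [hmom 6 (by norm_num)]
    have := ev_sound hD (by norm_num) hu hv hl0 hl1 ha.b6.2 hb.b6.2 h6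
    simp only [Rw.f]
    norm_num
    linarith
  · rw [hmom 7 (by norm_num)]
    have := od_sound hD (by norm_num) hu hv hl0 hl1 ha.b7.1 hb.b7.1 hb.b7.2 h7
    simp only [Rw.f]
    norm_num
    linarith
  · rw [hmom 8 (by norm_num)]
    have := ev_sound hD (by norm_num) hu hv hl0 hl1 ha.b8.2 hb.b8.2 h8
    simp only [Rw.f]
    norm_num
    linarith
  · rw [hmom 9 (by norm_num)]
    have := od_sound hD (by norm_num) hu hv hl0 hl1 ha.b9.1 hb.b9.1 hb.b9.2 h9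
    simp only [Rw.f]
    norm_num
    linarith
  · rw [hmom 10 (by norm_num)]
    have := ev_sound hD (by norm_num) hu hv hl0 hl1 ha.b10.2 hb.b10.2 h10
    simp only [Rw.f]
    norm_num
    linarith
  · rw [hmom 11 (by norm_num)]
    have := od_sound hD (by norm_num) hu hv hl0 hl1 ha.b11.1 hb.b11.1 hb.b11.2 h11
    simp only [Rw.f]
    norm_num
    linarith
  · rw [hmom 12 (by norm_num)]
    have := ev_sound hD (by norm_num) hu hv hl0 hl1 ha.b12.2 hb.b12.2 h12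
    simp only [Rw.f]
    norm_num
    linarith
  · rw [hmom 13 (by norm_num)]
    have := od_sound hD (by norm_num) hu hv hl0 hl1 ha.b13.1 hb.b13.1 hb.b13.2 h13
    simp only [Rw.f]
    norm_num
    linarith
  · rw [hmom 14 (by norm_num)]
    have := ev_sound hD (by norm_num) hu hv hl0 hl1 ha.b14.2 hb.b14.2 h14
    simp only [Rw.f]
    norm_num
    linarith
  · rw [hmom 15 (by norm_num)]
    have := od_sound hD (by norm_num) hu hv hl0 hl1 ha.b15.1 hb.b15.1 hb.b15.2 h15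
    simp only [Rw.f]
    norm_num
    linarith
  · rw [hmom 16 (by norm_num)]
    have := ev_sound hD (by norm_num) hu hv hl0 hl1 ha.b16.2 hb.b16.2 h16
    simp only [Rw.f]
    norm_num
    linarith

end LpSec.W
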