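import Mathlib

/-!
# Exact evaluation of integrals of products of alternating polynomials with natural coefficients

`altE p x = ∑ (-1)^k p_k x^k`.  Products are computed by Kronecker substitution (`pack` / `unpack`), integrals by a
Horner scheme on pairs of natural numbers.  Everything reduces quickly in the kernel.
-/

namespace LpSec.W

open MeasureTheory intervalIntegral

/-- `∑ (-1)^k p_k x^k` -/
noncomputable def altE : List ℕ → ℝ → ℝ
  | [], _ => 0
  | a :: t, x => (a : ℝ) - x * altE t x

/-- value at the base -/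
def pack (B : ℕ) : List ℕ → ℕ
  | [] => 0
  | a :: t => Nat.add a (Nat.mul B (pack B t))

/-- digits -/
def unpack (B : ℕ) : ℕ → ℕ → List ℕ
  | 0, _ => []
  | m + 1, N => Nat.mod N B :: unpack B m (Nat.div N B)

theorem pack_cons (B a : ℕ) (t : List ℕ) : pack B (a :: t) = a + B * pack B t := rfl
theorem unpack_succ (B m N : ℕ) : unpack B (m + 1) N = N % B :: unpack B m (N / B) := rfl

theorem unpack_pack (B : ℕ) : ∀ l : List ℕ, (∀ a ∈ l, a < B) → unpack B l.length (pack B l) = l
  | [], _ => rfl
  | a :: t, h => by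
    have ha : a < B := h a (by simp)
    have hB : 0 < B := by omega
    have ih := unpack_pack B t fun b hb => h b (by simp [hb])
    rw [List.length_cons, unpack_succ, pack_cons, Nat.add_mul_mod_self_left, Nat.mod_eq_of_lt ha,
      Nat.add_mul_div_left _ _ hB, Nat.div_eq_of_lt ha, Nat.zero_add, ih]

/-- sum of two lists -/
def addL : List ℕ → List ℕ → List ℕ
  | [], q => q
  | p, [] => p
  | a :: p, b :: q => (a + b) :: addL p q

/-- product of two lists (specification only) -/
def convL : List ℕ → List ℕ → List ℕ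
  | [], _ => []
  | a :: t, q => addL (q.map (a * ·)) (0 :: convL t q)

theorem pack_addL (B : ℕ) : ∀ p q : List ℕ, pack B (addL p q) = pack B p + pack B q
  | [], q => by simp [addL, pack]
  | a :: p, [] => by simp [addL, pack]
  | a :: p, b :: q => by
    rw [addL, pack_cons, pack_cons, pack_cons, pack_addL B p q]
    ring

theorem pack_map (B c : ℕ) : ∀ q : List ℕ, pack B (q.map (c * ·)) = c * pack B q
  | [] => by simp [pack]
  | b :: q => by
    rw [List.map_cons, pack_cons, pack_cons, pack_map B c q]
    ring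

theorem pack_convL (B : ℕ) : ∀ p q : List ℕ, pack B (convL p q) = pack B p * pack B q
  | [], q => by simp [convL, pack]
  | a :: t, q => by
    rw [convL, pack_addL, pack_map, pack_cons, pack_cons, pack_convL B t q]
    ring

theorem altE_addL : ∀ (p q : List ℕ) (x : ℝ), altE (addL p q) x = altE p x + altE q x
  | [], q, x => by simp [addL, altE]
  | a :: p, [], x => by simp [addL, altE]
  | a :: p, b :: q, x => by
    rw [addL, altE, altE, altE, altE_addL p q x]
    push_cast
    ring

theorem altE_map (c : ℕ) : ∀ (q : List ℕ) (x : ℝ), altE (q.map (c * ·)) x = c * altE q x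
  | [], x => by simp [altE]
  | b :: q, x => by
    rw [List.map_cons, altE, altE, altE_map c q x]
    push_cast
    ring

theorem altE_convL : ∀ (p q : List ℕ) (x : ℝ), altE (convL p q) x = altE p x * altE q x
  | [], q, x => by simp [convL, altE]
  | a :: t, q, x => by
    rw [convL, altE_addL, altE_map, altE, altE, altE_convL t q x]
    push_cast
    ring

theorem sum_addL : ∀ p q : List ℕ, (addL p q).sum = p.sum + q.sum
  | [], q => by simp [addL]
  | a :: p, [] => by simp [addL]
  | a :: p, b :: q => by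
    rw [addL, List.sum_cons, List.sum_cons, List.sum_cons, sum_addL p q]
    ring

theorem sum_mapL (c : ℕ) : ∀ q : List ℕ, (q.map (c * ·)).sum = c * q.sum
  | [] => by simp
  | b :: q => by
    rw [List.map_cons, List.sum_cons, List.sum_cons, sum_mapL c q]
    ring

theorem sum_convL : ∀ p q : List ℕ, (convL p q).sum = p.sum * q.sum
  | [], q => by simp [convL]
  | a :: t, q => by
    rw [convL, sum_addL, sum_mapL, List.sum_cons, List.sum_cons, sum_convL t q]
    ring

theorem length_addL : ∀ p q : List ℕ, (addL p q).length = max p.length q.length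
  | [], q => by simp [addL]
  | a :: p, [] => by simp [addL]
  | a :: p, b :: q => by
    rw [addL, List.length_cons, List.length_cons, List.length_cons, length_addL p q]
    omega

theorem length_convL : ∀ p q : List ℕ, p ≠ [] → q ≠ [] →
    (convL p q).length = p.length + q.length - 1
  | [], q, h, _ => absurd rfl h
  | [a], q, _, hq => by
    have : 0 < q.length := List.length_pos_iff.2 hq
    rw [convL, length_addL, List.length_map, convL]
    simp
    omega
  | a :: b :: t, q, _, hq => by
    have h1 : 0 < q.length := List.length_pos_iff.2 hq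
    have ih := length_convL (b :: t) q (by simp) hq
    rw [convL, length_addL, List.length_map, List.length_cons, ih]
    simp only [List.length_cons]
    omega

/-- product of a list of polynomials (specification) -/
def convs : List (List ℕ) → List ℕ
  | [] => [1]
  | p :: ps => convL p (convs ps)

/-- product of the values at the base -/
def packs (B : ℕ) : List (List ℕ) → ℕ
  | [] => 1
  | p :: ps => Nat.mul (pack B p) (packs B ps)

/-- bound of the coefficients of the product -/
def sums : List (List ℕ) → ℕ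
  | [] => 1
  | p :: ps => Nat.mul p.sum (sums ps)

/-- length of the product -/
def lens : List (List ℕ) → ℕ
  | [] => 1
  | p :: ps => p.length + lens ps - 1

theorem pack_convs (B : ℕ) : ∀ ps : List (List ℕ), pack B (convs ps) = packs B ps
  | [] => by simp [convs, packs, pack]
  | p :: ps => by
    rw [convs, pack_convL, pack_convs B ps]
    rfl

theorem sum_convs : ∀ ps : List (List ℕ), (convs ps).sum = sums ps
  | [] => by simp [convs, sums]
  | p :: ps => by
    rw [convs, sum_convL, sum_convs ps]
    rfl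

theorem convs_ne : ∀ ps : List (List ℕ), (∀ p ∈ ps, p ≠ []) → convs ps ≠ []
  | [], _ => by simp [convs]
  | p :: ps, h => by
    have h1 := h p (by simp)
    have h2 := convs_ne ps fun q hq => h q (by simp [hq])
    have h3 := length_convL p (convs ps) h1 h2
    have h4 : 0 < p.length := List.length_pos_iff.2 h1
    have h5 : 0 < (convs ps).length := List.length_pos_iff.2 h2
    rw [convs, ← List.length_pos_iff, h3]
    omega

theorem length_convs : ∀ ps : List (List ℕ), (∀ p ∈ ps, p ≠ []) → (convs ps).length = lens ps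
  | [], _ => by simp [convs, lens]
  | p :: ps, h => by
    have h1 := h p (by simp)
    have h2 := convs_ne ps fun q hq => h q (by simp [hq])
    rw [convs, length_convL p _ h1 h2, length_convs ps fun q hq => h q (by simp [hq]), lens]

/-- the product, computed -/
def prodK (B : ℕ) (ps : List (List ℕ)) : List ℕ := unpack B (lens ps) (packs B ps)

theorem prodK_eq {B : ℕ} {ps : List (List ℕ)} (hne : ∀ p ∈ ps, p ≠ []) (hB : sums ps < B) :
    prodK B ps = convs ps := by
  have h1 : ∀ a ∈ convs ps, a < B := fun a ha => by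
    have h2 : a ≤ (convs ps).sum := List.single_le_sum (by simp) a ha
    rw [sum_convs] at h2
    omega
  have h3 := unpack_pack B (convs ps) h1
  rw [length_convs ps hne, pack_convs] at h3
  exact h3

theorem altE_convs : ∀ (ps : List (List ℕ)) (x : ℝ),
    altE (convs ps) x = (ps.map fun p => altE p x).prod
  | [], x => by simp [convs, altE]
  | p :: ps, x => by
    rw [convs, altE_convL, altE_convs ps x, List.map_cons, List.prod_cons]

/-! ## integrals -/

theorem altE_continuous : ∀ p : List ℕ, Continuous (altE p)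
  | [] => continuous_const
  | a :: t => by
    have := altE_continuous t
    show Continuous fun x => (a : ℝ) - x * altE t x
    fun_prop

/-- `∑ (-1)^l q_l x^l / (i + l)` -/
noncomputable def altJ : List ℕ → ℕ → ℝ → ℝ
  | [], _, _ => 0
  | a :: t, i, x => (a : ℝ) / i - x * altJ t (i + 1) x

theorem altJ_hasDerivAt : ∀ (q : List ℕ) (i : ℕ), 0 < i → ∀ x : ℝ,
    HasDerivAt (fun x => x ^ i * altJ q i x) (x ^ (i - 1) * altE q x) x
  | [], i, _, x => by
    simp only [altJ, altE, mul_zero]
    exact hasDerivAt_const x 0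
  | a :: t, i, hi, x => by
    have ih := altJ_hasDerivAt t (i + 1) (by omega) x
    have h1 : HasDerivAt (fun x : ℝ => x ^ i * ((a : ℝ) / i)) ((i : ℝ) * x ^ (i - 1) * ((a : ℝ) / i)) x :=
      (hasDerivAt_pow i x).mul_const _
    have h2 := h1.sub ih
    have hi' : (i : ℝ) ≠ 0 := by exact_mod_cast hi.ne'
    have e1 : (fun x : ℝ => x ^ i * altJ (a :: t) i x) =
        fun x => x ^ i * ((a : ℝ) / i) - x ^ (i + 1) * altJ t (i + 1) x := by
      funext y
      simp only [altJ]
      ring
    rw [e1]
    refine h2.congr_deriv ?_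
    rw [Nat.add_sub_cancel, altE]
    have e2 : x ^ i = x * x ^ (i - 1) := by
      obtain ⟨j, rfl⟩ : ∃ j, i = j + 1 := ⟨i - 1, by omega⟩
      rw [Nat.add_sub_cancel]
      ring
    rw [e2]
    field_simp

theorem integral_altE (q : List ℕ) (j : ℕ) (a b : ℝ) :
    ∫ x in a..b, x ^ j * altE q x = b ^ (j + 1) * altJ q (j + 1) b - a ^ (j + 1) * altJ q (j + 1) a := by
  have h := integral_eq_sub_of_hasDerivAt (a := a) (b := b)
    (f := fun x => x ^ (j + 1) * altJ q (j + 1) x) (f' := fun x => x ^ j * altE q x)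
    (fun x _ => by
      have := altJ_hasDerivAt q (j + 1) (by omega) x
      rwa [Nat.add_sub_cancel] at this)
    ((Continuous.mul (continuous_pow j) (altE_continuous q)).intervalIntegrable _ _)
  exact h

/-- Horner scheme: for `x = A / D`, `altJ q i x = (P - N) / (L * D ^ len)`;
returns `(P, N, D ^ len)`.  `L` must be divisible by all the indices. -/
def horN (L A D : ℕ) : List ℕ → ℕ → ℕ × ℕ × ℕ
  | [], _ => (0, 0, 1)
  | a :: t, i =>
    match horN L A D t (i + 1) with
    | (P, N, E) =>
      (Nat.add (Nat.mul (Nat.mul a (Nat.div L i)) (Nat.mul D E)) (Nat.mul A N), Nat.mul A P,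
        Nat.mul D E)

/-- all indices divide `L` -/
def divs (L : ℕ) : ℕ → ℕ → Bool
  | _, 0 => true
  | i, m + 1 => Bool.and (Nat.beq (Nat.mod L i) 0) (divs L (i + 1) m)

theorem horN_cons (L A D a : ℕ) (t : List ℕ) (i : ℕ) : horN L A D (a :: t) i =
    (a * (L / i) * (D * (horN L A D t (i + 1)).2.2) + A * (horN L A D t (i + 1)).2.1,
      A * (horN L A D t (i + 1)).1, D * (horN L A D t (i + 1)).2.2) := by
  rw [horN]
  rcases horN L A D t (i + 1) with ⟨P, N, E⟩
  rfl

theorem horN_sound {L A D : ℕ} (hL : 0 < L) (hD : 0 < D) : ∀ (q : List ℕ) (i : ℕ), 0 < i →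
    divs L i q.length = true →
    0 < (horN L A D q i).2.2 ∧
    altJ q i ((A : ℝ) / D) * (L * (horN L A D q i).2.2) =
      ((horN L A D q i).1 : ℝ) - ((horN L A D q i).2.1 : ℝ)
  | [], i, _, _ => by simp [horN, altJ]
  | a :: t, i, hi, h => by
    have h' : Bool.and (Nat.beq (Nat.mod L i) 0) (divs L (i + 1) t.length) = true := h
    rw [Bool.and_eq_true] at h'
    have hd : L % i = 0 := Nat.eq_of_beq_eq_true h'.1
    obtain ⟨c, hc⟩ := Nat.dvd_of_mod_eq_zero hd
    have ih := horN_sound (A := A) hL hD t (i + 1) (by omega) h'.2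
    rw [horN_cons]
    set P := (horN L A D t (i + 1)).1
    set N := (horN L A D t (i + 1)).2.1
    set E := (horN L A D t (i + 1)).2.2
    have hi' : (i : ℝ) ≠ 0 := by exact_mod_cast hi.ne'
    have hD' : (D : ℝ) ≠ 0 := by exact_mod_cast hD.ne'
    have e1 : L / i = c := by rw [hc]; exact Nat.mul_div_cancel_left c hi
    have e2 : (L : ℝ) = i * c := by exact_mod_cast hc
    refine ⟨Nat.mul_pos hD ih.1, ?_⟩
    rw [e1]
    show ((a : ℝ) / i - (A : ℝ) / D * altJ t (i + 1) ((A : ℝ) / D)) * (L * ((D * E : ℕ) : ℝ)) =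
      ((a * c * (D * E) + A * N : ℕ) : ℝ) - ((A * P : ℕ) : ℝ)
    push_cast
    have e3 : ((a : ℝ) / i - (A : ℝ) / D * altJ t (i + 1) ((A : ℝ) / D)) * (L * (D * E)) =
        (a : ℝ) / i * L * (D * E) - A * (altJ t (i + 1) ((A : ℝ) / D) * (L * E)) := by
      field_simp
    rw [e3, ih.2, e2]
    field_simp
    ring

/-- side conditions of an evaluation -/
def sideOk (B L D j : ℕ) (ps : List (List ℕ)) : Bool :=
  Bool.and (ps.all fun p => Bool.not p.isEmpty)
    (Bool.and (Nat.blt (sums ps) B)
      (Bool.and (divs L (j + 1) (lens ps)) (Bool.and (Nat.blt 0 L) (Nat.blt 0 D))))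

/-- the triple `(P, N, E)` of the integral over `[0, A / D]` -/
def evP (B L A D j : ℕ) (ps : List (List ℕ)) : ℕ × ℕ × ℕ := horN L A D (prodK B ps) (j + 1)

theorem int_eq {B L A D j : ℕ} {ps : List (List ℕ)} (h : sideOk B L D j ps = true) :
    0 < (evP B L A D j ps).2.2 ∧ 0 < L ∧ 0 < D ∧
    ∫ x in (0 : ℝ)..((A : ℝ) / D), x ^ j * (ps.map fun p => altE p x).prod =
      ((A : ℝ) / D) ^ (j + 1) * ((((evP B L A D j ps).1 : ℝ) - ((evP B L A D j ps).2.1 : ℝ)) /
        (L * (evP B L A D j ps).2.2)) := by
  unfold sideOk at h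
  simp only [Bool.and_eq_true, Nat.blt_eq, List.all_eq_true, Bool.not_eq_true',
    List.isEmpty_eq_false_iff] at h
  obtain ⟨h1, h2, h3, h4, h5⟩ := h
  have e := prodK_eq h1 h2
  have h6 := length_convs ps h1
  have h7 : divs L (j + 1) (convs ps).length = true := by rw [h6]; exact h3
  have h8 := horN_sound (A := A) h4 h5 (convs ps) (j + 1) (by omega) h7
  unfold evP
  rw [e]
  refine ⟨h8.1, h4, h5, ?_⟩
  have h9 := integral_altE (convs ps) j 0 ((A : ℝ) / D)
  have h10 : (fun x : ℝ => x ^ j * (ps.map fun p => altE p x).prod) =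
      fun x => x ^ j * altE (convs ps) x := by
    funext x
    rw [altE_convs]
  rw [h10, h9, zero_pow (Nat.succ_ne_zero j), zero_mul, sub_zero]
  congr 1
  have hL' : (0 : ℝ) < L := by exact_mod_cast h4
  have hE' : (0 : ℝ) < (horN L A D (convs ps) (j + 1)).2.2 := by exact_mod_cast h8.1
  rw [eq_div_iff (by positivity)]
  exact h8.2

/-- upper bound check: `∫ ≤ num / den` -/
def leChk (B L A D j : ℕ) (ps : List (List ℕ)) (num den : ℕ) : Bool :=
  Bool.and (sideOk B L D j ps) (Bool.and (Nat.blt 0 den)
    (match evP B L A D j ps with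
      | (P, N, E) => Nat.ble (Nat.mul (Nat.pow A (j + 1)) (Nat.mul P den))
          (Nat.add (Nat.mul num (Nat.mul (Nat.pow D (j + 1)) (Nat.mul L E)))
            (Nat.mul (Nat.pow A (j + 1)) (Nat.mul N den)))))

/-- lower bound check: `num / den ≤ ∫` -/
def geChk (B L A D j : ℕ) (ps : List (List ℕ)) (num den : ℕ) : Bool :=
  Bool.and (sideOk B L D j ps) (Bool.and (Nat.blt 0 den)
    (match evP B L A D j ps with
      | (P, N, E) => Nat.ble
          (Nat.add (Nat.mul num (Nat.mul (Nat.pow D (j + 1)) (Nat.mul L E)))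
            (Nat.mul (Nat.pow A (j + 1)) (Nat.mul N den)))
          (Nat.mul (Nat.pow A (j + 1)) (Nat.mul P den))))

theorem le_of_chk {B L A D j : ℕ} {ps : List (List ℕ)} {num den : ℕ}
    (h : leChk B L A D j ps num den = true) :
    ∫ x in (0 : ℝ)..((A : ℝ) / D), x ^ j * (ps.map fun p => altE p x).prod ≤ (num : ℝ) / den := by
  unfold leChk at h
  rw [Bool.and_eq_true, Bool.and_eq_true] at h
  obtain ⟨h1, h2, h3⟩ := h
  obtain ⟨hE, hL, hD, he⟩ := int_eq (A := A) h1
  rw [he]
  have hden : 0 < den := by simpa using h2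
  rcases hv : evP B L A D j ps with ⟨P, N, E⟩
  rw [hv] at h3 hE
  have h4 : A ^ (j + 1) * (P * den) ≤ num * (D ^ (j + 1) * (L * E)) + A ^ (j + 1) * (N * den) :=
    Nat.le_of_ble_eq_true h3
  have h5 : (A : ℝ) ^ (j + 1) * (P * den) ≤
      num * (D ^ (j + 1) * (L * E)) + A ^ (j + 1) * (N * den) := by exact_mod_cast h4
  have hE' : (0 : ℝ) < E := by exact_mod_cast hE
  have hL' : (0 : ℝ) < L := by exact_mod_cast hL
  have hD' : (0 : ℝ) < D := by exact_mod_cast hD
  have hd' : (0 : ℝ) < den := by exact_mod_cast hden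
  rw [div_pow, div_mul_div_comm, div_le_div_iff₀ (by positivity) hd']
  show (A : ℝ) ^ (j + 1) * ((P : ℝ) - N) * den ≤ num * (D ^ (j + 1) * (L * E))
  nlinarith

theorem ge_of_chk {B L A D j : ℕ} {ps : List (List ℕ)} {num den : ℕ}
    (h : geChk B L A D j ps num den = true) :
    (num : ℝ) / den ≤ ∫ x in (0 : ℝ)..((A : ℝ) / D), x ^ j * (ps.map fun p => altE p x).prod := by
  unfold geChk at h
  rw [Bool.and_eq_true, Bool.and_eq_true] at h
  obtain ⟨h1, h2, h3⟩ := h
  obtain ⟨hE, hL, hD, he⟩ := int_eq (A := A) h1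
  rw [he]
  have hden : 0 < den := by simpa using h2
  rcases hv : evP B L A D j ps with ⟨P, N, E⟩
  rw [hv] at h3 hE
  have h4 : num * (D ^ (j + 1) * (L * E)) + A ^ (j + 1) * (N * den) ≤ A ^ (j + 1) * (P * den) :=
    Nat.le_of_ble_eq_true h3
  have h5 : (num : ℝ) * (D ^ (j + 1) * (L * E)) + A ^ (j + 1) * (N * den) ≤
      A ^ (j + 1) * (P * den) := by exact_mod_cast h4
  have hE' : (0 : ℝ) < E := by exact_mod_cast hE
  have hL' : (0 : ℝ) < L := by exact_mod_cast hL
  have hD' : (0 : ℝ) < D := by exact_mod_cast hD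
  have hd' : (0 : ℝ) < den := by exact_mod_cast hden
  rw [div_pow, div_mul_div_comm, div_le_div_iff₀ hd' (by positivity)]
  show num * (D ^ (j + 1) * (L * E)) ≤ (A : ℝ) ^ (j + 1) * ((P : ℝ) - N) * den
  nlinarith

end LpSec.W
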