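import Mathlib
import Pool.Agent.Lib.MP_1dbab3_gt.W.CellA
import Pool.Agent.Lib.MP_1dbab3_gt.W.Eval
import Pool.Agent.Lib.MP_1dbab3_gt.W.Tbl

/-!
# Two-sided cells: `Phi` between chords of polynomials with explicit coefficients (moments to 16)
-/

open Real MeasureTheory Set Filter Topology

namespace LpSec.W

/-- the values as a real function, `0` for `k < 2` -/
noncomputable def Rw.g (r : Rw) : ℕ → ℝ
  | 0 => 0
  | 1 => 0
  | 2 => (r.m2 : ℝ) / 10000000000
  | 3 => (r.m3 : ℝ) / 10000000000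
  | 4 => (r.m4 : ℝ) / 10000000000
  | 5 => (r.m5 : ℝ) / 10000000000
  | 6 => (r.m6 : ℝ) / 10000000000
  | 7 => (r.m7 : ℝ) / 10000000000
  | 8 => (r.m8 : ℝ) / 10000000000
  | 9 => (r.m9 : ℝ) / 10000000000
  | 10 => (r.m10 : ℝ) / 10000000000
  | 11 => (r.m11 : ℝ) / 10000000000
  | 12 => (r.m12 : ℝ) / 10000000000
  | 13 => (r.m13 : ℝ) / 10000000000
  | 14 => (r.m14 : ℝ) / 10000000000
  | 15 => (r.m15 : ℝ) / 10000000000
  | 16 => (r.m16 : ℝ) / 10000000000
  | _ => 0

/-- check of centers and radii on a cell of width `1 / D` -/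
def mcOk (D : ℕ) (al au bl bu MA MB d : Rw) : Bool :=
  (evOk D 2 au.m2 bu.m2 (MA.m2 + d.m2) (MB.m2 + d.m2) &&
    odOk D 2 al.m2 bl.m2 bu.m2 (MA.m2 - d.m2) (MB.m2 - d.m2)) && (
  (evOk D 3 au.m3 bu.m3 (MA.m3 + d.m3) (MB.m3 + d.m3) &&
    odOk D 3 al.m3 bl.m3 bu.m3 (MA.m3 - d.m3) (MB.m3 - d.m3)) && (
  (evOk D 4 au.m4 bu.m4 (MA.m4 + d.m4) (MB.m4 + d.m4) &&
    odOk D 4 al.m4 bl.m4 bu.m4 (MA.m4 - d.m4) (MB.m4 - d.m4)) && (
  (evOk D 5 au.m5 bu.m5 (MA.m5 + d.m5) (MB.m5 + d.m5) &&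
    odOk D 5 al.m5 bl.m5 bu.m5 (MA.m5 - d.m5) (MB.m5 - d.m5)) && (
  (evOk D 6 au.m6 bu.m6 (MA.m6 + d.m6) (MB.m6 + d.m6) &&
    odOk D 6 al.m6 bl.m6 bu.m6 (MA.m6 - d.m6) (MB.m6 - d.m6)) && (
  (evOk D 7 au.m7 bu.m7 (MA.m7 + d.m7) (MB.m7 + d.m7) &&
    odOk D 7 al.m7 bl.m7 bu.m7 (MA.m7 - d.m7) (MB.m7 - d.m7)) && (
  (evOk D 8 au.m8 bu.m8 (MA.m8 + d.m8) (MB.m8 + d.m8) &&
    odOk D 8 al.m8 bl.m8 bu.m8 (MA.m8 - d.m8) (MB.m8 - d.m8)) && (
  (evOk D 9 au.m9 bu.m9 (MA.m9 + d.m9) (MB.m9 + d.m9) &&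
    odOk D 9 al.m9 bl.m9 bu.m9 (MA.m9 - d.m9) (MB.m9 - d.m9)) && (
  (evOk D 10 au.m10 bu.m10 (MA.m10 + d.m10) (MB.m10 + d.m10) &&
    odOk D 10 al.m10 bl.m10 bu.m10 (MA.m10 - d.m10) (MB.m10 - d.m10)) && (
  (evOk D 11 au.m11 bu.m11 (MA.m11 + d.m11) (MB.m11 + d.m11) &&
    odOk D 11 al.m11 bl.m11 bu.m11 (MA.m11 - d.m11) (MB.m11 - d.m11)) && (
  (evOk D 12 au.m12 bu.m12 (MA.m12 + d.m12) (MB.m12 + d.m12) &&
    odOk D 12 al.m12 bl.m12 bu.m12 (MA.m12 - d.m12) (MB.m12 - d.m12)) && (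
  (evOk D 13 au.m13 bu.m13 (MA.m13 + d.m13) (MB.m13 + d.m13) &&
    odOk D 13 al.m13 bl.m13 bu.m13 (MA.m13 - d.m13) (MB.m13 - d.m13)) && (
  (evOk D 14 au.m14 bu.m14 (MA.m14 + d.m14) (MB.m14 + d.m14) &&
    odOk D 14 al.m14 bl.m14 bu.m14 (MA.m14 - d.m14) (MB.m14 - d.m14)) && (
  (evOk D 15 au.m15 bu.m15 (MA.m15 + d.m15) (MB.m15 + d.m15) &&
    odOk D 15 al.m15 bl.m15 bu.m15 (MA.m15 - d.m15) (MB.m15 - d.m15)) && (
  (evOk D 16 au.m16 bu.m16 (MA.m16 + d.m16) (MB.m16 + d.m16) &&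
    odOk D 16 al.m16 bl.m16 bu.m16 (MA.m16 - d.m16) (MB.m16 - d.m16))))))))))))))))

theorem mc_aux {D k al au bl bu MA MB d : ℕ} (hD : 0 < D) (hk : 1 ≤ k) {u v l : ℝ} (hu : 0 ≤ u)
    (hv : v = u + 1 / D) (hl : 0 ≤ l) (hl1 : l ≤ 1)
    (ha : (al : ℝ) / 10000000000 ≤ mm k u ∧ mm k u ≤ (au : ℝ) / 10000000000)
    (hb : (bl : ℝ) / 10000000000 ≤ mm k v ∧ mm k v ≤ (bu : ℝ) / 10000000000)
    (h : (evOk D k au bu (MA + d) (MB + d) && odOk D k al bl bu (MA - d) (MB - d)) = true) :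
    |mm k ((1 - l) * u + l * v) - ((1 - l) * ((MA : ℝ) / 10000000000) +
      l * ((MB : ℝ) / 10000000000))| ≤ (d : ℝ) / 10000000000 := by
  rw [Bool.and_eq_true] at h
  have h1 := ev_sound hD hk hu hv hl hl1 ha.2 hb.2 h.1
  have h2 := od_sound hD hk hu hv hl hl1 ha.1 hb.1 hb.2 h.2
  have h3 : (MA : ℝ) ≤ ((MA - d : ℕ) : ℝ) + d := by exact_mod_cast (le_tsub_add : MA ≤ MA - d + d)
  have h4 : (MB : ℝ) ≤ ((MB - d : ℕ) : ℝ) + d := by exact_mod_cast (le_tsub_add : MB ≤ MB - d + d)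
  have h1l : 0 ≤ 1 - l := by linarith
  have h5 := mul_le_mul_of_nonneg_left h3 h1l
  have h6 := mul_le_mul_of_nonneg_left h4 hl
  push_cast at h1
  rw [abs_le]
  constructor
  · linarith
  · linarith

theorem mc_sound {D : ℕ} {al au bl bu MA MB d : Rw} (hD : 0 < D) {u v l : ℝ} (hu : 0 ≤ u)
    (hv : v = u + 1 / D) (ha : RowB u al au) (hb : RowB v bl bu)
    (h : mcOk D al au bl bu MA MB d = true) (hl : 0 ≤ l) (hl1 : l ≤ 1) {w : ℝ}
    (hw : w = (1 - l) * u + l * v) (hw0 : 0 < w) (hw1 : w < 1) :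
    ∀ k, k < 17 → |mom (1 / w) k - ((1 - l) * MA.f k + l * MB.f k)| ≤ d.g k := by
  have hα : 1 < 1 / w := by rw [lt_div_iff₀ hw0]; linarith
  unfold mcOk at h
  rw [Bool.and_eq_true] at h
  obtain ⟨h2, h⟩ := h
  rw [Bool.and_eq_true] at h
  obtain ⟨h3, h⟩ := h
  rw [Bool.and_eq_true] at h
  obtain ⟨h4, h⟩ := h
  rw [Bool.and_eq_true] at h
  obtain ⟨h5, h⟩ := h
  rw [Bool.and_eq_true] at h
  obtain ⟨h6, h⟩ := h
  rw [Bool.and_eq_true] at h
  obtain ⟨h7, h⟩ := h
  rw [Bool.and_eq_true] at h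
  obtain ⟨h8, h⟩ := h
  rw [Bool.and_eq_true] at h
  obtain ⟨h9, h⟩ := h
  rw [Bool.and_eq_true] at h
  obtain ⟨h10, h⟩ := h
  rw [Bool.and_eq_true] at h
  obtain ⟨h11, h⟩ := h
  rw [Bool.and_eq_true] at h
  obtain ⟨h12, h⟩ := h
  rw [Bool.and_eq_true] at h
  obtain ⟨h13, h⟩ := h
  rw [Bool.and_eq_true] at h
  obtain ⟨h14, h⟩ := h
  rw [Bool.and_eq_true] at h
  obtain ⟨h15, h⟩ := h
  have hmom : ∀ k, 1 ≤ k → mom (1 / w) k = mm k ((1 - l) * u + l * v) := by
    intro k hk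
    rw [mom_eq_mm hα hk, one_div_one_div, hw]
  intro k hk
  interval_cases k
  · rw [mom_zero hα]; simp only [Rw.f, Rw.g]; rw [abs_le]; constructor <;> linarith
  · rw [mom_one hα]; simp only [Rw.f, Rw.g]; rw [abs_le]; constructor <;> linarith
  · rw [hmom 2 (by norm_num)]
    exact mc_aux hD (by norm_num) hu hv hl hl1 ha.b2 hb.b2 h2
  · rw [hmom 3 (by norm_num)]
    exact mc_aux hD (by norm_num) hu hv hl hl1 ha.b3 hb.b3 h3
  · rw [hmom 4 (by norm_num)]
    exact mc_aux hD (by norm_num) hu hv hl hl1 ha.b4 hb.b4 h4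
  · rw [hmom 5 (by norm_num)]
    exact mc_aux hD (by norm_num) hu hv hl hl1 ha.b5 hb.b5 h5
  · rw [hmom 6 (by norm_num)]
    exact mc_aux hD (by norm_num) hu hv hl hl1 ha.b6 hb.b6 h6
  · rw [hmom 7 (by norm_num)]
    exact mc_aux hD (by norm_num) hu hv hl hl1 ha.b7 hb.b7 h7
  · rw [hmom 8 (by norm_num)]
    exact mc_aux hD (by norm_num) hu hv hl hl1 ha.b8 hb.b8 h8
  · rw [hmom 9 (by norm_num)]
    exact mc_aux hD (by norm_num) hu hv hl hl1 ha.b9 hb.b9 h9
  · rw [hmom 10 (by norm_num)]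
    exact mc_aux hD (by norm_num) hu hv hl hl1 ha.b10 hb.b10 h10
  · rw [hmom 11 (by norm_num)]
    exact mc_aux hD (by norm_num) hu hv hl hl1 ha.b11 hb.b11 h11
  · rw [hmom 12 (by norm_num)]
    exact mc_aux hD (by norm_num) hu hv hl hl1 ha.b12 hb.b12 h12
  · rw [hmom 13 (by norm_num)]
    exact mc_aux hD (by norm_num) hu hv hl hl1 ha.b13 hb.b13 h13
  · rw [hmom 14 (by norm_num)]
    exact mc_aux hD (by norm_num) hu hv hl hl1 ha.b14 hb.b14 h14
  · rw [hmom 15 (by norm_num)]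
    exact mc_aux hD (by norm_num) hu hv hl hl1 ha.b15 hb.b15 h15
  · rw [hmom 16 (by norm_num)]
    exact mc_aux hD (by norm_num) hu hv hl hl1 ha.b16 hb.b16 h

/-- a polynomial with nonnegative coefficients -/
noncomputable def posE : List ℕ → ℝ → ℝ
  | [], _ => 0
  | a :: t, x => (a : ℝ) + x * posE t x

theorem posE_sum (x : ℝ) : ∀ p : List ℕ,
    posE p x = ∑ k ∈ Finset.range p.length, ((p.getD k 0 : ℕ) : ℝ) * x ^ k
  | [] => by simp [posE]
  | a :: t => by
    rw [posE, posE_sum x t, List.length_cons, Finset.sum_range_succ', Finset.mul_sum, add_comm]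
    congr 1
    · refine Finset.sum_congr rfl fun k _ => ?_
      rw [List.getD_cons_succ]
      ring
    · simp

theorem altE_sum (x : ℝ) : ∀ p : List ℕ,
    altE p x = ∑ k ∈ Finset.range p.length, (-1) ^ k * ((p.getD k 0 : ℕ) : ℝ) * x ^ k
  | [] => by simp [altE]
  | a :: t => by
    rw [altE, altE_sum x t, List.length_cons, Finset.sum_range_succ', Finset.mul_sum, sub_eq_add_neg,
      ← Finset.sum_neg_distrib, add_comm]
    congr 1
    · refine Finset.sum_congr rfl fun k _ => ?_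
      rw [List.getD_cons_succ]
      ring
    · simp

theorem posE_nonneg : ∀ (p : List ℕ) {x : ℝ}, 0 ≤ x → 0 ≤ posE p x
  | [], x, _ => le_refl _
  | a :: t, x, hx => by
    have := posE_nonneg t hx
    rw [posE]
    positivity

theorem posE_mono : ∀ (p : List ℕ) {x y : ℝ}, 0 ≤ x → x ≤ y → posE p x ≤ posE p y
  | [], x, y, _, _ => le_refl _
  | a :: t, x, y, hx, hxy => by
    have h1 := posE_mono t hx hxy
    have h2 := posE_nonneg t hx
    rw [posE, posE]
    have := mul_le_mul hxy h1 h2 (hx.trans hxy)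
    linarith

/-- check of one coefficient (scale `10^20`), `f = k!^2` -/
def coefOk (f M d p e : ℕ) : Bool :=
  Nat.ble ((M + d) * 10000000000) ((p + e) * f) &&
  Nat.ble (p * f + d * 10000000000) (M * 10000000000 + e * f)

theorem coef_aux {f MA MB d pA pB e : ℕ} (hf : 0 < f)
    (h : (coefOk f MA d pA e && coefOk f MB d pB e) = true) {l m : ℝ} (hl : 0 ≤ l) (hl1 : l ≤ 1)
    (hm : |m - ((1 - l) * ((MA : ℝ) / 10000000000) + l * ((MB : ℝ) / 10000000000))| ≤
      (d : ℝ) / 10000000000) :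
    |m / f - ((1 - l) * pA + l * pB) / 100000000000000000000| ≤ (e : ℝ) / 100000000000000000000 := by
  unfold coefOk at h
  simp only [Bool.and_eq_true, Nat.ble_eq] at h
  obtain ⟨⟨h1, h2⟩, h3, h4⟩ := h
  have k1 := (Nat.cast_le (α := ℝ)).2 h1
  have k2 := (Nat.cast_le (α := ℝ)).2 h2
  have k3 := (Nat.cast_le (α := ℝ)).2 h3
  have k4 := (Nat.cast_le (α := ℝ)).2 h4
  push_cast at k1 k2 k3 k4
  have hf' : (0 : ℝ) < f := by exact_mod_cast hf
  have h1l : 0 ≤ 1 - l := by linarith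
  have a1 := mul_le_mul_of_nonneg_left k1 h1l
  have a2 := mul_le_mul_of_nonneg_left k2 h1l
  have a3 := mul_le_mul_of_nonneg_left k3 hl
  have a4 := mul_le_mul_of_nonneg_left k4 hl
  obtain ⟨b1, b2⟩ := abs_le.1 hm
  rw [abs_le]
  constructor
  · rw [neg_le_sub_iff_le_add, ← sub_le_iff_le_add]
    rw [le_div_iff₀ hf']
    linarith
  · rw [sub_le_iff_le_add, div_le_iff₀ hf']
    linarith

/-- check of the polynomials (scale `10^20`) and of the error polynomial -/
def polOk (MA MB d : Rw) (pA pB e : List ℕ) : Bool :=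
  Nat.beq pA.length 16 && (Nat.beq pB.length 16 && (Nat.beq e.length 17 && (
  Nat.beq (pA.getD 0 0) 100000000000000000000 && (Nat.beq (pB.getD 0 0) 100000000000000000000 && (
  Nat.beq (pA.getD 1 0) 100000000000000000000 && (Nat.beq (pB.getD 1 0) 100000000000000000000 && (
  (coefOk 4 MA.m2 d.m2 (pA.getD 2 0) (e.getD 2 0) &&
    coefOk 4 MB.m2 d.m2 (pB.getD 2 0) (e.getD 2 0)) && (
  (coefOk 36 MA.m3 d.m3 (pA.getD 3 0) (e.getD 3 0) &&
    coefOk 36 MB.m3 d.m3 (pB.getD 3 0) (e.getD 3 0)) && (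
  (coefOk 576 MA.m4 d.m4 (pA.getD 4 0) (e.getD 4 0) &&
    coefOk 576 MB.m4 d.m4 (pB.getD 4 0) (e.getD 4 0)) && (
  (coefOk 14400 MA.m5 d.m5 (pA.getD 5 0) (e.getD 5 0) &&
    coefOk 14400 MB.m5 d.m5 (pB.getD 5 0) (e.getD 5 0)) && (
  (coefOk 518400 MA.m6 d.m6 (pA.getD 6 0) (e.getD 6 0) &&
    coefOk 518400 MB.m6 d.m6 (pB.getD 6 0) (e.getD 6 0)) && (
  (coefOk 25401600 MA.m7 d.m7 (pA.getD 7 0) (e.getD 7 0) &&
    coefOk 25401600 MB.m7 d.m7 (pB.getD 7 0) (e.getD 7 0)) && (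
  (coefOk 1625702400 MA.m8 d.m8 (pA.getD 8 0) (e.getD 8 0) &&
    coefOk 1625702400 MB.m8 d.m8 (pB.getD 8 0) (e.getD 8 0)) && (
  (coefOk 131681894400 MA.m9 d.m9 (pA.getD 9 0) (e.getD 9 0) &&
    coefOk 131681894400 MB.m9 d.m9 (pB.getD 9 0) (e.getD 9 0)) && (
  (coefOk 13168189440000 MA.m10 d.m10 (pA.getD 10 0) (e.getD 10 0) &&
    coefOk 13168189440000 MB.m10 d.m10 (pB.getD 10 0) (e.getD 10 0)) && (
  (coefOk 1593350922240000 MA.m11 d.m11 (pA.getD 11 0) (e.getD 11 0) &&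
    coefOk 1593350922240000 MB.m11 d.m11 (pB.getD 11 0) (e.getD 11 0)) && (
  (coefOk 229442532802560000 MA.m12 d.m12 (pA.getD 12 0) (e.getD 12 0) &&
    coefOk 229442532802560000 MB.m12 d.m12 (pB.getD 12 0) (e.getD 12 0)) && (
  (coefOk 38775788043632640000 MA.m13 d.m13 (pA.getD 13 0) (e.getD 13 0) &&
    coefOk 38775788043632640000 MB.m13 d.m13 (pB.getD 13 0) (e.getD 13 0)) && (
  (coefOk 7600054456551997440000 MA.m14 d.m14 (pA.getD 14 0) (e.getD 14 0) &&
    coefOk 7600054456551997440000 MB.m14 d.m14 (pB.getD 14 0) (e.getD 14 0)) && (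
  (coefOk 1710012252724199424000000 MA.m15 d.m15 (pA.getD 15 0) (e.getD 15 0) &&
    coefOk 1710012252724199424000000 MB.m15 d.m15 (pB.getD 15 0) (e.getD 15 0)) && (
  Nat.ble ((MA.m16 + d.m16) * 390000000000) (10944078417434876313600000000 * (e.getD 16 0)) &&
  Nat.ble ((MB.m16 + d.m16) * 390000000000) (10944078417434876313600000000 * (e.getD 16 0)))))))))))))))))))))))

/-- coefficient level of the two-sided cell -/
theorem coef_sound {MA MB d : Rw} {pA pB e : List ℕ} (h : polOk MA MB d pA pB e = true)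
    {α l : ℝ} (hα : 1 < α) (hl : 0 ≤ l) (hl1 : l ≤ 1)
    (hm : ∀ k, k < 17 → |mom α k - ((1 - l) * MA.f k + l * MB.f k)| ≤ d.g k) :
    (∀ k, k < 16 → |mom α k / ((k.factorial : ℝ) * (k.factorial : ℝ)) -
      ((1 - l) * ((pA.getD k 0 : ℕ) : ℝ) + l * ((pB.getD k 0 : ℕ) : ℝ)) / 100000000000000000000| ≤
      ((e.getD k 0 : ℕ) : ℝ) / 100000000000000000000) ∧
    mom α 16 / ((Nat.factorial 16 : ℝ) * (Nat.factorial 16 : ℝ)) * (39 / 25) ≤
      ((e.getD 16 0 : ℕ) : ℝ) / 100000000000000000000 ∧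
    pA.length = 16 ∧ pB.length = 16 ∧ e.length = 17 := by
  unfold polOk at h
  rw [Bool.and_eq_true, Bool.and_eq_true, Bool.and_eq_true, Bool.and_eq_true, Bool.and_eq_true,
    Bool.and_eq_true, Bool.and_eq_true] at h
  obtain ⟨hA, hB, hE, hA0, hB0, hA1, hB1, h⟩ := h
  rw [Bool.and_eq_true] at h
  obtain ⟨h2, h⟩ := h
  rw [Bool.and_eq_true] at h
  obtain ⟨h3, h⟩ := h
  rw [Bool.and_eq_true] at h
  obtain ⟨h4, h⟩ := h
  rw [Bool.and_eq_true] at h
  obtain ⟨h5, h⟩ := h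
  rw [Bool.and_eq_true] at h
  obtain ⟨h6, h⟩ := h
  rw [Bool.and_eq_true] at h
  obtain ⟨h7, h⟩ := h
  rw [Bool.and_eq_true] at h
  obtain ⟨h8, h⟩ := h
  rw [Bool.and_eq_true] at h
  obtain ⟨h9, h⟩ := h
  rw [Bool.and_eq_true] at h
  obtain ⟨h10, h⟩ := h
  rw [Bool.and_eq_true] at h
  obtain ⟨h11, h⟩ := h
  rw [Bool.and_eq_true] at h
  obtain ⟨h12, h⟩ := h
  rw [Bool.and_eq_true] at h
  obtain ⟨h13, h⟩ := h
  rw [Bool.and_eq_true] at h
  obtain ⟨h14, h⟩ := h
  rw [Bool.and_eq_true] at h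
  obtain ⟨h15, h⟩ := h
  rw [Bool.and_eq_true] at h
  simp only [Nat.ble_eq] at h
  have hA' : pA.length = 16 := Nat.eq_of_beq_eq_true hA
  have hB' : pB.length = 16 := Nat.eq_of_beq_eq_true hB
  have hE' : e.length = 17 := Nat.eq_of_beq_eq_true hE
  have hA0' : pA.getD 0 0 = 100000000000000000000 := Nat.eq_of_beq_eq_true hA0
  have hB0' : pB.getD 0 0 = 100000000000000000000 := Nat.eq_of_beq_eq_true hB0
  have hA1' : pA.getD 1 0 = 100000000000000000000 := Nat.eq_of_beq_eq_true hA1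
  have hB1' : pB.getD 1 0 = 100000000000000000000 := Nat.eq_of_beq_eq_true hB1
  refine ⟨?_, ?_, hA', hB', hE'⟩
  · intro k hk
    have hmk := hm k (by omega)
    interval_cases k
    · rw [mom_zero hα, hA0', hB0']
      have e1 : (1 : ℝ) / (((0 : ℕ).factorial : ℝ) * ((0 : ℕ).factorial : ℝ)) -
          ((1 - l) * ((100000000000000000000 : ℕ) : ℝ) + l * ((100000000000000000000 : ℕ) : ℝ)) /
            100000000000000000000 = 0 := by
        norm_num
        ring
      rw [e1, abs_zero]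
      positivity
    · rw [mom_one hα, hA1', hB1']
      have e1 : (1 : ℝ) / (((1 : ℕ).factorial : ℝ) * ((1 : ℕ).factorial : ℝ)) -
          ((1 - l) * ((100000000000000000000 : ℕ) : ℝ) + l * ((100000000000000000000 : ℕ) : ℝ)) /
            100000000000000000000 = 0 := by
        norm_num
        ring
      rw [e1, abs_zero]
      positivity
    · have := coef_aux (by norm_num) h2 hl hl1 hmk
      have e1 : ((Nat.factorial 2 : ℕ) : ℝ) * ((Nat.factorial 2 : ℕ) : ℝ) = ((4 : ℕ) : ℝ) := by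
        norm_num [Nat.factorial]
      rw [e1]
      exact this
    · have := coef_aux (by norm_num) h3 hl hl1 hmk
      have e1 : ((Nat.factorial 3 : ℕ) : ℝ) * ((Nat.factorial 3 : ℕ) : ℝ) = ((36 : ℕ) : ℝ) := by
        norm_num [Nat.factorial]
      rw [e1]
      exact this
    · have := coef_aux (by norm_num) h4 hl hl1 hmk
      have e1 : ((Nat.factorial 4 : ℕ) : ℝ) * ((Nat.factorial 4 : ℕ) : ℝ) = ((576 : ℕ) : ℝ) := by
        norm_num [Nat.factorial]
      rw [e1]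
      exact this
    · have := coef_aux (by norm_num) h5 hl hl1 hmk
      have e1 : ((Nat.factorial 5 : ℕ) : ℝ) * ((Nat.factorial 5 : ℕ) : ℝ) = ((14400 : ℕ) : ℝ) := by
        norm_num [Nat.factorial]
      rw [e1]
      exact this
    · have := coef_aux (by norm_num) h6 hl hl1 hmk
      have e1 : ((Nat.factorial 6 : ℕ) : ℝ) * ((Nat.factorial 6 : ℕ) : ℝ) = ((518400 : ℕ) : ℝ) := by
        norm_num [Nat.factorial]
      rw [e1]
      exact this
    · have := coef_aux (by norm_num) h7 hl hl1 hmk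
      have e1 : ((Nat.factorial 7 : ℕ) : ℝ) * ((Nat.factorial 7 : ℕ) : ℝ) = ((25401600 : ℕ) : ℝ) := by
        norm_num [Nat.factorial]
      rw [e1]
      exact this
    · have := coef_aux (by norm_num) h8 hl hl1 hmk
      have e1 : ((Nat.factorial 8 : ℕ) : ℝ) * ((Nat.factorial 8 : ℕ) : ℝ) = ((1625702400 : ℕ) : ℝ) := by
        norm_num [Nat.factorial]
      rw [e1]
      exact this
    · have := coef_aux (by norm_num) h9 hl hl1 hmk
      have e1 : ((Nat.factorial 9 : ℕ) : ℝ) * ((Nat.factorial 9 : ℕ) : ℝ) = ((131681894400 : ℕ) : ℝ) := by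
        norm_num [Nat.factorial]
      rw [e1]
      exact this
    · have := coef_aux (by norm_num) h10 hl hl1 hmk
      have e1 : ((Nat.factorial 10 : ℕ) : ℝ) * ((Nat.factorial 10 : ℕ) : ℝ) = ((13168189440000 : ℕ) : ℝ) := by
        norm_num [Nat.factorial]
      rw [e1]
      exact this
    · have := coef_aux (by norm_num) h11 hl hl1 hmk
      have e1 : ((Nat.factorial 11 : ℕ) : ℝ) * ((Nat.factorial 11 : ℕ) : ℝ) = ((1593350922240000 : ℕ) : ℝ) := by
        norm_num [Nat.factorial]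
      rw [e1]
      exact this
    · have := coef_aux (by norm_num) h12 hl hl1 hmk
      have e1 : ((Nat.factorial 12 : ℕ) : ℝ) * ((Nat.factorial 12 : ℕ) : ℝ) = ((229442532802560000 : ℕ) : ℝ) := by
        norm_num [Nat.factorial]
      rw [e1]
      exact this
    · have := coef_aux (by norm_num) h13 hl hl1 hmk
      have e1 : ((Nat.factorial 13 : ℕ) : ℝ) * ((Nat.factorial 13 : ℕ) : ℝ) = ((38775788043632640000 : ℕ) : ℝ) := by
        norm_num [Nat.factorial]
      rw [e1]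
      exact this
    · have := coef_aux (by norm_num) h14 hl hl1 hmk
      have e1 : ((Nat.factorial 14 : ℕ) : ℝ) * ((Nat.factorial 14 : ℕ) : ℝ) = ((7600054456551997440000 : ℕ) : ℝ) := by
        norm_num [Nat.factorial]
      rw [e1]
      exact this
    · have := coef_aux (by norm_num) h15 hl hl1 hmk
      have e1 : ((Nat.factorial 15 : ℕ) : ℝ) * ((Nat.factorial 15 : ℕ) : ℝ) = ((1710012252724199424000000 : ℕ) : ℝ) := by
        norm_num [Nat.factorial]
      rw [e1]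
      exact this
  · have hm16 := hm 16 (by norm_num)
    have k1 := (Nat.cast_le (α := ℝ)).2 h.1
    have k2 := (Nat.cast_le (α := ℝ)).2 h.2
    push_cast at k1 k2
    have h1l : 0 ≤ 1 - l := by linarith
    have a1 := mul_le_mul_of_nonneg_left k1 h1l
    have a3 := mul_le_mul_of_nonneg_left k2 hl
    have b2 := (abs_le.1 hm16).2
    simp only [Rw.f, Rw.g] at b2
    have e1 : ((Nat.factorial 16 : ℕ) : ℝ) * ((Nat.factorial 16 : ℕ) : ℝ) = 437763136697395052544000000 := by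
      norm_num [Nat.factorial]
    rw [e1, div_mul_div_comm, div_le_div_iff₀ (by norm_num) (by norm_num)]
    linarith

theorem two_sound {MA MB d : Rw} {pA pB e : List ℕ} (h : polOk MA MB d pA pB e = true)
    {α l : ℝ} (hα : 1 < α) (hl : 0 ≤ l) (hl1 : l ≤ 1)
    (hm : ∀ k, k < 17 → |mom α k - ((1 - l) * MA.f k + l * MB.f k)| ≤ d.g k) {s : ℝ}
    (hs : 0 ≤ s) (hs6 : s ≤ 61 / 10) :
    |Phi α s - ((1 - l) * altE pA s + l * altE pB s) / 100000000000000000000| ≤
      posE e s / 100000000000000000000 := by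
  obtain ⟨key, htl, hA', hB', hE'⟩ := coef_sound h hα hl hl1 hm
  have h1 := Phi_trunc hα hs 16 (by norm_num; linarith)
  have htail : mom α 16 * s ^ 16 / ((Nat.factorial 16 : ℝ) * (Nat.factorial 16 : ℝ)) /
      (1 - s / ((16 : ℕ) + 1)) ≤ ((e.getD 16 0 : ℕ) : ℝ) * s ^ 16 / 100000000000000000000 := by
    have hden : (25 : ℝ) / 39 ≤ 1 - s / ((16 : ℕ) + 1) := by
      norm_num
      linarith
    have hmn := mom_nonneg hα 16
    have hT : 0 ≤ mom α 16 * s ^ 16 / ((Nat.factorial 16 : ℝ) * (Nat.factorial 16 : ℝ)) := by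
      positivity
    calc mom α 16 * s ^ 16 / ((Nat.factorial 16 : ℝ) * (Nat.factorial 16 : ℝ)) /
        (1 - s / ((16 : ℕ) + 1)) ≤
        mom α 16 * s ^ 16 / ((Nat.factorial 16 : ℝ) * (Nat.factorial 16 : ℝ)) / (25 / 39) :=
          div_le_div_of_nonneg_left hT (by norm_num) hden
      _ = (mom α 16 / ((Nat.factorial 16 : ℝ) * (Nat.factorial 16 : ℝ)) * (39 / 25)) * s ^ 16 := by
        ring
      _ ≤ (((e.getD 16 0 : ℕ) : ℝ) / 100000000000000000000) * s ^ 16 :=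
          mul_le_mul_of_nonneg_right htl (by positivity)
      _ = _ := by ring
  rw [altE_sum, altE_sum, posE_sum, hA', hB', hE']
  have hsplit : (∑ k ∈ Finset.range 17, ((e.getD k 0 : ℕ) : ℝ) * s ^ k) / 100000000000000000000 =
      (∑ k ∈ Finset.range 16, ((e.getD k 0 : ℕ) : ℝ) * s ^ k) / 100000000000000000000 +
        ((e.getD 16 0 : ℕ) : ℝ) * s ^ 16 / 100000000000000000000 := by
    rw [Finset.sum_range_succ, add_div]
  have h2 : |∑ k ∈ Finset.range 16, (-1) ^ k * mom α k * s ^ k /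
      ((k.factorial : ℝ) * (k.factorial : ℝ)) -
      ((1 - l) * ∑ k ∈ Finset.range 16, (-1) ^ k * ((pA.getD k 0 : ℕ) : ℝ) * s ^ k +
        l * ∑ k ∈ Finset.range 16, (-1) ^ k * ((pB.getD k 0 : ℕ) : ℝ) * s ^ k) /
        100000000000000000000| ≤
      ∑ k ∈ Finset.range 16, ((e.getD k 0 : ℕ) : ℝ) * s ^ k / 100000000000000000000 := by
    rw [Finset.mul_sum, Finset.mul_sum, ← Finset.sum_add_distrib, Finset.sum_div,
      ← Finset.sum_sub_distrib]
    refine (Finset.abs_sum_le_sum_abs _ _).trans (Finset.sum_le_sum fun k hk => ?_)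
    have hk' := key k (Finset.mem_range.1 hk)
    have e1 : (-1) ^ k * mom α k * s ^ k / ((k.factorial : ℝ) * (k.factorial : ℝ)) -
        ((1 - l) * ((-1) ^ k * ((pA.getD k 0 : ℕ) : ℝ) * s ^ k) +
          l * ((-1) ^ k * ((pB.getD k 0 : ℕ) : ℝ) * s ^ k)) / 100000000000000000000 =
        ((-1) ^ k * s ^ k) * (mom α k / ((k.factorial : ℝ) * (k.factorial : ℝ)) -
      ((1 - l) * ((pA.getD k 0 : ℕ) : ℝ) + l * ((pB.getD k 0 : ℕ) : ℝ)) /
        100000000000000000000) := by ring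
    rw [e1, abs_mul, abs_mul, abs_pow, abs_neg, abs_one, one_pow, one_mul,
      abs_of_nonneg (pow_nonneg hs k)]
    calc s ^ k * |mom α k / ((k.factorial : ℝ) * (k.factorial : ℝ)) -
      ((1 - l) * ((pA.getD k 0 : ℕ) : ℝ) + l * ((pB.getD k 0 : ℕ) : ℝ)) / 100000000000000000000| ≤
        s ^ k * (((e.getD k 0 : ℕ) : ℝ) / 100000000000000000000) :=
          mul_le_mul_of_nonneg_left hk' (pow_nonneg hs k)
      _ = _ := by ring
  rw [← Finset.sum_div] at h2
  obtain ⟨c1, c2⟩ := abs_le.1 h1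
  obtain ⟨d1, d2⟩ := abs_le.1 h2
  rw [abs_le, hsplit]
  constructor
  · linarith
  · linarith

instance : Inhabited Rw := ⟨⟨0, 0, 0, 0, 0, 0, 0, 0, 0, 0, 0, 0, 0, 0, 0⟩⟩

/-- data at a node: lower and upper table, center of the moments, coefficients of `Phi` -/
structure Node where
  l : Rw
  u : Rw
  c : Rw
  p : List ℕ

/-- data of a cell: radii of the moments, error polynomial -/
structure TCell where
  d : Rw
  e : List ℕ

instance : Inhabited Node := ⟨⟨default, default, default, []⟩⟩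
instance : Inhabited TCell := ⟨⟨default, []⟩⟩

/-- check of consecutive cells of width `1 / D` -/
def segOk (D : ℕ) : List Node → List TCell → Bool
  | _, [] => true
  | a :: b :: t, c :: cs => mcOk D a.l a.u b.l b.u a.c b.c c.d &&
      (polOk a.c b.c c.d a.p b.p c.e && segOk D (b :: t) cs)
  | _, _ => false

theorem segOk_sound {D : ℕ} : ∀ (cs : List TCell) (ns : List Node), segOk D ns cs = true →
    ∀ j, j < cs.length → mcOk D (ns.getD j default).l (ns.getD j default).u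
      (ns.getD (j + 1) default).l (ns.getD (j + 1) default).u (ns.getD j default).c
      (ns.getD (j + 1) default).c (cs.getD j default).d = true ∧
      polOk (ns.getD j default).c (ns.getD (j + 1) default).c (cs.getD j default).d
        (ns.getD j default).p (ns.getD (j + 1) default).p (cs.getD j default).e = true
  | [], ns, _, j, hj => absurd hj (Nat.not_lt_zero j)
  | c :: cs, [], h, _, _ => by
    have h' : false = true := h
    exact absurd h' (by decide)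
  | c :: cs, [a], h, _, _ => by
    have h' : false = true := h
    exact absurd h' (by decide)
  | c :: cs, a :: b :: t, h, j, hj => by
    have h' : (mcOk D a.l a.u b.l b.u a.c b.c c.d &&
      (polOk a.c b.c c.d a.p b.p c.e && segOk D (b :: t) cs)) = true := h
    rw [Bool.and_eq_true, Bool.and_eq_true] at h'
    cases j with
    | zero => exact ⟨h'.1, h'.2.1⟩
    | succ j => exact segOk_sound cs (b :: t) h'.2.2 j (Nat.lt_of_succ_lt_succ hj)

/-- tables at `a / D`, `(a + 1) / D`, … -/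
def nodesOk (N D : ℕ) : ℕ → List Node → Bool
  | _, [] => true
  | a, n :: t => rowOkR N a D n.l n.u && nodesOk N D (a + 1) t

theorem nodesOk_sound {N D : ℕ} (hD : 0 < D) : ∀ (ns : List Node) (a : ℕ),
    nodesOk N D a ns = true → ∀ j, j < ns.length →
      RowB (((a + j : ℕ) : ℝ) / D) (ns.getD j default).l (ns.getD j default).u
  | [], _, _, j, hj => absurd hj (Nat.not_lt_zero j)
  | n :: t, a, h, j, hj => by
    have h' : (rowOkR N a D n.l n.u && nodesOk N D (a + 1) t) = true := h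
    rw [Bool.and_eq_true] at h'
    cases j with
    | zero => exact rowOkR_sound hD h'.1
    | succ j =>
      have := nodesOk_sound hD t (a + 1) h'.2 j (Nat.lt_of_succ_lt_succ hj)
      have e : a + 1 + j = a + (j + 1) := by omega
      rw [e] at this
      exact this

/-- moments in a cell -/
theorem seg_mom {N D a : ℕ} (hD : 0 < D) {ns : List Node} {cs : List TCell}
    (hn : nodesOk N D a ns = true) (hc : segOk D ns cs = true) (hlen : ns.length = cs.length + 1)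
    (haD : a + cs.length < D) {j : ℕ} (hj : j < cs.length) {l : ℝ} (hl : 0 ≤ l) (hl1 : l ≤ 1)
    (hw : 0 < ((a + j : ℕ) : ℝ) + l) {k : ℕ} (hk : k < 17) :
    |mom (1 / ((((a + j : ℕ) : ℝ) + l) / D)) k - ((1 - l) * (ns.getD j default).c.f k +
      l * (ns.getD (j + 1) default).c.f k)| ≤ (cs.getD j default).d.g k := by
  have hD' : (0 : ℝ) < D := by exact_mod_cast hD
  have h := (segOk_sound cs ns hc j hj).1
  have h1 := nodesOk_sound hD ns a hn j (by omega)
  have h2 := nodesOk_sound hD ns a hn (j + 1) (by omega)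
  have e1 : (((a + (j + 1) : ℕ)) : ℝ) / D = ((a + j : ℕ) : ℝ) / D + 1 / D := by push_cast; ring
  have hlt : ((a + j : ℕ) : ℝ) + l < D := by
    have : ((a + j + 1 : ℕ) : ℝ) < D := by exact_mod_cast (by omega : a + j + 1 < D)
    push_cast at this ⊢
    linarith
  refine mc_sound hD (by positivity) e1 h1 h2 h hl hl1 (w := (((a + j : ℕ) : ℝ) + l) / D) ?_
    (by positivity) (by rw [div_lt_one hD']; exact hlt) k hk
  push_cast
  ring

/-- coefficients in a cell -/
theorem seg_coef {N D a : ℕ} (hD : 0 < D) {ns : List Node} {cs : List TCell}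
    (hn : nodesOk N D a ns = true) (hc : segOk D ns cs = true) (hlen : ns.length = cs.length + 1)
    (haD : a + cs.length < D) {j : ℕ} (hj : j < cs.length) {l : ℝ} (hl : 0 ≤ l) (hl1 : l ≤ 1)
    (hw : 0 < ((a + j : ℕ) : ℝ) + l) :
    (∀ k, k < 16 → |mom (1 / ((((a + j : ℕ) : ℝ) + l) / D)) k /
        ((k.factorial : ℝ) * (k.factorial : ℝ)) -
      ((1 - l) * (((ns.getD j default).p.getD k 0 : ℕ) : ℝ) +
        l * (((ns.getD (j + 1) default).p.getD k 0 : ℕ) : ℝ)) / 100000000000000000000| ≤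
      (((cs.getD j default).e.getD k 0 : ℕ) : ℝ) / 100000000000000000000) ∧
    mom (1 / ((((a + j : ℕ) : ℝ) + l) / D)) 16 / ((Nat.factorial 16 : ℝ) * (Nat.factorial 16 : ℝ)) *
      (39 / 25) ≤ (((cs.getD j default).e.getD 16 0 : ℕ) : ℝ) / 100000000000000000000 := by
  have hD' : (0 : ℝ) < D := by exact_mod_cast hD
  have h := (segOk_sound cs ns hc j hj).2
  have hlt : ((a + j : ℕ) : ℝ) + l < D := by
    have : ((a + j + 1 : ℕ) : ℝ) < D := by exact_mod_cast (by omega : a + j + 1 < D)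
    push_cast at this ⊢
    linarith
  have hw0 : 0 < (((a + j : ℕ) : ℝ) + l) / D := by positivity
  have hw1 : (((a + j : ℕ) : ℝ) + l) / D < 1 := by rw [div_lt_one hD']; exact hlt
  have h3 := coef_sound h (α := 1 / ((((a + j : ℕ) : ℝ) + l) / D))
    (by rw [lt_div_iff₀ hw0]; linarith) hl hl1 (fun k hk => seg_mom hD hn hc hlen haD hj hl hl1 hw hk)
  exact ⟨h3.1, h3.2.1⟩

/-- `Phi` in a cell -/
theorem seg_Phi {N D a : ℕ} (hD : 0 < D) {ns : List Node} {cs : List TCell}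
    (hn : nodesOk N D a ns = true) (hc : segOk D ns cs = true) (hlen : ns.length = cs.length + 1)
    (haD : a + cs.length < D) {j : ℕ} (hj : j < cs.length) {l : ℝ} (hl : 0 ≤ l) (hl1 : l ≤ 1)
    (hw : 0 < ((a + j : ℕ) : ℝ) + l) {s : ℝ} (hs : 0 ≤ s) (hs6 : s ≤ 61 / 10) :
    |Phi (1 / ((((a + j : ℕ) : ℝ) + l) / D)) s - ((1 - l) * altE (ns.getD j default).p s +
      l * altE (ns.getD (j + 1) default).p s) / 100000000000000000000| ≤
      posE (cs.getD j default).e s / 100000000000000000000 := by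
  have hD' : (0 : ℝ) < D := by exact_mod_cast hD
  have h := (segOk_sound cs ns hc j hj).2
  have hlt : ((a + j : ℕ) : ℝ) + l < D := by
    have : ((a + j + 1 : ℕ) : ℝ) < D := by exact_mod_cast (by omega : a + j + 1 < D)
    push_cast at this ⊢
    linarith
  have hw0 : 0 < (((a + j : ℕ) : ℝ) + l) / D := by positivity
  have hw1 : (((a + j : ℕ) : ℝ) + l) / D < 1 := by rw [div_lt_one hD']; exact hlt
  exact two_sound h (α := 1 / ((((a + j : ℕ) : ℝ) + l) / D))
    (by rw [lt_div_iff₀ hw0]; linarith) hl hl1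
    (fun k hk => seg_mom hD hn hc hlen haD hj hl hl1 hw hk) hs hs6

/-- the table of helper27 as rows -/
def rl (i : ℕ) : Rw := ⟨tl i 2, tl i 3, tl i 4, tl i 5, tl i 6, tl i 7, tl i 8, tl i 9, tl i 10, tl i 11, tl i 12, tl i 13, tl i 14, tl i 15, tl i 16⟩
def ru (i : ℕ) : Rw := ⟨tu i 2, tu i 3, tu i 4, tu i 5, tu i 6, tu i 7, tu i 8, tu i 9, tu i 10, tu i 11, tu i 12, tu i 13, tu i 14, tu i 15, tu i 16⟩

theorem rowB_tab {i : ℕ} (hi : i ≤ 100) : RowB ((i : ℝ) / 100) (rl i) (ru i) := by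
  have h : ∀ k, 2 ≤ k → k ≤ 16 → (tl i k : ℝ) / 10000000000 ≤ mm k ((i : ℝ) / 100) ∧
      mm k ((i : ℝ) / 100) ≤ (tu i k : ℝ) / 10000000000 := by
    intro k h2 h16
    have := mm_table hi h2 h16
    norm_num at this
    exact this
  exact ⟨h 2 (by norm_num) (by norm_num),
    h 3 (by norm_num) (by norm_num),
    h 4 (by norm_num) (by norm_num),
    h 5 (by norm_num) (by norm_num),
    h 6 (by norm_num) (by norm_num),
    h 7 (by norm_num) (by norm_num),
    h 8 (by norm_num) (by norm_num),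
    h 9 (by norm_num) (by norm_num),
    h 10 (by norm_num) (by norm_num),
    h 11 (by norm_num) (by norm_num),
    h 12 (by norm_num) (by norm_num),
    h 13 (by norm_num) (by norm_num),
    h 14 (by norm_num) (by norm_num),
    h 15 (by norm_num) (by norm_num),
    h 16 (by norm_num) (by norm_num)⟩

end LpSec.W
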