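import Mathlib
import Pool.Agent.Lib.MP_1dbab3_gt.WKey
import Pool.Agent.Lib.MP_1dbab3_gt.W.Two

/-!
# Lower and upper polynomials of a cell: list level
-/

open Real MeasureTheory Set Filter Topology

namespace LpSec.W

/-! ## lists -/

/-- `b = true`: subtract at this index, add at the next one -/
def subE : Bool → List ℕ → List ℕ → List ℕ
  | _, p, [] => p
  | _, [], _ :: _ => []
  | true, a :: p, e :: es => Nat.sub a e :: subE false p es
  | false, a :: p, e :: es => Nat.add a e :: subE true p es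

def subOk : Bool → List ℕ → List ℕ → Bool
  | _, _, [] => true
  | _, [], _ :: _ => false
  | true, a :: p, e :: es => Nat.ble e a && subOk false p es
  | false, _ :: p, _ :: es => subOk true p es

theorem subE_eq : ∀ (b : Bool) (p e : List ℕ), subOk b p e = true → ∀ x : ℝ,
    altE (subE b p e) x = altE p x + (if b then -1 else 1) * posE e x
  | b, p, [], _, x => by
    have : subE b p [] = p := by cases b <;> cases p <;> rfl
    rw [this]
    simp [posE]
  | b, [], _ :: _, h, x => by
    cases b <;> exact absurd h (by simp [subOk])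
  | true, a :: p, e :: es, h, x => by
    simp only [subOk, Bool.and_eq_true, Nat.ble_eq] at h
    have ih := subE_eq false p es h.2 x
    show ((a - e : ℕ) : ℝ) - x * altE (subE false p es) x = _
    rw [ih, Nat.cast_sub h.1, altE, posE]
    simp only [Bool.false_eq_true, if_false, if_true]
    ring
  | false, a :: p, e :: es, h, x => by
    simp only [subOk] at h
    have ih := subE_eq true p es h x
    show ((a + e : ℕ) : ℝ) - x * altE (subE true p es) x = _
    rw [ih, Nat.cast_add, altE, posE]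
    simp only [Bool.false_eq_true, if_false, if_true]
    ring

/-- the last coefficient moved to the previous one -/
def trimE : List ℕ → List ℕ
  | [] => []
  | [a] => [a]
  | [a, b] => [Nat.add a (Nat.mul 7 b)]
  | a :: b :: c :: t => a :: trimE (b :: c :: t)

theorem trimE_le : ∀ (e : List ℕ) {x : ℝ}, 0 ≤ x → x ≤ 7 → posE e x ≤ posE (trimE e) x
  | [], x, _, _ => le_refl _
  | [a], x, _, _ => le_refl _
  | [a, b], x, h0, h7 => by
    have hb : (0 : ℝ) ≤ b := Nat.cast_nonneg b
    have := mul_le_mul_of_nonneg_right h7 hb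
    show (a : ℝ) + x * ((b : ℝ) + x * 0) ≤ ((a + 7 * b : ℕ) : ℝ) + x * 0
    push_cast
    linarith
  | a :: b :: c :: t, x, h0, h7 => by
    have ih := trimE_le (b :: c :: t) h0 h7
    have := mul_le_mul_of_nonneg_left ih h0
    show (a : ℝ) + x * posE (b :: c :: t) x ≤ (a : ℝ) + x * posE (trimE (b :: c :: t)) x
    linarith

/-- odd coefficients that are too large are moved to the previous index -/
def mvE : List ℕ → List ℕ → List ℕ
  | _ :: p1 :: p, e0 :: e1 :: e => cond (Nat.ble e1 p1) (e0 :: e1 :: mvE p e)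
      (Nat.add e0 (Nat.mul 7 e1) :: 0 :: mvE p e)
  | _, e => e

theorem mvE_le : ∀ (p e : List ℕ) {x : ℝ}, 0 ≤ x → x ≤ 7 → posE e x ≤ posE (mvE p e) x
  | p0 :: p1 :: p, e0 :: e1 :: e, x, h0, h7 => by
    have ih := mvE_le p e h0 h7
    have h1 := mul_le_mul_of_nonneg_left (mul_le_mul_of_nonneg_left ih h0) h0
    have h2 : mvE (p0 :: p1 :: p) (e0 :: e1 :: e) = cond (Nat.ble e1 p1) (e0 :: e1 :: mvE p e)
      (Nat.add e0 (Nat.mul 7 e1) :: 0 :: mvE p e) := rfl
    rw [h2]
    rcases hb : Nat.ble e1 p1 with _ | _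
    · simp only [cond_false, posE]
      have he : (0 : ℝ) ≤ e1 := Nat.cast_nonneg e1
      have h3 := mul_le_mul_of_nonneg_right h7 he
      show (e0 : ℝ) + x * (e1 + x * posE e x) ≤ ((e0 + 7 * e1 : ℕ) : ℝ) +
        x * (((0 : ℕ) : ℝ) + x * posE (mvE p e) x)
      push_cast
      nlinarith
    · simp only [cond_true, posE]
      nlinarith
  | [], e, x, _, _ => by
    have h2 : mvE [] e = e := rfl
    rw [h2]
  | [p0], e, x, _, _ => by
    have h2 : mvE [p0] e = e := rfl
    rw [h2]
  | p0 :: p1 :: p, [], x, _, _ => by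
    have h2 : mvE (p0 :: p1 :: p) [] = [] := rfl
    rw [h2]
  | p0 :: p1 :: p, [e0], x, _, _ => by
    have h2 : mvE (p0 :: p1 :: p) [e0] = [e0] := rfl
    rw [h2]

/-- the same from the index `1` on -/
def mvT : List ℕ → List ℕ → List ℕ
  | _ :: p, e0 :: e => e0 :: mvE p e
  | _, e => e

theorem mvT_le (p e : List ℕ) {x : ℝ} (h0 : 0 ≤ x) (h7 : x ≤ 7) : posE e x ≤ posE (mvT p e) x := by
  rcases p with _ | ⟨p0, p⟩
  · exact le_rfl
  rcases e with _ | ⟨e0, e⟩
  · exact le_rfl
  have h1 := mul_le_mul_of_nonneg_left (mvE_le p e h0 h7) h0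
  show (e0 : ℝ) + x * posE e x ≤ e0 + x * posE (mvE p e) x
  linarith

/-- the lower polynomial -/
def lowL (p e : List ℕ) : List ℕ := subE true p (mvT p (trimE e))

def lowOk (p e : List ℕ) : Bool := subOk true p (mvT p (trimE e))

theorem lowL_le {p e : List ℕ} (h : lowOk p e = true) {x : ℝ} (h0 : 0 ≤ x) (h7 : x ≤ 7) :
    altE (lowL p e) x ≤ altE p x - posE e x := by
  have h1 := subE_eq true p (mvT p (trimE e)) h x
  have h2 := trimE_le e h0 h7
  have h3 := mvT_le p (trimE e) h0 h7
  unfold lowL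
  rw [h1]
  simp only [if_true]
  linarith

/-! ## positivity on `[0, A / D]` -/

theorem posE_addL : ∀ (p q : List ℕ) (x : ℝ), posE (addL p q) x = posE p x + posE q x
  | [], q, x => by simp [addL, posE]
  | a :: p, [], x => by simp [addL, posE]
  | a :: p, b :: q, x => by
    rw [addL, posE, posE, posE, posE_addL p q x]
    push_cast
    ring

theorem posE_map (c : ℕ) : ∀ (q : List ℕ) (x : ℝ), posE (q.map (c * ·)) x = c * posE q x
  | [], x => by simp [posE]
  | b :: q, x => by
    rw [List.map_cons, posE, posE, posE_map c q x]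
    push_cast
    ring

/-- the polynomial `x ↦ D ^ len * altE q x` in the variable `z = A - D x`, as a difference of two
polynomials with nonnegative coefficients; third component `D ^ len` -/
def shf (A D : ℕ) : List ℕ → List ℕ × List ℕ × ℕ
  | [] => ([], [], 1)
  | a :: t =>
    match shf A D t with
    | (P, N, E) =>
      (addL [Nat.mul a (Nat.mul D E)] (addL (N.map (A * ·)) (0 :: P)),
        addL (P.map (A * ·)) (0 :: N), Nat.mul D E)

theorem shf_cons (A D a : ℕ) (t : List ℕ) : shf A D (a :: t) =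
    (addL [a * (D * (shf A D t).2.2)] (addL ((shf A D t).2.1.map (A * ·)) (0 :: (shf A D t).1)),
      addL ((shf A D t).1.map (A * ·)) (0 :: (shf A D t).2.1), D * (shf A D t).2.2) := by
  rw [shf]
  rcases shf A D t with ⟨P, N, E⟩
  rfl

theorem shf_eq {A D : ℕ} (hD : 0 < D) : ∀ (q : List ℕ) (z : ℝ),
    0 < (shf A D q).2.2 ∧ ((shf A D q).2.2 : ℝ) * altE q ((A - z) / D) =
      posE (shf A D q).1 z - posE (shf A D q).2.1 z
  | [], z => by simp [shf, altE, posE]
  | a :: t, z => by
    have ih := shf_eq (A := A) hD t z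
    rw [shf_cons]
    set P := (shf A D t).1
    set N := (shf A D t).2.1
    set E := (shf A D t).2.2
    refine ⟨Nat.mul_pos hD ih.1, ?_⟩
    have hD' : (D : ℝ) ≠ 0 := by exact_mod_cast hD.ne'
    rw [posE_addL, posE_addL, posE_map, posE_addL, posE_map]
    simp only [posE, altE]
    push_cast
    have e1 : ((D : ℝ) * E) * ((a : ℝ) - (A - z) / D * altE t ((A - z) / D)) =
        (D : ℝ) * E * a - (A - z) * (E * altE t ((A - z) / D)) := by
      field_simp
    rw [e1, ih.2]
    ring

/-- upper bound of `posE n z - posE p z` on `[0, A]` -/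
def negS (A : ℕ) : List ℕ → List ℕ → ℕ
  | _, [] => 0
  | [], n :: ns => Nat.add n (Nat.mul A (negS A [] ns))
  | p :: ps, n :: ns => Nat.add (Nat.sub n p) (Nat.mul A (negS A ps ns))

theorem negS_le {A : ℕ} {z : ℝ} (h0 : 0 ≤ z) (hA : z ≤ A) : ∀ p n : List ℕ,
    posE n z - posE p z ≤ (negS A p n : ℝ)
  | p, [] => by
    have : negS A p [] = 0 := by cases p <;> rfl
    rw [this]
    have := posE_nonneg p h0
    simp only [posE, Nat.cast_zero]
    linarith
  | [], n :: ns => by
    have ih := negS_le h0 hA [] ns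
    simp only [posE, sub_zero] at ih ⊢
    show _ ≤ ((n + A * negS A [] ns : ℕ) : ℝ)
    push_cast
    have h1 := mul_le_mul_of_nonneg_left ih h0
    have h2 := mul_le_mul_of_nonneg_right hA (Nat.cast_nonneg (α := ℝ) (negS A [] ns))
    linarith
  | p :: ps, n :: ns => by
    have ih := negS_le h0 hA ps ns
    simp only [posE]
    show _ ≤ (((n - p) + A * negS A ps ns : ℕ) : ℝ)
    push_cast
    have h1 := mul_le_mul_of_nonneg_left ih h0
    have h2 := mul_le_mul_of_nonneg_right hA (Nat.cast_nonneg (α := ℝ) (negS A ps ns))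
    have h3 : (n : ℝ) ≤ ((n - p : ℕ) : ℝ) + p := by
      exact_mod_cast (le_tsub_add : n ≤ n - p + p)
    nlinarith

/-- positivity check -/
def posFin (A : ℕ) : List ℕ → List ℕ → Bool
  | p0 :: p1 :: ps, n0 :: n1 :: ns => Nat.blt n0 p0 && Nat.ble (Nat.add n1 (Nat.mul A (negS A ps ns))) p1
  | _, _ => false

theorem posFin_sound {A : ℕ} {z : ℝ} (h0 : 0 ≤ z) (hA : z ≤ A) : ∀ p n : List ℕ,
    posFin A p n = true → posE n z < posE p z
  | p0 :: p1 :: ps, n0 :: n1 :: ns, h => by
    simp only [posFin, Bool.and_eq_true, Nat.blt_eq, Nat.ble_eq] at h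
    have h1 : (n0 : ℝ) < p0 := by exact_mod_cast h.1
    have h2 : ((n1 + A * negS A ps ns : ℕ) : ℝ) ≤ p1 := by exact_mod_cast h.2
    push_cast at h2
    have h3 := negS_le h0 hA ps ns
    simp only [posE]
    have h4 := mul_le_mul_of_nonneg_left h3 h0
    have h5 := mul_le_mul_of_nonneg_right hA (Nat.cast_nonneg (α := ℝ) (negS A ps ns))
    have h6 : z * (posE ns z - posE ps z) ≤ (p1 : ℝ) - n1 := by linarith
    have h7 := mul_le_mul_of_nonneg_left h6 h0
    linarith
  | [], _, h => by cases h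
  | [_], _, h => by cases h
  | _ :: _ :: _, [], h => by cases h
  | _ :: _ :: _, [_], h => by cases h

def posChk (A D : ℕ) (q : List ℕ) : Bool :=
  Nat.blt 0 D && (match shf A D q with | (P, N, _) => posFin A P N)

theorem posChk_sound {A D : ℕ} {q : List ℕ} (h : posChk A D q = true) {x : ℝ} (h0 : 0 ≤ x)
    (hx : x ≤ (A : ℝ) / D) : 0 < altE q x := by
  unfold posChk at h
  rw [Bool.and_eq_true, Nat.blt_eq] at h
  obtain ⟨hD, h⟩ := h
  have hD' : (0 : ℝ) < D := by exact_mod_cast hD
  set z : ℝ := A - D * x with hz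
  have hz0 : 0 ≤ z := by
    rw [le_div_iff₀ hD'] at hx
    rw [hz]
    linarith
  have hzA : z ≤ A := by
    have := mul_nonneg hD'.le h0
    linarith
  have h1 := shf_eq (A := A) hD q z
  have h2 : ((A : ℝ) - z) / D = x := by
    rw [hz]
    field_simp
    ring
  rw [h2] at h1
  rcases hs : shf A D q with ⟨P, N, E⟩
  rw [hs] at h h1
  have h3 := posFin_sound hz0 hzA P N h
  have h4 : (0 : ℝ) < (E : ℝ) * altE q x := by
    have := h1.2
    simp only at this
    rw [this]
    linarith
  have h5 : (0 : ℝ) < E := by exact_mod_cast h1.1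
  exact (mul_pos_iff_of_pos_left h5).1 h4

/-! ## the right end is larger -/

def difL : List ℕ → List ℕ → List ℕ
  | a :: p, b :: q => Nat.sub b a :: difL p q
  | _, _ => []

def difOk : List ℕ → List ℕ → Bool
  | [], [] => true
  | a :: p, b :: q => Nat.ble a b && difOk p q
  | _, _ => false

theorem difL_eq : ∀ (p q : List ℕ), difOk p q = true → ∀ x : ℝ,
    altE (difL p q) x = altE q x - altE p x
  | [], [], _, x => by simp [difL, altE]
  | a :: p, b :: q, h, x => by
    simp only [difOk, Bool.and_eq_true, Nat.ble_eq] at h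
    have ih := difL_eq p q h.2 x
    show ((b - a : ℕ) : ℝ) - x * altE (difL p q) x = _
    rw [ih, Nat.cast_sub h.1, altE, altE]
    ring
  | [], _ :: _, h, _ => by cases h
  | _ :: _, [], h, _ => by cases h

def upFin (A D : ℕ) : List ℕ → Bool
  | a :: b :: t => Nat.beq a 0 && (Nat.beq b 0 && posChk A D t)
  | _ => false

/-- `altE p ≤ altE q` on `[0, A / D]` -/
def upChk (A D : ℕ) (p q : List ℕ) : Bool := difOk p q && upFin A D (difL p q)

theorem upChk_sound {A D : ℕ} {p q : List ℕ} (h : upChk A D p q = true) {x : ℝ} (h0 : 0 ≤ x)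
    (hx : x ≤ (A : ℝ) / D) : altE p x ≤ altE q x := by
  unfold upChk at h
  rw [Bool.and_eq_true] at h
  have h1 := difL_eq p q h.1 x
  have h2 := h.2
  have h3 : 0 ≤ altE (difL p q) x := by
    rcases hd : difL p q with _ | ⟨a, _ | ⟨b, t⟩⟩
    · simp [altE]
    · rw [hd] at h2
      cases h2
    · rw [hd] at h2
      simp only [upFin, Bool.and_eq_true, Nat.beq_eq] at h2
      obtain ⟨ha, hb, ht⟩ := h2
      have := posChk_sound ht h0 hx
      simp only [altE, ha, hb, Nat.cast_zero]
      have h5 := mul_nonneg (mul_nonneg h0 h0) this.le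
      linarith
  linarith


/-! ## the upper polynomial -/

theorem altE_app (x : ℝ) : ∀ p : List ℕ, altE (p ++ [0]) x = altE p x
  | [] => by simp [altE]
  | a :: t => by
    rw [List.cons_append, altE, altE, altE_app x t]

/-- the upper polynomial -/
def upL (q e : List ℕ) : List ℕ := subE false (q ++ [0]) (mvE (q ++ [0]) e)

def upOk (q e : List ℕ) : Bool := subOk false (q ++ [0]) (mvE (q ++ [0]) e)

theorem upL_ge {q e : List ℕ} (h : upOk q e = true) {x : ℝ} (h0 : 0 ≤ x) (h7 : x ≤ 7) :
    altE q x + posE e x ≤ altE (upL q e) x := by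
  have h1 := subE_eq false (q ++ [0]) (mvE (q ++ [0]) e) h x
  have h2 := mvE_le (q ++ [0]) e h0 h7
  unfold upL
  rw [h1, altE_app]
  simp only [Bool.false_eq_true, if_false, one_mul]
  linarith

/-! ## values at a point -/

/-- `altE q (A / D) = (P - N) / E` -/
def evA (A D : ℕ) : List ℕ → ℕ × ℕ × ℕ
  | [] => (0, 0, 1)
  | a :: t =>
    match evA A D t with
    | (P, N, E) => (Nat.add (Nat.mul a (Nat.mul D E)) (Nat.mul A N), Nat.mul A P, Nat.mul D E)

theorem evA_cons (A D a : ℕ) (t : List ℕ) : evA A D (a :: t) =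
    (a * (D * (evA A D t).2.2) + A * (evA A D t).2.1, A * (evA A D t).1, D * (evA A D t).2.2) := by
  rw [evA]
  rcases evA A D t with ⟨P, N, E⟩
  rfl

theorem evA_eq {A D : ℕ} (hD : 0 < D) : ∀ q : List ℕ, 0 < (evA A D q).2.2 ∧
    altE q ((A : ℝ) / D) * ((evA A D q).2.2 : ℝ) = ((evA A D q).1 : ℝ) - ((evA A D q).2.1 : ℝ)
  | [] => by simp [evA, altE]
  | a :: t => by
    have ih := evA_eq (A := A) hD t
    rw [evA_cons]
    set P := (evA A D t).1
    set N := (evA A D t).2.1
    set E := (evA A D t).2.2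
    refine ⟨Nat.mul_pos hD ih.1, ?_⟩
    have hD' : (D : ℝ) ≠ 0 := by exact_mod_cast hD.ne'
    rw [altE]
    push_cast
    have e1 : ((a : ℝ) - (A : ℝ) / D * altE t ((A : ℝ) / D)) * ((D : ℝ) * E) =
        a * (D * E) - A * (altE t ((A : ℝ) / D) * E) := by
      field_simp
    rw [e1, ih.2]
    ring

/-- `altE q (A / D) < 0` -/
def negChk (A D : ℕ) (q : List ℕ) : Bool :=
  Nat.blt 0 D && (match evA A D q with | (P, N, _) => Nat.blt P N)

theorem negChk_sound {A D : ℕ} {q : List ℕ} (h : negChk A D q = true) :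
    altE q ((A : ℝ) / D) < 0 := by
  unfold negChk at h
  rw [Bool.and_eq_true, Nat.blt_eq] at h
  obtain ⟨hD, h⟩ := h
  obtain ⟨h1, h2⟩ := evA_eq (A := A) hD q
  rcases hs : evA A D q with ⟨P, N, E⟩
  rw [hs] at h h1 h2
  simp only [Nat.blt_eq] at h h1 h2
  have h3 : (P : ℝ) < N := by exact_mod_cast h
  have h4 : (0 : ℝ) < E := by exact_mod_cast h1
  by_contra hc
  push Not at hc
  have := mul_nonneg hc h4.le
  linarith

/-- `altE q (A / D) ≤ V` -/
def valLe (A D : ℕ) (q : List ℕ) (V : ℕ) : Bool :=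
  Nat.blt 0 D && (match evA A D q with | (P, N, E) => Nat.ble P (Nat.add N (Nat.mul V E)))

theorem valLe_sound {A D V : ℕ} {q : List ℕ} (h : valLe A D q V = true) :
    altE q ((A : ℝ) / D) ≤ V := by
  unfold valLe at h
  rw [Bool.and_eq_true, Nat.blt_eq] at h
  obtain ⟨hD, h⟩ := h
  obtain ⟨h1, h2⟩ := evA_eq (A := A) hD q
  rcases hs : evA A D q with ⟨P, N, E⟩
  rw [hs] at h h1 h2
  simp only [Nat.ble_eq] at h h1 h2
  have h3 : P ≤ N + V * E := h
  have h3' : (P : ℝ) ≤ N + V * E := by exact_mod_cast h3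
  have h4 : (0 : ℝ) < E := by exact_mod_cast h1
  have h5 : altE q ((A : ℝ) / D) * E ≤ V * E := by linarith
  exact le_of_mul_le_mul_right h5 h4

end LpSec.W
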