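import Mathlib
import Pool.Agent.Lib.MP_1dbab3_gt.WLobe

/-!
# Master lemma for `J`, part 1: splitting at `z1 / y` and `z1 / z`, the tail in steps
-/

open Real MeasureTheory Set Filter Topology

namespace LpSec.ML

variable {α : ℝ}

/-- the exponent that is available beyond the main lobe -/
noncomputable def cc (α : ℝ) : ℝ := min (z1 α) 2

theorem cc_pos (h : Lobe α) : 0 < cc α := lt_min h.z1_pos two_pos

theorem cc_le (α : ℝ) : cc α ≤ z1 α := min_le_left _ _

theorem cc_ge_one (h : Lobe α) : 1 ≤ cc α := le_min h.one_le_z1 one_le_two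

/-! ## the step lemma for the tail -/

theorem step_two (hα : 1 < α) {w a b : ℝ} (hw : 0 < w) (ha : 0 ≤ a) (hab : a ≤ b)
    {W : ℝ → ℝ} (hW : AntitoneOn W (Ici a)) (hW0 : ∀ s, 0 ≤ W s) (hWc : Measurable W) :
    IntegrableOn (fun s => Phi α (w * s) ^ 2 * W s) (Ioi a) ∧
    ∫ s in Ioi a, Phi α (w * s) ^ 2 * W s ≤
      (W a * (T2 α (w * a) - T2 α (w * b)) + W b * T2 α (w * b)) / w := by
  have hb : 0 ≤ b := ha.trans hab
  have hs := sq_scale_integrable hα hw ha
  have hint : IntegrableOn (fun s => Phi α (w * s) ^ 2 * W s) (Ioi a) := by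
    refine Integrable.mono' (hs.mul_const (W a)) ?_ ?_
    · exact hs.aestronglyMeasurable.mul hWc.aestronglyMeasurable.restrict
    · refine (ae_restrict_mem measurableSet_Ioi).mono fun s hs => ?_
      rw [norm_of_nonneg (mul_nonneg (sq_nonneg _) (hW0 s))]
      exact mul_le_mul_of_nonneg_left (hW self_mem_Ici (mem_Ici.2 (le_of_lt hs)) (le_of_lt hs))
        (sq_nonneg _)
  refine ⟨hint, ?_⟩
  have hsplit : ∫ s in Ioi a, Phi α (w * s) ^ 2 * W s =
      (∫ s in Ioc a b, Phi α (w * s) ^ 2 * W s) + ∫ s in Ioi b, Phi α (w * s) ^ 2 * W s := by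
    rw [← Ioc_union_Ioi_eq_Ioi hab]
    exact setIntegral_union (Ioc_disjoint_Ioi le_rfl) measurableSet_Ioi
      (hint.mono_set Ioc_subset_Ioi_self) (hint.mono_set (Ioi_subset_Ioi hab))
  have hsplit2 : ∫ s in Ioi a, Phi α (w * s) ^ 2 =
      (∫ s in Ioc a b, Phi α (w * s) ^ 2) + ∫ s in Ioi b, Phi α (w * s) ^ 2 := by
    rw [← Ioc_union_Ioi_eq_Ioi hab]
    exact setIntegral_union (Ioc_disjoint_Ioi le_rfl) measurableSet_Ioi
      (hs.mono_set Ioc_subset_Ioi_self) (hs.mono_set (Ioi_subset_Ioi hab))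
  rw [sq_scale α hw, sq_scale α hw] at hsplit2
  have h1 : ∫ s in Ioc a b, Phi α (w * s) ^ 2 * W s ≤
      (∫ s in Ioc a b, Phi α (w * s) ^ 2) * W a := by
    rw [← integral_mul_const]
    refine setIntegral_mono_on (hint.mono_set Ioc_subset_Ioi_self)
      ((hs.mono_set Ioc_subset_Ioi_self).mul_const _) measurableSet_Ioc fun s hs => ?_
    exact mul_le_mul_of_nonneg_left (hW self_mem_Ici (mem_Ici.2 hs.1.le) hs.1.le) (sq_nonneg _)
  have h2 : ∫ s in Ioi b, Phi α (w * s) ^ 2 * W s ≤
      (∫ s in Ioi b, Phi α (w * s) ^ 2) * W b := by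
    rw [← integral_mul_const]
    refine setIntegral_mono_on (hint.mono_set (Ioi_subset_Ioi hab))
      ((hs.mono_set (Ioi_subset_Ioi hab)).mul_const _) measurableSet_Ioi fun s hs => ?_
    exact mul_le_mul_of_nonneg_left (hW (mem_Ici.2 hab) (mem_Ici.2 (hab.trans (le_of_lt hs)))
      (le_of_lt hs)) (sq_nonneg _)
  rw [sq_scale α hw] at h2
  have h3 : (∫ s in Ioc a b, Phi α (w * s) ^ 2) = (T2 α (w * a) - T2 α (w * b)) / w := by
    rw [sub_div]; linarith
  rw [h3] at h1
  rw [hsplit]
  calc _ ≤ (T2 α (w * a) - T2 α (w * b)) / w * W a + T2 α (w * b) / w * W b := add_le_add h1 h2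
    _ = _ := by ring

/-! ## concave sums -/

theorem min_sum {ι : Type*} {t : ℝ} (ht : 1 ≤ t) (S : Finset ι) (a : ι → ℝ)
    (h0 : ∀ i ∈ S, 0 ≤ a i) (h1 : ∀ i ∈ S, a i ≤ 1) (m : ℕ) {r : ℝ} (hr0 : 0 ≤ r) (hr1 : r ≤ 1)
    (hs : (m : ℝ) + r ≤ ∑ i ∈ S, a i) :
    (m : ℝ) + min (t * r) 1 ≤ ∑ i ∈ S, min (t * a i) 1 := by
  classical
  induction S using Finset.induction_on generalizing m r with
  | empty =>
    simp only [Finset.sum_empty] at hs ⊢
    have hm : (0 : ℝ) ≤ m := Nat.cast_nonneg m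
    have hr : r = 0 := by linarith
    have hm0 : (m : ℝ) = 0 := by linarith
    rw [hr, hm0]
    simp
  | insert k S hk ih =>
    rw [Finset.sum_insert hk] at hs ⊢
    have hk0 := h0 k (Finset.mem_insert_self k S)
    have hk1 := h1 k (Finset.mem_insert_self k S)
    have ih' := fun (m : ℕ) {r : ℝ} (hr0 : 0 ≤ r) (hr1 : r ≤ 1) =>
      ih (fun i hi => h0 i (Finset.mem_insert_of_mem hi))
        (fun i hi => h1 i (Finset.mem_insert_of_mem hi)) m (r := r) hr0 hr1
    rcases le_or_gt (a k) r with hc | hc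
    · have h2 := ih' m (r := r - a k) (by linarith) (by linarith) (by linarith)
      have h3 : min (t * r) 1 ≤ min (t * (r - a k)) 1 + min (t * a k) 1 := by
        have ht0 : 0 ≤ t * a k := by positivity
        have ht1 : 0 ≤ t * (r - a k) := mul_nonneg (by linarith) (by linarith)
        rcases le_total (t * (r - a k)) 1 with h4 | h4 <;>
          rcases le_total (t * a k) 1 with h5 | h5 <;>
          simp only [min_eq_left h4, min_eq_right h4, min_eq_left h5, min_eq_right h5]
        · exact (min_le_left _ _).trans (by linarith)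
        · exact (min_le_right _ _).trans (by linarith)
        · exact (min_le_right _ _).trans (by linarith)
        · exact (min_le_right _ _).trans (by linarith)
      linarith
    · have hS : 0 ≤ ∑ i ∈ S, min (t * a i) 1 := Finset.sum_nonneg fun i hi =>
        le_min (mul_nonneg (by linarith) (h0 i (Finset.mem_insert_of_mem hi))) zero_le_one
      rcases Nat.eq_zero_or_pos m with rfl | hm
      · have h3 : min (t * r) 1 ≤ min (t * a k) 1 :=
          min_le_min_right _ (mul_le_mul_of_nonneg_left hc.le (by linarith))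
        simp only [Nat.cast_zero, zero_add]
        linarith
      · obtain ⟨m', rfl⟩ : ∃ m', m = m' + 1 := ⟨m - 1, by omega⟩
        push_cast at hs ⊢
        have h2 := ih' m' (r := 1 + r - a k) (by linarith) (by linarith) (by linarith)
        have h3 : 1 + min (t * r) 1 ≤ min (t * (1 + r - a k)) 1 + min (t * a k) 1 := by
          rcases le_total (t * (1 + r - a k)) 1 with h4 | h4 <;>
            rcases le_total (t * a k) 1 with h5 | h5 <;>
            simp only [min_eq_left h4, min_eq_right h4, min_eq_left h5, min_eq_right h5]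
          · have := min_le_left (t * r) 1
            nlinarith
          · have := min_le_left (t * r) 1
            nlinarith
          · have := min_le_left (t * r) 1
            nlinarith
          · have := min_le_right (t * r) 1
            linarith
        linarith

/-! ## the rest -/

/-- bound for the product over the coordinates other than `i`, `j` -/
noncomputable def restW (α : ℝ) {n : ℕ} (x : Fin n → ℝ) (i j : Fin n) (s : ℝ) : ℝ :=
  exp (-∑ k ∈ (Finset.univ.erase i).erase j, min (x k * s) (cc α))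

theorem restW_pos {n : ℕ} (x : Fin n → ℝ) (i j : Fin n) (s : ℝ) : 0 < restW α x i j s :=
  exp_pos _

theorem restW_anti {n : ℕ} {x : Fin n → ℝ} (hx : ∀ k, 0 ≤ x k) (i j : Fin n) :
    Antitone (restW α x i j) := by
  intro s t hst
  unfold restW
  refine exp_le_exp.2 (neg_le_neg (Finset.sum_le_sum fun k _ => ?_))
  exact min_le_min_right _ (mul_le_mul_of_nonneg_left hst (hx k))

theorem restW_cont {n : ℕ} (x : Fin n → ℝ) (i j : Fin n) : Continuous (restW α x i j) := by
  unfold restW
  refine continuous_exp.comp (Continuous.neg ?_)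
  exact continuous_finsetSum _ fun k _ =>
    (continuous_const.mul continuous_id).min continuous_const

theorem rest_le (h : Lobe α) {n : ℕ} {x : Fin n → ℝ} (hx : ∀ k, 0 ≤ x k) (i j : Fin n) {s : ℝ}
    (hs : 0 ≤ s) :
    ∏ k ∈ (Finset.univ.erase i).erase j, |Phi α (x k * s)| ≤ restW α x i j s := by
  unfold restW
  rw [← Finset.sum_neg_distrib, exp_sum]
  exact Finset.prod_le_prod (fun k _ => abs_nonneg _) fun k _ => h.abs_le (mul_nonneg (hx k) hs)

theorem prod_split {n : ℕ} (g : Fin n → ℝ) {i j : Fin n} (hij : i ≠ j) :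
    ∏ k, g k = g i * (g j * ∏ k ∈ (Finset.univ.erase i).erase j, g k) := by
  rw [Finset.mul_prod_erase _ _ (Finset.mem_erase.2 ⟨hij.symm, Finset.mem_univ j⟩),
    Finset.mul_prod_erase _ _ (Finset.mem_univ i)]

theorem sum_split {n : ℕ} (g : Fin n → ℝ) {i j : Fin n} (hij : i ≠ j) :
    ∑ k, g k = g i + (g j + ∑ k ∈ (Finset.univ.erase i).erase j, g k) := by
  rw [Finset.add_sum_erase _ _ (Finset.mem_erase.2 ⟨hij.symm, Finset.mem_univ j⟩),
    Finset.add_sum_erase _ _ (Finset.mem_univ i)]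

theorem abs_prod_le (h : Lobe α) {n : ℕ} {x : Fin n → ℝ} (hx : ∀ k, 0 ≤ x k) {i j : Fin n}
    (hij : i ≠ j) {lam : ℝ} (hl : 0 < lam) {s : ℝ} (hs : 0 ≤ s) :
    ∏ k, |Phi α (x k * s)| ≤ (lam * (Phi α (x i * s) ^ 2 * restW α x i j s) +
      Phi α (x j * s) ^ 2 * restW α x i j s / lam) / 2 := by
  rw [prod_split _ hij]
  have h1 := rest_le h hx i j hs
  have h2 := (restW_pos (α := α) x i j s).le
  set W := restW α x i j s
  set a := |Phi α (x i * s)| with ha
  set b := |Phi α (x j * s)| with hb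
  have ha0 : 0 ≤ a := abs_nonneg _
  have hb0 : 0 ≤ b := abs_nonneg _
  rw [← sq_abs (Phi α (x i * s)), ← sq_abs (Phi α (x j * s)), ← ha, ← hb]
  calc _ ≤ a * (b * W) := by gcongr
    _ ≤ _ := by
      have h3 : 0 ≤ (lam * a - b) ^ 2 * W / lam := by positivity
      have h4 : (lam * (a ^ 2 * W) + b ^ 2 * W / lam) / 2 - a * (b * W) =
        (lam * a - b) ^ 2 * W / lam / 2 := by field_simp; ring
      linarith

theorem ml_prod_integrable (h : Lobe α) {n : ℕ} {x : Fin n → ℝ} (hx : ∀ k, 0 ≤ x k)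
    {i j : Fin n} (hij : i ≠ j) (hi : 0 < x i) (hj : 0 < x j) :
    IntegrableOn (fun s => ∏ k, Phi α (x k * s)) (Ioi 0) := by
  have h1 : IntegrableOn (fun s => (1 * (Phi α (x i * s) ^ 2 * restW α x i j s) +
      Phi α (x j * s) ^ 2 * restW α x i j s / 1) / 2) (Ioi 0) :=
    ((((step_two h.one_lt hi le_rfl le_rfl ((restW_anti hx i j).antitoneOn _)
      (fun s => (restW_pos x i j s).le) (restW_cont x i j).measurable).1.const_mul 1).add
      ((step_two h.one_lt hj le_rfl le_rfl ((restW_anti hx i j).antitoneOn _)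
      (fun s => (restW_pos x i j s).le) (restW_cont x i j).measurable).1.div_const 1)).div_const 2)
  refine Integrable.mono' h1 ?_ ?_
  · exact ((prod_continuousOn h.one_lt hx).mono Ioi_subset_Ici_self).aestronglyMeasurable
      measurableSet_Ioi
  · refine (ae_restrict_mem measurableSet_Ioi).mono (fun s hs => ?_)
    rw [Real.norm_eq_abs, Finset.abs_prod]
    exact abs_prod_le h hx hij one_pos (le_of_lt hs)

theorem ml_abs_integrable (h : Lobe α) {n : ℕ} {x : Fin n → ℝ} (hx : ∀ k, 0 ≤ x k)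
    {i j : Fin n} (hij : i ≠ j) (hi : 0 < x i) (hj : 0 < x j) :
    IntegrableOn (fun s => ∏ k, |Phi α (x k * s)|) (Ioi 0) := by
  have h1 := (ml_prod_integrable h hx hij hi hj).abs
  simp only [Finset.abs_prod] at h1
  exact h1


/-- one step: on `[a, b]` the weight is at most its value at `a` -/
theorem step_cons (hα : 1 < α) {w a b R B : ℝ} (hw : 0 < w) (ha : 0 ≤ a) (hab : a ≤ b)
    {W : ℝ → ℝ} (hW : Antitone W) (hW0 : ∀ s, 0 ≤ W s) (hWc : Measurable W) (hR : W a ≤ R)
    (hB : ∫ s in Ioi b, Phi α (w * s) ^ 2 * W s ≤ B / w) :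
    ∫ s in Ioi a, Phi α (w * s) ^ 2 * W s ≤
      (R * (T2 α (w * a) - T2 α (w * b)) + B) / w := by
  have hb : 0 ≤ b := ha.trans hab
  obtain ⟨i1, -⟩ := step_two hα hw ha le_rfl (hW.antitoneOn _) hW0 hWc
  have hs := sq_scale_integrable hα hw ha
  have hsplit : ∫ s in Ioi a, Phi α (w * s) ^ 2 * W s =
      (∫ s in Ioc a b, Phi α (w * s) ^ 2 * W s) + ∫ s in Ioi b, Phi α (w * s) ^ 2 * W s := by
    rw [← Ioc_union_Ioi_eq_Ioi hab]
    exact setIntegral_union (Ioc_disjoint_Ioi le_rfl) measurableSet_Ioi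
      (i1.mono_set Ioc_subset_Ioi_self) (i1.mono_set (Ioi_subset_Ioi hab))
  have hsplit2 : ∫ s in Ioi a, Phi α (w * s) ^ 2 =
      (∫ s in Ioc a b, Phi α (w * s) ^ 2) + ∫ s in Ioi b, Phi α (w * s) ^ 2 := by
    rw [← Ioc_union_Ioi_eq_Ioi hab]
    exact setIntegral_union (Ioc_disjoint_Ioi le_rfl) measurableSet_Ioi
      (hs.mono_set Ioc_subset_Ioi_self) (hs.mono_set (Ioi_subset_Ioi hab))
  rw [sq_scale α hw, sq_scale α hw] at hsplit2
  have h1 : ∫ s in Ioc a b, Phi α (w * s) ^ 2 * W s ≤
      (∫ s in Ioc a b, Phi α (w * s) ^ 2) * R := by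
    rw [← integral_mul_const]
    refine setIntegral_mono_on (i1.mono_set Ioc_subset_Ioi_self)
      ((hs.mono_set Ioc_subset_Ioi_self).mul_const _) measurableSet_Ioc fun s hs => ?_
    exact mul_le_mul_of_nonneg_left ((hW hs.1.le).trans hR) (sq_nonneg _)
  have h3 : (∫ s in Ioc a b, Phi α (w * s) ^ 2) = (T2 α (w * a) - T2 α (w * b)) / w := by
    rw [sub_div]; linarith
  rw [h3] at h1
  rw [hsplit]
  calc _ ≤ (T2 α (w * a) - T2 α (w * b)) / w * R + B / w := add_le_add h1 hB
    _ = _ := by ring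

/-- the last step -/
theorem step_last (hα : 1 < α) {w a R : ℝ} (hw : 0 < w) (ha : 0 ≤ a)
    {W : ℝ → ℝ} (hW : Antitone W) (hW0 : ∀ s, 0 ≤ W s) (hWc : Measurable W) (hR : W a ≤ R) :
    ∫ s in Ioi a, Phi α (w * s) ^ 2 * W s ≤ R * T2 α (w * a) / w := by
  obtain ⟨-, e⟩ := step_two hα hw ha le_rfl (hW.antitoneOn _) hW0 hWc
  rw [sub_self, mul_zero, zero_add] at e
  refine e.trans ?_
  have := T2_nonneg α (w * a)
  gcongr

theorem exists_lam {A B X : ℝ} (hA : 0 ≤ A) (hB : 0 ≤ B) (hX : 0 < X) (h : A * B ≤ X ^ 2) :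
    ∃ l, 0 < l ∧ (l * A + B / l) / 2 ≤ X := by
  rcases eq_or_lt_of_le hA with rfl | hA
  · refine ⟨(B + 1) / X, by positivity, ?_⟩
    have h1 : B / ((B + 1) / X) ≤ X := by
      rw [div_div_eq_mul_div, div_le_iff₀ (by positivity)]
      nlinarith
    linarith
  · refine ⟨X / A, by positivity, ?_⟩
    have h1 : B / (X / A) ≤ X := by
      rw [div_div_eq_mul_div, div_le_iff₀ hX]
      nlinarith
    have h2 : X / A * A = X := by field_simp
    linarith

/-- Cauchy-Schwarz for the tail beyond `b` -/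
theorem ml_tail (h : Lobe α) {n : ℕ} {x : Fin n → ℝ} (hx : ∀ k, 0 ≤ x k) {i j : Fin n}
    (hij : i ≠ j) (hi : 0 < x i) (hj : 0 < x j) {b A B X : ℝ} (hb : 0 ≤ b)
    (hA : ∫ s in Ioi b, Phi α (x i * s) ^ 2 * restW α x i j s ≤ A)
    (hB : ∫ s in Ioi b, Phi α (x j * s) ^ 2 * restW α x i j s ≤ B)
    (hX : 0 < X) (hAB : A * B ≤ X ^ 2) :
    ∫ s in Ioi b, ∏ k, |Phi α (x k * s)| ≤ X := by
  obtain ⟨i1, -⟩ := step_two h.one_lt hi hb le_rfl ((restW_anti hx i j).antitoneOn _)
      (fun s => (restW_pos x i j s).le) (restW_cont x i j).measurable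
  obtain ⟨i2, -⟩ := step_two h.one_lt hj hb le_rfl ((restW_anti hx i j).antitoneOn _)
      (fun s => (restW_pos x i j s).le) (restW_cont x i j).measurable
  have hA0 : 0 ≤ A := le_trans (setIntegral_nonneg measurableSet_Ioi fun s _ =>
    mul_nonneg (sq_nonneg _) (restW_pos x i j s).le) hA
  have hB0 : 0 ≤ B := le_trans (setIntegral_nonneg measurableSet_Ioi fun s _ =>
    mul_nonneg (sq_nonneg _) (restW_pos x i j s).le) hB
  obtain ⟨lam, hl, hlam⟩ := exists_lam hA0 hB0 hX hAB
  calc _ ≤ ∫ s in Ioi b, (lam * (Phi α (x i * s) ^ 2 * restW α x i j s) +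
      Phi α (x j * s) ^ 2 * restW α x i j s / lam) / 2 := by
        refine setIntegral_mono_on ((ml_abs_integrable h hx hij hi hj).mono_set
          (Ioi_subset_Ioi hb)) (((i1.const_mul lam).add (i2.div_const lam)).div_const 2)
          measurableSet_Ioi fun s hs => ?_
        exact abs_prod_le h hx hij hl (hb.trans (le_of_lt hs))
    _ = (lam * (∫ s in Ioi b, Phi α (x i * s) ^ 2 * restW α x i j s) +
      (∫ s in Ioi b, Phi α (x j * s) ^ 2 * restW α x i j s) / lam) / 2 := by
        rw [integral_div, integral_add (i1.const_mul lam) (i2.div_const lam), integral_const_mul,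
          integral_div]
    _ ≤ (lam * A + B / lam) / 2 := by gcongr
    _ ≤ X := hlam

theorem exp_tail_integral {a c : ℝ} (hc : 0 < c) :
    IntegrableOn (fun s : ℝ => exp (-(c * s))) (Ioi a) ∧
    ∫ s in Ioi a, exp (-(c * s)) = exp (-(c * a)) / c := by
  have h1 : (fun s : ℝ => exp (-(c * s))) = fun s => exp (-c * s) := by
    funext s; rw [neg_mul]
  rw [h1]
  refine ⟨exp_neg_integrableOn_Ioi a hc, ?_⟩
  rw [integral_exp_mul_Ioi (by linarith) a]
  rw [neg_mul]
  field_simp

/-- what the later lobes of the largest coordinate contribute between `z1 / y` and `z1 / z` -/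
def ExtraOk (α y z X : ℝ) : Prop :=
  0 ≤ X ∧ (z1 α * y ≤ 6 * z ∨
    (0 < X ∧ T2 α 6 / y * (exp (-(2 * (1 - y) * (6 / y))) / (2 * (1 - y))) ≤ X ^ 2))

/-- **the master lemma, splitting** -/
theorem ml_split_signed (h : Lobe α) {n : ℕ} {x : Fin n → ℝ} (hx : ∀ k, 0 ≤ x k) (h1 : ∑ k, x k = 1)
    {i j : Fin n} (hij : i ≠ j) (hz : ∀ k, k ≠ i → x k ≤ x j) (hj : 0 < x j) (hji : x j ≤ x i)
    {X : ℝ} (hX : ExtraOk α (x i) (x j) X) :
    J α x ≤ (∫ s in (0 : ℝ)..(z1 α / x i), ∏ k, Phi α (x k * s)) + X +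
      ∫ s in Ioi (z1 α / x j), ∏ k, Phi α (x k * s) := by
  have hc := h.z1_pos
  have hi : 0 < x i := lt_of_lt_of_le hj hji
  have ha : 0 ≤ z1 α / x i := by positivity
  have hab : z1 α / x i ≤ z1 α / x j := by gcongr
  have hb : 0 ≤ z1 α / x j := ha.trans hab
  have hint := ml_prod_integrable h hx hij hi hj
  have hy1 : x i < 1 := by
    have := sum_split x hij
    rw [h1] at this
    have h2 : 0 ≤ ∑ k ∈ (Finset.univ.erase i).erase j, x k := Finset.sum_nonneg fun k _ => hx k
    linarith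
  have hxle : ∀ k, x k ≤ x i := fun k => by
    by_cases hk : k = i
    · rw [hk]
    · exact (hz k hk).trans hji
  have s1 : J α x = (∫ s in (0 : ℝ)..(z1 α / x i), ∏ k, Phi α (x k * s)) +
      ((∫ s in Ioc (z1 α / x i) (z1 α / x j), ∏ k, Phi α (x k * s)) +
        ∫ s in Ioi (z1 α / x j), ∏ k, Phi α (x k * s)) := by
    rw [intervalIntegral.integral_of_le ha, ← setIntegral_union (Ioc_disjoint_Ioi le_rfl)
      measurableSet_Ioi ((hint.mono_set (Ioi_subset_Ioi ha)).mono_set Ioc_subset_Ioi_self)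
      (hint.mono_set (Ioi_subset_Ioi hb)), Ioc_union_Ioi_eq_Ioi hab,
      ← setIntegral_union (Ioc_disjoint_Ioi le_rfl) measurableSet_Ioi
      (hint.mono_set Ioc_subset_Ioi_self) (hint.mono_set (Ioi_subset_Ioi ha)),
      Ioc_union_Ioi_eq_Ioi ha]
    rfl
  -- the middle part
  have hrest0 : ∀ s ∈ Ioc (z1 α / x i) (z1 α / x j), 0 ≤ ∏ k ∈ Finset.univ.erase i,
      Phi α (x k * s) := by
    intro s hs
    have hs0 : 0 ≤ s := ha.trans hs.1.le
    refine Finset.prod_nonneg fun k hk => h.nonneg (mul_nonneg (hx k) hs0) ?_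
    have h2 := hz k (Finset.ne_of_mem_erase hk)
    calc x k * s ≤ x j * s := by gcongr
      _ ≤ x j * (z1 α / x j) := by gcongr; exact hs.2
      _ = z1 α := by field_simp
  have hrest1 : ∀ s ∈ Ioc (z1 α / x i) (z1 α / x j), ∏ k ∈ Finset.univ.erase i,
      Phi α (x k * s) ≤ exp (-((1 - x i) * s)) := by
    intro s hs
    have hs0 : 0 ≤ s := ha.trans hs.1.le
    have e : -((1 - x i) * s) = ∑ k ∈ Finset.univ.erase i, -(x k * s) := by
      rw [Finset.sum_neg_distrib, ← Finset.sum_mul]
      have := Finset.add_sum_erase Finset.univ x (Finset.mem_univ i)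
      rw [h1] at this
      rw [← this]; ring
    rw [e, exp_sum]
    refine Finset.prod_le_prod (fun k hk => h.nonneg (mul_nonneg (hx k) hs0) ?_) fun k hk =>
      h.le_exp (mul_nonneg (hx k) hs0) ?_
    all_goals
      have h2 := hz k (Finset.ne_of_mem_erase hk)
      calc x k * s ≤ x j * s := by gcongr
        _ ≤ x j * (z1 α / x j) := by gcongr; exact hs.2
        _ = z1 α := by field_simp
  have hprod : ∀ s, ∏ k, Phi α (x k * s) = Phi α (x i * s) * ∏ k ∈ Finset.univ.erase i,
      Phi α (x k * s) := fun s =>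
    (Finset.mul_prod_erase Finset.univ (fun k => Phi α (x k * s)) (Finset.mem_univ i)).symm
  have hlo : ∀ s ∈ Ioc (z1 α / x i) (z1 α / x j), s ≤ 6 / x i → ∏ k, Phi α (x k * s) ≤ 0 := by
    intro s hs hs6
    rw [hprod]
    refine mul_nonpos_of_nonpos_of_nonneg (h.neg _ ?_ ?_) (hrest0 s hs)
    · have := hs.1.le
      rw [div_le_iff₀ hi] at this
      linarith
    · rw [le_div_iff₀ hi] at hs6
      linarith
  have s3 : ∫ s in Ioc (z1 α / x i) (z1 α / x j), ∏ k, Phi α (x k * s) ≤ X := by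
    obtain ⟨hX0, hcase | ⟨hXp, hXX⟩⟩ := hX
    · refine le_trans (setIntegral_nonpos measurableSet_Ioc fun s hs => hlo s hs (hs.2.trans ?_)) hX0
      rw [div_le_div_iff₀ hj hi]; exact hcase
    · have h1y : 0 < 1 - x i := by linarith
      have h6 : 0 ≤ 6 / x i := by positivity
      have hE := exp_tail_integral (a := 6 / x i) (show 0 < 2 * (1 - x i) by linarith)
      have hsq := sq_scale_integrable h.one_lt hi h6
      have hsqv := sq_scale α hi (6 / x i)
      have e6 : x i * (6 / x i) = 6 := by field_simp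
      rw [e6] at hsqv
      obtain ⟨lam, hl, hlam⟩ := exists_lam (A := T2 α 6 / x i)
        (B := exp (-(2 * (1 - x i) * (6 / x i))) / (2 * (1 - x i)))
        (div_nonneg (T2_nonneg α 6) hi.le) (by positivity) hXp hXX
      set G : ℝ → ℝ := (Ioi (6 / x i)).indicator (fun s => (lam * Phi α (x i * s) ^ 2 +
        exp (-(2 * (1 - x i) * s)) / lam) / 2) with hG
      have hGi : IntegrableOn (fun s => (lam * Phi α (x i * s) ^ 2 +
        exp (-(2 * (1 - x i) * s)) / lam) / 2) (Ioi (6 / x i)) :=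
        ((hsq.const_mul lam).add (hE.1.div_const lam)).div_const 2
      have hGint : Integrable G := by
        rw [hG, integrable_indicator_iff measurableSet_Ioi]
        exact hGi
      have hG0 : ∀ s, 0 ≤ G s := fun s => indicator_nonneg (fun s _ => by positivity) s
      calc ∫ s in Ioc (z1 α / x i) (z1 α / x j), ∏ k, Phi α (x k * s) ≤
            ∫ s in Ioc (z1 α / x i) (z1 α / x j), G s := by
            refine setIntegral_mono_on ((hint.mono_set (Ioi_subset_Ioi ha)).mono_set
              Ioc_subset_Ioi_self) hGint.integrableOn measurableSet_Ioc fun s hs => ?_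
            by_cases hs6 : s ≤ 6 / x i
            · exact (hlo s hs hs6).trans (hG0 s)
            · rw [hG, indicator_of_mem (by simpa using hs6), hprod]
              have hr0 := hrest0 s hs
              have hr1 := hrest1 s hs
              set p := Phi α (x i * s)
              set r := ∏ k ∈ Finset.univ.erase i, Phi α (x k * s)
              have e2 : exp (-(2 * (1 - x i) * s)) = exp (-((1 - x i) * s)) ^ 2 := by
                rw [← exp_nat_mul]; congr 1; push_cast; ring
              rw [e2]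
              set E := exp (-((1 - x i) * s))
              have hE0 : 0 ≤ E := (exp_pos _).le
              have q1 : p * r ≤ |p| * E :=
                (mul_le_mul_of_nonneg_right (le_abs_self p) hr0).trans
                  (mul_le_mul_of_nonneg_left hr1 (abs_nonneg p))
              refine q1.trans ?_
              rw [← sq_abs p]
              have q2 : 0 ≤ (lam * |p| - E) ^ 2 / lam := by positivity
              have q3 : (lam * |p| ^ 2 + E ^ 2 / lam) / 2 - |p| * E =
                (lam * |p| - E) ^ 2 / lam / 2 := by field_simp; ring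
              linarith
        _ ≤ ∫ s, G s := setIntegral_le_integral hGint (Filter.Eventually.of_forall hG0)
        _ = ∫ s in Ioi (6 / x i), (lam * Phi α (x i * s) ^ 2 +
              exp (-(2 * (1 - x i) * s)) / lam) / 2 := by
            rw [hG, integral_indicator measurableSet_Ioi]
        _ = (lam * (T2 α 6 / x i) +
              exp (-(2 * (1 - x i) * (6 / x i))) / (2 * (1 - x i)) / lam) / 2 := by
            rw [integral_div, integral_add (hsq.const_mul lam) (hE.1.div_const lam),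
              integral_const_mul, integral_div, hE.2, hsqv]
        _ ≤ X := hlam
  rw [s1]
  linarith

/-- the tail with absolute values -/
theorem tail_le_abs (h : Lobe α) {n : ℕ} {x : Fin n → ℝ} (hx : ∀ k, 0 ≤ x k)
    {i j : Fin n} (hij : i ≠ j) (hi : 0 < x i) (hj : 0 < x j) {b : ℝ} (hb : 0 ≤ b) :
    ∫ s in Ioi b, ∏ k, Phi α (x k * s) ≤ ∫ s in Ioi b, ∏ k, |Phi α (x k * s)| := by
  refine setIntegral_mono_on ((ml_prod_integrable h hx hij hi hj).mono_set (Ioi_subset_Ioi hb))
    ((ml_abs_integrable h hx hij hi hj).mono_set (Ioi_subset_Ioi hb)) measurableSet_Ioi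
    fun s _ => ?_
  rw [← Finset.abs_prod]
  exact le_abs_self _

/-- Cauchy-Schwarz for the part of the tail where the product may be positive -/
theorem ml_tail_set (h : Lobe α) {n : ℕ} {x : Fin n → ℝ} (hx : ∀ k, 0 ≤ x k) {i j : Fin n}
    (hij : i ≠ j) (hi : 0 < x i) (hj : 0 < x j) {b A B X : ℝ} (hb : 0 ≤ b) {S : Set ℝ}
    (hS : MeasurableSet S) (hSb : S ⊆ Ioi b)
    (hneg : ∀ s ∈ Ioi b, s ∉ S → ∏ k, Phi α (x k * s) ≤ 0)
    (hA : ∫ s in S, Phi α (x i * s) ^ 2 * restW α x i j s ≤ A)
    (hB : ∫ s in S, Phi α (x j * s) ^ 2 * restW α x i j s ≤ B)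
    (hX : 0 < X) (hAB : A * B ≤ X ^ 2) :
    ∫ s in Ioi b, ∏ k, Phi α (x k * s) ≤ X := by
  obtain ⟨i1', -⟩ := step_two h.one_lt hi hb le_rfl ((restW_anti (α := α) hx i j).antitoneOn _)
      (fun s => (restW_pos x i j s).le) (restW_cont x i j).measurable
  obtain ⟨i2', -⟩ := step_two h.one_lt hj hb le_rfl ((restW_anti (α := α) hx i j).antitoneOn _)
      (fun s => (restW_pos x i j s).le) (restW_cont x i j).measurable
  have i1 := i1'.mono_set hSb
  have i2 := i2'.mono_set hSb
  have hA0 : 0 ≤ A := le_trans (setIntegral_nonneg hS fun s _ =>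
    mul_nonneg (sq_nonneg _) (restW_pos x i j s).le) hA
  have hB0 : 0 ≤ B := le_trans (setIntegral_nonneg hS fun s _ =>
    mul_nonneg (sq_nonneg _) (restW_pos x i j s).le) hB
  obtain ⟨lam, hl, hlam⟩ := exists_lam hA0 hB0 hX hAB
  have hint := (ml_prod_integrable h hx hij hi hj).mono_set (Ioi_subset_Ioi hb)
  have hd : S ∪ (Ioi b \ S) = Ioi b := union_diff_cancel hSb
  calc ∫ s in Ioi b, ∏ k, Phi α (x k * s) = (∫ s in S, ∏ k, Phi α (x k * s)) +
        ∫ s in Ioi b \ S, ∏ k, Phi α (x k * s) := by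
        rw [← setIntegral_union disjoint_sdiff_right (measurableSet_Ioi.diff hS)
          (hint.mono_set hSb) (hint.mono_set diff_subset), hd]
    _ ≤ ∫ s in S, ∏ k, Phi α (x k * s) := by
        have h5 : ∫ s in Ioi b \ S, ∏ k, Phi α (x k * s) ≤ 0 :=
          setIntegral_nonpos (measurableSet_Ioi.diff hS) fun s hs => hneg s hs.1 hs.2
        linarith
    _ ≤ ∫ s in S, (lam * (Phi α (x i * s) ^ 2 * restW α x i j s) +
      Phi α (x j * s) ^ 2 * restW α x i j s / lam) / 2 := by
        refine setIntegral_mono_on (hint.mono_set hSb)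
          (((i1.const_mul lam).add (i2.div_const lam)).div_const 2) hS fun s hs => ?_
        refine le_trans ?_ (abs_prod_le h hx hij hl (hb.trans (le_of_lt (hSb hs))))
        rw [← Finset.abs_prod]
        exact le_abs_self _
    _ = (lam * (∫ s in S, Phi α (x i * s) ^ 2 * restW α x i j s) +
      (∫ s in S, Phi α (x j * s) ^ 2 * restW α x i j s) / lam) / 2 := by
        rw [integral_div, integral_add (i1.const_mul lam) (i2.div_const lam), integral_const_mul,
          integral_div]
    _ ≤ (lam * A + B / lam) / 2 := by gcongr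
    _ ≤ X := hlam

end LpSec.ML
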