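import Mathlib
import Pool.Agent.Lib.MP_1dbab3_gt.W.M1

/-!
# Master lemma for `J`, part 2: the weight of the rest and the tail in arbitrarily many steps
-/

open Real MeasureTheory Set Filter Topology

namespace LpSec.ML

variable {α : ℝ}

theorem min_sum_gen {ι : Type*} {t : ℝ} (ht : 0 ≤ t) (S : Finset ι) (a : ι → ℝ)
    (h0 : ∀ i ∈ S, 0 ≤ a i) (h1 : ∀ i ∈ S, a i ≤ 1) (m : ℕ) {r : ℝ} (hr0 : 0 ≤ r) (hr1 : r ≤ 1)
    (hs : (m : ℝ) + r ≤ ∑ i ∈ S, a i) :
    (m : ℝ) * min t 1 + min (t * r) 1 ≤ ∑ i ∈ S, min (t * a i) 1 := by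
  rcases le_total t 1 with h | h
  · have e : ∑ i ∈ S, min (t * a i) 1 = t * ∑ i ∈ S, a i := by
      rw [Finset.mul_sum]
      refine Finset.sum_congr rfl fun i hi => min_eq_left ?_
      have := h1 i hi
      have := h0 i hi
      nlinarith
    rw [e, min_eq_left h]
    have h2 : min (t * r) 1 ≤ t * r := min_le_left _ _
    have h3 : t * ((m : ℝ) + r) ≤ t * ∑ i ∈ S, a i := mul_le_mul_of_nonneg_left hs ht
    linarith
  · rw [min_eq_right h, mul_one]
    exact min_sum h S a h0 h1 m hr0 hr1 hs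

/-- exponent of the rest at `s = θ z1`: `m` coordinates equal to the cap `w` and one equal to `r` -/
noncomputable def ex (m : ℕ) (w r θ : ℝ) : ℝ := (m : ℝ) * min (θ * w) 1 + min (θ * r) 1

theorem restW_theta (h : Lobe α) {n : ℕ} {x : Fin n → ℝ} (hx : ∀ k, 0 ≤ x k) {i j : Fin n}
    {w : ℝ} (hw : 0 < w) (hcap : ∀ k ∈ (Finset.univ.erase i).erase j, x k ≤ w) (m : ℕ) {r : ℝ}
    (hr0 : 0 ≤ r) (hr1 : r ≤ w)
    (hmr : (m : ℝ) * w + r ≤ ∑ k ∈ (Finset.univ.erase i).erase j, x k)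
    {θ s : ℝ} (hθ : 0 ≤ θ) (hs : θ * z1 α ≤ s) :
    restW α x i j s ≤ exp (-(cc α * ex m w r θ)) := by
  have hc := cc_pos h
  refine (restW_anti hx i j (show θ * cc α ≤ s from
    (mul_le_mul_of_nonneg_left (cc_le α) hθ).trans hs)).trans ?_
  unfold restW ex
  refine exp_le_exp.2 (neg_le_neg ?_)
  have h1 : ∀ k, min (x k * (θ * cc α)) (cc α) = cc α * min (θ * w * (x k / w)) 1 := by
    intro k
    rw [mul_min_of_nonneg _ _ hc.le, mul_one]
    congr 1
    field_simp
  simp only [h1]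
  rw [← Finset.mul_sum]
  refine mul_le_mul_of_nonneg_left ?_ hc.le
  have h2 := min_sum_gen (t := θ * w) (by positivity) ((Finset.univ.erase i).erase j)
    (fun k => x k / w) (fun k _ => div_nonneg (hx k) hw.le)
    (fun k hk => by rw [div_le_one hw]; exact hcap k hk) m (r := r / w) (by positivity)
    (by rw [div_le_one hw]; exact hr1)
    (by rw [← Finset.sum_div, le_div_iff₀ hw, add_mul, div_mul_cancel₀ _ hw.ne']; exact hmr)
  have e : θ * w * (r / w) = θ * r := by field_simp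
  rwa [e] at h2

/-- all coordinates of the rest are at most `z`: total exponent `σ / z` beyond `z1 / z` -/
theorem restW_lin (h : Lobe α) {n : ℕ} {x : Fin n → ℝ} (hx : ∀ k, 0 ≤ x k) {i j : Fin n}
    (hz : ∀ k, k ≠ i → x k ≤ x j) (hj : 0 < x j) {s : ℝ} (hs : z1 α / x j ≤ s) :
    restW α x i j s ≤
      exp (-(cc α * (∑ k ∈ (Finset.univ.erase i).erase j, x k) / x j)) := by
  have hc := cc_pos h
  refine (restW_anti hx i j (show cc α / x j ≤ s from
    (div_le_div_of_nonneg_right (cc_le α) hj.le).trans hs)).trans ?_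
  unfold restW
  refine exp_le_exp.2 (neg_le_neg (le_of_eq ?_))
  rw [Finset.mul_sum, Finset.sum_div]
  refine Finset.sum_congr rfl fun k hk => ?_
  have h1 := hz k (Finset.ne_of_mem_erase (Finset.mem_of_mem_erase hk))
  rw [min_eq_left]
  · ring
  · rw [mul_div_assoc', div_le_iff₀ hj]
    nlinarith

/-! ## steps -/

/-- numerical value of the correction by the later steps -/
def numR : ℝ → List (ℝ × ℝ × ℝ) → ℝ
  | _, [] => 0
  | R0, (_, R, L) :: l => (R0 - R) * L + numR R l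

/-- `(b, R, L)`: break point, bound of the weight there, lower bound of `T2` there -/
def StepOk (α v : ℝ) (W : ℝ → ℝ) : ℝ → ℝ → List (ℝ × ℝ × ℝ) → Prop
  | a, R0, [] => W a ≤ R0
  | a, R0, (b, R, L) :: l => W a ≤ R0 ∧ a ≤ b ∧ R ≤ R0 ∧ L ≤ T2 α (v * b) ∧ StepOk α v W b R l

theorem steps (hα : 1 < α) {v : ℝ} (hv : 0 < v) {W : ℝ → ℝ} (hW : Antitone W)
    (hW0 : ∀ s, 0 ≤ W s) (hWc : Measurable W) : ∀ (l : List (ℝ × ℝ × ℝ)) (a R0 : ℝ), 0 ≤ a →
    StepOk α v W a R0 l →
    ∫ s in Ioi a, Phi α (v * s) ^ 2 * W s ≤ (R0 * T2 α (v * a) - numR R0 l) / v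
  | [], a, R0, ha, hl => by
    have := step_last hα hv ha hW hW0 hWc hl
    simpa [numR] using this
  | (b, R, L) :: l, a, R0, ha, hl => by
    obtain ⟨h1, h2, h3, h4, h5⟩ := hl
    have ih := steps hα hv hW hW0 hWc l b R (ha.trans h2) h5
    refine (step_cons hα hv ha h2 hW hW0 hWc h1 ih).trans ?_
    refine div_le_div_of_nonneg_right ?_ hv.le
    have h6 : (R0 - R) * L ≤ (R0 - R) * T2 α (v * b) :=
      mul_le_mul_of_nonneg_left h4 (by linarith)
    simp only [numR]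
    linarith

/-- the part of scale `v` beyond `b`, started at `a ≤ b` -/
theorem part_steps (hα : 1 < α) {v a b R0 H : ℝ} (hv : 0 < v) (ha : 0 ≤ a) (hab : a ≤ b)
    {W : ℝ → ℝ} (hW : Antitone W) (hW0 : ∀ s, 0 ≤ W s) (hWc : Measurable W)
    (l : List (ℝ × ℝ × ℝ)) (hH : T2 α (v * a) ≤ H) (hR0 : 0 ≤ R0)
    (hl : StepOk α v (fun s => W (max s b)) a R0 l) :
    ∫ s in Ioi b, Phi α (v * s) ^ 2 * W s ≤ (R0 * H - numR R0 l) / v := by
  have hW' : Antitone (fun s => W (max s b)) := fun s t hst => hW (max_le_max_right b hst)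
  have hc' : Measurable (fun s => W (max s b)) := hWc.comp (measurable_id.max measurable_const)
  have hint := (step_two (w := v) hα hv ha le_rfl (hW'.antitoneOn _) (fun s => hW0 _) hc').1
  have h1 : ∫ s in Ioi b, Phi α (v * s) ^ 2 * W s =
      ∫ s in Ioi b, Phi α (v * s) ^ 2 * W (max s b) := by
    refine setIntegral_congr_fun measurableSet_Ioi fun s hs => ?_
    rw [max_eq_left (le_of_lt hs)]
  rw [h1]
  calc ∫ s in Ioi b, Phi α (v * s) ^ 2 * W (max s b)
      ≤ ∫ s in Ioi a, Phi α (v * s) ^ 2 * W (max s b) := by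
        refine setIntegral_mono_set hint ?_ (Ioi_subset_Ioi hab).eventuallyLE
        exact Filter.Eventually.of_forall fun s => mul_nonneg (sq_nonneg _) (hW0 _)
    _ ≤ (R0 * T2 α (v * a) - numR R0 l) / v := steps hα hv hW' (fun s => hW0 _) hc' l a R0 ha hl
    _ ≤ _ := by
        refine div_le_div_of_nonneg_right ?_ hv.le
        have := mul_le_mul_of_nonneg_left hH hR0
        linarith

end LpSec.ML
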