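import Mathlib
import Pool.Agent.Lib.MP_1dbab3_gt.W.M2

/-!
# Master lemma for `J`, part 3: the main part against the flat point
-/

open Real MeasureTheory Set Filter Topology

namespace LpSec.ML

variable {α : ℝ}

/-- log-concavity of the main lobe with a modulus of order four -/
def Conc4 (α : ℝ) : Prop := ConcaveOn ℝ (Ico 0 (z1 α))
  (fun s => log (Phi α s) + k0 α * s ^ 2 / 2 + k1 α * s ^ 3 / 6 + k0 α ^ 2 * s ^ 4 / 8)

theorem prod_cont_Icc (hα : 1 < α) {n : ℕ} {x : Fin n → ℝ} (hx : ∀ i, 0 ≤ x i) {a b : ℝ}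
    (ha : 0 ≤ a) (hab : a ≤ b) :
    IntervalIntegrable (fun s => ∏ i, Phi α (x i * s)) volume a b :=
  ((prod_continuousOn hα hx).mono fun s hs => by
    rw [uIcc_of_le hab] at hs; exact ha.trans hs.1).intervalIntegrable

theorem Phi_scale_cont (hα : 1 < α) {c : ℝ} (hc : 0 ≤ c) :
    ContinuousOn (fun s => Phi α (c * s)) (Ici 0) :=
  (Phi_continuousOn hα).comp (continuousOn_const.mul continuousOn_id)
    fun _ hs => mul_nonneg hc hs

/-- interval integrals are compared on the open interval -/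
theorem interval_mono {f g : ℝ → ℝ} {b : ℝ} (hb : 0 ≤ b) (hf : IntervalIntegrable f volume 0 b)
    (hg : IntervalIntegrable g volume 0 b) (hfg : ∀ s, 0 ≤ s → s < b → f s ≤ g s) :
    ∫ s in (0 : ℝ)..b, f s ≤ ∫ s in (0 : ℝ)..b, g s := by
  refine intervalIntegral.integral_mono_on_of_le_Ioo hb hf hg fun s hs => hfg s hs.1.le hs.2

theorem sum_pow_ge {ι : Type*} (S : Finset ι) (hS : S.Nonempty) (t : ι → ℝ)
    (h0 : ∀ i ∈ S, 0 ≤ t i) {T : ℝ} (hT : ∑ i ∈ S, t i = S.card * T) (k : ℕ) :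
    S.card * T ^ (k + 1) ≤ ∑ i ∈ S, t i ^ (k + 1) := by
  have hm : (0 : ℝ) < S.card := by exact_mod_cast hS.card_pos
  have h := pow_sum_div_card_le_sum_pow h0 k
  rw [hT] at h
  refine le_trans (le_of_eq ?_) h
  rw [mul_pow]
  field_simp
  ring

/-- Jensen's inequality on the main lobe with the quartic modulus -/
theorem prod_le4 {ι : Type*} (h : Lobe α) (h4 : Conc4 α) (S : Finset ι) (hS : S.Nonempty)
    (t : ι → ℝ) (h0 : ∀ i ∈ S, 0 ≤ t i) (h1 : ∀ i ∈ S, t i < z1 α) {T : ℝ}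
    (hT : ∑ i ∈ S, t i = S.card * T) :
    ∏ i ∈ S, Phi α (t i) ≤ Phi α T ^ S.card *
      exp (-(k0 α * (∑ i ∈ S, t i ^ 2 - S.card * T ^ 2) / 2 +
        k1 α * (∑ i ∈ S, t i ^ 3 - S.card * T ^ 3) / 6 +
        k0 α ^ 2 * (∑ i ∈ S, t i ^ 4 - S.card * T ^ 4) / 8)) := by
  have hm : (0 : ℝ) < S.card := by exact_mod_cast hS.card_pos
  have hTm : ∑ i ∈ S, (1 / (S.card : ℝ)) • t i = T := by
    rw [← Finset.smul_sum, hT, smul_eq_mul]; field_simp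
  have hT0 : 0 ≤ T := by
    have : 0 ≤ ∑ i ∈ S, t i := Finset.sum_nonneg h0
    rw [hT] at this
    exact (mul_nonneg_iff_of_pos_left hm).1 this
  have hT1 : T < z1 α := by
    have : ∑ i ∈ S, t i < ∑ _i ∈ S, z1 α := Finset.sum_lt_sum_of_nonempty hS h1
    rw [hT, Finset.sum_const, nsmul_eq_mul] at this
    exact lt_of_mul_lt_mul_left this hm.le
  have hj := h4.le_map_sum (t := S) (w := fun _ => 1 / (S.card : ℝ)) (p := t)
    (fun i _ => by positivity) (by rw [Finset.sum_const, nsmul_eq_mul]; field_simp)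
    (fun i hi => ⟨h0 i hi, h1 i hi⟩)
  rw [hTm] at hj
  have hj2 : ∑ i ∈ S, (log (Phi α (t i)) + k0 α * t i ^ 2 / 2 + k1 α * t i ^ 3 / 6 +
      k0 α ^ 2 * t i ^ 4 / 8) ≤
      S.card * (log (Phi α T) + k0 α * T ^ 2 / 2 + k1 α * T ^ 3 / 6 + k0 α ^ 2 * T ^ 4 / 8) := by
    rw [← Finset.smul_sum, smul_eq_mul, one_div, inv_mul_le_iff₀ hm] at hj
    exact hj
  rw [Finset.sum_add_distrib, Finset.sum_add_distrib, Finset.sum_add_distrib, ← Finset.sum_div,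
    ← Finset.sum_div, ← Finset.sum_div, ← Finset.mul_sum, ← Finset.mul_sum,
    ← Finset.mul_sum] at hj2
  have hP : 0 < ∏ i ∈ S, Phi α (t i) := Finset.prod_pos fun i hi => h.pos _ (h0 i hi) (h1 i hi)
  have hlog : log (∏ i ∈ S, Phi α (t i)) = ∑ i ∈ S, log (Phi α (t i)) :=
    log_prod (fun i hi => (h.pos _ (h0 i hi) (h1 i hi)).ne')
  have hPT : 0 < Phi α T := h.pos T hT0 hT1
  rw [← log_le_log_iff hP (by positivity), hlog, log_mul (by positivity) (by positivity), log_pow,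
    log_exp]
  linarith

/-- `Phi (s / n) ^ n` increases with `n` on the main lobe -/
theorem pow_mono (h : Lobe α) {n0 n : ℕ} (hn0 : 1 ≤ n0) (hn : n0 ≤ n) {s : ℝ} (hs0 : 0 ≤ s)
    (hs : s ≤ n0 * z1 α) : Phi α (s / n0) ^ n0 ≤ Phi α (s / n) ^ n := by
  have hc := h.z1_pos
  have p0 : (0 : ℝ) < n0 := by exact_mod_cast hn0
  have p1 : (0 : ℝ) < n := by exact_mod_cast (by omega : 0 < n)
  have hle : (n0 : ℝ) ≤ n := by exact_mod_cast hn
  have hsn : s / n ≤ z1 α := by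
    rw [div_le_iff₀ p1]
    calc s ≤ n0 * z1 α := hs
      _ ≤ n * z1 α := by gcongr
      _ = z1 α * n := by ring
  have hnn := h.nonneg (div_nonneg hs0 p1.le) hsn
  rcases eq_or_lt_of_le hs with rfl | hlt
  · rw [mul_div_cancel_left₀ _ p0.ne', h.zero, zero_pow (by omega)]
    exact pow_nonneg hnn n
  set T := s / n0 with hT
  have hT0 : 0 ≤ T := by positivity
  have hT1 : T < z1 α := by rw [hT, div_lt_iff₀ p0]; linarith
  set θ : ℝ := n0 / n with hθ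
  have hθ0 : 0 < θ := by positivity
  have hθ1 : θ ≤ 1 := by rw [hθ, div_le_one p1]; exact hle
  have hc2 := h.conc.2 (show (0 : ℝ) ∈ Ico 0 (z1 α) from ⟨le_rfl, hc⟩)
    (show T ∈ Ico 0 (z1 α) from ⟨hT0, hT1⟩) (show 0 ≤ 1 - θ by linarith) hθ0.le (by ring)
  have e1 : (1 - θ) • (0 : ℝ) + θ • T = s / n := by
    simp only [smul_eq_mul, hθ, hT]; field_simp; ring
  rw [e1] at hc2
  have g0 : log (Phi α 0) + k0 α * 0 ^ 2 / 2 + k1 α * 0 ^ 3 / 6 = 0 := by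
    simp [Phi_zero h.one_lt]
  simp only [g0, smul_eq_mul, mul_zero, zero_add] at hc2
  have hsT : s / n = θ * T := by rw [hθ, hT]; field_simp
  have hlog : θ * log (Phi α T) ≤ log (Phi α (s / n)) := by
    rw [hsT] at hc2 ⊢
    have q1 : 0 ≤ k0 α * T ^ 2 * (θ * (1 - θ)) := by
      have := h.k0_nonneg
      have : 0 ≤ 1 - θ := by linarith
      positivity
    have q2 : 0 ≤ k1 α * T ^ 3 * (θ * (1 - θ) * (1 + θ)) := by
      have := h.k1_nonneg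
      have : 0 ≤ 1 - θ := by linarith
      positivity
    nlinarith
  have hp0 : 0 < Phi α T := h.pos T hT0 hT1
  have hsn' : s / n < z1 α := by
    rw [hsT]; nlinarith
  have hp1 : 0 < Phi α (s / n) := h.pos _ (by positivity) hsn'
  rw [← log_le_log_iff (by positivity) (by positivity), log_pow, log_pow]
  have h2 := mul_le_mul_of_nonneg_left hlog p1.le
  have e2 : (n : ℝ) * (θ * log (Phi α T)) = n0 * log (Phi α T) := by
    rw [hθ]; field_simp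
  linarith

/-- the exponent of the comparison with the flat point -/
noncomputable def Xf (κ0 κ1 V2 V3 V4 s : ℝ) : ℝ :=
  κ0 * V2 * s ^ 2 / 2 + κ1 * V3 * s ^ 3 / 6 + κ0 ^ 2 * V4 * s ^ 4 / 8

theorem Xf_nonneg {κ0 κ1 V2 V3 V4 s : ℝ} (h0 : 0 ≤ κ0) (h1 : 0 ≤ κ1) (h2 : 0 ≤ V2)
    (h3 : 0 ≤ V3) (h4 : 0 ≤ V4) (hs : 0 ≤ s) : 0 ≤ Xf κ0 κ1 V2 V3 V4 s := by
  unfold Xf; positivity

theorem Xf_cont (κ0 κ1 V2 V3 V4 : ℝ) : Continuous (Xf κ0 κ1 V2 V3 V4) := by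
  unfold Xf; fun_prop

theorem P_cont (hα : 1 < α) (n : ℕ) : ContinuousOn (fun s : ℝ => Phi α (s / n) ^ n) (Ici 0) := by
  refine ContinuousOn.pow ?_ n
  refine (Phi_scale_cont hα (c := 1 / n) (by positivity)).congr fun s _ => ?_
  simp only
  congr 1; ring

theorem prod_flat (h : Lobe α) (h4 : Conc4 α) {n : ℕ} (hn : 0 < n) {x : Fin n → ℝ}
    (hx : ∀ k, 0 ≤ x k) (h1 : ∑ k, x k = 1) {κ0 κ1 V2 V3 V4 : ℝ}
    (hκ0 : 0 ≤ κ0) (hκ0' : κ0 ≤ k0 α) (hκ1 : κ1 ≤ k1 α)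
    (hV2 : V2 ≤ ∑ k, x k ^ 2 - 1 / n) (hV3 : V3 ≤ ∑ k, x k ^ 3 - 1 / n ^ 2)
    (hV4 : V4 ≤ ∑ k, x k ^ 4 - 1 / n ^ 3) (hV20 : 0 ≤ V2) (hV30 : 0 ≤ V3) (hV40 : 0 ≤ V4)
    {s : ℝ} (hs0 : 0 ≤ s) (hs : ∀ k, x k * s < z1 α) :
    ∏ k, Phi α (x k * s) ≤ Phi α (s / n) ^ n * exp (-Xf κ0 κ1 V2 V3 V4 s) := by
  have hn0 : (0 : ℝ) < n := by exact_mod_cast hn
  have hne : (Finset.univ : Finset (Fin n)).Nonempty := ⟨⟨0, hn⟩, Finset.mem_univ _⟩
  have hT : ∑ k, x k * s = ((Finset.univ : Finset (Fin n)).card : ℝ) * (s / n) := by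
    rw [← Finset.sum_mul, h1, Finset.card_univ, Fintype.card_fin]; field_simp
  have hj := prod_le4 h h4 Finset.univ hne (fun k => x k * s) (fun k _ => mul_nonneg (hx k) hs0)
    (fun k _ => hs k) hT
  rw [Finset.card_univ, Fintype.card_fin] at hj
  have hTz : s / n ≤ z1 α := by
    have h2 : ∑ k, x k * s ≤ ∑ _k : Fin n, z1 α := Finset.sum_le_sum fun k _ => (hs k).le
    rw [hT, Finset.sum_const, nsmul_eq_mul, Finset.card_univ, Fintype.card_fin] at h2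
    exact le_of_mul_le_mul_left h2 hn0
  refine hj.trans (mul_le_mul_of_nonneg_left (exp_le_exp.2 (neg_le_neg ?_))
    (pow_nonneg (h.nonneg (by positivity) hTz) n))
  simp only [mul_pow, ← Finset.sum_mul]
  have e2 : (n : ℝ) * (s / n) ^ 2 = 1 / n * s ^ 2 := by field_simp
  have e3 : (n : ℝ) * (s / n) ^ 3 = 1 / n ^ 2 * s ^ 3 := by field_simp
  have e4 : (n : ℝ) * (s / n) ^ 4 = 1 / n ^ 3 * s ^ 4 := by field_simp
  rw [e2, e3, e4, ← sub_mul, ← sub_mul, ← sub_mul]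
  unfold Xf
  have hk0 := h.k0_nonneg
  have hk1 := h.k1_nonneg
  have a2 : κ0 * V2 ≤ k0 α * (∑ k, x k ^ 2 - 1 / n) :=
    mul_le_mul hκ0' hV2 hV20 hk0
  have a3 : κ1 * V3 ≤ k1 α * (∑ k, x k ^ 3 - 1 / n ^ 2) :=
    mul_le_mul hκ1 hV3 hV30 hk1
  have a4 : κ0 ^ 2 * V4 ≤ k0 α ^ 2 * (∑ k, x k ^ 4 - 1 / n ^ 3) :=
    mul_le_mul (pow_le_pow_left₀ hκ0 hκ0' 2) hV4 hV40 (sq_nonneg _)
  have b2 := mul_le_mul_of_nonneg_right a2 (sq_nonneg s)
  have b3 := mul_le_mul_of_nonneg_right a3 (pow_nonneg hs0 3)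
  have b4 := mul_le_mul_of_nonneg_right a4 (pow_nonneg hs0 4)
  linarith

end LpSec.ML
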