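import Mathlib
import Pool.Agent.Lib.MP_1dbab3_gt.W.M3

/-!
# Master lemma for `J`, part 4: the gain against the flat point in terms of moments
-/

open Real MeasureTheory Set Filter Topology

namespace LpSec.ML

variable {α : ℝ}

/-- moments of `Phi ^ n` over the main lobe -/
noncomputable def Im (α : ℝ) (n k : ℕ) : ℝ := ∫ t in (0 : ℝ)..(z1 α), t ^ k * Phi α t ^ n

/-- the end of the main lobe -/
noncomputable def Wm (α : ℝ) (n : ℕ) (t : ℝ) : ℝ := ∫ t in t..(z1 α), Phi α t ^ n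

theorem exp_neg_le_quad {p : ℝ} (hp : 0 ≤ p) : exp (-p) ≤ 1 - p + p ^ 2 / 2 := by
  have h := Real.quadratic_le_exp_of_nonneg hp
  have h1 : 0 < 1 + p + p ^ 2 / 2 := by positivity
  have h2 : exp (-p) ≤ 1 / (1 + p + p ^ 2 / 2) := by
    rw [exp_neg, ← one_div]
    exact one_div_le_one_div_of_le h1 h
  refine h2.trans ?_
  rw [div_le_iff₀ h1]
  nlinarith [sq_nonneg (p ^ 2)]

theorem one_sub_exp_ge {p : ℝ} (hp : 0 ≤ p) : p - p ^ 2 / 2 ≤ 1 - exp (-p) := by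
  have := exp_neg_le_quad hp
  linarith

theorem tk_cont (hα : 1 < α) (n k : ℕ) : ContinuousOn (fun t : ℝ => t ^ k * Phi α t ^ n) (Ici 0) :=
  ((continuous_pow k).continuousOn).mul ((Phi_continuousOn hα).pow n)

theorem ii_of {f : ℝ → ℝ} (hf : ContinuousOn f (Ici 0)) {a b : ℝ} (ha : 0 ≤ a) (hb : 0 ≤ b) :
    IntervalIntegrable f volume a b :=
  (hf.mono fun s hs => by
    have := (le_min ha hb).trans hs.1
    exact this).intervalIntegrable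

/-- **the gain**, unscaled -/
theorem main_gain (h : Lobe α) (h4 : Conc4 α) {n n0 : ℕ} (hn0 : 1 ≤ n0) (hn : n0 ≤ n)
    {x : Fin n → ℝ} (hx : ∀ k, 0 ≤ x k) (h1 : ∑ k, x k = 1) {y : ℝ} (hy : 0 < y)
    (hxy : ∀ k, x k ≤ y) (hy1 : 1 ≤ n0 * y) {κ0 κ1 V2 V3 V4 : ℝ}
    (hκ0 : 0 ≤ κ0) (hκ0' : κ0 ≤ k0 α) (hκ1 : 0 ≤ κ1) (hκ1' : κ1 ≤ k1 α)
    (hV2 : V2 ≤ ∑ k, x k ^ 2 - 1 / n) (hV3 : V3 ≤ ∑ k, x k ^ 3 - 1 / n ^ 2)
    (hV4 : V4 ≤ ∑ k, x k ^ 4 - 1 / n ^ 3) (hV20 : 0 ≤ V2) (hV30 : 0 ≤ V3) (hV40 : 0 ≤ V4) :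
    ∫ s in (0 : ℝ)..(z1 α / y), ∏ k, Phi α (x k * s) ≤
      (∫ s in (0 : ℝ)..(n * z1 α), Phi α (s / n) ^ n) -
      ((∫ s in (0 : ℝ)..(n0 * z1 α), Phi α (s / n0) ^ n0 *
        (Xf κ0 κ1 V2 V3 V4 s - Xf κ0 κ1 V2 V3 V4 s ^ 2 / 2)) +
        (∫ s in (z1 α / y)..(n0 * z1 α), Phi α (s / n0) ^ n0) / 2) := by
  have hc := h.z1_pos
  have hα := h.one_lt
  have p0 : (0 : ℝ) < n0 := by exact_mod_cast hn0
  have p1 : (0 : ℝ) < n := by exact_mod_cast (by omega : 0 < n)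
  have hle : (n0 : ℝ) ≤ n := by exact_mod_cast hn
  set S := z1 α / y with hS
  have hS0 : 0 ≤ S := by positivity
  have hS1 : S ≤ n0 * z1 α := by
    rw [hS, div_le_iff₀ hy]; nlinarith
  have hS2 : n0 * z1 α ≤ n * z1 α := by gcongr
  set X := Xf κ0 κ1 V2 V3 V4 with hX
  set P : ℝ → ℝ := fun s => Phi α (s / n) ^ n with hP
  set P0 : ℝ → ℝ := fun s => Phi α (s / n0) ^ n0 with hP0
  have hPc : ContinuousOn P (Ici 0) := P_cont hα n
  have hP0c : ContinuousOn P0 (Ici 0) := P_cont hα n0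
  have hXc : Continuous X := Xf_cont _ _ _ _ _
  have hgc : ContinuousOn (fun s => P0 s * (X s - X s ^ 2 / 2)) (Ici 0) :=
    hP0c.mul (by fun_prop)
  have hP00 : ∀ s, 0 ≤ s → s ≤ n0 * z1 α → 0 ≤ P0 s := fun s hs0 hs =>
    pow_nonneg (h.nonneg (by positivity) (by rw [div_le_iff₀ p0]; linarith)) n0
  have hPn0 : ∀ s, 0 ≤ s → s ≤ n * z1 α → 0 ≤ P s := fun s hs0 hs =>
    pow_nonneg (h.nonneg (by positivity) (by rw [div_le_iff₀ p1]; linarith)) n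
  -- the part before `S`
  have hA : ∫ s in (0 : ℝ)..S, ∏ k, Phi α (x k * s) ≤
      ∫ s in (0 : ℝ)..S, (P s - P0 s * (X s - X s ^ 2 / 2)) := by
    refine interval_mono hS0 (prod_cont_Icc hα hx le_rfl hS0)
      ((ii_of hPc le_rfl hS0).sub (ii_of hgc le_rfl hS0)) fun s hs0 hs => ?_
    rw [hS, lt_div_iff₀ hy] at hs
    have hlt : ∀ k, x k * s < z1 α := fun k => lt_of_le_of_lt (by nlinarith [hxy k]) hs
    refine (prod_flat h h4 (by omega) hx h1 hκ0 hκ0' hκ1' hV2 hV3 hV4 hV20 hV30 hV40 hs0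
      hlt).trans ?_
    have hsn0 : s ≤ n0 * z1 α := by
      have : s ≤ S := by rw [hS, le_div_iff₀ hy]; exact hs.le
      exact this.trans hS1
    have q1 := pow_mono h hn0 hn hs0 hsn0
    have q2 := hP00 s hs0 hsn0
    have q3 := Xf_nonneg hκ0 hκ1 hV20 hV30 hV40 hs0
    have q4 := one_sub_exp_ge q3
    have q5 : 0 ≤ 1 - exp (-Xf κ0 κ1 V2 V3 V4 s) := by
      have : exp (-Xf κ0 κ1 V2 V3 V4 s) ≤ 1 := exp_le_one_iff.2 (by linarith)
      linarith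
    simp only [hP, hP0, hX] at q2 ⊢
    have q6 := mul_le_mul_of_nonneg_right q1 q5
    have q7 := mul_le_mul_of_nonneg_left q4 q2
    nlinarith
  rw [intervalIntegral.integral_sub (ii_of hPc le_rfl hS0) (ii_of hgc le_rfl hS0)] at hA
  -- the part after `S`
  have e1 : ∫ s in (0 : ℝ)..(n * z1 α), P s = (∫ s in (0 : ℝ)..S, P s) +
      ((∫ s in S..(n0 * z1 α), P s) + ∫ s in (n0 * z1 α)..(n * z1 α), P s) := by
    rw [intervalIntegral.integral_add_adjacent_intervals (ii_of hPc hS0 (by positivity))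
      (ii_of hPc (by positivity) (by positivity)),
      intervalIntegral.integral_add_adjacent_intervals (ii_of hPc le_rfl hS0)
      (ii_of hPc hS0 (by positivity))]
  have e2 : ∫ s in (0 : ℝ)..(n0 * z1 α), P0 s * (X s - X s ^ 2 / 2) =
      (∫ s in (0 : ℝ)..S, P0 s * (X s - X s ^ 2 / 2)) +
        ∫ s in S..(n0 * z1 α), P0 s * (X s - X s ^ 2 / 2) :=
    (intervalIntegral.integral_add_adjacent_intervals (ii_of hgc le_rfl hS0)
      (ii_of hgc hS0 (by positivity))).symm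
  have g1 : 0 ≤ ∫ s in (n0 * z1 α)..(n * z1 α), P s :=
    intervalIntegral.integral_nonneg hS2 fun s hs => hPn0 s (le_trans (by positivity) hs.1) hs.2
  have g2 : (∫ s in S..(n0 * z1 α), P0 s * (X s - X s ^ 2 / 2)) +
      (∫ s in S..(n0 * z1 α), P0 s) / 2 ≤ ∫ s in S..(n0 * z1 α), P s := by
    have e3 : (∫ s in S..(n0 * z1 α), P0 s * (X s - X s ^ 2 / 2)) +
        (∫ s in S..(n0 * z1 α), P0 s) / 2 =
        ∫ s in S..(n0 * z1 α), (P0 s * (X s - X s ^ 2 / 2) + P0 s / 2) := by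
      rw [intervalIntegral.integral_add (ii_of hgc hS0 (by positivity))
        ((ii_of hP0c hS0 (by positivity)).div_const 2), intervalIntegral.integral_div]
    rw [e3]
    refine intervalIntegral.integral_mono_on hS1 ((ii_of hgc hS0 (by positivity)).add
      ((ii_of hP0c hS0 (by positivity)).div_const 2)) (ii_of hPc hS0 (by positivity))
      fun s hs => ?_
    have hs0 : 0 ≤ s := hS0.trans hs.1
    have q1 := pow_mono h hn0 hn hs0 hs.2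
    have q2 := hP00 s hs0 hs.2
    simp only [hP, hP0] at q2 ⊢
    have q3 : Phi α (s / n0) ^ n0 * (X s - X s ^ 2 / 2) + Phi α (s / n0) ^ n0 / 2 =
      Phi α (s / n0) ^ n0 - Phi α (s / n0) ^ n0 * (1 - X s) ^ 2 / 2 := by ring
    have q4 : 0 ≤ Phi α (s / n0) ^ n0 * (1 - X s) ^ 2 / 2 := by positivity
    linarith
  simp only [hP, hP0] at *
  linarith

theorem sum_Im (hα : 1 < α) (h0 : 0 ≤ z1 α) (n : ℕ) (c : ℕ → ℝ) (N : ℕ) :
    ∫ t in (0 : ℝ)..(z1 α), (∑ k ∈ Finset.range N, c k * (t ^ k * Phi α t ^ n)) =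
      ∑ k ∈ Finset.range N, c k * Im α n k := by
  rw [intervalIntegral.integral_finsetSum]
  · refine Finset.sum_congr rfl fun k _ => ?_
    rw [intervalIntegral.integral_const_mul]
    rfl
  · intro k _
    exact (ii_of (tk_cont hα n k) le_rfl h0).const_mul _

/-- the gain in moments -/
noncomputable def Gq (α : ℝ) (n : ℕ) (a b d : ℝ) : ℝ :=
  a * Im α n 2 + b * Im α n 3 + d * Im α n 4 - (a ^ 2 * Im α n 4 + 2 * a * b * Im α n 5 +
    (b ^ 2 + 2 * a * d) * Im α n 6 + 2 * b * d * Im α n 7 + d ^ 2 * Im α n 8) / 2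

theorem gain_moments (h : Lobe α) {n0 : ℕ} (hn0 : 1 ≤ n0) (κ0 κ1 V2 V3 V4 : ℝ) :
    ∫ s in (0 : ℝ)..(n0 * z1 α), Phi α (s / n0) ^ n0 *
        (Xf κ0 κ1 V2 V3 V4 s - Xf κ0 κ1 V2 V3 V4 s ^ 2 / 2) =
      n0 * Gq α n0 (κ0 * V2 * n0 ^ 2 / 2) (κ1 * V3 * n0 ^ 3 / 6) (κ0 ^ 2 * V4 * n0 ^ 4 / 8) := by
  have p0 : (0 : ℝ) < n0 := by exact_mod_cast hn0
  set a := κ0 * V2 * n0 ^ 2 / 2 with ha
  set b := κ1 * V3 * n0 ^ 3 / 6 with hb
  set d := κ0 ^ 2 * V4 * n0 ^ 4 / 8 with hd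
  set F : ℝ → ℝ := fun t => Phi α t ^ n0 * ((a * t ^ 2 + b * t ^ 3 + d * t ^ 4) -
    (a * t ^ 2 + b * t ^ 3 + d * t ^ 4) ^ 2 / 2) with hF
  have e1 : (fun s : ℝ => Phi α (s / n0) ^ n0 *
        (Xf κ0 κ1 V2 V3 V4 s - Xf κ0 κ1 V2 V3 V4 s ^ 2 / 2)) = fun s => F (s / n0) := by
    funext s
    have hXe : Xf κ0 κ1 V2 V3 V4 s = a * (s / n0) ^ 2 + b * (s / n0) ^ 3 + d * (s / n0) ^ 4 := by
      unfold Xf
      rw [ha, hb, hd]
      field_simp
    simp only [hF, hXe]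
  rw [e1, intervalIntegral.integral_comp_div (f := F) p0.ne', zero_div,
    mul_div_cancel_left₀ _ p0.ne', smul_eq_mul]
  congr 1
  have e2 : F = fun t => ∑ k ∈ Finset.range 9, (![0, 0, a, b, d - a ^ 2 / 2, -(a * b),
      -((b ^ 2 + 2 * a * d) / 2), -(b * d), -(d ^ 2 / 2)] : Fin 9 → ℝ) (Fin.ofNat 9 k) *
      (t ^ k * Phi α t ^ n0) := by
    funext t
    simp only [hF, Finset.sum_range_succ, Finset.sum_range_zero]
    norm_num [Fin.ofNat]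
    ring
  rw [e2, sum_Im h.one_lt h.z1_pos.le]
  simp only [Finset.sum_range_succ, Finset.sum_range_zero]
  norm_num [Fin.ofNat]
  unfold Gq
  ring

end LpSec.ML
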