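import Mathlib
import Pool.Agent.Lib.MP_1dbab3_gt.W.M4

/-!
# Master lemma for `J`, part 5: lower bound of the flat value, and the final real form
-/

open Real MeasureTheory Set Filter Topology

namespace LpSec.ML

variable {α : ℝ}

theorem flat_main (h : Lobe α) {n : ℕ} (hn : 1 ≤ n) :
    ∫ s in (0 : ℝ)..(n * z1 α), Phi α (s / n) ^ n = n * Im α n 0 := by
  have p0 : (0 : ℝ) < n := by exact_mod_cast hn
  rw [intervalIntegral.integral_comp_div (f := fun t => Phi α t ^ n) p0.ne', zero_div,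
    mul_div_cancel_left₀ _ p0.ne', smul_eq_mul]
  unfold Im
  simp

/-- loss in the flat value from the later lobes, for odd dimension -/
noncomputable def lob (α : ℝ) (n : ℕ) : ℝ :=
  if Even n then 0 else exp (-(cc α * (n - 2))) * T2 α (z1 α)

theorem lob_nonneg (α : ℝ) (n : ℕ) : 0 ≤ lob α n := by
  unfold lob
  split_ifs
  · exact le_rfl
  · exact mul_nonneg (exp_pos _).le (T2_nonneg _ _)

theorem vv_lower (h : Lobe α) {n : ℕ} (hn : 2 ≤ n) :
    n * Im α n 0 - n * lob α n ≤ vv α n := by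
  have hα := h.one_lt
  have hc := h.z1_pos
  have p0 : (0 : ℝ) < n := by exact_mod_cast (by omega : 0 < n)
  have hv : vv α n = ∫ s in Ioi (0 : ℝ), Phi α (s / n) ^ n := by
    unfold vv J
    congr 1
    funext s
    rw [Finset.prod_const, Finset.card_univ, Fintype.card_fin]
    congr 2
    ring
  have hint : IntegrableOn (fun s => Phi α (s / n) ^ n) (Ioi 0) := by
    have h0 : (⟨0, by omega⟩ : Fin n) ≠ ⟨1, by omega⟩ := by simp
    have := prod_integrable_pair hα (x := fun _ : Fin n => 1 / (n : ℝ)) (fun _ => by positivity)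
      h0 (by positivity) (by positivity)
    refine this.congr_fun (fun s _ => ?_) measurableSet_Ioi
    simp only
    rw [Finset.prod_const, Finset.card_univ, Fintype.card_fin]
    congr 2
    ring
  have hb : 0 ≤ n * z1 α := by positivity
  have hsplit : ∫ s in Ioi (0 : ℝ), Phi α (s / n) ^ n =
      (∫ s in (0 : ℝ)..(n * z1 α), Phi α (s / n) ^ n) +
        ∫ s in Ioi (n * z1 α), Phi α (s / n) ^ n := by
    rw [intervalIntegral.integral_of_le hb, ← setIntegral_union (Ioc_disjoint_Ioi le_rfl)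
      measurableSet_Ioi (hint.mono_set Ioc_subset_Ioi_self) (hint.mono_set (Ioi_subset_Ioi hb)),
      Ioc_union_Ioi_eq_Ioi hb]
  rw [hv, hsplit, flat_main h (by omega)]
  have key : -(n * lob α n) ≤ ∫ s in Ioi (n * z1 α), Phi α (s / n) ^ n := by
    unfold lob
    split_ifs with he
    · rw [mul_zero, neg_zero]
      exact setIntegral_nonneg measurableSet_Ioi fun s _ => he.pow_nonneg _
    · have hsq := sq_scale_integrable hα (y := 1 / (n : ℝ)) (by positivity) hb
      have hsv := sq_scale α (y := 1 / (n : ℝ)) (by positivity) (n * z1 α)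
      have e6 : 1 / (n : ℝ) * (n * z1 α) = z1 α := by field_simp
      rw [e6] at hsv
      set E := exp (-(cc α * (n - 2))) with hE
      have h1 : ∫ s in Ioi (n * z1 α), -(E * Phi α (1 / n * s) ^ 2) ≤
          ∫ s in Ioi (n * z1 α), Phi α (s / n) ^ n := by
        refine setIntegral_mono_on (hsq.const_mul E).neg (hint.mono_set (Ioi_subset_Ioi hb))
          measurableSet_Ioi fun s hs => ?_
        have hs' : z1 α ≤ 1 / n * s := by
          rw [mem_Ioi] at hs
          rw [one_div, inv_mul_eq_div, le_div_iff₀ p0]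
          linarith
        have e : s / (n : ℝ) = 1 / n * s := by ring
        rw [e]
        have hsm := h.small _ hs'
        set p := Phi α (1 / n * s)
        have h2 : |p| ^ n ≤ E * p ^ 2 := by
          obtain ⟨m, rfl⟩ : ∃ m, n = m + 2 := ⟨n - 2, by omega⟩
          rw [pow_add, sq_abs]
          refine mul_le_mul_of_nonneg_right ?_ (sq_nonneg p)
          refine (pow_le_pow_left₀ (abs_nonneg p) hsm m).trans (le_of_eq ?_)
          rw [← exp_nat_mul, hE]
          congr 1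
          unfold cc
          push_cast
          ring
        have h3 : -|p ^ n| ≤ p ^ n := neg_abs_le _
        rw [abs_pow] at h3
        linarith
      have h4 : ∫ s in Ioi (n * z1 α), -(E * Phi α (1 / n * s) ^ 2) =
          -(n * (E * T2 α (z1 α))) := by
        rw [integral_neg, integral_const_mul, hsv]
        field_simp
      linarith
  linarith

theorem Wm_anti (h : Lobe α) (n : ℕ) {t t0 : ℝ} (ht : 0 ≤ t) (htt : t ≤ t0) (ht0 : t0 ≤ z1 α) :
    Wm α n t0 ≤ Wm α n t := by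
  have hc : ContinuousOn (fun t => Phi α t ^ n) (Ici 0) := (Phi_continuousOn h.one_lt).pow n
  have hc0 := h.z1_pos.le
  have e : Wm α n t = (∫ t in t..t0, Phi α t ^ n) + Wm α n t0 :=
    (intervalIntegral.integral_add_adjacent_intervals (ii_of hc ht (ht.trans htt))
      (ii_of hc (ht.trans htt) hc0)).symm
  have h1 : 0 ≤ ∫ t in t..t0, Phi α t ^ n := intervalIntegral.integral_nonneg htt fun s hs =>
    pow_nonneg (h.nonneg (ht.trans hs.1) (hs.2.trans ht0)) n
  linarith

/-- **the comparison with the flat point, real form** -/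
theorem J_le_flat_signed (h : Lobe α) (h4 : Conc4 α) {n n0 : ℕ} (hn0 : 1 ≤ n0) (hn : n0 ≤ n)
    {x : Fin n → ℝ} (hx : ∀ k, 0 ≤ x k) (h1 : ∑ k, x k = 1) {i j : Fin n} (hij : i ≠ j)
    (hz : ∀ k, k ≠ i → x k ≤ x j) (hj : 0 < x j) (hji : x j ≤ x i) (hy1 : 1 ≤ n0 * x i)
    {κ0 κ1 V2 V3 V4 a b d W t0 Xe Xt : ℝ}
    (hκ0 : 0 ≤ κ0) (hκ0' : κ0 ≤ k0 α) (hκ1 : 0 ≤ κ1) (hκ1' : κ1 ≤ k1 α)
    (hV2 : V2 ≤ ∑ k, x k ^ 2 - 1 / n) (hV3 : V3 ≤ ∑ k, x k ^ 3 - 1 / n ^ 2)
    (hV4 : V4 ≤ ∑ k, x k ^ 4 - 1 / n ^ 3) (hV20 : 0 ≤ V2) (hV30 : 0 ≤ V3) (hV40 : 0 ≤ V4)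
    (ha : a = κ0 * V2 * n0 ^ 2 / 2) (hb : b = κ1 * V3 * n0 ^ 3 / 6)
    (hd : d = κ0 ^ 2 * V4 * n0 ^ 4 / 8)
    (ht0 : z1 α ≤ t0 * (n0 * x i)) (ht0' : t0 ≤ z1 α) (hW : W ≤ Wm α n0 t0)
    (hXe : ExtraOk α (x i) (x j) Xe)
    (hXt : ∫ s in Ioi (z1 α / x j), ∏ k, Phi α (x k * s) ≤ Xt) :
    J α x ≤ n * Im α n 0 - n0 * (Gq α n0 a b d + W / 2) + Xe + Xt := by
  have hc := h.z1_pos
  have p0 : (0 : ℝ) < n0 := by exact_mod_cast hn0
  have hi : 0 < x i := hj.trans_le hji
  have hxy : ∀ k, x k ≤ x i := fun k => by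
    by_cases hk : k = i
    · rw [hk]
    · exact (hz k hk).trans hji
  have h5 := ml_split_signed h hx h1 hij hz hj hji hXe
  have h6 := main_gain h h4 hn0 hn hx h1 hi hxy hy1 hκ0 hκ0' hκ1 hκ1' hV2 hV3 hV4 hV20 hV30 hV40
  rw [gain_moments h hn0, ← ha, ← hb, ← hd, flat_main h (by omega)] at h6
  have h7 : ∫ s in (z1 α / x i)..(n0 * z1 α), Phi α (s / n0) ^ n0 =
      n0 * Wm α n0 (z1 α / x i / n0) := by
    rw [intervalIntegral.integral_comp_div (f := fun t => Phi α t ^ n0) p0.ne',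
      mul_div_cancel_left₀ _ p0.ne', smul_eq_mul]
    rfl
  have h8 : W ≤ Wm α n0 (z1 α / x i / n0) := by
    refine hW.trans (Wm_anti h n0 (by positivity) ?_ ht0')
    rw [div_div, div_le_iff₀ (by positivity)]
    linarith
  rw [h7] at h6
  have h9 := mul_le_mul_of_nonneg_left h8 p0.le
  linarith

end LpSec.ML
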