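import Mathlib

/-!
# Box checker for `n ≥ 4` (and `n = 3`, large maximum): computational part, natural numbers only
-/

namespace LpSec.ML

/-- forced evaluation of the argument -/
def fc (n : ℕ) (k : ℕ → Bool) : Bool := Nat.casesOn n (k 0) (fun m => k (Nat.succ m))

/-- forced evaluation of the argument -/
def fn (n : ℕ) (k : ℕ → ℕ) : ℕ := Nat.casesOn n (k 0) (fun m => k (Nat.succ m))

theorem fc_eq (n : ℕ) (k : ℕ → Bool) : fc n k = k n := by cases n <;> rfl
theorem fn_eq (n : ℕ) (k : ℕ → ℕ) : fn n k = k n := by cases n <;> rfl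

def mn (a b : ℕ) : ℕ := cond (Nat.ble a b) a b
def mx (a b : ℕ) : ℕ := cond (Nat.ble a b) b a

/-- numbers of a cell, scale `10 ^ 8`; boxes have scale `4096` -/
structure CellD where
  /-- upper bound of `z1` -/
  ch : ℕ
  /-- lower bound of `min z1 2` -/
  cc : ℕ
  /-- lower bound of `k0` -/
  k0 : ℕ
  /-- lower bound of `k1` -/
  k1 : ℕ
  /-- lower bound of `AA` -/
  al : ℕ
  /-- upper bound of `T2 6` -/
  h6 : ℕ
  /-- upper bound of `T2 z1` -/
  h : ℕ
  /-- `(q, H, L)` with `L ≤ T2 (q / 4 * z1) ≤ H`, `q > 4` -/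
  T : List (ℕ × ℕ × ℕ)

/-- numbers of a cell in a given dimension -/
structure NumD where
  n : ℕ
  i2 : ℕ
  i3 : ℕ
  i4 : ℕ
  j0 : ℕ
  j4 : ℕ
  j5 : ℕ
  j6 : ℕ
  j7 : ℕ
  j8 : ℕ
  /-- `2 ^ 32`-digits: lower bounds of `Wm n (50 ch / (n g))` -/
  w : ℕ

/-- the packed table of `10 ^ 9 exp (- i / 128)`, `i < 1024`, 30 bits each -/
def etab : ℕ := 0x14a3b8005334a0014f6ec005484000154b6c0055d8b0015a140005732b0015f8700058923001651000059f730016aaf4005b61d00170650005cd220017631c005e4840017c160005fc44001821200061464001882600062ce50018e52c00645ca001949880065f130019af7400678c1001a16fc00692d7001a8024006ad56001aeaf8006c840001b5778006e397001bc5ac006ff5b001c359c0071b8f001ca7500073836001d1ad0007554f001d902000772de001e074800790e4001e8050007af63001efb44007ce5e001f7828007edd5001ff7000080dcb002077d80082e420020fab80084f3b00217fa800870ba002206b000892c000228fd8008b54f00231b2c008d86a0023a8b0008fc1200243870009204a0024ca70009451300255ebc0096a710025f56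0009906500268e60009b6f2002729cc009de1b0027c7a800a05e10028680000a2e4800290ae000a57520029b05400a8102002a586400aab5a002b031800ad65d002bb07c00b020d002c609c00b2e6d002d138000b5b80002dc93400b8948002e81c400bb7c9002f3d4000be706002ffbac00c17000030bd1800c47bc0031819000c793d0032492000cab85003313d400cde980033e1b800d12780034b2dc00d472a0035874800d7cb000365f1000db30e00373a3c00dea47003818dc00e225f0038fb0000e5b5a0039e0b400e953a003aca0400ed003003bb70000f0bb9003ca7b800f4860003d9c3c00f85fc003e949c00fc490003f90e001004200040912001044b000419564010864400429dc4010c8e10043aa500110c8b0044bb1801151460045d02c01197160046e99c011ddff004807780122605004929d40126f2e004a50c4012b97e004b7c5801304fa004caca801351a6004de1c00139f87004f1bb4013eea200505a9c0143efc00519e88014909a0052e790014e381005435c401537b60055893c0158d3e0056e20c015e41f0058404c0163c5f0059a4100169602005b0d6c016f10f005c7c7c0174d8b005df150017ab7b005f6c040180ae60060ecb00186bd200627368018ce450064004c0193245006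5937001997d800672ce8019ff040068ccd801a67d0006a735001ad243006c207401b3e63006dd45801bac37006f8f1801c1bc5007150d001c8d15007319a001d002e0074e9a001d75170076c0f001debd700789fa801e6476007a85ec01edefb007c73d801f5b6e007e698c01fd9d7008067280205a3d00826cc8020dca900847a900216123008690a0021e7b30088af180227062008ad61c022fb37008d05cc023883c008f3e4c024177900917fc0024a8f80093ca4c0253cc200961e18025d2e000987b440266b5b009ae1f8027063c009d5258027a38e009fcc90028435a00a250c4028e5aa00a4df1c0298a8900a777c402a320000aa1ae002adc1a00acc8a002b88e200af812c02c386300b244b002ceaa700b5135802d9fba00b7ed5002e57a600bad2c802f127900bdc3f002fd03d00c0c0f403090fe00c3ca0403154c800c6df500321ba700ca0108032e5a700cd2f60033b2d600d06a8c034834000d3b2bc03556f200d708280362df900da6b04037086300dddb88037e63e00e159e8038c79700e4e660039ac7d00e8812403a94fe00ec2a7403b812800efe28403c710a00f3a99403d64b300f77fdc03e5c3200fb659c03f579700ff5b1404056f2010360800415a520107762404261c8010b9c400436d6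4010fd3140447d3601141ae40459150011873f8046a9c4011cde94047c6a301215b00048e7fe0125e98004a0de8012a8a6004b3872012f3de404c67af0134045c04d9bb30138de1804ed491013dcb60050125c0142cc8405155290147e1d80529d0b014d0ba8053ea1601524a480553c6001579e0c05693fe015d074c057f1050162865c059538b01681b9405abba7016dc75005c296f017389e805d9cf9017963b805f165d017f552006095b201855e7c0621b11018b802c063a6910191ba94065384b01980e18066d059019e7b1c0686ed401a5020c06a13d701aba34c06bbf7b01b25f4806d71db01b9366806f2b1201c0291c070eb3c01c737d0072b27401ce62f807480d701d5ab08076568201dd1070078339301e493ac07a182701ec353007c045d01f3f57807df85301fbd50007ff4290203d444081f7fd020bf3c408403f1021434040861825021c958808834bb022518d408a59d4022dbe7408c8793023686ec08ebe1a023f72d0090fd8d024882a809346100251b70c09597c8025b108c097f2d902648fbc09a5769026e353409cc59f0278019009f3da10281f56c0a1bf97028c11680a44ba9029656240a6e20002a0c4480a982c502ab5c780ac2e2202b61f5c0aee44202c10da40b1a55102cc27fc0b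4717902d76f140b748e902e2e3a80ba2bce02ee86680bd1a5502fa58100c014ae030659600c31b0803128b140c62d94031eedf00c94c83032b82bc0cc780703384a440cfb053034545500d2f59a035274b00d64810035fd9340d9a7ea036d73b80dd155f037b45140e090a603894e240e419f503978fc80e7b18603a60ae40eb579203b4c0640ef0c5403c3b12c0f2d00603d2de300f6a2e503e248640fa852f03f1f0bc0fe77210401d83410278fb0411ffcc1068afd0422688410aad670433136010ee07c044401701132480045533c011779b50466ab6011be0620478696c12058cd048a6f00124e33e049cbd3c1297ffd04af554412e2f5404c23840132f18e04d56760137c6f804e8e3dc13cafdf04fcaee4141ac900510c9b8146bd5c0525359414be2940539f3c81511c8a054f059c1566b9305646c6015bd002057a296c1614a2e05903e18166da6f05a6abcc16c811e05bd73ec1723e9505d497e0178133005ec192017dff4c0603f9201840348061c396018a1f840634db641905463064de0b8196a24706674ae819d099506811b901a38ab4069b54481aa260c06b5f6b81b0dc0606d104881b7ad0f06ec7f681be9992070869101c5a1ff0724c3401ccc6c607418fbc1d4085a075ed0541db672f077c86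d81e2e3ba079ab5241ea7e7307b95d1c1f237d407d880a81fa105907f821c0202087f0818425820a20c60838e47821259af085a0a2421ab3bd087bb5702232f77089de87c22bcd6508c0a5682348e0f08e3ee5c23d72030907c59024679cd092c2d4024fa5ff095127b4258f72c0976b73c2626de9099cde3026c0acc09c39ef0275ce7009eafbec27fb9710a12f798289cc6e0a3b947429408080a64d50c29e6ce30a8ebbf42a8fba50ab94bc42b3b4f70ae4872c2be99840b1070dc2c9a9fb0b3d0b982d4e70e0b6a5a242e0516f0b985f582ebe9d50bc71e102f7b0fa0bf6993c303a79a0c26d3d030fce750c57d0d431c264d0c899358328afe80cbc1e743356c0e0cef75543425b8b0d239b2c34f7f2e0d58933c35cd7c90d8e60d836a66320dc5075c3782b410dfc8a3038627d40e34ecd03945cc90e6e32c03a2cb050ea85f943b1736d0ee376ec3c056ed0f1f7c803cf76730f5c740c3ded2f00f9a61603ee6d5b0fd9485c3fe46ad10192cf040e5fe4105a131441eba01109bfedc42f560910def46444035081122f7e0451580b11680d8c462c02311ae39b84746e6711f580c848663f3123de734498a1e5128771804ab296212d224444bdfb92131e042c4d119a2136b15f44e484c413b95e744f83e2f14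08e28850c471e1459a72c520a0d214abb16c5354c9014ff066854a4ba31553ab5455f9f5b15a9a580575490e1600fa4458b4a151659af1c5a1a3d216b3c9905b857aa170f4f445cf6707176c45ec5e6d35b17cab35c5fe9e1d182a9d78616c8ca188c0a4462f54e418eeffd064843f31953844c661978719b99e0467b51351a21535869572991a8aaac46affd541af5aadc6caf3101b625a546e6557c1bd0bff0702264d1c40e29c71e67421cb2c95873b1a1d1d267b4475840ab1d9bff98775dcbd1e135db0793f02e1e8c9d007b27cdf1f07c51c7d184b71f84ddb47f109a82003ee9c8110daa2084ffc883192bf210819488529aed218d434c8742846221486288963ce2229dea4c8b8dae2232978548dc047123b738f48ffbbc12447350c924030d24d9759c948dc9a256e03c496e4ab62604e8d09944fb7269e2e2c9baedfe2739dd709e227f427d80054a0a000e2878a0bca3278c9291bc8b4a5b94ac29c18268a8556492a69d838aafc03d2b14d4acadad52e2bc28270b0697cd2c72ec60b330ad62d261d80b6031102ddc2104b8e0d4e2e950250bbca26f2f50ccf0bebf35a300f8ca0c1c030630d14d50c4cd47331961b14c7e6aae325e0240cb0c8d033290f50ce3f20133f74ef8d17e97234c8ce18d4cb2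63359d99c8d82501f3675bf54db8c60137514c40df0177138304e48e2847e43912d35ce615add39f8e9a0e9b53ec3ae29f78ed636b23bd0037cf1206dc3cc12484f4ec8283db611a8f8c7e623eaeda30fcb2d653fab8dad00ad91c40ac3be504b858241b0f4e508d36a142b9c8f90cff09543c6c8b1113b78a44d804dd1588fbc45ed8e8d19e7d784707771d1e5851e4825d02d22dab1e4948ab9d276f3f94a701b9d2c164454b9c32a530d00a94ccd0375359cdde4e02a11d3a7d0b24f3d1ef53f70e05507c90a54478aca51c10a254994c09530a9fbd4ec56df54596605540b07c55ad71e95965e265706d8ad5ed65375865afe5645cb2159ca0d8169f95695b3407c56fac9ad5ca3b5517576d9f5e192d217b5870a5f9486898151bcf6115d94587631e8629d3d618d8cf66642acb5d93cfa7365be9c0d9a2b9526758c8b1a0a125f68f96ae9a730c0f6aa09cc1addacf26c4e78adb49fbb26e031985bb7ff146fbe9a9dc27bdf8718117a5c993f5b734aacc9d0c8a54751b76a1d81a61876f39239df899f878d31d15e716d657aba352deec27eb7ca8f8f1f68d1367e9f8751fe77111809dffb20680f6582a481fe0eab43d84b32e9a16f67c386ca267a1f6324388e98b0627f1c298b117e3630a2e038d42228a3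9770838f7b9b0a426ec7d91be0b524b8aae99409978654cb4e2965e645e5e313aa98bc972a67bd0a69b2455ca716f5629d95c6ba7b48b90a01111168549d0ba2965c928f733d3a525d17e99c5a11a7bf98d6a441a19aa63dc36aee7e65ad12c5e2b9b919eafcc80cac4b5e93b291388acfdf042b561196adb351d3b83c506ae6b8e9dbb230b3ef26b224be157852fe4c81ac113c6cf0a5dc60c41e2697169fb08c734c8532313055ca57dd6f2fb88b9cd8798173c910d9d0c42b47499d58ed40dcacf56de3e6d764ab43645491fdac9021372012b2de3b05877fe4e4be1baecbb8e009cde548efb39c55354e8e5474baae3936ec902d4fb9aca00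

/-- upper bound of `10 ^ 9 exp (- i / 128)` from the packed table -/
def En (tab i : ℕ) : ℕ := Nat.mod (Nat.shiftRight tab (Nat.mul 30 (mn i 1023))) 1073741824

/-- upper bound of the weight of the rest at `θ = num / den` -/
def Rn (tab cc m cap r num den : ℕ) : ℕ :=
  En tab (Nat.div (Nat.mul (Nat.mul 128 cc) (Nat.add (Nat.mul m (mn (Nat.mul num cap) den))
    (mn (Nat.mul num r) den))) (Nat.mul 100000000 den))

/-- tail of the part of scale `z`, list of steps; result is subtracted -/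
def sz (tab cc m cap r z1 : ℕ) (T : List (ℕ × ℕ × ℕ)) : ℕ → ℕ :=
  List.rec (fun _ => 0) (fun p _ ih R =>
    fn (mn R (Rn tab cc m cap r p.1 (Nat.mul 4 z1))) fun R' =>
      Nat.add (Nat.mul (Nat.sub R R') p.2.2) (ih R')) T

/-- the weight for the part of scale `y` at step `q` -/
def Ry (tab cc m cap r y1 z1 q : ℕ) : ℕ :=
  cond (Nat.ble (Nat.mul 4 y1) (Nat.mul q z1)) (Rn tab cc m cap r q (Nat.mul 4 y1))
    (Rn tab cc m cap r 1 z1)

/-- steps of the part of scale `y` -/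
def sy (tab cc m cap r y1 z1 : ℕ) (T : List (ℕ × ℕ × ℕ)) : ℕ → ℕ :=
  List.rec (fun _ => 0) (fun p _ ih R =>
    fn (mn R (Ry tab cc m cap r y1 z1 p.1)) fun R' =>
      Nat.add (Nat.mul (Nat.sub R R') p.2.2) (ih R')) T

/-- the part of scale `y`: drop the steps before `y / z`, then start -/
def NB (tab cc m cap r y0 y1 z1 : ℕ) (T : List (ℕ × ℕ × ℕ)) : ℕ → ℕ → ℕ :=
  List.rec (fun q H => fn (Ry tab cc m cap r y1 z1 q) fun R => Nat.mul R H)
    (fun p t ih q H => cond (Nat.ble (Nat.mul p.1 z1) (Nat.mul 4 y0)) (ih p.1 p.2.1)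
      (fn (Ry tab cc m cap r y1 z1 q) fun R =>
        Nat.sub (Nat.mul R H) (sy tab cc m cap r y1 z1 (p :: t) R))) T

def NA (tab cc m cap r z1 : ℕ) (T : List (ℕ × ℕ × ℕ)) (H : ℕ) : ℕ :=
  fn (Rn tab cc m cap r 4 (Nat.mul 4 z1)) fun R =>
    Nat.sub (Nat.mul R H) (sz tab cc m cap r z1 T R)

/-- final comparison: `g` (over `2 SC^2 M`), `A`, `B` (over `10^17`) -/
def fin (c : CellD) (tab y0 y1 z0 zz A B g : ℕ) : Bool :=
  fc (Nat.mul (Nat.mul (Nat.mul A B) 16777216) 40000000000000000000000000000000000000000) fun P =>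
  fc (Nat.mul (Nat.mul g g) (Nat.mul (Nat.mul zz y0) 10000000000000000000000000000000000)) fun G =>
  cond (Nat.ble (Nat.mul c.ch y1) (Nat.mul 600000000 z0))
    (Nat.ble (Nat.succ P) G)
    (fc (Nat.mul (Nat.mul 20000000000 (Nat.sub 4096 y1)) P) fun P' =>
     fc (Nat.mul (Nat.mul 20000000000 (Nat.sub 4096 y1)) G) fun G' =>
     fc (En tab (Nat.div (Nat.mul 384 (Nat.sub 4096 y1)) y1)) fun e =>
     fc (Nat.mul e e) fun ee =>
     fc (Nat.mul (Nat.mul (Nat.mul c.h6 (Nat.mul ee ee)) 16777216)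
       (Nat.mul zz 40000000000000000000000000000000000000000)) fun E =>
     cond (Nat.ble (Nat.succ (Nat.add P' E)) G')
       (fc (Nat.sub G' (Nat.add P' E)) fun D =>
        Nat.ble (Nat.succ (Nat.mul 4 (Nat.mul P' E))) (Nat.mul D D)) false)

/-- comparison of the tail with the gain `g` -/
def tl (c : CellD) (tab y0 y1 z0 z1 w1 g : ℕ) : Bool :=
  fc (Nat.sub 4096 (Nat.add y1 z1)) fun s0 =>
  cond (Nat.ble z0 0)
    (cond (Nat.ble (Nat.mul 100000000 z1) (Nat.mul (Nat.mul 2 c.cc) s0))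
      (fc (Nat.mul c.h (En tab (Nat.div (Nat.mul (Nat.mul 128 c.cc) s0)
        (Nat.mul 100000000 z1)))) fun A => fin c tab y0 y1 z0 z1 A A g) false)
    (fc (mx 1 (mn (mn w1 z1) (Nat.sub 4096 (Nat.add y0 z0)))) fun cap =>
     fc (Nat.div s0 cap) fun m =>
     fc (Nat.sub s0 (Nat.mul m cap)) fun r =>
     fc (NA tab c.cc m cap r z1 c.T c.h) fun A =>
     fc (NB tab c.cc m cap r y0 y1 z1 c.T 4 c.h) fun B =>
     fin c tab y0 y1 z0 z0 A B g)

/-- upper bound of `T2` at `z1 * min (z / v) (6 z / (y z1))` from the list -/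
def uppT (z0 v1 ch y1 : ℕ) (T : List (ℕ × ℕ × ℕ)) : ℕ → ℕ :=
  List.rec (fun H => H) (fun p _ ih H =>
    cond (cond (Nat.ble (Nat.mul p.1 v1) (Nat.mul 4 z0))
      (Nat.ble (Nat.mul (Nat.mul p.1 ch) y1) (Nat.mul 2400000000 z0)) false)
      (ih p.2.1) H) T

/-- as `sz`, the part of scale `z` stopped at `z1 / w`; result is subtracted -/
def szS (tab cc m cap r z1 w0 : ℕ) (T : List (ℕ × ℕ × ℕ)) : ℕ → ℕ :=
  List.rec (fun _ => 0) (fun p _ ih R =>
    cond (Nat.ble (Nat.mul 4 z1) (Nat.mul p.1 w0)) (Nat.mul R p.2.2)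
    (fn (mn R (Rn tab cc m cap r p.1 (Nat.mul 4 z1))) fun R' =>
      Nat.add (Nat.mul (Nat.sub R R') p.2.2) (ih R'))) T

/-- as `sy`, stopped at `z1 / w` -/
def syS (tab cc m cap r y1 z1 w0 : ℕ) (T : List (ℕ × ℕ × ℕ)) : ℕ → ℕ :=
  List.rec (fun _ => 0) (fun p _ ih R =>
    cond (Nat.ble (Nat.mul 4 y1) (Nat.mul p.1 w0)) (Nat.mul R p.2.2)
    (fn (mn R (Ry tab cc m cap r y1 z1 p.1)) fun R' =>
      Nat.add (Nat.mul (Nat.sub R R') p.2.2) (ih R'))) T

/-- as `NB`, stopped at `z1 / w` -/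
def NBS (tab cc m cap r y0 y1 z1 w0 : ℕ) (T : List (ℕ × ℕ × ℕ)) : ℕ → ℕ → ℕ :=
  List.rec (fun q H => fn (Ry tab cc m cap r y1 z1 q) fun R => Nat.mul R H)
    (fun p t ih q H => cond (Nat.ble (Nat.mul p.1 z1) (Nat.mul 4 y0)) (ih p.1 p.2.1)
      (fn (Ry tab cc m cap r y1 z1 q) fun R =>
        Nat.sub (Nat.mul R H) (syS tab cc m cap r y1 z1 w0 (p :: t) R))) T

/-- `n = 4`: tail with the sign of three negative factors -/
def tlS (c : CellD) (tab y0 y1 z0 z1 w0 w1 g : ℕ) : Bool :=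
  fc (Nat.sub 4096 (Nat.add y1 z1)) fun s0 =>
  fc (mx 1 (mn (mn w1 z1) (Nat.sub 4096 (Nat.add y0 z0)))) fun cap =>
  fc (Nat.sub 4096 (Nat.add (Nat.add y0 z0) w0)) fun v1 =>
  fc (Nat.sub 4096 (Nat.add (Nat.add y1 z1) w1)) fun v0 =>
  cond (cond (Nat.ble z0 0) false (cond (Nat.ble w0 0) false
    (Nat.ble (Nat.mul c.ch y1) (Nat.mul 600000000 w0))))
  (fc (Nat.div s0 cap) fun m =>
   fc (Nat.sub s0 (Nat.mul m cap)) fun r =>
   fc (Rn tab c.cc m cap r 4 (Nat.mul 4 z1)) fun R =>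
   fc (En tab (Nat.div (Nat.mul 128 (Nat.add (Nat.mul c.cc y1) (mn (Nat.mul c.cc y1)
     (Nat.mul 600000000 v0)))) (Nat.mul 100000000 y1))) fun R3 =>
   fc (Nat.mul R3 (uppT z0 v1 c.ch y1 c.T c.h)) fun C3 =>
   fc (Nat.add (Nat.sub (Nat.mul R c.h) (szS tab c.cc m cap r z1 w0 c.T R)) C3) fun A =>
   fc (Nat.add (NBS tab c.cc m cap r y0 y1 z1 w0 c.T 4 c.h) C3) fun B =>
   fin c tab y0 y1 z0 z0 A B g) false

/-- the gain from the coefficients `a b d` (scale `10^6`); result over `2 SC^2 M` -/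
def gn (c : CellD) (N : NumD) (lb : ℕ) (tA : Bool) (a b d y0 : ℕ) (k : ℕ → Bool) : Bool :=
  fc (Nat.mul 2000000 (Nat.add (Nat.add (Nat.mul a N.i2) (Nat.mul b N.i3)) (Nat.mul d N.i4)))
    fun L =>
  fc (Nat.add (Nat.add (Nat.add (Nat.mul (Nat.mul a a) N.j4) (Nat.mul (Nat.mul (Nat.mul 2 a) b) N.j5))
    (Nat.add (Nat.mul (Nat.add (Nat.mul b b) (Nat.mul (Nat.mul 2 a) d)) N.j6)
      (Nat.mul (Nat.mul (Nat.mul 2 b) d) N.j7))) (Nat.mul (Nat.mul d d) N.j8)) fun Q =>
  cond (Nat.ble Q L)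
    (fc (Nat.mul N.n (Nat.add (Nat.sub L Q) (Nat.mul 1000000000000
      (Nat.mod (Nat.shiftRight N.w (Nat.mul 32 (Nat.div (Nat.mul 50 y0) 4096))) 4294967296))))
      fun G =>
      fc (Nat.sub G (Nat.mul 2000000000000 lb)) fun gv =>
      cond tA
        (fc (Nat.sub (Nat.add G (Nat.mul 2000000000000 c.al))
          (Nat.mul (Nat.mul 2000000000000 N.n) N.j0)) fun gA => fc (mx gv gA) k)
        (k gv))
    false

/-- coefficients from the corner: `s_p` sums of powers of the leading values, `r` the rest over `ν` -/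
def abd (c : CellD) (n ν s2 s3 s4 r : ℕ) (k : ℕ → ℕ → ℕ → Bool) : Bool :=
  fc (Nat.mul r r) fun r2 =>
  fc (Nat.mul n n) fun n2 =>
  fc (Nat.mul ν ν) fun v2 =>
  fc (Nat.div (Nat.mul (Nat.mul 1000000 c.k0) (Nat.sub (Nat.mul n2 (Nat.add (Nat.mul ν s2) r2))
    (Nat.mul (Nat.mul n ν) 16777216)))
    (Nat.mul (Nat.mul 200000000 ν) 16777216)) fun a =>
  fc (Nat.div (Nat.mul (Nat.mul 1000000 c.k1) (Nat.sub
    (Nat.mul (Nat.mul n2 n) (Nat.add (Nat.mul v2 s3) (Nat.mul r2 r)))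
    (Nat.mul (Nat.mul n v2) 68719476736)))
    (Nat.mul (Nat.mul 600000000 v2) 68719476736)) fun b =>
  fc (Nat.div (Nat.mul (Nat.mul (Nat.mul 1000000 c.k0) c.k0) (Nat.sub
    (Nat.mul (Nat.mul n2 n2) (Nat.add (Nat.mul (Nat.mul v2 ν) s4) (Nat.mul r2 r2)))
    (Nat.mul (Nat.mul n (Nat.mul v2 ν)) 281474976710656)))
    (Nat.mul (Nat.mul 80000000000000000 (Nat.mul v2 ν)) 281474976710656)) fun d =>
  k a b d

/-- choice of the corner; `e` an upper bound of the minimum (or `0`: unused) -/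
def corner (c : CellD) (n : ℕ) (d3 : Bool) (e y0 z0 w0 : ℕ) (k : ℕ → ℕ → ℕ → Bool) : Bool :=
  fc (Nat.mul y0 y0) fun yy =>
  fc (Nat.mul z0 z0) fun zz =>
  fc (Nat.mul w0 w0) fun ww =>
  fc (Nat.mul e e) fun ee =>
  fc (mn y0 z0) fun a2 =>
  fc (mn a2 w0) fun a3 =>
  cond (cond (cond d3 (Nat.ble n 4) false) (cond (Nat.ble (Nat.add (Nat.add y0 z0) w0) 4096)
      (Nat.ble 4096 (Nat.add (Nat.add (Nat.add y0 z0) w0) (Nat.mul (Nat.sub n 3) a3))) false)
      false)
    (abd c n (Nat.sub n 3) (Nat.add (Nat.add yy zz) ww)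
      (Nat.add (Nat.add (Nat.mul yy y0) (Nat.mul zz z0)) (Nat.mul ww w0))
      (Nat.add (Nat.add (Nat.mul yy yy) (Nat.mul zz zz)) (Nat.mul ww ww))
      (Nat.sub 4096 (Nat.add (Nat.add y0 z0) w0)) k)
  (cond (cond (Nat.ble e 0) false (cond d3 (cond (Nat.ble (Nat.add (Nat.add (Nat.add y0 z0) w0)
      (Nat.mul e (Nat.sub n 3))) 4096)
      (Nat.ble 4096 (Nat.add (Nat.add (Nat.add (Nat.add y0 z0) w0) e) (Nat.mul (Nat.sub n 4) a3)))
      false) false))
    (abd c n (Nat.sub n 4) (Nat.add (Nat.add (Nat.add yy zz) ww) ee)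
      (Nat.add (Nat.add (Nat.add (Nat.mul yy y0) (Nat.mul zz z0)) (Nat.mul ww w0)) (Nat.mul ee e))
      (Nat.add (Nat.add (Nat.add (Nat.mul yy yy) (Nat.mul zz zz)) (Nat.mul ww ww)) (Nat.mul ee ee))
      (Nat.sub 4096 (Nat.add (Nat.add (Nat.add y0 z0) w0) e)) k)
  (cond (cond (Nat.ble e 0) false (cond (Nat.ble (Nat.add (Nat.add y0 z0)
      (Nat.mul e (Nat.sub n 2))) 4096)
      (Nat.ble 4096 (Nat.add (Nat.add (Nat.add y0 z0) e) (Nat.mul (Nat.sub n 3) a2))) false))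
    (abd c n (Nat.sub n 3) (Nat.add (Nat.add yy zz) ee)
      (Nat.add (Nat.add (Nat.mul yy y0) (Nat.mul zz z0)) (Nat.mul ee e))
      (Nat.add (Nat.add (Nat.mul yy yy) (Nat.mul zz zz)) (Nat.mul ee ee))
      (Nat.sub 4096 (Nat.add (Nat.add y0 z0) e)) k)
  (cond (cond (Nat.ble e 0) false (cond (Nat.ble (Nat.add y0
      (Nat.mul e (Nat.sub n 1))) 4096)
      (Nat.ble 4096 (Nat.add (Nat.add y0 e) (Nat.mul (Nat.sub n 2) y0))) false))
    (abd c n (Nat.sub n 2) (Nat.add yy ee)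
      (Nat.add (Nat.mul yy y0) (Nat.mul ee e))
      (Nat.add (Nat.mul yy yy) (Nat.mul ee ee))
      (Nat.sub 4096 (Nat.add y0 e)) k)
  (cond (cond (Nat.ble e 0) false (Nat.ble (Nat.mul e n) 4096))
    (abd c n (Nat.sub n 1) ee (Nat.mul ee e) (Nat.mul ee ee) (Nat.sub 4096 e) k)
  (cond (cond d3 (cond (Nat.ble (Nat.add (Nat.add y0 z0) w0) 4096)
      (Nat.ble 4096 (Nat.add (Nat.add (Nat.add y0 z0) w0) (Nat.mul (Nat.sub n 3) a3))) false)
      false)
    (abd c n (Nat.sub n 3) (Nat.add (Nat.add yy zz) ww)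
      (Nat.add (Nat.add (Nat.mul yy y0) (Nat.mul zz z0)) (Nat.mul ww w0))
      (Nat.add (Nat.add (Nat.mul yy yy) (Nat.mul zz zz)) (Nat.mul ww ww))
      (Nat.sub 4096 (Nat.add (Nat.add y0 z0) w0)) k)
  (cond (cond (Nat.ble (Nat.add y0 z0) 4096)
      (Nat.ble 4096 (Nat.add (Nat.add y0 z0) (Nat.mul (Nat.sub n 2) a2))) false)
    (abd c n (Nat.sub n 2) (Nat.add yy zz) (Nat.add (Nat.mul yy y0) (Nat.mul zz z0))
      (Nat.add (Nat.mul yy yy) (Nat.mul zz zz)) (Nat.sub 4096 (Nat.add y0 z0)) k)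
  (cond (cond (Nat.ble y0 4096) (Nat.ble 4096 (Nat.mul n y0)) false)
    (abd c n (Nat.sub n 1) yy (Nat.mul yy y0) (Nat.mul yy yy) (Nat.sub 4096 y0) k) false)))))))

/-- parameters of a run -/
structure RunD where
  /-- the dimension is exactly `n` (otherwise at least `n`), and target `AA` allowed -/
  tA : Bool
  /-- third coordinate used -/
  d3 : Bool
  /-- LS region: maximum `≤ yls / 4096` and minimum `> rls / 100 * maximum` -/
  yls : ℕ
  rls : ℕ
  /-- run below `yls`: use the bound of the minimum in the corner -/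
  low : Bool
  /-- use the signs in the tail (`n = 4`) -/
  sg : Bool
  ytr : ℕ
  /-- near pair: `q ≤ q0 / 4096`, `y + z ≥ yz / 4096` -/
  q0 : ℕ
  yz : ℕ

/-- excluded or empty boxes -/
def out (n : ℕ) (R : RunD) (y0 y1 z0 z1 w0 w1 : ℕ) : Bool :=
  cond (cond (Nat.ble y1 R.yls) (cond R.low
      (Nat.ble (Nat.succ (Nat.add (Nat.mul R.rls y1)
        (Nat.mul 100 (Nat.add (Nat.add y1 z1) (Nat.mul (Nat.sub n 3) w1))))) 409600) true) false) true
  (cond (Nat.ble R.ytr y0) true (cond (Nat.ble (Nat.succ y1) z0) true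
    (cond (Nat.ble 4097 (Nat.add (Nat.add y0 z0) w0)) true
    (cond (cond (Nat.ble R.yz (Nat.add y0 z0))
      (Nat.ble (Nat.mul 4096 (Nat.sub y1 z0)) (Nat.mul R.q0 (Nat.add y1 z0))) false) true
    (cond (cond R.tA (Nat.ble (Nat.succ (Nat.mul (Nat.sub n 1) z1)) (Nat.sub 4096 y1)) false) true
    (cond R.d3 (cond (Nat.ble (Nat.succ z1) w0) true (cond R.tA
      (Nat.ble (Nat.succ (Nat.mul (Nat.sub n 2) w1)) (Nat.sub 4096 (Nat.add y1 z1)))
      false)) false))))))

def chk (c : CellD) (N : NumD) (R : RunD) (tab lb y0 y1 z0 z1 w0 w1 : ℕ) : Bool :=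
  cond (Nat.ble y1 4095)
  (corner c N.n R.d3 (cond R.low (cond (Nat.ble y1 R.yls)
      (Nat.succ (Nat.div (Nat.mul R.rls y1) 100)) 0) 0) y0 z0 w0 fun a b d =>
    gn c N lb R.tA a b d y0 fun g =>
    cond (Nat.ble g 0) false (cond (tl c tab y0 y1 z0 z1 w1 g) true
      (cond R.sg (tlS c tab y0 y1 z0 z1 w0 w1 g) false))) false

def go (c : CellD) (N : NumD) (R : RunD) (tab lb : ℕ) : ℕ → ℕ → ℕ → ℕ → ℕ → ℕ → ℕ → Bool :=
  fun f => Nat.rec (fun _ _ _ _ _ _ => false) (fun _ ih y0 y1 z0 z1 w0 w1 =>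
    cond (out N.n R y0 y1 z0 z1 w0 w1) true
    (cond (chk c N R tab lb y0 y1 z0 z1 w0 w1) true
    (fc (Nat.sub y1 y0) fun dy => fc (Nat.sub z1 z0) fun dz => fc (Nat.sub w1 w0) fun dw =>
      cond (cond (Nat.ble dz dy) (cond R.d3 (Nat.ble dw dy) true) false)
        (fc (Nat.div (Nat.add y0 y1) 2) fun m => cond (ih y0 m z0 z1 w0 w1)
          (ih m y1 z0 z1 w0 w1) false)
        (cond (cond R.d3 (Nat.ble dw dz) true)
          (fc (Nat.div (Nat.add z0 z1) 2) fun m => cond (ih y0 y1 z0 m w0 w1)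
            (ih y0 y1 m z1 w0 w1) false)
          (fc (Nat.div (Nat.add w0 w1) 2) fun m => cond (ih y0 y1 z0 z1 w0 m)
            (ih y0 y1 z0 z1 m w1) false))))) f

/-- bound of the loss from the later lobes -/
def lbn (c : CellD) (tab n : ℕ) : ℕ :=
  Nat.succ (Nat.div (Nat.mul (Nat.mul n c.h) (En tab (Nat.div (Nat.mul (Nat.mul 128 c.cc)
    (Nat.sub n 2)) 100000000))) 1000000000)

/-- the list of digits in base `2 ^ 32` -/
def wpack : List ℕ → ℕ
  | [] => 0
  | a :: t => a + 4294967296 * wpack t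

end LpSec.ML
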