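import Mathlib
import Pool.Agent.Lib.MP_1dbab3_gt.W.M5
import Pool.Agent.Lib.MP_1dbab3_gt.W.M6

/-!
# The numeric facts used by the box checker (`n ≥ 4`) and by the neighbourhood of the pair

All numbers have scale `10 ^ 8`.  `CellOk α c`, `NumOk α c N`, `PairOk α P` are to be proved for all
`α` with `1 / α` in a cell, for explicit `c`, `N`, `P`.
-/

open Real MeasureTheory Set Filter Topology

namespace LpSec.ML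

/-- the numbers of a cell -/
structure CellOk (α : ℝ) (c : CellD) : Prop where
  ch : z1 α ≤ (c.ch : ℝ) / 10 ^ 8
  cc : (c.cc : ℝ) / 10 ^ 8 ≤ cc α
  k0 : (c.k0 : ℝ) / 10 ^ 8 ≤ k0 α
  k1 : (c.k1 : ℝ) / 10 ^ 8 ≤ k1 α
  al : (c.al : ℝ) / 10 ^ 8 ≤ AA α
  h6 : T2 α 6 ≤ (c.h6 : ℝ) / 10 ^ 8
  h : T2 α (z1 α) ≤ (c.h : ℝ) / 10 ^ 8
  ord : (c.T.map (·.1)).Pairwise (· < ·)
  four : ∀ p ∈ c.T, 4 < p.1
  upp : ∀ p ∈ c.T, T2 α ((p.1 : ℝ) / 4 * z1 α) ≤ (p.2.1 : ℝ) / 10 ^ 8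
  low : ∀ p ∈ c.T, (p.2.2 : ℝ) / 10 ^ 8 ≤ T2 α ((p.1 : ℝ) / 4 * z1 α)

/-- digit `g` in base `2 ^ 32` -/
def dig (w g : ℕ) : ℕ := Nat.mod (Nat.shiftRight w (Nat.mul 32 g)) 4294967296

/-- the numbers of a cell in dimension `N.n` -/
structure NumOk (α : ℝ) (c : CellD) (N : NumD) : Prop where
  i2 : (N.i2 : ℝ) / 10 ^ 8 ≤ Im α N.n 2
  i3 : (N.i3 : ℝ) / 10 ^ 8 ≤ Im α N.n 3
  i4 : (N.i4 : ℝ) / 10 ^ 8 ≤ Im α N.n 4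
  j0 : Im α N.n 0 ≤ (N.j0 : ℝ) / 10 ^ 8
  j4 : Im α N.n 4 ≤ (N.j4 : ℝ) / 10 ^ 8
  j5 : Im α N.n 5 ≤ (N.j5 : ℝ) / 10 ^ 8
  j6 : Im α N.n 6 ≤ (N.j6 : ℝ) / 10 ^ 8
  j7 : Im α N.n 7 ≤ (N.j7 : ℝ) / 10 ^ 8
  j8 : Im α N.n 8 ≤ (N.j8 : ℝ) / 10 ^ 8
  w : ∀ g < 50, dig N.w g = 0 ∨ (0 < g ∧
    (50 * c.ch : ℝ) / (10 ^ 8 * (N.n * g : ℕ)) ≤ z1 α ∧
    (dig N.w g : ℝ) / 10 ^ 8 ≤ Wm α N.n ((50 * c.ch : ℝ) / (10 ^ 8 * (N.n * g : ℕ))))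

/-- the numbers of the neighbourhood of the pair, only for `1 / α ≤ 1 / 4` -/
structure PairD where
  /-- lower bound of `T2 z1` -/
  t0 : ℕ
  l1 : ℕ
  l2 : ℕ
  l3 : ℕ
  u2 : ℕ
  u4 : ℕ
  u5 : ℕ
  u6 : ℕ
  /-- upper bound of `AA` -/
  ah : ℕ

structure PairOk (α : ℝ) (P : PairD) : Prop where
  t0 : (P.t0 : ℝ) / 10 ^ 8 ≤ T2 α (z1 α)
  l1 : (P.l1 : ℝ) / 10 ^ 8 ≤ Im α 2 1
  l2 : (P.l2 : ℝ) / 10 ^ 8 ≤ Im α 2 2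
  l3 : (P.l3 : ℝ) / 10 ^ 8 ≤ Im α 2 3
  u2 : Im α 2 2 ≤ (P.u2 : ℝ) / 10 ^ 8
  u4 : Im α 2 4 ≤ (P.u4 : ℝ) / 10 ^ 8
  u5 : Im α 2 5 ≤ (P.u5 : ℝ) / 10 ^ 8
  u6 : Im α 2 6 ≤ (P.u6 : ℝ) / 10 ^ 8
  ah : AA α ≤ (P.ah : ℝ) / 10 ^ 8

theorem dig_wpack : ∀ (l : List ℕ) (g : ℕ), (∀ a ∈ l, a < 4294967296) →
    dig (wpack l) g = l.getD g 0
  | [], g, _ => by
    have e : wpack [] = 0 := rfl
    show (wpack [] >>> (32 * g)) % 4294967296 = _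
    rw [e]
    simp
  | a :: t, 0, h => by
    have ha : a < 4294967296 := h a (by simp)
    show ((a + 4294967296 * wpack t) >>> (32 * 0)) % 4294967296 = a
    rw [Nat.mul_zero, Nat.shiftRight_zero, Nat.add_mul_mod_self_left, Nat.mod_eq_of_lt ha]
  | a :: t, g + 1, h => by
    have ha : a < 4294967296 := h a (by simp)
    have ih := dig_wpack t g fun b hb => h b (by simp [hb])
    have e : dig (a + 4294967296 * wpack t) (g + 1) = dig (wpack t) g := by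
      show ((a + 4294967296 * wpack t) >>> (32 * (g + 1))) % 4294967296 =
        (wpack t >>> (32 * g)) % 4294967296
      congr 1
      rw [Nat.shiftRight_eq_div_pow, Nat.shiftRight_eq_div_pow, Nat.mul_add, Nat.pow_add,
        Nat.mul_comm (2 ^ (32 * g)), ← Nat.div_div_eq_div_mul]
      congr 1
      norm_num
      omega
    show dig (a + 4294967296 * wpack t) (g + 1) = _
    rw [e, ih]
    simp

/-- the numbers `w` from a list of digits -/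
theorem NumOk.w_of_list {α : ℝ} {c : CellD} {n w : ℕ} {l : List ℕ} (hw : w = wpack l)
    (hl : ∀ a ∈ l, a < 4294967296)
    (h : ∀ g < 50, l.getD g 0 = 0 ∨ (0 < g ∧
      (50 * c.ch : ℝ) / (10 ^ 8 * (n * g : ℕ)) ≤ z1 α ∧
      ((l.getD g 0 : ℕ) : ℝ) / 10 ^ 8 ≤ Wm α n ((50 * c.ch : ℝ) / (10 ^ 8 * (n * g : ℕ))))) :
    ∀ g < 50, dig w g = 0 ∨ (0 < g ∧
      (50 * c.ch : ℝ) / (10 ^ 8 * (n * g : ℕ)) ≤ z1 α ∧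
      (dig w g : ℝ) / 10 ^ 8 ≤ Wm α n ((50 * c.ch : ℝ) / (10 ^ 8 * (n * g : ℕ)))) := by
  intro g hg
  rw [hw, dig_wpack l g hl]
  exact h g hg

end LpSec.ML
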