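import Mathlib
import Pool.Agent.Lib.MP_1dbab3_gt.W.Chord
import Pool.Agent.Lib.MP_1dbab3_gt.W.DTbl
import Pool.Agent.Lib.MP_1dbab3_gt.Base

/-!
# `1 / D(u)` and `AA(1/u)` between the nodes `i / 100`
-/

namespace LpSec.W

open Real Filter Topology Finset

/-- `ph x = 2 log (1+x) - log (1 + 2x)` -/
noncomputable def ph (x : ℝ) : ℝ := 2 * log (1 + x) - log (1 + 2 * x)
noncomputable def ph1 (x : ℝ) : ℝ := 2 / (1 + x) - 2 / (1 + 2 * x)
noncomputable def ph2 (x : ℝ) : ℝ := 4 / (1 + 2 * x) ^ 2 - 2 / (1 + x) ^ 2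

theorem ph_hasDerivAt {x : ℝ} (hx : 0 ≤ x) : HasDerivAt ph (ph1 x) x := by
  have p1 : 1 + x ≠ 0 := by positivity
  have p2 : 1 + 2 * x ≠ 0 := by positivity
  have h1 : HasDerivAt (fun x : ℝ => 1 + x) 1 x := by
    simpa using (hasDerivAt_id x).const_add 1
  have h2 : HasDerivAt (fun x : ℝ => 1 + 2 * x) 2 x := by
    simpa using ((hasDerivAt_id x).const_mul 2).const_add 1
  have h3 := ((h1.log p1).const_mul 2).sub (h2.log p2)
  refine h3.congr_deriv ?_
  unfold ph1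
  ring

theorem ph1_hasDerivAt {x : ℝ} (hx : 0 ≤ x) : HasDerivAt ph1 (ph2 x) x := by
  have p1 : 1 + x ≠ 0 := by positivity
  have p2 : 1 + 2 * x ≠ 0 := by positivity
  have h1 : HasDerivAt (fun x : ℝ => 1 + x) 1 x := by
    simpa using (hasDerivAt_id x).const_add 1
  have h2 : HasDerivAt (fun x : ℝ => 1 + 2 * x) 2 x := by
    simpa using ((hasDerivAt_id x).const_mul 2).const_add 1
  have h3 := ((hasDerivAt_const x (2 : ℝ)).div h1 p1).sub ((hasDerivAt_const x (2 : ℝ)).div h2 p2)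
  refine h3.congr_deriv ?_
  unfold ph2
  field_simp
  ring

theorem ph2_ge {x : ℝ} (hx : 0 ≤ x) : -(1 / 12) ≤ ph2 x := by
  unfold ph2
  have p1 : 0 < (1 + x) ^ 2 := by positivity
  have p2 : 0 < (1 + 2 * x) ^ 2 := by positivity
  rw [div_sub_div _ _ p2.ne' p1.ne', le_div_iff₀ (by positivity)]
  nlinarith [sq_nonneg (x - 13 / 10), mul_nonneg hx (sq_nonneg (x - 13 / 10)),
    sq_nonneg (x * (x - 13 / 10)), mul_nonneg hx hx, sq_nonneg (x ^ 2 - 17 / 10)]

theorem ph2_le {x : ℝ} (hx : 0 ≤ x) : ph2 x ≤ 2 := by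
  unfold ph2
  have p1 : 0 < (1 + x) ^ 2 := by positivity
  have p2 : 0 < (1 + 2 * x) ^ 2 := by positivity
  rw [div_sub_div _ _ p2.ne' p1.ne', div_le_iff₀ (by positivity)]
  nlinarith [mul_nonneg hx hx, mul_nonneg (mul_nonneg hx hx) hx,
    mul_nonneg (mul_nonneg hx hx) (mul_nonneg hx hx)]

theorem ph_lower_cx : ConvexOn ℝ (Set.Ici 0) (fun x => ph x + 1 / 24 * x ^ 2) := by
  refine convexOn_of_hasDerivWithinAt2_nonneg (convex_Ici 0)
    (f' := fun x => ph1 x + 1 / 12 * x) (f'' := fun x => ph2 x + 1 / 12) ?_ ?_ ?_ ?_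
  · intro x hx
    exact ((ph_hasDerivAt hx).continuousAt.add (by fun_prop)).continuousWithinAt
  · intro x hx
    rw [interior_Ici] at hx
    refine HasDerivAt.hasDerivWithinAt (((ph_hasDerivAt (le_of_lt hx)).add
      ((hasDerivAt_pow 2 x).const_mul (1 / 24))).congr_deriv ?_)
    simp only [Nat.cast_ofNat, Nat.add_one_sub_one, pow_one]
    ring
  · intro x hx
    rw [interior_Ici] at hx
    refine HasDerivAt.hasDerivWithinAt (((ph1_hasDerivAt (le_of_lt hx)).add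
      ((hasDerivAt_id x).const_mul (1 / 12))).congr_deriv ?_)
    ring
  · intro x hx
    rw [interior_Ici] at hx
    have := ph2_ge (le_of_lt hx)
    linarith

theorem ph_upper_cx : ConvexOn ℝ (Set.Ici 0) (fun x => x ^ 2 - ph x) := by
  refine convexOn_of_hasDerivWithinAt2_nonneg (convex_Ici 0)
    (f' := fun x => 2 * x - ph1 x) (f'' := fun x => 2 - ph2 x) ?_ ?_ ?_ ?_
  · intro x hx
    exact ((by fun_prop : ContinuousAt (fun x : ℝ => x ^ 2) x).sub
      (ph_hasDerivAt hx).continuousAt).continuousWithinAt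
  · intro x hx
    rw [interior_Ici] at hx
    refine HasDerivAt.hasDerivWithinAt (((hasDerivAt_pow 2 x).sub
      (ph_hasDerivAt (le_of_lt hx))).congr_deriv ?_)
    simp only [Nat.cast_ofNat, Nat.add_one_sub_one, pow_one]
  · intro x hx
    rw [interior_Ici] at hx
    refine HasDerivAt.hasDerivWithinAt ((((hasDerivAt_id x).const_mul 2).sub
      (ph1_hasDerivAt (le_of_lt hx))).congr_deriv ?_)
    ring
  · intro x hx
    rw [interior_Ici] at hx
    have := ph2_le (le_of_lt hx)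
    linarith

theorem ph_chord_le {x y l : ℝ} (hx : 0 ≤ x) (hy : 0 ≤ y) (hl : 0 ≤ l)
    (hl1 : l ≤ 1) : ph ((1 - l) * x + l * y) ≤ (1 - l) * ph x + l * ph y +
      1 / 24 * (l * (1 - l)) * (y - x) ^ 2 := by
  have h := ph_lower_cx.2 (show x ∈ Set.Ici (0 : ℝ) from hx)
    (show y ∈ Set.Ici (0 : ℝ) from hy) (show 0 ≤ 1 - l by linarith) hl (by ring)
  simp only [smul_eq_mul] at h
  have e : ((1 - l) * x + l * y) ^ 2 = (1 - l) * x ^ 2 + l * y ^ 2 - (l * (1 - l)) * (y - x) ^ 2 := by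
    ring
  rw [e] at h
  nlinarith

theorem ph_chord_ge {x y l : ℝ} (hx : 0 ≤ x) (hy : 0 ≤ y) (hl : 0 ≤ l)
    (hl1 : l ≤ 1) : (1 - l) * ph x + l * ph y -
      (l * (1 - l)) * (y - x) ^ 2 ≤ ph ((1 - l) * x + l * y) := by
  have h := ph_upper_cx.2 (show x ∈ Set.Ici (0 : ℝ) from hx)
    (show y ∈ Set.Ici (0 : ℝ) from hy) (show 0 ≤ 1 - l by linarith) hl (by ring)
  simp only [smul_eq_mul] at h
  have e : ((1 - l) * x + l * y) ^ 2 = (1 - l) * x ^ 2 + l * y ^ 2 - (l * (1 - l)) * (y - x) ^ 2 := by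
    ring
  rw [e] at h
  nlinarith

theorem dh_hasSum {u : ℝ} (hu : 0 ≤ u) :
    HasSum (fun i : ℕ => ph (u / (((0 : ℕ) : ℝ) + 1 + i))) (dh 0 u) := by
  have h2 := (tt_summable 0 hu).hasSum
  have h3 := (tt_summable 0 (x := 2 * u) (by positivity)).hasSum
  have h4 := h3.sub (h2.mul_left 2)
  have e : (fun i : ℕ => ph (u / (((0 : ℕ) : ℝ) + 1 + i))) = fun i : ℕ =>
      tt 0 (2 * u) i - 2 * tt 0 u i := by
    funext i
    unfold ph tt
    rw [mul_div_assoc]
    ring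
  rw [e]
  exact h4

theorem dh_chord_le {u v l : ℝ} (hu : 0 ≤ u) (hv : 0 ≤ v) (hl : 0 ≤ l)
    (hl1 : l ≤ 1) : dh 0 ((1 - l) * u + l * v) ≤ (1 - l) * dh 0 u + l * dh 0 v +
      1 / 96 * 1.645 * (v - u) ^ 2 := by
  have hw : 0 ≤ (1 - l) * u + l * v := by
    have : 0 ≤ 1 - l := by linarith
    positivity
  have h1 := dh_hasSum hw
  have h2 := ((dh_hasSum hu).mul_left (1 - l)).add ((dh_hasSum hv).mul_left l)
  have h3 := (SS_summable 0 (le_refl 2)).hasSum.mul_left (1 / 24 * (l * (1 - l)) *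
    (v - u) ^ 2)
  have h4 := hasSum_le (fun i => ?_) h1 (h2.add h3)
  · refine h4.trans ?_
    have h5 : l * (1 - l) ≤ 1 / 4 := by nlinarith [sq_nonneg (l - 1 / 2)]
    have h5' : 0 ≤ l * (1 - l) := mul_nonneg hl (by linarith)
    have h6 := SS02_le
    have h7 : 0 ≤ SS 0 2 := tsum_nonneg fun i => by positivity
    have h8 : l * (1 - l) * SS 0 2 ≤ 1 / 4 * 1.645 := mul_le_mul h5 h6 h7 (by norm_num)
    have h9 : 0 ≤ 1 / 24 * (v - u) ^ 2 := by positivity
    have h10 := mul_le_mul_of_nonneg_left h8 h9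
    have e : ∑' i : ℕ, 1 / (((0 : ℕ) : ℝ) + 1 + i) ^ 2 = SS 0 2 := rfl
    rw [e]
    nlinarith
  · have p : (0 : ℝ) < ((0 : ℕ) : ℝ) + 1 + i := by positivity
    have h5 := ph_chord_le (x := u / (((0 : ℕ) : ℝ) + 1 + i))
      (y := v / (((0 : ℕ) : ℝ) + 1 + i)) (by positivity) (by positivity) hl hl1
    have e1 : ((1 - l) * u + l * v) / (((0 : ℕ) : ℝ) + 1 + i) =
        (1 - l) * (u / (((0 : ℕ) : ℝ) + 1 + i)) + l * (v / (((0 : ℕ) : ℝ) + 1 + i)) := by ring
    have e2 : (v / (((0 : ℕ) : ℝ) + 1 + i) - u / (((0 : ℕ) : ℝ) + 1 + i)) ^ 2 =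
        (v - u) ^ 2 * (1 / (((0 : ℕ) : ℝ) + 1 + i) ^ 2) := by
      rw [← sub_div, div_pow]; ring
    rw [e1]
    rw [e2] at h5
    refine h5.trans (le_of_eq ?_)
    ring

theorem dh_chord_ge {u v l : ℝ} (hu : 0 ≤ u) (hv : 0 ≤ v) (hl : 0 ≤ l)
    (hl1 : l ≤ 1) : (1 - l) * dh 0 u + l * dh 0 v -
      1 / 4 * 1.645 * (v - u) ^ 2 ≤ dh 0 ((1 - l) * u + l * v) := by
  have hw : 0 ≤ (1 - l) * u + l * v := by
    have : 0 ≤ 1 - l := by linarith
    positivity
  have h1 := dh_hasSum hw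
  have h2 := ((dh_hasSum hu).mul_left (1 - l)).add ((dh_hasSum hv).mul_left l)
  have h3 := (SS_summable 0 (le_refl 2)).hasSum.mul_left ((l * (1 - l)) *
    (v - u) ^ 2)
  have h4 := hasSum_le (fun i => ?_) (h2.sub h3) h1
  · refine le_trans ?_ h4
    have h5 : l * (1 - l) ≤ 1 / 4 := by nlinarith [sq_nonneg (l - 1 / 2)]
    have h5' : 0 ≤ l * (1 - l) := mul_nonneg hl (by linarith)
    have h6 := SS02_le
    have h7 : 0 ≤ SS 0 2 := tsum_nonneg fun i => by positivity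
    have h8 : l * (1 - l) * SS 0 2 ≤ 1 / 4 * 1.645 := mul_le_mul h5 h6 h7 (by norm_num)
    have h9 : 0 ≤ (v - u) ^ 2 := by positivity
    have h10 := mul_le_mul_of_nonneg_left h8 h9
    have e : ∑' i : ℕ, 1 / (((0 : ℕ) : ℝ) + 1 + i) ^ 2 = SS 0 2 := rfl
    rw [e]
    nlinarith
  · have p : (0 : ℝ) < ((0 : ℕ) : ℝ) + 1 + i := by positivity
    have h5 := ph_chord_ge (x := u / (((0 : ℕ) : ℝ) + 1 + i))
      (y := v / (((0 : ℕ) : ℝ) + 1 + i)) (by positivity) (by positivity) hl hl1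
    have e1 : ((1 - l) * u + l * v) / (((0 : ℕ) : ℝ) + 1 + i) =
        (1 - l) * (u / (((0 : ℕ) : ℝ) + 1 + i)) + l * (v / (((0 : ℕ) : ℝ) + 1 + i)) := by ring
    have e2 : (v / (((0 : ℕ) : ℝ) + 1 + i) - u / (((0 : ℕ) : ℝ) + 1 + i)) ^ 2 =
        (v - u) ^ 2 * (1 / (((0 : ℕ) : ℝ) + 1 + i) ^ 2) := by
      rw [← sub_div, div_pow]; ring
    rw [e1]
    rw [e2] at h5
    refine le_trans (le_of_eq ?_) h5
    ring

theorem iD_exp {u : ℝ} (hu : 0 ≤ u) : iD u = 1 / 2 * exp (dh 0 u) := by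
  rw [iD_form 0 hu]
  unfold PP
  simp

/-- the logarithm of `AA (1/u)` -/
noncomputable def lA (u : ℝ) : ℝ := dh 0 u - u * log 2

theorem AA_exp {u : ℝ} (hu : 0 < u) : AA (1 / u) = exp (lA u) := by
  unfold AA DD
  have e1 : 1 / (1 / u) = u := by field_simp
  have e2 : 2 / (1 / u) = 2 * u := by field_simp
  rw [e1, e2]
  have h := iD_exp hu.le
  unfold iD at h
  have h2 : (2 : ℝ) ^ (1 - u) = 2 * exp (-(u * log 2)) := by
    rw [sub_eq_add_neg, rpow_add (by norm_num), rpow_one, rpow_def_of_pos (by norm_num)]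
    congr 2
    ring
  have g1 : 0 < Gamma (1 + u) := Gamma_pos_of_pos (by positivity)
  have g2 : 0 < Gamma (1 + 2 * u) := Gamma_pos_of_pos (by positivity)
  have h3 : (2 : ℝ) ^ (1 - u) / (2 * Gamma (1 + u) ^ 2 / Gamma (1 + 2 * u)) =
      2 ^ (1 - u) * (Gamma (1 + 2 * u) / (2 * Gamma (1 + u) ^ 2)) := by
    field_simp
  rw [h3, h, h2]
  unfold lA
  rw [sub_eq_add_neg, exp_add]
  ring

theorem exp_gap' {a b l m : ℝ} (hm : 0 < m) (ha : m ≤ exp a) (hb : m ≤ exp b) (hl : 0 ≤ l)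
    (hl1 : l ≤ 1) : (1 - l) * exp a + l * exp b - (exp b - exp a) ^ 2 / (8 * m) ≤
      exp ((1 - l) * a + l * b) := by
  rcases le_total a b with h | h
  · refine le_trans ?_ (exp_gap h hl hl1)
    have h1 : (exp b - exp a) ^ 2 / (8 * exp a) ≤ (exp b - exp a) ^ 2 / (8 * m) :=
      div_le_div_of_nonneg_left (sq_nonneg _) (by positivity) (by linarith)
    linarith
  · have h2 := exp_gap h (l := 1 - l) (by linarith) (by linarith)
    have e1 : (1 - (1 - l)) * b + (1 - l) * a = (1 - l) * a + l * b := by ring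
    rw [e1] at h2
    refine le_trans ?_ h2
    have h1 : (exp a - exp b) ^ 2 / (8 * exp b) ≤ (exp a - exp b) ^ 2 / (8 * m) :=
      div_le_div_of_nonneg_left (sq_nonneg _) (by positivity) (by linarith)
    have e2 : (exp b - exp a) ^ 2 = (exp a - exp b) ^ 2 := by ring
    rw [e2]
    linarith

/-- from logarithms to values: two-sided chord bounds -/
theorem exp_cell {a b c l m A B e d : ℝ} (hm : 0 < m) (ha : m ≤ exp a) (hb : m ≤ exp b)
    (hl : 0 ≤ l) (hl1 : l ≤ 1) (hA : |exp a - A| ≤ e) (hB : |exp b - B| ≤ e)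
    (ha1 : exp a ≤ 1.001) (hb1 : exp b ≤ 1.001) (hab : |exp b - exp a| ≤ d)
    (hup : c ≤ (1 - l) * a + l * b + 1 / 96 * 1.645 * (1 / 100) ^ 2)
    (hlo : (1 - l) * a + l * b - 1 / 4 * 1.645 * (1 / 100) ^ 2 ≤ c) :
    (1 - l) * A + l * B - e - d ^ 2 / (8 * m) - 4.2 / 10 ^ 5 ≤ exp c ∧
      exp c ≤ (1 - l) * A + l * B + e + 1.8 / 10 ^ 6 := by
  have hA := abs_le.1 hA
  have hB := abs_le.1 hB
  have h1l : 0 ≤ 1 - l := by linarith
  have hmix1 : (1 - l) * exp a + l * exp b ≤ (1 - l) * A + l * B + e := by nlinarith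
  have hmix2 : (1 - l) * A + l * B - e ≤ (1 - l) * exp a + l * exp b := by nlinarith
  have hmix3 : (1 - l) * exp a + l * exp b ≤ 1.001 := by nlinarith
  have hmix4 : 0 ≤ (1 - l) * exp a + l * exp b := by positivity
  have hd : (exp b - exp a) ^ 2 ≤ d ^ 2 := by
    have h0 : 0 ≤ d := (abs_nonneg _).trans hab
    have := abs_le.1 hab
    nlinarith
  constructor
  · have h1 := exp_gap' hm ha hb hl hl1
    have h2 : exp ((1 - l) * a + l * b) * (1 - 1 / 4 * 1.645 * (1 / 100) ^ 2) ≤ exp c := by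
      have h3 : exp ((1 - l) * a + l * b) * exp (-(1 / 4 * 1.645 * (1 / 100) ^ 2)) ≤ exp c := by
        rw [← exp_add]
        exact exp_le_exp.2 (by linarith)
      refine le_trans ?_ h3
      apply mul_le_mul_of_nonneg_left _ (exp_pos _).le
      have := add_one_le_exp (-(1 / 4 * 1.645 * (1 / 100) ^ 2 : ℝ))
      linarith
    have h4 : exp ((1 - l) * a + l * b) ≤ 1.001 := by
      refine le_trans ?_ hmix3
      have h5 := convexOn_exp.2 (Set.mem_univ a) (Set.mem_univ b) h1l hl (by ring)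
      simpa only [smul_eq_mul] using h5
    have h6 : (exp b - exp a) ^ 2 / (8 * m) ≤ d ^ 2 / (8 * m) :=
      div_le_div_of_nonneg_right hd (by positivity)
    have h7 : exp ((1 - l) * a + l * b) * (1 / 4 * 1.645 * (1 / 100) ^ 2) ≤ 4.2 / 10 ^ 5 := by
      have := mul_le_mul_of_nonneg_right h4 (show (0 : ℝ) ≤ 1 / 4 * 1.645 * (1 / 100) ^ 2 by norm_num)
      refine this.trans ?_
      norm_num
    linarith
  · have h5 := convexOn_exp.2 (Set.mem_univ a) (Set.mem_univ b) h1l hl (by ring)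
    simp only [smul_eq_mul] at h5
    have h3 : exp c ≤ exp ((1 - l) * a + l * b) * exp (1 / 96 * 1.645 * (1 / 100) ^ 2) := by
      rw [← exp_add]
      exact exp_le_exp.2 (by linarith)
    have h8 : exp (1 / 96 * 1.645 * (1 / 100) ^ 2 : ℝ) ≤ 1 + 1.75 / 10 ^ 6 := by
      have h9 := exp_bound_div_one_sub_of_interval (x := 1 / 96 * 1.645 * (1 / 100) ^ 2)
        (by norm_num) (by norm_num)
      refine h9.trans ?_
      norm_num
    have h10 : exp c ≤ ((1 - l) * exp a + l * exp b) * (1 + 1.75 / 10 ^ 6) := by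
      refine h3.trans ?_
      exact mul_le_mul h5 h8 (exp_pos _).le hmix4
    have h11 : ((1 - l) * exp a + l * exp b) * (1.75 / 10 ^ 6) ≤ 1.8 / 10 ^ 6 := by
      have := mul_le_mul_of_nonneg_right hmix3 (show (0 : ℝ) ≤ 1.75 / 10 ^ 6 by norm_num)
      refine this.trans ?_
      norm_num
    linarith

/-- `10^10 AA(100/i)` (rounded) -/
def acL : List ℕ := [
  10000000000, 9932535152, 9868634319, 9808105461, 9750770795, 9696465501, 9645036562,
  9596341735, 9550248620, 9506633828, 9465382235, 9426386299, 9389545455, 9354765561, 9321958396,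
  9291041206, 9261936292, 9234570632, 9208875542, 9184786355, 9162242144, 9141185453, 9121562057,
  9103320748, 9086413121, 9070793400, 9056418258, 9043246660, 9031239716, 9020360551, 9010574173,
  9001847362, 8994148563, 8987447781, 8981716495, 8976927567, 8973055166, 8970074692, 8967962706,
  8966696865, 8966255865, 8966619380, 8967768011, 8969683241, 8972347379, 8975743528, 8979855535,
  8984667961, 8990166038, 8996335640, 9003163250, 9010635932, 9018741298, 9027467491, 9036803149,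
  9046737390, 9057259788, 9068360346, 9080029491, 9092258037, 9105037181, 9118358482, 9132213845,
  9146595503, 9161496010, 9176908226, 9192825294, 9209240644, 9226147972, 9243541227, 9261414610,
  9279762556, 9298579728, 9317861007, 9337601486, 9357796458, 9378441415, 9399532030, 9421064164,
  9443033844, 9465437272, 9488270807, 9511530964, 9535214412, 9559317961, 9583838563, 9608773308,
  9634119411, 9659874220, 9686035200, 9712599939, 9739566135, 9766931601, 9794694257, 9822852123,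
  9851403325, 9880346084, 9909678716, 9939399631, 9969507325, 10000000384]

def ac (i : ℕ) : ℕ := acL.getD i 0

def okA (i : ℕ) : Bool :=
  decide (2 * du i * 10 ^ 10 ≤ (ac i + 2000) * pl i) &&
  decide (ac i * pu i ≤ 2 * dl i * 10 ^ 10 + 2000 * pu i) &&
  decide (8800000000 ≤ ac i) && decide (ac i ≤ 10001000000) &&
  decide (du i ≤ 10001000000) && decide (4990000000 ≤ dl i) && decide (du i ≤ dl i + 3000)

def okB (i : ℕ) : Bool :=
  decide (ac (i + 1) ≤ ac i + 72000000) && decide (ac i ≤ ac (i + 1) + 72000000) &&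
  decide (dl (i + 1) ≤ dl i + 99400000) && decide (dl i ≤ dl (i + 1) + 99400000)

theorem okA_all : ∀ i < 101, okA i = true := by decide +kernel

theorem okB_all : ∀ i < 100, okB i = true := by decide +kernel

theorem AA_node {i : ℕ} (hi : i ≤ 100) : |exp (lA ((i : ℝ) / 100)) - (ac i : ℝ) / 10 ^ 10| ≤
    2 / 10 ^ 7 ∧ 0.88 - 2 / 10 ^ 7 ≤ exp (lA ((i : ℝ) / 100)) ∧
    exp (lA ((i : ℝ) / 100)) ≤ 1.001 := by
  have hok := okA_all i (by omega)
  simp only [okA, Bool.and_eq_true, decide_eq_true_eq] at hok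
  obtain ⟨⟨⟨⟨⟨⟨h1, h2⟩, h3⟩, h4⟩, h5⟩, h6⟩, h7⟩ := hok
  have hu : 0 ≤ (i : ℝ) / 100 := by positivity
  obtain ⟨d1, d2⟩ := iD_table hi
  obtain ⟨t1, t2⟩ := two_table hi
  have e1 : exp (lA ((i : ℝ) / 100)) * 2 ^ ((i : ℝ) / 100) = 2 * iD ((i : ℝ) / 100) := by
    rw [iD_exp hu, rpow_def_of_pos (by norm_num : (0 : ℝ) < 2), ← exp_add]
    unfold lA
    rw [show dh 0 ((i : ℝ) / 100) - (i : ℝ) / 100 * log 2 + log 2 * ((i : ℝ) / 100) =
      dh 0 ((i : ℝ) / 100) by ring]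
    ring
  set X := exp (lA ((i : ℝ) / 100)) with hX
  have hX0 : 0 < X := exp_pos _
  set P : ℝ := 2 ^ ((i : ℝ) / 100) with hP
  have hP0 : 0 < P := by positivity
  set I := iD ((i : ℝ) / 100)
  have c1 : (2 : ℝ) * du i * 10 ^ 10 ≤ ((ac i : ℝ) + 2000) * pl i := by exact_mod_cast h1
  have c2 : (ac i : ℝ) * pu i ≤ 2 * dl i * 10 ^ 10 + 2000 * pu i := by exact_mod_cast h2
  have c3 : (8800000000 : ℝ) ≤ ac i := by exact_mod_cast h3
  have c4 : (ac i : ℝ) ≤ 10001000000 := by exact_mod_cast h4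
  have hup : X ≤ ((ac i : ℝ) + 2000) / 10 ^ 10 := by
    by_contra hcon
    push Not at hcon
    have k1 : ((ac i : ℝ) + 2000) / 10 ^ 10 * ((pl i : ℝ) / 10 ^ 10) < X * P := by
      apply mul_lt_mul hcon t1 _ hX0.le
      have : (0 : ℝ) < (ac i : ℝ) + 2000 := by linarith
      have hpl : (0 : ℝ) < (pl i : ℝ) := by
        by_contra h0
        have : (pl i : ℝ) = 0 := le_antisymm (not_lt.1 h0) (Nat.cast_nonneg _)
        rw [this] at c1
        have h6' : (4990000000 : ℝ) ≤ dl i := by exact_mod_cast h6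
        have h8 : (dl i : ℝ) ≤ du i := by
          have := d1.trans d2
          rw [div_le_div_iff_of_pos_right (by norm_num)] at this
          exact this
        nlinarith
      positivity
    have k2 : X * P ≤ 2 * ((du i : ℝ) / 10 ^ 10) := by rw [e1]; linarith
    have k3 : ((ac i : ℝ) + 2000) / 10 ^ 10 * ((pl i : ℝ) / 10 ^ 10) =
        ((ac i : ℝ) + 2000) * pl i / 10 ^ 20 := by ring
    have k4 : 2 * ((du i : ℝ) / 10 ^ 10) = 2 * du i * 10 ^ 10 / 10 ^ 20 := by ring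
    rw [k3] at k1
    rw [k4] at k2
    have k5 := k1.trans_le k2
    rw [div_lt_div_iff_of_pos_right (by norm_num)] at k5
    linarith
  have hlo : ((ac i : ℝ) - 2000) / 10 ^ 10 ≤ X := by
    by_contra hcon
    push Not at hcon
    have k1 : X * P < ((ac i : ℝ) - 2000) / 10 ^ 10 * ((pu i : ℝ) / 10 ^ 10) :=
      mul_lt_mul hcon t2 hP0 (by
        apply div_nonneg _ (by norm_num)
        linarith)
    have k2 : 2 * ((dl i : ℝ) / 10 ^ 10) ≤ X * P := by rw [e1]; linarith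
    have k3 : ((ac i : ℝ) - 2000) / 10 ^ 10 * ((pu i : ℝ) / 10 ^ 10) =
        ((ac i : ℝ) - 2000) * pu i / 10 ^ 20 := by ring
    have k4 : 2 * ((dl i : ℝ) / 10 ^ 10) = 2 * dl i * 10 ^ 10 / 10 ^ 20 := by ring
    rw [k3] at k1
    rw [k4] at k2
    have k5 := k2.trans_lt k1
    rw [div_lt_div_iff_of_pos_right (by norm_num)] at k5
    linarith
  refine ⟨?_, ?_, ?_⟩
  · rw [abs_le]
    constructor
    · have : ((ac i : ℝ) - 2000) / 10 ^ 10 = (ac i : ℝ) / 10 ^ 10 - 2 / 10 ^ 7 := by ring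
      linarith
    · have : ((ac i : ℝ) + 2000) / 10 ^ 10 = (ac i : ℝ) / 10 ^ 10 + 2 / 10 ^ 7 := by ring
      linarith
  · have : ((ac i : ℝ) - 2000) / 10 ^ 10 = (ac i : ℝ) / 10 ^ 10 - 2 / 10 ^ 7 := by ring
    have c5 : (0.88 : ℝ) ≤ (ac i : ℝ) / 10 ^ 10 := by
      rw [le_div_iff₀ (by norm_num)]; linarith
    linarith
  · refine hup.trans ?_
    rw [div_le_iff₀ (by norm_num)]
    linarith

theorem iD_node {i : ℕ} (hi : i ≤ 100) :
    |exp (dh 0 ((i : ℝ) / 100) - log 2) - (dl i : ℝ) / 10 ^ 10| ≤ 3 / 10 ^ 7 ∧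
      0.499 ≤ exp (dh 0 ((i : ℝ) / 100) - log 2) ∧
      exp (dh 0 ((i : ℝ) / 100) - log 2) ≤ 1.001 := by
  have hok := okA_all i (by omega)
  simp only [okA, Bool.and_eq_true, decide_eq_true_eq] at hok
  obtain ⟨⟨⟨⟨⟨⟨h1, h2⟩, h3⟩, h4⟩, h5⟩, h6⟩, h7⟩ := hok
  have hu : 0 ≤ (i : ℝ) / 100 := by positivity
  obtain ⟨d1, d2⟩ := iD_table hi
  have e1 : iD ((i : ℝ) / 100) = exp (dh 0 ((i : ℝ) / 100) - log 2) := by
    rw [iD_exp hu, exp_sub, exp_log (by norm_num)]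
    ring
  have c5 : (du i : ℝ) ≤ 10001000000 := by exact_mod_cast h5
  have c6 : (4990000000 : ℝ) ≤ dl i := by exact_mod_cast h6
  have c7 : (du i : ℝ) ≤ dl i + 3000 := by exact_mod_cast h7
  rw [e1] at d1 d2
  have h8 : (du i : ℝ) / 10 ^ 10 ≤ (dl i : ℝ) / 10 ^ 10 + 3 / 10 ^ 7 := by
    rw [div_add' _ _ _ (by norm_num), div_le_div_iff_of_pos_right (by norm_num)]
    linarith
  refine ⟨?_, ?_, ?_⟩
  · rw [abs_le]
    constructor <;> linarith
  · refine le_trans ?_ d1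
    rw [le_div_iff₀ (by norm_num)]
    linarith
  · refine d2.trans ?_
    rw [div_le_iff₀ (by norm_num)]
    linarith

/-- `1 / D` in the cell `[i/100, (i+1)/100]` -/
theorem iD_cell {i : ℕ} (hi : i < 100) {l : ℝ} (hl : 0 ≤ l) (hl1 : l ≤ 1) :
    ((1 - l) * dl i + l * dl (i + 1)) / 10 ^ 10 - 7 / 10 ^ 5 ≤ iD (((i : ℝ) + l) / 100) ∧
      iD (((i : ℝ) + l) / 100) ≤
        ((1 - l) * dl i + l * dl (i + 1)) / 10 ^ 10 + 2.1 / 10 ^ 6 := by
  have hu : 0 ≤ (i : ℝ) / 100 := by positivity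
  have hv : 0 ≤ ((i + 1 : ℕ) : ℝ) / 100 := by positivity
  obtain ⟨a1, a2, a3⟩ := iD_node (i := i) (by omega)
  obtain ⟨b1, b2, b3⟩ := iD_node (i := i + 1) (by omega)
  have hB := okB_all i hi
  simp only [okB, Bool.and_eq_true, decide_eq_true_eq] at hB
  obtain ⟨⟨⟨k1, k2⟩, k3⟩, k4⟩ := hB
  have k3' : (dl (i + 1) : ℝ) ≤ dl i + 99400000 := by exact_mod_cast k3
  have k4' : (dl i : ℝ) ≤ dl (i + 1) + 99400000 := by exact_mod_cast k4
  have eI : iD (((i : ℝ) + l) / 100) = exp (dh 0 (((i : ℝ) + l) / 100) - log 2) := by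
    rw [iD_exp (by positivity), exp_sub, exp_log (by norm_num)]
    ring
  rw [eI]
  have e0 : ((i : ℝ) + l) / 100 = (1 - l) * ((i : ℝ) / 100) + l * (((i + 1 : ℕ) : ℝ) / 100) := by
    push_cast; ring
  have e1 : (((i + 1 : ℕ) : ℝ) / 100 - (i : ℝ) / 100) = 1 / 100 := by push_cast; ring
  have hle := dh_chord_le hu hv hl hl1
  have hge := dh_chord_ge hu hv hl hl1
  rw [e1] at hle hge
  have hab : |exp (dh 0 (((i + 1 : ℕ) : ℝ) / 100) - log 2) - exp (dh 0 ((i : ℝ) / 100) - log 2)| ≤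
      0.00995 := by
    have q1 : (dl (i + 1) : ℝ) / 10 ^ 10 ≤ (dl i : ℝ) / 10 ^ 10 + 0.00994 := by
      rw [div_add' _ _ _ (by norm_num), div_le_div_iff_of_pos_right (by norm_num)]
      linarith
    have q2 : (dl i : ℝ) / 10 ^ 10 ≤ (dl (i + 1) : ℝ) / 10 ^ 10 + 0.00994 := by
      rw [div_add' _ _ _ (by norm_num), div_le_div_iff_of_pos_right (by norm_num)]
      linarith
    have a1 := abs_le.1 a1
    have b1 := abs_le.1 b1
    rw [abs_le]
    constructor <;> linarith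
  have key := exp_cell (m := 0.499) (c := dh 0 (((i : ℝ) + l) / 100) - log 2) (l := l)
    (by norm_num) (by linarith) (by linarith) hl hl1 a1 b1 a3 b3 hab (by
      rw [e0]; linarith) (by rw [e0]; linarith)
  have e2 : ((1 - l) * (dl i : ℝ) + l * dl (i + 1)) / 10 ^ 10 =
      (1 - l) * ((dl i : ℝ) / 10 ^ 10) + l * ((dl (i + 1) : ℝ) / 10 ^ 10) := by ring
  rw [e2]
  constructor
  · refine le_trans ?_ key.1
    have : (0.00995 : ℝ) ^ 2 / (8 * 0.499) ≤ 2.5 / 10 ^ 5 := by norm_num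
    linarith
  · refine key.2.trans ?_
    linarith

/-- `AA` in the cell `[i/100, (i+1)/100]` -/
theorem AA_cell {i : ℕ} (hi : i < 100) {l : ℝ} (hl : 0 ≤ l) (hl1 : l ≤ 1) (hw : 0 < (i : ℝ) + l) :
    ((1 - l) * ac i + l * ac (i + 1)) / 10 ^ 10 - 5 / 10 ^ 5 ≤ AA (1 / (((i : ℝ) + l) / 100)) ∧
      AA (1 / (((i : ℝ) + l) / 100)) ≤
        ((1 - l) * ac i + l * ac (i + 1)) / 10 ^ 10 + 2.1 / 10 ^ 6 := by
  have hu : 0 ≤ (i : ℝ) / 100 := by positivity
  have hv : 0 ≤ ((i + 1 : ℕ) : ℝ) / 100 := by positivity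
  obtain ⟨a1, a2, a3⟩ := AA_node (i := i) (by omega)
  obtain ⟨b1, b2, b3⟩ := AA_node (i := i + 1) (by omega)
  have hB := okB_all i hi
  simp only [okB, Bool.and_eq_true, decide_eq_true_eq] at hB
  obtain ⟨⟨⟨k1, k2⟩, k3⟩, k4⟩ := hB
  have k1' : (ac (i + 1) : ℝ) ≤ ac i + 72000000 := by exact_mod_cast k1
  have k2' : (ac i : ℝ) ≤ ac (i + 1) + 72000000 := by exact_mod_cast k2
  rw [AA_exp (by positivity)]
  have e0 : ((i : ℝ) + l) / 100 = (1 - l) * ((i : ℝ) / 100) + l * (((i + 1 : ℕ) : ℝ) / 100) := by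
    push_cast; ring
  have e1 : (((i + 1 : ℕ) : ℝ) / 100 - (i : ℝ) / 100) = 1 / 100 := by push_cast; ring
  have hle := dh_chord_le hu hv hl hl1
  have hge := dh_chord_ge hu hv hl hl1
  rw [e1] at hle hge
  have hab : |exp (lA (((i + 1 : ℕ) : ℝ) / 100)) - exp (lA ((i : ℝ) / 100))| ≤ 0.0073 := by
    have q1 : (ac (i + 1) : ℝ) / 10 ^ 10 ≤ (ac i : ℝ) / 10 ^ 10 + 0.0072 := by
      rw [div_add' _ _ _ (by norm_num), div_le_div_iff_of_pos_right (by norm_num)]
      linarith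
    have q2 : (ac i : ℝ) / 10 ^ 10 ≤ (ac (i + 1) : ℝ) / 10 ^ 10 + 0.0072 := by
      rw [div_add' _ _ _ (by norm_num), div_le_div_iff_of_pos_right (by norm_num)]
      linarith
    have a1 := abs_le.1 a1
    have b1 := abs_le.1 b1
    rw [abs_le]
    constructor <;> linarith
  have key := exp_cell (m := 0.87) (c := lA (((i : ℝ) + l) / 100)) (l := l) (by norm_num)
    (by linarith) (by linarith) hl hl1 a1 b1 a3 b3 hab (by
      rw [e0]; unfold lA; linarith) (by rw [e0]; unfold lA; linarith)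
  have e2 : ((1 - l) * (ac i : ℝ) + l * ac (i + 1)) / 10 ^ 10 =
      (1 - l) * ((ac i : ℝ) / 10 ^ 10) + l * ((ac (i + 1) : ℝ) / 10 ^ 10) := by ring
  rw [e2]
  constructor
  · refine le_trans ?_ key.1
    have : (0.0073 : ℝ) ^ 2 / (8 * 0.87) ≤ 7.7 / 10 ^ 6 := by norm_num
    linarith
  · refine key.2.trans ?_
    linarith

end LpSec.W
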