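import Mathlib
import Pool.Agent.Lib.MP_1dbab3_gt.WBase
import Pool.Agent.Lib.MP_1dbab3_gt.W.Two
import Pool.Agent.Lib.MP_1dbab3_gt.W.DCell

/-!
# Upper bounds of `T2 α 6` on cells

On a cell of width `1 / D` the function `Phi` is a chord of two polynomials up to an error polynomial; the
integral of `Phi ^ 2` over `[0, 6]` is then bounded below, and `T2 α 6 = AA α / 2 - ∫_0^6 Phi ^ 2`.
-/

open Real MeasureTheory Set Filter Topology intervalIntegral

namespace LpSec.W

/-! ## an even majorant of the error polynomial -/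

/-- even majorant (odd powers are replaced by the neighbouring even ones) -/
def evE : ℕ → List ℕ → List ℕ
  | c, [] => [c]
  | c, [a] => [Nat.add a c, 0, Nat.add (Nat.div 0 12) 0]
  | c, a :: b :: t => Nat.add (Nat.add a c) (Nat.mul 3 b) :: 0 :: evE (Nat.add (Nat.div b 12) 1) t

theorem evE_le {x : ℝ} (hx : 0 ≤ x) : ∀ (c : ℕ) (e : List ℕ),
    (c : ℝ) + posE e x ≤ altE (evE c e) x
  | c, [] => by simp [evE, posE, altE]
  | c, [a] => by
    show (c : ℝ) + ((a : ℝ) + x * 0) ≤ ((a + c : ℕ) : ℝ) -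
      x * (((0 : ℕ) : ℝ) - x * (((0 / 12 + 0 : ℕ) : ℝ) - x * 0))
    push_cast
    simp
    linarith
  | c, a :: b :: t => by
    have ih := evE_le hx (b / 12 + 1) t
    show (c : ℝ) + ((a : ℝ) + x * ((b : ℝ) + x * posE t x)) ≤ ((a + c + 3 * b : ℕ) : ℝ) -
      x * (((0 : ℕ) : ℝ) - x * altE (evE (b / 12 + 1) t) x)
    have h1 : (b : ℝ) / 12 ≤ ((b / 12 + 1 : ℕ) : ℝ) := by
      have h2 : b < 12 * (b / 12 + 1) := by
        have := Nat.div_add_mod b 12
        have := Nat.mod_lt b (show 0 < 12 by norm_num)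
        omega
      have h3 : (b : ℝ) < 12 * ((b / 12 + 1 : ℕ) : ℝ) := by exact_mod_cast h2
      linarith
    have h2 := mul_le_mul_of_nonneg_left ih (mul_nonneg hx hx)
    have h3 := mul_le_mul_of_nonneg_left h1 (mul_nonneg hx hx)
    have h4 : 0 ≤ (b : ℝ) / 12 * (x - 6) ^ 2 := by positivity
    push_cast at h2 h3 ⊢
    nlinarith

/-! ## the integral -/

/-- `∫_0^T Phi^2` from below -/
theorem sq_int_ge {T q : ℝ} (hT : 0 ≤ T) (hq : 0 < q) {α l : ℝ} (hα : 1 < α)
    {A B E : List ℕ} (hP : ∀ s, 0 ≤ s → s ≤ T →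
      |Phi α s - ((1 - l) * altE A s + l * altE B s) / 100000000000000000000| ≤
      altE E s / 100000000000000000000) :
    (1 - l) ^ 2 * ((∫ s in (0 : ℝ)..T, altE A s * altE A s) / 100000000000000000000 ^ 2 -
        q * ((∫ s in (0 : ℝ)..T, altE A s * altE A s * altE E s) / 100000000000000000000 ^ 3)) +
      2 * l * (1 - l) * ((∫ s in (0 : ℝ)..T, altE A s * altE B s) / 100000000000000000000 ^ 2 -
        q * ((∫ s in (0 : ℝ)..T, altE A s * altE B s * altE E s) / 100000000000000000000 ^ 3)) +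
      l ^ 2 * ((∫ s in (0 : ℝ)..T, altE B s * altE B s) / 100000000000000000000 ^ 2 -
        q * ((∫ s in (0 : ℝ)..T, altE B s * altE B s * altE E s) / 100000000000000000000 ^ 3)) -
      (∫ s in (0 : ℝ)..T, altE E s) / 100000000000000000000 / q ≤
    ∫ s in (0 : ℝ)..T, Phi α s ^ 2 := by
  have cA := altE_continuous A
  have cB := altE_continuous B
  have cE := altE_continuous E
  have cP : ContinuousOn (fun s => Phi α s ^ 2) (uIcc 0 T) := by
    rw [uIcc_of_le hT]
    exact ((Phi_continuousOn hα).mono Icc_subset_Ici_self).pow 2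
  have iAA : IntervalIntegrable (fun s => altE A s * altE A s) volume 0 T :=
    (cA.mul cA).intervalIntegrable _ _
  have iAB : IntervalIntegrable (fun s => altE A s * altE B s) volume 0 T :=
    (cA.mul cB).intervalIntegrable _ _
  have iBB : IntervalIntegrable (fun s => altE B s * altE B s) volume 0 T :=
    (cB.mul cB).intervalIntegrable _ _
  have iAAE : IntervalIntegrable (fun s => altE A s * altE A s * altE E s) volume 0 T :=
    ((cA.mul cA).mul cE).intervalIntegrable _ _
  have iABE : IntervalIntegrable (fun s => altE A s * altE B s * altE E s) volume 0 T :=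
    ((cA.mul cB).mul cE).intervalIntegrable _ _
  have iBBE : IntervalIntegrable (fun s => altE B s * altE B s * altE E s) volume 0 T :=
    ((cB.mul cB).mul cE).intervalIntegrable _ _
  have iE : IntervalIntegrable (fun s => altE E s) volume 0 T := cE.intervalIntegrable _ _
  set S : ℝ := 100000000000000000000 with hS
  have hS0 : 0 < S := by rw [hS]; norm_num
  -- the lower function
  have hlow : ∀ s ∈ Icc (0 : ℝ) T,
      (1 - l) ^ 2 / S ^ 2 * (altE A s * altE A s) + 2 * l * (1 - l) / S ^ 2 * (altE A s * altE B s) +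
      l ^ 2 / S ^ 2 * (altE B s * altE B s) -
      (q * (1 - l) ^ 2 / S ^ 3 * (altE A s * altE A s * altE E s) +
        2 * q * l * (1 - l) / S ^ 3 * (altE A s * altE B s * altE E s) +
        q * l ^ 2 / S ^ 3 * (altE B s * altE B s * altE E s)) - 1 / (q * S) * altE E s ≤
      Phi α s ^ 2 := by
    intro s hs
    have h := hP s hs.1 hs.2
    set f : ℝ := ((1 - l) * altE A s + l * altE B s) / S with hf
    set e : ℝ := altE E s / S with he
    obtain ⟨h1, h2⟩ := abs_le.1 h
    have he0 : 0 ≤ e := (abs_nonneg _).trans h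
    have e1 : (1 - l) ^ 2 / S ^ 2 * (altE A s * altE A s) +
        2 * l * (1 - l) / S ^ 2 * (altE A s * altE B s) +
        l ^ 2 / S ^ 2 * (altE B s * altE B s) -
        (q * (1 - l) ^ 2 / S ^ 3 * (altE A s * altE A s * altE E s) +
          2 * q * l * (1 - l) / S ^ 3 * (altE A s * altE B s * altE E s) +
          q * l ^ 2 / S ^ 3 * (altE B s * altE B s * altE E s)) - 1 / (q * S) * altE E s =
        f ^ 2 - e * (q * f ^ 2 + 1 / q) := by
      rw [hf, he]
      field_simp
      ring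
    rw [e1]
    have h3 : -(e * (2 * |f|)) ≤ 2 * f * (Phi α s - f) := by
      have h4 : |2 * f * (Phi α s - f)| ≤ 2 * |f| * e := by
        rw [abs_mul, abs_mul, abs_two]
        exact mul_le_mul_of_nonneg_left h (by positivity)
      have := (abs_le.1 h4).1
      linarith
    have h5 : 2 * |f| ≤ q * f ^ 2 + 1 / q := by
      have h6 : |f| ^ 2 = f ^ 2 := sq_abs f
      have h9 : q * f ^ 2 + 1 / q - 2 * |f| = (q * |f| - 1) ^ 2 / q := by
        rw [← h6]
        field_simp
        ring
      have h10 : 0 ≤ (q * |f| - 1) ^ 2 / q := by positivity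
      linarith
    have h7 := mul_le_mul_of_nonneg_left h5 he0
    have h8 := sq_nonneg (Phi α s - f)
    nlinarith
  have hint := integral_mono_on (μ := volume) (a := (0 : ℝ)) (b := T) hT ?_
    cP.intervalIntegrable hlow
  · refine le_trans (le_of_eq ?_) hint
    rw [intervalIntegral.integral_sub, intervalIntegral.integral_sub,
      intervalIntegral.integral_add, intervalIntegral.integral_add,
      intervalIntegral.integral_add, intervalIntegral.integral_add,
      intervalIntegral.integral_const_mul, intervalIntegral.integral_const_mul,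
      intervalIntegral.integral_const_mul, intervalIntegral.integral_const_mul,
      intervalIntegral.integral_const_mul, intervalIntegral.integral_const_mul,
      intervalIntegral.integral_const_mul]
    · field_simp
      ring
    all_goals
      first
        | exact (iAAE.const_mul _)
        | exact (iABE.const_mul _)
        | exact (iBBE.const_mul _)
        | exact (iAA.const_mul _)
        | exact (iAB.const_mul _)
        | exact (iBB.const_mul _)
        | exact (iE.const_mul _)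
        | exact ((iAAE.const_mul _).add (iABE.const_mul _))
        | exact (((iAAE.const_mul _).add (iABE.const_mul _)).add (iBBE.const_mul _))
        | exact ((iAA.const_mul _).add (iAB.const_mul _))
        | exact (((iAA.const_mul _).add (iAB.const_mul _)).add (iBB.const_mul _))
        | exact ((((iAA.const_mul _).add (iAB.const_mul _)).add (iBB.const_mul _)).sub
            (((iAAE.const_mul _).add (iABE.const_mul _)).add (iBBE.const_mul _)))
  · refine Continuous.intervalIntegrable ?_ _ _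
    fun_prop

/-- the data of a `T2` check (scale `10^9`) -/
def t2Chk (L2 L3 q : ℕ) (A B E : List ℕ) (i00 i01 i11 j00 j01 j11 h a0 a1 t : ℕ) : Bool :=
  Nat.blt 0 q && (
  geChk (Nat.pow 2 150) L2 6 1 0 [A, A] (Nat.mul i00 10000000000000000000000000000000000000000) 1000000000 &&
  (geChk (Nat.pow 2 150) L2 6 1 0 [A, B] (Nat.mul i01 10000000000000000000000000000000000000000) 1000000000 &&
  (geChk (Nat.pow 2 150) L2 6 1 0 [B, B] (Nat.mul i11 10000000000000000000000000000000000000000) 1000000000 &&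
  (leChk (Nat.pow 2 220) L3 6 1 0 [A, A, E] (Nat.mul j00 1000000000000000000000000000000000000000000000000000000000000) 1000000000 &&
  (leChk (Nat.pow 2 220) L3 6 1 0 [A, B, E] (Nat.mul j01 1000000000000000000000000000000000000000000000000000000000000) 1000000000 &&
  (leChk (Nat.pow 2 220) L3 6 1 0 [B, B, E] (Nat.mul j11 1000000000000000000000000000000000000000000000000000000000000) 1000000000 &&
  (leChk (Nat.pow 2 100) L3 6 1 0 [E] (Nat.mul h 100000000000000000000) 1000000000 &&
  (Nat.ble (q * a0 + q * q * j00 + h) (q * t + q * i00) &&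
  (Nat.ble (q * (a0 + a1) + 2 * (q * q * j01) + 2 * h) (2 * (q * t) + 2 * (q * i01)) &&
   Nat.ble (q * a1 + q * q * j11 + h) (q * t + q * i11))))))))))

theorem ge_two {Bs Lc n : ℕ} {A B : List ℕ} (h : geChk Bs Lc 6 1 0 [A, B] n 1000000000 = true) :
    (n : ℝ) / 1000000000 ≤ ∫ s in (0 : ℝ)..6, altE A s * altE B s := by
  have h1 := ge_of_chk h
  have e1 : ((6 : ℕ) : ℝ) / ((1 : ℕ) : ℝ) = 6 := by norm_num
  rw [e1] at h1
  simp only [List.map_cons, List.map_nil, List.prod_cons, List.prod_nil, mul_one, pow_zero,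
    one_mul] at h1
  rwa [Nat.cast_ofNat] at h1

theorem le_three {Bs Lc n : ℕ} {A B E : List ℕ}
    (h : leChk Bs Lc 6 1 0 [A, B, E] n 1000000000 = true) :
    ∫ s in (0 : ℝ)..6, altE A s * altE B s * altE E s ≤ (n : ℝ) / 1000000000 := by
  have h1 := le_of_chk h
  have e1 : ((6 : ℕ) : ℝ) / ((1 : ℕ) : ℝ) = 6 := by norm_num
  rw [e1] at h1
  simp only [List.map_cons, List.map_nil, List.prod_cons, List.prod_nil, mul_one, pow_zero,
    one_mul, ← mul_assoc] at h1
  rwa [Nat.cast_ofNat] at h1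

theorem le_one' {Bs Lc n : ℕ} {E : List ℕ}
    (h : leChk Bs Lc 6 1 0 [E] n 1000000000 = true) :
    ∫ s in (0 : ℝ)..6, altE E s ≤ (n : ℝ) / 1000000000 := by
  have h1 := le_of_chk h
  have e1 : ((6 : ℕ) : ℝ) / ((1 : ℕ) : ℝ) = 6 := by norm_num
  rw [e1] at h1
  simp only [List.map_cons, List.map_nil, List.prod_cons, List.prod_nil, mul_one, pow_zero,
    one_mul] at h1
  rwa [Nat.cast_ofNat] at h1

theorem t2_sound {L2 L3 q : ℕ} {A B E : List ℕ} {i00 i01 i11 j00 j01 j11 h a0 a1 t : ℕ}
    (hc : t2Chk L2 L3 q A B E i00 i01 i11 j00 j01 j11 h a0 a1 t = true) {α l : ℝ} (hα : 1 < α)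
    (hl : 0 ≤ l) (hl1 : l ≤ 1)
    (hP : ∀ s, 0 ≤ s → s ≤ 6 →
      |Phi α s - ((1 - l) * altE A s + l * altE B s) / 100000000000000000000| ≤
      altE E s / 100000000000000000000)
    (hA : AA α / 2 ≤ ((1 - l) * a0 + l * a1) / 1000000000) :
    T2 α 6 ≤ (t : ℝ) / 1000000000 := by
  have hq : 0 < q := by
    unfold t2Chk at hc
    rw [Bool.and_eq_true, Nat.blt_eq] at hc
    exact hc.1
  have hq' : (0 : ℝ) < q := by exact_mod_cast hq
  have key := sq_int_ge (T := 6) (by norm_num) hq' hα hP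
  rw [T2_eq hα (by norm_num)]
  unfold t2Chk at hc
  simp only [Bool.and_eq_true] at hc
  obtain ⟨c0, c1, c2, c3, c4, c5, c6, c7, c8, c9, c10⟩ := hc
  have d1 := ge_two c1
  have d2 := ge_two c2
  have d3 := ge_two c3
  have d4 := le_three c4
  have d5 := le_three c5
  have d6 := le_three c6
  have d7 := le_one' c7
  rw [Nat.ble_eq] at c8 c9 c10
  have k8 := (Nat.cast_le (α := ℝ)).2 c8
  have k9 := (Nat.cast_le (α := ℝ)).2 c9
  have k10 := (Nat.cast_le (α := ℝ)).2 c10
  clear c0 c1 c2 c3 c4 c5 c6 c7 c8 c9 c10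
  set I00 := ∫ s in (0 : ℝ)..6, altE A s * altE A s
  set I01 := ∫ s in (0 : ℝ)..6, altE A s * altE B s
  set I11 := ∫ s in (0 : ℝ)..6, altE B s * altE B s
  set J00 := ∫ s in (0 : ℝ)..6, altE A s * altE A s * altE E s
  set J01 := ∫ s in (0 : ℝ)..6, altE A s * altE B s * altE E s
  set J11 := ∫ s in (0 : ℝ)..6, altE B s * altE B s * altE E s
  set H := ∫ s in (0 : ℝ)..6, altE E s
  have q2 : ∀ (n : ℕ) (I : ℝ), ((Nat.mul n 10000000000000000000000000000000000000000 : ℕ) : ℝ) /
      1000000000 ≤ I → (n : ℝ) / 1000000000 ≤ I / 100000000000000000000 ^ 2 := by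
    intro n I hI
    have e : ((Nat.mul n 10000000000000000000000000000000000000000 : ℕ) : ℝ) =
        (n : ℝ) * 10000000000000000000000000000000000000000 := by
      show ((n * 10000000000000000000000000000000000000000 : ℕ) : ℝ) = _
      push_cast
      ring
    rw [e] at hI
    rw [le_div_iff₀ (by norm_num)]
    refine le_trans (le_of_eq ?_) hI
    ring
  have q3 : ∀ (n : ℕ) (I : ℝ), I ≤
      ((Nat.mul n 1000000000000000000000000000000000000000000000000000000000000 : ℕ) : ℝ) /
      1000000000 → I / 100000000000000000000 ^ 3 ≤ (n : ℝ) / 1000000000 := by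
    intro n I hI
    have e : ((Nat.mul n 1000000000000000000000000000000000000000000000000000000000000 : ℕ) : ℝ) =
        (n : ℝ) * 1000000000000000000000000000000000000000000000000000000000000 := by
      show ((n * 1000000000000000000000000000000000000000000000000000000000000 : ℕ) : ℝ) = _
      push_cast
      ring
    rw [e] at hI
    rw [div_le_iff₀ (by norm_num)]
    refine hI.trans (le_of_eq ?_)
    ring
  have q1 : H / 100000000000000000000 ≤ (h : ℝ) / 1000000000 := by
    have e : ((Nat.mul h 100000000000000000000 : ℕ) : ℝ) = (h : ℝ) * 100000000000000000000 := by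
      show ((h * 100000000000000000000 : ℕ) : ℝ) = _
      push_cast
      ring
    rw [e] at d7
    rw [div_le_iff₀ (by norm_num)]
    refine d7.trans (le_of_eq ?_)
    ring
  have e1 := q2 _ _ d1
  have e2 := q2 _ _ d2
  have e3 := q2 _ _ d3
  have e4 := q3 _ _ d4
  have e5 := q3 _ _ d5
  have e6 := q3 _ _ d6
  push_cast at k8 k9 k10
  have h1l : 0 ≤ 1 - l := by linarith
  have w1 : 0 ≤ (1 - l) ^ 2 := by positivity
  have w2 : 0 ≤ 2 * l * (1 - l) := by positivity
  have w3 : 0 ≤ l ^ 2 := by positivity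
  have f1 : (a0 : ℝ) / 1000000000 - (t : ℝ) / 1000000000 + (h : ℝ) / 1000000000 / q ≤
      I00 / 100000000000000000000 ^ 2 - q * (J00 / 100000000000000000000 ^ 3) := by
    have : (a0 : ℝ) / 1000000000 - (t : ℝ) / 1000000000 + (h : ℝ) / 1000000000 / q ≤
      (i00 : ℝ) / 1000000000 - q * ((j00 : ℝ) / 1000000000) := by
      have e8 : ((i00 : ℝ) / 1000000000 - q * ((j00 : ℝ) / 1000000000)) -
          ((a0 : ℝ) / 1000000000 - (t : ℝ) / 1000000000 + (h : ℝ) / 1000000000 / q) =
          ((q * t + q * i00) - (q * a0 + q * q * j00 + h)) / (1000000000 * q) := by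
        field_simp
        ring
      have e9 : 0 ≤ (((q : ℝ) * t + q * i00) - (q * a0 + q * q * j00 + h)) / (1000000000 * q) :=
        div_nonneg (by linarith) (by positivity)
      linarith
    have := mul_le_mul_of_nonneg_left e4 hq'.le
    linarith
  have f2 : ((a0 : ℝ) + a1) / 1000000000 / 2 - (t : ℝ) / 1000000000 + (h : ℝ) / 1000000000 / q ≤
      I01 / 100000000000000000000 ^ 2 - q * (J01 / 100000000000000000000 ^ 3) := by
    have : ((a0 : ℝ) + a1) / 1000000000 / 2 - (t : ℝ) / 1000000000 + (h : ℝ) / 1000000000 / q ≤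
      (i01 : ℝ) / 1000000000 - q * ((j01 : ℝ) / 1000000000) := by
      have e8 : ((i01 : ℝ) / 1000000000 - q * ((j01 : ℝ) / 1000000000)) -
          (((a0 : ℝ) + a1) / 1000000000 / 2 - (t : ℝ) / 1000000000 + (h : ℝ) / 1000000000 / q) =
          ((2 * (q * t) + 2 * (q * i01)) - (q * (a0 + a1) + 2 * (q * q * j01) + 2 * h)) /
            (2 * (1000000000 * q)) := by
        field_simp
        ring
      have e9 : 0 ≤ ((2 * ((q : ℝ) * t) + 2 * (q * i01)) -
          (q * (a0 + a1) + 2 * (q * q * j01) + 2 * h)) / (2 * (1000000000 * q)) :=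
        div_nonneg (by linarith) (by positivity)
      linarith
    have := mul_le_mul_of_nonneg_left e5 hq'.le
    linarith
  have f3 : (a1 : ℝ) / 1000000000 - (t : ℝ) / 1000000000 + (h : ℝ) / 1000000000 / q ≤
      I11 / 100000000000000000000 ^ 2 - q * (J11 / 100000000000000000000 ^ 3) := by
    have : (a1 : ℝ) / 1000000000 - (t : ℝ) / 1000000000 + (h : ℝ) / 1000000000 / q ≤
      (i11 : ℝ) / 1000000000 - q * ((j11 : ℝ) / 1000000000) := by
      have e8 : ((i11 : ℝ) / 1000000000 - q * ((j11 : ℝ) / 1000000000)) -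
          ((a1 : ℝ) / 1000000000 - (t : ℝ) / 1000000000 + (h : ℝ) / 1000000000 / q) =
          ((q * t + q * i11) - (q * a1 + q * q * j11 + h)) / (1000000000 * q) := by
        field_simp
        ring
      have e9 : 0 ≤ (((q : ℝ) * t + q * i11) - (q * a1 + q * q * j11 + h)) / (1000000000 * q) :=
        div_nonneg (by linarith) (by positivity)
      linarith
    have := mul_le_mul_of_nonneg_left e6 hq'.le
    linarith
  have q1' := div_le_div_of_nonneg_right q1 hq'.le
  have g1 := mul_le_mul_of_nonneg_left f1 w1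
  have g2 := mul_le_mul_of_nonneg_left f2 w2
  have g3 := mul_le_mul_of_nonneg_left f3 w3
  have e7 : (1 - l) ^ 2 * ((a0 : ℝ) / 1000000000 - (t : ℝ) / 1000000000 +
        (h : ℝ) / 1000000000 / q) +
      2 * l * (1 - l) * (((a0 : ℝ) + a1) / 1000000000 / 2 - (t : ℝ) / 1000000000 +
        (h : ℝ) / 1000000000 / q) +
      l ^ 2 * ((a1 : ℝ) / 1000000000 - (t : ℝ) / 1000000000 + (h : ℝ) / 1000000000 / q) =
      ((1 - l) * a0 + l * a1) / 1000000000 - (t : ℝ) / 1000000000 +
        (h : ℝ) / 1000000000 / q := by ring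
  linarith

/-! ## segments of cells of width `1 / 400` -/

/-- data of a cell (scale `10^9`); `t` is the bound of `T2 α 6` -/
structure T2D where
  i00 : ℕ
  i01 : ℕ
  i11 : ℕ
  j00 : ℕ
  j01 : ℕ
  j11 : ℕ
  h : ℕ
  a0 : ℕ
  a1 : ℕ
  t : ℕ
  q : ℕ

instance : Inhabited T2D := ⟨⟨0, 0, 0, 0, 0, 0, 0, 0, 0, 0, 0⟩⟩

/-- check of the values of `AA / 2` at the ends of the cell `[i/400, (i+1)/400]` -/
def aOk (i a0 a1 : ℕ) : Bool :=
  Nat.ble ((4 - i % 4) * ac (i / 4) + i % 4 * ac (i / 4 + 1) + 84000) (80 * a0) &&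
  Nat.ble ((3 - i % 4) * ac (i / 4) + (i % 4 + 1) * ac (i / 4 + 1) + 84000) (80 * a1)

theorem aOk_sound {i a0 a1 : ℕ} (hi : i < 400) (h : aOk i a0 a1 = true) {l : ℝ} (hl : 0 ≤ l)
    (hl1 : l ≤ 1) (hw : 0 < (i : ℝ) + l) :
    AA (1 / (((i : ℝ) + l) / 400)) / 2 ≤ ((1 - l) * a0 + l * a1) / 1000000000 := by
  unfold aOk at h
  simp only [Bool.and_eq_true, Nat.ble_eq] at h
  have hr : i % 4 < 4 := Nat.mod_lt _ (by norm_num)
  have hdm : 4 * (i / 4) + i % 4 = i := Nat.div_add_mod i 4
  have hI : i / 4 < 100 := by omega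
  set I := i / 4 with hIdef
  set r := i % 4 with hrdef
  have hdm' : 4 * (I : ℝ) + r = i := by exact_mod_cast hdm
  have hr' : (r : ℝ) + 1 ≤ 4 := by exact_mod_cast hr
  have hr0 : (0 : ℝ) ≤ r := Nat.cast_nonneg _
  have h1 := (Nat.cast_le (α := ℝ)).2 h.1
  have h2 := (Nat.cast_le (α := ℝ)).2 h.2
  have e4 : ((4 - r : ℕ) : ℝ) = 4 - (r : ℝ) := by rw [Nat.cast_sub (by omega)]; norm_num
  have e3 : ((3 - r : ℕ) : ℝ) = 3 - (r : ℝ) := by rw [Nat.cast_sub (by omega)]; norm_num
  push_cast [e4, e3] at h1 h2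
  have key := (AA_cell hI (l := ((r : ℝ) + l) / 4) (by positivity)
    (by rw [div_le_one (by norm_num)]; linarith) (by linarith)).2
  have e1 : ((I : ℝ) + ((r : ℝ) + l) / 4) / 100 = ((i : ℝ) + l) / 400 := by
    rw [← hdm']
    ring
  rw [e1] at key
  have h1l : 0 ≤ 1 - l := by linarith
  have g1 := mul_le_mul_of_nonneg_left h1 h1l
  have g2 := mul_le_mul_of_nonneg_left h2 hl
  have e5 : ((1 - ((r : ℝ) + l) / 4) * (ac I : ℝ) + ((r : ℝ) + l) / 4 * (ac (I + 1) : ℝ)) * 4 =
      (1 - l) * ((4 - (r : ℝ)) * ac I + r * ac (I + 1)) +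
        l * ((3 - (r : ℝ)) * ac I + ((r : ℝ) + 1) * ac (I + 1)) := by ring
  have e6 : ((1 - ((r : ℝ) + l) / 4) * (ac I : ℝ) + ((r : ℝ) + l) / 4 * (ac (I + 1) : ℝ)) * 4 +
      84000 ≤ 80 * ((1 - l) * a0 + l * a1) := by
    rw [e5]
    linarith
  have e7 : AA (1 / (((i : ℝ) + l) / 400)) * 40000000000 ≤
      ((1 - ((r : ℝ) + l) / 4) * (ac I : ℝ) + ((r : ℝ) + l) / 4 * (ac (I + 1) : ℝ)) * 4 + 84000 := by
    have := mul_le_mul_of_nonneg_right key (show (0 : ℝ) ≤ 40000000000 by norm_num)
    refine this.trans (le_of_eq ?_)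
    ring
  linarith

/-- check of consecutive cells -/
def t2Seg (L2 L3 : ℕ) : ℕ → List (List ℕ) → List (List ℕ) → List T2D → Bool
  | i, x :: y :: ps, e :: es, d :: ds => aOk i d.a0 d.a1 &&
      (t2Chk L2 L3 d.q x y (evE 0 e) d.i00 d.i01 d.i11 d.j00 d.j01 d.j11 d.h d.a0 d.a1 d.t &&
        t2Seg L2 L3 (i + 1) (y :: ps) es ds)
  | _, _, _, [] => true
  | _, _, _, _ => false

theorem t2Seg_sound {L2 L3 : ℕ} : ∀ (ds : List T2D) (i : ℕ) (ps es : List (List ℕ)),
    t2Seg L2 L3 i ps es ds = true → ∀ j, j < ds.length →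
    aOk (i + j) (ds.getD j default).a0 (ds.getD j default).a1 = true ∧
    t2Chk L2 L3 (ds.getD j default).q (ps.getD j []) (ps.getD (j + 1) []) (evE 0 (es.getD j []))
      (ds.getD j default).i00 (ds.getD j default).i01 (ds.getD j default).i11
      (ds.getD j default).j00 (ds.getD j default).j01 (ds.getD j default).j11
      (ds.getD j default).h (ds.getD j default).a0 (ds.getD j default).a1
      (ds.getD j default).t = true
  | [], _, _, _, _, j, hj => absurd hj (Nat.not_lt_zero j)
  | d :: ds, i, [], es, h, _, _ => by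
    have h' : false = true := h
    exact absurd h' (by decide)
  | d :: ds, i, [x], es, h, _, _ => by
    have h' : false = true := h
    exact absurd h' (by decide)
  | d :: ds, i, x :: y :: ps, [], h, _, _ => by
    have h' : false = true := h
    exact absurd h' (by decide)
  | d :: ds, i, x :: y :: ps, e :: es, h, j, hj => by
    have h' : (aOk i d.a0 d.a1 &&
      (t2Chk L2 L3 d.q x y (evE 0 e) d.i00 d.i01 d.i11 d.j00 d.j01 d.j11 d.h d.a0 d.a1 d.t &&
        t2Seg L2 L3 (i + 1) (y :: ps) es ds)) = true := h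
    rw [Bool.and_eq_true, Bool.and_eq_true] at h'
    cases j with
    | zero => exact ⟨h'.1, h'.2.1⟩
    | succ j =>
      have := t2Seg_sound ds (i + 1) (y :: ps) es h'.2.2 j (Nat.lt_of_succ_lt_succ hj)
      have e1 : i + 1 + j = i + (j + 1) := by omega
      rw [e1] at this
      exact this

/-- **`T2 α 6` on a cell of a segment**. -/
theorem t2Seg_cell {L2 L3 a : ℕ} {ds : List T2D} {ps es : List (List ℕ)}
    (h : t2Seg L2 L3 a ps es ds = true) {j : ℕ} (hj : j < ds.length) (haj : a + j + 1 < 400)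
    {l : ℝ} (hl : 0 ≤ l) (hl1 : l ≤ 1) (hw : 0 < ((a + j : ℕ) : ℝ) + l)
    (hP : ∀ s, 0 ≤ s → s ≤ 6 → |Phi (1 / ((((a + j : ℕ) : ℝ) + l) / 400)) s -
      ((1 - l) * altE (ps.getD j []) s + l * altE (ps.getD (j + 1) []) s) / 100000000000000000000| ≤
      posE (es.getD j []) s / 100000000000000000000) :
    T2 (1 / ((((a + j : ℕ) : ℝ) + l) / 400)) 6 ≤ ((ds.getD j default).t : ℝ) / 1000000000 := by
  obtain ⟨h1, h2⟩ := t2Seg_sound ds a ps es h j hj
  have hlt : ((a + j : ℕ) : ℝ) + 1 < 400 := by exact_mod_cast haj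
  have hα : 1 < 1 / ((((a + j : ℕ) : ℝ) + l) / 400) := by
    rw [one_div_div, lt_div_iff₀ hw]
    linarith
  refine t2_sound h2 hα hl hl1 (fun s hs hs6 => (hP s hs hs6).trans ?_)
    (aOk_sound (by omega) h1 hl hl1 hw)
  have := evE_le hs 0 (es.getD j [])
  rw [Nat.cast_zero, zero_add] at this
  exact div_le_div_of_nonneg_right this (by norm_num)

end LpSec.W
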