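import Mathlib
import Pool.Agent.Lib.MP_1dbab3_gt.WBox

/-!
# The derivatives of `Phi`: series, truncation
-/

open Real MeasureTheory Set Filter Topology

namespace LpSec

variable {α : ℝ}

/-- Taylor polynomial of `K ν` with remainder bounded by the first omitted term. -/
theorem K_taylor : ∀ (n ν : ℕ) {u : ℝ}, 0 ≤ u →
    |K ν u - ∑ k ∈ Finset.range n, (-1) ^ k * u ^ k / ((k.factorial : ℝ) * ((k + ν).factorial : ℝ))| ≤
      u ^ n / ((n.factorial : ℝ) * ((n + ν).factorial : ℝ))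
  | 0, ν, u, hu => by
    have := K_abs_le ν hu
    simpa using this
  | n + 1, ν, u, hu => by
    set R : ℝ → ℝ := fun x => K ν x - ∑ k ∈ Finset.range (n + 1), (-1) ^ k * x ^ k /
      ((k.factorial : ℝ) * ((k + ν).factorial : ℝ)) with hR
    set R' : ℝ → ℝ := fun x => -(K (ν + 1) x - ∑ k ∈ Finset.range n, (-1) ^ k * x ^ k /
      ((k.factorial : ℝ) * ((k + (ν + 1)).factorial : ℝ))) with hR'
    have hd : ∀ x, HasDerivAt R (R' x) x := by
      intro x
      have h1 : HasDerivAt (fun x : ℝ => ∑ k ∈ Finset.range (n + 1), (-1 : ℝ) ^ k * x ^ k /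
          ((k.factorial : ℝ) * ((k + ν).factorial : ℝ)))
          (∑ k ∈ Finset.range (n + 1), (-1 : ℝ) ^ k * ((k : ℝ) * x ^ (k - 1)) /
          ((k.factorial : ℝ) * ((k + ν).factorial : ℝ))) x := by
        refine HasDerivAt.fun_sum fun k _ => ?_
        exact ((hasDerivAt_pow k x).const_mul _).div_const _
      have h2 := (K_hasDerivAt ν x).sub h1
      refine h2.congr_deriv ?_
      simp only [hR']
      rw [Finset.sum_range_succ']
      have e0 : (-1 : ℝ) ^ 0 * (((0 : ℕ) : ℝ) * x ^ (0 - 1)) /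
          (((0 : ℕ).factorial : ℝ) * ((0 + ν).factorial : ℝ)) = 0 := by simp
      rw [e0, add_zero]
      have e1 : ∑ k ∈ Finset.range n, (-1 : ℝ) ^ (k + 1) * (((k + 1 : ℕ) : ℝ) * x ^ (k + 1 - 1)) /
          (((k + 1).factorial : ℝ) * ((k + 1 + ν).factorial : ℝ)) =
          -∑ k ∈ Finset.range n, (-1 : ℝ) ^ k * x ^ k /
          ((k.factorial : ℝ) * ((k + (ν + 1)).factorial : ℝ)) := by
        rw [← Finset.sum_neg_distrib]
        refine Finset.sum_congr rfl fun k _ => ?_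
        have hf : ((k + 1).factorial : ℝ) = ((k + 1 : ℕ) : ℝ) * (k.factorial : ℝ) := by
          rw [Nat.factorial_succ]; push_cast; ring
        have hk0 : (0 : ℝ) < ((k + 1 : ℕ) : ℝ) := by positivity
        have hf0 : (0 : ℝ) < (k.factorial : ℝ) := by exact_mod_cast Nat.factorial_pos _
        rw [hf, show k + 1 + ν = k + (ν + 1) by ring, Nat.add_sub_cancel]
        field_simp
        ring
      rw [e1]
      ring
    have hR0 : R 0 = 0 := by
      simp only [hR]
      rw [Finset.sum_range_succ', K_zero]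
      simp
    have hbound : ∀ x, 0 ≤ x → |R' x| ≤ x ^ n / ((n.factorial : ℝ) * ((n + (ν + 1)).factorial : ℝ)) := by
      intro x hx
      rw [hR', abs_neg]
      exact K_taylor n (ν + 1) hx
    set B : ℝ → ℝ := fun x => x ^ (n + 1) / (((n + 1).factorial : ℝ) * ((n + 1 + ν).factorial : ℝ))
      with hB
    have hBd : ∀ x, HasDerivAt B (x ^ n / ((n.factorial : ℝ) * ((n + (ν + 1)).factorial : ℝ))) x := by
      intro x
      have h := (hasDerivAt_pow (n + 1) x).div_const
        (((n + 1).factorial : ℝ) * ((n + 1 + ν).factorial : ℝ))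
      refine h.congr_deriv ?_
      have hf : ((n + 1).factorial : ℝ) = ((n + 1 : ℕ) : ℝ) * (n.factorial : ℝ) := by
        rw [Nat.factorial_succ]; push_cast; ring
      have hk0 : (0 : ℝ) < ((n + 1 : ℕ) : ℝ) := by positivity
      have hf0 : (0 : ℝ) < (n.factorial : ℝ) := by exact_mod_cast Nat.factorial_pos _
      rw [hf, show n + 1 + ν = n + (ν + 1) by ring, Nat.add_sub_cancel]
      field_simp
    have h := image_norm_le_of_norm_deriv_right_le_deriv_boundary (a := 0) (b := u) (f := R)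
      (f' := R') (B := B) (B' := fun x => x ^ n / ((n.factorial : ℝ) *
        ((n + (ν + 1)).factorial : ℝ)))
      (fun x _ => (hd x).continuousAt.continuousWithinAt) (fun x _ => (hd x).hasDerivWithinAt)
      (by rw [hR0, norm_zero]; simp [hB]) hBd
      (fun x hx => by rw [Real.norm_eq_abs]; exact hbound x hx.1) (x := u) ⟨hu, le_refl _⟩
    rw [Real.norm_eq_abs] at h
    exact h

/-- `(-1)^ν` times the `ν`-th derivative of `Phi` -/
noncomputable def PhiN (α : ℝ) (ν : ℕ) (s : ℝ) : ℝ :=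
  ∫ ρ in Ioi (0 : ℝ), ρ ^ ν * F α ρ * K ν (s * ρ)

theorem PhiN_zero (α s : ℝ) : PhiN α 0 s = Phi α s := by
  unfold PhiN Phi
  simp

theorem PhiN_one (α s : ℝ) : PhiN α 1 s = Phi1 α s := by
  unfold PhiN Phi1
  simp

theorem PhiN_two (α s : ℝ) : PhiN α 2 s = Phi2 α s := rfl

theorem PhiN_hasDerivAt (hα : 1 < α) (ν : ℕ) {s : ℝ} (hs : 0 < s) :
    HasDerivAt (PhiN α ν) (-(PhiN α (ν + 1) s)) s := by
  have h := phic2_deriv (w := fun ρ => ρ ^ ν * F α ρ) (mom_integrable hα ν)
    (by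
      refine (mom_integrable hα (ν + 1)).congr_fun ?_ measurableSet_Ioi
      intro ρ _
      simp only
      ring) ν hs
  refine h.congr_deriv ?_
  congr 1
  unfold PhiN
  apply setIntegral_congr_fun measurableSet_Ioi
  intro ρ _
  simp only
  ring

theorem PhiN_taylor (hα : 1 < α) (ν n : ℕ) {s : ℝ} (hs : 0 ≤ s) :
    |PhiN α ν s - ∑ k ∈ Finset.range n, (-1) ^ k * mom α (k + ν) * s ^ k /
      ((k.factorial : ℝ) * ((k + ν).factorial : ℝ))| ≤
      mom α (n + ν) * s ^ n / ((n.factorial : ℝ) * ((n + ν).factorial : ℝ)) := by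
  have hα0 : 0 < α := by linarith
  have hi := phic2_int (w := fun ρ => ρ ^ ν * F α ρ) (mom_integrable hα ν) ν hs
  have e1 : PhiN α ν s - ∑ k ∈ Finset.range n, (-1) ^ k * mom α (k + ν) * s ^ k /
      ((k.factorial : ℝ) * ((k + ν).factorial : ℝ)) =
      ∫ ρ in Ioi (0 : ℝ), (ρ ^ ν * F α ρ * K ν (s * ρ) - ∑ k ∈ Finset.range n,
        ((-1) ^ k * s ^ k / ((k.factorial : ℝ) * ((k + ν).factorial : ℝ))) *
          (ρ ^ (k + ν) * F α ρ)) := by
    rw [integral_sub hi (integrable_finsetSum _ fun k _ => (mom_integrable hα (k + ν)).const_mul _),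
      integral_finsetSum _ fun k _ => (mom_integrable hα (k + ν)).const_mul _]
    unfold PhiN
    congr 1
    refine Finset.sum_congr rfl fun k _ => ?_
    rw [integral_const_mul]
    unfold mom
    ring
  have e2 : mom α (n + ν) * s ^ n / ((n.factorial : ℝ) * ((n + ν).factorial : ℝ)) =
      ∫ ρ in Ioi (0 : ℝ), (s ^ n / ((n.factorial : ℝ) * ((n + ν).factorial : ℝ))) *
        (ρ ^ (n + ν) * F α ρ) := by
    rw [integral_const_mul]
    unfold mom
    ring
  rw [e1, e2, ← Real.norm_eq_abs]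
  refine norm_integral_le_of_norm_le ((mom_integrable hα (n + ν)).const_mul _) ?_
  refine (ae_restrict_iff' measurableSet_Ioi).2 (Eventually.of_forall ?_)
  intro ρ hρ
  have hρ' : (0 : ℝ) < ρ := hρ
  have hF := F_pos (α := α) hα0 ρ
  have h := K_taylor n ν (mul_nonneg hs hρ'.le)
  have e3 : ρ ^ ν * F α ρ * K ν (s * ρ) - ∑ k ∈ Finset.range n,
        ((-1) ^ k * s ^ k / ((k.factorial : ℝ) * ((k + ν).factorial : ℝ))) *
          (ρ ^ (k + ν) * F α ρ) = ρ ^ ν * F α ρ * (K ν (s * ρ) - ∑ k ∈ Finset.range n,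
        (-1) ^ k * (s * ρ) ^ k / ((k.factorial : ℝ) * ((k + ν).factorial : ℝ))) := by
    rw [mul_sub, Finset.mul_sum]
    congr 1
    refine Finset.sum_congr rfl fun k _ => ?_
    rw [mul_pow, pow_add]
    ring
  rw [e3, norm_mul, Real.norm_eq_abs (K ν _ - _), Real.norm_of_nonneg (by positivity)]
  calc ρ ^ ν * F α ρ * |K ν (s * ρ) - ∑ k ∈ Finset.range n, (-1) ^ k * (s * ρ) ^ k /
        ((k.factorial : ℝ) * ((k + ν).factorial : ℝ))| ≤
      ρ ^ ν * F α ρ * ((s * ρ) ^ n / ((n.factorial : ℝ) * ((n + ν).factorial : ℝ))) :=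
        mul_le_mul_of_nonneg_left h (by positivity)
    _ = _ := by rw [mul_pow, pow_add]; ring

theorem mom_le_factorial (hα : 1 < α) : ∀ k : ℕ, mom α k ≤ (k.factorial : ℝ)
  | 0 => by rw [mom_zero hα]; simp
  | k + 1 => by
    have h1 := mom_le_factorial hα k
    have h2 := mom_succ_le hα k
    rw [Nat.factorial_succ]
    push_cast
    have : (0 : ℝ) ≤ (k : ℝ) + 1 := by positivity
    nlinarith

theorem PhiN_abs_le (hα : 1 < α) (ν : ℕ) {s : ℝ} (hs : 0 ≤ s) : |PhiN α ν s| ≤ 1 := by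
  have h := PhiN_taylor hα ν 0 hs
  simp only [Finset.range_zero, Finset.sum_empty, sub_zero, zero_add, pow_zero, mul_one,
    Nat.factorial_zero, Nat.cast_one, one_mul] at h
  refine h.trans ?_
  rw [div_le_one (by positivity)]
  exact mom_le_factorial hα ν

/-- second order interpolation, derivatives only inside -/
theorem interp_in {f f1 f2 : ℝ → ℝ} {a b : ℝ} (hab : a ≤ b) (hc : ContinuousOn f (Icc a b))
    (h1 : ∀ x ∈ Ioo a b, HasDerivAt f (f1 x) x) (h2 : ∀ x ∈ Ioo a b, HasDerivAt f1 (f2 x) x)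
    (h3 : ∀ x ∈ Ioo a b, -1 ≤ f2 x) {d : ℝ} (ha : f a ≤ -d) (hb : f b ≤ -d)
    (hd : (b - a) ^ 2 / 8 ≤ d) {x : ℝ} (hx : x ∈ Icc a b) : f x ≤ 0 := by
  have hconv : ConvexOn ℝ (Icc a b) (fun x => f x + x ^ 2 / 2) := by
    refine convexOn_of_hasDerivWithinAt2_nonneg (convex_Icc a b) (f' := fun x => f1 x + x)
      (f'' := fun x => f2 x + 1) ?_ ?_ ?_ ?_
    · exact hc.add (by fun_prop)
    · intro x hx
      rw [interior_Icc] at hx
      refine HasDerivAt.hasDerivWithinAt (((h1 x hx).add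
        ((hasDerivAt_pow 2 x).div_const 2)).congr_deriv ?_)
      simp only [Nat.cast_ofNat, Nat.add_one_sub_one, pow_one]
      ring
    · intro x hx
      rw [interior_Icc] at hx
      exact HasDerivAt.hasDerivWithinAt ((h2 x hx).add (hasDerivAt_id x))
    · intro x hx
      rw [interior_Icc] at hx
      have := h3 x hx
      linarith
  rcases eq_or_lt_of_le hab with h | h
  · have : x = a := le_antisymm (h ▸ hx.2) hx.1
    rw [this]
    have h4 : 0 ≤ (b - a) ^ 2 / 8 := by positivity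
    linarith
  · set l : ℝ := (x - a) / (b - a) with hl
    have hba : 0 < b - a := by linarith
    have hl0 : 0 ≤ l := div_nonneg (by linarith [hx.1]) hba.le
    have hl1 : l ≤ 1 := (div_le_one hba).2 (by linarith [hx.2])
    have hxl : x = (1 - l) * a + l * b := by
      rw [hl]; field_simp; ring
    have h4 := hconv.2 (left_mem_Icc.2 hab) (right_mem_Icc.2 hab) (show 0 ≤ 1 - l by linarith) hl0
      (by ring)
    simp only [smul_eq_mul] at h4
    rw [← hxl] at h4
    have e : (1 - l) * (f a + a ^ 2 / 2) + l * (f b + b ^ 2 / 2) - x ^ 2 / 2 =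
        (1 - l) * f a + l * f b + l * (1 - l) * (b - a) ^ 2 / 2 := by
      rw [hxl]; ring
    have h5 : l * (1 - l) ≤ 1 / 4 := by nlinarith [sq_nonneg (l - 1 / 2)]
    have h6 : l * (1 - l) * (b - a) ^ 2 / 2 ≤ (b - a) ^ 2 / 8 := by
      nlinarith [sq_nonneg (b - a)]
    nlinarith

theorem PhiN_continuousOn (hα : 1 < α) (ν : ℕ) : ContinuousOn (PhiN α ν) (Ici 0) :=
  phic2_cont (w := fun ρ => ρ ^ ν * F α ρ) (mom_integrable hα ν) ν

/-- values between two grid points -/
theorem PhiN_interp (hα : 1 < α) (ν : ℕ) {a b : ℝ} (ha : 0 ≤ a) (hab : a ≤ b) {x : ℝ}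
    (hx : x ∈ Icc a b) {m M : ℝ} (hma : m ≤ PhiN α ν a) (hmb : m ≤ PhiN α ν b)
    (hMa : PhiN α ν a ≤ M) (hMb : PhiN α ν b ≤ M) : m - (b - a) ^ 2 / 8 ≤ PhiN α ν x ∧
      PhiN α ν x ≤ M + (b - a) ^ 2 / 8 := by
  have hc : ContinuousOn (PhiN α ν) (Icc a b) := (PhiN_continuousOn hα ν).mono fun y hy =>
    ha.trans hy.1
  have hpos : ∀ y ∈ Ioo a b, 0 < y := fun y hy => lt_of_le_of_lt ha hy.1
  have h1 : ∀ y ∈ Ioo a b, HasDerivAt (PhiN α ν) (-(PhiN α (ν + 1) y)) y := fun y hy =>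
    PhiN_hasDerivAt hα ν (hpos y hy)
  have h2 : ∀ y ∈ Ioo a b, HasDerivAt (fun y => -(PhiN α (ν + 1) y)) (PhiN α (ν + 2) y) y :=
    fun y hy => (PhiN_hasDerivAt hα (ν + 1) (hpos y hy)).neg.congr_deriv (neg_neg _)
  have h3 : ∀ y ∈ Ioo a b, |PhiN α (ν + 2) y| ≤ 1 := fun y hy =>
    PhiN_abs_le hα (ν + 2) (hpos y hy).le
  constructor
  · have h := interp_in (f := fun y => -(PhiN α ν y) + (m - (b - a) ^ 2 / 8))
      (f1 := fun y => -(-(PhiN α (ν + 1) y))) (f2 := fun y => -(PhiN α (ν + 2) y)) hab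
      (hc.neg.add continuousOn_const) (fun y hy => ((h1 y hy).neg.add_const _))
      (fun y hy => (h2 y hy).neg) (fun y hy => by
        have := (abs_le.1 (h3 y hy)).2
        linarith) (d := (b - a) ^ 2 / 8) (by linarith) (by linarith) le_rfl hx

    linarith
  · have h := interp_in (f := fun y => PhiN α ν y + (-M - (b - a) ^ 2 / 8))
      (f1 := fun y => -(PhiN α (ν + 1) y)) (f2 := fun y => PhiN α (ν + 2) y) hab
      (hc.add continuousOn_const) (fun y hy => ((h1 y hy).add_const _))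
      (fun y hy => h2 y hy) (fun y hy => (abs_le.1 (h3 y hy)).1) (d := (b - a) ^ 2 / 8)
      (by linarith) (by linarith) le_rfl hx

    linarith

end LpSec
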