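import Mathlib
import Pool.Agent.Lib.MP_1dbab3_gt.W.Two
import Pool.Agent.Lib.MP_1dbab3_gt.W.PhiN

/-!
# Step functions for `Phi`, `Phi1`, `Phi2`: checker
-/

open Real MeasureTheory Set Filter Topology

namespace LpSec.W

/-- multiply by `m`, `m + 1`, … -/
def derA : ℕ → List ℕ → List ℕ
  | _, [] => []
  | m, a :: t => (m * a) :: derA (m + 1) t

/-- coefficients of the derivative (up to sign) -/
def der : List ℕ → List ℕ
  | [] => []
  | _ :: t => derA 1 t

theorem derA_length : ∀ (t : List ℕ) (m : ℕ), (derA m t).length = t.length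
  | [], _ => rfl
  | a :: t, m => by rw [derA, List.length_cons, List.length_cons, derA_length t (m + 1)]

theorem derA_getD : ∀ (t : List ℕ) (m k : ℕ), (derA m t).getD k 0 = (m + k) * t.getD k 0
  | [], m, k => by simp [derA]
  | a :: t, m, 0 => by simp [derA]
  | a :: t, m, k + 1 => by
    rw [derA, List.getD_cons_succ, List.getD_cons_succ, derA_getD t (m + 1) k]
    ring

theorem der_length : ∀ p : List ℕ, (der p).length = p.length - 1
  | [] => rfl
  | _ :: t => by rw [der, derA_length]; rfl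

theorem der_getD : ∀ (p : List ℕ) (k : ℕ), (der p).getD k 0 = (k + 1) * p.getD (k + 1) 0
  | [], k => by simp [der]
  | a :: t, k => by rw [der, derA_getD, List.getD_cons_succ, add_comm 1 k]

/-- two-sided data for a power series with coefficients `(-1)^k a k` -/
structure SB (a : ℕ → ℝ) (l : ℝ) (K : ℕ) (pA pB e : List ℕ) : Prop where
  lenA : pA.length = K
  lenB : pB.length = K
  lenE : e.length = K + 1
  coef : ∀ k, k < K → |a k - ((1 - l) * ((pA.getD k 0 : ℕ) : ℝ) + l * ((pB.getD k 0 : ℕ) : ℝ)) /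
    100000000000000000000| ≤ ((e.getD k 0 : ℕ) : ℝ) / 100000000000000000000
  tail : a K ≤ ((e.getD K 0 : ℕ) : ℝ) / 100000000000000000000

theorem SB.der {a : ℕ → ℝ} {l : ℝ} {K : ℕ} {pA pB e : List ℕ} (h : SB a l (K + 1) pA pB e) :
    SB (fun k => ((k : ℝ) + 1) * a (k + 1)) l K (der pA) (der pB) (der e) := by
  refine ⟨by rw [der_length, h.lenA]; rfl, by rw [der_length, h.lenB]; rfl,
    by rw [der_length, h.lenE]; rfl, ?_, ?_⟩
  · intro k hk
    have h1 := h.coef (k + 1) (by omega)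
    rw [der_getD, der_getD, der_getD]
    push_cast
    have hk0 : (0 : ℝ) ≤ (k : ℝ) + 1 := by positivity
    have e1 : ((k : ℝ) + 1) * a (k + 1) - ((1 - l) * (((k : ℝ) + 1) * ((pA.getD (k + 1) 0 : ℕ) : ℝ)) +
        l * (((k : ℝ) + 1) * ((pB.getD (k + 1) 0 : ℕ) : ℝ))) / 100000000000000000000 =
        ((k : ℝ) + 1) * (a (k + 1) - ((1 - l) * ((pA.getD (k + 1) 0 : ℕ) : ℝ) +
          l * ((pB.getD (k + 1) 0 : ℕ) : ℝ)) / 100000000000000000000) := by ring
    rw [e1, abs_mul, abs_of_nonneg hk0, mul_div_assoc]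
    exact mul_le_mul_of_nonneg_left h1 hk0
  · rw [der_getD]
    push_cast
    rw [mul_div_assoc]
    exact mul_le_mul_of_nonneg_left h.tail (by positivity)

theorem SB.eval {a : ℕ → ℝ} {l : ℝ} {K : ℕ} {pA pB e : List ℕ} (h : SB a l K pA pB e) {f s : ℝ}
    (hs : 0 ≤ s) (hf : |f - ∑ k ∈ Finset.range K, (-1) ^ k * a k * s ^ k| ≤ a K * s ^ K) :
    |f - ((1 - l) * altE pA s + l * altE pB s) / 100000000000000000000| ≤
      posE e s / 100000000000000000000 := by
  rw [altE_sum, altE_sum, posE_sum, h.lenA, h.lenB, h.lenE]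
  have hsplit : (∑ k ∈ Finset.range (K + 1), ((e.getD k 0 : ℕ) : ℝ) * s ^ k) /
      100000000000000000000 =
      (∑ k ∈ Finset.range K, ((e.getD k 0 : ℕ) : ℝ) * s ^ k) / 100000000000000000000 +
        ((e.getD K 0 : ℕ) : ℝ) * s ^ K / 100000000000000000000 := by
    rw [Finset.sum_range_succ, add_div]
  have htail : a K * s ^ K ≤ ((e.getD K 0 : ℕ) : ℝ) * s ^ K / 100000000000000000000 := by
    have := mul_le_mul_of_nonneg_right h.tail (pow_nonneg hs K)
    linarith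
  have h2 : |∑ k ∈ Finset.range K, (-1) ^ k * a k * s ^ k -
      ((1 - l) * ∑ k ∈ Finset.range K, (-1) ^ k * ((pA.getD k 0 : ℕ) : ℝ) * s ^ k +
        l * ∑ k ∈ Finset.range K, (-1) ^ k * ((pB.getD k 0 : ℕ) : ℝ) * s ^ k) /
        100000000000000000000| ≤
      ∑ k ∈ Finset.range K, ((e.getD k 0 : ℕ) : ℝ) * s ^ k / 100000000000000000000 := by
    rw [Finset.mul_sum, Finset.mul_sum, ← Finset.sum_add_distrib, Finset.sum_div,
      ← Finset.sum_sub_distrib]
    refine (Finset.abs_sum_le_sum_abs _ _).trans (Finset.sum_le_sum fun k hk => ?_)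
    have hk' := h.coef k (Finset.mem_range.1 hk)
    have e1 : (-1) ^ k * a k * s ^ k -
        ((1 - l) * ((-1) ^ k * ((pA.getD k 0 : ℕ) : ℝ) * s ^ k) +
          l * ((-1) ^ k * ((pB.getD k 0 : ℕ) : ℝ) * s ^ k)) / 100000000000000000000 =
        ((-1) ^ k * s ^ k) * (a k -
      ((1 - l) * ((pA.getD k 0 : ℕ) : ℝ) + l * ((pB.getD k 0 : ℕ) : ℝ)) /
        100000000000000000000) := by ring
    rw [e1, abs_mul, abs_mul, abs_pow, abs_neg, abs_one, one_pow, one_mul,
      abs_of_nonneg (pow_nonneg hs k)]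
    calc s ^ k * |a k - ((1 - l) * ((pA.getD k 0 : ℕ) : ℝ) + l * ((pB.getD k 0 : ℕ) : ℝ)) /
        100000000000000000000| ≤
        s ^ k * (((e.getD k 0 : ℕ) : ℝ) / 100000000000000000000) :=
          mul_le_mul_of_nonneg_left hk' (pow_nonneg hs k)
      _ = _ := by ring
  rw [← Finset.sum_div] at h2
  obtain ⟨c1, c2⟩ := abs_le.1 hf
  obtain ⟨d1, d2⟩ := abs_le.1 h2
  rw [abs_le, hsplit]
  constructor
  · linarith
  · linarith

/-- `PhiN` from the coefficient level -/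
theorem PhiN_eval {α : ℝ} (hα : 1 < α) (ν : ℕ) {l : ℝ} {K : ℕ} {pA pB e : List ℕ}
    (h : SB (fun k => mom α (k + ν) / ((k.factorial : ℝ) * ((k + ν).factorial : ℝ))) l K pA pB e)
    {s : ℝ} (hs : 0 ≤ s) :
    |PhiN α ν s - ((1 - l) * altE pA s + l * altE pB s) / 100000000000000000000| ≤
      posE e s / 100000000000000000000 := by
  refine h.eval hs ?_
  have h1 := PhiN_taylor hα ν K hs
  have e1 : ∑ k ∈ Finset.range K, (-1) ^ k * (mom α (k + ν) /
      ((k.factorial : ℝ) * ((k + ν).factorial : ℝ))) * s ^ k =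
      ∑ k ∈ Finset.range K, (-1) ^ k * mom α (k + ν) * s ^ k /
      ((k.factorial : ℝ) * ((k + ν).factorial : ℝ)) := by
    refine Finset.sum_congr rfl fun k _ => ?_
    ring
  rw [e1]
  refine h1.trans (le_of_eq ?_)
  ring

theorem SB.derN {α l : ℝ} {K ν : ℕ} {pA pB e : List ℕ}
    (h : SB (fun k => mom α (k + ν) / ((k.factorial : ℝ) * ((k + ν).factorial : ℝ))) l (K + 1)
      pA pB e) :
    SB (fun k => mom α (k + (ν + 1)) / ((k.factorial : ℝ) * ((k + (ν + 1)).factorial : ℝ))) l K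
      (W.der pA) (W.der pB) (W.der e) := by
  have h1 := h.der
  have e1 : (fun k : ℕ => ((k : ℝ) + 1) * (mom α (k + 1 + ν) / (((k + 1).factorial : ℝ) *
      ((k + 1 + ν).factorial : ℝ)))) = fun k => mom α (k + (ν + 1)) /
      ((k.factorial : ℝ) * ((k + (ν + 1)).factorial : ℝ)) := by
    funext k
    have hf : ((k + 1).factorial : ℝ) = ((k : ℝ) + 1) * (k.factorial : ℝ) := by
      rw [Nat.factorial_succ]; push_cast; ring
    have hk0 : (0 : ℝ) < (k : ℝ) + 1 := by positivity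
    have hf0 : (0 : ℝ) < (k.factorial : ℝ) := by exact_mod_cast Nat.factorial_pos _
    have hf1 : (0 : ℝ) < ((k + (ν + 1)).factorial : ℝ) := by exact_mod_cast Nat.factorial_pos _
    rw [hf, show k + 1 + ν = k + (ν + 1) by ring]
    field_simp
  rw [e1] at h1
  exact h1

/-- even part -/
noncomputable def evR : List ℕ → ℝ → ℝ
  | a :: _ :: t, x => (a : ℝ) + x ^ 2 * evR t x
  | [a], _ => (a : ℝ)
  | [], _ => 0

theorem altE_ev : ∀ (p : List ℕ) (x : ℝ), altE p x = evR p x - x * evR p.tail x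
  | [], x => by simp [altE, evR]
  | [a], x => by simp [altE, evR]
  | a :: b :: t, x => by
    rw [altE, altE_ev (b :: t) x, List.tail_cons, List.tail_cons]
    cases t with
    | nil => simp [evR]
    | cons c t =>
      simp only [evR]
      ring

/-- scaled even part at `j / 10` -/
def sE (j : ℕ) : ℕ → List ℕ → ℕ
  | w, a :: _ :: t => a * 10 ^ w + j * j * sE j (w - 2) t
  | w, [a] => a * 10 ^ w
  | _, [] => 0

theorem sE_eq (j : ℕ) : ∀ (w : ℕ) (p : List ℕ), p.length ≤ w →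
    (sE j w p : ℝ) = 10 ^ w * evR p ((j : ℝ) / 10)
  | w, [], _ => by simp [sE, evR]
  | w, [a], _ => by rw [sE, evR]; push_cast; ring
  | w, a :: b :: t, h => by
    have hw : 2 ≤ w := le_trans (by simp [List.length_cons]) h
    obtain ⟨v, rfl⟩ := Nat.exists_eq_add_of_le hw
    have h' : t.length ≤ v := by
      simp only [List.length_cons] at h
      omega
    rw [sE, evR, show 2 + v - 2 = v by omega]
    push_cast
    rw [sE_eq j v t h', pow_add]
    ring

/-- scaled value of a polynomial with nonnegative coefficients at `j / 10` -/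
def sP (j : ℕ) : ℕ → List ℕ → ℕ
  | w, a :: t => a * 10 ^ w + j * sP j (w - 1) t
  | _, [] => 0

theorem sP_eq (j : ℕ) : ∀ (w : ℕ) (p : List ℕ), p.length ≤ w →
    (sP j w p : ℝ) = 10 ^ w * posE p ((j : ℝ) / 10)
  | w, [], _ => by simp [sP, posE]
  | w, a :: t, h => by
    have hw : 1 ≤ w := le_trans (by simp [List.length_cons]) h
    obtain ⟨v, rfl⟩ := Nat.exists_eq_add_of_le hw
    have h' : t.length ≤ v := by
      simp only [List.length_cons] at h
      omega
    rw [sP, posE, show 1 + v - 1 = v by omega]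
    push_cast
    rw [sP_eq j v t h', pow_add]
    ring

/-- comparison at a point: `E - O` within `P`, scale `10^(20+w)`; bounds with offset `2 · 10^6` -/
def cmpOk (T2 T6 E O P lo hi : ℕ) : Bool :=
  Nat.ble (E + P + T2) (O + hi * T6) && Nat.ble (O + P + lo * T6) (E + T2)

/-- check at the point `j / 10` -/
def ptOk (w j : ℕ) (pA pB e : List ℕ) (lo hi : ℕ) : Bool :=
  cmpOk (2 * 10 ^ (20 + w)) (10 ^ (14 + w)) (sE j w pA) (j * sE j (w - 1) pA.tail) (sP j w e) lo hi &&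
  cmpOk (2 * 10 ^ (20 + w)) (10 ^ (14 + w)) (sE j w pB) (j * sE j (w - 1) pB.tail) (sP j w e) lo hi

theorem cmp_sound {w j : ℕ} {p e : List ℕ} {lo hi : ℕ} (hp : p.length ≤ w) (hw : 1 ≤ w)
    (he : e.length ≤ w) (h : cmpOk (2 * 10 ^ (20 + w)) (10 ^ (14 + w)) (sE j w p)
      (j * sE j (w - 1) p.tail) (sP j w e) lo hi = true) :
    altE p ((j : ℝ) / 10) / 100000000000000000000 + posE e ((j : ℝ) / 10) / 100000000000000000000 ≤
      ((hi : ℝ) - 2000000) / 1000000 ∧
    ((lo : ℝ) - 2000000) / 1000000 ≤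
      altE p ((j : ℝ) / 10) / 100000000000000000000 - posE e ((j : ℝ) / 10) / 100000000000000000000 := by
  unfold cmpOk at h
  simp only [Bool.and_eq_true, Nat.ble_eq] at h
  have k1 := (Nat.cast_le (α := ℝ)).2 h.1
  have k2 := (Nat.cast_le (α := ℝ)).2 h.2
  push_cast at k1 k2
  have htl : p.tail.length ≤ w - 1 := by rw [List.length_tail]; omega
  rw [sE_eq j w p hp, sE_eq j (w - 1) p.tail htl, sP_eq j w e he] at k1 k2
  rw [altE_ev]
  obtain ⟨v, rfl⟩ := Nat.exists_eq_add_of_le hw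
  rw [show 1 + v - 1 = v by omega] at k1 k2
  have hT : (0 : ℝ) < 10 ^ v := by positivity
  set A := evR p ((j : ℝ) / 10)
  set B := evR p.tail ((j : ℝ) / 10)
  set P := posE e ((j : ℝ) / 10)
  have e1 : (10 : ℝ) ^ (1 + v) = 10 * 10 ^ v := by rw [pow_add, pow_one]
  have e2 : (10 : ℝ) ^ (20 + (1 + v)) = 1000000000000000000000 * 10 ^ v := by
    rw [show 20 + (1 + v) = 21 + v by ring, pow_add]; norm_num
  have e3 : (10 : ℝ) ^ (14 + (1 + v)) = 1000000000000000 * 10 ^ v := by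
    rw [show 14 + (1 + v) = 15 + v by ring, pow_add]; norm_num
  rw [e1, e2, e3] at k1 k2
  have m1 : (10 * (A - (j : ℝ) / 10 * B) + 10 * P + 2 * 1000000000000000000000) * (10 : ℝ) ^ v ≤
      ((hi : ℝ) * 1000000000000000) * 10 ^ v := by
    have : (10 : ℝ) * ((j : ℝ) / 10 * B) = j * B := by ring
    nlinarith
  have m2 : (((lo : ℝ) * 1000000000000000) + 10 * P) * (10 : ℝ) ^ v ≤
      (10 * (A - (j : ℝ) / 10 * B) + 2 * 1000000000000000000000) * 10 ^ v := by
    have : (10 : ℝ) * ((j : ℝ) / 10 * B) = j * B := by ring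
    nlinarith
  have n1 := le_of_mul_le_mul_right m1 hT
  have n2 := le_of_mul_le_mul_right m2 hT
  constructor
  · linarith
  · linarith

theorem pt_sound {w j : ℕ} {pA pB e : List ℕ} {lo hi : ℕ} (hA : pA.length ≤ w)
    (hB : pB.length ≤ w) (hw : 1 ≤ w) (he : e.length ≤ w) (h : ptOk w j pA pB e lo hi = true)
    {f l : ℝ} (hl : 0 ≤ l) (hl1 : l ≤ 1) (hf : |f - ((1 - l) * altE pA ((j : ℝ) / 10) +
      l * altE pB ((j : ℝ) / 10)) / 100000000000000000000| ≤
      posE e ((j : ℝ) / 10) / 100000000000000000000) :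
    ((lo : ℝ) - 2000000) / 1000000 ≤ f ∧ f ≤ ((hi : ℝ) - 2000000) / 1000000 := by
  unfold ptOk at h
  rw [Bool.and_eq_true] at h
  obtain ⟨a1, a2⟩ := cmp_sound hA hw he h.1
  obtain ⟨b1, b2⟩ := cmp_sound hB hw he h.2
  obtain ⟨c1, c2⟩ := abs_le.1 hf
  have h1l : 0 ≤ 1 - l := by linarith
  have d1 := mul_le_mul_of_nonneg_left a1 h1l
  have d2 := mul_le_mul_of_nonneg_left a2 h1l
  have d3 := mul_le_mul_of_nonneg_left b1 hl
  have d4 := mul_le_mul_of_nonneg_left b2 hl
  constructor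
  · linarith
  · linarith

/-- the bounds `L ≤ 10^6 f - 1250`, `10^6 f + 1250 ≤ H` at `j / 10` -/
def ptZ (w j : ℕ) (pA pB e : List ℕ) (L H : ℤ) : Bool :=
  match H + 1998750 with
  | Int.ofNat n => ptOk w j pA pB e (Int.toNat (L + 2001250)) n
  | Int.negSucc _ => false

theorem ptZ_sound {w j : ℕ} {pA pB e : List ℕ} {L H : ℤ} (hA : pA.length ≤ w)
    (hB : pB.length ≤ w) (hw : 1 ≤ w) (he : e.length ≤ w) (h : ptZ w j pA pB e L H = true)
    {f l : ℝ} (hl : 0 ≤ l) (hl1 : l ≤ 1) (hf : |f - ((1 - l) * altE pA ((j : ℝ) / 10) +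
      l * altE pB ((j : ℝ) / 10)) / 100000000000000000000| ≤
      posE e ((j : ℝ) / 10) / 100000000000000000000) :
    ((L : ℝ) + 1250) / 1000000 ≤ f ∧ f ≤ ((H : ℝ) - 1250) / 1000000 := by
  unfold ptZ at h
  cases hH : H + 1998750 with
  | ofNat n =>
    rw [hH] at h
    simp only at h
    obtain ⟨h1, h2⟩ := pt_sound hA hB hw he h hl hl1 hf
    have e1 : (n : ℝ) = (H : ℝ) + 1998750 := by
      have : (((n : ℕ) : ℤ) : ℝ) = ((H + 1998750 : ℤ) : ℝ) := by rw [hH]; rfl
      push_cast at this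
      exact this
    have e2 : (L : ℝ) + 2001250 ≤ ((Int.toNat (L + 2001250) : ℕ) : ℝ) := by
      have := Int.self_le_toNat (L + 2001250)
      have h3 : ((L + 2001250 : ℤ) : ℝ) ≤ (((Int.toNat (L + 2001250) : ℕ) : ℤ) : ℝ) :=
        Int.cast_le.2 this
      rw [Int.cast_natCast, Int.cast_add] at h3
      have h4 : ((2001250 : ℤ) : ℝ) = 2001250 := by norm_num
      rw [h4] at h3
      exact h3
    constructor
    · linarith
    · rw [e1] at h2
      linarith
  | negSucc n =>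
    rw [hH] at h
    simp at h

/-- consecutive points `j`, `j + 1`, …; `pl`, `ph` are the bounds on the previous interval -/
def tabChk (w : ℕ) (pA pB e : List ℕ) : ℕ → ℤ → ℤ → List ℤ → List ℤ → Bool
  | j, pl, ph, l :: lo, h :: hi => ptZ w j pA pB e pl ph &&
      (ptZ w j pA pB e l h && tabChk w pA pB e (j + 1) l h lo hi)
  | j, pl, ph, [], [] => ptZ w j pA pB e pl ph
  | _, _, _, _, _ => false

theorem tabChk_sound {w : ℕ} {pA pB e : List ℕ} : ∀ (lo hi : List ℤ) (j : ℕ) (pl ph : ℤ),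
    tabChk w pA pB e j pl ph lo hi = true → ptZ w j pA pB e pl ph = true ∧
      ∀ i, i < lo.length → ptZ w (j + i) pA pB e (lo.getD i 0) (hi.getD i 0) = true ∧
        ptZ w (j + i + 1) pA pB e (lo.getD i 0) (hi.getD i 0) = true
  | [], [], j, pl, ph, h => ⟨h, fun i hi => absurd hi (Nat.not_lt_zero i)⟩
  | [], _ :: _, j, pl, ph, h => by
    have h' : false = true := h
    exact absurd h' (by decide)
  | _ :: _, [], j, pl, ph, h => by
    have h' : false = true := h
    exact absurd h' (by decide)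
  | l :: lo, u :: hi, j, pl, ph, h => by
    have h' : (ptZ w j pA pB e pl ph &&
      (ptZ w j pA pB e l u && tabChk w pA pB e (j + 1) l u lo hi)) = true := h
    rw [Bool.and_eq_true, Bool.and_eq_true] at h'
    obtain ⟨h1, h2, h3⟩ := h'
    obtain ⟨h4, h5⟩ := tabChk_sound lo hi (j + 1) l u h3
    refine ⟨h1, fun i hi => ?_⟩
    cases i with
    | zero => exact ⟨h2, h4⟩
    | succ i =>
      have := h5 i (Nat.lt_of_succ_lt_succ hi)
      rw [show j + (i + 1) = j + 1 + i by ring]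
      exact this

/-- check of one pair of lists -/
def tabOk1 (w : ℕ) (pA pB e : List ℕ) (lo hi : List ℤ) : Bool :=
  Nat.ble pA.length w && (Nat.ble pB.length w && (Nat.ble e.length w && (Nat.ble 1 w &&
  (Nat.beq lo.length 60 && tabChk w pA pB e 0 (lo.getD 0 0) (hi.getD 0 0) lo hi))))

theorem tabOk1_sound {w : ℕ} {pA pB e : List ℕ} {lo hi : List ℤ}
    (h : tabOk1 w pA pB e lo hi = true) {α l : ℝ} (hα : 1 < α) {ν : ℕ} (hl : 0 ≤ l) (hl1 : l ≤ 1)
    (hf : ∀ s, 0 ≤ s → |PhiN α ν s - ((1 - l) * altE pA s + l * altE pB s) /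
      100000000000000000000| ≤ posE e s / 100000000000000000000) {j : ℕ} (hj : j < 60) {s : ℝ}
    (h1 : (j : ℝ) / 10 ≤ s) (h2 : s ≤ ((j : ℝ) + 1) / 10) :
    ((lo.getD j 0 : ℤ) : ℝ) ≤ 1000000 * PhiN α ν s ∧
      1000000 * PhiN α ν s ≤ ((hi.getD j 0 : ℤ) : ℝ) := by
  unfold tabOk1 at h
  simp only [Bool.and_eq_true, Nat.ble_eq] at h
  obtain ⟨hA, hB, hE, hw, hlen, hc⟩ := h
  have hlen' : lo.length = 60 := Nat.eq_of_beq_eq_true hlen
  obtain ⟨k1, k2⟩ := (tabChk_sound lo hi 0 _ _ hc).2 j (by rw [hlen']; exact hj)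
  rw [Nat.zero_add] at k1 k2
  have f1 := ptZ_sound hA hB hw hE k1 hl hl1 (hf ((j : ℝ) / 10) (by positivity))
  have e1 : (((j + 1 : ℕ)) : ℝ) / 10 = ((j : ℝ) + 1) / 10 := by push_cast; ring
  have f2 := ptZ_sound hA hB hw hE k2 hl hl1 (hf (((j + 1 : ℕ) : ℝ) / 10) (by positivity))
  rw [e1] at f2
  have h3 := PhiN_interp hα ν (a := (j : ℝ) / 10) (b := ((j : ℝ) + 1) / 10) (by positivity)
    (by linarith) ⟨h1, h2⟩ f1.1 f2.1 f1.2 f2.2
  have e2 : (((j : ℝ) + 1) / 10 - (j : ℝ) / 10) ^ 2 / 8 = 1250 / 1000000 := by ring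
  rw [e2] at h3
  constructor
  · linarith [h3.1]
  · linarith [h3.2]

/-- lists of bounds, scale `10^6`, on `[j / 10, (j + 1) / 10]`, `j < 60` -/
structure Tab where
  l0 : List ℤ
  u0 : List ℤ
  l1 : List ℤ
  u1 : List ℤ
  l2 : List ℤ
  u2 : List ℤ

instance : Inhabited Tab := ⟨⟨[], [], [], [], [], []⟩⟩

/-- the meaning of the bounds -/
structure TabB (T : Tab) (j : ℕ) (α s : ℝ) : Prop where
  l0 : ((T.l0.getD j 0 : ℤ) : ℝ) ≤ 1000000 * Phi α s
  u0 : 1000000 * Phi α s ≤ ((T.u0.getD j 0 : ℤ) : ℝ)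
  l1 : ((T.l1.getD j 0 : ℤ) : ℝ) ≤ 1000000 * Phi1 α s
  u1 : 1000000 * Phi1 α s ≤ ((T.u1.getD j 0 : ℤ) : ℝ)
  l2 : ((T.l2.getD j 0 : ℤ) : ℝ) ≤ 1000000 * Phi2 α s
  u2 : 1000000 * Phi2 α s ≤ ((T.u2.getD j 0 : ℤ) : ℝ)

/-- a list with its first two derivatives -/
structure P3 where
  p : List ℕ
  p1 : List ℕ
  p2 : List ℕ

instance : Inhabited P3 := ⟨⟨[], [], []⟩⟩

def P3.ok (P : P3) : Bool := (der P.p == P.p1) && (der P.p1 == P.p2)

/-- check of the three pairs of lists -/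
def tabOk (w : ℕ) (A B E : P3) (T : Tab) : Bool :=
  A.ok && (B.ok && (E.ok && (tabOk1 w A.p B.p E.p T.l0 T.u0 && (
  tabOk1 w A.p1 B.p1 E.p1 T.l1 T.u1 && tabOk1 w A.p2 B.p2 E.p2 T.l2 T.u2))))

theorem tabOk_sound {w K : ℕ} {A B E : P3} {T : Tab} (h : tabOk w A B E T = true) {α l : ℝ}
    (hα : 1 < α) (hl : 0 ≤ l) (hl1 : l ≤ 1)
    (hS : SB (fun k => mom α (k + 0) / ((k.factorial : ℝ) * ((k + 0).factorial : ℝ))) l (K + 1 + 1)
      A.p B.p E.p) {j : ℕ} (hj : j < 60) {s : ℝ} (h1 : (j : ℝ) / 10 ≤ s)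
    (h2 : s ≤ ((j : ℝ) + 1) / 10) : TabB T j α s := by
  unfold tabOk at h
  rw [Bool.and_eq_true, Bool.and_eq_true, Bool.and_eq_true, Bool.and_eq_true,
    Bool.and_eq_true] at h
  obtain ⟨hA, hB, hE, t0, t1, t2⟩ := h
  unfold P3.ok at hA hB hE
  rw [Bool.and_eq_true, beq_iff_eq, beq_iff_eq] at hA hB hE
  have S1 := hS.derN
  rw [hA.1, hB.1, hE.1] at S1
  have S2 := S1.derN
  rw [hA.2, hB.2, hE.2] at S2
  have r0 := tabOk1_sound t0 hα hl hl1 (fun s hs => PhiN_eval hα 0 hS hs) hj h1 h2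
  have r1 := tabOk1_sound t1 hα hl hl1 (fun s hs => PhiN_eval hα 1 S1 hs) hj h1 h2
  have r2 := tabOk1_sound t2 hα hl hl1 (fun s hs => PhiN_eval hα 2 S2 hs) hj h1 h2
  rw [PhiN_zero] at r0
  rw [PhiN_one] at r1
  rw [PhiN_two] at r2
  exact ⟨r0.1, r0.2, r1.1, r1.2, r2.1, r2.2⟩

/-- consecutive cells -/
def tabsOk (w : ℕ) : List P3 → List P3 → List Tab → Bool
  | A :: B :: P, E :: Es, T :: Ts => tabOk w A B E T && tabsOk w (B :: P) Es Ts
  | _, [], [] => true
  | _, _, _ => false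

theorem tabsOk_sound {w : ℕ} : ∀ (Ts : List Tab) (P Es : List P3), tabsOk w P Es Ts = true →
    ∀ i, i < Ts.length → tabOk w (P.getD i default) (P.getD (i + 1) default) (Es.getD i default)
      (Ts.getD i default) = true
  | [], _, _, _, i, hi => absurd hi (Nat.not_lt_zero i)
  | T :: Ts, [], Es, h, _, _ => by
    have h' : false = true := by cases Es <;> exact h
    exact absurd h' (by decide)
  | T :: Ts, [A], Es, h, _, _ => by
    have h' : false = true := by cases Es <;> exact h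
    exact absurd h' (by decide)
  | T :: Ts, A :: B :: P, [], h, _, _ => by
    have h' : false = true := h
    exact absurd h' (by decide)
  | T :: Ts, A :: B :: P, E :: Es, h, i, hi => by
    have h' : (tabOk w A B E T && tabsOk w (B :: P) Es Ts) = true := h
    rw [Bool.and_eq_true] at h'
    cases i with
    | zero => exact h'.1
    | succ i => exact tabsOk_sound Ts (B :: P) Es h'.2 i (Nat.lt_of_succ_lt_succ hi)

end LpSec.W
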