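import Mathlib
import Pool.Agent.Lib.MP_1dbab3_gt.WLobe
import Pool.Agent.Lib.MP_1dbab3_gt.W.FlList
import Pool.Agent.Lib.MP_1dbab3_gt.W.T2Cell
import Pool.Agent.Lib.MP_1dbab3_gt.W.TabDef
import Pool.Agent.Lib.MP_1dbab3_gt.W.M7

/-!
# Filling of the numeric structures `CellOk`, `NumOk`, `PairOk`: theory

Everything is deduced from the coefficient data `SB` of a cell.  Points have scale `10^4`.
-/

open Real MeasureTheory Set Filter Topology intervalIntegral

namespace LpSec.Fl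

open LpSec.W LpSec.ML

/-- data of a cell -/
abbrev SBc (α l : ℝ) (K : ℕ) (P Q E : List ℕ) : Prop :=
  SB (fun k => mom α (k + 0) / ((k.factorial : ℝ) * ((k + 0).factorial : ℝ))) l K P Q E

theorem phi_of {α l : ℝ} {K : ℕ} {P Q E : List ℕ} (hα : 1 < α) (h : SBc α l K P Q E) {s : ℝ}
    (hs : 0 ≤ s) : |Phi α s - ((1 - l) * altE P s + l * altE Q s) / 100000000000000000000| ≤
      posE E s / 100000000000000000000 := by
  have := PhiN_eval hα 0 h hs
  rwa [PhiN_zero] at this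

/-! ## the base check: `A`, `C` cut points (scale `10^4`), `dd` bound of `Phi` at `A` (scale `10^6`) -/

def baseChk (P Q E : List ℕ) (A C dd : ℕ) : Bool :=
  lowOk P E && (posChk A 10000 (lowL P E) && (upChk A 10000 P Q && (upOk P E && (upOk Q E &&
  (negChk C 10000 (upL P E) && (negChk C 10000 (upL Q E) &&
  (valLe A 10000 (upL Q E) (Nat.mul dd 100000000000000) && (Nat.ble A 60000 &&
    Nat.ble C 70000))))))))

structure Base (α : ℝ) (P Q E : List ℕ) (A C dd : ℕ) : Prop where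
  hL : Lobe α
  low : ∀ s : ℝ, 0 ≤ s → s ≤ (A : ℝ) / 10000 →
    0 < altE (lowL P E) s ∧ altE (lowL P E) s ≤ 100000000000000000000 * Phi α s
  up : ∀ s : ℝ, 0 ≤ s → s ≤ (A : ℝ) / 10000 →
    100000000000000000000 * Phi α s ≤ altE (upL Q E) s
  cz : (A : ℝ) / 10000 < z1 α
  zc : z1 α < (C : ℝ) / 10000
  dl : Phi α ((A : ℝ) / 10000) ≤ (dd : ℝ) / 1000000

theorem base_sound {α l : ℝ} {K : ℕ} {P Q E : List ℕ} {A C dd : ℕ} (hL : Lobe α) (hl : 0 ≤ l)
    (hl1 : l ≤ 1) (h : SBc α l K P Q E) (hc : baseChk P Q E A C dd = true) :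
    Base α P Q E A C dd := by
  unfold baseChk at hc
  simp only [Bool.and_eq_true, Nat.ble_eq] at hc
  obtain ⟨c1, c2, c3, c4, c5, c6, c7, c8, c9, c10⟩ := hc
  have hα := hL.one_lt
  have e4 : ((10000 : ℕ) : ℝ) = 10000 := by norm_num
  have hC7 : (C : ℝ) / 10000 ≤ 7 := by
    rw [div_le_iff₀ (by norm_num)]
    have : (C : ℝ) ≤ 70000 := by exact_mod_cast c10
    linarith
  have hA6 : (A : ℝ) / 10000 ≤ 6 := by
    rw [div_le_iff₀ (by norm_num)]
    have : (A : ℝ) ≤ 60000 := by exact_mod_cast c9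
    linarith
  have hA0 : (0 : ℝ) ≤ (A : ℝ) / 10000 := by positivity
  have hlow : ∀ s : ℝ, 0 ≤ s → s ≤ (A : ℝ) / 10000 →
      0 < altE (lowL P E) s ∧ altE (lowL P E) s ≤ 100000000000000000000 * Phi α s := by
    intro s hs hsA
    have k1 := lowL_le c1 hs (by linarith)
    have k2 := posChk_sound c2 hs (by rw [e4]; exact hsA)
    have k3 := upChk_sound c3 hs (by rw [e4]; exact hsA)
    have k4 := mul_le_mul_of_nonneg_left k3 hl
    refine ⟨k2, ?_⟩
    obtain ⟨a1, _⟩ := abs_le.1 (phi_of hα h hs)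
    have a2 : ((1 - l) * altE P s + l * altE Q s) / 100000000000000000000 -
        posE E s / 100000000000000000000 ≤ Phi α s := by linarith
    rw [← sub_div, div_le_iff₀ (by norm_num)] at a2
    linarith
  have hup : ∀ s : ℝ, 0 ≤ s → s ≤ (A : ℝ) / 10000 →
      100000000000000000000 * Phi α s ≤ altE (upL Q E) s := by
    intro s hs hsA
    have k3 := upChk_sound c3 hs (by rw [e4]; exact hsA)
    have k4 := mul_le_mul_of_nonneg_left k3 (show 0 ≤ 1 - l by linarith)
    obtain ⟨_, a1⟩ := abs_le.1 (phi_of hα h hs)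
    have a2 : Phi α s ≤ ((1 - l) * altE P s + l * altE Q s) / 100000000000000000000 +
        posE E s / 100000000000000000000 := by linarith
    rw [← add_div, le_div_iff₀ (by norm_num)] at a2
    have k5 := upL_ge c5 hs (by linarith)
    linarith
  have hC0 : (0 : ℝ) ≤ (C : ℝ) / 10000 := by positivity
  refine ⟨hL, hlow, hup, ?_, ?_, ?_⟩
  · refine lt_z1_of hL hA6 ?_
    have := hlow _ hA0 le_rfl
    by_contra hc
    push Not at hc
    linarith [this.1, this.2]
  · refine z1_lt_of hL hC0 ?_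
    have k1' := negChk_sound c6
    have k2' := negChk_sound c7
    rw [e4] at k1' k2'
    have k1 := (upL_ge c4 hC0 hC7).trans_lt k1'
    have k2 := (upL_ge c5 hC0 hC7).trans_lt k2'
    obtain ⟨_, a1⟩ := abs_le.1 (phi_of hα h hC0)
    have a2 : Phi α ((C : ℝ) / 10000) ≤ ((1 - l) * altE P ((C : ℝ) / 10000) +
        l * altE Q ((C : ℝ) / 10000)) / 100000000000000000000 +
        posE E ((C : ℝ) / 10000) / 100000000000000000000 := by linarith
    rw [← add_div] at a2
    refine a2.trans_lt (div_neg_of_neg_of_pos ?_ (by norm_num))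
    rcases eq_or_lt_of_le hl with h0 | h0
    · rw [← h0]
      linarith
    · have m1 := mul_neg_of_pos_of_neg h0 k2
      have m2 := mul_nonneg (show 0 ≤ 1 - l by linarith) (neg_nonneg.2 k1.le)
      linarith
  · have k1 := valLe_sound c8
    rw [e4] at k1
    have k2 := hup _ hA0 le_rfl
    have e5 : ((Nat.mul dd 100000000000000 : ℕ) : ℝ) = (dd : ℝ) * 100000000000000 := by
      show ((dd * 100000000000000 : ℕ) : ℝ) = _
      push_cast
      ring
    rw [e5] at k1
    rw [le_div_iff₀ (by norm_num)]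
    linarith

variable {α l : ℝ} {P Q E : List ℕ} {A C dd : ℕ}

theorem Base.A0 (_ : Base α P Q E A C dd) : (0 : ℝ) ≤ (A : ℝ) / 10000 := by positivity

/-- `Phi` decreases on the main lobe -/
theorem phi_anti (h : Lobe α) {a b : ℝ} (ha : 0 ≤ a) (hab : a ≤ b) (hb : b ≤ z1 α) :
    Phi α b ≤ Phi α a := by
  rcases eq_or_lt_of_le hb with h1 | h1
  · rw [h1, h.zero]
    exact h.nonneg ha (hab.trans hb)
  rcases eq_or_lt_of_le hab with h2 | h2
  · rw [h2]
  have hb0 : 0 < b := ha.trans_lt h2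
  have hc := h.conc.2 (show (0 : ℝ) ∈ Ico 0 (z1 α) from ⟨le_refl _, h.z1_pos⟩)
      (show b ∈ Ico 0 (z1 α) from ⟨hb0.le, h1⟩) (show 0 ≤ 1 - a / b by
        rw [sub_nonneg, div_le_one hb0]; exact hab) (show 0 ≤ a / b by positivity) (by ring)
  have e1 : (1 - a / b) • (0 : ℝ) + (a / b) • b = a := by
    simp only [smul_eq_mul]; field_simp; ring
  rw [e1] at hc
  simp only [smul_eq_mul, Phi_zero h.one_lt, log_one] at hc
  have hpb := h.pos b hb0.le h1
  have hpa := h.pos a ha (h2.trans h1)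
  rw [← log_le_log_iff hpb hpa]
  have hr : a / b ≤ 1 := by rw [div_le_one hb0]; exact hab
  have hr0 : 0 ≤ a / b := by positivity
  have hlog : log (Phi α b) ≤ 0 := by
    have h3 := h.le_exp hb0.le h1.le
    have h4 : Phi α b ≤ 1 := h3.trans (exp_le_one_iff.2 (by linarith))
    exact log_nonpos hpb.le h4
  have k0 := h.k0_nonneg
  have k1 := h.k1_nonneg
  -- `a = (a / b) b`
  set r := a / b with hrd
  have har : a = r * b := by rw [hrd]; field_simp
  have g1 : r * (log (Phi α b) + LpSec.k0 α * b ^ 2 / 2 + LpSec.k1 α * b ^ 3 / 6) ≤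
      log (Phi α a) + LpSec.k0 α * a ^ 2 / 2 + LpSec.k1 α * a ^ 3 / 6 := by
    linarith
  have g2 : LpSec.k0 α * a ^ 2 / 2 ≤ r * (LpSec.k0 α * b ^ 2 / 2) := by
    rw [har]
    have : r ^ 2 ≤ r := by nlinarith
    have h5 := mul_le_mul_of_nonneg_right this (show 0 ≤ LpSec.k0 α * b ^ 2 / 2 by positivity)
    linarith
  have g3 : LpSec.k1 α * a ^ 3 / 6 ≤ r * (LpSec.k1 α * b ^ 3 / 6) := by
    rw [har]
    have h4 : r ^ 3 ≤ r := by
      have : r ^ 2 ≤ 1 := by nlinarith
      nlinarith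
    have h5 := mul_le_mul_of_nonneg_right h4 (show 0 ≤ LpSec.k1 α * b ^ 3 / 6 by positivity)
    linarith
  have g4 : log (Phi α b) ≤ r * log (Phi α b) := by nlinarith
  linarith


/-! ## integrals over the main lobe -/

theorem prod_rep (n : ℕ) (L : List ℕ) (x : ℝ) :
    ((List.replicate n L).map fun p => altE p x).prod = altE L x ^ n := by
  rw [List.map_replicate, List.prod_replicate]

theorem tk_cont' (hα : 1 < α) (n k : ℕ) :
    ContinuousOn (fun t : ℝ => t ^ k * Phi α t ^ n) (Ici 0) := tk_cont hα n k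

/-- lower bound of the integral over `[t, z1]` -/
theorem seg_low (hB : Base α P Q E A C dd) (n k : ℕ) {t : ℝ} (ht : 0 ≤ t)
    (htA : t ≤ (A : ℝ) / 10000) :
    (∫ x in (0 : ℝ)..((A : ℝ) / 10000), x ^ k * altE (lowL P E) x ^ n) -
      (∫ x in (0 : ℝ)..t, x ^ k * altE (lowL P E) x ^ n) ≤
    100000000000000000000 ^ n * ∫ x in t..(z1 α), x ^ k * Phi α x ^ n := by
  have hα := hB.hL.one_lt
  have hA0 := hB.A0
  have hc := tk_cont hα n k
  have cL : Continuous fun x : ℝ => x ^ k * altE (lowL P E) x ^ n := by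
    have := altE_continuous (lowL P E)
    fun_prop
  have e1 := integral_add_adjacent_intervals (μ := volume)
    (cL.intervalIntegrable 0 t) (cL.intervalIntegrable t ((A : ℝ) / 10000))
  have e2 := integral_add_adjacent_intervals (μ := volume)
    (ii_of hc ht hA0) (ii_of hc hA0 (hA0.trans hB.cz.le))
  rw [← e1, ← e2, add_sub_cancel_left, mul_add]
  have h1 : 0 ≤ ∫ x in ((A : ℝ) / 10000)..(z1 α), x ^ k * Phi α x ^ n := by
    refine intervalIntegral.integral_nonneg hB.cz.le fun x hx => ?_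
    have h0 : 0 ≤ x := hA0.trans hx.1
    have := hB.hL.nonneg h0 hx.2
    positivity
  have h2 : ∫ x in t..((A : ℝ) / 10000), x ^ k * altE (lowL P E) x ^ n ≤
      ∫ x in t..((A : ℝ) / 10000), 100000000000000000000 ^ n * (x ^ k * Phi α x ^ n) := by
    refine intervalIntegral.integral_mono_on htA (cL.intervalIntegrable _ _)
      ((ii_of hc ht hA0).const_mul _) fun x hx => ?_
    have hx0 : 0 ≤ x := ht.trans hx.1
    obtain ⟨b1, b2⟩ := hB.low x hx0 hx.2
    have b3 := pow_le_pow_left₀ b1.le b2 n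
    rw [mul_pow] at b3
    have b4 := mul_le_mul_of_nonneg_left b3 (pow_nonneg hx0 k)
    linarith
  rw [intervalIntegral.integral_const_mul] at h2
  have h3 : (0 : ℝ) ≤ 100000000000000000000 ^ n * ∫ x in ((A : ℝ) / 10000)..(z1 α),
      x ^ k * Phi α x ^ n := mul_nonneg (by positivity) h1
  linarith

theorem pow_cast (V n : ℕ) : ((Nat.mul V (Nat.pow 100000000000000000000 n) : ℕ) : ℝ) =
    (V : ℝ) * 100000000000000000000 ^ n := by
  show ((V * 100000000000000000000 ^ n : ℕ) : ℝ) = _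
  push_cast
  ring

theorem im_low (hB : Base α P Q E A C dd) {Bs Lc n k V : ℕ}
    (h : geChk Bs Lc A 10000 k (List.replicate n (lowL P E))
      (Nat.mul V (Nat.pow 100000000000000000000 n)) 100000000 = true) :
    (V : ℝ) / 10 ^ 8 ≤ Im α n k := by
  have h1 := ge_of_chk h
  simp only [prod_rep] at h1
  have e4 : ((10000 : ℕ) : ℝ) = 10000 := by norm_num
  have e5 : ((100000000 : ℕ) : ℝ) = 10 ^ 8 := by norm_num
  rw [e4, e5, pow_cast] at h1
  have h2 := seg_low hB n k le_rfl hB.A0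
  rw [intervalIntegral.integral_same, sub_zero] at h2
  have h3 := h1.trans h2
  have hS : (0 : ℝ) < 100000000000000000000 ^ n := by positivity
  rw [mul_div_right_comm, mul_comm] at h3
  exact le_of_mul_le_mul_left h3 hS

/-- the rest between the cut point and `z1` -/
def restOk (A C dd n k R : ℕ) : Bool :=
  Nat.ble (Nat.mul (Nat.mul (Nat.mul (Nat.sub C A) (Nat.pow C k)) (Nat.pow dd n)) 100000000)
    (Nat.mul R (Nat.mul (Nat.pow 10000 (k + 1)) (Nat.pow 1000000 n)))

theorem rest_sound (hB : Base α P Q E A C dd) {n k R : ℕ} (h : restOk A C dd n k R = true) :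
    ∫ x in ((A : ℝ) / 10000)..(z1 α), x ^ k * Phi α x ^ n ≤ (R : ℝ) / 10 ^ 8 := by
  have hα := hB.hL.one_lt
  have hA0 := hB.A0
  have hcz := hB.cz
  have hzc := hB.zc
  have hC0 : (0 : ℝ) ≤ (C : ℝ) / 10000 := by positivity
  have hd := hB.dl
  have hd0 : (0 : ℝ) ≤ (dd : ℝ) / 1000000 := by positivity
  have h1 : ∫ x in ((A : ℝ) / 10000)..(z1 α), x ^ k * Phi α x ^ n ≤
      ∫ _x in ((A : ℝ) / 10000)..(z1 α), ((C : ℝ) / 10000) ^ k * ((dd : ℝ) / 1000000) ^ n := by
    refine intervalIntegral.integral_mono_on hcz.le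
      (ii_of (tk_cont hα n k) hA0 (hA0.trans hcz.le)) (by simp) fun x hx => ?_
    have hx0 : 0 ≤ x := hA0.trans hx.1
    have h2 := phi_anti hB.hL hA0 hx.1 hx.2
    have h3 := hB.hL.nonneg hx0 hx.2
    exact mul_le_mul (pow_le_pow_left₀ hx0 (by linarith [hx.2]) k)
      (pow_le_pow_left₀ h3 (h2.trans hd) n) (pow_nonneg h3 n) (by positivity)
  refine h1.trans ?_
  rw [intervalIntegral.integral_const, smul_eq_mul]
  have hAC : A ≤ C := by
    have : (A : ℝ) / 10000 < (C : ℝ) / 10000 := hcz.trans hzc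
    rw [div_lt_div_iff_of_pos_right (by norm_num)] at this
    exact_mod_cast this.le
  have h2 : z1 α - (A : ℝ) / 10000 ≤ ((C - A : ℕ) : ℝ) / 10000 := by
    rw [Nat.cast_sub hAC, sub_div]
    linarith
  have h3 : (0 : ℝ) ≤ ((C : ℝ) / 10000) ^ k * ((dd : ℝ) / 1000000) ^ n := by positivity
  refine (mul_le_mul_of_nonneg_right h2 h3).trans ?_
  unfold restOk at h
  rw [Nat.ble_eq] at h
  have h4 : (C - A) * C ^ k * dd ^ n * 100000000 ≤ R * (10000 ^ (k + 1) * 1000000 ^ n) := h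
  have h5 : (((C - A) * C ^ k * dd ^ n * 100000000 : ℕ) : ℝ) ≤
      ((R * (10000 ^ (k + 1) * 1000000 ^ n) : ℕ) : ℝ) := Nat.cast_le.2 h4
  rw [Nat.cast_mul, Nat.cast_mul, Nat.cast_mul, Nat.cast_mul, Nat.cast_mul, Nat.cast_pow,
    Nat.cast_pow, Nat.cast_pow, Nat.cast_pow] at h5
  have e4 : ((10000 : ℕ) : ℝ) = 10000 := by norm_num
  have e6 : ((1000000 : ℕ) : ℝ) = 1000000 := by norm_num
  have e8 : ((100000000 : ℕ) : ℝ) = 100000000 := by norm_num
  rw [e4, e6, e8] at h5
  have e9 : ((C - A : ℕ) : ℝ) / 10000 * (((C : ℝ) / 10000) ^ k * ((dd : ℝ) / 1000000) ^ n) =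
      (((C - A : ℕ) : ℝ) * (C : ℝ) ^ k * (dd : ℝ) ^ n) / (10000 ^ (k + 1) * 1000000 ^ n) := by
    rw [div_pow, div_pow, pow_succ]
    field_simp
  rw [e9, div_le_div_iff₀ (by positivity) (by positivity)]
  have e10 : (10 : ℝ) ^ 8 = 100000000 := by norm_num
  rw [e10]
  exact h5

theorem im_up (hB : Base α P Q E A C dd) {Bs Lc n k V R : ℕ}
    (h : leChk Bs Lc A 10000 k (List.replicate n (upL Q E))
      (Nat.mul V (Nat.pow 100000000000000000000 n)) 100000000 = true)
    (hr : restOk A C dd n k R = true) :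
    Im α n k ≤ ((V + R : ℕ) : ℝ) / 10 ^ 8 := by
  have h1 := le_of_chk h
  simp only [prod_rep] at h1
  have e4 : ((10000 : ℕ) : ℝ) = 10000 := by norm_num
  have e5 : ((100000000 : ℕ) : ℝ) = 10 ^ 8 := by norm_num
  rw [e4, e5, pow_cast] at h1
  have hα := hB.hL.one_lt
  have hA0 := hB.A0
  have hc := tk_cont hα n k
  have cU : Continuous fun x : ℝ => x ^ k * altE (upL Q E) x ^ n := by
    have := altE_continuous (upL Q E)
    fun_prop
  have e2 := integral_add_adjacent_intervals (μ := volume)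
    (ii_of hc le_rfl hA0) (ii_of hc hA0 (hA0.trans hB.cz.le))
  have h2 : ∫ x in (0 : ℝ)..((A : ℝ) / 10000), 100000000000000000000 ^ n * (x ^ k * Phi α x ^ n) ≤
      ∫ x in (0 : ℝ)..((A : ℝ) / 10000), x ^ k * altE (upL Q E) x ^ n := by
    refine intervalIntegral.integral_mono_on hA0 ((ii_of hc le_rfl hA0).const_mul _)
      (cU.intervalIntegrable _ _) fun x hx => ?_
    have hx0 : 0 ≤ x := hx.1
    have b1 := hB.hL.nonneg hx0 (hx.2.trans hB.cz.le)
    have b2 := hB.up x hx0 hx.2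
    have b3 := pow_le_pow_left₀ (by positivity) b2 n
    rw [mul_pow] at b3
    have b4 := mul_le_mul_of_nonneg_left b3 (pow_nonneg hx0 k)
    linarith
  rw [intervalIntegral.integral_const_mul] at h2
  have h3 := h2.trans h1
  have hS : (0 : ℝ) < 100000000000000000000 ^ n := by positivity
  have h4 : ∫ x in (0 : ℝ)..((A : ℝ) / 10000), x ^ k * Phi α x ^ n ≤ (V : ℝ) / 10 ^ 8 := by
    rw [mul_div_right_comm, mul_comm ((V : ℝ) / 10 ^ 8)] at h3
    exact le_of_mul_le_mul_left h3 hS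
  have h5 := rest_sound hB hr
  unfold Im
  rw [← e2]
  push_cast
  rw [add_div]
  linarith

theorem wm_low (hB : Base α P Q E A C dd) {Bs Lc n V0 a v w : ℕ}
    (h0 : geChk Bs Lc A 10000 0 (List.replicate n (lowL P E))
      (Nat.mul V0 (Nat.pow 100000000000000000000 n)) 10000000000 = true)
    (h : leChk Bs Lc a 10000 0 (List.replicate n (lowL P E))
      (Nat.mul v (Nat.pow 100000000000000000000 n)) 10000000000 = true)
    (ha : a ≤ A) (hw : 100 * w + v ≤ V0) {t : ℝ} (ht : 0 ≤ t) (hta : t ≤ (a : ℝ) / 10000) :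
    t ≤ z1 α ∧ (w : ℝ) / 10 ^ 8 ≤ Wm α n t := by
  have h1 := ge_of_chk h0
  have h2 := le_of_chk h
  simp only [prod_rep] at h1 h2
  have e4 : ((10000 : ℕ) : ℝ) = 10000 := by norm_num
  have e5 : ((10000000000 : ℕ) : ℝ) = 10 ^ 10 := by norm_num
  rw [e4, e5, pow_cast] at h1 h2
  have haA : (a : ℝ) / 10000 ≤ (A : ℝ) / 10000 := by
    have : (a : ℝ) ≤ A := by exact_mod_cast ha
    exact div_le_div_of_nonneg_right this (by norm_num)
  have ha0 : (0 : ℝ) ≤ (a : ℝ) / 10000 := by positivity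
  have h3 := seg_low hB n 0 ha0 haA
  have hz : (a : ℝ) / 10000 ≤ z1 α := haA.trans hB.cz.le
  refine ⟨hta.trans hz, ?_⟩
  refine le_trans ?_ (Wm_anti hB.hL n ht hta hz)
  unfold Wm
  simp only [pow_zero, one_mul] at h1 h2 h3
  have hS : (0 : ℝ) < 100000000000000000000 ^ n := by positivity
  have hw' : 100 * (w : ℝ) + v ≤ V0 := by exact_mod_cast hw
  have h4 : (V0 : ℝ) * 100000000000000000000 ^ n / 10 ^ 10 -
      (v : ℝ) * 100000000000000000000 ^ n / 10 ^ 10 ≤
      100000000000000000000 ^ n * ∫ x in ((a : ℝ) / 10000)..(z1 α), Phi α x ^ n := by linarith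
  have h5 : 100000000000000000000 ^ n * (((V0 : ℝ) - v) / 10 ^ 10) ≤
      100000000000000000000 ^ n * ∫ x in ((a : ℝ) / 10000)..(z1 α), Phi α x ^ n := by
    refine le_trans (le_of_eq ?_) h4
    ring
  have h6 := le_of_mul_le_mul_left h5 hS
  refine le_trans ?_ h6
  rw [div_le_div_iff₀ (by norm_num) (by norm_num)]
  nlinarith

/-! ## the check of `NumOk` -/

/-- digits from `g` on -/
def wChk (Bs Lc A C n V0 : ℕ) (L : List ℕ) : ℕ → List ℕ → List (ℕ × ℕ) → Bool
  | g, w :: ws, p :: ps => (Nat.beq w 0 || (Nat.blt 0 g && (Nat.ble p.1 A &&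
      (Nat.ble (Nat.mul 50 C) (Nat.mul p.1 (Nat.mul n g)) &&
      (leChk Bs Lc p.1 10000 0 (List.replicate n L)
        (Nat.mul p.2 (Nat.pow 100000000000000000000 n)) 10000000000 &&
      Nat.ble (Nat.add (Nat.mul 100 w) p.2) V0))))) &&
      (Nat.blt w 4294967296 && wChk Bs Lc A C n V0 L (g + 1) ws ps)
  | _, [], [] => true
  | _, _, _ => false

theorem wChk_sound {Bs Lc A C n V0 : ℕ} {L : List ℕ} : ∀ (ws : List ℕ) (ps : List (ℕ × ℕ))
    (g : ℕ), wChk Bs Lc A C n V0 L g ws ps = true → ∀ j, j < ws.length →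
    ws.getD j 0 < 4294967296 ∧ (ws.getD j 0 = 0 ∨ (0 < g + j ∧ ∃ a v : ℕ, a ≤ A ∧
      50 * C ≤ a * (n * (g + j)) ∧ leChk Bs Lc a 10000 0 (List.replicate n L)
        (Nat.mul v (Nat.pow 100000000000000000000 n)) 10000000000 = true ∧
      100 * ws.getD j 0 + v ≤ V0))
  | [], _, _, _, j, hj => absurd hj (Nat.not_lt_zero j)
  | w :: ws, [], g, h, _, _ => by
    have h' : false = true := h
    exact absurd h' (by decide)
  | w :: ws, p :: ps, g, h, j, hj => by
    have h' : ((Nat.beq w 0 || (Nat.blt 0 g && (Nat.ble p.1 A &&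
      (Nat.ble (Nat.mul 50 C) (Nat.mul p.1 (Nat.mul n g)) &&
      (leChk Bs Lc p.1 10000 0 (List.replicate n L)
        (Nat.mul p.2 (Nat.pow 100000000000000000000 n)) 10000000000 &&
      Nat.ble (Nat.add (Nat.mul 100 w) p.2) V0))))) &&
      (Nat.blt w 4294967296 && wChk Bs Lc A C n V0 L (g + 1) ws ps)) = true := h
    rw [Bool.and_eq_true, Bool.and_eq_true, Nat.blt_eq] at h'
    obtain ⟨h1, h2, h3⟩ := h'
    cases j with
    | zero =>
      refine ⟨h2, ?_⟩
      simp only [List.getD_cons_zero, Nat.add_zero]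
      rw [Bool.or_eq_true] at h1
      rcases h1 with h1 | h1
      · left
        exact Nat.eq_of_beq_eq_true h1
      · right
        simp only [Bool.and_eq_true, Nat.blt_eq, Nat.ble_eq] at h1
        obtain ⟨k1, k2, k3, k4, k5⟩ := h1
        exact ⟨k1, p.1, p.2, k2, k3, k4, k5⟩
    | succ j =>
      have := wChk_sound ws ps (g + 1) h3 j (Nat.lt_of_succ_lt_succ hj)
      have e : g + 1 + j = g + (j + 1) := by omega
      rw [e] at this
      simp only [List.getD_cons_succ]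
      exact this

/-- auxiliary numbers for `NumOk` -/
structure NumF where
  Bs : ℕ
  Lc : ℕ
  r0 : ℕ
  r4 : ℕ
  r5 : ℕ
  r6 : ℕ
  r7 : ℕ
  r8 : ℕ
  V0 : ℕ
  ws : List ℕ
  ps : List (ℕ × ℕ)

def upC (Bs Lc A C dd n : ℕ) (U : List ℕ) (k j R : ℕ) : Bool :=
  Nat.ble R j && (leChk Bs Lc A 10000 k (List.replicate n U)
    (Nat.mul (Nat.sub j R) (Nat.pow 100000000000000000000 n)) 100000000 && restOk A C dd n k R)

def loC (Bs Lc A n : ℕ) (L : List ℕ) (k V : ℕ) : Bool :=
  geChk Bs Lc A 10000 k (List.replicate n L) (Nat.mul V (Nat.pow 100000000000000000000 n))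
    100000000

def numChk (L U : List ℕ) (A C dd : ℕ) (N : NumD) (F : NumF) : Bool :=
  loC F.Bs F.Lc A N.n L 2 N.i2 && (loC F.Bs F.Lc A N.n L 3 N.i3 && (loC F.Bs F.Lc A N.n L 4 N.i4 &&
  (upC F.Bs F.Lc A C dd N.n U 0 N.j0 F.r0 && (upC F.Bs F.Lc A C dd N.n U 4 N.j4 F.r4 &&
  (upC F.Bs F.Lc A C dd N.n U 5 N.j5 F.r5 && (upC F.Bs F.Lc A C dd N.n U 6 N.j6 F.r6 &&
  (upC F.Bs F.Lc A C dd N.n U 7 N.j7 F.r7 && (upC F.Bs F.Lc A C dd N.n U 8 N.j8 F.r8 &&
  (geChk F.Bs F.Lc A 10000 0 (List.replicate N.n L)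
      (Nat.mul F.V0 (Nat.pow 100000000000000000000 N.n)) 10000000000 &&
  (wChk F.Bs F.Lc A C N.n F.V0 L 0 F.ws F.ps && (Nat.ble F.ws.length 50 &&
    (Nat.beq N.w (wpack F.ws) && Nat.blt 0 N.n))))))))))))

theorem upC_sound (hB : Base α P Q E A C dd) {Bs Lc n k j R : ℕ}
    (h : upC Bs Lc A C dd n (upL Q E) k j R = true) : Im α n k ≤ (j : ℝ) / 10 ^ 8 := by
  unfold upC at h
  simp only [Bool.and_eq_true, Nat.ble_eq] at h
  obtain ⟨h1, h2, h3⟩ := h
  have := im_up hB h2 h3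
  have e : Nat.sub j R + R = j := Nat.sub_add_cancel h1
  rwa [e] at this

theorem num_sound (hB : Base α P Q E A C dd) {c : CellD} (hch : c.ch = 10000 * C) {N : NumD}
    {F : NumF} (h : numChk (lowL P E) (upL Q E) A C dd N F = true) : NumOk α c N := by
  unfold numChk at h
  simp only [Bool.and_eq_true, Nat.ble_eq, Nat.blt_eq] at h
  obtain ⟨h1, h2, h3, h4, h5, h6, h7, h8, h9, h10, h11, h12, h13, h14⟩ := h
  refine ⟨im_low hB h1, im_low hB h2, im_low hB h3, upC_sound hB h4, upC_sound hB h5,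
    upC_sound hB h6, upC_sound hB h7, upC_sound hB h8, upC_sound hB h9, ?_⟩
  have hw : N.w = wpack F.ws := Nat.eq_of_beq_eq_true h13
  have key := wChk_sound F.ws F.ps 0 h11
  refine NumOk.w_of_list hw ?_ ?_
  · intro a ha
    obtain ⟨j, hj, rfl⟩ := List.getElem_of_mem ha
    have := (key j hj).1
    rwa [List.getD_eq_getElem _ _ hj] at this
  · intro g hg
    rcases Nat.lt_or_ge g F.ws.length with hgl | hgl
    · rcases (key g hgl).2 with h0 | ⟨hg0, a, v, k1, k2, k3, k4⟩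
      · exact Or.inl h0
      · right
        rw [Nat.zero_add] at hg0 k2
        have e1 : (50 * c.ch : ℝ) / (10 ^ 8 * (N.n * g : ℕ)) =
            (50 * C : ℝ) / (10000 * (N.n * g : ℕ)) := by
          rw [hch]
          push_cast
          have hn : (N.n : ℝ) ≠ 0 := by exact_mod_cast h14.ne'
          have hgg : (g : ℝ) ≠ 0 := by exact_mod_cast hg0.ne'
          field_simp
          ring
        rw [e1]
        have hng : (0 : ℝ) < ((N.n * g : ℕ) : ℝ) := by exact_mod_cast Nat.mul_pos h14 hg0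
        have ht : (50 * C : ℝ) / (10000 * (N.n * g : ℕ)) ≤ (a : ℝ) / 10000 := by
          have k2' : (50 * C : ℝ) ≤ a * ((N.n * g : ℕ) : ℝ) := by exact_mod_cast k2
          rw [div_le_div_iff₀ (by positivity) (by norm_num)]
          nlinarith
        obtain ⟨r1, r2⟩ := wm_low hB h10 k3 k1 k4 (t := (50 * C : ℝ) / (10000 * (N.n * g : ℕ)))
          (by positivity) ht
        exact ⟨hg0, r1, r2⟩
    · left
      exact List.getD_eq_default _ _ hgl

end LpSec.Fl
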