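import Mathlib
import Pool.Agent.Lib.MP_1dbab3_gt.W.Fl

/-!
# Filling of the numeric structures: `T2` at points, `CellOk`, `PairOk`
-/

open Real MeasureTheory Set Filter Topology intervalIntegral

namespace LpSec.Fl

open LpSec.W LpSec.ML

/-- `∫_0^T Phi^2` from above -/
theorem sq_int_le {T q : ℝ} (hT : 0 ≤ T) (hq : 0 < q) {α l : ℝ} (hα : 1 < α)
    {A B E : List ℕ} (hP : ∀ s, 0 ≤ s → s ≤ T →
      |Phi α s - ((1 - l) * altE A s + l * altE B s) / 100000000000000000000| ≤
      altE E s / 100000000000000000000) :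
    ∫ s in (0 : ℝ)..T, Phi α s ^ 2 ≤
    (1 - l) ^ 2 * ((∫ s in (0 : ℝ)..T, altE A s * altE A s) / 100000000000000000000 ^ 2 +
        q * ((∫ s in (0 : ℝ)..T, altE A s * altE A s * altE E s) / 100000000000000000000 ^ 3)) +
      2 * l * (1 - l) * ((∫ s in (0 : ℝ)..T, altE A s * altE B s) / 100000000000000000000 ^ 2 +
        q * ((∫ s in (0 : ℝ)..T, altE A s * altE B s * altE E s) / 100000000000000000000 ^ 3)) +
      l ^ 2 * ((∫ s in (0 : ℝ)..T, altE B s * altE B s) / 100000000000000000000 ^ 2 +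
        q * ((∫ s in (0 : ℝ)..T, altE B s * altE B s * altE E s) / 100000000000000000000 ^ 3)) +
      (∫ s in (0 : ℝ)..T, altE E s) / 100000000000000000000 / q +
      (∫ s in (0 : ℝ)..T, altE E s * altE E s) / 100000000000000000000 ^ 2 := by
  have cA := altE_continuous A
  have cB := altE_continuous B
  have cE := altE_continuous E
  have cP : ContinuousOn (fun s => Phi α s ^ 2) (uIcc 0 T) := by
    rw [uIcc_of_le hT]
    exact ((Phi_continuousOn hα).mono Icc_subset_Ici_self).pow 2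
  have iAA : IntervalIntegrable (fun s => altE A s * altE A s) volume 0 T :=
    (cA.mul cA).intervalIntegrable _ _
  have iAB : IntervalIntegrable (fun s => altE A s * altE B s) volume 0 T :=
    (cA.mul cB).intervalIntegrable _ _
  have iBB : IntervalIntegrable (fun s => altE B s * altE B s) volume 0 T :=
    (cB.mul cB).intervalIntegrable _ _
  have iAAE : IntervalIntegrable (fun s => altE A s * altE A s * altE E s) volume 0 T :=
    ((cA.mul cA).mul cE).intervalIntegrable _ _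
  have iABE : IntervalIntegrable (fun s => altE A s * altE B s * altE E s) volume 0 T :=
    ((cA.mul cB).mul cE).intervalIntegrable _ _
  have iBBE : IntervalIntegrable (fun s => altE B s * altE B s * altE E s) volume 0 T :=
    ((cB.mul cB).mul cE).intervalIntegrable _ _
  have iE : IntervalIntegrable (fun s => altE E s) volume 0 T := cE.intervalIntegrable _ _
  have iEE : IntervalIntegrable (fun s => altE E s * altE E s) volume 0 T :=
    (cE.mul cE).intervalIntegrable _ _
  set S : ℝ := 100000000000000000000 with hS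
  have hS0 : 0 < S := by rw [hS]; norm_num
  have hup : ∀ s ∈ Icc (0 : ℝ) T, Phi α s ^ 2 ≤
      (1 - l) ^ 2 / S ^ 2 * (altE A s * altE A s) + 2 * l * (1 - l) / S ^ 2 * (altE A s * altE B s) +
      l ^ 2 / S ^ 2 * (altE B s * altE B s) +
      (q * (1 - l) ^ 2 / S ^ 3 * (altE A s * altE A s * altE E s) +
        2 * q * l * (1 - l) / S ^ 3 * (altE A s * altE B s * altE E s) +
        q * l ^ 2 / S ^ 3 * (altE B s * altE B s * altE E s)) + 1 / (q * S) * altE E s +
      1 / S ^ 2 * (altE E s * altE E s) := by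
    intro s hs
    have h := hP s hs.1 hs.2
    set f : ℝ := ((1 - l) * altE A s + l * altE B s) / S with hf
    set e : ℝ := altE E s / S with he
    have he0 : 0 ≤ e := (abs_nonneg _).trans h
    have e1 : (1 - l) ^ 2 / S ^ 2 * (altE A s * altE A s) +
        2 * l * (1 - l) / S ^ 2 * (altE A s * altE B s) +
        l ^ 2 / S ^ 2 * (altE B s * altE B s) +
        (q * (1 - l) ^ 2 / S ^ 3 * (altE A s * altE A s * altE E s) +
          2 * q * l * (1 - l) / S ^ 3 * (altE A s * altE B s * altE E s) +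
          q * l ^ 2 / S ^ 3 * (altE B s * altE B s * altE E s)) + 1 / (q * S) * altE E s +
        1 / S ^ 2 * (altE E s * altE E s) =
        f ^ 2 + e * (q * f ^ 2 + 1 / q) + e ^ 2 := by
      rw [hf, he]
      field_simp
      ring
    rw [e1]
    have h3 : 2 * f * (Phi α s - f) ≤ e * (2 * |f|) := by
      have h4 : |2 * f * (Phi α s - f)| ≤ 2 * |f| * e := by
        rw [abs_mul, abs_mul, abs_two]
        exact mul_le_mul_of_nonneg_left h (by positivity)
      have := (abs_le.1 h4).2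
      linarith
    have h5 : 2 * |f| ≤ q * f ^ 2 + 1 / q := by
      have h6 : |f| ^ 2 = f ^ 2 := sq_abs f
      have h9 : q * f ^ 2 + 1 / q - 2 * |f| = (q * |f| - 1) ^ 2 / q := by
        rw [← h6]
        field_simp
        ring
      have h10 : 0 ≤ (q * |f| - 1) ^ 2 / q := by positivity
      linarith
    have h7 := mul_le_mul_of_nonneg_left h5 he0
    have h8 : (Phi α s - f) ^ 2 ≤ e ^ 2 := by
      rw [← sq_abs (Phi α s - f)]
      exact pow_le_pow_left₀ (abs_nonneg _) h 2
    nlinarith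
  have hint := integral_mono_on (μ := volume) (a := (0 : ℝ)) (b := T) hT
    cP.intervalIntegrable ?_ hup
  · refine hint.trans (le_of_eq ?_)
    rw [intervalIntegral.integral_add, intervalIntegral.integral_add,
      intervalIntegral.integral_add, intervalIntegral.integral_add,
      intervalIntegral.integral_add, intervalIntegral.integral_add,
      intervalIntegral.integral_add,
      intervalIntegral.integral_const_mul, intervalIntegral.integral_const_mul,
      intervalIntegral.integral_const_mul, intervalIntegral.integral_const_mul,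
      intervalIntegral.integral_const_mul, intervalIntegral.integral_const_mul,
      intervalIntegral.integral_const_mul, intervalIntegral.integral_const_mul]
    · field_simp
      ring
    all_goals
      first
        | exact (iAAE.const_mul _)
        | exact (iABE.const_mul _)
        | exact (iBBE.const_mul _)
        | exact (iAA.const_mul _)
        | exact (iAB.const_mul _)
        | exact (iBB.const_mul _)
        | exact (iE.const_mul _)
        | exact (iEE.const_mul _)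
        | exact ((iAAE.const_mul _).add (iABE.const_mul _))
        | exact (((iAAE.const_mul _).add (iABE.const_mul _)).add (iBBE.const_mul _))
        | exact ((iAA.const_mul _).add (iAB.const_mul _))
        | exact (((iAA.const_mul _).add (iAB.const_mul _)).add (iBB.const_mul _))
        | exact ((((iAA.const_mul _).add (iAB.const_mul _)).add (iBB.const_mul _)).add
            (((iAAE.const_mul _).add (iABE.const_mul _)).add (iBBE.const_mul _)))
        | exact (((((iAA.const_mul _).add (iAB.const_mul _)).add (iBB.const_mul _)).add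
            (((iAAE.const_mul _).add (iABE.const_mul _)).add (iBBE.const_mul _))).add
              (iE.const_mul _))
  · refine Continuous.intervalIntegrable ?_ _ _
    fun_prop

/-! ## `T2` at a point `a / 40000` -/

/-- numbers of a point (scale `10^9`) -/
structure T2P where
  a : ℕ
  i00 : ℕ
  i01 : ℕ
  i11 : ℕ
  j00 : ℕ
  j01 : ℕ
  j11 : ℕ
  h : ℕ
  h2 : ℕ
  q : ℕ

def gI (B L a : ℕ) (ps : List (List ℕ)) (m v : ℕ) : Bool :=
  geChk B L a 40000 0 ps (Nat.mul v (Nat.pow 100000000000000000000 m)) 1000000000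

def lI (B L a : ℕ) (ps : List (List ℕ)) (m v : ℕ) : Bool :=
  leChk B L a 40000 0 ps (Nat.mul v (Nat.pow 100000000000000000000 m)) 1000000000

theorem gI_two {B L a v : ℕ} {X Y : List ℕ} (h : gI B L a [X, Y] 2 v = true) :
    (v : ℝ) / 1000000000 ≤ (∫ s in (0 : ℝ)..((a : ℝ) / 40000), altE X s * altE Y s) /
      100000000000000000000 ^ 2 := by
  have h1 := ge_of_chk h
  have e1 : ((40000 : ℕ) : ℝ) = 40000 := by norm_num
  have e2 : ((1000000000 : ℕ) : ℝ) = 1000000000 := by norm_num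
  rw [e1, e2, pow_cast] at h1
  simp only [List.map_cons, List.map_nil, List.prod_cons, List.prod_nil, mul_one, pow_zero,
    one_mul] at h1
  rw [le_div_iff₀ (by norm_num)]
  refine le_trans (le_of_eq ?_) h1
  ring

theorem lI_two {B L a v : ℕ} {X Y : List ℕ} (h : lI B L a [X, Y] 2 v = true) :
    (∫ s in (0 : ℝ)..((a : ℝ) / 40000), altE X s * altE Y s) /
      100000000000000000000 ^ 2 ≤ (v : ℝ) / 1000000000 := by
  have h1 := le_of_chk h
  have e1 : ((40000 : ℕ) : ℝ) = 40000 := by norm_num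
  have e2 : ((1000000000 : ℕ) : ℝ) = 1000000000 := by norm_num
  rw [e1, e2, pow_cast] at h1
  simp only [List.map_cons, List.map_nil, List.prod_cons, List.prod_nil, mul_one, pow_zero,
    one_mul] at h1
  rw [div_le_iff₀ (by norm_num)]
  refine h1.trans (le_of_eq ?_)
  ring

theorem lI_three {B L a v : ℕ} {X Y Z : List ℕ} (h : lI B L a [X, Y, Z] 3 v = true) :
    (∫ s in (0 : ℝ)..((a : ℝ) / 40000), altE X s * altE Y s * altE Z s) /
      100000000000000000000 ^ 3 ≤ (v : ℝ) / 1000000000 := by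
  have h1 := le_of_chk h
  have e1 : ((40000 : ℕ) : ℝ) = 40000 := by norm_num
  have e2 : ((1000000000 : ℕ) : ℝ) = 1000000000 := by norm_num
  rw [e1, e2, pow_cast] at h1
  simp only [List.map_cons, List.map_nil, List.prod_cons, List.prod_nil, mul_one, pow_zero,
    one_mul, ← mul_assoc] at h1
  rw [div_le_iff₀ (by norm_num)]
  refine h1.trans (le_of_eq ?_)
  ring

theorem lI_one {B L a v : ℕ} {X : List ℕ} (h : lI B L a [X] 1 v = true) :
    (∫ s in (0 : ℝ)..((a : ℝ) / 40000), altE X s) / 100000000000000000000 ≤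
      (v : ℝ) / 1000000000 := by
  have h1 := le_of_chk h
  have e1 : ((40000 : ℕ) : ℝ) = 40000 := by norm_num
  have e2 : ((1000000000 : ℕ) : ℝ) = 1000000000 := by norm_num
  rw [e1, e2, pow_cast] at h1
  simp only [List.map_cons, List.map_nil, List.prod_cons, List.prod_nil, mul_one, pow_zero,
    one_mul] at h1
  rw [div_le_iff₀ (by norm_num)]
  refine h1.trans (le_of_eq ?_)
  ring

/-- check for the upper bound of `T2` at `a / 40000`: `t` -/
def t2u (L2 L3 : ℕ) (P Q E' : List ℕ) (a0 a1 : ℕ) (d : T2P) (t : ℕ) : Bool :=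
  Nat.blt 0 d.q && (
  gI (Nat.pow 2 150) L2 d.a [P, P] 2 d.i00 && (gI (Nat.pow 2 150) L2 d.a [P, Q] 2 d.i01 && (
  gI (Nat.pow 2 150) L2 d.a [Q, Q] 2 d.i11 && (
  lI (Nat.pow 2 220) L3 d.a [P, P, E'] 3 d.j00 && (lI (Nat.pow 2 220) L3 d.a [P, Q, E'] 3 d.j01 && (
  lI (Nat.pow 2 220) L3 d.a [Q, Q, E'] 3 d.j11 && (lI (Nat.pow 2 100) L3 d.a [E'] 1 d.h && (
  Nat.ble (d.q * a0 + d.q * d.q * d.j00 + d.h) (d.q * t + d.q * d.i00) && (
  Nat.ble (d.q * (a0 + a1) + 2 * (d.q * d.q * d.j01) + 2 * d.h) (2 * (d.q * t) + 2 * (d.q * d.i01)) &&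
  Nat.ble (d.q * a1 + d.q * d.q * d.j11 + d.h) (d.q * t + d.q * d.i11))))))))))

/-- check for the lower bound of `T2` at `a / 40000`: `t` -/
def t2l (L2 L3 : ℕ) (P Q E' : List ℕ) (b0 b1 : ℕ) (d : T2P) (t : ℕ) : Bool :=
  Nat.blt 0 d.q && (
  lI (Nat.pow 2 150) L2 d.a [P, P] 2 d.i00 && (lI (Nat.pow 2 150) L2 d.a [P, Q] 2 d.i01 && (
  lI (Nat.pow 2 150) L2 d.a [Q, Q] 2 d.i11 && (
  lI (Nat.pow 2 220) L3 d.a [P, P, E'] 3 d.j00 && (lI (Nat.pow 2 220) L3 d.a [P, Q, E'] 3 d.j01 && (
  lI (Nat.pow 2 220) L3 d.a [Q, Q, E'] 3 d.j11 && (lI (Nat.pow 2 100) L3 d.a [E'] 1 d.h && (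
  lI (Nat.pow 2 150) L3 d.a [E', E'] 2 d.h2 && (
  Nat.ble (d.q * t + d.q * d.i00 + d.q * d.q * d.j00 + d.h + d.q * d.h2) (d.q * b0) && (
  Nat.ble (2 * (d.q * t) + 2 * (d.q * d.i01) + 2 * (d.q * d.q * d.j01) + 2 * d.h +
    2 * (d.q * d.h2)) (d.q * (b0 + b1)) &&
  Nat.ble (d.q * t + d.q * d.i11 + d.q * d.q * d.j11 + d.h + d.q * d.h2) (d.q * b1)))))))))))

theorem ev_phi {α l : ℝ} {K : ℕ} {P Q E : List ℕ} (hα : 1 < α) (h : SBc α l K P Q E) {s : ℝ}
    (hs : 0 ≤ s) : |Phi α s - ((1 - l) * altE P s + l * altE Q s) / 100000000000000000000| ≤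
      altE (evE 0 E) s / 100000000000000000000 := by
  refine (phi_of hα h hs).trans ?_
  have := evE_le hs 0 E
  rw [Nat.cast_zero, zero_add] at this
  exact div_le_div_of_nonneg_right this (by norm_num)

theorem t2u_sound {α l : ℝ} {K : ℕ} {P Q E : List ℕ} (hα : 1 < α) (hl : 0 ≤ l) (hl1 : l ≤ 1)
    (hS : SBc α l K P Q E) {L2 L3 a0 a1 t : ℕ} {d : T2P}
    (hA : AA α / 2 ≤ ((1 - l) * a0 + l * a1) / 1000000000)
    (hc : t2u L2 L3 P Q (evE 0 E) a0 a1 d t = true) :
    T2 α ((d.a : ℝ) / 40000) ≤ (t : ℝ) / 1000000000 := by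
  unfold t2u at hc
  simp only [Bool.and_eq_true, Nat.blt_eq, Nat.ble_eq] at hc
  obtain ⟨hq, c1, c2, c3, c4, c5, c6, c7, c8, c9, c10⟩ := hc
  have hq' : (0 : ℝ) < d.q := by exact_mod_cast hq
  have hT : (0 : ℝ) ≤ (d.a : ℝ) / 40000 := by positivity
  have key := sq_int_ge hT hq' hα (A := P) (B := Q) (E := evE 0 E) (l := l)
    fun s hs _ => ev_phi hα hS hs
  rw [T2_eq hα hT]
  have e1 := gI_two c1
  have e2 := gI_two c2
  have e3 := gI_two c3
  have e4 := mul_le_mul_of_nonneg_left (lI_three c4) hq'.le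
  have e5 := mul_le_mul_of_nonneg_left (lI_three c5) hq'.le
  have e6 := mul_le_mul_of_nonneg_left (lI_three c6) hq'.le
  have e7 := div_le_div_of_nonneg_right (lI_one c7) hq'.le
  have k8 := (Nat.cast_le (α := ℝ)).2 c8
  have k9 := (Nat.cast_le (α := ℝ)).2 c9
  have k10 := (Nat.cast_le (α := ℝ)).2 c10
  clear c1 c2 c3 c4 c5 c6 c7 c8 c9 c10
  push_cast at k8 k9 k10
  set I00 := (∫ s in (0 : ℝ)..((d.a : ℝ) / 40000), altE P s * altE P s) / 100000000000000000000 ^ 2
  set I01 := (∫ s in (0 : ℝ)..((d.a : ℝ) / 40000), altE P s * altE Q s) / 100000000000000000000 ^ 2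
  set I11 := (∫ s in (0 : ℝ)..((d.a : ℝ) / 40000), altE Q s * altE Q s) / 100000000000000000000 ^ 2
  set J00 := (∫ s in (0 : ℝ)..((d.a : ℝ) / 40000), altE P s * altE P s * altE (evE 0 E) s) /
    100000000000000000000 ^ 3
  set J01 := (∫ s in (0 : ℝ)..((d.a : ℝ) / 40000), altE P s * altE Q s * altE (evE 0 E) s) /
    100000000000000000000 ^ 3
  set J11 := (∫ s in (0 : ℝ)..((d.a : ℝ) / 40000), altE Q s * altE Q s * altE (evE 0 E) s) /
    100000000000000000000 ^ 3
  set H := (∫ s in (0 : ℝ)..((d.a : ℝ) / 40000), altE (evE 0 E) s) / 100000000000000000000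
  have w1 : 0 ≤ (1 - l) ^ 2 := by positivity
  have w2 : 0 ≤ 2 * l * (1 - l) := by
    have : 0 ≤ 1 - l := by linarith
    positivity
  have w3 : 0 ≤ l ^ 2 := by positivity
  have aux : ∀ X Y Z W : ℝ, (d.q : ℝ) * X + d.q * d.q * Y + d.h ≤ d.q * Z + d.q * W →
      X / 1000000000 - Z / 1000000000 + (d.h : ℝ) / 1000000000 / d.q ≤
        W / 1000000000 - d.q * (Y / 1000000000) := by
    intro X Y Z W h
    have e8 : (W / 1000000000 - d.q * (Y / 1000000000)) -
        (X / 1000000000 - Z / 1000000000 + (d.h : ℝ) / 1000000000 / d.q) =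
        ((d.q * Z + d.q * W) - ((d.q : ℝ) * X + d.q * d.q * Y + d.h)) / (1000000000 * d.q) := by
      field_simp
      ring
    have e9 : 0 ≤ ((d.q * Z + d.q * W) - ((d.q : ℝ) * X + d.q * d.q * Y + d.h)) /
        (1000000000 * d.q) := div_nonneg (by linarith) (by positivity)
    linarith
  have f1 := aux _ _ _ _ k8
  have f2 := aux (((a0 : ℝ) + a1) / 2) d.j01 t d.i01 (by linarith)
  have f3 := aux _ _ _ _ k10
  have g1 := mul_le_mul_of_nonneg_left (show (a0 : ℝ) / 1000000000 - (t : ℝ) / 1000000000 +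
    H / d.q ≤ I00 - d.q * J00 by linarith) w1
  have g2 := mul_le_mul_of_nonneg_left (show ((a0 : ℝ) + a1) / 2 / 1000000000 -
    (t : ℝ) / 1000000000 + H / d.q ≤ I01 - d.q * J01 by linarith) w2
  have g3 := mul_le_mul_of_nonneg_left (show (a1 : ℝ) / 1000000000 - (t : ℝ) / 1000000000 +
    H / d.q ≤ I11 - d.q * J11 by linarith) w3
  have e10 : (1 - l) ^ 2 * ((a0 : ℝ) / 1000000000 - (t : ℝ) / 1000000000 + H / d.q) +
      2 * l * (1 - l) * (((a0 : ℝ) + a1) / 2 / 1000000000 - (t : ℝ) / 1000000000 + H / d.q) +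
      l ^ 2 * ((a1 : ℝ) / 1000000000 - (t : ℝ) / 1000000000 + H / d.q) =
      ((1 - l) * a0 + l * a1) / 1000000000 - (t : ℝ) / 1000000000 + H / d.q := by ring
  linarith

theorem t2l_sound {α l : ℝ} {K : ℕ} {P Q E : List ℕ} (hα : 1 < α) (hl : 0 ≤ l) (hl1 : l ≤ 1)
    (hS : SBc α l K P Q E) {L2 L3 b0 b1 t : ℕ} {d : T2P}
    (hA : ((1 - l) * b0 + l * b1) / 1000000000 ≤ AA α / 2)
    (hc : t2l L2 L3 P Q (evE 0 E) b0 b1 d t = true) :
    (t : ℝ) / 1000000000 ≤ T2 α ((d.a : ℝ) / 40000) := by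
  unfold t2l at hc
  simp only [Bool.and_eq_true, Nat.blt_eq, Nat.ble_eq] at hc
  obtain ⟨hq, c1, c2, c3, c4, c5, c6, c7, c7', c8, c9, c10⟩ := hc
  have hq' : (0 : ℝ) < d.q := by exact_mod_cast hq
  have hT : (0 : ℝ) ≤ (d.a : ℝ) / 40000 := by positivity
  have key := sq_int_le hT hq' hα (A := P) (B := Q) (E := evE 0 E) (l := l)
    fun s hs _ => ev_phi hα hS hs
  rw [T2_eq hα hT]
  have e1 := lI_two c1
  have e2 := lI_two c2
  have e3 := lI_two c3
  have e4 := mul_le_mul_of_nonneg_left (lI_three c4) hq'.le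
  have e5 := mul_le_mul_of_nonneg_left (lI_three c5) hq'.le
  have e6 := mul_le_mul_of_nonneg_left (lI_three c6) hq'.le
  have e7 := div_le_div_of_nonneg_right (lI_one c7) hq'.le
  have e7' := lI_two c7'
  have k8 := (Nat.cast_le (α := ℝ)).2 c8
  have k9 := (Nat.cast_le (α := ℝ)).2 c9
  have k10 := (Nat.cast_le (α := ℝ)).2 c10
  clear c1 c2 c3 c4 c5 c6 c7 c7' c8 c9 c10
  push_cast at k8 k9 k10
  set I00 := (∫ s in (0 : ℝ)..((d.a : ℝ) / 40000), altE P s * altE P s) / 100000000000000000000 ^ 2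
  set I01 := (∫ s in (0 : ℝ)..((d.a : ℝ) / 40000), altE P s * altE Q s) / 100000000000000000000 ^ 2
  set I11 := (∫ s in (0 : ℝ)..((d.a : ℝ) / 40000), altE Q s * altE Q s) / 100000000000000000000 ^ 2
  set J00 := (∫ s in (0 : ℝ)..((d.a : ℝ) / 40000), altE P s * altE P s * altE (evE 0 E) s) /
    100000000000000000000 ^ 3
  set J01 := (∫ s in (0 : ℝ)..((d.a : ℝ) / 40000), altE P s * altE Q s * altE (evE 0 E) s) /
    100000000000000000000 ^ 3
  set J11 := (∫ s in (0 : ℝ)..((d.a : ℝ) / 40000), altE Q s * altE Q s * altE (evE 0 E) s) /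
    100000000000000000000 ^ 3
  set H := (∫ s in (0 : ℝ)..((d.a : ℝ) / 40000), altE (evE 0 E) s) / 100000000000000000000
  set H2 := (∫ s in (0 : ℝ)..((d.a : ℝ) / 40000), altE (evE 0 E) s * altE (evE 0 E) s) /
    100000000000000000000 ^ 2
  have w1 : 0 ≤ (1 - l) ^ 2 := by positivity
  have w2 : 0 ≤ 2 * l * (1 - l) := by
    have : 0 ≤ 1 - l := by linarith
    positivity
  have w3 : 0 ≤ l ^ 2 := by positivity
  have aux : ∀ X Y Z W : ℝ, (d.q : ℝ) * Z + d.q * W + d.q * d.q * Y + d.h + d.q * d.h2 ≤ d.q * X →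
      Z / 1000000000 + W / 1000000000 + d.q * (Y / 1000000000) + (d.h : ℝ) / 1000000000 / d.q +
        (d.h2 : ℝ) / 1000000000 ≤ X / 1000000000 := by
    intro X Y Z W h
    have e8 : X / 1000000000 - (Z / 1000000000 + W / 1000000000 + d.q * (Y / 1000000000) +
        (d.h : ℝ) / 1000000000 / d.q + (d.h2 : ℝ) / 1000000000) =
        (d.q * X - ((d.q : ℝ) * Z + d.q * W + d.q * d.q * Y + d.h + d.q * d.h2)) /
          (1000000000 * d.q) := by
      field_simp
    have e9 : 0 ≤ (d.q * X - ((d.q : ℝ) * Z + d.q * W + d.q * d.q * Y + d.h + d.q * d.h2)) /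
        (1000000000 * d.q) := div_nonneg (by linarith) (by positivity)
    linarith
  have f1 := aux _ _ _ _ k8
  have f2 := aux (((b0 : ℝ) + b1) / 2) d.j01 t d.i01 (by linarith)
  have f3 := aux _ _ _ _ k10
  have g1 := mul_le_mul_of_nonneg_left (show (t : ℝ) / 1000000000 + I00 + d.q * J00 + H / d.q +
    H2 ≤ (b0 : ℝ) / 1000000000 by linarith) w1
  have g2 := mul_le_mul_of_nonneg_left (show (t : ℝ) / 1000000000 + I01 + d.q * J01 + H / d.q +
    H2 ≤ ((b0 : ℝ) + b1) / 2 / 1000000000 by linarith) w2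
  have g3 := mul_le_mul_of_nonneg_left (show (t : ℝ) / 1000000000 + I11 + d.q * J11 + H / d.q +
    H2 ≤ (b1 : ℝ) / 1000000000 by linarith) w3
  have e10 : (1 - l) ^ 2 * ((b0 : ℝ) / 1000000000) +
      2 * l * (1 - l) * (((b0 : ℝ) + b1) / 2 / 1000000000) + l ^ 2 * ((b1 : ℝ) / 1000000000) =
      ((1 - l) * b0 + l * b1) / 1000000000 := by ring
  have e11 : (1 - l) ^ 2 * ((t : ℝ) / 1000000000 + I00 + d.q * J00 + H / d.q + H2) +
      2 * l * (1 - l) * ((t : ℝ) / 1000000000 + I01 + d.q * J01 + H / d.q + H2) +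
      l ^ 2 * ((t : ℝ) / 1000000000 + I11 + d.q * J11 + H / d.q + H2) =
      (t : ℝ) / 1000000000 + ((1 - l) ^ 2 * (I00 + d.q * J00) +
        2 * l * (1 - l) * (I01 + d.q * J01) + l ^ 2 * (I11 + d.q * J11) + H / d.q + H2) := by
    ring
  linarith

end LpSec.Fl
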