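import Mathlib
import Pool.Agent.Lib.MP_1dbab3_gt.W.TabDef
import Pool.Agent.Lib.MP_1dbab3_gt.W.TwoTbl

/-!
# Series data in the cells of width `1 / 100`
-/

open Real MeasureTheory Set Filter Topology

namespace LpSec.W

theorem SB_of {α l c : ℝ} {K : ℕ} {pA pB e : List ℕ} (hα : 1 < α) (hc : 1 ≤ c)
    (h1 : ∀ k, k < K → |mom α k / ((k.factorial : ℝ) * (k.factorial : ℝ)) -
      ((1 - l) * ((pA.getD k 0 : ℕ) : ℝ) + l * ((pB.getD k 0 : ℕ) : ℝ)) / 100000000000000000000| ≤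
      ((e.getD k 0 : ℕ) : ℝ) / 100000000000000000000)
    (h2 : mom α K / ((K.factorial : ℝ) * (K.factorial : ℝ)) * c ≤
      ((e.getD K 0 : ℕ) : ℝ) / 100000000000000000000)
    (hA : pA.length = K) (hB : pB.length = K) (hE : e.length = K + 1) :
    SB (fun k => mom α (k + 0) / ((k.factorial : ℝ) * ((k + 0).factorial : ℝ))) l K pA pB e := by
  refine ⟨hA, hB, hE, h1, le_trans ?_ h2⟩
  have h3 : 0 ≤ mom α K / ((K.factorial : ℝ) * (K.factorial : ℝ)) := by
    have := mom_nonneg hα K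
    positivity
  simp only [Nat.add_zero]
  nlinarith

theorem SB_cell {i : ℕ} (hi : i < 81) {l : ℝ} (hl : 0 ≤ l) (hl1 : l ≤ 1) (hw : 0 < (i : ℝ) + l) :
    SB (fun k => mom (1 / (((i : ℝ) + l) / 100)) (k + 0) / ((k.factorial : ℝ) *
      ((k + 0).factorial : ℝ))) l 16 (pol i) (pol (i + 1)) (err i) := by
  have h := (twoOk_sound 0 cenL radL polL errL two_ok i (by rw [radL_length]; exact hi)).2
  have hi' : (i : ℝ) ≤ 80 := by exact_mod_cast Nat.lt_succ_iff.1 hi
  have hw0 : 0 < ((i : ℝ) + l) / 100 := by positivity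
  have hw1 : ((i : ℝ) + l) / 100 < 1 := by rw [div_lt_one (by norm_num)]; linarith
  have hα : 1 < 1 / (((i : ℝ) + l) / 100) := by rw [lt_div_iff₀ hw0]; linarith
  obtain ⟨a1, a2, a3, a4, a5⟩ := coef_sound h hα hl hl1 (fun k hk => mom_cell hi hl hl1 hw hk)
  exact SB_of hα (by norm_num) a1 a2 a3 a4 a5

theorem SB_seg {N D a : ℕ} (hD : 0 < D) {ns : List Node} {cs : List TCell}
    (hn : nodesOk N D a ns = true) (hc : segOk D ns cs = true) (hlen : ns.length = cs.length + 1)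
    (haD : a + cs.length < D) {j : ℕ} (hj : j < cs.length) {l : ℝ} (hl : 0 ≤ l) (hl1 : l ≤ 1)
    (hw : 0 < ((a + j : ℕ) : ℝ) + l) :
    SB (fun k => mom (1 / ((((a + j : ℕ) : ℝ) + l) / D)) (k + 0) / ((k.factorial : ℝ) *
      ((k + 0).factorial : ℝ))) l 16 (ns.getD j default).p (ns.getD (j + 1) default).p
      (cs.getD j default).e := by
  have hD' : (0 : ℝ) < D := by exact_mod_cast hD
  have h := (segOk_sound cs ns hc j hj).2
  have hlt : ((a + j : ℕ) : ℝ) + l < D := by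
    have : ((a + j + 1 : ℕ) : ℝ) < D := by exact_mod_cast (by omega : a + j + 1 < D)
    push_cast at this ⊢
    linarith
  have hw0 : 0 < (((a + j : ℕ) : ℝ) + l) / D := by positivity
  have hw1 : (((a + j : ℕ) : ℝ) + l) / D < 1 := by rw [div_lt_one hD']; exact hlt
  have hα : 1 < 1 / ((((a + j : ℕ) : ℝ) + l) / D) := by rw [lt_div_iff₀ hw0]; linarith
  obtain ⟨a1, a2, a3, a4, a5⟩ := coef_sound h hα hl hl1
    (fun k hk => seg_mom hD hn hc hlen haD hj hl hl1 hw hk)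
  exact SB_of hα (by norm_num) a1 a2 a3 a4 a5

end LpSec.W
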