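import Mathlib
import Pool.Agent.Lib.MP_1dbab3_gt.W.CellA

/-!
# Cells with moments up to 22: rows and boxes
-/

open Real MeasureTheory Set Filter Topology

namespace LpSec.W22

open LpSec.W

/-- one value for each of the moments `2, …, 22`, scaled by `10^10` -/
structure Rw where
  m2 : ℕ
  m3 : ℕ
  m4 : ℕ
  m5 : ℕ
  m6 : ℕ
  m7 : ℕ
  m8 : ℕ
  m9 : ℕ
  m10 : ℕ
  m11 : ℕ
  m12 : ℕ
  m13 : ℕ
  m14 : ℕ
  m15 : ℕ
  m16 : ℕ
  m17 : ℕ
  m18 : ℕ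
  m19 : ℕ
  m20 : ℕ
  m21 : ℕ
  m22 : ℕ

/-- the values as a real function (`m_0 = m_1 = 1`) -/
noncomputable def Rw.f (r : Rw) : ℕ → ℝ
  | 0 => 1
  | 1 => 1
  | 2 => (r.m2 : ℝ) / 10000000000
  | 3 => (r.m3 : ℝ) / 10000000000
  | 4 => (r.m4 : ℝ) / 10000000000
  | 5 => (r.m5 : ℝ) / 10000000000
  | 6 => (r.m6 : ℝ) / 10000000000
  | 7 => (r.m7 : ℝ) / 10000000000
  | 8 => (r.m8 : ℝ) / 10000000000
  | 9 => (r.m9 : ℝ) / 10000000000
  | 10 => (r.m10 : ℝ) / 10000000000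
  | 11 => (r.m11 : ℝ) / 10000000000
  | 12 => (r.m12 : ℝ) / 10000000000
  | 13 => (r.m13 : ℝ) / 10000000000
  | 14 => (r.m14 : ℝ) / 10000000000
  | 15 => (r.m15 : ℝ) / 10000000000
  | 16 => (r.m16 : ℝ) / 10000000000
  | 17 => (r.m17 : ℝ) / 10000000000
  | 18 => (r.m18 : ℝ) / 10000000000
  | 19 => (r.m19 : ℝ) / 10000000000
  | 20 => (r.m20 : ℝ) / 10000000000
  | 21 => (r.m21 : ℝ) / 10000000000
  | 22 => (r.m22 : ℝ) / 10000000000
  | _ => 0

/-- the row of table entries at `u = a / D` -/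
def rowOkR (N a D : ℕ) (l u : Rw) : Bool :=
  ent N a D 2 l.m2 u.m2 && (
  ent N a D 3 l.m3 u.m3 && (
  ent N a D 4 l.m4 u.m4 && (
  ent N a D 5 l.m5 u.m5 && (
  ent N a D 6 l.m6 u.m6 && (
  ent N a D 7 l.m7 u.m7 && (
  ent N a D 8 l.m8 u.m8 && (
  ent N a D 9 l.m9 u.m9 && (
  ent N a D 10 l.m10 u.m10 && (
  ent N a D 11 l.m11 u.m11 && (
  ent N a D 12 l.m12 u.m12 && (
  ent N a D 13 l.m13 u.m13 && (
  ent N a D 14 l.m14 u.m14 && (
  ent N a D 15 l.m15 u.m15 && (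
  ent N a D 16 l.m16 u.m16 && (
  ent N a D 17 l.m17 u.m17 && (
  ent N a D 18 l.m18 u.m18 && (
  ent N a D 19 l.m19 u.m19 && (
  ent N a D 20 l.m20 u.m20 && (
  ent N a D 21 l.m21 u.m21 && (
  ent N a D 22 l.m22 u.m22))))))))))))))))))))

/-- bounds of the moments at a point -/
structure RowB (v : ℝ) (l u : Rw) : Prop where
  b2 : (l.m2 : ℝ) / 10000000000 ≤ mm 2 v ∧ mm 2 v ≤ (u.m2 : ℝ) / 10000000000
  b3 : (l.m3 : ℝ) / 10000000000 ≤ mm 3 v ∧ mm 3 v ≤ (u.m3 : ℝ) / 10000000000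
  b4 : (l.m4 : ℝ) / 10000000000 ≤ mm 4 v ∧ mm 4 v ≤ (u.m4 : ℝ) / 10000000000
  b5 : (l.m5 : ℝ) / 10000000000 ≤ mm 5 v ∧ mm 5 v ≤ (u.m5 : ℝ) / 10000000000
  b6 : (l.m6 : ℝ) / 10000000000 ≤ mm 6 v ∧ mm 6 v ≤ (u.m6 : ℝ) / 10000000000
  b7 : (l.m7 : ℝ) / 10000000000 ≤ mm 7 v ∧ mm 7 v ≤ (u.m7 : ℝ) / 10000000000
  b8 : (l.m8 : ℝ) / 10000000000 ≤ mm 8 v ∧ mm 8 v ≤ (u.m8 : ℝ) / 10000000000
  b9 : (l.m9 : ℝ) / 10000000000 ≤ mm 9 v ∧ mm 9 v ≤ (u.m9 : ℝ) / 10000000000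
  b10 : (l.m10 : ℝ) / 10000000000 ≤ mm 10 v ∧ mm 10 v ≤ (u.m10 : ℝ) / 10000000000
  b11 : (l.m11 : ℝ) / 10000000000 ≤ mm 11 v ∧ mm 11 v ≤ (u.m11 : ℝ) / 10000000000
  b12 : (l.m12 : ℝ) / 10000000000 ≤ mm 12 v ∧ mm 12 v ≤ (u.m12 : ℝ) / 10000000000
  b13 : (l.m13 : ℝ) / 10000000000 ≤ mm 13 v ∧ mm 13 v ≤ (u.m13 : ℝ) / 10000000000
  b14 : (l.m14 : ℝ) / 10000000000 ≤ mm 14 v ∧ mm 14 v ≤ (u.m14 : ℝ) / 10000000000
  b15 : (l.m15 : ℝ) / 10000000000 ≤ mm 15 v ∧ mm 15 v ≤ (u.m15 : ℝ) / 10000000000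
  b16 : (l.m16 : ℝ) / 10000000000 ≤ mm 16 v ∧ mm 16 v ≤ (u.m16 : ℝ) / 10000000000
  b17 : (l.m17 : ℝ) / 10000000000 ≤ mm 17 v ∧ mm 17 v ≤ (u.m17 : ℝ) / 10000000000
  b18 : (l.m18 : ℝ) / 10000000000 ≤ mm 18 v ∧ mm 18 v ≤ (u.m18 : ℝ) / 10000000000
  b19 : (l.m19 : ℝ) / 10000000000 ≤ mm 19 v ∧ mm 19 v ≤ (u.m19 : ℝ) / 10000000000
  b20 : (l.m20 : ℝ) / 10000000000 ≤ mm 20 v ∧ mm 20 v ≤ (u.m20 : ℝ) / 10000000000
  b21 : (l.m21 : ℝ) / 10000000000 ≤ mm 21 v ∧ mm 21 v ≤ (u.m21 : ℝ) / 10000000000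
  b22 : (l.m22 : ℝ) / 10000000000 ≤ mm 22 v ∧ mm 22 v ≤ (u.m22 : ℝ) / 10000000000

theorem rowOkR_sound {N a D : ℕ} {l u : Rw} (hD : 0 < D) (h : rowOkR N a D l u = true) :
    RowB ((a : ℝ) / D) l u := by
  unfold rowOkR at h
  simp only [Bool.and_eq_true] at h
  obtain ⟨h2, h3, h4, h5, h6, h7, h8, h9, h10, h11, h12, h13, h14, h15, h16, h17, h18, h19, h20, h21, h22⟩ := h
  exact ⟨ent_sound hD (by norm_num) h2,
    ent_sound hD (by norm_num) h3,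
    ent_sound hD (by norm_num) h4,
    ent_sound hD (by norm_num) h5,
    ent_sound hD (by norm_num) h6,
    ent_sound hD (by norm_num) h7,
    ent_sound hD (by norm_num) h8,
    ent_sound hD (by norm_num) h9,
    ent_sound hD (by norm_num) h10,
    ent_sound hD (by norm_num) h11,
    ent_sound hD (by norm_num) h12,
    ent_sound hD (by norm_num) h13,
    ent_sound hD (by norm_num) h14,
    ent_sound hD (by norm_num) h15,
    ent_sound hD (by norm_num) h16,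
    ent_sound hD (by norm_num) h17,
    ent_sound hD (by norm_num) h18,
    ent_sound hD (by norm_num) h19,
    ent_sound hD (by norm_num) h20,
    ent_sound hD (by norm_num) h21,
    ent_sound hD (by norm_num) h22⟩

/-- alternating upper bounds of the moments on a cell -/
def ABox (α : ℝ) (A B : Rw) : Prop := ∃ l : ℝ, 0 ≤ l ∧ l ≤ 1 ∧ ∀ k, k < 23 →
    (-1) ^ k * mom α k ≤ (1 - l) * ((-1) ^ k * A.f k) + l * ((-1) ^ k * B.f k)

theorem ABox.lin {α : ℝ} {A B : Rw} (h : ABox α A B) (n : ℕ) (hn : n ≤ 23) (c : ℕ → ℝ)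
    (hc : ∀ k, 0 ≤ c k) {V : ℝ} (hA : ∑ k ∈ Finset.range n, c k * ((-1) ^ k * A.f k) ≤ V)
    (hB : ∑ k ∈ Finset.range n, c k * ((-1) ^ k * B.f k) ≤ V) :
    ∑ k ∈ Finset.range n, c k * ((-1) ^ k * mom α k) ≤ V := by
  obtain ⟨l, hl0, hl1, hl⟩ := h
  have h1 : ∀ k ∈ Finset.range n, c k * ((-1) ^ k * mom α k) ≤
      (1 - l) * (c k * ((-1) ^ k * A.f k)) + l * (c k * ((-1) ^ k * B.f k)) := by
    intro k hk
    have hk' : k < 23 := lt_of_lt_of_le (Finset.mem_range.1 hk) hn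
    have := mul_le_mul_of_nonneg_left (hl k hk') (hc k)
    linarith
  refine (Finset.sum_le_sum h1).trans ?_
  rw [Finset.sum_add_distrib, ← Finset.mul_sum, ← Finset.mul_sum]
  have h6 : 0 ≤ 1 - l := by linarith
  have := mul_le_mul_of_nonneg_left hA h6
  have := mul_le_mul_of_nonneg_left hB hl0
  linarith

/-- check of a cell -/
def cellOk (D : ℕ) (al au bl bu A B : Rw) : Bool :=
  evOk D 2 au.m2 bu.m2 A.m2 B.m2 && (
  odOk D 3 al.m3 bl.m3 bu.m3 A.m3 B.m3 && (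
  evOk D 4 au.m4 bu.m4 A.m4 B.m4 && (
  odOk D 5 al.m5 bl.m5 bu.m5 A.m5 B.m5 && (
  evOk D 6 au.m6 bu.m6 A.m6 B.m6 && (
  odOk D 7 al.m7 bl.m7 bu.m7 A.m7 B.m7 && (
  evOk D 8 au.m8 bu.m8 A.m8 B.m8 && (
  odOk D 9 al.m9 bl.m9 bu.m9 A.m9 B.m9 && (
  evOk D 10 au.m10 bu.m10 A.m10 B.m10 && (
  odOk D 11 al.m11 bl.m11 bu.m11 A.m11 B.m11 && (
  evOk D 12 au.m12 bu.m12 A.m12 B.m12 && (
  odOk D 13 al.m13 bl.m13 bu.m13 A.m13 B.m13 && (
  evOk D 14 au.m14 bu.m14 A.m14 B.m14 && (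
  odOk D 15 al.m15 bl.m15 bu.m15 A.m15 B.m15 && (
  evOk D 16 au.m16 bu.m16 A.m16 B.m16 && (
  odOk D 17 al.m17 bl.m17 bu.m17 A.m17 B.m17 && (
  evOk D 18 au.m18 bu.m18 A.m18 B.m18 && (
  odOk D 19 al.m19 bl.m19 bu.m19 A.m19 B.m19 && (
  evOk D 20 au.m20 bu.m20 A.m20 B.m20 && (
  odOk D 21 al.m21 bl.m21 bu.m21 A.m21 B.m21 && (
  evOk D 22 au.m22 bu.m22 A.m22 B.m22))))))))))))))))))))

theorem cellOk_sound {D : ℕ} {al au bl bu A B : Rw} {u v w : ℝ} (hD : 0 < D) (hu : 0 ≤ u)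
    (hv : v = u + 1 / D) (ha : RowB u al au) (hb : RowB v bl bu)
    (h : cellOk D al au bl bu A B = true) (hw0 : 0 < w) (hw1 : w < 1) (huw : u ≤ w) (hwv : w ≤ v) :
    ABox (1 / w) A B := by
  unfold cellOk at h
  simp only [Bool.and_eq_true] at h
  obtain ⟨h2, h3, h4, h5, h6, h7, h8, h9, h10, h11, h12, h13, h14, h15, h16, h17, h18, h19, h20, h21, h22⟩ := h
  have hD' : (0 : ℝ) < D := by exact_mod_cast hD
  have hα : 1 < 1 / w := by rw [lt_div_iff₀ hw0]; linarith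
  set l : ℝ := (w - u) * D with hl
  have hl0 : 0 ≤ l := mul_nonneg (by linarith) hD'.le
  have hl1 : l ≤ 1 := by
    rw [hl]
    have : w - u ≤ 1 / D := by rw [hv] at hwv; linarith
    calc (w - u) * D ≤ 1 / D * D := mul_le_mul_of_nonneg_right this hD'.le
      _ = 1 := by field_simp
  have hww : (1 - l) * u + l * v = w := by
    rw [hv, hl]
    field_simp
    ring
  have hmom : ∀ k, 1 ≤ k → mom (1 / w) k = mm k ((1 - l) * u + l * v) := by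
    intro k hk
    rw [mom_eq_mm hα hk, one_div_one_div, hww]
  refine ⟨l, hl0, hl1, fun k hk => ?_⟩
  interval_cases k
  · rw [mom_zero hα]; simp only [Rw.f, pow_zero]; linarith
  · rw [mom_one hα]; simp only [Rw.f, pow_one]; linarith
  · rw [hmom 2 (by norm_num)]
    have := ev_sound hD (by norm_num) hu hv hl0 hl1 ha.b2.2 hb.b2.2 h2
    simp only [Rw.f]
    norm_num
    linarith
  · rw [hmom 3 (by norm_num)]
    have := od_sound hD (by norm_num) hu hv hl0 hl1 ha.b3.1 hb.b3.1 hb.b3.2 h3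
    simp only [Rw.f]
    norm_num
    linarith
  · rw [hmom 4 (by norm_num)]
    have := ev_sound hD (by norm_num) hu hv hl0 hl1 ha.b4.2 hb.b4.2 h4
    simp only [Rw.f]
    norm_num
    linarith
  · rw [hmom 5 (by norm_num)]
    have := od_sound hD (by norm_num) hu hv hl0 hl1 ha.b5.1 hb.b5.1 hb.b5.2 h5
    simp only [Rw.f]
    norm_num
    linarith
  · rw [hmom 6 (by norm_num)]
    have := ev_sound hD (by norm_num) hu hv hl0 hl1 ha.b6.2 hb.b6.2 h6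
    simp only [Rw.f]
    norm_num
    linarith
  · rw [hmom 7 (by norm_num)]
    have := od_sound hD (by norm_num) hu hv hl0 hl1 ha.b7.1 hb.b7.1 hb.b7.2 h7
    simp only [Rw.f]
    norm_num
    linarith
  · rw [hmom 8 (by norm_num)]
    have := ev_sound hD (by norm_num) hu hv hl0 hl1 ha.b8.2 hb.b8.2 h8
    simp only [Rw.f]
    norm_num
    linarith
  · rw [hmom 9 (by norm_num)]
    have := od_sound hD (by norm_num) hu hv hl0 hl1 ha.b9.1 hb.b9.1 hb.b9.2 h9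
    simp only [Rw.f]
    norm_num
    linarith
  · rw [hmom 10 (by norm_num)]
    have := ev_sound hD (by norm_num) hu hv hl0 hl1 ha.b10.2 hb.b10.2 h10
    simp only [Rw.f]
    norm_num
    linarith
  · rw [hmom 11 (by norm_num)]
    have := od_sound hD (by norm_num) hu hv hl0 hl1 ha.b11.1 hb.b11.1 hb.b11.2 h11
    simp only [Rw.f]
    norm_num
    linarith
  · rw [hmom 12 (by norm_num)]
    have := ev_sound hD (by norm_num) hu hv hl0 hl1 ha.b12.2 hb.b12.2 h12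
    simp only [Rw.f]
    norm_num
    linarith
  · rw [hmom 13 (by norm_num)]
    have := od_sound hD (by norm_num) hu hv hl0 hl1 ha.b13.1 hb.b13.1 hb.b13.2 h13
    simp only [Rw.f]
    norm_num
    linarith
  · rw [hmom 14 (by norm_num)]
    have := ev_sound hD (by norm_num) hu hv hl0 hl1 ha.b14.2 hb.b14.2 h14
    simp only [Rw.f]
    norm_num
    linarith
  · rw [hmom 15 (by norm_num)]
    have := od_sound hD (by norm_num) hu hv hl0 hl1 ha.b15.1 hb.b15.1 hb.b15.2 h15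
    simp only [Rw.f]
    norm_num
    linarith
  · rw [hmom 16 (by norm_num)]
    have := ev_sound hD (by norm_num) hu hv hl0 hl1 ha.b16.2 hb.b16.2 h16
    simp only [Rw.f]
    norm_num
    linarith
  · rw [hmom 17 (by norm_num)]
    have := od_sound hD (by norm_num) hu hv hl0 hl1 ha.b17.1 hb.b17.1 hb.b17.2 h17
    simp only [Rw.f]
    norm_num
    linarith
  · rw [hmom 18 (by norm_num)]
    have := ev_sound hD (by norm_num) hu hv hl0 hl1 ha.b18.2 hb.b18.2 h18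
    simp only [Rw.f]
    norm_num
    linarith
  · rw [hmom 19 (by norm_num)]
    have := od_sound hD (by norm_num) hu hv hl0 hl1 ha.b19.1 hb.b19.1 hb.b19.2 h19
    simp only [Rw.f]
    norm_num
    linarith
  · rw [hmom 20 (by norm_num)]
    have := ev_sound hD (by norm_num) hu hv hl0 hl1 ha.b20.2 hb.b20.2 h20
    simp only [Rw.f]
    norm_num
    linarith
  · rw [hmom 21 (by norm_num)]
    have := od_sound hD (by norm_num) hu hv hl0 hl1 ha.b21.1 hb.b21.1 hb.b21.2 h21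
    simp only [Rw.f]
    norm_num
    linarith
  · rw [hmom 22 (by norm_num)]
    have := ev_sound hD (by norm_num) hu hv hl0 hl1 ha.b22.2 hb.b22.2 h22
    simp only [Rw.f]
    norm_num
    linarith

end LpSec.W22
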