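import Mathlib
import Pool.Agent.Lib.MP_1dbab3_gt.W.TabBase
import Pool.Agent.Lib.MP_1dbab3_gt.W.Two22

/-!
# Series data in cells with 22 moments
-/

open Real MeasureTheory Set Filter Topology

namespace LpSec.W22

open LpSec.W hiding Rw RowB ABox Node TCell segOk segOk_sound nodesOk seg_mom coef_sound rowOkR mcOk polOk

theorem SB_seg {N D a : ℕ} (hD : 0 < D) {ns : List Node} {cs : List TCell}
    (hn : nodesOk N D a ns = true) (hc : segOk D ns cs = true) (hlen : ns.length = cs.length + 1)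
    (haD : a + cs.length < D) {j : ℕ} (hj : j < cs.length) {l : ℝ} (hl : 0 ≤ l) (hl1 : l ≤ 1)
    (hw : 0 < ((a + j : ℕ) : ℝ) + l) :
    SB (fun k => mom (1 / ((((a + j : ℕ) : ℝ) + l) / D)) (k + 0) / ((k.factorial : ℝ) *
      ((k + 0).factorial : ℝ))) l 22 (ns.getD j default).p (ns.getD (j + 1) default).p
      (cs.getD j default).e := by
  have hD' : (0 : ℝ) < D := by exact_mod_cast hD
  have h := (segOk_sound cs ns hc j hj).2
  have hlt : ((a + j : ℕ) : ℝ) + l < D := by
    have : ((a + j + 1 : ℕ) : ℝ) < D := by exact_mod_cast (by omega : a + j + 1 < D)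
    push_cast at this ⊢
    linarith
  have hw0 : 0 < (((a + j : ℕ) : ℝ) + l) / D := by positivity
  have hw1 : (((a + j : ℕ) : ℝ) + l) / D < 1 := by rw [div_lt_one hD']; exact hlt
  have hα : 1 < 1 / ((((a + j : ℕ) : ℝ) + l) / D) := by rw [lt_div_iff₀ hw0]; linarith
  obtain ⟨a1, a2, a3, a4, a5⟩ := coef_sound h hα hl hl1
    (fun k hk => seg_mom hD hn hc hlen haD hj hl hl1 hw hk)
  exact SB_of hα (by norm_num) a1 a2 a3 a4 a5

end LpSec.W22
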