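import Mathlib
import Pool.Agent.Lib.MP_1dbab3_gt.W.FlC
import Pool.Agent.Lib.MP_1dbab3_gt.LS.Aux100
import Pool.Agent.Lib.MP_1dbab3_gt.W.TabBase22

/-!
# Filling of the numeric structures: `CellOk`, `PairOk`
-/

open Real MeasureTheory Set Filter Topology intervalIntegral

namespace LpSec.Fl

open LpSec.W LpSec.ML

/-! ## `AA` at the ends of a cell -/

/-- upper bounds `a0, a1` (scale `10^9`) of `AA / 2` on the cell `[i/100, (i+1)/100]` -/
def aOk1 (i a0 a1 : ℕ) : Bool :=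
  Nat.ble (ac i + 21000) (20 * a0) && Nat.ble (ac (i + 1) + 21000) (20 * a1)

/-- lower bounds `b0, b1` (scale `10^9`) of `AA / 2` on the cell `[i/100, (i+1)/100]` -/
def bOk1 (i b0 b1 : ℕ) : Bool :=
  Nat.ble (20 * b0 + 500000) (ac i) && Nat.ble (20 * b1 + 500000) (ac (i + 1))

theorem aOk1_sound {i a0 a1 : ℕ} (hi : i < 100) (h : aOk1 i a0 a1 = true) {l : ℝ} (hl : 0 ≤ l)
    (hl1 : l ≤ 1) (hw : 0 < (i : ℝ) + l) :
    AA (1 / (((i : ℝ) + l) / 100)) / 2 ≤ ((1 - l) * a0 + l * a1) / 1000000000 := by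
  unfold aOk1 at h
  simp only [Bool.and_eq_true, Nat.ble_eq] at h
  have h1 := (Nat.cast_le (α := ℝ)).2 h.1
  have h2 := (Nat.cast_le (α := ℝ)).2 h.2
  push_cast at h1 h2
  have key := (AA_cell hi hl hl1 hw).2
  have h1l : 0 ≤ 1 - l := by linarith
  have g1 := mul_le_mul_of_nonneg_left h1 h1l
  have g2 := mul_le_mul_of_nonneg_left h2 hl
  rw [div_add' _ _ _ (by norm_num), le_div_iff₀ (by norm_num)] at key
  rw [le_div_iff₀ (by norm_num)]
  linarith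

theorem bOk1_sound {i b0 b1 : ℕ} (hi : i < 100) (h : bOk1 i b0 b1 = true) {l : ℝ} (hl : 0 ≤ l)
    (hl1 : l ≤ 1) (hw : 0 < (i : ℝ) + l) :
    ((1 - l) * b0 + l * b1) / 1000000000 ≤ AA (1 / (((i : ℝ) + l) / 100)) / 2 := by
  unfold bOk1 at h
  simp only [Bool.and_eq_true, Nat.ble_eq] at h
  have h1 := (Nat.cast_le (α := ℝ)).2 h.1
  have h2 := (Nat.cast_le (α := ℝ)).2 h.2
  push_cast at h1 h2
  have key := (AA_cell hi hl hl1 hw).1
  have h1l : 0 ≤ 1 - l := by linarith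
  have g1 := mul_le_mul_of_nonneg_left h1 h1l
  have g2 := mul_le_mul_of_nonneg_left h2 hl
  rw [sub_le_iff_le_add, div_le_iff₀ (by norm_num)] at key
  rw [div_le_iff₀ (by norm_num)]
  linarith

/-- lower bounds `b0, b1` of `AA / 2` on the cell `[i/400, (i+1)/400]` -/
def bOk (i b0 b1 : ℕ) : Bool :=
  Nat.ble (80 * b0 + 2000000) ((4 - i % 4) * ac (i / 4) + i % 4 * ac (i / 4 + 1)) &&
  Nat.ble (80 * b1 + 2000000) ((3 - i % 4) * ac (i / 4) + (i % 4 + 1) * ac (i / 4 + 1))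

theorem bOk_sound {i b0 b1 : ℕ} (hi : i < 400) (h : bOk i b0 b1 = true) {l : ℝ} (hl : 0 ≤ l)
    (hl1 : l ≤ 1) (hw : 0 < (i : ℝ) + l) :
    ((1 - l) * b0 + l * b1) / 1000000000 ≤ AA (1 / (((i : ℝ) + l) / 400)) / 2 := by
  unfold bOk at h
  simp only [Bool.and_eq_true, Nat.ble_eq] at h
  have hr : i % 4 < 4 := Nat.mod_lt _ (by norm_num)
  have hdm : 4 * (i / 4) + i % 4 = i := Nat.div_add_mod i 4
  have hI : i / 4 < 100 := by omega
  set I := i / 4 with hIdef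
  set r := i % 4 with hrdef
  have hdm' : 4 * (I : ℝ) + r = i := by exact_mod_cast hdm
  have hr' : (r : ℝ) + 1 ≤ 4 := by exact_mod_cast hr
  have hr0 : (0 : ℝ) ≤ r := Nat.cast_nonneg _
  have h1 := (Nat.cast_le (α := ℝ)).2 h.1
  have h2 := (Nat.cast_le (α := ℝ)).2 h.2
  have e4 : ((4 - r : ℕ) : ℝ) = 4 - (r : ℝ) := by rw [Nat.cast_sub (by omega)]; norm_num
  have e3 : ((3 - r : ℕ) : ℝ) = 3 - (r : ℝ) := by rw [Nat.cast_sub (by omega)]; norm_num
  push_cast [e4, e3] at h1 h2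
  have key := (AA_cell hI (l := ((r : ℝ) + l) / 4) (by positivity)
    (by rw [div_le_one (by norm_num)]; linarith) (by linarith)).1
  have e1 : ((I : ℝ) + ((r : ℝ) + l) / 4) / 100 = ((i : ℝ) + l) / 400 := by
    rw [← hdm']
    ring
  rw [e1] at key
  have h1l : 0 ≤ 1 - l := by linarith
  have g1 := mul_le_mul_of_nonneg_left h1 h1l
  have g2 := mul_le_mul_of_nonneg_left h2 hl
  have e5 : ((1 - ((r : ℝ) + l) / 4) * (ac I : ℝ) + ((r : ℝ) + l) / 4 * (ac (I + 1) : ℝ)) * 4 =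
      (1 - l) * ((4 - (r : ℝ)) * ac I + r * ac (I + 1)) +
        l * ((3 - (r : ℝ)) * ac I + ((r : ℝ) + 1) * ac (I + 1)) := by ring
  have e6 : 80 * ((1 - l) * b0 + l * b1) + 2000000 ≤
      ((1 - ((r : ℝ) + l) / 4) * (ac I : ℝ) + ((r : ℝ) + l) / 4 * (ac (I + 1) : ℝ)) * 4 := by
    rw [e5]
    linarith
  have e7 : ((1 - ((r : ℝ) + l) / 4) * (ac I : ℝ) + ((r : ℝ) + l) / 4 * (ac (I + 1) : ℝ)) * 4 -
      2000000 ≤ AA (1 / (((i : ℝ) + l) / 400)) * 40000000000 := by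
    have := mul_le_mul_of_nonneg_right key (show (0 : ℝ) ≤ 40000000000 by norm_num)
    refine le_trans (le_of_eq ?_) this
    ring
  linarith

/-! ## `T2` at the points `q z1 / 4` -/

theorem T2_anti' {α : ℝ} (hα : 1 < α) {s t : ℝ} (hs : 0 ≤ s) (hst : s ≤ t) : T2 α t ≤ T2 α s := by
  rw [T2_eq hα hs, T2_eq hα (hs.trans hst)]
  have hc : ContinuousOn (fun s => Phi α s ^ 2) (Ici 0) := (Phi_continuousOn hα).pow 2
  have i1 : IntervalIntegrable (fun s => Phi α s ^ 2) volume 0 s := ii_of hc le_rfl hs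
  have i2 : IntervalIntegrable (fun s => Phi α s ^ 2) volume s t := ii_of hc hs (hs.trans hst)
  rw [← integral_add_adjacent_intervals i1 i2]
  have h0 : 0 ≤ ∫ x in s..t, Phi α x ^ 2 :=
    intervalIntegral.integral_nonneg hst fun x _ => sq_nonneg _
  linarith

/-- check of the list `T` of a cell -/
def tChk (L2 L3 : ℕ) (P Q E' : List ℕ) (a0 a1 b0 b1 A C : ℕ) :
    List (ℕ × ℕ × ℕ) → List (T2P × T2P) → Bool
  | [], [] => true
  | p :: T, d :: ds => Nat.beq d.1.a (Nat.mul p.1 A) && (Nat.beq d.2.a (Nat.mul p.1 C) &&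
      (t2u L2 L3 P Q E' a0 a1 d.1 (Nat.mul 10 p.2.1) &&
      (t2l L2 L3 P Q E' b0 b1 d.2 (Nat.mul 10 p.2.2) &&
      tChk L2 L3 P Q E' a0 a1 b0 b1 A C T ds)))
  | _, _ => false

/-- the claim about the list `T` -/
def TOk (α : ℝ) (T : List (ℕ × ℕ × ℕ)) : Prop :=
  ∀ p ∈ T, T2 α ((p.1 : ℝ) / 4 * z1 α) ≤ (p.2.1 : ℝ) / 10 ^ 8 ∧
    (p.2.2 : ℝ) / 10 ^ 8 ≤ T2 α ((p.1 : ℝ) / 4 * z1 α)

theorem tChk_sound {α l : ℝ} {K : ℕ} {P Q E : List ℕ} {P' Q' E' : List ℕ} {A C dd : ℕ}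
    (hB : Base α P' Q' E' A C dd) (hl : 0 ≤ l) (hl1 : l ≤ 1)
    (hS : SBc α l K P Q E) {L2 L3 a0 a1 b0 b1 : ℕ}
    (hA : AA α / 2 ≤ ((1 - l) * a0 + l * a1) / 1000000000)
    (hA' : ((1 - l) * b0 + l * b1) / 1000000000 ≤ AA α / 2) :
    ∀ (T : List (ℕ × ℕ × ℕ)) (ds : List (T2P × T2P)),
      tChk L2 L3 P Q (evE 0 E) a0 a1 b0 b1 A C T ds = true → TOk α T
  | [], _, _ => fun p hp => absurd hp (by simp)
  | p :: T, [], h => by
    have h' : false = true := h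
    exact absurd h' (by decide)
  | p :: T, d :: ds, h => by
    have h' : (Nat.beq d.1.a (Nat.mul p.1 A) && (Nat.beq d.2.a (Nat.mul p.1 C) &&
      (t2u L2 L3 P Q (evE 0 E) a0 a1 d.1 (Nat.mul 10 p.2.1) &&
      (t2l L2 L3 P Q (evE 0 E) b0 b1 d.2 (Nat.mul 10 p.2.2) &&
      tChk L2 L3 P Q (evE 0 E) a0 a1 b0 b1 A C T ds)))) = true := h
    simp only [Bool.and_eq_true] at h'
    obtain ⟨h1, h2, h3, h4, h5⟩ := h'
    have ih := tChk_sound hB hl hl1 hS hA hA' T ds h5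
    have hα := hB.hL.one_lt
    have k1 : d.1.a = p.1 * A := Nat.eq_of_beq_eq_true h1
    have k2 : d.2.a = p.1 * C := Nat.eq_of_beq_eq_true h2
    have k3 := t2u_sound hα hl hl1 hS hA h3
    have k4 := t2l_sound hα hl hl1 hS hA' h4
    have e10 : ((Nat.mul 10 p.2.1 : ℕ) : ℝ) = 10 * p.2.1 := by
      show ((10 * p.2.1 : ℕ) : ℝ) = _
      push_cast
      ring
    have e11 : ((Nat.mul 10 p.2.2 : ℕ) : ℝ) = 10 * p.2.2 := by
      show ((10 * p.2.2 : ℕ) : ℝ) = _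
      push_cast
      ring
    rw [k1, e10] at k3
    rw [k2, e11] at k4
    have hp0 : (0 : ℝ) ≤ p.1 := Nat.cast_nonneg _
    have hz0 : 0 ≤ z1 α := hB.hL.z1_pos.le
    have m1 : ((p.1 * A : ℕ) : ℝ) / 40000 ≤ (p.1 : ℝ) / 4 * z1 α := by
      have := mul_le_mul_of_nonneg_left hB.cz.le (show 0 ≤ (p.1 : ℝ) / 4 by positivity)
      refine le_trans (le_of_eq ?_) this
      push_cast
      ring
    have m2 : (p.1 : ℝ) / 4 * z1 α ≤ ((p.1 * C : ℕ) : ℝ) / 40000 := by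
      have := mul_le_mul_of_nonneg_left hB.zc.le (show 0 ≤ (p.1 : ℝ) / 4 by positivity)
      refine le_trans this (le_of_eq ?_)
      push_cast
      ring
    intro q hq
    rcases List.mem_cons.1 hq with rfl | hq
    · constructor
      · refine (T2_anti' hα (by positivity) m1).trans (k3.trans (le_of_eq ?_))
        ring
      · refine le_trans (le_of_eq ?_) (k4.trans (T2_anti' hα (by positivity) m2))
        ring
    · exact ih q hq

/-! ## `CellOk` -/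

/-- increasing and above `m` -/
def incr : ℕ → List (ℕ × ℕ × ℕ) → Bool
  | _, [] => true
  | m, p :: T => Nat.blt m p.1 && incr p.1 T

theorem incr_sound : ∀ (T : List (ℕ × ℕ × ℕ)) (m : ℕ), incr m T = true →
    (T.map (·.1)).Pairwise (· < ·) ∧ ∀ p ∈ T, m < p.1
  | [], _, _ => ⟨by simp, fun p hp => absurd hp (by simp)⟩
  | q :: T, m, h => by
    have h' : (Nat.blt m q.1 && incr q.1 T) = true := h
    rw [Bool.and_eq_true, Nat.blt_eq] at h'
    obtain ⟨i1, i2⟩ := incr_sound T q.1 h'.2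
    refine ⟨?_, ?_⟩
    · rw [List.map_cons, List.pairwise_cons]
      refine ⟨fun a ha => ?_, i1⟩
      obtain ⟨p, hp, rfl⟩ := List.mem_map.1 ha
      exact i2 p hp
    · intro p hp
      rcases List.mem_cons.1 hp with rfl | hp
      · exact h'.1
      · exact h'.1.trans (i2 p hp)

def cellChk (A C : ℕ) (q : ℕ × ℕ × ℕ × ℕ) (b0 b1 : ℕ) (c : CellD) : Bool :=
  Nat.beq c.ch (10000 * C) && (Nat.ble c.cc (10000 * A) && (Nat.ble c.cc 200000000 &&
  (Nat.ble (10 * c.k0) q.2.1 && (Nat.ble (10 * c.k1) q.2.2.1 && (Nat.ble q.1 (10 * c.h6) &&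
  (Nat.ble (5 * c.al) b0 && (Nat.ble (5 * c.al) b1 && incr 4 c.T)))))))

theorem cell_sound {α l : ℝ} {P Q E : List ℕ} {A C dd : ℕ} (hB : Base α P Q E A C dd)
    (hl : 0 ≤ l) (hl1 : l ≤ 1) {q : ℕ × ℕ × ℕ × ℕ} (hq : AuxB α q) {b0 b1 : ℕ}
    (hA' : ((1 - l) * b0 + l * b1) / 1000000000 ≤ AA α / 2) {c : CellD}
    (h4 : T2 α ((A : ℝ) / 10000) ≤ (c.h : ℝ) / 10 ^ 8) (hT : TOk α c.T)
    (hc : cellChk A C q b0 b1 c = true) : CellOk α c := by
  unfold cellChk at hc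
  simp only [Bool.and_eq_true, Nat.ble_eq] at hc
  obtain ⟨c1, c2, c3, c4, c5, c6, c7, c8, c9⟩ := hc
  have c1' : c.ch = 10000 * C := Nat.eq_of_beq_eq_true c1
  have c2' : (c.cc : ℝ) ≤ 10000 * A := by exact_mod_cast c2
  have c3' : (c.cc : ℝ) ≤ 200000000 := by exact_mod_cast c3
  have c4' : 10 * (c.k0 : ℝ) ≤ q.2.1 := by exact_mod_cast c4
  have c5' : 10 * (c.k1 : ℝ) ≤ q.2.2.1 := by exact_mod_cast c5
  have c6' : (q.1 : ℝ) ≤ 10 * c.h6 := by exact_mod_cast c6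
  have c7' : 5 * (c.al : ℝ) ≤ b0 := by exact_mod_cast c7
  have c8' : 5 * (c.al : ℝ) ≤ b1 := by exact_mod_cast c8
  obtain ⟨q1, q2, q3, _⟩ := hq
  have hα := hB.hL.one_lt
  obtain ⟨o1, o2⟩ := incr_sound _ _ c9
  refine ⟨?_, ?_, ?_, ?_, ?_, ?_, ?_, o1, o2, fun p hp => (hT p hp).1, fun p hp => (hT p hp).2⟩
  · rw [c1']
    refine hB.zc.le.trans (le_of_eq ?_)
    push_cast
    ring
  · refine le_min ?_ ?_
    · refine le_trans ?_ hB.cz.le
      rw [div_le_div_iff₀ (by norm_num) (by norm_num)]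
      linarith
    · rw [div_le_iff₀ (by norm_num)]
      linarith
  · refine le_trans ?_ q2
    rw [div_le_div_iff₀ (by norm_num) (by norm_num)]
    linarith
  · refine le_trans ?_ q3
    rw [div_le_div_iff₀ (by norm_num) (by norm_num)]
    linarith
  · have h1l : 0 ≤ 1 - l := by linarith
    have g1 := mul_le_mul_of_nonneg_left c7' h1l
    have g2 := mul_le_mul_of_nonneg_left c8' hl
    rw [div_le_iff₀ (by norm_num)] at hA'
    rw [div_le_iff₀ (by norm_num)]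
    linarith
  · refine q1.trans ?_
    rw [div_le_div_iff₀ (by norm_num) (by norm_num)]
    linarith
  · exact (T2_anti' hα hB.A0 hB.cz.le).trans h4

/-- `T2` at the first zero from above, data of the same cell -/
theorem h4_sound {α l : ℝ} {K : ℕ} {P Q E : List ℕ} (hα : 1 < α) (hl : 0 ≤ l) (hl1 : l ≤ 1)
    (hS : SBc α l K P Q E) {L2 L3 a0 a1 A h : ℕ} {d : T2P}
    (hA : AA α / 2 ≤ ((1 - l) * a0 + l * a1) / 1000000000)
    (hc : (Nat.beq d.a (Nat.mul 4 A) && t2u L2 L3 P Q (evE 0 E) a0 a1 d (Nat.mul 10 h)) = true) :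
    T2 α ((A : ℝ) / 10000) ≤ (h : ℝ) / 10 ^ 8 := by
  rw [Bool.and_eq_true] at hc
  have k1 : d.a = 4 * A := Nat.eq_of_beq_eq_true hc.1
  have k3 := t2u_sound hα hl hl1 hS hA hc.2
  have e10 : ((Nat.mul 10 h : ℕ) : ℝ) = 10 * h := by
    show ((10 * h : ℕ) : ℝ) = _
    push_cast
    ring
  rw [k1, e10] at k3
  have e1 : ((4 * A : ℕ) : ℝ) / 40000 = (A : ℝ) / 10000 := by push_cast; ring
  rw [e1] at k3
  refine k3.trans (le_of_eq ?_)
  ring

/-! ## `PairOk` -/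

/-- auxiliary numbers -/
structure PairF where
  Bs : ℕ
  Lc : ℕ
  r2 : ℕ
  r4 : ℕ
  r5 : ℕ
  r6 : ℕ
  d : T2P

def pairChk (L2 L3 : ℕ) (P Q E' L U : List ℕ) (A C dd a0 a1 b0 b1 : ℕ) (p : PairD) (F : PairF) :
    Bool :=
  Nat.beq F.d.a (Nat.mul 4 C) && (t2l L2 L3 P Q E' b0 b1 F.d (Nat.mul 10 p.t0) &&
  (loC F.Bs F.Lc A 2 L 1 p.l1 && (loC F.Bs F.Lc A 2 L 2 p.l2 && (loC F.Bs F.Lc A 2 L 3 p.l3 &&
  (upC F.Bs F.Lc A C dd 2 U 2 p.u2 F.r2 && (upC F.Bs F.Lc A C dd 2 U 4 p.u4 F.r4 &&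
  (upC F.Bs F.Lc A C dd 2 U 5 p.u5 F.r5 && (upC F.Bs F.Lc A C dd 2 U 6 p.u6 F.r6 &&
  (Nat.ble a0 (5 * p.ah) && Nat.ble a1 (5 * p.ah))))))))))

theorem pair_sound {α l : ℝ} {K : ℕ} {P Q E : List ℕ} {A C dd : ℕ} (hB : Base α P Q E A C dd)
    (hl : 0 ≤ l) (hl1 : l ≤ 1) (hS : SBc α l K P Q E) {L2 L3 a0 a1 b0 b1 : ℕ}
    (hA : AA α / 2 ≤ ((1 - l) * a0 + l * a1) / 1000000000)
    (hA' : ((1 - l) * b0 + l * b1) / 1000000000 ≤ AA α / 2) {p : PairD} {F : PairF}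
    (hc : pairChk L2 L3 P Q (evE 0 E) (lowL P E) (upL Q E) A C dd a0 a1 b0 b1 p F = true) :
    PairOk α p := by
  unfold pairChk at hc
  simp only [Bool.and_eq_true, Nat.ble_eq] at hc
  obtain ⟨c1, c2, c3, c4, c5, c6, c7, c8, c9, c10, c11⟩ := hc
  have hα := hB.hL.one_lt
  have c10' : (a0 : ℝ) ≤ 5 * p.ah := by exact_mod_cast c10
  have c11' : (a1 : ℝ) ≤ 5 * p.ah := by exact_mod_cast c11
  refine ⟨?_, im_low hB c3, im_low hB c4, im_low hB c5, upC_sound hB c6, upC_sound hB c7,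
    upC_sound hB c8, upC_sound hB c9, ?_⟩
  · have k2 : F.d.a = 4 * C := Nat.eq_of_beq_eq_true c1
    have k4 := t2l_sound hα hl hl1 hS hA' c2
    have e11 : ((Nat.mul 10 p.t0 : ℕ) : ℝ) = 10 * p.t0 := by
      show ((10 * p.t0 : ℕ) : ℝ) = _
      push_cast
      ring
    have e1 : ((4 * C : ℕ) : ℝ) / 40000 = (C : ℝ) / 10000 := by push_cast; ring
    rw [k2, e11, e1] at k4
    refine le_trans (le_of_eq ?_) (k4.trans (T2_anti' hα hB.hL.z1_pos.le hB.zc.le))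
    ring
  · have h1l : 0 ≤ 1 - l := by linarith
    have g1 := mul_le_mul_of_nonneg_left c10' h1l
    have g2 := mul_le_mul_of_nonneg_left c11' hl
    rw [le_div_iff₀ (by norm_num)] at hA
    rw [le_div_iff₀ (by norm_num)]
    linarith

/-! ## the base data with a separate bound of the first zero -/

def baseChkA (P Q E : List ℕ) (A dd : ℕ) : Bool :=
  lowOk P E && (posChk A 10000 (lowL P E) && (upChk A 10000 P Q && (upOk Q E &&
  (valLe A 10000 (upL Q E) (Nat.mul dd 100000000000000) && Nat.ble A 60000))))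

def zcChk (P Q E : List ℕ) (C : ℕ) : Bool :=
  upOk P E && (upOk Q E && (negChk C 10000 (upL P E) && (negChk C 10000 (upL Q E) &&
    Nat.ble C 70000)))

theorem zc_sound {α l : ℝ} {K : ℕ} {P Q E : List ℕ} {C : ℕ} (hL : Lobe α) (hl : 0 ≤ l)
    (hl1 : l ≤ 1) (h : SBc α l K P Q E) (hc : zcChk P Q E C = true) : z1 α < (C : ℝ) / 10000 := by
  unfold zcChk at hc
  simp only [Bool.and_eq_true, Nat.ble_eq] at hc
  obtain ⟨c4, c5, c6, c7, c10⟩ := hc
  have hα := hL.one_lt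
  have e4 : ((10000 : ℕ) : ℝ) = 10000 := by norm_num
  have hC7 : (C : ℝ) / 10000 ≤ 7 := by
    rw [div_le_iff₀ (by norm_num)]
    have : (C : ℝ) ≤ 70000 := by exact_mod_cast c10
    linarith
  have hC0 : (0 : ℝ) ≤ (C : ℝ) / 10000 := by positivity
  refine z1_lt_of hL hC0 ?_
  have k1' := negChk_sound c6
  have k2' := negChk_sound c7
  rw [e4] at k1' k2'
  have k1 := (upL_ge c4 hC0 hC7).trans_lt k1'
  have k2 := (upL_ge c5 hC0 hC7).trans_lt k2'
  obtain ⟨_, a1⟩ := abs_le.1 (phi_of hα h hC0)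
  have a2 : Phi α ((C : ℝ) / 10000) ≤ ((1 - l) * altE P ((C : ℝ) / 10000) +
      l * altE Q ((C : ℝ) / 10000)) / 100000000000000000000 +
      posE E ((C : ℝ) / 10000) / 100000000000000000000 := by linarith
  rw [← add_div] at a2
  refine a2.trans_lt (div_neg_of_neg_of_pos ?_ (by norm_num))
  rcases eq_or_lt_of_le hl with h0 | h0
  · rw [← h0]
    linarith
  · have m1 := mul_neg_of_pos_of_neg h0 k2
    have m2 := mul_nonneg (show 0 ≤ 1 - l by linarith) (neg_nonneg.2 k1.le)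
    linarith

theorem baseA_sound {α l : ℝ} {K : ℕ} {P Q E : List ℕ} {A C dd : ℕ} (hL : Lobe α) (hl : 0 ≤ l)
    (hl1 : l ≤ 1) (h : SBc α l K P Q E) (hzc : z1 α < (C : ℝ) / 10000)
    (hc : baseChkA P Q E A dd = true) : Base α P Q E A C dd := by
  unfold baseChkA at hc
  simp only [Bool.and_eq_true, Nat.ble_eq] at hc
  obtain ⟨c1, c2, c3, c5, c8, c9⟩ := hc
  have hα := hL.one_lt
  have e4 : ((10000 : ℕ) : ℝ) = 10000 := by norm_num
  have hA6 : (A : ℝ) / 10000 ≤ 6 := by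
    rw [div_le_iff₀ (by norm_num)]
    have : (A : ℝ) ≤ 60000 := by exact_mod_cast c9
    linarith
  have hA0 : (0 : ℝ) ≤ (A : ℝ) / 10000 := by positivity
  have hlow : ∀ s : ℝ, 0 ≤ s → s ≤ (A : ℝ) / 10000 →
      0 < altE (lowL P E) s ∧ altE (lowL P E) s ≤ 100000000000000000000 * Phi α s := by
    intro s hs hsA
    have k1 := lowL_le c1 hs (by linarith)
    have k2 := posChk_sound c2 hs (by rw [e4]; exact hsA)
    have k3 := upChk_sound c3 hs (by rw [e4]; exact hsA)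
    have k4 := mul_le_mul_of_nonneg_left k3 hl
    refine ⟨k2, ?_⟩
    obtain ⟨a1, _⟩ := abs_le.1 (phi_of hα h hs)
    have a2 : ((1 - l) * altE P s + l * altE Q s) / 100000000000000000000 -
        posE E s / 100000000000000000000 ≤ Phi α s := by linarith
    rw [← sub_div, div_le_iff₀ (by norm_num)] at a2
    linarith
  have hup : ∀ s : ℝ, 0 ≤ s → s ≤ (A : ℝ) / 10000 →
      100000000000000000000 * Phi α s ≤ altE (upL Q E) s := by
    intro s hs hsA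
    have k3 := upChk_sound c3 hs (by rw [e4]; exact hsA)
    have k4 := mul_le_mul_of_nonneg_left k3 (show 0 ≤ 1 - l by linarith)
    obtain ⟨_, a1⟩ := abs_le.1 (phi_of hα h hs)
    have a2 : Phi α s ≤ ((1 - l) * altE P s + l * altE Q s) / 100000000000000000000 +
        posE E s / 100000000000000000000 := by linarith
    rw [← add_div, le_div_iff₀ (by norm_num)] at a2
    have k5 := upL_ge c5 hs (by linarith)
    linarith
  refine ⟨hL, hlow, hup, ?_, hzc, ?_⟩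
  · refine lt_z1_of hL hA6 ?_
    have := hlow _ hA0 le_rfl
    by_contra hc
    push Not at hc
    linarith [this.1, this.2]
  · have k1 := valLe_sound c8
    rw [e4] at k1
    have k2 := hup _ hA0 le_rfl
    have e5 : ((Nat.mul dd 100000000000000 : ℕ) : ℝ) = (dd : ℝ) * 100000000000000 := by
      show ((dd * 100000000000000 : ℕ) : ℝ) = _
      push_cast
      ring
    rw [e5] at k1
    rw [le_div_iff₀ (by norm_num)]
    linarith

end LpSec.Fl
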