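import Mathlib
import Pool.Agent.Lib.MP_1dbab3_gt.W.CellT1
import Pool.Agent.Lib.MP_1dbab3_gt.W.CellT2
import Pool.Agent.Lib.MP_1dbab3_gt.W.CellT3
import Pool.Agent.Lib.MP_1dbab3_gt.W.CellT4
import Pool.Agent.Lib.MP_1dbab3_gt.W.CellT5
import Pool.Agent.Lib.MP_1dbab3_gt.W.CellT6
import Pool.Agent.Lib.MP_1dbab3_gt.W.CellT7
import Pool.Agent.Lib.MP_1dbab3_gt.W.CellT8
import Pool.Agent.Lib.MP_1dbab3_gt.W.CellT9

/-!
# Block C: the main lobe for all `α ≥ 5 / 4`
-/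

open Real MeasureTheory Set Filter Topology

namespace LpSec

theorem lobe4_u {u : ℝ} (hu0 : 0 < u) (hu : u < 641 / 800) : Lobe4 (1 / u) := by
  have hu1 : u < 1 := by linarith
  rcases lt_or_ge u (23 / 100) with h1 | h1
  · exact W.lobeT1 hu0 hu1 (by norm_num; linarith) h1
  rcases lt_or_ge u (45 / 100) with h2 | h2
  · exact W.lobeT2 hu0 hu1 h1 h2
  rcases lt_or_ge u (105 / 200) with h3 | h3
  · exact W.lobeT3 hu0 hu1 (by linarith) h3
  rcases lt_or_ge u (120 / 200) with h4 | h4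
  · exact W.lobeT4 hu0 hu1 h3 h4
  rcases lt_or_ge u (260 / 400) with h5 | h5
  · exact W.lobeT5 hu0 hu1 (by linarith) h5
  rcases lt_or_ge u (280 / 400) with h6 | h6
  · exact W.lobeT6 hu0 hu1 h5 h6
  rcases lt_or_ge u (300 / 400) with h7 | h7
  · exact W.lobeT7 hu0 hu1 h6 h7
  rcases lt_or_ge u (318 / 400) with h8 | h8
  · exact W.lobeT8 hu0 hu1 h7 h8
  · exact W.lobeT9 hu0 hu1 (by linarith) hu

/-- The facts about the main lobe, for all `α ≥ 5 / 4`. -/
theorem lobe4_far {α : ℝ} (hα : 5 / 4 ≤ α) : Lobe4 α := by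
  have h0 : 0 < α := by linarith
  have h1 : 1 / α < 641 / 800 := by
    rw [div_lt_div_iff₀ h0 (by norm_num)]
    linarith
  have := lobe4_u (one_div_pos.2 h0) h1
  rwa [one_div_one_div] at this

/-- The facts about the main lobe, for all `α ≥ 5 / 4`. -/
theorem lobe {α : ℝ} (hα : 5 / 4 ≤ α) : Lobe α := (lobe4_far hα).toLobe

end LpSec
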