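import Mathlib
import Pool.Agent.Lib.MP_1dbab3_gt.W.LobeAll
import Pool.Agent.Lib.MP_1dbab3_gt.W.Cell22A1
import Pool.Agent.Lib.MP_1dbab3_gt.W.Cell22A2
import Pool.Agent.Lib.MP_1dbab3_gt.W.Cell22A3
import Pool.Agent.Lib.MP_1dbab3_gt.W.Cell22A4
import Pool.Agent.Lib.MP_1dbab3_gt.W.Cell22A5
import Pool.Agent.Lib.MP_1dbab3_gt.W.Cell22A6
import Pool.Agent.Lib.MP_1dbab3_gt.W.Cell22A7

/-!
# Block C: the main lobe for all `α ≥ 10 / 9` (and down to `u = 1 / α < 2896 / 3200 = .905`)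
-/

open Real MeasureTheory Set Filter Topology

namespace LpSec

theorem lobe4_u' {u : ℝ} (hu0 : 0 < u) (hu : u < 2896 / 3200) : Lobe4 (1 / u) := by
  have hu1 : u < 1 := by linarith
  rcases lt_or_ge u (641 / 800) with h1 | h1
  · exact lobe4_u hu0 h1
  rcases lt_or_ge u (660 / 800) with h2 | h2
  · exact W22.lobeA1 hu0 hu1 (by linarith) h2
  rcases lt_or_ge u (680 / 800) with h3 | h3
  · exact W22.lobeA2 hu0 hu1 h2 h3
  rcases lt_or_ge u (1382 / 1600) with h4 | h4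
  · exact W22.lobeA3 hu0 hu1 (by linarith) h4
  rcases lt_or_ge u (1404 / 1600) with h5 | h5
  · exact W22.lobeA4 hu0 hu1 h4 h5
  rcases lt_or_ge u (1424 / 1600) with h6 | h6
  · exact W22.lobeA5 hu0 hu1 h5 h6
  rcases lt_or_ge u (2872 / 3200) with h7 | h7
  · exact W22.lobeA6 hu0 hu1 (by linarith) h7
  · exact W22.lobeA7 hu0 hu1 h7 hu

/-- The facts about the main lobe with the fourth order modulus, for all `α ≥ 10 / 9`. -/
theorem lobe4 {α : ℝ} (hα : 10 / 9 ≤ α) : Lobe4 α := by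
  have h0 : 0 < α := by linarith
  have h1 : 1 / α < 2896 / 3200 := by
    rw [div_lt_div_iff₀ h0 (by norm_num)]
    linarith
  have := lobe4_u' (one_div_pos.2 h0) h1
  rwa [one_div_one_div] at this

end LpSec
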