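import Mathlib
import Pool.Agent.Lib.MP_1dbab3_gt.W.FlD
import Pool.Agent.Lib.MP_1dbab3_gt.W.Lobe22

/-!
# Filling of the numeric structures: the series data of all cells
-/

open Real MeasureTheory Set Filter Topology intervalIntegral

namespace LpSec.Fl

open LpSec.W LpSec.ML

theorem one_lt_of {i D : ℕ} (hi : i + 1 < D) {l : ℝ} (hl : 0 ≤ l) (hl1 : l ≤ 1)
    (hw : 0 < (i : ℝ) + l) : 1 < 1 / (((i : ℝ) + l) / D) := by
  have h1 : ((i + 1 : ℕ) : ℝ) < D := by exact_mod_cast hi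
  push_cast at h1
  have hD : (0 : ℝ) < D := by linarith
  rw [lt_div_iff₀ (by positivity), one_mul, div_lt_one hD]
  linarith

theorem lobe100 {i : ℕ} (hi : i < 80) {l : ℝ} (hl : 0 ≤ l) (hl1 : l ≤ 1) (hw : 0 < (i : ℝ) + l) :
    Lobe4 (1 / (((i : ℝ) + l) / 100)) := by
  have h1 : (i : ℝ) ≤ 79 := by exact_mod_cast Nat.lt_succ_iff.1 hi
  refine lobe4_u (by positivity) ?_
  rw [div_lt_div_iff₀ (by norm_num) (by norm_num)]
  linarith

theorem lobe400 {i : ℕ} (hi : i < 360) {l : ℝ} (hl : 0 ≤ l) (hl1 : l ≤ 1) (hw : 0 < (i : ℝ) + l) :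
    Lobe4 (1 / (((i : ℝ) + l) / 400)) := by
  have h1 : (i : ℝ) ≤ 359 := by exact_mod_cast Nat.lt_succ_iff.1 hi
  refine lobe4_u' (by positivity) ?_
  rw [div_lt_div_iff₀ (by norm_num) (by norm_num)]
  linarith

theorem sb100 {i : ℕ} (hi : i < 81) {l : ℝ} (hl : 0 ≤ l) (hl1 : l ≤ 1) (hw : 0 < (i : ℝ) + l) :
    SBc (1 / (((i : ℝ) + l) / 100)) l 16 (pol i) (pol (i + 1)) (err i) := SB_cell hi hl hl1 hw

theorem sb400a {i : ℕ} (h1 : 0 ≤ i) (h2 : i < 104) {l : ℝ} (hl : 0 ≤ l) (hl1 : l ≤ 1)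
    (hw : 0 < (i : ℝ) + l) :
    SBc (1 / (((i : ℝ) + l) / 400)) l 16 (pol400a i) (pol400a (i + 1)) (err400a i) := by
  obtain ⟨m, rfl⟩ := Nat.exists_eq_add_of_le h1
  have hm : m < 104 := by omega
  have hb := SB_seg (N := 100) (D := 400) (a := 0) (by norm_num) nodes400a_ok seg400a_ok
    nodes400a_length (by rw [cells400a_length]; norm_num) (j := m) (by rw [cells400a_length]; omega)
    hl hl1 hw
  unfold pol400a err400a
  rw [show 0 + m - 0 = m by omega, show 0 + m + 1 - 0 = m + 1 by omega]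
  exact hb

theorem sb400 {i : ℕ} (h1 : 104 ≤ i) (h2 : i < 152) {l : ℝ} (hl : 0 ≤ l) (hl1 : l ≤ 1)
    (hw : 0 < (i : ℝ) + l) :
    SBc (1 / (((i : ℝ) + l) / 400)) l 16 (pol400 i) (pol400 (i + 1)) (err400 i) := by
  obtain ⟨m, rfl⟩ := Nat.exists_eq_add_of_le h1
  have hm : m < 48 := by omega
  have hb := SB_seg (N := 100) (D := 400) (a := 104) (by norm_num) nodes400_ok seg400_ok
    nodes400_length (by rw [cells400_length]; norm_num) (j := m) (by rw [cells400_length]; omega)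
    hl hl1 hw
  unfold pol400 err400
  rw [show 104 + m - 104 = m by omega, show 104 + m + 1 - 104 = m + 1 by omega]
  exact hb

theorem sb400b {i : ℕ} (h1 : 152 ≤ i) (h2 : i < 240) {l : ℝ} (hl : 0 ≤ l) (hl1 : l ≤ 1)
    (hw : 0 < (i : ℝ) + l) :
    SBc (1 / (((i : ℝ) + l) / 400)) l 16 (pol400b i) (pol400b (i + 1)) (err400b i) := by
  obtain ⟨m, rfl⟩ := Nat.exists_eq_add_of_le h1
  have hm : m < 88 := by omega
  have hb := SB_seg (N := 200) (D := 400) (a := 152) (by norm_num) nodes400b_ok seg400b_ok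
    nodes400b_length (by rw [cells400b_length]; norm_num) (j := m) (by rw [cells400b_length]; omega)
    hl hl1 hw
  unfold pol400b err400b
  rw [show 152 + m - 152 = m by omega, show 152 + m + 1 - 152 = m + 1 by omega]
  exact hb

theorem sb400c {i : ℕ} (h1 : 240 ≤ i) (h2 : i < 320) {l : ℝ} (hl : 0 ≤ l) (hl1 : l ≤ 1)
    (hw : 0 < (i : ℝ) + l) :
    SBc (1 / (((i : ℝ) + l) / 400)) l 16 (pol400c i) (pol400c (i + 1)) (err400c i) := by
  obtain ⟨m, rfl⟩ := Nat.exists_eq_add_of_le h1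
  have hm : m < 80 := by omega
  have hb := SB_seg (N := 200) (D := 400) (a := 240) (by norm_num) nodes400c_ok seg400c_ok
    nodes400c_length (by rw [cells400c_length]; norm_num) (j := m) (by rw [cells400c_length]; omega)
    hl hl1 hw
  unfold pol400c err400c
  rw [show 240 + m - 240 = m by omega, show 240 + m + 1 - 240 = m + 1 by omega]
  exact hb

theorem sb400d {i : ℕ} (h1 : 320 ≤ i) (h2 : i < 362) {l : ℝ} (hl : 0 ≤ l) (hl1 : l ≤ 1)
    (hw : 0 < (i : ℝ) + l) :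
    SBc (1 / (((i : ℝ) + l) / 400)) l 22 (W22.pol400d i) (W22.pol400d (i + 1)) (W22.err400d i) := by
  obtain ⟨m, rfl⟩ := Nat.exists_eq_add_of_le h1
  have hm : m < 42 := by omega
  have hb := W22.SB_seg (N := 400) (D := 400) (a := 320) (by norm_num) W22.nodes400d_ok W22.seg400d_ok
    W22.nodes400d_length (by rw [W22.cells400d_length]; norm_num) (j := m) (by rw [W22.cells400d_length]; omega)
    hl hl1 hw
  unfold W22.pol400d W22.err400d
  rw [show 320 + m - 320 = m by omega, show 320 + m + 1 - 320 = m + 1 by omega]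
  exact hb

end LpSec.Fl
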