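import Mathlib
import Pool.Agent.Lib.MP_1dbab3_gt.W.FlS

/-!
# Filling of the numeric structures: cut points `A < z1 < C` (scale `10^4`), bound of `Phi` at `A`
-/

set_option maxRecDepth 100000

open Real MeasureTheory Set Filter Topology intervalIntegral

namespace LpSec.Fl

open LpSec.W LpSec.ML

def bAL : List ℕ := [
  18347, 18350, 18359, 18372, 18391, 18415, 18443, 18475, 18511, 18551, 18594, 18642, 18692,
  18747, 18804, 18865, 18928, 18995, 19065, 19138, 19214, 19293, 19375, 19460, 19549, 19640,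
  19734, 19831, 19932, 20036, 20143, 20253, 20366, 20483, 20604, 20728, 20856, 20987, 21122,
  21262, 21405, 21552, 21704, 21861, 22021, 22187, 22358, 22533, 22714, 22901, 23093, 23291,
  23495, 23706, 23923, 24148, 24379, 24618, 24865, 25120, 25383, 25656, 25937, 26229, 26530,
  26843, 27166, 27500, 27847, 28205, 28576, 28961, 29358, 29769, 30193, 30630, 31081, 31543,
  32017, 32500]

def bCL : List ℕ := [
  18362, 18370, 18384, 18403, 18427, 18455, 18487, 18523, 18564, 18608, 18655, 18706, 18761,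
  18818, 18879, 18943, 19011, 19081, 19155, 19231, 19311, 19394, 19479, 19568, 19660, 19755,
  19853, 19955, 20059, 20167, 20279, 20393, 20512, 20633, 20759, 20888, 21021, 21159, 21300,
  21445, 21595, 21749, 21909, 22072, 22241, 22416, 22595, 22781, 22972, 23169, 23373, 23584,
  23801, 24026, 24259, 24501, 24751, 25010, 25279, 25558, 25755, 26047, 26350, 26666, 26993,
  27334, 27689, 28060, 28446, 28850, 29272, 29715, 30179, 30667, 31180, 31722, 32294, 32900,
  33543, 34229]

def bDL : List ℕ := [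
  312, 435, 541, 668, 766, 850, 938, 1026, 1109, 1185, 1272, 1325, 1405, 1449, 1516, 1565, 1634,
  1684, 1733, 1782, 1829, 1875, 1919, 1963, 1988, 2031, 2074, 2118, 2146, 2177, 2212, 2250, 2293,
  2327, 2352, 2386, 2415, 2454, 2491, 2514, 2551, 2591, 2623, 2647, 2693, 2724, 2754, 2799, 2836,
  2869, 2910, 2952, 2998, 3039, 3088, 3131, 3187, 3243, 3300, 3364, 3437, 3506, 3591, 3674, 3772,
  3870, 3984, 4112, 4247, 4403, 4575, 4762, 4978, 5217, 5488, 5794, 6136, 6528, 6969, 7470]

def bA (i : ℕ) : ℕ := bAL.getD i 0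
def bC (i : ℕ) : ℕ := bCL.getD i 0
def bD (i : ℕ) : ℕ := bDL.getD i 0

theorem baseA_all : ∀ i < 80, baseChkA (pol i) (pol (i + 1)) (err i) (bA i) (bD i) = true := by
  decide +kernel

theorem zc_all : ∀ i < 60, zcChk (pol i) (pol (i + 1)) (err i) (bC i) = true := by
  decide +kernel

theorem zc_sub : ∀ j < 80, zcChk (pol400c (240 + j)) (pol400c (240 + j + 1)) (err400c (240 + j))
    (bC ((240 + j) / 4)) = true := by
  decide +kernel

theorem base_cell {i : ℕ} (hi : i < 80) {l : ℝ} (hl : 0 ≤ l) (hl1 : l ≤ 1) (hw : 0 < (i : ℝ) + l) :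
    Base (1 / (((i : ℝ) + l) / 100)) (pol i) (pol (i + 1)) (err i) (bA i) (bC i) (bD i) := by
  have hL := (lobe100 hi hl hl1 hw).toLobe
  refine baseA_sound hL hl hl1 (sb100 (by omega) hl hl1 hw) ?_ (baseA_all i hi)
  rcases lt_or_ge i 60 with h | h
  · exact zc_sound hL hl hl1 (sb100 (by omega) hl hl1 hw) (zc_all i h)
  · obtain ⟨r, hr, m, hm, hm1, e⟩ := sub_cell i hl hl1
    have hw' : 0 < ((4 * i + r : ℕ) : ℝ) + m := by
      have h1 : 0 < ((i : ℝ) + l) / 100 := by positivity
      rw [e] at h1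
      linarith
    rw [e] at hL ⊢
    have h2 := zc_sub (4 * i + r - 240) (by omega)
    rw [show 240 + (4 * i + r - 240) = 4 * i + r by omega, show (4 * i + r) / 4 = i by omega] at h2
    exact zc_sound hL hm hm1 (sb400c (by omega) (by omega) hm hm1 hw') h2

def bA4L : List ℕ := [
  34050, 34219, 34391, 34565, 34741, 34920, 35101, 35286, 35472, 35662, 35854, 36049, 36247,
  36448, 36652, 36859, 37069, 37282, 37296, 37308, 37317, 37330, 37339, 37348, 37361, 37370,
  37379, 37389, 37402, 37411, 37421, 37451, 37462, 37472, 37479, 37490, 37497, 37505, 37513,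
  37522]

def bC4L : List ℕ := [
  34407, 34588, 34773, 34961, 35153, 35347, 35546, 35748, 35955, 36165, 36379, 36598, 36822,
  37050, 37284, 37523, 37767, 38017, 38274, 38537, 38807, 39085, 39371, 39665, 39969, 40283,
  40607, 40944, 41295, 41660, 42043, 42445, 42870, 43322, 43806, 44332, 44913, 45571, 46351,
  47374]

def bD4L : List ℕ := [
  871, 882, 893, 905, 919, 933, 948, 962, 980, 996, 1015, 1034, 1054, 1075, 1098, 1121, 1146,
  1173, 1538, 1907, 2280, 2645, 3017, 3389, 3753, 4123, 4494, 4861, 5223, 5592, 5959, 6289, 6652,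
  7017, 7387, 7749, 8118, 8485, 8851, 9216]

def bA4 (i : ℕ) : ℕ := bA4L.getD (i - 320) 0
def bC4 (i : ℕ) : ℕ := bC4L.getD (i - 320) 0
def bD4 (i : ℕ) : ℕ := bD4L.getD (i - 320) 0

theorem baseA4_all : ∀ j < 40, (baseChkA (W22.pol400d (320 + j)) (W22.pol400d (320 + j + 1))
    (W22.err400d (320 + j)) (bA4 (320 + j)) (bD4 (320 + j)) && zcChk (W22.pol400d (320 + j))
    (W22.pol400d (320 + j + 1)) (W22.err400d (320 + j)) (bC4 (320 + j))) = true := by
  decide +kernel

theorem base_cell4 {i : ℕ} (h1 : 320 ≤ i) (h2 : i < 360) {l : ℝ} (hl : 0 ≤ l) (hl1 : l ≤ 1)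
    (hw : 0 < (i : ℝ) + l) :
    Base (1 / (((i : ℝ) + l) / 400)) (W22.pol400d i) (W22.pol400d (i + 1)) (W22.err400d i) (bA4 i)
      (bC4 i) (bD4 i) := by
  have hL := (lobe400 h2 hl hl1 hw).toLobe
  have h := baseA4_all (i - 320) (by omega)
  rw [show 320 + (i - 320) = i by omega, Bool.and_eq_true] at h
  have hs := sb400d h1 (by omega) hl hl1 hw
  exact baseA_sound hL hl hl1 hs (zc_sound hL hl hl1 hs h.2) h.1

end LpSec.Fl
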