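import Mathlib
import Pool.Agent.Lib.MP_1dbab3_gt.W.FlB

/-!
# `z1 ≤ 6` for `10 / 9 ≤ α`, and the cell of a point
-/

open Real MeasureTheory Set Filter Topology intervalIntegral

namespace LpSec

/-- the cell of a point, width `1 / 100` -/
theorem exists_cell100 {u : ℝ} (h0 : 0 < u) (h1 : u ≤ 8 / 10) : ∃ i : ℕ, i < 80 ∧ ∃ l : ℝ, 0 ≤ l ∧ l ≤ 1 ∧
    0 < (i : ℝ) + l ∧ u = ((i : ℝ) + l) / 100 := by
  rcases eq_or_lt_of_le h1 with h | h
  · refine ⟨79, by norm_num, 1, by norm_num, le_rfl, by norm_num, ?_⟩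
    rw [h]
    norm_num
  · have hf0 : 0 ≤ 100 * u := by linarith
    have hf := Nat.floor_le hf0
    have hf1 := Nat.lt_floor_add_one (100 * u)
    refine ⟨⌊100 * u⌋₊, ?_, 100 * u - ⌊100 * u⌋₊, by linarith, by linarith, by linarith, by ring⟩
    rw [Nat.floor_lt hf0]
    push_cast
    linarith

/-- the cell of a point, width `1 / 400` -/
theorem exists_cell400 {u : ℝ} (h0 : 8 / 10 ≤ u) (h1 : u ≤ 9 / 10) : ∃ i : ℕ, 320 ≤ i ∧ i < 360 ∧
    ∃ l : ℝ, 0 ≤ l ∧ l ≤ 1 ∧ 0 < (i : ℝ) + l ∧ u = ((i : ℝ) + l) / 400 := by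
  rcases eq_or_lt_of_le h1 with h | h
  · refine ⟨359, by norm_num, by norm_num, 1, by norm_num, le_rfl, by norm_num, ?_⟩
    rw [h]
    norm_num
  · have hf0 : 0 ≤ 400 * u := by linarith
    have hf := Nat.floor_le hf0
    have hf1 := Nat.lt_floor_add_one (400 * u)
    refine ⟨⌊400 * u⌋₊, ?_, ?_, 400 * u - ⌊400 * u⌋₊, by linarith, by linarith, by linarith,
      by ring⟩
    · rw [Nat.le_floor_iff hf0]
      push_cast
      linarith
    · rw [Nat.floor_lt hf0]
      push_cast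
      linarith

/-- the first zero is at most `5` -/
theorem z1_le_five {α : ℝ} (hα : 10 / 9 ≤ α) : z1 α ≤ 5 := by
  have h0 : 0 < α := by linarith
  have hu : 0 < 1 / α := by positivity
  have hu9 : 1 / α ≤ 9 / 10 := by
    rw [div_le_div_iff₀ h0 (by norm_num)]
    linarith
  have e : 1 / (1 / α) = α := one_div_one_div α
  rcases le_or_gt (1 / α) (8 / 10) with h | h
  · obtain ⟨i, hi, l, hl, hl1, hw, hu'⟩ := exists_cell100 hu h
    have hB := (Fl.base_cell hi hl hl1 hw).zc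
    rw [← hu', e] at hB
    have h2 : ∀ i < 80, Fl.bC i ≤ 50000 := by decide +kernel
    have h3 : (Fl.bC i : ℝ) ≤ 50000 := by exact_mod_cast h2 i hi
    refine hB.le.trans ?_
    rw [div_le_iff₀ (by norm_num)]
    linarith
  · obtain ⟨i, hi, hi2, l, hl, hl1, hw, hu'⟩ := exists_cell400 h.le hu9
    have hB := (Fl.base_cell4 hi hi2 hl hl1 hw).zc
    rw [← hu', e] at hB
    have h2 : ∀ j < 40, Fl.bC4 (320 + j) ≤ 50000 := by decide +kernel
    have h4 := h2 (i - 320) (by omega)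
    rw [show 320 + (i - 320) = i by omega] at h4
    have h3 : (Fl.bC4 i : ℝ) ≤ 50000 := by exact_mod_cast h4
    refine hB.le.trans ?_
    rw [div_le_iff₀ (by norm_num)]
    linarith

theorem z1_le_six {α : ℝ} (hα : 10 / 9 ≤ α) : z1 α ≤ 6 := (z1_le_five hα).trans (by norm_num)

end LpSec
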