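import Mathlib
import Pool.Agent.Lib.MP_1dbab3_gt.Base
import Pool.Agent.Lib.MP_1dbab3_gt.W.Eval

/-!
# Lower bounds of `∫_0^{9/5} t^k K1(2t)^m K1(2 ρ t) dt`

Scale `10^9`; the values are exact up to `2 * 10^(-9)`.
-/

open Real MeasureTheory Set Filter Topology intervalIntegral

namespace LpSec.W

/-- lower polynomial of `K 1 (2 t)` on `[0, 9/5]`, scale `10^15` -/
def lsL : List ℕ := [1000000000000000, 1000000000000000, 333333333333333, 55555555555556, 5555555555555, 370370370371, 17636684303, 629881583, 17496710, 388816, 7069, 110]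

/-- rescaling of the variable -/
def lsScl (R D : ℕ) : List ℕ → List ℕ
  | [] => []
  | a :: t => Nat.mul a (Nat.pow D (t.length + 1)) :: (lsScl R D t).map (R * ·)

theorem lsScl_eq (R : ℕ) {D : ℕ} (hD : 0 < D) : ∀ (q : List ℕ) (x : ℝ),
    altE (lsScl R D q) x = (D : ℝ) ^ q.length * altE q ((R : ℝ) / D * x)
  | [], x => by simp [lsScl, altE]
  | a :: t, x => by
    have ih := lsScl_eq R hD t x
    have hD' : (D : ℝ) ≠ 0 := by exact_mod_cast hD.ne'
    show ((a * D ^ (t.length + 1) : ℕ) : ℝ) - x * altE ((lsScl R D t).map (R * ·)) x = _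
    rw [altE_map, ih, altE, List.length_cons]
    push_cast
    field_simp
    ring

theorem lsL_le {t : ℝ} (h0 : 0 ≤ t) (h1 : t ≤ 9 / 5) :
    altE lsL t ≤ 1000000000000000 * K 1 (2 * t) := by
  have h2 : 0 ≤ 2 * t := by linarith
  have h3 := K_trunc 1 11 h2 (by norm_num; linarith)
  have h4 := (abs_le.1 h3).1
  have h5 : t ^ 12 ≤ 9 / 5 * t ^ 11 := by
    have := mul_le_mul_of_nonneg_right h1 (pow_nonneg h0 11)
    calc t ^ 12 = t * t ^ 11 := by ring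
      _ ≤ _ := this
  have e1 : (2 * t) ^ (11 + 1) / (((11 + 1 : ℕ).factorial : ℝ) * ((11 + 1 + 1 : ℕ).factorial : ℝ)) =
      t ^ 12 * (2 ^ 12 / (479001600 * 6227020800)) := by
    norm_num [Nat.factorial]
    ring
  have e2 : ∑ m ∈ Finset.range (11 + 1), (-(2 * t)) ^ m /
      ((m.factorial : ℝ) * ((m + 1).factorial : ℝ)) =
      1 - t + t ^ 2 * (4 / 12) - t ^ 3 * (8 / 144) + t ^ 4 * (16 / 2880) - t ^ 5 * (32 / 86400) +
      t ^ 6 * (64 / 3628800) - t ^ 7 * (128 / 203212800) + t ^ 8 * (256 / 14631321600) -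
      t ^ 9 * (512 / 1316818944000) + t ^ 10 * (1024 / 144850083840000) -
      t ^ 11 * (2048 / 19120211066880000) := by
    norm_num [Finset.sum_range_succ, Nat.factorial]
    ring
  rw [e1, e2] at h4
  have k2 := pow_nonneg h0 2
  have k3 := pow_nonneg h0 3
  have k4 := pow_nonneg h0 4
  have k5 := pow_nonneg h0 5
  have k6 := pow_nonneg h0 6
  have k7 := pow_nonneg h0 7
  have k8 := pow_nonneg h0 8
  have k9 := pow_nonneg h0 9
  have k10 := pow_nonneg h0 10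
  have k11 := pow_nonneg h0 11
  have e3 : altE lsL t = 1000000000000000 - 1000000000000000 * t + 333333333333333 * t ^ 2 - 55555555555556 * t ^ 3
       + 5555555555555 * t ^ 4 - 370370370371 * t ^ 5 + 17636684303 * t ^ 6 - 629881583 * t ^ 7
       + 17496710 * t ^ 8 - 388816 * t ^ 9 + 7069 * t ^ 10 - 110 * t ^ 11 := by
    simp only [lsL, altE]
    push_cast
    ring
  rw [e3]
  linarith

theorem K1_nonneg_95 {t : ℝ} (h0 : 0 ≤ t) (h1 : t ≤ 9 / 5) : 0 < K 1 (2 * t) :=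
  K1_pos (by linarith) (by linarith)

/-- positivity of the lower polynomial: `altE lsL t ≥ 0` on `[0, 9/5]` -/
theorem lsL_pos {t : ℝ} (h0 : 0 ≤ t) (h1 : t ≤ 9 / 5) : 0 ≤ altE lsL t := by
  have h2 : 0 ≤ 2 * t := by linarith
  have h3 := K_trunc 1 11 h2 (by norm_num; linarith)
  have h4 := (abs_le.1 h3).2
  have hK : 0.0078 ≤ K 1 (2 * t) := by
    have := K1_antitone (a := 2 * t) (b := 18 / 5) ⟨h2, by linarith⟩ ⟨by norm_num, by norm_num⟩
      (by linarith)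
    linarith [kn_K1_36.1]
  have h5 : ∀ k : ℕ, t ^ k ≤ (9 / 5) ^ k := fun k => pow_le_pow_left₀ h0 h1 k
  have e1 : (2 * t) ^ (11 + 1) / (((11 + 1 : ℕ).factorial : ℝ) * ((11 + 1 + 1 : ℕ).factorial : ℝ)) =
      t ^ 12 * (2 ^ 12 / (479001600 * 6227020800)) := by
    norm_num [Nat.factorial]
    ring
  have e2 : ∑ m ∈ Finset.range (11 + 1), (-(2 * t)) ^ m /
      ((m.factorial : ℝ) * ((m + 1).factorial : ℝ)) =
      1 - t + t ^ 2 * (4 / 12) - t ^ 3 * (8 / 144) + t ^ 4 * (16 / 2880) - t ^ 5 * (32 / 86400) +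
      t ^ 6 * (64 / 3628800) - t ^ 7 * (128 / 203212800) + t ^ 8 * (256 / 14631321600) -
      t ^ 9 * (512 / 1316818944000) + t ^ 10 * (1024 / 144850083840000) -
      t ^ 11 * (2048 / 19120211066880000) := by
    norm_num [Finset.sum_range_succ, Nat.factorial]
    ring
  rw [e1, e2] at h4
  have e3 : altE lsL t = 1000000000000000 - 1000000000000000 * t + 333333333333333 * t ^ 2 - 55555555555556 * t ^ 3
       + 5555555555555 * t ^ 4 - 370370370371 * t ^ 5 + 17636684303 * t ^ 6 - 629881583 * t ^ 7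
       + 17496710 * t ^ 8 - 388816 * t ^ 9 + 7069 * t ^ 10 - 110 * t ^ 11 := by
    simp only [lsL, altE]
    push_cast
    ring
  rw [e3]
  have g2 := h5 2
  have g3 := h5 3
  have g4 := h5 4
  have g5 := h5 5
  have g6 := h5 6
  have g7 := h5 7
  have g8 := h5 8
  have g9 := h5 9
  have g10 := h5 10
  have g11 := h5 11
  have g12 := h5 12
  have k1 := pow_nonneg h0 1
  have k2 := pow_nonneg h0 2
  have k3 := pow_nonneg h0 3
  have k4 := pow_nonneg h0 4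
  have k5 := pow_nonneg h0 5
  have k6 := pow_nonneg h0 6
  have k7 := pow_nonneg h0 7
  have k8 := pow_nonneg h0 8
  have k9 := pow_nonneg h0 9
  have k10 := pow_nonneg h0 10
  have k11 := pow_nonneg h0 11
  norm_num at g2 g3 g4 g5 g6 g7 g8 g9 g10 g11 g12
  linarith

/-- check of one constant -/
def lsChk (m k R V : ℕ) : Bool :=
  Nat.ble R 20 && geChk (Nat.pow 2 400) 32433859254793982911622772305630400 9 5 k (List.replicate m lsL ++ [lsScl R 20 lsL])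
    (Nat.mul V (Nat.mul (Nat.pow 20 12) (Nat.pow 1000000000000000 (m + 1)))) 1000000000

/-- **lower bounds of the constants**, `ρ = R / 20` -/
theorem lsc {m k R V : ℕ} (h : lsChk m k R V = true) {ρ : ℝ} (hρ : ρ = (R : ℝ) / 20) :
    (V : ℝ) / 1000000000 ≤ ∫ t in (0 : ℝ)..(9 / 5), t ^ k * (K 1 (2 * t)) ^ m * K 1 (2 * ρ * t) := by
  unfold lsChk at h
  rw [Bool.and_eq_true, Nat.ble_eq] at h
  obtain ⟨hR, h⟩ := h
  have h1 := ge_of_chk h
  have hR' : ρ ≤ 1 := by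
    rw [hρ, div_le_one (by norm_num)]
    exact_mod_cast hR
  have hR0 : 0 ≤ ρ := by rw [hρ]; positivity
  have e95 : ((9 : ℕ) : ℝ) / ((5 : ℕ) : ℝ) = 9 / 5 := by norm_num
  rw [e95] at h1
  have hc1 : Continuous fun t : ℝ => t ^ k * (K 1 (2 * t)) ^ m * K 1 (2 * ρ * t) := by
    have a1 : Continuous fun t : ℝ => K 1 (2 * ρ * t) := (K_continuous 1).comp (by fun_prop)
    have a2 : Continuous fun t : ℝ => K 1 (2 * t) := (K_continuous 1).comp (by fun_prop)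
    fun_prop
  have hsc : (0 : ℝ) < (20 : ℝ) ^ 12 * (1000000000000000 : ℝ) ^ (m + 1) := by positivity
  have hprod : ∀ x : ℝ, ((List.replicate m lsL ++ [lsScl R 20 lsL]).map fun p => altE p x).prod =
      altE lsL x ^ m * ((20 : ℝ) ^ 12 * altE lsL (ρ * x)) := by
    intro x
    rw [List.map_append, List.prod_append, List.map_replicate, List.prod_replicate, List.map_cons,
      List.map_nil, List.prod_cons, List.prod_nil, mul_one, lsScl_eq R (by norm_num), hρ]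
    have : lsL.length = 12 := rfl
    rw [this]
    norm_num
  have h2 : (∫ x in (0 : ℝ)..(9 / 5), x ^ k *
      ((List.replicate m lsL ++ [lsScl R 20 lsL]).map fun p => altE p x).prod) ≤
      ∫ x in (0 : ℝ)..(9 / 5), ((20 : ℝ) ^ 12 * (1000000000000000 : ℝ) ^ (m + 1)) *
        (x ^ k * (K 1 (2 * x)) ^ m * K 1 (2 * ρ * x)) := by
    refine integral_mono_on (by norm_num) ?_ ?_ fun x hx => ?_
    · refine Continuous.intervalIntegrable ?_ _ _
      simp only [hprod]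
      have a1 := altE_continuous lsL
      have a2 : Continuous fun x : ℝ => altE lsL (ρ * x) := a1.comp (by fun_prop)
      fun_prop
    · exact (continuous_const.mul hc1).intervalIntegrable _ _
    · rw [hprod]
      have hx0 : 0 ≤ x := hx.1
      have hρx : 0 ≤ ρ * x := mul_nonneg hR0 hx0
      have hρx2 : ρ * x ≤ x := mul_le_of_le_one_left hx0 hR'
      have b1 := lsL_pos hx0 hx.2
      have b2 := lsL_le hx0 hx.2
      have b3 := lsL_pos hρx (hρx2.trans hx.2)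
      have b4 := lsL_le hρx (hρx2.trans hx.2)
      have e3 : 2 * (ρ * x) = 2 * ρ * x := by ring
      rw [e3] at b4
      have c1 : altE lsL x ^ m ≤ (1000000000000000 * K 1 (2 * x)) ^ m := pow_le_pow_left₀ b1 b2 m
      have c2 := mul_le_mul c1 b4 b3 (pow_nonneg (b1.trans b2) m)
      have c3 := mul_le_mul_of_nonneg_left c2 (show (0 : ℝ) ≤ x ^ k * (20 : ℝ) ^ 12 by positivity)
      calc x ^ k * (altE lsL x ^ m * ((20 : ℝ) ^ 12 * altE lsL (ρ * x))) =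
          x ^ k * (20 : ℝ) ^ 12 * (altE lsL x ^ m * altE lsL (ρ * x)) := by ring
        _ ≤ _ := c3
        _ = _ := by
          rw [mul_pow]
          ring
  rw [intervalIntegral.integral_const_mul] at h2
  have h3 := h1.trans h2
  have e2 : ((Nat.mul V (Nat.mul (Nat.pow 20 12) (Nat.pow 1000000000000000 (m + 1))) : ℕ) : ℝ) =
      (V : ℝ) * ((20 : ℝ) ^ 12 * (1000000000000000 : ℝ) ^ (m + 1)) := by
    show ((V * (20 ^ 12 * 1000000000000000 ^ (m + 1)) : ℕ) : ℝ) = _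
    push_cast
    ring
  rw [e2] at h3
  have e4 : ((1000000000 : ℕ) : ℝ) = 1000000000 := by norm_num
  rw [e4, mul_div_right_comm, mul_comm] at h3
  exact le_of_mul_le_mul_left h3 hsc

theorem c_3_10_2 : (35106476 / 1000000000 : ℝ) ≤
    ∫ t in (0 : ℝ)..(9 / 5), t ^ 2 * (K 1 (2 * t)) ^ 3 * K 1 (2 * (1 / 10) * t) := by
  have h := lsc (m := 3) (k := 2) (R := 2) (V := 35106476) (by decide +kernel)
    (ρ := 1 / 10) (by norm_num)
  rwa [Nat.cast_ofNat] at h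

theorem c_3_10_3 : (22349921 / 1000000000 : ℝ) ≤
    ∫ t in (0 : ℝ)..(9 / 5), t ^ 3 * (K 1 (2 * t)) ^ 3 * K 1 (2 * (1 / 10) * t) := by
  have h := lsc (m := 3) (k := 3) (R := 2) (V := 22349921) (by decide +kernel)
    (ρ := 1 / 10) (by norm_num)
  rwa [Nat.cast_ofNat] at h

theorem c_3_10_4 : (17293296 / 1000000000 : ℝ) ≤
    ∫ t in (0 : ℝ)..(9 / 5), t ^ 4 * (K 1 (2 * t)) ^ 3 * K 1 (2 * (1 / 10) * t) := by
  have h := lsc (m := 3) (k := 4) (R := 2) (V := 17293296) (by decide +kernel)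
    (ρ := 1 / 10) (by norm_num)
  rwa [Nat.cast_ofNat] at h

theorem c_3_25_2 : (31796235 / 1000000000 : ℝ) ≤
    ∫ t in (0 : ℝ)..(9 / 5), t ^ 2 * (K 1 (2 * t)) ^ 3 * K 1 (2 * (1 / 4) * t) := by
  have h := lsc (m := 3) (k := 2) (R := 5) (V := 31796235) (by decide +kernel)
    (ρ := 1 / 4) (by norm_num)
  rwa [Nat.cast_ofNat] at h

theorem c_3_25_3 : (19793280 / 1000000000 : ℝ) ≤
    ∫ t in (0 : ℝ)..(9 / 5), t ^ 3 * (K 1 (2 * t)) ^ 3 * K 1 (2 * (1 / 4) * t) := by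
  have h := lsc (m := 3) (k := 3) (R := 5) (V := 19793280) (by decide +kernel)
    (ρ := 1 / 4) (by norm_num)
  rwa [Nat.cast_ofNat] at h

theorem c_3_25_4 : (15030468 / 1000000000 : ℝ) ≤
    ∫ t in (0 : ℝ)..(9 / 5), t ^ 4 * (K 1 (2 * t)) ^ 3 * K 1 (2 * (1 / 4) * t) := by
  have h := lsc (m := 3) (k := 4) (R := 5) (V := 15030468) (by decide +kernel)
    (ρ := 1 / 4) (by norm_num)
  rwa [Nat.cast_ofNat] at h

theorem c_3_40_2 : (28739826 / 1000000000 : ℝ) ≤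
    ∫ t in (0 : ℝ)..(9 / 5), t ^ 2 * (K 1 (2 * t)) ^ 3 * K 1 (2 * (2 / 5) * t) := by
  have h := lsc (m := 3) (k := 2) (R := 8) (V := 28739826) (by decide +kernel)
    (ρ := 2 / 5) (by norm_num)
  rwa [Nat.cast_ofNat] at h

theorem c_3_40_3 : (17461134 / 1000000000 : ℝ) ≤
    ∫ t in (0 : ℝ)..(9 / 5), t ^ 3 * (K 1 (2 * t)) ^ 3 * K 1 (2 * (2 / 5) * t) := by
  have h := lsc (m := 3) (k := 3) (R := 8) (V := 17461134) (by decide +kernel)
    (ρ := 2 / 5) (by norm_num)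
  rwa [Nat.cast_ofNat] at h

theorem c_3_40_4 : (12987216 / 1000000000 : ℝ) ≤
    ∫ t in (0 : ℝ)..(9 / 5), t ^ 4 * (K 1 (2 * t)) ^ 3 * K 1 (2 * (2 / 5) * t) := by
  have h := lsc (m := 3) (k := 4) (R := 8) (V := 12987216) (by decide +kernel)
    (ρ := 2 / 5) (by norm_num)
  rwa [Nat.cast_ofNat] at h

theorem c_3_55_2 : (25920493 / 1000000000 : ℝ) ≤
    ∫ t in (0 : ℝ)..(9 / 5), t ^ 2 * (K 1 (2 * t)) ^ 3 * K 1 (2 * (11 / 20) * t) := by
  have h := lsc (m := 3) (k := 2) (R := 11) (V := 25920493) (by decide +kernel)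
    (ρ := 11 / 20) (by norm_num)
  rwa [Nat.cast_ofNat] at h

theorem c_3_55_3 : (15337099 / 1000000000 : ℝ) ≤
    ∫ t in (0 : ℝ)..(9 / 5), t ^ 3 * (K 1 (2 * t)) ^ 3 * K 1 (2 * (11 / 20) * t) := by
  have h := lsc (m := 3) (k := 3) (R := 11) (V := 15337099) (by decide +kernel)
    (ρ := 11 / 20) (by norm_num)
  rwa [Nat.cast_ofNat] at h

theorem c_3_55_4 : (11146232 / 1000000000 : ℝ) ≤
    ∫ t in (0 : ℝ)..(9 / 5), t ^ 4 * (K 1 (2 * t)) ^ 3 * K 1 (2 * (11 / 20) * t) := by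
  have h := lsc (m := 3) (k := 4) (R := 11) (V := 11146232) (by decide +kernel)
    (ρ := 11 / 20) (by norm_num)
  rwa [Nat.cast_ofNat] at h

theorem c_3_70_2 : (23322457 / 1000000000 : ℝ) ≤
    ∫ t in (0 : ℝ)..(9 / 5), t ^ 2 * (K 1 (2 * t)) ^ 3 * K 1 (2 * (7 / 10) * t) := by
  have h := lsc (m := 3) (k := 2) (R := 14) (V := 23322457) (by decide +kernel)
    (ρ := 7 / 10) (by norm_num)
  rwa [Nat.cast_ofNat] at h

theorem c_3_70_3 : (13405824 / 1000000000 : ℝ) ≤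
    ∫ t in (0 : ℝ)..(9 / 5), t ^ 3 * (K 1 (2 * t)) ^ 3 * K 1 (2 * (7 / 10) * t) := by
  have h := lsc (m := 3) (k := 3) (R := 14) (V := 13405824) (by decide +kernel)
    (ρ := 7 / 10) (by norm_num)
  rwa [Nat.cast_ofNat] at h

theorem c_3_70_4 : (9491370 / 1000000000 : ℝ) ≤
    ∫ t in (0 : ℝ)..(9 / 5), t ^ 4 * (K 1 (2 * t)) ^ 3 * K 1 (2 * (7 / 10) * t) := by
  have h := lsc (m := 3) (k := 4) (R := 14) (V := 9491370) (by decide +kernel)
    (ρ := 7 / 10) (by norm_num)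
  rwa [Nat.cast_ofNat] at h

theorem c_3_85_2 : (20930867 / 1000000000 : ℝ) ≤
    ∫ t in (0 : ℝ)..(9 / 5), t ^ 2 * (K 1 (2 * t)) ^ 3 * K 1 (2 * (17 / 20) * t) := by
  have h := lsc (m := 3) (k := 2) (R := 17) (V := 20930867) (by decide +kernel)
    (ρ := 17 / 20) (by norm_num)
  rwa [Nat.cast_ofNat] at h

theorem c_3_85_3 : (11652937 / 1000000000 : ℝ) ≤
    ∫ t in (0 : ℝ)..(9 / 5), t ^ 3 * (K 1 (2 * t)) ^ 3 * K 1 (2 * (17 / 20) * t) := by
  have h := lsc (m := 3) (k := 3) (R := 17) (V := 11652937) (by decide +kernel)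
    (ρ := 17 / 20) (by norm_num)
  rwa [Nat.cast_ofNat] at h

theorem c_3_85_4 : (8007578 / 1000000000 : ℝ) ≤
    ∫ t in (0 : ℝ)..(9 / 5), t ^ 4 * (K 1 (2 * t)) ^ 3 * K 1 (2 * (17 / 20) * t) := by
  have h := lsc (m := 3) (k := 4) (R := 17) (V := 8007578) (by decide +kernel)
    (ρ := 17 / 20) (by norm_num)
  rwa [Nat.cast_ofNat] at h

theorem c_3_100_2 : (18731754 / 1000000000 : ℝ) ≤
    ∫ t in (0 : ℝ)..(9 / 5), t ^ 2 * (K 1 (2 * t)) ^ 3 * K 1 (2 * (1) * t) := by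
  have h := lsc (m := 3) (k := 2) (R := 20) (V := 18731754) (by decide +kernel)
    (ρ := 1) (by norm_num)
  rwa [Nat.cast_ofNat] at h

theorem c_3_100_3 : (10064986 / 1000000000 : ℝ) ≤
    ∫ t in (0 : ℝ)..(9 / 5), t ^ 3 * (K 1 (2 * t)) ^ 3 * K 1 (2 * (1) * t) := by
  have h := lsc (m := 3) (k := 3) (R := 20) (V := 10064986) (by decide +kernel)
    (ρ := 1) (by norm_num)
  rwa [Nat.cast_ofNat] at h

theorem c_3_100_4 : (6680832 / 1000000000 : ℝ) ≤
    ∫ t in (0 : ℝ)..(9 / 5), t ^ 4 * (K 1 (2 * t)) ^ 3 * K 1 (2 * (1) * t) := by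
  have h := lsc (m := 3) (k := 4) (R := 20) (V := 6680832) (by decide +kernel)
    (ρ := 1) (by norm_num)
  rwa [Nat.cast_ofNat] at h

theorem c_4_25_2 : (16350314 / 1000000000 : ℝ) ≤
    ∫ t in (0 : ℝ)..(9 / 5), t ^ 2 * (K 1 (2 * t)) ^ 4 * K 1 (2 * (1 / 4) * t) := by
  have h := lsc (m := 4) (k := 2) (R := 5) (V := 16350314) (by decide +kernel)
    (ρ := 1 / 4) (by norm_num)
  rwa [Nat.cast_ofNat] at h

theorem c_4_25_3 : (8498359 / 1000000000 : ℝ) ≤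
    ∫ t in (0 : ℝ)..(9 / 5), t ^ 3 * (K 1 (2 * t)) ^ 4 * K 1 (2 * (1 / 4) * t) := by
  have h := lsc (m := 4) (k := 3) (R := 5) (V := 8498359) (by decide +kernel)
    (ρ := 1 / 4) (by norm_num)
  rwa [Nat.cast_ofNat] at h

theorem c_4_25_4 : (5481723 / 1000000000 : ℝ) ≤
    ∫ t in (0 : ℝ)..(9 / 5), t ^ 4 * (K 1 (2 * t)) ^ 4 * K 1 (2 * (1 / 4) * t) := by
  have h := lsc (m := 4) (k := 4) (R := 5) (V := 5481723) (by decide +kernel)
    (ρ := 1 / 4) (by norm_num)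
  rwa [Nat.cast_ofNat] at h

theorem c_4_50_2 : (14221710 / 1000000000 : ℝ) ≤
    ∫ t in (0 : ℝ)..(9 / 5), t ^ 2 * (K 1 (2 * t)) ^ 4 * K 1 (2 * (1 / 2) * t) := by
  have h := lsc (m := 4) (k := 2) (R := 10) (V := 14221710) (by decide +kernel)
    (ρ := 1 / 2) (by norm_num)
  rwa [Nat.cast_ofNat] at h

theorem c_4_50_3 : (7124498 / 1000000000 : ℝ) ≤
    ∫ t in (0 : ℝ)..(9 / 5), t ^ 3 * (K 1 (2 * t)) ^ 4 * K 1 (2 * (1 / 2) * t) := by
  have h := lsc (m := 4) (k := 3) (R := 10) (V := 7124498) (by decide +kernel)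
    (ρ := 1 / 2) (by norm_num)
  rwa [Nat.cast_ofNat] at h

theorem c_4_50_4 : (4447371 / 1000000000 : ℝ) ≤
    ∫ t in (0 : ℝ)..(9 / 5), t ^ 4 * (K 1 (2 * t)) ^ 4 * K 1 (2 * (1 / 2) * t) := by
  have h := lsc (m := 4) (k := 4) (R := 10) (V := 4447371) (by decide +kernel)
    (ρ := 1 / 2) (by norm_num)
  rwa [Nat.cast_ofNat] at h

theorem c_4_100_2 : (10630670 / 1000000000 : ℝ) ≤
    ∫ t in (0 : ℝ)..(9 / 5), t ^ 2 * (K 1 (2 * t)) ^ 4 * K 1 (2 * (1) * t) := by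
  have h := lsc (m := 4) (k := 2) (R := 20) (V := 10630670) (by decide +kernel)
    (ρ := 1) (by norm_num)
  rwa [Nat.cast_ofNat] at h

theorem c_4_100_3 : (4876464 / 1000000000 : ℝ) ≤
    ∫ t in (0 : ℝ)..(9 / 5), t ^ 3 * (K 1 (2 * t)) ^ 4 * K 1 (2 * (1) * t) := by
  have h := lsc (m := 4) (k := 3) (R := 20) (V := 4876464) (by decide +kernel)
    (ρ := 1) (by norm_num)
  rwa [Nat.cast_ofNat] at h

theorem c_4_100_4 : (2799747 / 1000000000 : ℝ) ≤
    ∫ t in (0 : ℝ)..(9 / 5), t ^ 4 * (K 1 (2 * t)) ^ 4 * K 1 (2 * (1) * t) := by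
  have h := lsc (m := 4) (k := 4) (R := 20) (V := 2799747) (by decide +kernel)
    (ρ := 1) (by norm_num)
  rwa [Nat.cast_ofNat] at h

theorem c_5_100_2 : (6590045 / 1000000000 : ℝ) ≤
    ∫ t in (0 : ℝ)..(9 / 5), t ^ 2 * (K 1 (2 * t)) ^ 5 * K 1 (2 * (1) * t) := by
  have h := lsc (m := 5) (k := 2) (R := 20) (V := 6590045) (by decide +kernel)
    (ρ := 1) (by norm_num)
  rwa [Nat.cast_ofNat] at h

theorem c_5_100_3 : (2632879 / 1000000000 : ℝ) ≤
    ∫ t in (0 : ℝ)..(9 / 5), t ^ 3 * (K 1 (2 * t)) ^ 5 * K 1 (2 * (1) * t) := by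
  have h := lsc (m := 5) (k := 3) (R := 20) (V := 2632879) (by decide +kernel)
    (ρ := 1) (by norm_num)
  rwa [Nat.cast_ofNat] at h

theorem c_5_100_4 : (1329127 / 1000000000 : ℝ) ≤
    ∫ t in (0 : ℝ)..(9 / 5), t ^ 4 * (K 1 (2 * t)) ^ 5 * K 1 (2 * (1) * t) := by
  have h := lsc (m := 5) (k := 4) (R := 20) (V := 1329127) (by decide +kernel)
    (ρ := 1) (by norm_num)
  rwa [Nat.cast_ofNat] at h

end LpSec.W
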