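import Mathlib
import Pool.Agent.Lib.MP_1dbab3_gt.WKey
import Pool.Agent.Lib.MP_1dbab3_gt.WConc4

/-!
# `Lobe` with the fourth order modulus
-/

open Real MeasureTheory Set Filter Topology

namespace LpSec

/-- `Lobe` together with the fourth order concavity of helper53 (`WConc4`). -/
structure Lobe4 (α : ℝ) : Prop extends Lobe α where
  conc4 : ConcaveOn ℝ (Ico 0 (z1 α))
    (fun s => log (Phi α s) + k0 α * s ^ 2 / 2 + k1 α * s ^ 3 / 6 + k0 α ^ 2 * s ^ 4 / 8)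

theorem lobe4_of {α : ℝ} (hα : 1 < α) {Z : ℝ} (hK : KData α Z) (n : ℕ)
    (h : ∀ i, i ≤ n → Phi α (Z + i / 10) ≤ -(1 / 800)) (hn : 6 ≤ Z + n / 10) : Lobe4 α := by
  have hPZ : Phi α Z ≤ -(1 / 800) := by
    have := h 0 (Nat.zero_le _)
    simpa using this
  have hX : Xd α 0 Z ≤ 0 := by
    rw [← exp_Phi hα hK.zpos.le]
    have := exp_pos Z
    nlinarith
  exact ⟨lobe_of hα hK n h hn, K_concave4 hα hK hX⟩

end LpSec
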