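import Mathlib
import Pool.Agent.Lib.MP_1dbab3_gt.WDefs

/-!
# The interface of the stage LS (points near the flat point)
-/

namespace LpSec

/-- On the part of the simplex where all coordinates are at most `Y` and all ratios of coordinates
are larger than `r`, except for the flat point, `J` is smaller than the target. -/
def LSat (α : ℝ) (n : ℕ) (Y r : ℝ) : Prop :=
  ∀ x : Fin n → ℝ, (∀ i, 0 ≤ x i) → ∑ i, x i = 1 → (∀ i, x i ≤ Y) →
    (∀ i j, 0 < x i → r * x i < x j) → (x ≠ fun _ => 1 / (n : ℝ)) →
    J α x < max (AA α) (vv α n)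

end LpSec
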