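import Mathlib
import Pool.Agent.Lib.MP_1dbab3_gt.W.Cell22A

/-!
# Laguerre coefficients 16 to 18
-/

open Real MeasureTheory Set Filter Topology

namespace LpSec.W22

open LpSec.W

/-- check of the Laguerre coefficient 16 -/
def L16 (r : Rw) (v : ℕ) : Bool :=
  Nat.ble (209227898880000000000000 + 1255367393280000 * r.m2 + 1586644899840000 * r.m4 +
    232707918643200 * r.m6 + 6678479808000 * r.m8 + 46172206080 * r.m10 +
    79497600 * r.m12 + 28800 * r.m14 + 1 * r.m16)
    (3347646382080000000000000 + 1952793722880000 * r.m3 + 761589551923200 * r.m5 +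
    47491411968000 * r.m7 + 659602944000 * r.m9 + 2289530880 * r.m11 + 1881600 * r.m13 +
    256 * r.m15 + 20922789888000 * v)

theorem L16_sound {r : Rw} {v : ℕ} (h : L16 r v = true) :
    ∑ k ∈ Finset.range 17, ((Nat.choose 16 k : ℝ) / (k.factorial : ℝ)) * ((-1) ^ k * r.f k) ≤ (v : ℝ) / 10000000000 := by
  unfold L16 at h
  rw [Nat.ble_eq] at h
  have h' := (Nat.cast_le (α := ℝ)).2 h
  push_cast at h'
  have c0 : Nat.choose 16 0 = 1 := by decide +kernel
  have c1 : Nat.choose 16 1 = 16 := by decide +kernel
  have c2 : Nat.choose 16 2 = 120 := by decide +kernel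
  have c3 : Nat.choose 16 3 = 560 := by decide +kernel
  have c4 : Nat.choose 16 4 = 1820 := by decide +kernel
  have c5 : Nat.choose 16 5 = 4368 := by decide +kernel
  have c6 : Nat.choose 16 6 = 8008 := by decide +kernel
  have c7 : Nat.choose 16 7 = 11440 := by decide +kernel
  have c8 : Nat.choose 16 8 = 12870 := by decide +kernel
  have c9 : Nat.choose 16 9 = 11440 := by decide +kernel
  have c10 : Nat.choose 16 10 = 8008 := by decide +kernel
  have c11 : Nat.choose 16 11 = 4368 := by decide +kernel
  have c12 : Nat.choose 16 12 = 1820 := by decide +kernel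
  have c13 : Nat.choose 16 13 = 560 := by decide +kernel
  have c14 : Nat.choose 16 14 = 120 := by decide +kernel
  have c15 : Nat.choose 16 15 = 16 := by decide +kernel
  have c16 : Nat.choose 16 16 = 1 := by decide +kernel
  simp only [Finset.sum_range_succ, Finset.sum_range_zero, Rw.f, c0, c1, c2, c3, c4, c5, c6, c7, c8, c9, c10, c11, c12, c13, c14, c15, c16, Nat.factorial]
  norm_num
  linarith

/-- check of the Laguerre coefficient 17 -/
def L17 (r : Rw) (v : ℕ) : Bool :=
  Nat.ble (3556874280960000000000000 + 24186745110528000 * r.m2 + 35272336619520000 * r.m4 +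
    6113871680716800 * r.m6 + 214453407168000 * r.m8 + 1906252508160 * r.m10 +
    4594961280 * r.m12 + 2774400 * r.m14 + 289 * r.m16)
    (60466862776320000000000000 + 40311241850880000 * r.m3 + 18341615042150400 * r.m5 +
    1372501805875200 * r.m7 + 23828156352000 * r.m9 + 110279070720 * r.m11 +
    135945600 * r.m13 + 36992 * r.m15 + 1 * r.m17 + 355687428096000 * v)

theorem L17_sound {r : Rw} {v : ℕ} (h : L17 r v = true) :
    ∑ k ∈ Finset.range 18, ((Nat.choose 17 k : ℝ) / (k.factorial : ℝ)) * ((-1) ^ k * r.f k) ≤ (v : ℝ) / 10000000000 := by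
  unfold L17 at h
  rw [Nat.ble_eq] at h
  have h' := (Nat.cast_le (α := ℝ)).2 h
  push_cast at h'
  have c0 : Nat.choose 17 0 = 1 := by decide +kernel
  have c1 : Nat.choose 17 1 = 17 := by decide +kernel
  have c2 : Nat.choose 17 2 = 136 := by decide +kernel
  have c3 : Nat.choose 17 3 = 680 := by decide +kernel
  have c4 : Nat.choose 17 4 = 2380 := by decide +kernel
  have c5 : Nat.choose 17 5 = 6188 := by decide +kernel
  have c6 : Nat.choose 17 6 = 12376 := by decide +kernel
  have c7 : Nat.choose 17 7 = 19448 := by decide +kernel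
  have c8 : Nat.choose 17 8 = 24310 := by decide +kernel
  have c9 : Nat.choose 17 9 = 24310 := by decide +kernel
  have c10 : Nat.choose 17 10 = 19448 := by decide +kernel
  have c11 : Nat.choose 17 11 = 12376 := by decide +kernel
  have c12 : Nat.choose 17 12 = 6188 := by decide +kernel
  have c13 : Nat.choose 17 13 = 2380 := by decide +kernel
  have c14 : Nat.choose 17 14 = 680 := by decide +kernel
  have c15 : Nat.choose 17 15 = 136 := by decide +kernel
  have c16 : Nat.choose 17 16 = 17 := by decide +kernel
  have c17 : Nat.choose 17 17 = 1 := by decide +kernel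
  simp only [Finset.sum_range_succ, Finset.sum_range_zero, Rw.f, c0, c1, c2, c3, c4, c5, c6, c7, c8, c9, c10, c11, c12, c13, c14, c15, c16, c17, Nat.factorial]
  norm_num
  linarith

/-- check of the Laguerre coefficient 18 -/
def L18 (r : Rw) (v : ℕ) : Bool :=
  Nat.ble (64023737057280000000000000 + 489781588488192000 * r.m2 + 816302647480320000 * r.m4 +
    165074535379353600 * r.m6 + 6948290392243200 * r.m8 + 77203226580480 * r.m10 +
    248127909120 * r.m12 + 224726400 * r.m14 + 46818 * r.m16 + 1 * r.m18)
    (1152427267031040000000000000 + 870722823979008000 * r.m3 + 457129482588979200 * r.m5 +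
    40426416827596800 * r.m7 + 857813628672000 * r.m9 + 5104345559040 * r.m11 +
    8809274880 * r.m13 + 3995136 * r.m15 + 324 * r.m17 + 6402373705728000 * v)

theorem L18_sound {r : Rw} {v : ℕ} (h : L18 r v = true) :
    ∑ k ∈ Finset.range 19, ((Nat.choose 18 k : ℝ) / (k.factorial : ℝ)) * ((-1) ^ k * r.f k) ≤ (v : ℝ) / 10000000000 := by
  unfold L18 at h
  rw [Nat.ble_eq] at h
  have h' := (Nat.cast_le (α := ℝ)).2 h
  push_cast at h'
  have c0 : Nat.choose 18 0 = 1 := by decide +kernel
  have c1 : Nat.choose 18 1 = 18 := by decide +kernel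
  have c2 : Nat.choose 18 2 = 153 := by decide +kernel
  have c3 : Nat.choose 18 3 = 816 := by decide +kernel
  have c4 : Nat.choose 18 4 = 3060 := by decide +kernel
  have c5 : Nat.choose 18 5 = 8568 := by decide +kernel
  have c6 : Nat.choose 18 6 = 18564 := by decide +kernel
  have c7 : Nat.choose 18 7 = 31824 := by decide +kernel
  have c8 : Nat.choose 18 8 = 43758 := by decide +kernel
  have c9 : Nat.choose 18 9 = 48620 := by decide +kernel
  have c10 : Nat.choose 18 10 = 43758 := by decide +kernel
  have c11 : Nat.choose 18 11 = 31824 := by decide +kernel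
  have c12 : Nat.choose 18 12 = 18564 := by decide +kernel
  have c13 : Nat.choose 18 13 = 8568 := by decide +kernel
  have c14 : Nat.choose 18 14 = 3060 := by decide +kernel
  have c15 : Nat.choose 18 15 = 816 := by decide +kernel
  have c16 : Nat.choose 18 16 = 153 := by decide +kernel
  have c17 : Nat.choose 18 17 = 18 := by decide +kernel
  have c18 : Nat.choose 18 18 = 1 := by decide +kernel
  simp only [Finset.sum_range_succ, Finset.sum_range_zero, Rw.f, c0, c1, c2, c3, c4, c5, c6, c7, c8, c9, c10, c11, c12, c13, c14, c15, c16, c17, c18, Nat.factorial]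
  norm_num
  linarith

end LpSec.W22
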