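import Mathlib
import Pool.Agent.Lib.MP_1dbab3_gt.W.Cell22A

/-!
# Laguerre coefficients 19 to 21
-/

open Real MeasureTheory Set Filter Topology

namespace LpSec.W22

open LpSec.W

/-- check of the Laguerre coefficient 19 -/
def L19 (r : Rw) (v : ℕ) : Bool :=
  Nat.ble (1216451004088320000000000000 + 10400656084955136000 * r.m2 +
    19645683716026368000 * r.m4 + 4583992867072819200 * r.m6 + 228030257418163200 * r.m8 +
    3096707199505920 * r.m10 + 12796310741760 * r.m12 + 16225246080 * r.m14 +
    5633766 * r.m16 + 361 * r.m18)
    (23112569077678080000000000000 + 19645683716026368000 * r.m3 +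
    11787410229615820800 * r.m5 + 1216161372896870400 * r.m7 + 30967071995059200 * r.m9 +
    230333593351680 * r.m11 + 530024705280 * r.m13 + 360561024 * r.m15 + 58482 * r.m17 +
    1 * r.m19 + 121645100408832000 * v)

theorem L19_sound {r : Rw} {v : ℕ} (h : L19 r v = true) :
    ∑ k ∈ Finset.range 20, ((Nat.choose 19 k : ℝ) / (k.factorial : ℝ)) * ((-1) ^ k * r.f k) ≤ (v : ℝ) / 10000000000 := by
  unfold L19 at h
  rw [Nat.ble_eq] at h
  have h' := (Nat.cast_le (α := ℝ)).2 h
  push_cast at h'
  have c0 : Nat.choose 19 0 = 1 := by decide +kernel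
  have c1 : Nat.choose 19 1 = 19 := by decide +kernel
  have c2 : Nat.choose 19 2 = 171 := by decide +kernel
  have c3 : Nat.choose 19 3 = 969 := by decide +kernel
  have c4 : Nat.choose 19 4 = 3876 := by decide +kernel
  have c5 : Nat.choose 19 5 = 11628 := by decide +kernel
  have c6 : Nat.choose 19 6 = 27132 := by decide +kernel
  have c7 : Nat.choose 19 7 = 50388 := by decide +kernel
  have c8 : Nat.choose 19 8 = 75582 := by decide +kernel
  have c9 : Nat.choose 19 9 = 92378 := by decide +kernel
  have c10 : Nat.choose 19 10 = 92378 := by decide +kernel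
  have c11 : Nat.choose 19 11 = 75582 := by decide +kernel
  have c12 : Nat.choose 19 12 = 50388 := by decide +kernel
  have c13 : Nat.choose 19 13 = 27132 := by decide +kernel
  have c14 : Nat.choose 19 14 = 11628 := by decide +kernel
  have c15 : Nat.choose 19 15 = 3876 := by decide +kernel
  have c16 : Nat.choose 19 16 = 969 := by decide +kernel
  have c17 : Nat.choose 19 17 = 171 := by decide +kernel
  have c18 : Nat.choose 19 18 = 19 := by decide +kernel
  have c19 : Nat.choose 19 19 = 1 := by decide +kernel
  simp only [Finset.sum_range_succ, Finset.sum_range_zero, Rw.f, c0, c1, c2, c3, c4, c5, c6, c7, c8, c9, c10, c11, c12, c13, c14, c15, c16, c17, c18, c19, Nat.factorial]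
  norm_num
  linarith

/-- check of the Laguerre coefficient 20 -/
def L20 (r : Rw) (v : ℕ) : Bool :=
  Nat.ble (24329020081766400000000000000 + 231125690776780800000 * r.m2 +
    491142092900659200000 * r.m4 + 130971224773509120000 * r.m6 +
    7601008580605440000 * r.m8 + 123868287980236800 * r.m10 + 639815537088000 * r.m12 +
    1081683072000 * r.m14 + 563376600 * r.m16 + 72200 * r.m18 + 1 * r.m20)
    (486580401635328000000000000000 + 462251381553561600000 * r.m3 +
    314330939456421888000 * r.m5 + 37420349935288320000 * r.m7 +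
    1126075345274880000 * r.m9 + 10237048593408000 * r.m11 + 30287126016000 * r.m13 +
    28844881920 * r.m15 + 7797600 * r.m17 + 400 * r.m19 + 2432902008176640000 * v)

theorem L20_sound {r : Rw} {v : ℕ} (h : L20 r v = true) :
    ∑ k ∈ Finset.range 21, ((Nat.choose 20 k : ℝ) / (k.factorial : ℝ)) * ((-1) ^ k * r.f k) ≤ (v : ℝ) / 10000000000 := by
  unfold L20 at h
  rw [Nat.ble_eq] at h
  have h' := (Nat.cast_le (α := ℝ)).2 h
  push_cast at h'
  have c0 : Nat.choose 20 0 = 1 := by decide +kernel
  have c1 : Nat.choose 20 1 = 20 := by decide +kernel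
  have c2 : Nat.choose 20 2 = 190 := by decide +kernel
  have c3 : Nat.choose 20 3 = 1140 := by decide +kernel
  have c4 : Nat.choose 20 4 = 4845 := by decide +kernel
  have c5 : Nat.choose 20 5 = 15504 := by decide +kernel
  have c6 : Nat.choose 20 6 = 38760 := by decide +kernel
  have c7 : Nat.choose 20 7 = 77520 := by decide +kernel
  have c8 : Nat.choose 20 8 = 125970 := by decide +kernel
  have c9 : Nat.choose 20 9 = 167960 := by decide +kernel
  have c10 : Nat.choose 20 10 = 184756 := by decide +kernel
  have c11 : Nat.choose 20 11 = 167960 := by decide +kernel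
  have c12 : Nat.choose 20 12 = 125970 := by decide +kernel
  have c13 : Nat.choose 20 13 = 77520 := by decide +kernel
  have c14 : Nat.choose 20 14 = 38760 := by decide +kernel
  have c15 : Nat.choose 20 15 = 15504 := by decide +kernel
  have c16 : Nat.choose 20 16 = 4845 := by decide +kernel
  have c17 : Nat.choose 20 17 = 1140 := by decide +kernel
  have c18 : Nat.choose 20 18 = 190 := by decide +kernel
  have c19 : Nat.choose 20 19 = 20 := by decide +kernel
  have c20 : Nat.choose 20 20 = 1 := by decide +kernel
  simp only [Finset.sum_range_succ, Finset.sum_range_zero, Rw.f, c0, c1, c2, c3, c4, c5, c6, c7, c8, c9, c10, c11, c12, c13, c14, c15, c16, c17, c18, c19, c20, Nat.factorial]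
  norm_num
  linarith

/-- check of the Laguerre coefficient 21 -/
def L21 (r : Rw) (v : ℕ) : Bool :=
  Nat.ble (510909421717094400000000000000 + 5364548928029491200000 * r.m2 +
    12740803704070041600000 * r.m4 + 3850554008341168128000 * r.m6 +
    257849598772846080000 * r.m8 + 4965992272662220800 * r.m10 +
    31350961317312000 * r.m12 + 68146033536000 * r.m14 + 49689816120 * r.m16 +
    10613400 * r.m18 + 441 * r.m20)
    (10729097856058982400000000000000 + 11325158848062259200000 * r.m3 +
    8663746518767628288000 * r.m5 + 1178741022961582080000 * r.m7 +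
    41383268938851840000 * r.m9 + 451453842969292800 * r.m11 + 1669577821632000 * r.m13 +
    2120098821120 * r.m15 + 859685400 * r.m17 + 88200 * r.m19 + 1 * r.m21 +
    51090942171709440000 * v)

theorem L21_sound {r : Rw} {v : ℕ} (h : L21 r v = true) :
    ∑ k ∈ Finset.range 22, ((Nat.choose 21 k : ℝ) / (k.factorial : ℝ)) * ((-1) ^ k * r.f k) ≤ (v : ℝ) / 10000000000 := by
  unfold L21 at h
  rw [Nat.ble_eq] at h
  have h' := (Nat.cast_le (α := ℝ)).2 h
  push_cast at h'
  have c0 : Nat.choose 21 0 = 1 := by decide +kernel
  have c1 : Nat.choose 21 1 = 21 := by decide +kernel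
  have c2 : Nat.choose 21 2 = 210 := by decide +kernel
  have c3 : Nat.choose 21 3 = 1330 := by decide +kernel
  have c4 : Nat.choose 21 4 = 5985 := by decide +kernel
  have c5 : Nat.choose 21 5 = 20349 := by decide +kernel
  have c6 : Nat.choose 21 6 = 54264 := by decide +kernel
  have c7 : Nat.choose 21 7 = 116280 := by decide +kernel
  have c8 : Nat.choose 21 8 = 203490 := by decide +kernel
  have c9 : Nat.choose 21 9 = 293930 := by decide +kernel
  have c10 : Nat.choose 21 10 = 352716 := by decide +kernel
  have c11 : Nat.choose 21 11 = 352716 := by decide +kernel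
  have c12 : Nat.choose 21 12 = 293930 := by decide +kernel
  have c13 : Nat.choose 21 13 = 203490 := by decide +kernel
  have c14 : Nat.choose 21 14 = 116280 := by decide +kernel
  have c15 : Nat.choose 21 15 = 54264 := by decide +kernel
  have c16 : Nat.choose 21 16 = 20349 := by decide +kernel
  have c17 : Nat.choose 21 17 = 5985 := by decide +kernel
  have c18 : Nat.choose 21 18 = 1330 := by decide +kernel
  have c19 : Nat.choose 21 19 = 210 := by decide +kernel
  have c20 : Nat.choose 21 20 = 21 := by decide +kernel
  have c21 : Nat.choose 21 21 = 1 := by decide +kernel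
  simp only [Finset.sum_range_succ, Finset.sum_range_zero, Rw.f, c0, c1, c2, c3, c4, c5, c6, c7, c8, c9, c10, c11, c12, c13, c14, c15, c16, c17, c18, c19, c20, c21, Nat.factorial]
  norm_num
  linarith

end LpSec.W22
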