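import Mathlib
import Pool.Agent.Lib.MP_1dbab3_gt.W.Key4
import Pool.Agent.Lib.MP_1dbab3_gt.W.Cell22B
import Pool.Agent.Lib.MP_1dbab3_gt.W.Cell22D
import Pool.Agent.Lib.MP_1dbab3_gt.W.Cell22E

/-!
# Checks of the signs of `Phi`, of (K), and of consecutive cells (moments up to 22)
-/

open Real MeasureTheory Set Filter Topology

namespace LpSec.W22

open LpSec.W

theorem lag_le {α : ℝ} {A B : Rw} (h : ABox α A B) {n : ℕ} (hn : n ≤ 21) {V : ℝ}
    (hA : ∑ k ∈ Finset.range (n + 1), ((Nat.choose n k : ℝ) / (k.factorial : ℝ)) *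
      ((-1) ^ k * A.f k) ≤ V)
    (hB : ∑ k ∈ Finset.range (n + 1), ((Nat.choose n k : ℝ) / (k.factorial : ℝ)) *
      ((-1) ^ k * B.f k) ≤ V) : lag α n ≤ V := by
  have h1 := h.lin (n + 1) (by omega) (fun k => (Nat.choose n k : ℝ) / (k.factorial : ℝ))
    (fun k => by positivity) hA hB
  refine le_trans (le_of_eq ?_) h1
  unfold lag
  refine Finset.sum_congr rfl fun k _ => ?_
  ring

/-- check of the sign of `Phi (p / 100)` -/
def phOk (r : Rw) (p q : ℕ) : Bool :=
  Nat.ble (157922204505573965610780052999372800000000000000000000000000000000000000000000000000000000000000 +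
    (126337763604459172488624042399498240000000000000000000000000000000000000000000000000000000000000000 +
      q * (315844409011147931221560105998745600000000000000000000000000000000000000000000000000 * r.m2 +
      q * (219336395146630507792750073610240000000000000000000000000000000000000000000000 * r.m4 +
      q * (24370710571847834199194452623360000000000000000000000000000000000000000 * r.m6 +
      q * (777127250377800835433496576000000000000000000000000000000000000 * r.m8 +
      q * (9594163584911121425104896000000000000000000000000000000 * r.m10 +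
      q * (55062922319278704230400000000000000000000000000 * r.m12 +
      q * (166232708366376960000000000000000000000 * r.m14 +
      q * (288598452024960000000000000000 * r.m16 +
      q * (308213136000000000000 * r.m18 +
      q * (213444000000 * r.m20 +
      q * (137 * r.m22)))))))))))))
    (p * (1263377636044591724886240423994982400000000000000000000000000000000000000000000000000000000000000 +
      q * (350938232234608812468400117776384000000000000000000000000000000000000000000000000 * r.m3 +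
      q * (87734558058652203117100029444096000000000000000000000000000000000000000000 * r.m5 +
      q * (4973614402417925346774378086400000000000000000000000000000000000000 * r.m7 +
      q * (95941635849111214251048960000000000000000000000000000000000 * r.m9 +
      q * (792906081397613340917760000000000000000000000000000 * r.m11 +
      q * (3258161083980988416000000000000000000000000 * r.m13 +
      q * (7388120371838976000000000000000000 * r.m15 +
      q * (9986105606400000000000000 * r.m17 +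
      q * (8537760000000000 * r.m19 +
      q * (4840000 * r.m21))))))))))))

theorem phOk_sound {r : Rw} {p : ℕ} (h : phOk r p (p * p) = true) :
    ∑ k ∈ Finset.range 23, ((if k = 22 then 137 / 100 else 1) * ((p : ℝ) / 100) ^ k /
      ((k.factorial : ℝ) * (k.factorial : ℝ))) * ((-1) ^ k * r.f k) ≤ -(1 / 800) := by
  unfold phOk at h
  rw [Nat.ble_eq] at h
  have h' := (Nat.cast_le (α := ℝ)).2 h
  push_cast at h'
  simp only [Finset.sum_range_succ, Finset.sum_range_zero, Rw.f, Nat.factorial]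
  norm_num
  linarith

theorem Phi_le_of {α : ℝ} (hα : 1 < α) {A B : Rw} (h : ABox α A B) {p : ℕ} (hp : p ≤ 610)
    (hA : phOk A p (p * p) = true) (hB : phOk B p (p * p) = true) :
    Phi α ((p : ℝ) / 100) ≤ -(1 / 800) := by
  have hs : (0 : ℝ) ≤ (p : ℝ) / 100 := by positivity
  have hp' : (p : ℝ) ≤ 610 := by exact_mod_cast hp
  have hs6 : (p : ℝ) / 100 ≤ 610 / 100 := by linarith
  have h1 := (abs_le.1 (Phi_trunc hα hs 22 (by norm_num; linarith))).2
  have h2 := h.lin 23 le_rfl (fun k => (if k = 22 then 137 / 100 else 1) * ((p : ℝ) / 100) ^ k /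
      ((k.factorial : ℝ) * (k.factorial : ℝ))) (fun k => by
        have : (0 : ℝ) ≤ if k = 22 then 137 / 100 else 1 := by split_ifs <;> norm_num
        positivity) (phOk_sound hA) (phOk_sound hB)
  rw [Finset.sum_range_succ] at h2
  set s : ℝ := (p : ℝ) / 100 with hsd
  have h3 : ∑ k ∈ Finset.range 22, (if k = 22 then (137 : ℝ) / 100 else 1) * s ^ k /
      ((k.factorial : ℝ) * (k.factorial : ℝ)) * ((-1) ^ k * mom α k) =
      ∑ k ∈ Finset.range 22, (-1) ^ k * mom α k * s ^ k /
      ((k.factorial : ℝ) * (k.factorial : ℝ)) := by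
    refine Finset.sum_congr rfl fun k hk => ?_
    have : k ≠ 22 := by have := Finset.mem_range.1 hk; omega
    rw [if_neg this]
    ring
  simp only at h2
  rw [h3] at h2
  simp only [if_true] at h2
  have hm := mom_nonneg hα 22
  have h4 : mom α 22 * s ^ 22 / ((Nat.factorial 22 : ℝ) * (Nat.factorial 22 : ℝ)) /
      (1 - s / ((22 : ℕ) + 1)) ≤
      137 / 100 * s ^ 22 / ((Nat.factorial 22 : ℝ) * (Nat.factorial 22 : ℝ)) *
        ((-1) ^ 22 * mom α 22) := by
    have hden : (100 : ℝ) / 137 ≤ 1 - s / ((22 : ℕ) + 1) := by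
      norm_num
      linarith
    have hT : 0 ≤ mom α 22 * s ^ 22 / ((Nat.factorial 22 : ℝ) * (Nat.factorial 22 : ℝ)) := by
      positivity
    calc mom α 22 * s ^ 22 / ((Nat.factorial 22 : ℝ) * (Nat.factorial 22 : ℝ)) /
        (1 - s / ((22 : ℕ) + 1)) ≤
        mom α 22 * s ^ 22 / ((Nat.factorial 22 : ℝ) * (Nat.factorial 22 : ℝ)) / (100 / 137) :=
          div_le_div_of_nonneg_left hT (by norm_num) hden
      _ = _ := by ring
  linarith

/-- the (K) check: `Z = z / 100`, `c = cc / 1000` -/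
def eOk (z cc v4 v5 v6 v7 v8 v9 v10 v11 v12 v13 v14 v15 v16 v17 v18 v19 v20 v21 : ℕ) : Bool :=
  Nat.ble (cc ^ 2 * z ^ 2 + 4000000000000) (cc ^ 2 * 4000000) && (Nat.ble 1 z && (Nat.ble z 1999 &&
  Nat.ble (v6 * z ^ 2 * 2027418340147200000000000000000000000000000000000000 +
    v7 * z ^ 3 * 5068545850368000000000000000000000000000000000000 +
    v8 * z ^ 4 * 10137091700736000000000000000000000000000000000 +
    v9 * z ^ 5 * 16895152834560000000000000000000000000000000 +
    v10 * z ^ 6 * 24135932620800000000000000000000000000000 +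
    v11 * z ^ 7 * 30169915776000000000000000000000000000 +
    v12 * z ^ 8 * 33522128640000000000000000000000000 +
    v13 * z ^ 9 * 33522128640000000000000000000000 +
    v14 * z ^ 10 * 30474662400000000000000000000 +
    v15 * z ^ 11 * 25395552000000000000000000 +
    v16 * z ^ 12 * 19535040000000000000000 +
    v17 * z ^ 13 * 13953600000000000000 +
    v18 * z ^ 14 * 9302400000000000 +
    v19 * z ^ 15 * 5814000000000 +
    v20 * z ^ 16 * 3420000000 +
    v21 * z ^ 17 * 1900000 +
    6 * cc * z ^ 18 * 10000000000)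
    (v4 * 121645100408832000000000000000000000000000000000000000000 + v5 * z * 608225502044160000000000000000000000000000000000000000)))

theorem eOk_sound {z cc v4 v5 v6 v7 v8 v9 v10 v11 v12 v13 v14 v15 v16 v17 v18 v19 v20 v21 : ℕ}
    (h : eOk z cc v4 v5 v6 v7 v8 v9 v10 v11 v12 v13 v14 v15 v16 v17 v18 v19 v20 v21 = true) {α : ℝ} (hα : 1 < α)
    (h3 : lag α 3 ≤ 0) (h4 : lag α 4 ≤ -((v4 : ℝ) / 10000000000))
    (h5 : lag α 5 ≤ -((v5 : ℝ) / 10000000000)) (h6 : lag α 6 ≤ (v6 : ℝ) / 10000000000)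
    (h7 : lag α 7 ≤ (v7 : ℝ) / 10000000000)
    (h8 : lag α 8 ≤ (v8 : ℝ) / 10000000000)
    (h9 : lag α 9 ≤ (v9 : ℝ) / 10000000000)
    (h10 : lag α 10 ≤ (v10 : ℝ) / 10000000000)
    (h11 : lag α 11 ≤ (v11 : ℝ) / 10000000000)
    (h12 : lag α 12 ≤ (v12 : ℝ) / 10000000000)
    (h13 : lag α 13 ≤ (v13 : ℝ) / 10000000000)
    (h14 : lag α 14 ≤ (v14 : ℝ) / 10000000000)
    (h15 : lag α 15 ≤ (v15 : ℝ) / 10000000000)
    (h16 : lag α 16 ≤ (v16 : ℝ) / 10000000000)
    (h17 : lag α 17 ≤ (v17 : ℝ) / 10000000000)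
    (h18 : lag α 18 ≤ (v18 : ℝ) / 10000000000)
    (h19 : lag α 19 ≤ (v19 : ℝ) / 10000000000)
    (h20 : lag α 20 ≤ (v20 : ℝ) / 10000000000)
    (h21 : lag α 21 ≤ (v21 : ℝ) / 10000000000) : KData α ((z : ℝ) / 100) := by
  unfold eOk at h
  simp only [Bool.and_eq_true, Nat.ble_eq] at h
  obtain ⟨g1, g2, g3, g4⟩ := h
  have k1 := (Nat.cast_le (α := ℝ)).2 g1
  have k2 := (Nat.cast_le (α := ℝ)).2 g2
  have k3 := (Nat.cast_le (α := ℝ)).2 g3
  have k4 := (Nat.cast_le (α := ℝ)).2 g4
  push_cast at k1 k2 k3 k4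
  set Z : ℝ := (z : ℝ) with hZ
  refine ⟨by linarith, h3, fun s hs hsZ => ?_⟩
  refine x3_of hα (Z := Z / 100) (c := (cc : ℝ) / 1000) (M := 18) (by norm_num) (by linarith)
    (by norm_num; linarith) (by positivity) ?_
    (fun i => match i with
      | 0 => -((v4 : ℝ) / 10000000000)
      | 1 => -((v5 : ℝ) / 10000000000)
      | 2 => (v6 : ℝ) / 10000000000
      | 3 => (v7 : ℝ) / 10000000000
      | 4 => (v8 : ℝ) / 10000000000
      | 5 => (v9 : ℝ) / 10000000000
      | 6 => (v10 : ℝ) / 10000000000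
      | 7 => (v11 : ℝ) / 10000000000
      | 8 => (v12 : ℝ) / 10000000000
      | 9 => (v13 : ℝ) / 10000000000
      | 10 => (v14 : ℝ) / 10000000000
      | 11 => (v15 : ℝ) / 10000000000
      | 12 => (v16 : ℝ) / 10000000000
      | 13 => (v17 : ℝ) / 10000000000
      | 14 => (v18 : ℝ) / 10000000000
      | 15 => (v19 : ℝ) / 10000000000
      | 16 => (v20 : ℝ) / 10000000000
      | 17 => (v21 : ℝ) / 10000000000
      | _ => 0) ?_ ?_ ?_ ?_ hs hsZ
  · norm_num
    nlinarith
  · intro i hi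
    interval_cases i <;> assumption
  · show -((v4 : ℝ) / 10000000000) ≤ 0
    have : (0 : ℝ) ≤ v4 := Nat.cast_nonneg _
    linarith
  · intro i hi hi'
    interval_cases i <;> simp only <;> positivity
  · simp only [Finset.sum_range_succ, Finset.sum_range_zero, Nat.factorial]
    norm_num
    linarith

/-- all points of a grid -/
def allGrid (P : ℕ → Bool) (z : ℕ) : ℕ → Bool
  | 0 => P z
  | n + 1 => P (z + 10 * (n + 1)) && allGrid P z n

theorem allGrid_sound {P : ℕ → Bool} {z : ℕ} : ∀ n : ℕ, allGrid P z n = true → ∀ i, i ≤ n →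
    P (z + 10 * i) = true
  | 0, h, i, hi => by
    have hi0 : i = 0 := Nat.le_zero.1 hi
    subst hi0
    exact h
  | n + 1, h, i, hi => by
    have h' : (P (z + 10 * (n + 1)) && allGrid P z n) = true := h
    rw [Bool.and_eq_true] at h'
    rcases Nat.lt_or_ge i (n + 1) with h1 | h1
    · exact allGrid_sound n h'.2 i (by omega)
    · have : i = n + 1 := by omega
      subst this
      exact h'.1

/-- the signs on the grid `(z + 10 i) / 100`, `i ≤ n` -/
def gridOk (A B : Rw) (z n : ℕ) : Bool :=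
  allGrid (fun p => phOk A p (p * p) && phOk B p (p * p)) z n

/-- certificate of a cell -/
structure Cert where
  A : Rw
  B : Rw
  v4 : ℕ
  v5 : ℕ
  v6 : ℕ
  v7 : ℕ
  v8 : ℕ
  v9 : ℕ
  v10 : ℕ
  v11 : ℕ
  v12 : ℕ
  v13 : ℕ
  v14 : ℕ
  v15 : ℕ
  v16 : ℕ
  v17 : ℕ
  v18 : ℕ
  v19 : ℕ
  v20 : ℕ
  v21 : ℕ
  z : ℕ
  cc : ℕ
  n : ℕ

/-- the full check of a cell -/
def Cert.ok (D : ℕ) (al au bl bu : Rw) (c : Cert) : Bool :=
  cellOk D al au bl bu c.A c.B && (L3 c.A && (L3 c.B &&
  (L4 c.A c.v4 && (L4 c.B c.v4 && (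
  L5 c.A c.v5 && (L5 c.B c.v5 && (
  L6 c.A c.v6 && (L6 c.B c.v6 && (
  L7 c.A c.v7 && (L7 c.B c.v7 && (
  L8 c.A c.v8 && (L8 c.B c.v8 && (
  L9 c.A c.v9 && (L9 c.B c.v9 && (
  L10 c.A c.v10 && (L10 c.B c.v10 && (
  L11 c.A c.v11 && (L11 c.B c.v11 && (
  L12 c.A c.v12 && (L12 c.B c.v12 && (
  L13 c.A c.v13 && (L13 c.B c.v13 && (
  L14 c.A c.v14 && (L14 c.B c.v14 && (
  L15 c.A c.v15 && (L15 c.B c.v15 && (
  L16 c.A c.v16 && (L16 c.B c.v16 && (
  L17 c.A c.v17 && (L17 c.B c.v17 && (
  L18 c.A c.v18 && (L18 c.B c.v18 && (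
  L19 c.A c.v19 && (L19 c.B c.v19 && (
  L20 c.A c.v20 && (L20 c.B c.v20 && (
  L21 c.A c.v21 && (L21 c.B c.v21 && (
  (eOk c.z c.cc c.v4 c.v5 c.v6 c.v7 c.v8 c.v9 c.v10 c.v11 c.v12 c.v13 c.v14 c.v15 c.v16 c.v17 c.v18 c.v19 c.v20 c.v21 &&
  (Nat.ble 600 (c.z + 10 * c.n) && (Nat.ble (c.z + 10 * c.n) 610 &&
  gridOk c.A c.B c.z c.n))))))))))))))))))))))))))))))))))))))))))

theorem Cert.sound {D : ℕ} (hD : 0 < D) {al au bl bu : Rw} {c : Cert} {u v : ℝ} (hu : 0 ≤ u)
    (hv : v = u + 1 / D) (ha : RowB u al au) (hb : RowB v bl bu)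
    (h : c.ok D al au bl bu = true) {w : ℝ} (hw0 : 0 < w) (hw1 : w < 1) (huw : u ≤ w)
    (hwv : w ≤ v) : Lobe4 (1 / w) := by
  unfold Cert.ok at h
  simp only [Bool.and_eq_true, Nat.ble_eq] at h
  obtain ⟨hc, h3a, h3b, h4a, h4b, h5a, h5b, h6a, h6b, h7a, h7b, h8a, h8b, h9a, h9b, h10a, h10b, h11a, h11b, h12a, h12b, h13a, h13b, h14a, h14b, h15a, h15b, h16a, h16b, h17a, h17b, h18a, h18b, h19a, h19b, h20a, h20b, h21a, h21b, he, hn1, hn2, hg⟩ := h
  have hα : 1 < 1 / w := by rw [lt_div_iff₀ hw0]; linarith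
  have hX := cellOk_sound hD hu hv ha hb hc hw0 hw1 huw hwv
  have hKD : KData (1 / w) ((c.z : ℝ) / 100) := by
    refine eOk_sound he hα (lag_le hX (by norm_num) (L3_sound h3a) (L3_sound h3b))
      (lag_le hX (by norm_num) (L4_sound h4a) (L4_sound h4b))
      (lag_le hX (by norm_num) (L5_sound h5a) (L5_sound h5b))
      (lag_le hX (by norm_num) (L6_sound h6a) (L6_sound h6b))
      (lag_le hX (by norm_num) (L7_sound h7a) (L7_sound h7b))
      (lag_le hX (by norm_num) (L8_sound h8a) (L8_sound h8b))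
      (lag_le hX (by norm_num) (L9_sound h9a) (L9_sound h9b))
      (lag_le hX (by norm_num) (L10_sound h10a) (L10_sound h10b))
      (lag_le hX (by norm_num) (L11_sound h11a) (L11_sound h11b))
      (lag_le hX (by norm_num) (L12_sound h12a) (L12_sound h12b))
      (lag_le hX (by norm_num) (L13_sound h13a) (L13_sound h13b))
      (lag_le hX (by norm_num) (L14_sound h14a) (L14_sound h14b))
      (lag_le hX (by norm_num) (L15_sound h15a) (L15_sound h15b))
      (lag_le hX (by norm_num) (L16_sound h16a) (L16_sound h16b))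
      (lag_le hX (by norm_num) (L17_sound h17a) (L17_sound h17b))
      (lag_le hX (by norm_num) (L18_sound h18a) (L18_sound h18b))
      (lag_le hX (by norm_num) (L19_sound h19a) (L19_sound h19b))
      (lag_le hX (by norm_num) (L20_sound h20a) (L20_sound h20b))
      (lag_le hX (by norm_num) (L21_sound h21a) (L21_sound h21b))
  refine lobe4_of hα hKD c.n (fun i hi => ?_) ?_
  · have e0 := allGrid_sound c.n hg i hi
    rw [Bool.and_eq_true] at e0
    obtain ⟨e1, e2⟩ := e0
    have h5 := Phi_le_of hα hX (p := c.z + 10 * i) (by omega) e1 e2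
    have e3 : (((c.z + 10 * i : ℕ)) : ℝ) / 100 = (c.z : ℝ) / 100 + i / 10 := by
      push_cast
      ring
    rwa [e3] at h5
  · have : ((600 : ℕ) : ℝ) ≤ ((c.z + 10 * c.n : ℕ) : ℝ) := by exact_mod_cast hn1
    push_cast at this
    linarith

/-- rows `a`, `a + 1`, … -/
def rowsOk (N D : ℕ) : ℕ → List (Rw × Rw) → Bool
  | _, [] => true
  | a, p :: t => rowOkR N a D p.1 p.2 && rowsOk N D (a + 1) t

/-- consecutive cells -/
def cellsOk (D : ℕ) : List (Rw × Rw) → List Cert → Bool
  | _, [] => true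
  | p :: q :: t, c :: cs => c.ok D p.1 p.2 q.1 q.2 && cellsOk D (q :: t) cs
  | _, _ => false

theorem cells_sound {N D : ℕ} (hD : 0 < D) : ∀ (cs : List Cert) (R : List (Rw × Rw)) (a : ℕ),
    rowsOk N D a R = true → cellsOk D R cs = true → ∀ w : ℝ, 0 < w → w < 1 → (a : ℝ) / D ≤ w →
    w < ((a + cs.length : ℕ) : ℝ) / D → Lobe4 (1 / w)
  | [], R, a, _, _, w, _, _, h1, h2 => by
    simp only [List.length_nil, add_zero] at h2
    exact absurd h1 (not_le.2 h2)
  | c :: cs, [], a, _, h, w, _, _, _, _ => by simp [cellsOk] at h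
  | c :: cs, [p], a, _, h, w, _, _, _, _ => by simp [cellsOk] at h
  | c :: cs, p :: q :: t, a, hr, h, w, hw0, hw1, h1, h2 => by
    have hD' : (0 : ℝ) < D := by exact_mod_cast hD
    simp only [cellsOk, Bool.and_eq_true] at h
    have hr' := hr
    simp only [rowsOk, Bool.and_eq_true] at hr
    obtain ⟨r1, r2, r3⟩ := hr
    rcases le_or_gt w (((a + 1 : ℕ) : ℝ) / D) with h3 | h3
    · refine Cert.sound hD (u := (a : ℝ) / D) (v := ((a + 1 : ℕ) : ℝ) / D) (by positivity)
        (by push_cast; ring) (rowOkR_sound hD r1) (rowOkR_sound hD r2) h.1 hw0 hw1 h1 h3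
    · refine cells_sound (N := N) hD cs (q :: t) (a + 1) ?_ h.2 w hw0 hw1 h3.le ?_
      · simp only [rowsOk, Bool.and_eq_true]
        exact ⟨r2, r3⟩
      · refine h2.trans_le (le_of_eq ?_)
        simp only [List.length_cons]
        push_cast
        ring

end LpSec.W22
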