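import Mathlib
import Pool.Agent.Lib.MP_1dbab3_gt.W.CellA

/-!
# Checks of the Laguerre coefficients
-/

open Real MeasureTheory Set Filter Topology

namespace LpSec.W

/-- check of the Laguerre coefficient 3 -/
def L3 (r : Rw) : Bool :=
  Nat.ble (60000000000 + 9 * r.m2)
    (180000000000 + 1 * r.m3)

theorem L3_sound {r : Rw} (h : L3 r = true) :
    ∑ k ∈ Finset.range 4, ((Nat.choose 3 k : ℝ) / (k.factorial : ℝ)) * ((-1) ^ k * r.f k) ≤ 0 := by
  unfold L3 at h
  rw [Nat.ble_eq] at h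
  have h' := (Nat.cast_le (α := ℝ)).2 h
  push_cast at h'
  simp only [Finset.sum_range_succ, Finset.sum_range_zero, Rw.f, Nat.choose, Nat.factorial]
  norm_num
  linarith

/-- check of the Laguerre coefficient 4 -/
def L4 (r : Rw) (v : ℕ) : Bool :=
  Nat.ble (240000000000 + 72 * r.m2 + 1 * r.m4 + 24 * v)
    (960000000000 + 16 * r.m3)

theorem L4_sound {r : Rw} {v : ℕ} (h : L4 r v = true) :
    ∑ k ∈ Finset.range 5, ((Nat.choose 4 k : ℝ) / (k.factorial : ℝ)) * ((-1) ^ k * r.f k) ≤ -((v : ℝ) / 10000000000) := by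
  unfold L4 at h
  rw [Nat.ble_eq] at h
  have h' := (Nat.cast_le (α := ℝ)).2 h
  push_cast at h'
  simp only [Finset.sum_range_succ, Finset.sum_range_zero, Rw.f, Nat.choose, Nat.factorial]
  norm_num
  linarith

/-- check of the Laguerre coefficient 5 -/
def L5 (r : Rw) (v : ℕ) : Bool :=
  Nat.ble (1200000000000 + 600 * r.m2 + 25 * r.m4 + 120 * v)
    (6000000000000 + 200 * r.m3 + 1 * r.m5)

theorem L5_sound {r : Rw} {v : ℕ} (h : L5 r v = true) :
    ∑ k ∈ Finset.range 6, ((Nat.choose 5 k : ℝ) / (k.factorial : ℝ)) * ((-1) ^ k * r.f k) ≤ -((v : ℝ) / 10000000000) := by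
  unfold L5 at h
  rw [Nat.ble_eq] at h
  have h' := (Nat.cast_le (α := ℝ)).2 h
  push_cast at h'
  simp only [Finset.sum_range_succ, Finset.sum_range_zero, Rw.f, Nat.choose, Nat.factorial]
  norm_num
  linarith

/-- check of the Laguerre coefficient 6 -/
def L6 (r : Rw) (v : ℕ) : Bool :=
  Nat.ble (7200000000000 + 5400 * r.m2 + 450 * r.m4 + 1 * r.m6)
    (43200000000000 + 2400 * r.m3 + 36 * r.m5 + 720 * v)

theorem L6_sound {r : Rw} {v : ℕ} (h : L6 r v = true) :
    ∑ k ∈ Finset.range 7, ((Nat.choose 6 k : ℝ) / (k.factorial : ℝ)) * ((-1) ^ k * r.f k) ≤ (v : ℝ) / 10000000000 := by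
  unfold L6 at h
  rw [Nat.ble_eq] at h
  have h' := (Nat.cast_le (α := ℝ)).2 h
  push_cast at h'
  simp only [Finset.sum_range_succ, Finset.sum_range_zero, Rw.f, Nat.choose, Nat.factorial]
  norm_num
  linarith

/-- check of the Laguerre coefficient 7 -/
def L7 (r : Rw) (v : ℕ) : Bool :=
  Nat.ble (50400000000000 + 52920 * r.m2 + 7350 * r.m4 + 49 * r.m6)
    (352800000000000 + 29400 * r.m3 + 882 * r.m5 + 1 * r.m7 + 5040 * v)

theorem L7_sound {r : Rw} {v : ℕ} (h : L7 r v = true) :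
    ∑ k ∈ Finset.range 8, ((Nat.choose 7 k : ℝ) / (k.factorial : ℝ)) * ((-1) ^ k * r.f k) ≤ (v : ℝ) / 10000000000 := by
  unfold L7 at h
  rw [Nat.ble_eq] at h
  have h' := (Nat.cast_le (α := ℝ)).2 h
  push_cast at h'
  simp only [Finset.sum_range_succ, Finset.sum_range_zero, Rw.f, Nat.choose, Nat.factorial]
  norm_num
  linarith

/-- check of the Laguerre coefficient 8 -/
def L8 (r : Rw) (v : ℕ) : Bool :=
  Nat.ble (403200000000000 + 564480 * r.m2 + 117600 * r.m4 + 1568 * r.m6 + 1 * r.m8)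
    (3225600000000000 + 376320 * r.m3 + 18816 * r.m5 + 64 * r.m7 + 40320 * v)

theorem L8_sound {r : Rw} {v : ℕ} (h : L8 r v = true) :
    ∑ k ∈ Finset.range 9, ((Nat.choose 8 k : ℝ) / (k.factorial : ℝ)) * ((-1) ^ k * r.f k) ≤ (v : ℝ) / 10000000000 := by
  unfold L8 at h
  rw [Nat.ble_eq] at h
  have h' := (Nat.cast_le (α := ℝ)).2 h
  push_cast at h'
  simp only [Finset.sum_range_succ, Finset.sum_range_zero, Rw.f, Nat.choose, Nat.factorial]
  norm_num
  linarith

/-- check of the Laguerre coefficient 9 -/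
def L9 (r : Rw) (v : ℕ) : Bool :=
  Nat.ble (3628800000000000 + 6531840 * r.m2 + 1905120 * r.m4 + 42336 * r.m6 + 81 * r.m8)
    (32659200000000000 + 5080320 * r.m3 + 381024 * r.m5 + 2592 * r.m7 + 1 * r.m9 +
    362880 * v)

theorem L9_sound {r : Rw} {v : ℕ} (h : L9 r v = true) :
    ∑ k ∈ Finset.range 10, ((Nat.choose 9 k : ℝ) / (k.factorial : ℝ)) * ((-1) ^ k * r.f k) ≤ (v : ℝ) / 10000000000 := by
  unfold L9 at h
  rw [Nat.ble_eq] at h
  have h' := (Nat.cast_le (α := ℝ)).2 h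
  push_cast at h'
  simp only [Finset.sum_range_succ, Finset.sum_range_zero, Rw.f, Nat.choose, Nat.factorial]
  norm_num
  linarith

/-- check of the Laguerre coefficient 10 -/
def L10 (r : Rw) (v : ℕ) : Bool :=
  Nat.ble (36288000000000000 + 81648000 * r.m2 + 31752000 * r.m4 + 1058400 * r.m6 + 4050 * r.m8 +
    1 * r.m10)
    (362880000000000000 + 72576000 * r.m3 + 7620480 * r.m5 + 86400 * r.m7 + 100 * r.m9 +
    3628800 * v)

theorem L10_sound {r : Rw} {v : ℕ} (h : L10 r v = true) :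
    ∑ k ∈ Finset.range 11, ((Nat.choose 10 k : ℝ) / (k.factorial : ℝ)) * ((-1) ^ k * r.f k) ≤ (v : ℝ) / 10000000000 := by
  unfold L10 at h
  rw [Nat.ble_eq] at h
  have h' := (Nat.cast_le (α := ℝ)).2 h
  push_cast at h'
  simp only [Finset.sum_range_succ, Finset.sum_range_zero, Rw.f, Nat.choose, Nat.factorial]
  norm_num
  linarith

/-- check of the Laguerre coefficient 11 -/
def L11 (r : Rw) (v : ℕ) : Bool :=
  Nat.ble (399168000000000000 + 1097712000 * r.m2 + 548856000 * r.m4 + 25613280 * r.m6 +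
    163350 * r.m8 + 121 * r.m10)
    (4390848000000000000 + 1097712000 * r.m3 + 153679680 * r.m5 + 2613600 * r.m7 +
    6050 * r.m9 + 1 * r.m11 + 39916800 * v)

theorem L11_sound {r : Rw} {v : ℕ} (h : L11 r v = true) :
    ∑ k ∈ Finset.range 12, ((Nat.choose 11 k : ℝ) / (k.factorial : ℝ)) * ((-1) ^ k * r.f k) ≤ (v : ℝ) / 10000000000 := by
  unfold L11 at h
  rw [Nat.ble_eq] at h
  have h' := (Nat.cast_le (α := ℝ)).2 h
  push_cast at h'
  simp only [Finset.sum_range_succ, Finset.sum_range_zero, Rw.f, Nat.choose, Nat.factorial]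
  norm_num
  linarith

/-- check of the Laguerre coefficient 12 -/
def L12 (r : Rw) (v : ℕ) : Bool :=
  Nat.ble (4790016000000000000 + 15807052800 * r.m2 + 9879408000 * r.m4 + 614718720 * r.m6 +
    5880600 * r.m8 + 8712 * r.m10 + 1 * r.m12)
    (57480192000000000000 + 17563392000 * r.m3 + 3161410560 * r.m5 + 75271680 * r.m7 +
    290400 * r.m9 + 144 * r.m11 + 479001600 * v)

theorem L12_sound {r : Rw} {v : ℕ} (h : L12 r v = true) :
    ∑ k ∈ Finset.range 13, ((Nat.choose 12 k : ℝ) / (k.factorial : ℝ)) * ((-1) ^ k * r.f k) ≤ (v : ℝ) / 10000000000 := by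
  unfold L12 at h
  rw [Nat.ble_eq] at h
  have h' := (Nat.cast_le (α := ℝ)).2 h
  push_cast at h'
  simp only [Finset.sum_range_succ, Finset.sum_range_zero, Rw.f, Nat.choose, Nat.factorial]
  norm_num
  linarith

/-- check of the Laguerre coefficient 13 -/
def L13 (r : Rw) (v : ℕ) : Bool :=
  Nat.ble (62270208000000000000 + 242853811200 * r.m2 + 185513328000 * r.m4 +
    14841066240 * r.m6 + 198764280 * r.m8 + 490776 * r.m10 + 169 * r.m12)
    (809512704000000000000 + 296821324800 * r.m3 + 66784798080 * r.m5 + 2120152320 * r.m7 +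
    12269400 * r.m9 + 12168 * r.m11 + 1 * r.m13 + 6227020800 * v)

theorem L13_sound {r : Rw} {v : ℕ} (h : L13 r v = true) :
    ∑ k ∈ Finset.range 14, ((Nat.choose 13 k : ℝ) / (k.factorial : ℝ)) * ((-1) ^ k * r.f k) ≤ (v : ℝ) / 10000000000 := by
  unfold L13 at h
  rw [Nat.ble_eq] at h
  have h' := (Nat.cast_le (α := ℝ)).2 h
  push_cast at h'
  simp only [Finset.sum_range_succ, Finset.sum_range_zero, Rw.f, Nat.choose, Nat.factorial]
  norm_num
  linarith

/-- check of the Laguerre coefficient 14 -/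
def L14 (r : Rw) (v : ℕ) : Bool :=
  Nat.ble (871782912000000000000 + 3966612249600 * r.m2 + 3636061228800 * r.m4 +
    363606122880 * r.m6 + 6492966480 * r.m8 + 24048024 * r.m10 + 16562 * r.m12 +
    1 * r.m14)
    (12204960768000000000000 + 5288816332800 * r.m3 + 1454424491520 * r.m5 +
    59364264960 * r.m7 + 480960480 * r.m9 + 794976 * r.m11 + 196 * r.m13 +
    87178291200 * v)

theorem L14_sound {r : Rw} {v : ℕ} (h : L14 r v = true) :
    ∑ k ∈ Finset.range 15, ((Nat.choose 14 k : ℝ) / (k.factorial : ℝ)) * ((-1) ^ k * r.f k) ≤ (v : ℝ) / 10000000000 := by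
  unfold L14 at h
  rw [Nat.ble_eq] at h
  have h' := (Nat.cast_le (α := ℝ)).2 h
  push_cast at h'
  simp only [Finset.sum_range_succ, Finset.sum_range_zero, Rw.f, Nat.choose, Nat.factorial]
  norm_num
  linarith

/-- check of the Laguerre coefficient 15 -/
def L15 (r : Rw) (v : ℕ) : Bool :=
  Nat.ble (13076743680000000000000 + 68652904320000 * r.m2 + 74373979680000 * r.m4 +
    9090153072000 * r.m6 + 208702494000 * r.m8 + 1082161080 * r.m10 + 1242150 * r.m12 +
    225 * r.m14)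
    (196151155200000000000000 + 99165306240000 * r.m3 + 32724551059200 * r.m5 +
    1669619952000 * r.m7 + 18036018000 * r.m9 + 44717400 * r.m11 + 22050 * r.m13 +
    1 * r.m15 + 1307674368000 * v)

theorem L15_sound {r : Rw} {v : ℕ} (h : L15 r v = true) :
    ∑ k ∈ Finset.range 16, ((Nat.choose 15 k : ℝ) / (k.factorial : ℝ)) * ((-1) ^ k * r.f k) ≤ (v : ℝ) / 10000000000 := by
  unfold L15 at h
  rw [Nat.ble_eq] at h
  have h' := (Nat.cast_le (α := ℝ)).2 h
  push_cast at h'
  simp only [Finset.sum_range_succ, Finset.sum_range_zero, Rw.f, Nat.choose, Nat.factorial]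
  norm_num
  linarith

end LpSec.W
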