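import Mathlib
import Pool.Agent.Lib.MP_1dbab3_gt.WBase

/-!
# Dimension three: from ordered triples to `Core α 3`, and from averaging plus ridge to `Core α 3`
-/

open Real MeasureTheory Set Filter Topology

namespace LpSec

variable {α : ℝ}

/-- `J` does not depend on the order of the coordinates. -/
theorem J_perm (α : ℝ) {n : ℕ} (x : Fin n → ℝ) (σ : Equiv.Perm (Fin n)) :
    J α (fun i => x (σ i)) = J α x := by
  unfold J
  congr 1
  funext s
  exact Equiv.prod_comp σ (fun i => Phi α (x i * s))

/-- a vanishing last coordinate can be dropped -/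
theorem J_snoc_zero (hα : 1 < α) (y z : ℝ) : J α ![y, z, 0] = J α ![y, z] := by
  unfold J
  congr 1
  funext s
  simp [Fin.prod_univ_three, Fin.prod_univ_two, Phi_zero hα]

theorem vv_two_eq (hα : 1 < α) : vv α 2 = AA α := by
  have h := core_two hα
  -- `J (1/2, 1/2)` is the pair value
  unfold vv J
  have e : ∀ s : ℝ, ∏ i : Fin 2, Phi α (1 / ((2 : ℕ) : ℝ) * s) = Phi α ((1 / 2) * s) ^ 2 := by
    intro s
    simp [Fin.prod_univ_two, sq]
  simp only [e]
  rw [Phi_scale_sq_integral hα (c := 1 / 2) (t := 0) (by norm_num), mul_zero, T2_zero hα]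
  ring

/-- `Core α 3` from ordered triples with positive entries -/
theorem core_three_of (hα : 1 < α)
    (h : ∀ y z w : ℝ, 0 < w → w ≤ z → z ≤ y → y + z + w = 1 → w < y →
      J α ![y, z, w] < max (AA α) (vv α 3)) : Core α 3 := by
  intro x hx h1 hlt hpair hflat
  -- sort in decreasing order
  obtain ⟨σ, hσ⟩ : ∃ σ : Equiv.Perm (Fin 3), Antitone (fun i => x (σ i)) := by
    refine ⟨Tuple.sort (fun i => -x i), ?_⟩
    have := Tuple.monotone_sort (fun i => -x i)
    intro i j hij
    have := this hij
    simp only [Function.comp] at this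
    linarith
  have h01 : x (σ 1) ≤ x (σ 0) := hσ (by decide)
  have h12 : x (σ 2) ≤ x (σ 1) := hσ (by decide)
  have hsum : x (σ 0) + x (σ 1) + x (σ 2) = 1 := by
    have := Equiv.sum_comp σ x
    rw [h1, Fin.sum_univ_three] at this
    exact this
  have hJ : J α x = J α ![x (σ 0), x (σ 1), x (σ 2)] := by
    rw [← J_perm α x σ]
    congr 1
    funext i
    fin_cases i <;> rfl
  rw [hJ]
  rcases (hx (σ 2)).eq_or_lt with h0 | h0
  · -- two coordinates
    rw [← h0, J_snoc_zero hα]
    have hc := core_two hα ![x (σ 0), x (σ 1)] (by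
        intro i; fin_cases i
        · exact hx _
        · exact hx _)
      (by simp [Fin.sum_univ_two]; linarith)
      (by
        intro i; fin_cases i
        · exact hlt _
        · exact hlt _)
      (by
        rintro ⟨i, j, hij, hi, hj⟩
        apply hpair
        have key : x (σ 0) = 1 / 2 ∧ x (σ 1) = 1 / 2 := by
          fin_cases i <;> fin_cases j <;> simp_all
        exact ⟨σ 0, σ 1, fun h => absurd (σ.injective h) (by decide), key.1, key.2⟩)
      (by
        intro hf
        apply hpair
        have e0 := congrFun hf 0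
        have e1 := congrFun hf 1
        simp only [Matrix.cons_val_zero, Matrix.cons_val_one] at e0 e1
        refine ⟨σ 0, σ 1, fun h => absurd (σ.injective h) (by decide), ?_, ?_⟩
        · rw [e0]; norm_num
        · rw [e1]; norm_num)
    rw [vv_two_eq hα, max_self] at hc
    exact lt_max_of_lt_left hc
  · refine h _ _ _ h0 h12 h01 hsum ?_
    by_contra hcon
    push Not at hcon
    apply hflat
    have e0 : x (σ 0) = 1 / 3 := by linarith
    have e1 : x (σ 1) = 1 / 3 := by linarith
    have e2 : x (σ 2) = 1 / 3 := by linarith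
    funext i
    obtain ⟨j, rfl⟩ := σ.surjective i
    fin_cases j
    · simpa using e0
    · simpa using e1
    · simpa using e2

/-- `N α λ = ∫ Φ(s)² Φ(λ s) ds` -/
noncomputable def Nf (α l : ℝ) : ℝ := ∫ s in Ioi (0 : ℝ), Phi α s ^ 2 * Phi α (l * s)

/-- value of `J` on the ridge -/
theorem J_ridge (α : ℝ) {m l : ℝ} (hm : 0 < m) : J α ![m, m, l * m] = Nf α l / m := by
  unfold J Nf
  have e : ∀ s : ℝ, ∏ i : Fin 3, Phi α ((![m, m, l * m] : Fin 3 → ℝ) i * s) =
      (fun t => Phi α t ^ 2 * Phi α (l * t)) (m * s) := by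
    intro s
    simp only [Fin.prod_univ_three, Matrix.cons_val_zero, Matrix.cons_val_one, Matrix.cons_val]
    rw [mul_assoc l m s]
    ring
  simp only [e]
  rw [integral_comp_mul_left_Ioi (fun t => Phi α t ^ 2 * Phi α (l * t)) 0 hm, mul_zero,
    smul_eq_mul]
  ring

/-- **averaging plus ridge** -/
theorem core_three_of_ridge (hα : 1 < α)
    (havg : ∀ y z w : ℝ, 0 < w → w ≤ z → z ≤ y → y + z + w = 1 →
      J α ![y, z, w] ≤ J α ![(y + z) / 2, (y + z) / 2, w])
    (hridge : ∀ l : ℝ, 0 < l → l < 1 → (2 + l) * Nf α l < max (AA α) (vv α 3)) :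
    Core α 3 := by
  refine core_three_of hα fun y z w hw hwz hzy hs hwy => ?_
  refine (havg y z w hw hwz hzy hs).trans_lt ?_
  set m := (y + z) / 2 with hm
  have hm0 : 0 < m := by rw [hm]; linarith
  have hl : w / m < 1 := by rw [div_lt_one hm0, hm]; linarith
  have h := hridge (w / m) (by positivity) hl
  have e : J α ![m, m, w] = (2 + w / m) * Nf α (w / m) := by
    have h1 := J_ridge α (m := m) (l := w / m) hm0
    rw [div_mul_cancel₀ _ hm0.ne'] at h1
    rw [h1]
    have h2 : (2 + w / m) = 1 / m := by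
      rw [eq_div_iff hm0.ne', add_mul, div_mul_cancel₀ _ hm0.ne', hm]
      linarith
    rw [h2]
    ring
  rw [e]
  exact h

end LpSec
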