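import Mathlib
import Pool.Agent.Lib.MP_1dbab3_gt.W.GamM

/-!
# Two-sided rational bounds of `1 / D(u) = Γ(1 + 2u) / (2 Γ(1 + u)^2)`
-/

namespace LpSec.W

open Real Filter Topology Finset

/-- `1 / D(u)` -/
noncomputable def iD (u : ℝ) : ℝ := Gamma (1 + 2 * u) / (2 * Gamma (1 + u) ^ 2)

noncomputable def dh (N : ℕ) (u : ℝ) : ℝ := TT N (2 * u) - 2 * TT N u

theorem iD_form (N : ℕ) {u : ℝ} (hu : 0 ≤ u) :
    iD u = 1 / 2 * (PP N u ^ 2 / PP N (2 * u)) * exp (dh N u) := by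
  obtain ⟨κ, hκ⟩ := Gamma_form N
  have h2 : 0 ≤ 2 * u := by positivity
  have p2 := PP_pos N h2
  have p3 := PP_pos N hu
  unfold iD
  rw [hκ _ hu, hκ _ h2]
  have e1 : exp (dh N u) = exp (TT N (2 * u)) / exp (TT N u) ^ 2 := by
    unfold dh
    rw [exp_sub, ← exp_nat_mul]
    norm_num
  rw [e1]
  have e2 : exp (κ * (2 * u)) = exp (κ * u) ^ 2 := by
    rw [← exp_nat_mul]
    congr 1
    push_cast
    ring
  rw [e2]
  have q1 := exp_pos (κ * u)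
  have q2 := exp_pos (TT N u)
  field_simp

def dhLo {K : Type*} [Field K] (N : ℕ) (u : K) : K := tLo N (2 * u) - 2 * tHi N u
def dhHi {K : Type*} [Field K] (N : ℕ) (u : K) : K := tHi N (2 * u) - 2 * tLo N u

theorem dhLo_le (N : ℕ) {u : ℝ} (hu : 0 ≤ u) : dhLo N u ≤ dh N u := by
  unfold dhLo dh
  have h1 := tLo_le_TT N (x := 2 * u) (by positivity)
  have h2 := TT_le_tHi N hu
  linarith

theorem le_dhHi (N : ℕ) {u : ℝ} (hu : 0 ≤ u) : dh N u ≤ dhHi N u := by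
  unfold dhHi dh
  have h1 := TT_le_tHi N (x := 2 * u) (by positivity)
  have h2 := tLo_le_TT N hu
  linarith

/-- main factor, `u = a / b` -/
def dMain (N a b : ℕ) : ℚ :=
  (NP b N a ^ 2 : ℕ) / (2 * (b ^ N * N.factorial) * NP b N (2 * a) : ℕ)

theorem dMain_eq (N a b : ℕ) (hb : 0 < b) : ((dMain N a b : ℚ) : ℝ) =
    1 / 2 * (PP N ((a : ℝ) / b) ^ 2 / PP N (2 * ((a : ℝ) / b))) := by
  have hb' : (0 : ℝ) < b := by exact_mod_cast hb
  have hu : 0 ≤ (a : ℝ) / b := by positivity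
  unfold dMain
  push_cast
  rw [NP_eq b _ hb, NP_eq b _ hb]
  push_cast
  have e1 : 2 * (a : ℝ) / b = 2 * ((a : ℝ) / b) := by ring
  rw [e1]
  have p2 := PP_pos N (x := 2 * ((a : ℝ) / b)) (by positivity)
  have p3 := PP_pos N hu
  have p4 : (0 : ℝ) < (b : ℝ) ^ N * N.factorial := by positivity
  set c : ℝ := (b : ℝ) ^ N * N.factorial with hc
  set Y := PP N (2 * ((a : ℝ) / b))
  set W := PP N ((a : ℝ) / b)
  clear_value c
  field_simp

theorem iD_ge {N a b : ℕ} (hb : 0 < b) {q : ℚ} (h0 : 0 ≤ dhLo N ((a : ℚ) / b))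
    (h : q ≤ dMain N a b * eLo (dhLo N ((a : ℚ) / b))) : (q : ℝ) ≤ iD ((a : ℝ) / b) := by
  have hu : 0 ≤ (a : ℝ) / b := by positivity
  have h1 : ((dhLo N ((a : ℚ) / b) : ℚ) : ℝ) = dhLo N ((a : ℝ) / b) := by
    unfold dhLo tLo tHi
    push_cast
    rfl
  have h0' : 0 ≤ dhLo N ((a : ℝ) / b) := by
    rw [← h1]
    exact_mod_cast h0
  have h2 : (q : ℝ) ≤ ((dMain N a b : ℚ) : ℝ) * eLo (dhLo N ((a : ℝ) / b)) := by
    have h3 : (q : ℝ) ≤ ((dMain N a b * eLo (dhLo N ((a : ℚ) / b)) : ℚ) : ℝ) := by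
      exact_mod_cast h
    refine h3.trans (le_of_eq ?_)
    rw [← h1]
    unfold eLo
    push_cast
    rfl
  have hp : (0 : ℝ) ≤ ((dMain N a b : ℚ) : ℝ) := by
    have : (0 : ℚ) ≤ dMain N a b := by
      unfold dMain
      positivity
    exact_mod_cast this
  rw [iD_form N hu, ← dMain_eq N a b hb]
  refine h2.trans (mul_le_mul_of_nonneg_left ?_ hp)
  exact (eLo_le h0').trans (exp_le_exp.2 (dhLo_le N hu))

theorem iD_le {N a b : ℕ} (hb : 0 < b) {q : ℚ} (h0 : 0 ≤ dhHi N ((a : ℚ) / b))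
    (h1 : dhHi N ((a : ℚ) / b) ≤ 1) (h : dMain N a b * eHi (dhHi N ((a : ℚ) / b)) ≤ q) :
    iD ((a : ℝ) / b) ≤ (q : ℝ) := by
  have hu : 0 ≤ (a : ℝ) / b := by positivity
  have he : ((dhHi N ((a : ℚ) / b) : ℚ) : ℝ) = dhHi N ((a : ℝ) / b) := by
    unfold dhHi tLo tHi
    push_cast
    rfl
  have h0' : 0 ≤ dhHi N ((a : ℝ) / b) := by
    rw [← he]
    exact_mod_cast h0
  have h1' : dhHi N ((a : ℝ) / b) ≤ 1 := by
    rw [← he]
    exact_mod_cast h1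
  have h2 : ((dMain N a b : ℚ) : ℝ) * eHi (dhHi N ((a : ℝ) / b)) ≤ (q : ℝ) := by
    have h3 : ((dMain N a b * eHi (dhHi N ((a : ℚ) / b)) : ℚ) : ℝ) ≤ (q : ℝ) := by
      exact_mod_cast h
    refine (le_of_eq ?_).trans h3
    rw [← he]
    unfold eHi
    push_cast
    rfl
  have hp : (0 : ℝ) ≤ ((dMain N a b : ℚ) : ℝ) := by
    have : (0 : ℚ) ≤ dMain N a b := by
      unfold dMain
      positivity
    exact_mod_cast this
  rw [iD_form N hu, ← dMain_eq N a b hb]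
  refine le_trans (mul_le_mul_of_nonneg_left ?_ hp) h2
  exact (exp_le_exp.2 (le_dhHi N hu)).trans (le_eHi h0' h1')

/-- powers of two -/
theorem two_rpow_ge {i : ℕ} {q : ℚ} (hq : 0 ≤ q) (h : q ^ 100 ≤ 2 ^ i) :
    (q : ℝ) ≤ 2 ^ ((i : ℝ) / 100) := by
  have h1 : ((q : ℝ)) ^ 100 ≤ (2 : ℝ) ^ i := by exact_mod_cast h
  have h2 : ((2 : ℝ) ^ ((i : ℝ) / 100)) ^ 100 = 2 ^ i := by
    rw [← Real.rpow_natCast, ← Real.rpow_mul (by norm_num)]
    rw [← Real.rpow_natCast]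
    congr 1
    push_cast
    ring
  rw [← h2] at h1
  exact le_of_pow_le_pow_left₀ (by norm_num) (by positivity) h1

theorem two_rpow_le {i : ℕ} {q : ℚ} (hq : 0 ≤ q) (h : 2 ^ i ≤ q ^ 100) :
    (2 : ℝ) ^ ((i : ℝ) / 100) ≤ (q : ℝ) := by
  have h1 : (2 : ℝ) ^ i ≤ ((q : ℝ)) ^ 100 := by exact_mod_cast h
  have h2 : ((2 : ℝ) ^ ((i : ℝ) / 100)) ^ 100 = 2 ^ i := by
    rw [← Real.rpow_natCast, ← Real.rpow_mul (by norm_num)]
    rw [← Real.rpow_natCast]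
    congr 1
    push_cast
    ring
  rw [← h2] at h1
  have hq' : (0 : ℝ) ≤ q := by exact_mod_cast hq
  exact le_of_pow_le_pow_left₀ (by norm_num) hq' h1

end LpSec.W
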