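import Mathlib
import Pool.Agent.Lib.MP_1dbab3_gt.W.FlB

/-!
# Filling of the numeric structures: checks of a cell
-/

open Real MeasureTheory Set Filter Topology intervalIntegral

namespace LpSec.Fl

open LpSec.W LpSec.ML

instance : Inhabited CellD := ⟨⟨0, 0, 0, 0, 0, 0, 0, []⟩⟩
instance : Inhabited NumD := ⟨⟨0, 0, 0, 0, 0, 0, 0, 0, 0, 0, 0⟩⟩
instance : Inhabited PairD := ⟨⟨0, 0, 0, 0, 0, 0, 0, 0, 0⟩⟩
instance : Inhabited T2P := ⟨⟨0, 0, 0, 0, 0, 0, 0, 0, 0, 0⟩⟩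
instance : Inhabited NumF := ⟨⟨0, 0, 0, 0, 0, 0, 0, 0, 0, [], []⟩⟩
instance : Inhabited PairF := ⟨⟨0, 0, 0, 0, 0, 0, default⟩⟩

/-- `L2`, `L3` for 16 moments -/
def l2 : ℕ := 144403552893600
def l3 : ℕ := 3099044504245996706400

/-! ## `T2` lists from the cells of width `1 / 400` -/

structure TD where
  a0 : ℕ
  a1 : ℕ
  b0 : ℕ
  b1 : ℕ
  ds : List (T2P × T2P)

instance : Inhabited TD := ⟨⟨0, 0, 0, 0, []⟩⟩

def tSub (P Q E : List ℕ) (j A C : ℕ) (T : List (ℕ × ℕ × ℕ)) (d : TD) : Bool :=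
  aOk j d.a0 d.a1 && (bOk j d.b0 d.b1 &&
    tChk l2 l3 P Q (evE 0 E) d.a0 d.a1 d.b0 d.b1 A C T d.ds)

theorem tSub_sound {P' Q' E' P Q E : List ℕ} {A C dd j : ℕ} {l : ℝ} (hj : j < 400) (hl : 0 ≤ l)
    (hl1 : l ≤ 1) (hw : 0 < (j : ℝ) + l) (hB : Base (1 / (((j : ℝ) + l) / 400)) P' Q' E' A C dd)
    (hS : SBc (1 / (((j : ℝ) + l) / 400)) l 16 P Q E) {T : List (ℕ × ℕ × ℕ)} {d : TD}
    (h : tSub P Q E j A C T d = true) : TOk (1 / (((j : ℝ) + l) / 400)) T := by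
  unfold tSub at h
  rw [Bool.and_eq_true, Bool.and_eq_true] at h
  exact tChk_sound hB hl hl1 hS (aOk_sound hj h.1 hl hl1 hw) (bOk_sound hj h.2.1 hl hl1 hw) _ _ h.2.2

/-! ## `T2` at the first zero -/

structure HD where
  a0 : ℕ
  a1 : ℕ
  d : T2P

instance : Inhabited HD := ⟨⟨0, 0, default⟩⟩

/-- cell of width `1 / 100` -/
def hChk1 (P Q E : List ℕ) (i A h : ℕ) (d : HD) : Bool :=
  aOk1 i d.a0 d.a1 && (Nat.beq d.d.a (Nat.mul 4 A) &&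
    t2u l2 l3 P Q (evE 0 E) d.a0 d.a1 d.d (Nat.mul 10 h))

theorem hChk1_sound {P Q E : List ℕ} {A i h : ℕ} {l : ℝ} (hi : i + 1 < 100) (hl : 0 ≤ l)
    (hl1 : l ≤ 1) (hw : 0 < (i : ℝ) + l) (hS : SBc (1 / (((i : ℝ) + l) / 100)) l 16 P Q E) {d : HD}
    (hc : hChk1 P Q E i A h d = true) :
    T2 (1 / (((i : ℝ) + l) / 100)) ((A : ℝ) / 10000) ≤ (h : ℝ) / 10 ^ 8 := by
  unfold hChk1 at hc
  rw [Bool.and_eq_true] at hc
  have hα := one_lt_of hi hl hl1 hw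
  have e : ((100 : ℕ) : ℝ) = 100 := by norm_num
  rw [e] at hα
  exact h4_sound hα hl hl1 hS (aOk1_sound (by omega) hc.1 hl hl1 hw) hc.2

/-- cell of width `1 / 400` -/
def hChk4 (L2 L3 : ℕ) (P Q E : List ℕ) (j A h : ℕ) (d : HD) : Bool :=
  aOk j d.a0 d.a1 && (Nat.beq d.d.a (Nat.mul 4 A) &&
    t2u L2 L3 P Q (evE 0 E) d.a0 d.a1 d.d (Nat.mul 10 h))

theorem hChk4_sound {L2 L3 K : ℕ} {P Q E : List ℕ} {A i h : ℕ} {l : ℝ} (hi : i + 1 < 400)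
    (hl : 0 ≤ l) (hl1 : l ≤ 1) (hw : 0 < (i : ℝ) + l)
    (hS : SBc (1 / (((i : ℝ) + l) / 400)) l K P Q E) {d : HD}
    (hc : hChk4 L2 L3 P Q E i A h d = true) :
    T2 (1 / (((i : ℝ) + l) / 400)) ((A : ℝ) / 10000) ≤ (h : ℝ) / 10 ^ 8 := by
  unfold hChk4 at hc
  rw [Bool.and_eq_true] at hc
  have hα := one_lt_of hi hl hl1 hw
  have e : ((400 : ℕ) : ℝ) = 400 := by norm_num
  rw [e] at hα
  exact h4_sound hα hl hl1 hS (aOk_sound (by omega) hc.1 hl hl1 hw) hc.2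

theorem TOk_nil (α : ℝ) : TOk α [] := fun p hp => absurd hp (by simp)

end LpSec.Fl
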