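import Mathlib
import Pool.Agent.Lib.MP_1dbab3_gt.W.PhiN

/-!
# Decay of the kernels `K 1`, `K 2`, `K 3` and of `Phi`, `Phi1`, `Phi2`

`v ^ (ν / 2 + 1 / 4) |K ν v|` is bounded by its first maximum (energy of the equation of
`√x J_ν(x)`, `v = x² / 4`).
-/

open Real MeasureTheory Set Filter Topology

namespace LpSec

variable {α : ℝ}

/-- the numerator of the logarithmic derivative -/
noncomputable def hK (ν : ℕ) (v : ℝ) : ℝ := ((ν : ℝ) / 2 + 1 / 4) * K ν v - v * K (ν + 1) v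

/-- energy, without the power -/
noncomputable def eK (ν : ℕ) (v : ℝ) : ℝ :=
  K ν v ^ 2 + hK ν v ^ 2 / (v - (4 * (ν : ℝ) ^ 2 - 1) / 16)

theorem hK_hasDerivAt (ν : ℕ) (v : ℝ) : HasDerivAt (hK ν)
    (((ν : ℝ) / 2 - 1 / 4) * K (ν + 1) v - K ν v) v := by
  have h1 := K_hasDerivAt ν v
  have h2 := K_hasDerivAt (ν + 1) v
  have h3 := (h1.const_mul ((ν : ℝ) / 2 + 1 / 4)).sub ((hasDerivAt_id v).mul h2)
  refine h3.congr_deriv ?_
  have h4 := K_rec ν v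
  simp only [id]
  linarith

theorem eK_alg {ν x c P A H : ℝ} (hx : x ≠ 0) (hxc : x - c ≠ 0)
    (hcc : (ν / 2 - 1 / 4) * (ν / 2 + 1 / 4) = c) :
    (ν + 1 / 2) * (P / x) * (A ^ 2 + H ^ 2 / (x - c)) +
      P * (2 * A * -(((ν / 2 + 1 / 4) * A - H) / x) +
        (2 * H * ((ν / 2 - 1 / 4) * (((ν / 2 + 1 / 4) * A - H) / x) - A) * (x - c) - H ^ 2) /
          (x - c) ^ 2) = -(P * (H ^ 2 * (c / x) / (x - c) ^ 2)) := by
  rw [← sub_eq_zero]
  have : (ν + 1 / 2) * (P / x) * (A ^ 2 + H ^ 2 / (x - c)) +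
      P * (2 * A * -(((ν / 2 + 1 / 4) * A - H) / x) +
        (2 * H * ((ν / 2 - 1 / 4) * (((ν / 2 + 1 / 4) * A - H) / x) - A) * (x - c) - H ^ 2) /
          (x - c) ^ 2) - -(P * (H ^ 2 * (c / x) / (x - c) ^ 2)) =
      P * A * H * 2 / (x * (x - c)) * ((ν / 2 - 1 / 4) * (ν / 2 + 1 / 4) - c) := by
    field_simp
    ring
  rw [this, hcc, sub_self, mul_zero]

/-- the energy decreases -/
theorem eK_anti {ν : ℕ} (hν : 1 ≤ ν) {v0 : ℝ} (hv0 : (4 * (ν : ℝ) ^ 2 - 1) / 16 < v0) {v : ℝ}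
    (hv : v0 ≤ v) : v ^ ((ν : ℝ) + 1 / 2) * eK ν v ≤ v0 ^ ((ν : ℝ) + 1 / 2) * eK ν v0 := by
  have hν1 : (1 : ℝ) ≤ ν := by exact_mod_cast hν
  obtain ⟨c, hc⟩ : ∃ c : ℝ, c = (4 * (ν : ℝ) ^ 2 - 1) / 16 := ⟨_, rfl⟩
  have hc0 : 0 < c := by rw [hc]; nlinarith
  rw [← hc] at hv0
  have hcc : ((ν : ℝ) / 2 - 1 / 4) * ((ν : ℝ) / 2 + 1 / 4) = c := by rw [hc]; ring
  have heK : ∀ v, eK ν v = K ν v ^ 2 + hK ν v ^ 2 / (v - c) := fun v => by
    unfold eK; rw [hc]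
  have hanti : AntitoneOn (fun v => v ^ ((ν : ℝ) + 1 / 2) * eK ν v) (Ici v0) := by
    have hd : ∀ x, v0 ≤ x → HasDerivAt (fun v => v ^ ((ν : ℝ) + 1 / 2) * eK ν v)
        (-(x ^ ((ν : ℝ) + 1 / 2) * (hK ν x ^ 2 * (c / x) / (x - c) ^ 2))) x := by
      intro x hx
      have hx0 : 0 < x := by linarith
      have hxc : x - c ≠ 0 := by
        have : 0 < x - c := by linarith
        exact this.ne'
      have p1 : HasDerivAt (fun v : ℝ => v ^ ((ν : ℝ) + 1 / 2))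
          (((ν : ℝ) + 1 / 2) * x ^ ((ν : ℝ) + 1 / 2 - 1)) x :=
        Real.hasDerivAt_rpow_const (Or.inl hx0.ne')
      have p2 := (K_hasDerivAt ν x).pow 2
      have p3 := ((hK_hasDerivAt ν x).pow 2).div ((hasDerivAt_id x).sub_const c) hxc
      have p4 := p1.mul (p2.add p3)
      have p5 : HasDerivAt (fun v => v ^ ((ν : ℝ) + 1 / 2) * eK ν v)
          (((ν : ℝ) + 1 / 2) * x ^ ((ν : ℝ) + 1 / 2 - 1) * (K ν x ^ 2 + hK ν x ^ 2 / (x - c)) +
            x ^ ((ν : ℝ) + 1 / 2) * (2 * K ν x * -(K (ν + 1) x) +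
            (2 * hK ν x * (((ν : ℝ) / 2 - 1 / 4) * K (ν + 1) x - K ν x) * (x - c) -
              hK ν x ^ 2) / (x - c) ^ 2)) x := by
        refine (p4.congr_of_eventuallyEq ?_).congr_deriv ?_
        · filter_upwards with v
          rw [heK]
          rfl
        · simp only [id, Pi.add_apply, Pi.pow_apply, Pi.div_apply, Nat.cast_ofNat,
            Nat.add_one_sub_one, pow_one, mul_one]
      refine p5.congr_deriv ?_
      have e1 : x ^ ((ν : ℝ) + 1 / 2 - 1) = x ^ ((ν : ℝ) + 1 / 2) / x := by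
        rw [rpow_sub hx0, rpow_one]
      have e2 : K (ν + 1) x = (((ν : ℝ) / 2 + 1 / 4) * K ν x - hK ν x) / x := by
        unfold hK
        field_simp
        ring
      rw [e1, e2]
      exact eK_alg hx0.ne' hxc hcc
    refine antitoneOn_of_deriv_nonpos (convex_Ici v0) (fun x hx =>
      (hd x hx).continuousAt.continuousWithinAt) (fun x hx => ?_) fun x hx => ?_
    · rw [interior_Ici] at hx
      exact (hd x (le_of_lt hx)).differentiableAt.differentiableWithinAt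
    · rw [interior_Ici] at hx
      have hx0 : 0 < x := by
        have : v0 < x := hx
        linarith
      rw [(hd x (le_of_lt hx)).deriv]
      have : 0 ≤ x ^ ((ν : ℝ) + 1 / 2) * (hK ν x ^ 2 * (c / x) / (x - c) ^ 2) := by positivity
      linarith
  exact hanti (Set.mem_Ici.2 le_rfl) hv hv

theorem K_nonneg_of_le {ν : ℕ} {v : ℝ} (hv : 0 ≤ v) (hv1 : v ≤ ν + 1) : 0 ≤ K ν v := by
  have h := (abs_le.1 (K_taylor 1 ν hv)).1
  simp only [Finset.sum_range_one, pow_zero, mul_one, Nat.factorial_zero, Nat.cast_one, one_mul,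
    zero_add, pow_one, Nat.factorial_one] at h
  have hf : (0 : ℝ) < (ν.factorial : ℝ) := by exact_mod_cast Nat.factorial_pos _
  have h1 : v / ((1 + ν).factorial : ℝ) ≤ 1 / (ν.factorial : ℝ) := by
    rw [show 1 + ν = ν + 1 by ring, Nat.factorial_succ]
    push_cast
    rw [div_le_div_iff₀ (by positivity) hf]
    nlinarith
  linarith

theorem K_anti {ν : ℕ} {b : ℝ} (hb : b ≤ ν + 2) : AntitoneOn (K ν) (Icc 0 b) := by
  refine antitoneOn_of_deriv_nonpos (convex_Icc 0 b) (K_continuous ν).continuousOn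
    (fun x _ => (K_hasDerivAt ν x).differentiableAt.differentiableWithinAt) fun x hx => ?_
  rw [interior_Icc] at hx
  rw [(K_hasDerivAt ν x).deriv]
  have := K_nonneg_of_le (ν := ν + 1) hx.1.le (by push_cast; linarith [hx.2])
  linarith

/-- the global bound from data at one point -/
theorem env_of {ν : ℕ} (hν : 1 ≤ ν) {v0 v1 C : ℝ} (hc : (4 * (ν : ℝ) ^ 2 - 1) / 16 < v0)
    (hv1 : 0 < v1) (hv10 : v1 ≤ v0) (hv0 : v0 ≤ ν + 2) (hC : 0 < C)
    (h1 : v1 ^ ((ν : ℝ) + 1 / 2) ≤ (C * ν.factorial) ^ 2)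
    (h2 : ((ν : ℝ) / 2 - 1 / 4) * K (ν + 1) v1 ≤ K ν v0) (h3 : 0 ≤ hK ν v0)
    (h4 : v0 ^ ((ν : ℝ) + 1 / 2) * eK ν v0 ≤ C ^ 2) {v : ℝ} (hv : 0 ≤ v) :
    v ^ ((ν : ℝ) / 2 + 1 / 4) * |K ν v| ≤ C := by
  have hν1 : (1 : ℝ) ≤ ν := by exact_mod_cast hν
  have hc0 : 0 < (4 * (ν : ℝ) ^ 2 - 1) / 16 := by nlinarith
  have hv0p : 0 < v0 := by linarith
  have hsq : ∀ x : ℝ, 0 ≤ x → (x ^ ((ν : ℝ) / 2 + 1 / 4)) ^ 2 = x ^ ((ν : ℝ) + 1 / 2) := by
    intro x hx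
    rw [← rpow_natCast, ← rpow_mul hx]
    congr 1
    push_cast
    ring
  have hbase : ∀ x, v0 ≤ x → x ^ ((ν : ℝ) / 2 + 1 / 4) * |K ν x| ≤ C := by
    intro x hx
    have hx0 : 0 ≤ x := by linarith
    have e1 := eK_anti hν hc hx
    have e2 : K ν x ^ 2 ≤ eK ν x := by
      unfold eK
      have : 0 ≤ hK ν x ^ 2 / (x - (4 * (ν : ℝ) ^ 2 - 1) / 16) :=
        div_nonneg (sq_nonneg _) (by linarith)
      linarith
    have e3 : (x ^ ((ν : ℝ) / 2 + 1 / 4) * |K ν x|) ^ 2 ≤ C ^ 2 := by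
      rw [mul_pow, sq_abs, hsq x hx0]
      have := mul_le_mul_of_nonneg_left e2 (rpow_nonneg hx0 ((ν : ℝ) + 1 / 2))
      linarith
    exact abs_le_of_sq_le_sq' e3 hC.le |>.2
  rcases le_total v0 v with h5 | h5
  · exact hbase v h5
  rcases le_total v v1 with h6 | h6
  · have e1 : |K ν v| ≤ 1 / (ν.factorial : ℝ) := K_abs_le ν hv
    have e2 : v ^ ((ν : ℝ) / 2 + 1 / 4) ≤ C * ν.factorial := by
      have e3 : (v ^ ((ν : ℝ) / 2 + 1 / 4)) ^ 2 ≤ (C * ν.factorial) ^ 2 := by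
        rw [hsq v hv]
        exact (rpow_le_rpow hv h6 (by positivity)).trans h1
      exact abs_le_of_sq_le_sq' e3 (by positivity) |>.2
    have hf : (0 : ℝ) < (ν.factorial : ℝ) := by exact_mod_cast Nat.factorial_pos _
    calc v ^ ((ν : ℝ) / 2 + 1 / 4) * |K ν v| ≤ (C * ν.factorial) * (1 / ν.factorial) :=
          mul_le_mul e2 e1 (abs_nonneg _) (by positivity)
      _ = C := by field_simp
  · -- `h` decreases on `[v1, v0]`
    have a1 := K_anti (ν := ν) (b := v0) hv0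
    have a2 := K_anti (ν := ν + 1) (b := v0) (by push_cast; linarith)
    have hanti : AntitoneOn (hK ν) (Icc v1 v0) := by
      refine antitoneOn_of_deriv_nonpos (convex_Icc v1 v0)
        (fun x _ => (hK_hasDerivAt ν x).continuousAt.continuousWithinAt)
        (fun x _ => (hK_hasDerivAt ν x).differentiableAt.differentiableWithinAt) fun x hx => ?_
      rw [interior_Icc] at hx
      rw [(hK_hasDerivAt ν x).deriv]
      have b1 : K (ν + 1) x ≤ K (ν + 1) v1 := a2 ⟨hv1.le, hv10⟩ ⟨by linarith [hx.1], hx.2.le⟩ hx.1.le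
      have b2 : K ν v0 ≤ K ν x := a1 ⟨by linarith [hx.1], hx.2.le⟩ ⟨hv0p.le, le_rfl⟩ hx.2.le
      have b3 : 0 ≤ (ν : ℝ) / 2 - 1 / 4 := by linarith
      have := mul_le_mul_of_nonneg_left b1 b3
      linarith
    have hmono : MonotoneOn (fun x => x ^ ((ν : ℝ) / 2 + 1 / 4) * K ν x) (Icc v1 v0) := by
      have hd : ∀ x ∈ Icc v1 v0, HasDerivAt (fun x => x ^ ((ν : ℝ) / 2 + 1 / 4) * K ν x)
          (x ^ ((ν : ℝ) / 2 + 1 / 4) * (hK ν x / x)) x := by
        intro x hx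
        have hx0 : 0 < x := by linarith [hx.1]
        have p1 : HasDerivAt (fun v : ℝ => v ^ ((ν : ℝ) / 2 + 1 / 4))
            (((ν : ℝ) / 2 + 1 / 4) * x ^ ((ν : ℝ) / 2 + 1 / 4 - 1)) x :=
          Real.hasDerivAt_rpow_const (Or.inl hx0.ne')
        refine (p1.mul (K_hasDerivAt ν x)).congr_deriv ?_
        rw [rpow_sub hx0, rpow_one]
        unfold hK
        field_simp
        ring
      refine monotoneOn_of_deriv_nonneg (convex_Icc v1 v0) (fun x hx =>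
        (hd x hx).continuousAt.continuousWithinAt) (fun x hx => ?_) fun x hx => ?_
      · exact (hd x (interior_subset hx)).differentiableAt.differentiableWithinAt
      · have hx' := interior_subset hx
        have hx0 : 0 < x := by linarith [hx'.1]
        rw [(hd x hx').deriv]
        have b1 := hanti hx' ⟨hv10, le_rfl⟩ hx'.2
        have : 0 ≤ hK ν x := h3.trans b1
        positivity
    have e1 := hmono ⟨h6, h5⟩ ⟨hv10, le_rfl⟩ h5
    have e2 := hbase v0 le_rfl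
    have e3 : 0 ≤ K ν v := by
      have := a1 ⟨hv, h5⟩ ⟨hv0p.le, le_rfl⟩ h5
      have hb : 0 ≤ K (ν + 1) v1 := by
        exact K_nonneg_of_le (ν := ν + 1) hv1.le (by push_cast; linarith)
      have : 0 ≤ ((ν : ℝ) / 2 - 1 / 4) * K (ν + 1) v1 := mul_nonneg (by linarith) hb
      linarith
    rw [abs_of_nonneg e3]
    refine (le_trans e1 ?_)
    refine le_trans ?_ e2
    exact mul_le_mul_of_nonneg_left (le_abs_self _) (rpow_nonneg hv0p.le _)

theorem K_val {ν n : ℕ} {v q : ℝ} (hv : 0 ≤ v) {ε : ℝ}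
    (h : ∑ k ∈ Finset.range n, (-1) ^ k * v ^ k / ((k.factorial : ℝ) * ((k + ν).factorial : ℝ)) - q +
      v ^ n / ((n.factorial : ℝ) * ((n + ν).factorial : ℝ)) ≤ ε)
    (h' : q - ∑ k ∈ Finset.range n, (-1) ^ k * v ^ k / ((k.factorial : ℝ) * ((k + ν).factorial : ℝ)) +
      v ^ n / ((n.factorial : ℝ) * ((n + ν).factorial : ℝ)) ≤ ε) : |K ν v - q| ≤ ε := by
  obtain ⟨h1, h2⟩ := abs_le.1 (K_taylor n ν hv)
  rw [abs_le]
  constructor <;> linarith

/-- numerical hypotheses of `env_of` -/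
theorem env_num {ν : ℕ} (hν : 1 ≤ ν) {v0 v1 C a b d e : ℝ}
    (hc : (4 * (ν : ℝ) ^ 2 - 1) / 16 < v0) (hv1 : 0 < v1) (hv10 : v1 ≤ v0) (hv0 : v0 ≤ ν + 2)
    (hC : 0 < C) (h1 : v1 ^ (2 * ν + 1) ≤ (C * ν.factorial) ^ 4)
    (ha : |K ν v0 - a| ≤ 1 / 1000000) (hb : |K (ν + 1) v0 - b| ≤ 1 / 1000000)
    (hd : K (ν + 1) v1 ≤ d) (h2 : ((ν : ℝ) / 2 - 1 / 4) * d ≤ a - 1 / 1000000)
    (h3 : 0 ≤ ((ν : ℝ) / 2 + 1 / 4) * (a - 1 / 1000000) - v0 * (b + 1 / 1000000))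
    (he : ((a + 1 / 1000000) ^ 2 + (((ν : ℝ) / 2 + 1 / 4) * (a + 1 / 1000000) -
      v0 * (b - 1 / 1000000)) ^ 2 / (v0 - (4 * (ν : ℝ) ^ 2 - 1) / 16)) ≤ e)
    (hap : 0 ≤ a - 1 / 1000000) (h4 : v0 ^ (2 * ν + 1) * e ^ 2 ≤ C ^ 4) {v : ℝ} (hv : 0 ≤ v) :
    v ^ ((ν : ℝ) / 2 + 1 / 4) * |K ν v| ≤ C := by
  have hν1 : (1 : ℝ) ≤ ν := by exact_mod_cast hν
  have hc0 : 0 < (4 * (ν : ℝ) ^ 2 - 1) / 16 := by nlinarith
  have hv0p : 0 < v0 := by linarith
  obtain ⟨a1, a2⟩ := abs_le.1 ha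
  obtain ⟨b1, b2⟩ := abs_le.1 hb
  have hsq : ∀ x : ℝ, 0 ≤ x → (x ^ ((ν : ℝ) + 1 / 2)) ^ 2 = x ^ (2 * ν + 1) := by
    intro x hx
    rw [← rpow_natCast, ← rpow_mul hx, ← rpow_natCast]
    congr 1
    push_cast
    ring
  have hk0 : 0 ≤ (ν : ℝ) / 2 + 1 / 4 := by linarith
  have hk1 : 0 ≤ (ν : ℝ) / 2 - 1 / 4 := by linarith
  have hh : 0 ≤ hK ν v0 := by
    unfold hK
    have m1 := mul_le_mul_of_nonneg_left (show a - 1 / 1000000 ≤ K ν v0 by linarith) hk0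
    have m2 := mul_le_mul_of_nonneg_left (show K (ν + 1) v0 ≤ b + 1 / 1000000 by linarith) hv0p.le
    linarith
  have hh2 : hK ν v0 ≤ ((ν : ℝ) / 2 + 1 / 4) * (a + 1 / 1000000) - v0 * (b - 1 / 1000000) := by
    unfold hK
    have m1 := mul_le_mul_of_nonneg_left (show K ν v0 ≤ a + 1 / 1000000 by linarith) hk0
    have m2 := mul_le_mul_of_nonneg_left (show b - 1 / 1000000 ≤ K (ν + 1) v0 by linarith) hv0p.le
    linarith
  have hK0 : 0 ≤ K ν v0 := by linarith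
  have hE : eK ν v0 ≤ e := by
    refine le_trans ?_ he
    unfold eK
    have n1 : K ν v0 ^ 2 ≤ (a + 1 / 1000000) ^ 2 := pow_le_pow_left₀ hK0 (by linarith) 2
    have n2 : hK ν v0 ^ 2 ≤ (((ν : ℝ) / 2 + 1 / 4) * (a + 1 / 1000000) -
      v0 * (b - 1 / 1000000)) ^ 2 := pow_le_pow_left₀ hh hh2 2
    have n3 := div_le_div_of_nonneg_right n2
      (show 0 ≤ v0 - (4 * (ν : ℝ) ^ 2 - 1) / 16 by linarith)
    linarith
  have hE0 : 0 ≤ eK ν v0 := by
    unfold eK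
    have : 0 ≤ hK ν v0 ^ 2 / (v0 - (4 * (ν : ℝ) ^ 2 - 1) / 16) :=
      div_nonneg (sq_nonneg _) (by linarith)
    positivity
  refine env_of hν hc hv1 hv10 hv0 hC ?_ ?_ hh ?_ hv
  · have : (v1 ^ ((ν : ℝ) + 1 / 2)) ^ 2 ≤ ((C * ν.factorial) ^ 2) ^ 2 := by
      rw [hsq v1 hv1.le]
      refine h1.trans (le_of_eq ?_)
      ring
    exact abs_le_of_sq_le_sq' this (by positivity) |>.2
  · have := mul_le_mul_of_nonneg_left hd hk1
    linarith
  · have : (v0 ^ ((ν : ℝ) + 1 / 2) * eK ν v0) ^ 2 ≤ (C ^ 2) ^ 2 := by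
      rw [mul_pow, hsq v0 hv0p.le]
      have m1 : eK ν v0 ^ 2 ≤ e ^ 2 := pow_le_pow_left₀ hE0 hE 2
      have m2 := mul_le_mul_of_nonneg_left m1 (pow_nonneg hv0p.le (2 * ν + 1))
      calc v0 ^ (2 * ν + 1) * eK ν v0 ^ 2 ≤ v0 ^ (2 * ν + 1) * e ^ 2 := m2
        _ ≤ C ^ 4 := h4
        _ = (C ^ 2) ^ 2 := by ring
    exact abs_le_of_sq_le_sq' this (by positivity) |>.2

theorem K1_decay {v : ℝ} (hv : 0 ≤ v) : v ^ (((1 : ℕ) : ℝ) / 2 + 1 / 4) * |K 1 v| ≤ 73 / 125 := by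
  refine env_num (ν := 1) (v0 := 29 / 25) (v1 := 12 / 25) (a := 1304747 / 2500000) (b := 665267 / 2000000) (d := 21233 / 50000)
    (e := 68103 / 250000) (by norm_num) (by norm_num) (by norm_num) (by norm_num) (by norm_num) (by norm_num)
    (by norm_num [Nat.factorial]) ?_ ?_ ?_ (by norm_num) (by norm_num) (by norm_num) (by norm_num)
    (by norm_num) hv
  · refine K_val (n := 14) (by norm_num) ?_ ?_ <;>
    norm_num [Finset.sum_range_succ, Nat.factorial]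
  · refine K_val (n := 14) (by norm_num) ?_ ?_ <;>
    norm_num [Finset.sum_range_succ, Nat.factorial]
  · have h := (abs_le.1 (K_taylor 10 2 (u := 12 / 25) (by norm_num))).2
    norm_num [Finset.sum_range_succ, Nat.factorial] at h
    linarith

theorem K2_decay {v : ℝ} (hv : 0 ≤ v) : v ^ (((2 : ℕ) : ℝ) / 2 + 1 / 4) * |K 2 v| ≤ 123 / 200 := by
  refine env_num (ν := 2) (v0 := 27 / 10) (v1 := 23 / 20) (a := 354777 / 2000000) (b := 160793 / 2000000) (d := 6197 / 50000)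
    (e := 787 / 25000) (by norm_num) (by norm_num) (by norm_num) (by norm_num) (by norm_num) (by norm_num)
    (by norm_num [Nat.factorial]) ?_ ?_ ?_ (by norm_num) (by norm_num) (by norm_num) (by norm_num)
    (by norm_num) hv
  · refine K_val (n := 14) (by norm_num) ?_ ?_ <;>
    norm_num [Finset.sum_range_succ, Nat.factorial]
  · refine K_val (n := 14) (by norm_num) ?_ ?_ <;>
    norm_num [Finset.sum_range_succ, Nat.factorial]
  · have h := (abs_le.1 (K_taylor 10 3 (u := 23 / 20) (by norm_num))).2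
    norm_num [Finset.sum_range_succ, Nat.factorial] at h
    linarith

theorem K3_decay {v : ℝ} (hv : 0 ≤ v) : v ^ (((3 : ℕ) : ℝ) / 2 + 1 / 4) * |K 3 v| ≤ 639 / 1000 := by
  refine env_num (ν := 3) (v0 := 122 / 25) (v1 := 43 / 20) (a := 199117 / 5000000) (b := 142221 / 10000000) (d := 2667 / 100000)
    (e := 1587 / 1000000) (by norm_num) (by norm_num) (by norm_num) (by norm_num) (by norm_num) (by norm_num)
    (by norm_num [Nat.factorial]) ?_ ?_ ?_ (by norm_num) (by norm_num) (by norm_num) (by norm_num)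
    (by norm_num) hv
  · refine K_val (n := 14) (by norm_num) ?_ ?_ <;>
    norm_num [Finset.sum_range_succ, Nat.factorial]
  · refine K_val (n := 14) (by norm_num) ?_ ?_ <;>
    norm_num [Finset.sum_range_succ, Nat.factorial]
  · have h := (abs_le.1 (K_taylor 10 4 (u := 43 / 20) (by norm_num))).2
    norm_num [Finset.sum_range_succ, Nat.factorial] at h
    linarith

theorem PhiN_eq_G (hα : 1 < α) : ∀ (ν : ℕ) {s : ℝ}, 0 < s →
    IntegrableOn (fun t => t ^ ν * G α t) (Ioi 0) ∧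
    PhiN α ν s = ∫ t in Ioi (0 : ℝ), t ^ ν * G α t * K (ν + 1) (s * t)
  | 0, s, hs => by
    refine ⟨?_, ?_⟩
    · simpa using G_integrable hα
    · rw [PhiN_zero, Phi_eq_G hα hs.le]
      simp
  | ν + 1, s, hs => by
    have hα0 : 0 < α := by linarith
    have hint : IntegrableOn (fun t => t ^ (ν + 1) * G α t) (Ioi 0) := by
      have h := (aux_Gmom hα0 (q := ((ν + 1 : ℕ) : ℝ)) (by
        have : (0 : ℝ) ≤ ((ν + 1 : ℕ) : ℝ) := Nat.cast_nonneg _
        linarith)).1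
      refine h.congr_fun (fun t _ => ?_) measurableSet_Ioi
      simp only [rpow_natCast]
    refine ⟨hint, ?_⟩
    have hw := (PhiN_eq_G hα ν hs).1
    have h1 := phic2_deriv (w := fun t => t ^ ν * G α t) hw (by
      refine hint.congr_fun (fun t _ => ?_) measurableSet_Ioi
      simp only
      ring) (ν + 1) hs
    have h2 := PhiN_hasDerivAt hα ν hs
    have h3 : HasDerivAt (PhiN α ν)
        (-∫ ρ in Ioi (0 : ℝ), ρ * (ρ ^ ν * G α ρ) * K (ν + 1 + 1) (s * ρ)) s := by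
      refine h1.congr_of_eventuallyEq ?_
      filter_upwards [Ioi_mem_nhds hs] with x hx
      exact (PhiN_eq_G hα ν hx).2
    have h4 := h2.unique h3
    have h5 : PhiN α (ν + 1) s = ∫ ρ in Ioi (0 : ℝ), ρ * (ρ ^ ν * G α ρ) * K (ν + 1 + 1) (s * ρ) := by
      linarith
    rw [h5]
    refine setIntegral_congr_fun measurableSet_Ioi fun t _ => ?_
    ring

/-- tangent line of a power `p ∈ [0, 1]` -/
theorem rpow_tangent {p x l : ℝ} (hp : 0 ≤ p) (hp1 : p ≤ 1) (hx : 0 ≤ x) (hl : 0 < l) :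
    x ^ p ≤ (p * x + (1 - p) * l) * l ^ (p - 1) := by
  have h := Real.geom_mean_le_arith_mean2_weighted hp (by linarith : 0 ≤ 1 - p) hx hl.le (by ring)
  have h1 : l ^ (1 - p) * l ^ (p - 1) = 1 := by
    rw [← rpow_add hl]
    simp
  have h2 := mul_le_mul_of_nonneg_right h (rpow_nonneg hl.le (p - 1))
  calc x ^ p = x ^ p * l ^ (1 - p) * l ^ (p - 1) := by rw [mul_assoc, h1, mul_one]
    _ ≤ _ := h2

theorem int_G_pow (hα : 1 < α) {p : ℝ} (hp : 0 ≤ p) (hp1 : p ≤ 1) :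
    IntegrableOn (fun t => G α t * (1 / t) ^ p) (Ioi 0) ∧
    ∫ t in Ioi (0 : ℝ), G α t * (1 / t) ^ p ≤ ((DD α)⁻¹) ^ p := by
  have hα0 : 0 < α := by linarith
  have hD : 0 < (DD α)⁻¹ := inv_pos.2 (DD_pos hα0)
  set m : ℝ := (DD α)⁻¹ with hm
  have hI : IntegrableOn (fun t => G α t * (1 / t) ^ p) (Ioi 0) := by
    have h := (aux_Gmom hα0 (q := -p) (by linarith)).1
    refine h.congr_fun (fun t ht => ?_) measurableSet_Ioi
    have ht0 : (0 : ℝ) < t := ht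
    simp only [one_div]
    rw [inv_rpow ht0.le, rpow_neg ht0.le, mul_comm]
  refine ⟨hI, ?_⟩
  have hJ : IntegrableOn (fun t => (p * m ^ (p - 1)) * (G α t / t) +
      ((1 - p) * m * m ^ (p - 1)) * G α t) (Ioi 0) :=
    ((G_div_integrable hα).const_mul _).add ((G_integrable hα).const_mul _)
  have h1 : ∫ t in Ioi (0 : ℝ), G α t * (1 / t) ^ p ≤ ∫ t in Ioi (0 : ℝ),
      ((p * m ^ (p - 1)) * (G α t / t) + ((1 - p) * m * m ^ (p - 1)) * G α t) := by
    refine setIntegral_mono_on hI hJ measurableSet_Ioi fun t ht => ?_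
    have ht0 : (0 : ℝ) < t := ht
    have h2 := rpow_tangent hp hp1 (x := 1 / t) (by positivity) hD
    have h3 := mul_le_mul_of_nonneg_left h2 (G_nonneg hα0 ht0)
    refine h3.trans (le_of_eq ?_)
    ring
  refine h1.trans (le_of_eq ?_)
  rw [integral_add ((G_div_integrable hα).const_mul _) ((G_integrable hα).const_mul _),
    integral_const_mul, integral_const_mul, G_inv hα, G_integral hα]
  have h4 : m ^ (p - 1) * m = m ^ p := by
    rw [← rpow_add_one hD.ne']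
    congr 1
    ring
  calc p * m ^ (p - 1) * m + (1 - p) * m * m ^ (p - 1) * 1 = m ^ (p - 1) * m := by ring
    _ = m ^ p := h4

theorem int_G_pow' (hα : 1 < α) : IntegrableOn (fun t => G α t * t ^ (1 / 4 : ℝ)) (Ioi 0) ∧
    ∫ t in Ioi (0 : ℝ), G α t * t ^ (1 / 4 : ℝ) ≤ 2 ^ (1 / 4 : ℝ) := by
  have hα0 : 0 < α := by linarith
  have hI : IntegrableOn (fun t => G α t * t ^ (1 / 4 : ℝ)) (Ioi 0) := by
    have h := (aux_Gmom hα0 (q := 1 / 4) (by linarith)).1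
    refine h.congr_fun (fun t _ => ?_) measurableSet_Ioi
    simp only
    ring
  refine ⟨hI, ?_⟩
  set c : ℝ := (2 : ℝ) ^ ((1 / 4 : ℝ) - 1) with hc
  have hJ : IntegrableOn (fun t => (1 / 4 * c) * (t * G α t) + ((1 - 1 / 4) * 2 * c) * G α t)
      (Ioi 0) := ((G_mul_integrable hα).const_mul _).add ((G_integrable hα).const_mul _)
  have h1 : ∫ t in Ioi (0 : ℝ), G α t * t ^ (1 / 4 : ℝ) ≤ ∫ t in Ioi (0 : ℝ),
      ((1 / 4 * c) * (t * G α t) + ((1 - 1 / 4) * 2 * c) * G α t) := by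
    refine setIntegral_mono_on hI hJ measurableSet_Ioi fun t ht => ?_
    have ht0 : (0 : ℝ) < t := ht
    have h2 := rpow_tangent (p := 1 / 4) (by norm_num) (by norm_num) (x := t) ht0.le
      (l := 2) (by norm_num)
    have h3 := mul_le_mul_of_nonneg_left h2 (G_nonneg hα0 ht0)
    refine h3.trans (le_of_eq ?_)
    rw [hc]
    ring
  refine h1.trans (le_of_eq ?_)
  rw [integral_add ((G_mul_integrable hα).const_mul _) ((G_integrable hα).const_mul _),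
    integral_const_mul, integral_const_mul, G_mean hα, G_integral hα]
  have h4 : c * 2 = 2 ^ (1 / 4 : ℝ) := by
    rw [hc, ← rpow_add_one (by norm_num : (2 : ℝ) ≠ 0)]
    congr 1
    ring
  calc 1 / 4 * c * 2 + (1 - 1 / 4) * 2 * c * 1 = c * 2 := by ring
    _ = 2 ^ (1 / 4 : ℝ) := h4

theorem PhiN_decay (hα : 1 < α) (ν : ℕ) {C q M s : ℝ} (hC : 0 ≤ C)
    (hK : ∀ v : ℝ, 0 ≤ v → v ^ (((ν + 1 : ℕ) : ℝ) / 2 + 1 / 4) * |K (ν + 1) v| ≤ C)
    (hq : ∀ t : ℝ, 0 < t → t ^ ν * (1 / t) ^ (((ν + 1 : ℕ) : ℝ) / 2 + 1 / 4) = t ^ q)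
    (hI : IntegrableOn (fun t => G α t * t ^ q) (Ioi 0))
    (hM : ∫ t in Ioi (0 : ℝ), G α t * t ^ q ≤ M) (hs : 0 < s) :
    |PhiN α ν s| ≤ C * M * (1 / s) ^ (((ν + 1 : ℕ) : ℝ) / 2 + 1 / 4) := by
  have hα0 : 0 < α := by linarith
  obtain ⟨h1, h2⟩ := PhiN_eq_G hα ν hs
  set κ : ℝ := ((ν + 1 : ℕ) : ℝ) / 2 + 1 / 4 with hκ
  have h3 : |PhiN α ν s| ≤ ∫ t in Ioi (0 : ℝ), (C * (1 / s) ^ κ) * (G α t * t ^ q) := by
    rw [h2, ← Real.norm_eq_abs]
    refine norm_integral_le_of_norm_le (hI.const_mul _) ?_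
    refine (ae_restrict_iff' measurableSet_Ioi).2 (Eventually.of_forall fun t ht => ?_)
    have ht0 : (0 : ℝ) < t := ht
    have hG := G_nonneg hα0 ht0
    rw [norm_mul, norm_mul, Real.norm_eq_abs (K _ _), Real.norm_of_nonneg hG,
      Real.norm_of_nonneg (by positivity)]
    have hst : 0 < s * t := by positivity
    have h4 : |K (ν + 1) (s * t)| ≤ C * (1 / (s * t)) ^ κ := by
      have h5 := hK (s * t) hst.le
      have h6 : 0 < (s * t) ^ κ := rpow_pos_of_pos hst _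
      rw [one_div, inv_rpow hst.le, ← div_eq_mul_inv, le_div_iff₀ h6]
      linarith
    have h7 : (1 / (s * t)) ^ κ = (1 / s) ^ κ * (1 / t) ^ κ := by
      rw [← mul_rpow (by positivity) (by positivity)]
      congr 1
      field_simp
    calc t ^ ν * G α t * |K (ν + 1) (s * t)| ≤ t ^ ν * G α t * (C * (1 / (s * t)) ^ κ) :=
          mul_le_mul_of_nonneg_left h4 (by positivity)
      _ = (C * (1 / s) ^ κ) * (G α t * (t ^ ν * (1 / t) ^ κ)) := by rw [h7]; ring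
      _ = _ := by rw [hq t ht0]
  refine h3.trans ?_
  rw [integral_const_mul]
  have h8 : 0 ≤ C * (1 / s) ^ κ := mul_nonneg hC (rpow_nonneg (by positivity) _)
  calc C * (1 / s) ^ κ * ∫ t in Ioi (0 : ℝ), G α t * t ^ q ≤ C * (1 / s) ^ κ * M :=
        mul_le_mul_of_nonneg_left hM h8
    _ = _ := by ring

/-- decay of `Phi` -/
theorem Phi_decay34 (hα : 1 < α) {s : ℝ} (hs : 0 < s) :
    |Phi α s| ≤ 0.584 * ((DD α)⁻¹) ^ (3 / 4 : ℝ) * (1 / s) ^ (3 / 4 : ℝ) := by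
  obtain ⟨h1, h2⟩ := int_G_pow hα (p := 3 / 4) (by norm_num) (by norm_num)
  have e : ∀ t : ℝ, 0 < t → (1 / t) ^ (3 / 4 : ℝ) = t ^ (-(3 / 4) : ℝ) := by
    intro t ht
    rw [one_div, inv_rpow ht.le, rpow_neg ht.le]
  have h1' : IntegrableOn (fun t => G α t * t ^ (-(3 / 4) : ℝ)) (Ioi 0) :=
    h1.congr_fun (fun t ht => by simp only; rw [e t ht]) measurableSet_Ioi
  have h2' : ∫ t in Ioi (0 : ℝ), G α t * t ^ (-(3 / 4) : ℝ) ≤ ((DD α)⁻¹) ^ (3 / 4 : ℝ) := by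
    rw [← setIntegral_congr_fun measurableSet_Ioi (fun t ht => by
      rw [e t ht] : ∀ t ∈ Ioi (0 : ℝ), G α t * (1 / t) ^ (3 / 4 : ℝ) =
        G α t * t ^ (-(3 / 4) : ℝ))]
    exact h2
  have h := PhiN_decay hα 0 (C := 0.584) (q := -(3 / 4)) (by norm_num) (fun v hv => by
    have := K1_decay hv
    norm_num at this ⊢
    exact this) (fun t ht => by
    rw [pow_zero, one_mul]
    have : (((0 + 1 : ℕ) : ℝ) / 2 + 1 / 4) = 3 / 4 := by norm_num
    rw [this, e t ht]) h1' h2' hs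
  rw [PhiN_zero] at h
  have e2 : (((0 + 1 : ℕ) : ℝ) / 2 + 1 / 4) = 3 / 4 := by norm_num
  rwa [e2] at h

/-- decay of `Phi1` -/
theorem Phi1_decay54 (hα : 1 < α) {s : ℝ} (hs : 0 < s) :
    |Phi1 α s| ≤ 0.615 * ((DD α)⁻¹) ^ (1 / 4 : ℝ) * (1 / s) ^ (5 / 4 : ℝ) := by
  obtain ⟨h1, h2⟩ := int_G_pow hα (p := 1 / 4) (by norm_num) (by norm_num)
  have e : ∀ t : ℝ, 0 < t → (1 / t) ^ (1 / 4 : ℝ) = t ^ (-(1 / 4) : ℝ) := by
    intro t ht
    rw [one_div, inv_rpow ht.le, rpow_neg ht.le]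
  have h1' : IntegrableOn (fun t => G α t * t ^ (-(1 / 4) : ℝ)) (Ioi 0) :=
    h1.congr_fun (fun t ht => by simp only; rw [e t ht]) measurableSet_Ioi
  have h2' : ∫ t in Ioi (0 : ℝ), G α t * t ^ (-(1 / 4) : ℝ) ≤ ((DD α)⁻¹) ^ (1 / 4 : ℝ) := by
    rw [← setIntegral_congr_fun measurableSet_Ioi (fun t ht => by
      rw [e t ht] : ∀ t ∈ Ioi (0 : ℝ), G α t * (1 / t) ^ (1 / 4 : ℝ) =
        G α t * t ^ (-(1 / 4) : ℝ))]
    exact h2
  have e2 : (((1 + 1 : ℕ) : ℝ) / 2 + 1 / 4) = 5 / 4 := by norm_num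
  have h := PhiN_decay hα 1 (C := 0.615) (q := -(1 / 4)) (by norm_num) (fun v hv => by
    have := K2_decay hv
    norm_num at this ⊢
    exact this) (fun t ht => by
    rw [e2, one_div, inv_rpow ht.le, ← rpow_neg ht.le, pow_one]
    nth_rewrite 1 [← rpow_one t]
    rw [← rpow_add ht]
    norm_num) h1' h2' hs
  rw [PhiN_one] at h
  rwa [e2] at h

/-- decay of `Phi2` -/
theorem Phi2_decay74 (hα : 1 < α) {s : ℝ} (hs : 0 < s) :
    |Phi2 α s| ≤ 0.639 * 2 ^ (1 / 4 : ℝ) * (1 / s) ^ (7 / 4 : ℝ) := by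
  obtain ⟨h1, h2⟩ := int_G_pow' hα
  have e2 : (((2 + 1 : ℕ) : ℝ) / 2 + 1 / 4) = 7 / 4 := by norm_num
  have h := PhiN_decay hα 2 (C := 0.639) (q := 1 / 4) (by norm_num) (fun v hv => by
    have := K3_decay hv
    norm_num at this ⊢
    exact this) (fun t ht => by
    rw [e2, one_div, inv_rpow ht.le, ← rpow_neg ht.le, ← rpow_natCast, ← rpow_add ht]
    norm_num) h1 h2 hs
  rw [PhiN_two] at h
  rwa [e2] at h

end LpSec
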