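import Mathlib
import Pool.Agent.Lib.MP_1dbab3_gt.W.M7

/-!
# Soundness of the box checker, part 1: the table of exponentials and the tail
-/

open Real MeasureTheory Set Filter Topology

namespace LpSec.ML

variable {α : ℝ}

theorem ble_iff {a b : ℕ} : Nat.ble a b = true ↔ a ≤ b := by rw [Nat.ble_eq]

theorem ble_false {a b : ℕ} : Nat.ble a b = false ↔ b < a := by
  rw [← Bool.not_eq_true, ble_iff, not_le]

theorem mn_eq (a b : ℕ) : mn a b = min a b := by
  unfold mn
  cases h : Nat.ble a b with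
  | true => rw [min_eq_left (ble_iff.1 h)]; rfl
  | false => rw [min_eq_right (ble_false.1 h).le]; rfl

theorem mx_eq (a b : ℕ) : mx a b = max a b := by
  unfold mx
  cases h : Nat.ble a b with
  | true => rw [max_eq_right (ble_iff.1 h)]; rfl
  | false => rw [max_eq_left (ble_false.1 h).le]; rfl

/-! ## the table -/

def chkE : ℕ → Bool := fun n => Nat.rec true (fun i ih => cond ih
  (Nat.ble (Nat.mul (En etab i) 992217938262) (Nat.mul (En etab (Nat.succ i)) 1000000000000))
  false) n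

theorem chkE_ok : chkE 1023 = true := by decide +kernel

theorem En_zero : En etab 0 = 1000000000 := by decide +kernel

theorem chkE_sound : ∀ n, chkE n = true → ∀ i < n,
    En etab i * 992217938262 ≤ En etab (i + 1) * 1000000000000 := by
  intro n
  induction n with
  | zero => intro _ i hi; omega
  | succ n ih =>
    intro h i hi
    have e : chkE (n + 1) = cond (chkE n) (Nat.ble (Nat.mul (En etab n) 992217938262)
      (Nat.mul (En etab (Nat.succ n)) 1000000000000)) false := rfl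
    rw [e] at h
    cases h1 : chkE n with
    | false => rw [h1] at h; simp at h
    | true =>
      rw [h1, cond_true] at h
      rcases Nat.lt_succ_iff_lt_or_eq.1 hi with h2 | rfl
      · exact ih h1 i h2
      · exact ble_iff.1 h

theorem exp_base : exp (-(1 / 128 : ℝ)) ≤ 992217938262 / 1000000000000 := by
  have h := Real.exp_bound (x := -(1 / 128 : ℝ)) (by rw [abs_neg, abs_of_pos] <;> norm_num)
    (n := 6) (by norm_num)
  rw [abs_le] at h
  have h2 := h.2
  norm_num [Finset.sum_range_succ, Nat.factorial, abs_of_pos] at h2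
  norm_num at h2 ⊢
  linarith

theorem En_sound0 : ∀ i : ℕ, i ≤ 1023 → exp (-((i : ℝ) / 128)) ≤ (En etab i : ℝ) / 10 ^ 9 := by
  intro i
  induction i with
  | zero => intro _; rw [En_zero]; norm_num
  | succ i ih =>
    intro hi
    have h1 := ih (by omega)
    have h2 := chkE_sound 1023 chkE_ok i (by omega)
    have h2' : (En etab i : ℝ) * 992217938262 ≤ (En etab (i + 1) : ℝ) * 1000000000000 := by
      exact_mod_cast h2
    have e : exp (-(((i + 1 : ℕ) : ℝ) / 128)) = exp (-((i : ℝ) / 128)) * exp (-(1 / 128)) := by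
      rw [← exp_add]; congr 1; push_cast; ring
    rw [e]
    calc _ ≤ (En etab i : ℝ) / 10 ^ 9 * (992217938262 / 1000000000000) :=
          mul_le_mul h1 exp_base (exp_pos _).le (by positivity)
      _ ≤ _ := by
        rw [div_mul_div_comm, div_le_div_iff₀ (by positivity) (by positivity)]
        nlinarith

/-- the table is sound for every index -/
theorem En_sound {i : ℕ} {x : ℝ} (h : (i : ℝ) ≤ 128 * x) :
    exp (-x) ≤ (En etab i : ℝ) / 10 ^ 9 := by
  have e : En etab i = En etab (min i 1023) := by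
    unfold En
    rw [mn_eq, mn_eq, min_assoc, min_self]
  rw [e]
  refine le_trans (exp_le_exp.2 (neg_le_neg ?_)) (En_sound0 (min i 1023) (min_le_right _ _))
  have : ((min i 1023 : ℕ) : ℝ) ≤ i := by exact_mod_cast min_le_left _ _
  linarith

theorem natdiv_le (a b : ℕ) : ((a / b : ℕ) : ℝ) ≤ (a : ℝ) / b := Nat.cast_div_le

/-- the weight -/
theorem Rn_sound {cc m cap r num den : ℕ} (hden : 0 < den) {c θ w r' : ℝ}
    (hc : (cc : ℝ) / 10 ^ 8 ≤ c) (hw : w = (cap : ℝ) / 4096) (hr : r' = (r : ℝ) / 4096)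
    (hθ : (num : ℝ) / den * 4096 ≤ θ) :
    exp (-(c * ex m w r' θ)) ≤ (Rn etab cc m cap r num den : ℝ) / 10 ^ 9 := by
  unfold Rn
  refine En_sound ?_
  rw [mn_eq, mn_eq]
  have hd : (0 : ℝ) < den := by exact_mod_cast hden
  refine (natdiv_le _ _).trans ?_
  have h1 : ∀ q : ℕ, ((min (Nat.mul num q) den : ℕ) : ℝ) / den ≤ min (θ * ((q : ℝ) / 4096)) 1 := by
    intro q
    refine le_min ?_ ?_
    · have h2 : ((min (Nat.mul num q) den : ℕ) : ℝ) ≤ num * q := by
        have : min (Nat.mul num q) den ≤ num * q := min_le_left _ _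
        exact_mod_cast this
      calc ((min (Nat.mul num q) den : ℕ) : ℝ) / den ≤ (num * q : ℝ) / den :=
            div_le_div_of_nonneg_right h2 hd.le
        _ = (num : ℝ) / den * 4096 * (q / 4096) := by ring
        _ ≤ _ := mul_le_mul_of_nonneg_right hθ (by positivity)
    · rw [div_le_one hd]
      exact_mod_cast min_le_right _ _
  have h2 := h1 cap
  have h3 := h1 r
  set A := ((min (Nat.mul num cap) den : ℕ) : ℝ) with hA
  set B := ((min (Nat.mul num r) den : ℕ) : ℝ) with hB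
  have e : ((Nat.mul (Nat.mul 128 cc) (Nat.add (Nat.mul m (min (Nat.mul num cap) den))
      (min (Nat.mul num r) den)) : ℕ) : ℝ) / ((Nat.mul 100000000 den : ℕ) : ℝ) =
      128 * ((cc : ℝ) / 10 ^ 8 * (m * (A / den) + B / den)) := by
    have e1 : (Nat.mul (Nat.mul 128 cc) (Nat.add (Nat.mul m (min (Nat.mul num cap) den))
      (min (Nat.mul num r) den)) : ℕ) = 128 * cc * (m * (min (Nat.mul num cap) den) +
        (min (Nat.mul num r) den)) := rfl
    have e2 : (Nat.mul 100000000 den : ℕ) = 100000000 * den := rfl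
    rw [e1, e2]
    push_cast
    rw [hA, hB]
    push_cast
    field_simp
    norm_num
  rw [e]
  have h4 : (m : ℝ) * (A / den) + B / den ≤ ex m w r' θ := by
    unfold ex
    rw [hw, hr]
    exact add_le_add (mul_le_mul_of_nonneg_left h2 (by positivity)) h3
  have h5 : 0 ≤ (m : ℝ) * (A / den) + B / den := by positivity
  have h6 : 0 ≤ (cc : ℝ) / 10 ^ 8 := by positivity
  have := mul_le_mul hc h4 h5 (h6.trans hc)
  linarith

/-! ## the steps -/

/-- the hypotheses on the weight of the rest -/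
structure WOk (α : ℝ) (W : ℝ → ℝ) (cc m cap r : ℕ) : Prop where
  anti : Antitone W
  nonneg : ∀ s, 0 ≤ W s
  meas : Measurable W
  bd : ∀ θ s : ℝ, 0 ≤ θ → θ * z1 α ≤ s → ∀ num den : ℕ, 0 < den →
    (num : ℝ) / den * 4096 ≤ θ → W s ≤ (Rn etab cc m cap r num den : ℝ) / 10 ^ 9

/-- part of scale `v`, the steps with general bounds `ρ q` of the weight at `q / 4 * z1 / v` -/
theorem steps_sound (hα : 1 < α) {W : ℝ → ℝ} (hW : Antitone W) (hW0 : ∀ s, 0 ≤ W s)
    (hWm : Measurable W) {v : ℝ} (hv : 0 < v) (hz : 0 < z1 α) (ρ : ℕ → ℕ)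
    (hρ : ∀ q : ℕ, W ((q : ℝ) / 4 * z1 α / v) ≤ (ρ q : ℝ) / 10 ^ 9)
    (f : List (ℕ × ℕ × ℕ) → ℕ → ℕ)
    (hf0 : ∀ R, f [] R = 0)
    (hf1 : ∀ p t R, f (p :: t) R = (R - min R (ρ p.1)) * p.2.2 + f t (min R (ρ p.1))) :
    ∀ (T : List (ℕ × ℕ × ℕ)) (a : ℝ) (R : ℕ), 0 ≤ a → W a ≤ (R : ℝ) / 10 ^ 9 →
      (∀ p ∈ T, a ≤ (p.1 : ℝ) / 4 * z1 α / v) → (T.map (·.1)).Pairwise (· < ·) →
      (∀ p ∈ T, (p.2.2 : ℝ) / 10 ^ 8 ≤ T2 α ((p.1 : ℝ) / 4 * z1 α)) →
      ∫ s in Ioi a, Phi α (v * s) ^ 2 * W s ≤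
        ((R : ℝ) / 10 ^ 9 * T2 α (v * a) - (f T R : ℝ) / 10 ^ 17) / v := by
  intro T
  induction T with
  | nil =>
    intro a R ha hR _ _ _
    rw [hf0]
    have := step_last hα hv ha hW hW0 hWm hR
    simpa using this
  | cons p t ih =>
    intro a R ha hR hpos hord hlow
    set b := (p.1 : ℝ) / 4 * z1 α / v with hb
    have hab : a ≤ b := hpos p (by simp)
    have hb0 : 0 ≤ b := ha.trans hab
    set R' := min R (ρ p.1) with hR'
    have hW1 : W b ≤ (R' : ℝ) / 10 ^ 9 := by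
      rw [hR', Nat.cast_min, ← min_div_div_right (by positivity)]
      exact le_min ((hW hab).trans hR) (hρ p.1)
    have hord' : (t.map (·.1)).Pairwise (· < ·) := by
      rw [List.map_cons, List.pairwise_cons] at hord
      exact hord.2
    have hlt : ∀ q ∈ t, p.1 < q.1 := by
      rw [List.map_cons, List.pairwise_cons] at hord
      intro q hq
      exact hord.1 q.1 (List.mem_map_of_mem hq)
    have h1 := ih b R' hb0 hW1 (fun q hq => by
      have : (p.1 : ℝ) ≤ q.1 := by exact_mod_cast (hlt q hq).le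
      rw [hb]
      gcongr) hord' (fun q hq => hlow q (by simp [hq]))
    have hvb : v * b = (p.1 : ℝ) / 4 * z1 α := by rw [hb]; field_simp
    have h2 := step_cons hα hv ha hab hW hW0 hWm hR h1
    refine h2.trans (div_le_div_of_nonneg_right ?_ hv.le)
    have h3 := hlow p (by simp)
    rw [← hvb] at h3
    have hRR : (R' : ℝ) ≤ R := by exact_mod_cast min_le_left _ _
    have hsub : ((R - R' : ℕ) : ℝ) = R - R' := by
      rw [Nat.cast_sub (min_le_left _ _)]
    have h4 : ((f (p :: t) R : ℕ) : ℝ) = ((R : ℝ) - R') * p.2.2 + f t R' := by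
      rw [hf1, ← hR']
      push_cast
      rw [hsub]
    rw [h4]
    have h5 : ((R : ℝ) - R') * ((p.2.2 : ℝ) / 10 ^ 8) ≤ ((R : ℝ) - R') * T2 α (v * b) :=
      mul_le_mul_of_nonneg_left h3 (by linarith)
    have e : ((R : ℝ) / 10 ^ 9 * T2 α (v * a) - (((R : ℝ) - R') * p.2.2 + f t R') / 10 ^ 17) -
        (R / 10 ^ 9 * (T2 α (v * a) - T2 α (v * b)) + (R' / 10 ^ 9 * T2 α (v * b) -
          f t R' / 10 ^ 17)) = (((R : ℝ) - R') * T2 α (v * b) -
          ((R : ℝ) - R') * ((p.2.2 : ℝ) / 10 ^ 8)) / 10 ^ 9 := by ring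
    have h6 : 0 ≤ (((R : ℝ) - R') * T2 α (v * b) -
          ((R : ℝ) - R') * ((p.2.2 : ℝ) / 10 ^ 8)) / 10 ^ 9 := by
      apply div_nonneg _ (by positivity)
      linarith
    linarith

/-- the same with a stop: beyond `c` the weight vanishes -/
theorem stepsS_sound (hα : 1 < α) {W : ℝ → ℝ} (hW : Antitone W) (hW0 : ∀ s, 0 ≤ W s)
    (hWm : Measurable W) {v : ℝ} (hv : 0 < v) (hz : 0 < z1 α) (ρ : ℕ → ℕ) (st : ℕ → Bool)
    (hρ : ∀ q : ℕ, W ((q : ℝ) / 4 * z1 α / v) ≤ (ρ q : ℝ) / 10 ^ 9)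
    (hst : ∀ q, st q = true → ∀ s, (q : ℝ) / 4 * z1 α / v < s → W s = 0)
    (f : List (ℕ × ℕ × ℕ) → ℕ → ℕ)
    (hf0 : ∀ R, f [] R = 0)
    (hf1 : ∀ p t R, f (p :: t) R = cond (st p.1) (R * p.2.2)
      ((R - min R (ρ p.1)) * p.2.2 + f t (min R (ρ p.1)))) :
    ∀ (T : List (ℕ × ℕ × ℕ)) (a : ℝ) (R : ℕ), 0 ≤ a → W a ≤ (R : ℝ) / 10 ^ 9 →
      (∀ p ∈ T, a ≤ (p.1 : ℝ) / 4 * z1 α / v) → (T.map (·.1)).Pairwise (· < ·) →
      (∀ p ∈ T, (p.2.2 : ℝ) / 10 ^ 8 ≤ T2 α ((p.1 : ℝ) / 4 * z1 α)) →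
      ∫ s in Ioi a, Phi α (v * s) ^ 2 * W s ≤
        ((R : ℝ) / 10 ^ 9 * T2 α (v * a) - (f T R : ℝ) / 10 ^ 17) / v := by
  intro T
  induction T with
  | nil =>
    intro a R ha hR _ _ _
    rw [hf0]
    have := step_last hα hv ha hW hW0 hWm hR
    simpa using this
  | cons p t ih =>
    intro a R ha hR hpos hord hlow
    set b := (p.1 : ℝ) / 4 * z1 α / v with hb
    have hab : a ≤ b := hpos p (by simp)
    have hb0 : 0 ≤ b := ha.trans hab
    have hvb : v * b = (p.1 : ℝ) / 4 * z1 α := by rw [hb]; field_simp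
    have h3 := hlow p (by simp)
    rw [← hvb] at h3
    cases hs : st p.1 with
    | true =>
      have hz0 : ∫ s in Ioi b, Phi α (v * s) ^ 2 * W s ≤ 0 / v := by
        rw [zero_div]
        refine le_of_eq (setIntegral_eq_zero_of_forall_eq_zero fun s hs' => ?_)
        rw [hst p.1 hs s hs', mul_zero]
      have h2 := step_cons hα hv ha hab hW hW0 hWm hR hz0
      refine h2.trans (div_le_div_of_nonneg_right ?_ hv.le)
      have h4 : ((f (p :: t) R : ℕ) : ℝ) = (R : ℝ) * p.2.2 := by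
        rw [hf1, hs, cond_true]
        push_cast
        ring
      rw [h4]
      have h5 : (R : ℝ) * ((p.2.2 : ℝ) / 10 ^ 8) ≤ (R : ℝ) * T2 α (v * b) :=
        mul_le_mul_of_nonneg_left h3 (by positivity)
      have e : ((R : ℝ) / 10 ^ 9 * T2 α (v * a) - (R : ℝ) * p.2.2 / 10 ^ 17) -
        (R / 10 ^ 9 * (T2 α (v * a) - T2 α (v * b)) + 0) = ((R : ℝ) * T2 α (v * b) -
          (R : ℝ) * ((p.2.2 : ℝ) / 10 ^ 8)) / 10 ^ 9 := by ring
      have h6 : 0 ≤ ((R : ℝ) * T2 α (v * b) - (R : ℝ) * ((p.2.2 : ℝ) / 10 ^ 8)) / 10 ^ 9 := by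
        apply div_nonneg _ (by positivity)
        linarith
      linarith
    | false =>
      set R' := min R (ρ p.1) with hR'
      have hW1 : W b ≤ (R' : ℝ) / 10 ^ 9 := by
        rw [hR', Nat.cast_min, ← min_div_div_right (by positivity)]
        exact le_min ((hW hab).trans hR) (hρ p.1)
      have hord' : (t.map (·.1)).Pairwise (· < ·) := by
        rw [List.map_cons, List.pairwise_cons] at hord
        exact hord.2
      have hlt : ∀ q ∈ t, p.1 < q.1 := by
        rw [List.map_cons, List.pairwise_cons] at hord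
        intro q hq
        exact hord.1 q.1 (List.mem_map_of_mem hq)
      have h1 := ih b R' hb0 hW1 (fun q hq => by
        have : (p.1 : ℝ) ≤ q.1 := by exact_mod_cast (hlt q hq).le
        rw [hb]
        gcongr) hord' (fun q hq => hlow q (by simp [hq]))
      have h2 := step_cons hα hv ha hab hW hW0 hWm hR h1
      refine h2.trans (div_le_div_of_nonneg_right ?_ hv.le)
      have hRR : (R' : ℝ) ≤ R := by exact_mod_cast min_le_left _ _
      have hsub : ((R - R' : ℕ) : ℝ) = R - R' := by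
        rw [Nat.cast_sub (min_le_left _ _)]
      have h4 : ((f (p :: t) R : ℕ) : ℝ) = ((R : ℝ) - R') * p.2.2 + f t R' := by
        rw [hf1, hs, cond_false, ← hR']
        push_cast
        rw [hsub]
      rw [h4]
      have h5 : ((R : ℝ) - R') * ((p.2.2 : ℝ) / 10 ^ 8) ≤ ((R : ℝ) - R') * T2 α (v * b) :=
        mul_le_mul_of_nonneg_left h3 (by linarith)
      have e : ((R : ℝ) / 10 ^ 9 * T2 α (v * a) - (((R : ℝ) - R') * p.2.2 + f t R') / 10 ^ 17) -
          (R / 10 ^ 9 * (T2 α (v * a) - T2 α (v * b)) + (R' / 10 ^ 9 * T2 α (v * b) -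
            f t R' / 10 ^ 17)) = (((R : ℝ) - R') * T2 α (v * b) -
            ((R : ℝ) - R') * ((p.2.2 : ℝ) / 10 ^ 8)) / 10 ^ 9 := by ring
      have h6 : 0 ≤ (((R : ℝ) - R') * T2 α (v * b) -
            ((R : ℝ) - R') * ((p.2.2 : ℝ) / 10 ^ 8)) / 10 ^ 9 := by
        apply div_nonneg _ (by positivity)
        linarith
      linarith

end LpSec.ML
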