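import Mathlib
import Pool.Agent.Lib.MP_1dbab3_gt.W.M8

/-!
# Soundness of the box checker, part 2: both parts of the tail, and the final comparison
-/

open Real MeasureTheory Set Filter Topology

namespace LpSec.ML

variable {α : ℝ}

theorem sub_le_cast (a b : ℕ) : (a : ℝ) - b ≤ ((a - b : ℕ) : ℝ) := by
  rcases le_total b a with h | h
  · rw [Nat.cast_sub h]
  · rw [Nat.sub_eq_zero_of_le h]
    have : (a : ℝ) ≤ b := by exact_mod_cast h
    push_cast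
    linarith

theorem shift_le (hα : 1 < α) {W : ℝ → ℝ} (hW : Antitone W) (hW0 : ∀ s, 0 ≤ W s)
    (hWm : Measurable W) {v a b : ℝ} (hv : 0 < v) (ha : 0 ≤ a) (hab : a ≤ b) :
    ∫ s in Ioi b, Phi α (v * s) ^ 2 * W s ≤ ∫ s in Ioi a, Phi α (v * s) ^ 2 * W (max s b) := by
  have hW' : Antitone (fun s => W (max s b)) := fun s t hst => hW (max_le_max_right b hst)
  have hc' : Measurable (fun s => W (max s b)) := hWm.comp (measurable_id.max measurable_const)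
  have hint := (step_two (w := v) hα hv ha le_rfl (hW'.antitoneOn _) (fun s => hW0 _) hc').1
  have h1 : ∫ s in Ioi b, Phi α (v * s) ^ 2 * W s =
      ∫ s in Ioi b, Phi α (v * s) ^ 2 * W (max s b) := by
    refine setIntegral_congr_fun measurableSet_Ioi fun s hs => ?_
    rw [max_eq_left (le_of_lt hs)]
  rw [h1]
  refine setIntegral_mono_set hint ?_ (Ioi_subset_Ioi hab).eventuallyLE
  exact Filter.Eventually.of_forall fun s => mul_nonneg (sq_nonneg _) (hW0 _)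

/-- the part of scale `v` started at the right step -/
theorem NB_gen (hα : 1 < α) {W : ℝ → ℝ} (hW : Antitone W) (hW0 : ∀ s, 0 ≤ W s)
    (hWm : Measurable W) {v b : ℝ} (hv : 0 < v) (hz : 0 < z1 α) (ρ : ℕ → ℕ) (st : ℕ → Bool)
    (hρ : ∀ q : ℕ, W (max ((q : ℝ) / 4 * z1 α / v) b) ≤ (ρ q : ℝ) / 10 ^ 9)
    (hst : ∀ q, st q = true → ∀ s, (q : ℝ) / 4 * z1 α / v < s → W (max s b) = 0)
    (f : List (ℕ × ℕ × ℕ) → ℕ → ℕ)
    (hf0 : ∀ R, f [] R = 0)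
    (hf1 : ∀ p t R, f (p :: t) R = cond (st p.1) (R * p.2.2)
      ((R - min R (ρ p.1)) * p.2.2 + f t (min R (ρ p.1))))
    (cd : ℕ → Bool) (hcd : ∀ q, cd q = true → (q : ℝ) / 4 * z1 α / v ≤ b)
    (G : List (ℕ × ℕ × ℕ) → ℕ → ℕ → ℕ)
    (hG0 : ∀ q H, G [] q H = ρ q * H)
    (hG1 : ∀ p t q H, G (p :: t) q H = cond (cd p.1) (G t p.1 p.2.1)
      (ρ q * H - f (p :: t) (ρ q))) :
    ∀ (T : List (ℕ × ℕ × ℕ)) (q H : ℕ), (q : ℝ) / 4 * z1 α / v ≤ b →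
      T2 α ((q : ℝ) / 4 * z1 α) ≤ (H : ℝ) / 10 ^ 8 →
      (∀ p ∈ T, q < p.1) → (T.map (·.1)).Pairwise (· < ·) →
      (∀ p ∈ T, T2 α ((p.1 : ℝ) / 4 * z1 α) ≤ (p.2.1 : ℝ) / 10 ^ 8) →
      (∀ p ∈ T, (p.2.2 : ℝ) / 10 ^ 8 ≤ T2 α ((p.1 : ℝ) / 4 * z1 α)) →
      ∫ s in Ioi b, Phi α (v * s) ^ 2 * W s ≤ (G T q H : ℝ) / 10 ^ 17 / v := by
  have hW' : Antitone (fun s => W (max s b)) := fun s t hst => hW (max_le_max_right b hst)
  have hc' : Measurable (fun s => W (max s b)) := hWm.comp (measurable_id.max measurable_const)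
  have key : ∀ (T : List (ℕ × ℕ × ℕ)) (q H : ℕ), (q : ℝ) / 4 * z1 α / v ≤ b →
      T2 α ((q : ℝ) / 4 * z1 α) ≤ (H : ℝ) / 10 ^ 8 →
      (∀ p ∈ T, q < p.1) → (T.map (·.1)).Pairwise (· < ·) →
      (∀ p ∈ T, (p.2.2 : ℝ) / 10 ^ 8 ≤ T2 α ((p.1 : ℝ) / 4 * z1 α)) →
      ∫ s in Ioi b, Phi α (v * s) ^ 2 * W s ≤
        ((ρ q * H - f T (ρ q) : ℕ) : ℝ) / 10 ^ 17 / v := by
    intro T q H hq hH hlt hord hlow
    set a := (q : ℝ) / 4 * z1 α / v with ha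
    have ha0 : 0 ≤ a := by positivity
    have h1 := shift_le hα hW hW0 hWm hv ha0 hq
    have h2 := stepsS_sound hα hW' (fun s => hW0 _) hc' hv hz ρ st hρ hst f hf0 hf1 T a (ρ q)
      ha0 (hρ q) (fun p hp => by
        have : (q : ℝ) ≤ p.1 := by exact_mod_cast (hlt p hp).le
        rw [ha]
        gcongr) hord hlow
    refine h1.trans (h2.trans (div_le_div_of_nonneg_right ?_ hv.le))
    have hva : v * a = (q : ℝ) / 4 * z1 α := by rw [ha]; field_simp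
    rw [hva]
    have h3 := mul_le_mul_of_nonneg_left hH (show (0 : ℝ) ≤ (ρ q : ℝ) / 10 ^ 9 by positivity)
    have h4 := sub_le_cast (ρ q * H) (f T (ρ q))
    push_cast at h4
    have h5 : ((ρ q : ℝ) * H - f T (ρ q)) / 10 ^ 17 ≤
        ((ρ q * H - f T (ρ q) : ℕ) : ℝ) / 10 ^ 17 :=
      div_le_div_of_nonneg_right (by push_cast; exact h4) (by positivity)
    have e : (ρ q : ℝ) / 10 ^ 9 * ((H : ℝ) / 10 ^ 8) - (f T (ρ q) : ℝ) / 10 ^ 17 =
      ((ρ q : ℝ) * H - f T (ρ q)) / 10 ^ 17 := by ring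
    linarith
  intro T
  induction T with
  | nil =>
    intro q H hq hH h1 h2 _ h4
    have := key [] q H hq hH h1 h2 h4
    rw [hf0, Nat.sub_zero] at this
    rw [hG0]
    exact this
  | cons p t ih =>
    intro q H hq hH hlt hord hupp hlow
    rw [hG1]
    cases hc : cd p.1 with
    | false => exact key (p :: t) q H hq hH hlt hord hlow
    | true =>
      rw [List.map_cons, List.pairwise_cons] at hord
      exact ih p.1 p.2.1 (hcd p.1 hc) (hupp p (by simp))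
        (fun r hr => hord.1 r.1 (List.mem_map_of_mem hr)) hord.2
        (fun r hr => hupp r (by simp [hr])) (fun r hr => hlow r (by simp [hr]))

theorem sz_cons (tab cc m cap r z1 : ℕ) (p : ℕ × ℕ × ℕ) (t : List (ℕ × ℕ × ℕ)) (R : ℕ) :
    sz tab cc m cap r z1 (p :: t) R =
      (R - min R (Rn tab cc m cap r p.1 (4 * z1))) * p.2.2 +
        sz tab cc m cap r z1 t (min R (Rn tab cc m cap r p.1 (4 * z1))) := by
  show fn (mn R (Rn tab cc m cap r p.1 (Nat.mul 4 z1))) (fun R' =>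
    Nat.add (Nat.mul (Nat.sub R R') p.2.2) (sz tab cc m cap r z1 t R')) = _
  rw [fn_eq, mn_eq]
  rfl

theorem sy_cons (tab cc m cap r y1 z1 : ℕ) (p : ℕ × ℕ × ℕ) (t : List (ℕ × ℕ × ℕ)) (R : ℕ) :
    sy tab cc m cap r y1 z1 (p :: t) R =
      (R - min R (Ry tab cc m cap r y1 z1 p.1)) * p.2.2 +
        sy tab cc m cap r y1 z1 t (min R (Ry tab cc m cap r y1 z1 p.1)) := by
  show fn (mn R (Ry tab cc m cap r y1 z1 p.1)) (fun R' =>
    Nat.add (Nat.mul (Nat.sub R R') p.2.2) (sy tab cc m cap r y1 z1 t R')) = _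
  rw [fn_eq, mn_eq]
  rfl

theorem NB_nil (tab cc m cap r y0 y1 z1 q H : ℕ) :
    NB tab cc m cap r y0 y1 z1 [] q H = Ry tab cc m cap r y1 z1 q * H := by
  show fn (Ry tab cc m cap r y1 z1 q) (fun R => Nat.mul R H) = _
  rw [fn_eq]
  rfl

theorem NB_cons (tab cc m cap r y0 y1 z1 : ℕ) (p : ℕ × ℕ × ℕ) (t : List (ℕ × ℕ × ℕ))
    (q H : ℕ) : NB tab cc m cap r y0 y1 z1 (p :: t) q H =
      cond (Nat.ble (Nat.mul p.1 z1) (Nat.mul 4 y0)) (NB tab cc m cap r y0 y1 z1 t p.1 p.2.1)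
        (Ry tab cc m cap r y1 z1 q * H -
          sy tab cc m cap r y1 z1 (p :: t) (Ry tab cc m cap r y1 z1 q)) := by
  show cond (Nat.ble (Nat.mul p.1 z1) (Nat.mul 4 y0)) (NB tab cc m cap r y0 y1 z1 t p.1 p.2.1)
      (fn (Ry tab cc m cap r y1 z1 q) fun R =>
        Nat.sub (Nat.mul R H) (sy tab cc m cap r y1 z1 (p :: t) R)) = _
  rw [fn_eq]
  rfl

theorem szS_cons (tab cc m cap r z1 w0 : ℕ) (p : ℕ × ℕ × ℕ) (t : List (ℕ × ℕ × ℕ)) (R : ℕ) :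
    szS tab cc m cap r z1 w0 (p :: t) R =
      cond (Nat.ble (Nat.mul 4 z1) (Nat.mul p.1 w0)) (R * p.2.2)
      ((R - min R (Rn tab cc m cap r p.1 (4 * z1))) * p.2.2 +
        szS tab cc m cap r z1 w0 t (min R (Rn tab cc m cap r p.1 (4 * z1)))) := by
  show cond (Nat.ble (Nat.mul 4 z1) (Nat.mul p.1 w0)) (Nat.mul R p.2.2)
    (fn (mn R (Rn tab cc m cap r p.1 (Nat.mul 4 z1))) fun R' =>
      Nat.add (Nat.mul (Nat.sub R R') p.2.2) (szS tab cc m cap r z1 w0 t R')) = _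
  rw [fn_eq, mn_eq]
  rfl

theorem syS_cons (tab cc m cap r y1 z1 w0 : ℕ) (p : ℕ × ℕ × ℕ) (t : List (ℕ × ℕ × ℕ))
    (R : ℕ) : syS tab cc m cap r y1 z1 w0 (p :: t) R =
      cond (Nat.ble (Nat.mul 4 y1) (Nat.mul p.1 w0)) (R * p.2.2)
      ((R - min R (Ry tab cc m cap r y1 z1 p.1)) * p.2.2 +
        syS tab cc m cap r y1 z1 w0 t (min R (Ry tab cc m cap r y1 z1 p.1))) := by
  show cond (Nat.ble (Nat.mul 4 y1) (Nat.mul p.1 w0)) (Nat.mul R p.2.2)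
    (fn (mn R (Ry tab cc m cap r y1 z1 p.1)) fun R' =>
      Nat.add (Nat.mul (Nat.sub R R') p.2.2) (syS tab cc m cap r y1 z1 w0 t R')) = _
  rw [fn_eq, mn_eq]
  rfl

theorem NBS_nil (tab cc m cap r y0 y1 z1 w0 q H : ℕ) :
    NBS tab cc m cap r y0 y1 z1 w0 [] q H = Ry tab cc m cap r y1 z1 q * H := by
  show fn (Ry tab cc m cap r y1 z1 q) (fun R => Nat.mul R H) = _
  rw [fn_eq]
  rfl

theorem NBS_cons (tab cc m cap r y0 y1 z1 w0 : ℕ) (p : ℕ × ℕ × ℕ) (t : List (ℕ × ℕ × ℕ))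
    (q H : ℕ) : NBS tab cc m cap r y0 y1 z1 w0 (p :: t) q H =
      cond (Nat.ble (Nat.mul p.1 z1) (Nat.mul 4 y0)) (NBS tab cc m cap r y0 y1 z1 w0 t p.1 p.2.1)
        (Ry tab cc m cap r y1 z1 q * H -
          syS tab cc m cap r y1 z1 w0 (p :: t) (Ry tab cc m cap r y1 z1 q)) := by
  show cond (Nat.ble (Nat.mul p.1 z1) (Nat.mul 4 y0)) (NBS tab cc m cap r y0 y1 z1 w0 t p.1 p.2.1)
      (fn (Ry tab cc m cap r y1 z1 q) fun R =>
        Nat.sub (Nat.mul R H) (syS tab cc m cap r y1 z1 w0 (p :: t) R)) = _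
  rw [fn_eq]
  rfl

/-- bound of the weight at the steps of scale `z` -/
theorem WOk.rhoz {W : ℝ → ℝ} {cc m cap r : ℕ} (h : WOk α W cc m cap r) (hz1 : 0 < z1 α) {z : ℝ}
    (hz : 0 < z) {zb : ℕ} (hzb : z ≤ (zb : ℝ) / 4096) (q : ℕ) :
    W ((q : ℝ) / 4 * z1 α / z) ≤ (Rn etab cc m cap r q (4 * zb) : ℝ) / 10 ^ 9 := by
  have hzb0 : (0 : ℝ) < zb := by
    have := hz.trans_le hzb
    linarith
  have hzbn : 0 < zb := by exact_mod_cast hzb0
  refine h.bd ((q : ℝ) / 4 / z) _ (by positivity) (le_of_eq (by ring)) q (4 * zb) (by omega) ?_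
  push_cast
  have e : (q : ℝ) / (4 * zb) * 4096 = (q : ℝ) / 4 / ((zb : ℝ) / 4096) := by field_simp
  rw [e]
  gcongr

/-- bound of the weight at the steps of scale `y`, not before `z1 / z` -/
theorem WOk.rhoy {W : ℝ → ℝ} {cc m cap r : ℕ} (h : WOk α W cc m cap r) (hz1 : 0 < z1 α)
    {y z : ℝ} (hy : 0 < y) (hz : 0 < z) {yb zb : ℕ} (hyb : y ≤ (yb : ℝ) / 4096)
    (hzb : z ≤ (zb : ℝ) / 4096) (q : ℕ) :
    W (max ((q : ℝ) / 4 * z1 α / y) (z1 α / z)) ≤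
      (Ry etab cc m cap r yb zb q : ℝ) / 10 ^ 9 := by
  have hzb0 : (0 : ℝ) < zb := by
    have := hz.trans_le hzb
    linarith
  have hzbn : 0 < zb := by exact_mod_cast hzb0
  unfold Ry
  cases hc : Nat.ble (Nat.mul 4 yb) (Nat.mul q zb) with
  | true =>
    exact (h.anti (le_max_left _ _)).trans (h.rhoz hz1 hy hyb q)
  | false =>
    refine (h.anti (le_max_right _ _)).trans ?_
    refine h.bd (1 / z) _ (by positivity) (le_of_eq (by ring)) 1 zb hzbn ?_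
    have e : ((1 : ℕ) : ℝ) / zb * 4096 = 1 / ((zb : ℝ) / 4096) := by field_simp; norm_num
    rw [e]
    gcongr

/-- the numbers `T` of a cell -/
structure TOk (α : ℝ) (T : List (ℕ × ℕ × ℕ)) (H : ℕ) : Prop where
  h : T2 α (z1 α) ≤ (H : ℝ) / 10 ^ 8
  ord : (T.map (·.1)).Pairwise (· < ·)
  four : ∀ p ∈ T, 4 < p.1
  upp : ∀ p ∈ T, T2 α ((p.1 : ℝ) / 4 * z1 α) ≤ (p.2.1 : ℝ) / 10 ^ 8
  low : ∀ p ∈ T, (p.2.2 : ℝ) / 10 ^ 8 ≤ T2 α ((p.1 : ℝ) / 4 * z1 α)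

theorem CellOk.tOk {c : CellD} (h : CellOk α c) : TOk α c.T c.h := ⟨h.h, h.ord, h.four, h.upp,
  h.low⟩

/-- the part of scale `z` -/
theorem NA_sound (hα : 1 < α) {W : ℝ → ℝ} {cc m cap r : ℕ} (h : WOk α W cc m cap r)
    (hz1 : 0 < z1 α) {z : ℝ} (hz : 0 < z) {zb : ℕ} (hzb : z ≤ (zb : ℝ) / 4096)
    {T : List (ℕ × ℕ × ℕ)} {H : ℕ} (hT : TOk α T H) :
    ∫ s in Ioi (z1 α / z), Phi α (z * s) ^ 2 * W s ≤
      (NA etab cc m cap r zb T H : ℝ) / 10 ^ 17 / z := by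
  have e4 : z1 α / z = ((4 : ℕ) : ℝ) / 4 * z1 α / z := by push_cast; ring
  have h1 := steps_sound hα h.anti h.nonneg h.meas hz hz1
    (fun q => Rn etab cc m cap r q (4 * zb)) (h.rhoz hz1 hz hzb)
    (fun T R => sz etab cc m cap r zb T R) (fun R => rfl)
    (fun p t R => sz_cons etab cc m cap r zb p t R) T (z1 α / z) (Rn etab cc m cap r 4 (4 * zb))
    (by positivity) (by rw [e4]; exact h.rhoz hz1 hz hzb 4) (fun p hp => by
      have : (4 : ℝ) ≤ p.1 := by exact_mod_cast (hT.four p hp).le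
      rw [e4]
      push_cast
      gcongr) hT.ord hT.low
  refine h1.trans (div_le_div_of_nonneg_right ?_ hz.le)
  have e : NA etab cc m cap r zb T H = Rn etab cc m cap r 4 (4 * zb) * H -
      sz etab cc m cap r zb T (Rn etab cc m cap r 4 (4 * zb)) := by
    unfold NA
    rw [fn_eq]
    rfl
  rw [e]
  set R := Rn etab cc m cap r 4 (4 * zb)
  have hva : z * (z1 α / z) = z1 α := by field_simp
  rw [hva]
  have h3 := mul_le_mul_of_nonneg_left hT.h (show (0 : ℝ) ≤ (R : ℝ) / 10 ^ 9 by positivity)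
  have h4 := sub_le_cast (R * H) (sz etab cc m cap r zb T R)
  have h5 : ((R : ℝ) * H - sz etab cc m cap r zb T R) / 10 ^ 17 ≤
      ((R * H - sz etab cc m cap r zb T R : ℕ) : ℝ) / 10 ^ 17 :=
    div_le_div_of_nonneg_right (by push_cast at h4 ⊢; exact h4) (by positivity)
  have e : (R : ℝ) / 10 ^ 9 * ((H : ℝ) / 10 ^ 8) - (sz etab cc m cap r zb T R : ℝ) / 10 ^ 17 =
    ((R : ℝ) * H - sz etab cc m cap r zb T R) / 10 ^ 17 := by ring
  linarith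

/-- the part of scale `y` -/
theorem NB_sound (hα : 1 < α) {W : ℝ → ℝ} {cc m cap r : ℕ} (h : WOk α W cc m cap r)
    (hz1 : 0 < z1 α) {y z : ℝ} (hy : 0 < y) (hz : 0 < z) (hzy : z ≤ y) {ya yb zb : ℕ}
    (hya : (ya : ℝ) / 4096 ≤ y) (hyb : y ≤ (yb : ℝ) / 4096) (hzb : z ≤ (zb : ℝ) / 4096)
    {T : List (ℕ × ℕ × ℕ)} {H : ℕ} (hT : TOk α T H) :
    ∫ s in Ioi (z1 α / z), Phi α (y * s) ^ 2 * W s ≤
      (NB etab cc m cap r ya yb zb T 4 H : ℝ) / 10 ^ 17 / y := by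
  refine NB_gen hα h.anti h.nonneg h.meas hy hz1 (fun q => Ry etab cc m cap r yb zb q)
    (fun _ => false) (h.rhoy hz1 hy hz hyb hzb) (fun q hq => by simp at hq)
    (fun T R => sy etab cc m cap r yb zb T R) (fun R => rfl)
    (fun p t R => sy_cons etab cc m cap r yb zb p t R)
    (fun q => Nat.ble (Nat.mul q zb) (Nat.mul 4 ya)) (fun q hq => ?_)
    (fun T q H => NB etab cc m cap r ya yb zb T q H) (fun q H => NB_nil _ _ _ _ _ _ _ _ _ _)
    (fun p t q H => NB_cons _ _ _ _ _ _ _ _ _ _ _ _) T 4 H ?_ ?_ hT.four hT.ord hT.upp hT.low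
  · have hq' : q * zb ≤ 4 * ya := ble_iff.1 hq
    have hq'' : (q : ℝ) * zb ≤ 4 * ya := by exact_mod_cast hq'
    rw [div_le_div_iff₀ hy hz]
    have h1 : (q : ℝ) * z ≤ 4 * y := by
      calc (q : ℝ) * z ≤ q * ((zb : ℝ) / 4096) := by gcongr
        _ = (q : ℝ) * zb / 4096 := by ring
        _ ≤ 4 * ya / 4096 := by gcongr
        _ = 4 * ((ya : ℝ) / 4096) := by ring
        _ ≤ 4 * y := by gcongr
    nlinarith
  · push_cast
    rw [div_self (by norm_num), one_mul]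
    gcongr
  · push_cast
    rw [div_self (by norm_num), one_mul]
    exact hT.h

/-! ## the final comparison -/

theorem two_sqrt_lt {g P E : ℝ} (hg : 0 ≤ g) (hP : 0 ≤ P) (hE : 0 ≤ E) (h1 : P + E < g ^ 2)
    (h2 : 4 * (P * E) < (g ^ 2 - (P + E)) ^ 2) : √P + √E < g := by
  have h3 : (√P + √E) ^ 2 < g ^ 2 := by
    have e : (√P + √E) ^ 2 = P + E + 2 * (√P * √E) := by
      have := Real.sq_sqrt hP
      have := Real.sq_sqrt hE
      nlinarith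
    have h4 : (2 * (√P * √E)) ^ 2 < (g ^ 2 - (P + E)) ^ 2 := by
      have e2 : (2 * (√P * √E)) ^ 2 = 4 * (P * E) := by
        rw [mul_pow, mul_pow, Real.sq_sqrt hP, Real.sq_sqrt hE]; ring
      rw [e2]; exact h2
    have h5 : 2 * (√P * √E) < g ^ 2 - (P + E) :=
      lt_of_pow_lt_pow_left₀ 2 (by linarith) h4
    rw [e]; linarith
  exact lt_of_pow_lt_pow_left₀ 2 hg h3

end LpSec.ML
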