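import Mathlib
import Pool.Agent.Lib.MP_1dbab3_gt.W.M9

/-!
# Soundness of the box checker, part 3: the tail functions
-/

open Real MeasureTheory Set Filter Topology

namespace LpSec.ML

variable {α : ℝ}

/-- the final comparison, real form of the numbers -/
theorem fin_aux {g P E y z : ℝ} (hg : 0 ≤ g) (hP : 0 ≤ P) (hE : 0 ≤ E) (h1 : P + E < g ^ 2)
    (h2 : 4 * (P * E) < (g ^ 2 - (P + E)) ^ 2)
    (hEx : T2 α 6 / y * (exp (-(2 * (1 - y) * (6 / y))) / (2 * (1 - y))) ≤ E) :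
    ∃ Xe Xt, ExtraOk α y z Xe ∧ 0 < Xt ∧ P ≤ Xt ^ 2 ∧ Xe + Xt < g := by
  have h3 := two_sqrt_lt hg hP hE h1 h2
  set δ := (g - (√P + √E)) / 3 with hδ
  have hδ0 : 0 < δ := by rw [hδ]; linarith
  have sP := Real.sqrt_nonneg P
  have sE := Real.sqrt_nonneg E
  have qP := Real.sq_sqrt hP
  have qE := Real.sq_sqrt hE
  refine ⟨√E + δ, √P + δ, ⟨by linarith, Or.inr ⟨by linarith, hEx.trans ?_⟩⟩, by linarith, ?_, ?_⟩
  · nlinarith
  · nlinarith
  · have : g = √P + √E + 3 * δ := by rw [hδ]; ring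
    linarith

theorem cond_false_eq_true {a b : Bool} (h : cond a b false = true) : a = true ∧ b = true := by
  cases a with
  | false => simp at h
  | true => exact ⟨rfl, h⟩

theorem fin_sound (hα : 1 < α) (hz1 : 0 < z1 α) {c : CellD} (hch : z1 α ≤ (c.ch : ℝ) / 10 ^ 8)
    (hh6 : T2 α 6 ≤ (c.h6 : ℝ) / 10 ^ 8) {y0 y1 z0 zz A B g : ℕ} (hy1 : y1 ≤ 4095) {y z P : ℝ}
    (hya : (y0 : ℝ) / 4096 ≤ y) (hyb : y ≤ (y1 : ℝ) / 4096) (hza : (z0 : ℝ) / 4096 ≤ z)
    (hy : 0 < y)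
    (hP0 : 0 ≤ P) (hP : P * ((zz : ℝ) / 4096 * ((y0 : ℝ) / 4096)) ≤ (A : ℝ) * B / 10 ^ 34)
    (h : fin c etab y0 y1 z0 zz A B g = true) :
    ∃ Xe Xt, ExtraOk α y z Xe ∧ 0 < Xt ∧ P ≤ Xt ^ 2 ∧ Xe + Xt < (g : ℝ) / (2 * 10 ^ 20) := by
  unfold fin at h
  rw [fc_eq, fc_eq] at h
  set Pn : ℕ := Nat.mul (Nat.mul (Nat.mul A B) 16777216)
    40000000000000000000000000000000000000000 with hPn
  set Gn : ℕ := Nat.mul (Nat.mul g g) (Nat.mul (Nat.mul zz y0)
    10000000000000000000000000000000000) with hGn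
  have ePn : (Pn : ℝ) = (A : ℝ) * B * 16777216 * (4 * 10 ^ 40) := by
    have : Pn = A * B * 16777216 * (4 * 10 ^ 40) := rfl
    rw [this]; push_cast; ring
  have eGn : (Gn : ℝ) = (g : ℝ) ^ 2 * (zz * y0 * 10 ^ 34) := by
    have : Gn = g * g * (zz * y0 * 10 ^ 34) := rfl
    rw [this]; push_cast; ring
  set G := (g : ℝ) / (2 * 10 ^ 20) with hG
  have hG0 : 0 ≤ G := by positivity
  -- positivity of `zz`, `y0` from `Pn < Gn`
  have hpos : Pn < Gn → 0 < (zz : ℝ) ∧ 0 < (y0 : ℝ) := by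
    intro h1
    have h2 : 0 < Gn := by omega
    rcases Nat.eq_zero_or_pos zz with h3 | h3
    · exfalso
      have : Gn = g * g * (zz * y0 * 10 ^ 34) := rfl
      rw [this, h3] at h2
      simp at h2
    · rcases Nat.eq_zero_or_pos y0 with h4 | h4
      · exfalso
        have : Gn = g * g * (zz * y0 * 10 ^ 34) := rfl
        rw [this, h4] at h2
        simp at h2
      · exact ⟨by exact_mod_cast h3, by exact_mod_cast h4⟩
  cases hc : Nat.ble (Nat.mul c.ch y1) (Nat.mul 600000000 z0) with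
  | true =>
    rw [hc, cond_true] at h
    have h1 : Pn + 1 ≤ Gn := ble_iff.1 h
    obtain ⟨hzz, hy0⟩ := hpos (by omega)
    have h2 : (Pn : ℝ) < Gn := by exact_mod_cast h1
    have hPlt : P < G ^ 2 := by
      have hD : 0 < (zz : ℝ) * y0 * 10 ^ 34 * (4 * 10 ^ 40) := by positivity
      have e1 : G ^ 2 * ((zz : ℝ) * y0 * 10 ^ 34 * (4 * 10 ^ 40)) = Gn := by
        rw [eGn, hG]; field_simp; norm_num
      have e2 : P * ((zz : ℝ) * y0 * 10 ^ 34 * (4 * 10 ^ 40)) ≤ Pn := by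
        rw [ePn]
        have e3 : P * ((zz : ℝ) * y0 * 10 ^ 34 * (4 * 10 ^ 40)) =
          P * ((zz : ℝ) / 4096 * ((y0 : ℝ) / 4096)) * (16777216 * 10 ^ 34 * (4 * 10 ^ 40)) := by
          ring
        have e4 : (A : ℝ) * B * 16777216 * (4 * 10 ^ 40) =
          (A : ℝ) * B / 10 ^ 34 * (16777216 * 10 ^ 34 * (4 * 10 ^ 40)) := by ring
        rw [e3, e4]
        exact mul_le_mul_of_nonneg_right hP (by positivity)
      by_contra hcon
      rw [not_lt] at hcon
      have := mul_le_mul_of_nonneg_right hcon hD.le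
      linarith
    have hsP := Real.sqrt_nonneg P
    have hqP := Real.sq_sqrt hP0
    have hlt : √P < G := by
      refine lt_of_pow_lt_pow_left₀ 2 hG0 ?_
      rw [hqP]; exact hPlt
    refine ⟨0, (√P + G) / 2, ⟨le_rfl, Or.inl ?_⟩, by linarith, ?_, by linarith⟩
    · have h3 : c.ch * y1 ≤ 600000000 * z0 := ble_iff.1 hc
      have h4 : (c.ch : ℝ) * y1 ≤ 600000000 * z0 := by exact_mod_cast h3
      calc z1 α * y ≤ (c.ch : ℝ) / 10 ^ 8 * ((y1 : ℝ) / 4096) := by gcongr
        _ = (c.ch : ℝ) * y1 / (10 ^ 8 * 4096) := by ring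
        _ ≤ 600000000 * z0 / (10 ^ 8 * 4096) := by gcongr
        _ = 6 * ((z0 : ℝ) / 4096) := by ring
        _ ≤ 6 * z := by gcongr
    · have : √P ≤ (√P + G) / 2 := by linarith
      nlinarith
  | false =>
    rw [hc, cond_false] at h
    rw [fc_eq, fc_eq, fc_eq, fc_eq, fc_eq] at h
    set e : ℕ := En etab (Nat.div (Nat.mul 384 (Nat.sub 4096 y1)) y1) with he
    set P' : ℕ := Nat.mul (Nat.mul 20000000000 (Nat.sub 4096 y1)) Pn with hP'
    set G' : ℕ := Nat.mul (Nat.mul 20000000000 (Nat.sub 4096 y1)) Gn with hG'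
    set E' : ℕ := Nat.mul (Nat.mul (Nat.mul c.h6 (Nat.mul (Nat.mul e e) (Nat.mul e e))) 16777216)
       (Nat.mul zz 40000000000000000000000000000000000000000) with hE'
    obtain ⟨h1, h2⟩ := cond_false_eq_true h
    rw [fc_eq] at h2
    have h1' : P' + E' + 1 ≤ G' := ble_iff.1 h1
    have h2' : 4 * (P' * E') + 1 ≤ (G' - (P' + E')) * (G' - (P' + E')) := ble_iff.1 h2
    have hd : 0 < 4096 - y1 := by omega
    have hcast : ((4096 - y1 : ℕ) : ℝ) = 4096 - y1 := by
      rw [Nat.cast_sub (by omega)]; norm_num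
    have hd' : (0 : ℝ) < 4096 - y1 := by
      have : (y1 : ℝ) ≤ 4095 := by exact_mod_cast hy1
      linarith
    have hlt : Pn < Gn := by
      have : P' < G' := by omega
      have e1 : P' = 20000000000 * (4096 - y1) * Pn := rfl
      have e2 : G' = 20000000000 * (4096 - y1) * Gn := rfl
      rw [e1, e2] at this
      exact lt_of_mul_lt_mul_left this (Nat.zero_le _)
    obtain ⟨hzz, hy0⟩ := hpos hlt
    set CD : ℝ := 4 * 10 ^ 40 * ((zz : ℝ) * y0 * 10 ^ 34) * (2 * 10 ^ 10 * (4096 - y1)) with hCD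
    have hCD0 : 0 < CD := by positivity
    have eP' : (P' : ℝ) = 2 * 10 ^ 10 * (4096 - y1) * Pn := by
      have : P' = 20000000000 * (4096 - y1) * Pn := rfl
      rw [this]; push_cast [hcast]; try ring
    have eG' : (G' : ℝ) = 2 * 10 ^ 10 * (4096 - y1) * Gn := by
      have : G' = 20000000000 * (4096 - y1) * Gn := rfl
      rw [this]; push_cast [hcast]; try ring
    have eE' : (E' : ℝ) = (c.h6 : ℝ) * e ^ 4 * 16777216 * (zz * (4 * 10 ^ 40)) := by
      have : E' = c.h6 * (e * e * (e * e)) * 16777216 * (zz * (4 * 10 ^ 40)) := rfl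
      rw [this]; push_cast; ring
    have eG2 : G ^ 2 = (G' : ℝ) / CD := by
      rw [eG', eGn, hG, hCD]
      have hd2 : (4096 : ℝ) - y1 ≠ 0 := hd'.ne'
      field_simp
      norm_num
    have hPP : P ≤ (P' : ℝ) / CD := by
      rw [le_div_iff₀ hCD0, eP', ePn]
      have e3 : P * CD = P * ((zz : ℝ) / 4096 * ((y0 : ℝ) / 4096)) *
        (16777216 * (4 * 10 ^ 40) * 10 ^ 34 * (2 * 10 ^ 10 * (4096 - y1))) := by
        rw [hCD]; ring
      have e4 : 2 * 10 ^ 10 * (4096 - (y1 : ℝ)) * ((A : ℝ) * B * 16777216 * (4 * 10 ^ 40)) =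
        (A : ℝ) * B / 10 ^ 34 *
          (16777216 * (4 * 10 ^ 40) * 10 ^ 34 * (2 * 10 ^ 10 * (4096 - y1))) := by ring
      rw [e3, e4]
      exact mul_le_mul_of_nonneg_right hP (by positivity)
    have hsum : (P' : ℝ) / CD + (E' : ℝ) / CD < G ^ 2 := by
      rw [eG2, ← add_div]
      refine div_lt_div_of_pos_right ?_ hCD0
      exact_mod_cast h1'
    have hsq : 4 * ((P' : ℝ) / CD * ((E' : ℝ) / CD)) < (G ^ 2 - ((P' : ℝ) / CD + (E' : ℝ) / CD)) ^ 2 := by
      rw [eG2]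
      have h3 : 4 * ((P' : ℝ) * E') < ((G' : ℝ) - (P' + E')) ^ 2 := by
        have h4 : (((G' - (P' + E') : ℕ)) : ℝ) = (G' : ℝ) - (P' + E') := by
          rw [Nat.cast_sub (by omega)]; push_cast; ring
        rw [← h4, sq]
        exact_mod_cast h2'
      have e5 : 4 * ((P' : ℝ) / CD * ((E' : ℝ) / CD)) = 4 * ((P' : ℝ) * E') / CD ^ 2 := by
        field_simp
      have e6 : ((G' : ℝ) / CD - ((P' : ℝ) / CD + (E' : ℝ) / CD)) ^ 2 =
        ((G' : ℝ) - (P' + E')) ^ 2 / CD ^ 2 := by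
        rw [← add_div, ← sub_div, div_pow]
      rw [e5, e6]
      exact div_lt_div_of_pos_right h3 (by positivity)
    have hEx : T2 α 6 / y * (exp (-(2 * (1 - y) * (6 / y))) / (2 * (1 - y))) ≤ (E' : ℝ) / CD := by
      have hy1' : y ≤ (y1 : ℝ) / 4096 := hyb
      have hy1n : 0 < (y1 : ℝ) := by
        have := hy.trans_le hyb
        linarith
      have h1y : 0 < 1 - (y1 : ℝ) / 4096 := by linarith
      have h1yy : 1 - (y1 : ℝ) / 4096 ≤ 1 - y := by linarith
      have hexp : exp (-(2 * (1 - y) * (6 / y))) ≤ ((e : ℝ) / 10 ^ 9) ^ 4 := by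
        have e7 : exp (-(2 * (1 - y) * (6 / y))) = exp (-(3 * (1 - y) / y)) ^ 4 := by
          rw [← exp_nat_mul]; congr 1; push_cast; field_simp; ring
        rw [e7]
        refine pow_le_pow_left₀ (exp_pos _).le ?_ 4
        rw [he]
        refine En_sound ((natdiv_le _ _).trans ?_)
        have e8 : ((Nat.mul 384 (Nat.sub 4096 y1) : ℕ) : ℝ) = 384 * (4096 - y1) := by
          have : Nat.mul 384 (Nat.sub 4096 y1) = 384 * (4096 - y1) := rfl
          rw [this]; push_cast [hcast]; try ring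
        rw [e8]
        have e9 : 384 * (4096 - (y1 : ℝ)) / y1 = 128 * (3 * (1 - (y1 : ℝ) / 4096) /
          ((y1 : ℝ) / 4096)) := by field_simp; ring
        rw [e9]
        have h1yp : 0 ≤ 3 * (1 - y) := by linarith
        gcongr
      calc T2 α 6 / y * (exp (-(2 * (1 - y) * (6 / y))) / (2 * (1 - y)))
          ≤ ((c.h6 : ℝ) / 10 ^ 8) / ((y0 : ℝ) / 4096) *
            (((e : ℝ) / 10 ^ 9) ^ 4 / (2 * (1 - (y1 : ℝ) / 4096))) := by
            have h1yp : 0 < 2 * (1 - y) := by linarith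
            have h1yq : 0 < 2 * (1 - (y1 : ℝ) / 4096) := by linarith
            refine mul_le_mul ?_ ?_ (by positivity) (by positivity)
            · exact div_le_div₀ (by positivity) hh6 (by positivity) hya
            · exact div_le_div₀ (by positivity) hexp h1yq (by linarith)
        _ = (E' : ℝ) / CD := by
            rw [eE', hCD]
            have hd2 : (4096 : ℝ) - y1 ≠ 0 := hd'.ne'
            have hd3 : 1 - (y1 : ℝ) / 4096 = (4096 - y1) / 4096 := by ring
            rw [hd3]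
            field_simp
            norm_num
            ring
    clear hP' hG' hE' hPn hGn he h h1 h2 h1' h2'
    clear_value CD E' P' G' e Pn Gn G
    have hsum' : P + (E' : ℝ) / CD < G ^ 2 := by linarith
    have hEc : 0 ≤ (E' : ℝ) / CD := by positivity
    refine fin_aux hG0 hP0 hEc hsum' ?_ hEx
    have h7 : 4 * (P * ((E' : ℝ) / CD)) ≤ 4 * ((P' : ℝ) / CD * ((E' : ℝ) / CD)) := by
      have := mul_le_mul_of_nonneg_right hPP hEc
      linarith
    have h8 : (G ^ 2 - ((P' : ℝ) / CD + (E' : ℝ) / CD)) ^ 2 ≤ (G ^ 2 - (P + (E' : ℝ) / CD)) ^ 2 := by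
      refine pow_le_pow_left₀ (by linarith) (by linarith) 2
    linarith

end LpSec.ML
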