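import Mathlib
import Pool.Agent.Lib.MP_1dbab3_gt.W.M10

/-!
# Soundness of the box checker, part 4: the tail functions `tl` and `tlS`
-/

open Real MeasureTheory Set Filter Topology

namespace LpSec.ML

variable {α : ℝ}

/-- a point of the simplex with its three largest coordinates -/
structure Cfg {n : ℕ} (x : Fin n → ℝ) (i j k : Fin n) : Prop where
  nn : ∀ l, 0 ≤ x l
  sum : ∑ l, x l = 1
  hij : i ≠ j
  hik : i ≠ k
  hjk : j ≠ k
  hz : ∀ l, l ≠ i → x l ≤ x j
  hji : x j ≤ x i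
  hw : ∀ l, l ≠ i → l ≠ j → x l ≤ x k
  hj : 0 < x j

/-- the point is in the box -/
structure Box (y z w : ℝ) (y0 y1 z0 z1 w0 w1 : ℕ) : Prop where
  ya : (y0 : ℝ) / 4096 ≤ y
  yb : y ≤ (y1 : ℝ) / 4096
  za : (z0 : ℝ) / 4096 ≤ z
  zb : z ≤ (z1 : ℝ) / 4096
  wa : (w0 : ℝ) / 4096 ≤ w
  wb : w ≤ (w1 : ℝ) / 4096

theorem Cfg.hi {n : ℕ} {x : Fin n → ℝ} {i j k : Fin n} (C : Cfg x i j k) : 0 < x i :=
  C.hj.trans_le C.hji

theorem Cfg.rest {n : ℕ} {x : Fin n → ℝ} {i j k : Fin n} (C : Cfg x i j k) :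
    ∑ l ∈ (Finset.univ.erase i).erase j, x l = 1 - x i - x j := by
  have := sum_split x C.hij
  rw [C.sum] at this
  linarith

theorem Cfg.rest_nonneg {n : ℕ} {x : Fin n → ℝ} {i j k : Fin n} (C : Cfg x i j k) :
    0 ≤ 1 - x i - x j := by
  rw [← C.rest]
  exact Finset.sum_nonneg fun l _ => C.nn l

/-- the weight of the rest in a box -/
theorem Cfg.wOk (h : Lobe α) {c : CellD} (hcc : (c.cc : ℝ) / 10 ^ 8 ≤ cc α) {n : ℕ}
    {x : Fin n → ℝ} {i j k : Fin n} (C : Cfg x i j k) {y0 y1 z0 z1 w0 w1 : ℕ}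
    (B : Box (x i) (x j) (x k) y0 y1 z0 z1 w0 w1) {s0 cap : ℕ}
    (hs0 : s0 = 4096 - (y1 + z1)) (hcap : cap = max 1 (min (min w1 z1) (4096 - (y0 + z0)))) :
    WOk α (restW α x i j) c.cc (s0 / cap) cap (s0 - s0 / cap * cap) := by
  have hc1 : 0 < cap := by rw [hcap]; exact lt_of_lt_of_le one_pos (le_max_left _ _)
  have hcR : (0 : ℝ) < cap := by exact_mod_cast hc1
  refine ⟨restW_anti C.nn i j, fun s => (restW_pos x i j s).le, (restW_cont x i j).measurable, ?_⟩
  intro θ s hθ hs num den hden hnum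
  have hr : s0 - s0 / cap * cap = s0 % cap := by
    have := Nat.div_add_mod s0 cap
    rw [Nat.mul_comm] at this
    omega
  have hrlt : s0 % cap < cap := Nat.mod_lt _ hc1
  have hcapx : ∀ l ∈ (Finset.univ.erase i).erase j, x l ≤ (cap : ℝ) / 4096 := by
    intro l hl
    have hli : l ≠ i := Finset.ne_of_mem_erase (Finset.mem_of_mem_erase hl)
    have hlj : l ≠ j := Finset.ne_of_mem_erase hl
    have h1 : x l ≤ (w1 : ℝ) / 4096 := (C.hw l hli hlj).trans B.wb
    have h2 : x l ≤ (z1 : ℝ) / 4096 := (C.hz l hli).trans B.zb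
    have h3 : x l ≤ ((4096 - (y0 + z0) : ℕ) : ℝ) / 4096 := by
      have h4 : x l ≤ 1 - x i - x j := by
        rw [← C.rest]
        exact Finset.single_le_sum (fun l _ => C.nn l) hl
      have h5 := sub_le_cast 4096 (y0 + z0)
      have h6 := B.ya
      have h7 := B.za
      push_cast at h5
      rw [le_div_iff₀ (by norm_num)]
      nlinarith
    rw [le_div_iff₀ (by norm_num)] at h1 h2 h3 ⊢
    rw [hcap]
    push_cast
    exact le_max_of_le_right (le_min (le_min h1 h2) h3)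
  have hsum : ((s0 / cap : ℕ) : ℝ) * ((cap : ℝ) / 4096) + ((s0 - s0 / cap * cap : ℕ) : ℝ) / 4096 ≤
      ∑ l ∈ (Finset.univ.erase i).erase j, x l := by
    have e1 : ((s0 / cap : ℕ) : ℝ) * ((cap : ℝ) / 4096) + ((s0 - s0 / cap * cap : ℕ) : ℝ) / 4096 =
        (s0 : ℝ) / 4096 := by
      rw [hr]
      have : (s0 : ℝ) = cap * ((s0 / cap : ℕ) : ℝ) + ((s0 % cap : ℕ) : ℝ) := by
        exact_mod_cast (Nat.div_add_mod s0 cap).symm
      rw [this]
      ring
    rw [e1, C.rest]
    rcases le_total (y1 + z1) 4096 with h4 | h4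
    · have h5 : (s0 : ℝ) = 4096 - ((y1 : ℝ) + z1) := by
        rw [hs0, Nat.cast_sub h4]; push_cast; ring
      rw [h5]
      have h6 := B.yb
      have h7 := B.zb
      have e2 : (4096 - ((y1 : ℝ) + z1)) / 4096 = 1 - (y1 : ℝ) / 4096 - (z1 : ℝ) / 4096 := by
        ring
      rw [e2]; linarith
    · have h5 : s0 = 0 := by omega
      rw [h5]
      have := C.rest_nonneg
      simpa using this
  refine (restW_theta h C.nn (w := (cap : ℝ) / 4096) (by positivity) hcapx (s0 / cap)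
    (r := ((s0 - s0 / cap * cap : ℕ) : ℝ) / 4096) (by positivity) ?_ hsum hθ hs).trans ?_
  · rw [hr]
    have : ((s0 % cap : ℕ) : ℝ) ≤ cap := by exact_mod_cast hrlt.le
    gcongr
  · exact Rn_sound hden hcc rfl rfl hnum

theorem tl_pos_aux {cap : ℕ} : max 1 cap ≠ 0 := by
  have : 1 ≤ max 1 cap := le_max_left _ _
  omega

/-- small `z` -/
theorem small_z {c z a : ℝ} (hz : 0 < z) (hza : z ≤ a) (hac : a ≤ c) :
    exp (-(c / z)) / z ≤ exp (-(c / a)) / a := by
  have ha : 0 < a := hz.trans_le hza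
  rw [div_le_div_iff₀ hz ha]
  have h1 : a / z ≤ exp (a / z - 1) := by
    have := Real.add_one_le_exp (a / z - 1)
    linarith
  have h2 : 1 ≤ a / z := by rw [le_div_iff₀ hz]; linarith
  have h3 : exp (-(c / z)) * (a / z) ≤ exp (-(c / a)) := by
    calc exp (-(c / z)) * (a / z) ≤ exp (-(c / z)) * exp (a / z - 1) :=
          mul_le_mul_of_nonneg_left h1 (exp_pos _).le
      _ = exp (-(c / z) + (a / z - 1)) := by rw [← exp_add]
      _ ≤ exp (-(c / a)) := by
          refine exp_le_exp.2 ?_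
          have e : -(c / a) - (-(c / z) + (a / z - 1)) = (c / a - 1) * (a / z - 1) := by
            field_simp
            ring
          have h4 : 1 ≤ c / a := by rw [le_div_iff₀ ha]; linarith
          nlinarith [mul_nonneg (sub_nonneg.2 h4) (sub_nonneg.2 h2)]
  calc exp (-(c / z)) * a = exp (-(c / z)) * (a / z) * z := by field_simp
    _ ≤ exp (-(c / a)) * z := mul_le_mul_of_nonneg_right h3 hz.le

theorem tl_sound (h : Lobe α) {c : CellD} (hC : CellOk α c) {n : ℕ}
    {x : Fin n → ℝ} {i j k : Fin n} (C : Cfg x i j k) {y0 y1 z0 z1 w0 w1 g : ℕ}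
    (B : Box (x i) (x j) (x k) y0 y1 z0 z1 w0 w1) (hy1 : y1 ≤ 4095)
    (ht : tl c etab y0 y1 z0 z1 w1 g = true) :
    ∃ Xe Xt, ExtraOk α (x i) (x j) Xe ∧
      ∫ s in Ioi (LpSec.z1 α / x j), ∏ l, Phi α (x l * s) ≤ Xt ∧
      Xe + Xt < (g : ℝ) / (2 * 10 ^ 20) := by
  have hα := h.one_lt
  have hc := h.z1_pos
  have hi := C.hi
  have hj := C.hj
  have hb : 0 ≤ LpSec.z1 α / x j := by positivity
  unfold tl at ht
  rw [fc_eq] at ht
  cases hz0 : Nat.ble z0 0 with
  | true =>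
    rw [hz0, cond_true] at ht
    obtain ⟨h1, h2⟩ := cond_false_eq_true ht
    rw [fc_eq] at h2
    set s0 : ℕ := Nat.sub 4096 (Nat.add y1 z1) with hs0
    set e : ℕ := En etab (Nat.div (Nat.mul (Nat.mul 128 c.cc) s0) (Nat.mul 100000000 z1)) with he
    have h1' : 100000000 * z1 ≤ 2 * c.cc * s0 := ble_iff.1 h1
    have hz1 : (0 : ℝ) < z1 := by
      have := hj.trans_le B.zb
      linarith
    -- exponent
    set R := exp (-(cc α * (1 - x i - x j) / x j)) with hR
    have hlin : ∀ s, LpSec.z1 α / x j ≤ s → restW α x i j s ≤ R := by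
      intro s hs
      have := restW_lin h C.nn C.hz hj hs
      rwa [C.rest] at this
    have hA : ∫ s in Ioi (LpSec.z1 α / x j), Phi α (x i * s) ^ 2 * restW α x i j s ≤
        R * T2 α (LpSec.z1 α) / x i := by
      refine (step_last hα hi hb (restW_anti C.nn i j) (fun s => (restW_pos x i j s).le)
        (restW_cont x i j).measurable (hlin _ le_rfl)).trans ?_
      refine div_le_div_of_nonneg_right (mul_le_mul_of_nonneg_left ?_ (exp_pos _).le) hi.le
      refine T2_anti hα hc.le ?_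
      rw [mul_div_assoc', le_div_iff₀ hj, mul_comm]
      exact mul_le_mul_of_nonneg_right C.hji hc.le
    have hB : ∫ s in Ioi (LpSec.z1 α / x j), Phi α (x j * s) ^ 2 * restW α x i j s ≤
        R * T2 α (LpSec.z1 α) / x j := by
      refine (step_last hα hj hb (restW_anti C.nn i j) (fun s => (restW_pos x i j s).le)
        (restW_cont x i j).measurable (hlin _ le_rfl)).trans (le_of_eq ?_)
      have e6 : x j * (LpSec.z1 α / x j) = LpSec.z1 α := by field_simp
      rw [e6]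
    have hT0 := T2_nonneg α (LpSec.z1 α)
    set P := R * T2 α (LpSec.z1 α) / x i * (R * T2 α (LpSec.z1 α) / x j) with hP
    have hP0 : 0 ≤ P := by positivity
    have hs0le : (s0 : ℝ) / 4096 ≤ 1 - x i - x j := by
      rcases le_total (y1 + z1) 4096 with h4 | h4
      · have h5 : (s0 : ℝ) = 4096 - ((y1 : ℝ) + z1) := by
          have : s0 = 4096 - (y1 + z1) := rfl
          rw [this, Nat.cast_sub h4]; push_cast; ring
        have h6 := B.yb
        have h7 := B.zb
        have e2 : (4096 - ((y1 : ℝ) + z1)) / 4096 = 1 - (y1 : ℝ) / 4096 - (z1 : ℝ) / 4096 := by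
          ring
        rw [h5, e2]; linarith
      · have h5 : s0 = 0 := by
          have : s0 = 4096 - (y1 + z1) := rfl
          omega
        rw [h5]
        have := C.rest_nonneg
        simpa using this
    have hPle : P * ((z1 : ℝ) / 4096 * ((y0 : ℝ) / 4096)) ≤ ((Nat.mul c.h e : ℕ) : ℝ) *
        ((Nat.mul c.h e : ℕ) : ℝ) / 10 ^ 34 := by
      set cn : ℝ := (c.cc : ℝ) / 10 ^ 8 with hcn
      set cq : ℝ := 2 * cn * ((s0 : ℝ) / 4096) with hcq
      have hcn0 : 0 ≤ cn := by positivity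
      have hRR : R * R ≤ exp (-(cq / x j)) := by
        rw [hR, ← exp_add]
        refine exp_le_exp.2 ?_
        have e7 : -(cc α * (1 - x i - x j) / x j) + -(cc α * (1 - x i - x j) / x j) =
          -(2 * (cc α * (1 - x i - x j)) / x j) := by ring
        rw [e7]
        refine neg_le_neg (div_le_div_of_nonneg_right ?_ hj.le)
        rw [hcq]
        have := mul_le_mul (show cn ≤ cc α from hC.cc) hs0le (by positivity) ((hcn0).trans hC.cc)
        linarith
      have hac : (z1 : ℝ) / 4096 ≤ cq := by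
        have h3 : (100000000 : ℝ) * z1 ≤ 2 * c.cc * s0 := by exact_mod_cast h1'
        rw [hcq, hcn]
        have e8 : 2 * ((c.cc : ℝ) / 10 ^ 8) * ((s0 : ℝ) / 4096) =
          (2 * c.cc * s0) / (10 ^ 8 * 4096) := by ring
        rw [e8, div_le_div_iff₀ (by norm_num) (by norm_num)]
        nlinarith
      have hsm := small_z hj B.zb hac
      have hE : exp (-(cq / ((z1 : ℝ) / 4096))) ≤ ((e : ℝ) / 10 ^ 9) ^ 2 := by
        have e9 : exp (-(cq / ((z1 : ℝ) / 4096))) =
            exp (-(cn * ((s0 : ℝ) / 4096) / ((z1 : ℝ) / 4096))) ^ 2 := by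
          rw [← exp_nat_mul]; congr 1; rw [hcq]; push_cast; ring
        rw [e9]
        refine pow_le_pow_left₀ (exp_pos _).le ?_ 2
        rw [he]
        refine En_sound ((natdiv_le _ _).trans (le_of_eq ?_))
        have e10 : ((Nat.mul (Nat.mul 128 c.cc) s0 : ℕ) : ℝ) = 128 * c.cc * s0 := by
          have : Nat.mul (Nat.mul 128 c.cc) s0 = 128 * c.cc * s0 := rfl
          rw [this]; push_cast; ring
        have e11 : ((Nat.mul 100000000 z1 : ℕ) : ℝ) = 10 ^ 8 * z1 := by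
          have : Nat.mul 100000000 z1 = 100000000 * z1 := rfl
          rw [this]; push_cast; ring
        rw [e10, e11, hcn]
        field_simp
      have e12 : ((Nat.mul c.h e : ℕ) : ℝ) = (c.h : ℝ) * e := by
        have : Nat.mul c.h e = c.h * e := rfl
        rw [this]; push_cast; ring
      rw [e12]
      have hy0 : (y0 : ℝ) / 4096 / x i ≤ 1 := by rw [div_le_one hi]; exact B.ya
      have h9 : R * R / x j ≤ ((e : ℝ) / 10 ^ 9) ^ 2 / ((z1 : ℝ) / 4096) :=
        (div_le_div_of_nonneg_right hRR hj.le).trans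
          (hsm.trans (div_le_div_of_nonneg_right hE (by positivity)))
      have h10 : T2 α (LpSec.z1 α) * T2 α (LpSec.z1 α) ≤ ((c.h : ℝ) / 10 ^ 8) ^ 2 := by
        rw [sq]; exact mul_le_mul hC.h hC.h hT0 (by positivity)
      calc P * ((z1 : ℝ) / 4096 * ((y0 : ℝ) / 4096))
          = (R * R / x j) * (T2 α (LpSec.z1 α) * T2 α (LpSec.z1 α)) * ((z1 : ℝ) / 4096) *
            ((y0 : ℝ) / 4096 / x i) := by rw [hP]; ring
        _ ≤ (((e : ℝ) / 10 ^ 9) ^ 2 / ((z1 : ℝ) / 4096)) * ((c.h : ℝ) / 10 ^ 8) ^ 2 *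
            ((z1 : ℝ) / 4096) * 1 := by
            have hRR0 : 0 ≤ R * R / x j := by positivity
            refine mul_le_mul (mul_le_mul_of_nonneg_right (mul_le_mul h9 h10
              (mul_nonneg hT0 hT0) (by positivity)) (by positivity)) hy0 (by positivity)
              (by positivity)
        _ = (c.h : ℝ) * e * ((c.h : ℝ) * e) / 10 ^ 34 := by
            field_simp
    obtain ⟨Xe, Xt, g1, g2, g3, g4⟩ := fin_sound (z0 := z0) hα hc hC.ch hC.h6 hy1 B.ya B.yb B.za
      hi hP0 hPle h2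
    exact ⟨Xe, Xt, g1, (tail_le_abs h C.nn C.hij hi hj hb).trans
      (ml_tail h C.nn C.hij hi hj hb hA hB g2 g3), g4⟩
  | false =>
    rw [hz0, cond_false, fc_eq, fc_eq, fc_eq, fc_eq, fc_eq] at ht
    rw [mx_eq, mn_eq, mn_eq] at ht
    set s0 : ℕ := Nat.sub 4096 (Nat.add y1 z1) with hs0
    set cap : ℕ := max 1 (min (min w1 z1) (Nat.sub 4096 (Nat.add y0 z0))) with hcap
    have hW := C.wOk h hC.cc B (s0 := s0) (cap := cap) rfl rfl
    have hA := NB_sound hα hW hc hi hj C.hji B.ya B.yb B.zb hC.tOk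
    have hB := NA_sound hα hW hc hj B.zb hC.tOk
    set NAv : ℕ := NA etab c.cc (s0 / cap) cap (s0 - s0 / cap * cap) z1 c.T c.h with hNA
    set NBv : ℕ := NB etab c.cc (s0 / cap) cap (s0 - s0 / cap * cap) y0 y1 z1 c.T 4 c.h with hNB
    have ht' : fin c etab y0 y1 z0 z0 NAv NBv g = true := ht
    have hz0' : (0 : ℝ) < z0 := by exact_mod_cast ble_false.1 hz0
    set P := (NBv : ℝ) / 10 ^ 17 / x i * ((NAv : ℝ) / 10 ^ 17 / x j) with hP
    have hP0 : 0 ≤ P := by positivity
    have hPle : P * ((z0 : ℝ) / 4096 * ((y0 : ℝ) / 4096)) ≤ (NAv : ℝ) * NBv / 10 ^ 34 := by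
      have hy0 : (y0 : ℝ) / 4096 / x i ≤ 1 := by rw [div_le_one hi]; exact B.ya
      have hz0'' : (z0 : ℝ) / 4096 / x j ≤ 1 := by rw [div_le_one hj]; exact B.za
      calc P * ((z0 : ℝ) / 4096 * ((y0 : ℝ) / 4096))
          = (NAv : ℝ) * NBv / 10 ^ 34 * ((z0 : ℝ) / 4096 / x j) * ((y0 : ℝ) / 4096 / x i) := by
            rw [hP]; ring
        _ ≤ (NAv : ℝ) * NBv / 10 ^ 34 * 1 * 1 := by gcongr
        _ = _ := by ring
    obtain ⟨Xe, Xt, g1, g2, g3, g4⟩ := fin_sound (z0 := z0) hα hc hC.ch hC.h6 hy1 B.ya B.yb B.za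
      hi hP0 hPle ht'
    exact ⟨Xe, Xt, g1, (tail_le_abs h C.nn C.hij hi hj hb).trans
      (ml_tail h C.nn C.hij hi hj hb hA hB g2 g3), g4⟩

end LpSec.ML
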