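import Mathlib
import Pool.Agent.Lib.MP_1dbab3_gt.W.M11

/-!
# Soundness of the box checker, part 5: the tail with signs in dimension four
-/

open Real MeasureTheory Set Filter Topology

namespace LpSec.ML

variable {α : ℝ}

theorem WOk.cut {W : ℝ → ℝ} {cc m cap r : ℕ} (h : WOk α W cc m cap r) (c' : ℝ) :
    WOk α ((Iic c').indicator W) cc m cap r := by
  have hle : ∀ s, (Iic c').indicator W s ≤ W s := fun s =>
    indicator_le_self' (fun _ _ => h.nonneg _) s
  refine ⟨fun s t hst => ?_, fun s => indicator_nonneg (fun _ _ => h.nonneg _) s,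
    h.meas.indicator measurableSet_Iic, fun θ s h1 h2 num den h3 h4 =>
      (hle s).trans (h.bd θ s h1 h2 num den h3 h4)⟩
  by_cases ht : t ≤ c'
  · rw [indicator_of_mem (show t ∈ Iic c' from ht),
      indicator_of_mem (show s ∈ Iic c' from hst.trans ht)]
    exact h.anti hst
  · rw [indicator_of_notMem (show t ∉ Iic c' from ht)]
    exact indicator_nonneg (fun _ _ => h.nonneg _) s

theorem uppT_sound {X : ℝ} (hα : 1 < α) (hz1 : 0 < LpSec.z1 α) {z0 v1 ch y1 : ℕ}
    (hX : ∀ q : ℕ, q * v1 ≤ 4 * z0 → q * ch * y1 ≤ 2400000000 * z0 →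
      (q : ℝ) / 4 * LpSec.z1 α ≤ X) :
    ∀ (T : List (ℕ × ℕ × ℕ)) (H : ℕ), T2 α X ≤ (H : ℝ) / 10 ^ 8 →
      (∀ p ∈ T, T2 α ((p.1 : ℝ) / 4 * LpSec.z1 α) ≤ (p.2.1 : ℝ) / 10 ^ 8) →
      T2 α X ≤ (uppT z0 v1 ch y1 T H : ℝ) / 10 ^ 8 := by
  intro T
  induction T with
  | nil => intro H hH _; exact hH
  | cons p t ih =>
    intro H hH hu
    have e : uppT z0 v1 ch y1 (p :: t) H =
      cond (cond (Nat.ble (Nat.mul p.1 v1) (Nat.mul 4 z0))
      (Nat.ble (Nat.mul (Nat.mul p.1 ch) y1) (Nat.mul 2400000000 z0)) false)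
      (uppT z0 v1 ch y1 t p.2.1) H := rfl
    rw [e]
    cases hc : cond (Nat.ble (Nat.mul p.1 v1) (Nat.mul 4 z0))
      (Nat.ble (Nat.mul (Nat.mul p.1 ch) y1) (Nat.mul 2400000000 z0)) false with
    | false => exact hH
    | true =>
      obtain ⟨h1, h2⟩ := cond_false_eq_true hc
      refine ih p.2.1 ((T2_anti hα (by positivity) (hX p.1 (ble_iff.1 h1) (ble_iff.1 h2))).trans
        (hu p (by simp))) fun q hq => hu q (by simp [hq])

theorem tlS_sound (h : Lobe α) {c : CellD} (hC : CellOk α c)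
    {x : Fin 4 → ℝ} {i j k : Fin 4} (C : Cfg x i j k) {y0 y1 z0 z1 w0 w1 g : ℕ}
    (B : Box (x i) (x j) (x k) y0 y1 z0 z1 w0 w1) (hy1 : y1 ≤ 4095)
    (ht : tlS c etab y0 y1 z0 z1 w0 w1 g = true) :
    ∃ Xe Xt, ExtraOk α (x i) (x j) Xe ∧
      ∫ s in Ioi (LpSec.z1 α / x j), ∏ l, Phi α (x l * s) ≤ Xt ∧
      Xe + Xt < (g : ℝ) / (2 * 10 ^ 20) := by
  have hα := h.one_lt
  have hc := h.z1_pos
  have hi := C.hi
  have hj := C.hj
  have hb : 0 ≤ LpSec.z1 α / x j := by positivity
  unfold tlS at ht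
  rw [fc_eq, fc_eq, fc_eq, fc_eq] at ht
  obtain ⟨hcond, ht⟩ := cond_false_eq_true ht
  rw [fc_eq, fc_eq, fc_eq, fc_eq, fc_eq, fc_eq, fc_eq] at ht
  rw [mx_eq, mn_eq, mn_eq] at ht
  set s0 : ℕ := Nat.sub 4096 (Nat.add y1 z1) with hs0
  set cap : ℕ := max 1 (min (min w1 z1) (Nat.sub 4096 (Nat.add y0 z0))) with hcap
  set v1 : ℕ := Nat.sub 4096 (Nat.add (Nat.add y0 z0) w0) with hv1
  set v0 : ℕ := Nat.sub 4096 (Nat.add (Nat.add y1 z1) w1) with hv0
  -- conditions
  cases hz0 : Nat.ble z0 0 with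
  | true => rw [hz0] at hcond; simp at hcond
  | false =>
  rw [hz0, cond_false] at hcond
  cases hw0 : Nat.ble w0 0 with
  | true => rw [hw0] at hcond; simp at hcond
  | false =>
  rw [hw0, cond_false] at hcond
  have hz0' : (0 : ℝ) < z0 := by exact_mod_cast ble_false.1 hz0
  have hw0' : (0 : ℝ) < w0 := by exact_mod_cast ble_false.1 hw0
  have hch : (c.ch : ℝ) * y1 ≤ 600000000 * w0 := by exact_mod_cast (ble_iff.1 hcond)
  have hk : 0 < x k := lt_of_lt_of_le (by positivity) B.wa
  have hkj : x k ≤ x j := C.hz k C.hik.symm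
  -- fourth coordinate
  have hki : k ∈ (Finset.univ.erase i).erase j :=
    Finset.mem_erase.2 ⟨C.hjk.symm, Finset.mem_erase.2 ⟨C.hik.symm, Finset.mem_univ k⟩⟩
  have hcard : (((Finset.univ.erase i).erase j).erase k).card = 1 := by
    rw [Finset.card_erase_of_mem hki, Finset.card_erase_of_mem
      (Finset.mem_erase.2 ⟨C.hij.symm, Finset.mem_univ j⟩),
      Finset.card_erase_of_mem (Finset.mem_univ i), Finset.card_univ, Fintype.card_fin]
  obtain ⟨l, hl⟩ := Finset.card_eq_one.1 hcard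
  have hlm : l ∈ ((Finset.univ.erase i).erase j).erase k := by rw [hl]; simp
  have hlk : l ≠ k := Finset.ne_of_mem_erase hlm
  have hlj : l ≠ j := Finset.ne_of_mem_erase (Finset.mem_of_mem_erase hlm)
  have hli : l ≠ i := Finset.ne_of_mem_erase (Finset.mem_of_mem_erase (Finset.mem_of_mem_erase hlm))
  have hsum2 : ∀ f : Fin 4 → ℝ, ∑ p ∈ (Finset.univ.erase i).erase j, f p = f k + f l := by
    intro f
    rw [← Finset.add_sum_erase _ _ hki, hl, Finset.sum_singleton]
  have hprod2 : ∀ f : Fin 4 → ℝ, ∏ p, f p = f i * (f j * (f k * f l)) := by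
    intro f
    rw [prod_split f C.hij, ← Finset.mul_prod_erase _ _ hki, hl, Finset.prod_singleton]
  have hv : x k + x l = 1 - x i - x j := by rw [← C.rest, hsum2]
  have hl0 : 0 ≤ x l := C.nn l
  have hlk' : x l ≤ x k := C.hw l hli hlj
  -- break points
  set Z := LpSec.z1 α with hZ
  set c' := Z / x k with hc'
  have hbc : Z / x j ≤ c' := by rw [hc']; gcongr
  have hcpos : 0 ≤ c' := by positivity
  have hc6 : c' ≤ 6 / x i := by
    rw [hc', div_le_div_iff₀ hk hi]
    calc Z * x i ≤ (c.ch : ℝ) / 10 ^ 8 * ((y1 : ℝ) / 4096) := by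
          have := hC.ch
          have := B.yb
          gcongr
      _ = (c.ch : ℝ) * y1 / (10 ^ 8 * 4096) := by ring
      _ ≤ 600000000 * w0 / (10 ^ 8 * 4096) := by gcongr
      _ = 6 * ((w0 : ℝ) / 4096) := by ring
      _ ≤ 6 * x k := by have := B.wa; gcongr
  set b' : ℝ := if 6 * x l ≤ Z * x i then 6 / x i else Z / x l with hb'
  have hb'1 : c' ≤ b' := by
    rw [hb']
    split_ifs with h1
    · exact hc6
    · have hl1 : 0 < x l := by
        rcases hl0.lt_or_eq with h2 | h2
        · exact h2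
        · exfalso
          apply h1
          rw [← h2, mul_zero]
          positivity
      rw [hc']
      gcongr
  have hb'2 : b' ≤ 6 / x i := by
    rw [hb']
    split_ifs with h1
    · exact le_rfl
    · rw [not_le] at h1
      have hl1 : 0 < x l := by
        have : 0 < Z * x i := by positivity
        nlinarith
      rw [div_le_div_iff₀ hl1 hi]
      linarith
  have hb'3 : x l * b' ≤ Z := by
    rw [hb']
    split_ifs with h1
    · rw [mul_div_assoc', div_le_iff₀ hi]
      linarith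
    · rw [not_le] at h1
      have hl1 : 0 < x l := by
        have : 0 < Z * x i := by positivity
        nlinarith
      rw [mul_div_assoc', div_le_iff₀ hl1]
      linarith
  have hb'0 : 0 ≤ b' := hcpos.trans hb'1
  -- the set
  set S : Set ℝ := Ioc (Z / x j) c' ∪ Ioi b' with hS
  have hSm : MeasurableSet S := measurableSet_Ioc.union measurableSet_Ioi
  have hSb : S ⊆ Ioi (Z / x j) := by
    rintro s (h1 | h1)
    · exact h1.1
    · exact lt_of_le_of_lt (hbc.trans hb'1) h1
  have hneg : ∀ s ∈ Ioi (Z / x j), s ∉ S → ∏ p, Phi α (x p * s) ≤ 0 := by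
    intro s hs hnS
    have h1 : c' < s := by
      by_contra h2
      exact hnS (Or.inl ⟨hs, not_lt.1 h2⟩)
    have h2 : s ≤ b' := by
      by_contra h3
      exact hnS (Or.inr (not_le.1 h3))
    have hs0 : 0 ≤ s := hcpos.trans h1.le
    have h3 : Z ≤ x k * s := by
      rw [hc', div_lt_iff₀ hk] at h1
      linarith
    have h4 : x i * s ≤ 6 := by
      have := h2.trans hb'2
      rw [le_div_iff₀ hi] at this
      linarith
    have h5 : x k * s ≤ x j * s := mul_le_mul_of_nonneg_right hkj hs0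
    have h6 : x j * s ≤ x i * s := mul_le_mul_of_nonneg_right C.hji hs0
    have n1 := h.neg _ (h3.trans (h5.trans h6)) h4
    have n2 := h.neg _ (h3.trans h5) (h6.trans h4)
    have n3 := h.neg _ h3 (h5.trans (h6.trans h4))
    have n4 : 0 ≤ Phi α (x l * s) := h.nonneg (mul_nonneg hl0 hs0)
      ((mul_le_mul_of_nonneg_left h2 hl0).trans hb'3)
    rw [hprod2 (fun p => Phi α (x p * s))]
    exact mul_nonpos_of_nonpos_of_nonneg n1 (mul_nonneg_of_nonpos_of_nonpos n2
      (mul_nonpos_of_nonpos_of_nonneg n3 n4))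
  -- weights
  have hW := C.wOk h hC.cc B (s0 := s0) (cap := cap) rfl rfl
  set m := s0 / cap with hm
  set r := s0 - m * cap with hr
  have hWc := hW.cut c'
  set W := restW α x i j with hWdef
  -- the part up to `c'` as an integral over the half line
  have hcut : ∀ v : ℝ, 0 < v → ∫ s in Ioc (Z / x j) c', Phi α (v * s) ^ 2 * W s =
      ∫ s in Ioi (Z / x j), Phi α (v * s) ^ 2 * (Iic c').indicator W s := by
    intro v _
    have e : (fun s => Phi α (v * s) ^ 2 * (Iic c').indicator W s) =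
        (Iic c').indicator (fun s => Phi α (v * s) ^ 2 * W s) := by
      funext s
      by_cases hs : s ∈ Iic c'
      · rw [indicator_of_mem hs, indicator_of_mem hs]
      · rw [indicator_of_notMem hs, indicator_of_notMem hs, mul_zero]
    rw [e, setIntegral_indicator measurableSet_Iic]
    congr 1
  have hsplitS : ∀ v : ℝ, 0 < v → ∫ s in S, Phi α (v * s) ^ 2 * W s =
      (∫ s in Ioc (Z / x j) c', Phi α (v * s) ^ 2 * W s) +
        ∫ s in Ioi b', Phi α (v * s) ^ 2 * W s := by
    intro v hv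
    obtain ⟨i1, -⟩ := step_two hα hv hb le_rfl (hW.anti.antitoneOn _) hW.nonneg hW.meas
    rw [hS]
    refine setIntegral_union ?_ measurableSet_Ioi
      (i1.mono_set Ioc_subset_Ioi_self) (i1.mono_set (Ioi_subset_Ioi (hbc.trans hb'1)))
    rw [Set.disjoint_left]
    intro s h1 h2
    exact absurd (h1.2.trans hb'1) (not_le.2 h2)
  -- the weight at `b'`
  set R3 : ℕ := En etab (Nat.div (Nat.mul 128 (Nat.add (Nat.mul c.cc y1) (mn (Nat.mul c.cc y1)
     (Nat.mul 600000000 v0)))) (Nat.mul 100000000 y1)) with hR3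
  have hy1n : 0 < (y1 : ℝ) := by
    have := hi.trans_le B.yb
    linarith
  have hWb' : W b' ≤ (R3 : ℝ) / 10 ^ 9 := by
    have e1 : W b' = exp (-(min (x k * b') (cc α) + min (x l * b') (cc α))) := by
      rw [hWdef]
      unfold restW
      rw [hsum2 (fun p => min (x p * b') (cc α))]
    rw [e1, hR3]
    refine En_sound ((natdiv_le _ _).trans ?_)
    have h1 : cc α ≤ x k * b' := by
      refine (cc_le α).trans ?_
      have : x k * c' ≤ x k * b' := mul_le_mul_of_nonneg_left hb'1 hk.le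
      have e2 : x k * c' = Z := by rw [hc']; field_simp
      linarith
    rw [min_eq_right h1]
    set cn : ℝ := (c.cc : ℝ) / 10 ^ 8 with hcn
    have hcn' : cn ≤ cc α := hC.cc
    have h2 : min cn (6 * v0 / y1) ≤ min (x l * b') (cc α) := by
      refine le_min ?_ ((min_le_left _ _).trans hcn')
      rw [hb']
      split_ifs with h3
      · refine (min_le_right _ _).trans ?_
        have h4 : (v0 : ℝ) / 4096 ≤ x l := by
          have h5 : x l = 1 - x i - x j - x k := by linarith
          have h6 := B.yb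
          have h7 := B.zb
          have h8 := B.wb
          rcases le_total (y1 + z1 + w1) 4096 with h9 | h9
          · have e3 : (v0 : ℝ) = 4096 - (y1 + z1 + w1) := by
              have : v0 = 4096 - (y1 + z1 + w1) := rfl
              rw [this, Nat.cast_sub h9]; push_cast; ring
            rw [e3]
            have e4 : (4096 - ((y1 : ℝ) + z1 + w1)) / 4096 =
              1 - (y1 : ℝ) / 4096 - (z1 : ℝ) / 4096 - (w1 : ℝ) / 4096 := by ring
            rw [e4]; linarith
          · have e3 : v0 = 0 := by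
              have : v0 = 4096 - (y1 + z1 + w1) := rfl
              omega
            rw [e3]
            simpa using hl0
        calc 6 * (v0 : ℝ) / y1 = (v0 : ℝ) / 4096 * (6 / ((y1 : ℝ) / 4096)) := by field_simp
          _ ≤ x l * (6 / x i) := by
            have := B.yb
            gcongr
      · refine (min_le_left _ _).trans (hcn'.trans ((cc_le α).trans ?_))
        rw [not_le] at h3
        have hl1 : 0 < x l := by
          have : 0 < Z * x i := by positivity
          nlinarith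
        rw [mul_div_assoc', le_div_iff₀ hl1]
        linarith
    have e5 : ((Nat.mul 128 (Nat.add (Nat.mul c.cc y1) (mn (Nat.mul c.cc y1)
        (Nat.mul 600000000 v0))) : ℕ) : ℝ) / ((Nat.mul 100000000 y1 : ℕ) : ℝ) =
        128 * (cn + min cn (6 * v0 / y1)) := by
      have e6 : (Nat.mul 128 (Nat.add (Nat.mul c.cc y1) (mn (Nat.mul c.cc y1)
        (Nat.mul 600000000 v0))) : ℕ) = 128 * (c.cc * y1 + min (c.cc * y1) (600000000 * v0)) := by
        rw [mn_eq]; rfl
      have e7 : (Nat.mul 100000000 y1 : ℕ) = 100000000 * y1 := rfl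
      rw [e6, e7]
      push_cast
      have e8 : min ((c.cc : ℝ) * y1) (600000000 * v0) =
          min cn (6 * v0 / y1) * (100000000 * y1) := by
        rw [min_mul_of_nonneg _ _ (by positivity)]
        congr 1
        · rw [hcn]; field_simp; norm_num
        · field_simp; ring
      rw [e8, hcn]
      field_simp
      norm_num
      ring
    rw [e5]
    linarith
  -- `T2` at `b'`
  set U : ℕ := uppT z0 v1 c.ch y1 c.T c.h with hU
  have hUs : T2 α (x j * b') ≤ (U : ℝ) / 10 ^ 8 := by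
    refine uppT_sound hα hc (fun q q1 q2 => ?_) c.T c.h ?_ hC.upp
    · rw [hb']
      split_ifs with h3
      · have q2' : (q : ℝ) * c.ch * y1 ≤ 2400000000 * z0 := by exact_mod_cast q2
        rw [mul_div_assoc', le_div_iff₀ hi]
        calc (q : ℝ) / 4 * Z * x i ≤ (q : ℝ) / 4 * ((c.ch : ℝ) / 10 ^ 8) * ((y1 : ℝ) / 4096) := by
              have := hC.ch
              have := B.yb
              gcongr
          _ = (q : ℝ) * c.ch * y1 / (4 * 10 ^ 8 * 4096) := by ring
          _ ≤ 2400000000 * z0 / (4 * 10 ^ 8 * 4096) := by gcongr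
          _ = ((z0 : ℝ) / 4096) * 6 := by ring
          _ ≤ x j * 6 := by have := B.za; gcongr
      · rw [not_le] at h3
        have hl1 : 0 < x l := by
          have : 0 < Z * x i := by positivity
          nlinarith
        have q1' : (q : ℝ) * v1 ≤ 4 * z0 := by exact_mod_cast q1
        have h4 : x l ≤ (v1 : ℝ) / 4096 := by
          have h5 : x l = 1 - x i - x j - x k := by linarith
          have h6 := sub_le_cast 4096 (y0 + z0 + w0)
          have h7 := B.ya
          have h8 := B.za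
          have h9 := B.wa
          rw [le_div_iff₀ (by norm_num)]
          have e3 : v1 = 4096 - (y0 + z0 + w0) := rfl
          rw [e3]
          push_cast at h6
          nlinarith
        rw [mul_div_assoc', le_div_iff₀ hl1]
        have h5 : (q : ℝ) / 4 * x l ≤ x j := by
          calc (q : ℝ) / 4 * x l ≤ (q : ℝ) / 4 * ((v1 : ℝ) / 4096) := by gcongr
            _ = (q : ℝ) * v1 / (4 * 4096) := by ring
            _ ≤ 4 * z0 / (4 * 4096) := by gcongr
            _ = (z0 : ℝ) / 4096 := by ring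
            _ ≤ x j := B.za
        nlinarith
    · refine (T2_anti hα hc.le ?_).trans hC.h
      have : x j * (Z / x j) ≤ x j * b' := mul_le_mul_of_nonneg_left (hbc.trans hb'1) hj.le
      have e2 : x j * (Z / x j) = Z := by field_simp
      linarith
  have hpart3 : ∀ v : ℝ, x j ≤ v → ∫ s in Ioi b', Phi α (v * s) ^ 2 * W s ≤
      ((Nat.mul R3 U : ℕ) : ℝ) / 10 ^ 17 / v := by
    intro v hvj
    have hv0' : 0 < v := hj.trans_le hvj
    refine (step_last hα hv0' hb'0 hW.anti hW.nonneg hW.meas hWb').trans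
      (div_le_div_of_nonneg_right ?_ hv0'.le)
    have h1 : T2 α (v * b') ≤ (U : ℝ) / 10 ^ 8 :=
      (T2_anti hα (by positivity) (mul_le_mul_of_nonneg_right hvj hb'0)).trans hUs
    have e2 : ((Nat.mul R3 U : ℕ) : ℝ) / 10 ^ 17 = (R3 : ℝ) / 10 ^ 9 * ((U : ℝ) / 10 ^ 8) := by
      have : Nat.mul R3 U = R3 * U := rfl
      rw [this]; push_cast; ring
    rw [e2]
    exact mul_le_mul_of_nonneg_left h1 (by positivity)
  -- scale `z`, up to `c'`
  set R : ℕ := Rn etab c.cc m cap r 4 (Nat.mul 4 z1) with hR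
  have e4 : Z / x j = ((4 : ℕ) : ℝ) / 4 * Z / x j := by push_cast; ring
  have hzpart : ∫ s in Ioc (Z / x j) c', Phi α (x j * s) ^ 2 * W s ≤
      ((Nat.sub (Nat.mul R c.h) (szS etab c.cc m cap r z1 w0 c.T R) : ℕ) : ℝ) / 10 ^ 17 / x j := by
    rw [hcut _ hj]
    have h1 := stepsS_sound hα hWc.anti hWc.nonneg hWc.meas hj hc
      (fun q => Rn etab c.cc m cap r q (4 * z1)) (fun q => Nat.ble (Nat.mul 4 z1) (Nat.mul q w0))
      (hWc.rhoz hc hj B.zb) (fun q hq s hs => ?_)
      (fun T R => szS etab c.cc m cap r z1 w0 T R) (fun R => rfl)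
      (fun p t R => szS_cons etab c.cc m cap r z1 w0 p t R) c.T (Z / x j) R
      (by positivity) (by rw [e4]; exact hWc.rhoz hc hj B.zb 4) (fun p hp => by
        have : (4 : ℝ) ≤ p.1 := by exact_mod_cast (hC.four p hp).le
        rw [e4]
        push_cast
        gcongr) hC.ord hC.low
    · refine h1.trans (div_le_div_of_nonneg_right ?_ hj.le)
      have hva : x j * (Z / x j) = Z := by field_simp
      rw [hva]
      have h3 := mul_le_mul_of_nonneg_left hC.h (show (0 : ℝ) ≤ (R : ℝ) / 10 ^ 9 by positivity)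
      have h4 := sub_le_cast (R * c.h) (szS etab c.cc m cap r z1 w0 c.T R)
      have h5 : ((R : ℝ) * c.h - szS etab c.cc m cap r z1 w0 c.T R) / 10 ^ 17 ≤
          ((Nat.sub (Nat.mul R c.h) (szS etab c.cc m cap r z1 w0 c.T R) : ℕ) : ℝ) / 10 ^ 17 := by
        have e6 : Nat.sub (Nat.mul R c.h) (szS etab c.cc m cap r z1 w0 c.T R) =
          R * c.h - szS etab c.cc m cap r z1 w0 c.T R := rfl
        rw [e6]
        refine div_le_div_of_nonneg_right ?_ (by positivity)
        push_cast at h4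
        exact h4
      have e : (R : ℝ) / 10 ^ 9 * ((c.h : ℝ) / 10 ^ 8) -
        (szS etab c.cc m cap r z1 w0 c.T R : ℝ) / 10 ^ 17 =
        ((R : ℝ) * c.h - szS etab c.cc m cap r z1 w0 c.T R) / 10 ^ 17 := by ring
      linarith
    · refine indicator_of_notMem (fun h2 => ?_) _
      have h3 : c' < s := by
        refine lt_of_le_of_lt ?_ hs
        have hq' : 4 * z1 ≤ q * w0 := ble_iff.1 hq
        have hq'' : (4 : ℝ) * z1 ≤ q * w0 := by exact_mod_cast hq'
        rw [hc', div_le_div_iff₀ hk hj]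
        have h4 : 4 * x j ≤ (q : ℝ) * x k := by
          calc 4 * x j ≤ 4 * ((z1 : ℝ) / 4096) := by have := B.zb; gcongr
            _ = 4 * z1 / 4096 := by ring
            _ ≤ q * w0 / 4096 := by gcongr
            _ = (q : ℝ) * ((w0 : ℝ) / 4096) := by ring
            _ ≤ (q : ℝ) * x k := by have := B.wa; gcongr
        nlinarith
      exact absurd h2 (not_le.2 h3)
  -- scale `y`, up to `c'`
  have hypart : ∫ s in Ioc (Z / x j) c', Phi α (x i * s) ^ 2 * W s ≤
      (NBS etab c.cc m cap r y0 y1 z1 w0 c.T 4 c.h : ℝ) / 10 ^ 17 / x i := by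
    rw [hcut _ hi]
    refine NB_gen hα hWc.anti hWc.nonneg hWc.meas hi hc (fun q => Ry etab c.cc m cap r y1 z1 q)
      (fun q => Nat.ble (Nat.mul 4 y1) (Nat.mul q w0)) (hWc.rhoy hc hi hj B.yb B.zb)
      (fun q hq s hs => ?_)
      (fun T R => syS etab c.cc m cap r y1 z1 w0 T R) (fun R => rfl)
      (fun p t R => syS_cons etab c.cc m cap r y1 z1 w0 p t R)
      (fun q => Nat.ble (Nat.mul q z1) (Nat.mul 4 y0)) (fun q hq => ?_)
      (fun T q H => NBS etab c.cc m cap r y0 y1 z1 w0 T q H)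
      (fun q H => NBS_nil _ _ _ _ _ _ _ _ _ _ _)
      (fun p t q H => NBS_cons _ _ _ _ _ _ _ _ _ _ _ _ _) c.T 4 c.h ?_ ?_ hC.four hC.ord hC.upp
      hC.low
    · refine indicator_of_notMem (fun h2 => ?_) _
      have h3 : c' < max s (Z / x j) := by
        refine lt_of_lt_of_le (lt_of_le_of_lt ?_ hs) (le_max_left _ _)
        have hq' : 4 * y1 ≤ q * w0 := ble_iff.1 hq
        have hq'' : (4 : ℝ) * y1 ≤ q * w0 := by exact_mod_cast hq'
        rw [hc', div_le_div_iff₀ hk hi]
        have h4 : 4 * x i ≤ (q : ℝ) * x k := by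
          calc 4 * x i ≤ 4 * ((y1 : ℝ) / 4096) := by have := B.yb; gcongr
            _ = 4 * y1 / 4096 := by ring
            _ ≤ q * w0 / 4096 := by gcongr
            _ = (q : ℝ) * ((w0 : ℝ) / 4096) := by ring
            _ ≤ (q : ℝ) * x k := by have := B.wa; gcongr
        nlinarith
      exact absurd h2 (not_le.2 h3)
    · have hq' : q * z1 ≤ 4 * y0 := ble_iff.1 hq
      have hq'' : (q : ℝ) * z1 ≤ 4 * y0 := by exact_mod_cast hq'
      rw [div_le_div_iff₀ hi hj]
      have h1 : (q : ℝ) * x j ≤ 4 * x i := by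
        calc (q : ℝ) * x j ≤ q * ((z1 : ℝ) / 4096) := by have := B.zb; gcongr
          _ = (q : ℝ) * z1 / 4096 := by ring
          _ ≤ 4 * y0 / 4096 := by gcongr
          _ = 4 * ((y0 : ℝ) / 4096) := by ring
          _ ≤ 4 * x i := by have := B.ya; gcongr
      nlinarith
    · push_cast
      rw [div_self (by norm_num), one_mul]
      exact div_le_div_of_nonneg_left hc.le hj C.hji
    · push_cast
      rw [div_self (by norm_num), one_mul]
      exact hC.h
  -- together
  set C3 : ℕ := Nat.mul R3 U with hC3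
  set Av : ℕ := Nat.add (Nat.sub (Nat.mul R c.h) (szS etab c.cc m cap r z1 w0 c.T R)) C3 with hAv
  set Bv : ℕ := Nat.add (NBS etab c.cc m cap r y0 y1 z1 w0 c.T 4 c.h) C3 with hBv
  have hA : ∫ s in S, Phi α (x i * s) ^ 2 * W s ≤ (Bv : ℝ) / 10 ^ 17 / x i := by
    rw [hsplitS _ hi]
    have e : (Bv : ℝ) / 10 ^ 17 / x i = (NBS etab c.cc m cap r y0 y1 z1 w0 c.T 4 c.h : ℝ) /
        10 ^ 17 / x i + (C3 : ℝ) / 10 ^ 17 / x i := by
      have : Bv = NBS etab c.cc m cap r y0 y1 z1 w0 c.T 4 c.h + C3 := rfl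
      rw [this]; push_cast; ring
    rw [e]
    exact add_le_add hypart (hpart3 _ C.hji)
  have hB : ∫ s in S, Phi α (x j * s) ^ 2 * W s ≤ (Av : ℝ) / 10 ^ 17 / x j := by
    rw [hsplitS _ hj]
    have e : (Av : ℝ) / 10 ^ 17 / x j =
        ((Nat.sub (Nat.mul R c.h) (szS etab c.cc m cap r z1 w0 c.T R) : ℕ) : ℝ) / 10 ^ 17 / x j +
        (C3 : ℝ) / 10 ^ 17 / x j := by
      have : Av = (Nat.sub (Nat.mul R c.h) (szS etab c.cc m cap r z1 w0 c.T R)) + C3 := rfl
      rw [this]; push_cast; ring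
    rw [e]
    exact add_le_add hzpart (hpart3 _ le_rfl)
  have ht' : fin c etab y0 y1 z0 z0 Av Bv g = true := ht
  set P := (Bv : ℝ) / 10 ^ 17 / x i * ((Av : ℝ) / 10 ^ 17 / x j) with hP
  have hP0 : 0 ≤ P := by positivity
  have hPle : P * ((z0 : ℝ) / 4096 * ((y0 : ℝ) / 4096)) ≤ (Av : ℝ) * Bv / 10 ^ 34 := by
    have hy0 : (y0 : ℝ) / 4096 / x i ≤ 1 := by rw [div_le_one hi]; exact B.ya
    have hz0'' : (z0 : ℝ) / 4096 / x j ≤ 1 := by rw [div_le_one hj]; exact B.za
    calc P * ((z0 : ℝ) / 4096 * ((y0 : ℝ) / 4096))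
        = (Av : ℝ) * Bv / 10 ^ 34 * ((z0 : ℝ) / 4096 / x j) * ((y0 : ℝ) / 4096 / x i) := by
          rw [hP]; ring
      _ ≤ (Av : ℝ) * Bv / 10 ^ 34 * 1 * 1 := by gcongr
      _ = _ := by ring
  obtain ⟨Xe, Xt, g1, g2, g3, g4⟩ := fin_sound (z0 := z0) hα hc hC.ch hC.h6 hy1 B.ya B.yb B.za
    hi hP0 hPle ht'
  exact ⟨Xe, Xt, g1, ml_tail_set h C.nn C.hij hi hj hb hSm hSb hneg hA hB g2 g3, g4⟩

end LpSec.ML
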