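import Mathlib
import Pool.Agent.Lib.MP_1dbab3_gt.W.M12

/-!
# Soundness of the box checker, part 6: lower bounds of the power sums in a box
-/

open Real MeasureTheory Set Filter Topology

namespace LpSec.ML

variable {α : ℝ}

/-- the comparison with the flat point, with inequalities for the coefficients -/
theorem J_le_flat' (h : Lobe α) (h4 : Conc4 α) {n n0 : ℕ} (hn0 : 1 ≤ n0) (hn : n0 ≤ n)
    {x : Fin n → ℝ} (hx : ∀ k, 0 ≤ x k) (h1 : ∑ k, x k = 1) {i j : Fin n} (hij : i ≠ j)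
    (hz : ∀ k, k ≠ i → x k ≤ x j) (hj : 0 < x j) (hji : x j ≤ x i) (hy1 : 1 ≤ n0 * x i)
    {κ0 κ1 a b d W t0 Xe Xt : ℝ}
    (hκ0 : 0 ≤ κ0) (hκ0' : κ0 ≤ k0 α) (hκ1 : 0 ≤ κ1) (hκ1' : κ1 ≤ k1 α)
    (ha0 : 0 ≤ a) (hb0 : 0 ≤ b) (hd0 : 0 ≤ d)
    (ha : a ≤ κ0 * (∑ k, x k ^ 2 - 1 / n) * n0 ^ 2 / 2)
    (hb : b ≤ κ1 * (∑ k, x k ^ 3 - 1 / n ^ 2) * n0 ^ 3 / 6)
    (hd : d ≤ κ0 ^ 2 * (∑ k, x k ^ 4 - 1 / n ^ 3) * n0 ^ 4 / 8)
    (ht0 : z1 α ≤ t0 * (n0 * x i)) (ht0' : t0 ≤ z1 α) (hW : W ≤ Wm α n0 t0)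
    (hXe : ExtraOk α (x i) (x j) Xe)
    (hXt : ∫ s in Ioi (z1 α / x j), ∏ k, Phi α (x k * s) ≤ Xt) :
    J α x ≤ n * Im α n 0 - n0 * (Gq α n0 a b d + W / 2) + Xe + Xt := by
  have p0 : (0 : ℝ) < n0 := by exact_mod_cast hn0
  have pn : (0 : ℝ) < n := by exact_mod_cast (by omega : 0 < n)
  have key : ∀ (κ S V e m : ℝ), 0 ≤ κ → 0 ≤ V → 0 < m → e ≤ κ * S * m → 0 ≤ e → 0 ≤ S →
      V = e / (κ * m) → V ≤ S ∧ e = κ * V * m := by
    intro κ S V e m hκ hV hm he he0 hS hVe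
    rcases hκ.lt_or_eq with h5 | h5
    · refine ⟨?_, ?_⟩
      · rw [hVe, div_le_iff₀ (by positivity)]
        linarith
      · rw [hVe]; field_simp
    · rw [← h5] at he hVe ⊢
      simp only [zero_mul] at he hVe ⊢
      rw [div_zero] at hVe
      exact ⟨hVe ▸ hS, le_antisymm he he0⟩
  have hpos : ∀ q : ℕ, 0 ≤ ∑ k, x k ^ (q + 1) - 1 / (n : ℝ) ^ q := by
    intro q
    have h5 := pow_sum_div_card_le_sum_pow (s := (Finset.univ : Finset (Fin n))) (f := x)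
      (fun k _ => hx k) q
    rw [h1, one_pow, Finset.card_univ, Fintype.card_fin] at h5
    linarith
  have q2 := hpos 1
  have q3 := hpos 2
  have q4 := hpos 3
  rw [pow_one] at q2
  obtain ⟨a1, a2⟩ := key κ0 (∑ k, x k ^ 2 - 1 / n) (a / (κ0 * (n0 ^ 2 / 2))) a (n0 ^ 2 / 2) hκ0
    (by positivity) (by positivity) (by linarith) ha0 q2 rfl
  obtain ⟨b1, b2⟩ := key κ1 (∑ k, x k ^ 3 - 1 / n ^ 2) (b / (κ1 * (n0 ^ 3 / 6))) b (n0 ^ 3 / 6) hκ1
    (by positivity) (by positivity) (by linarith) hb0 q3 rfl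
  obtain ⟨d1, d2⟩ := key (κ0 ^ 2) (∑ k, x k ^ 4 - 1 / n ^ 3) (d / (κ0 ^ 2 * (n0 ^ 4 / 8))) d
    (n0 ^ 4 / 8) (by positivity) (by positivity) (by positivity) (by linarith) hd0 q4 rfl
  exact J_le_flat_signed h h4 hn0 hn hx h1 hij hz hj hji hy1 hκ0 hκ0' hκ1 hκ1' a1 b1 d1
    (by positivity) (by positivity) (by positivity) (by rw [mul_div_assoc]; exact a2)
    (by rw [mul_div_assoc]; exact b2) (by rw [mul_div_assoc]; exact d2) ht0 ht0' hW hXe hXt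

/-! ## tangent inequalities -/

/-- `a` is an admissible value for the coordinate `x` next to the common value `b` -/
def Adm (a x b : ℝ) : Prop := (b ≤ a ∧ a ≤ x) ∨ (0 ≤ a ∧ a ≤ b ∧ x ≤ a) ∨ a = b

theorem tang {p : ℕ} (hp : p = 2 ∨ p = 3 ∨ p = 4) {x a : ℝ} (hx : 0 ≤ x) (ha : 0 ≤ a) :
    a ^ p + p * a ^ (p - 1) * (x - a) ≤ x ^ p := by
  rcases hp with rfl | rfl | rfl
  · norm_num
    nlinarith [sq_nonneg (x - a)]
  · norm_num
    have : 0 ≤ (x - a) ^ 2 * (x + 2 * a) := by positivity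
    nlinarith
  · norm_num
    have : 0 ≤ (x - a) ^ 2 * (x ^ 2 + 2 * a * x + 3 * a ^ 2) := by positivity
    nlinarith

theorem Adm.tang {p : ℕ} (hp : p = 2 ∨ p = 3 ∨ p = 4) {a x b : ℝ} (h : Adm a x b) (hx : 0 ≤ x)
    (hb : 0 ≤ b) : a ^ p + p * b ^ (p - 1) * (x - a) ≤ x ^ p := by
  rcases h with ⟨h1, h2⟩ | ⟨h0, h1, h2⟩ | rfl
  · have h3 := ML.tang hp hx (hb.trans h1)
    have h4 : b ^ (p - 1) ≤ a ^ (p - 1) := pow_le_pow_left₀ hb h1 _
    have h5 : (p : ℝ) * b ^ (p - 1) * (x - a) ≤ p * a ^ (p - 1) * (x - a) := by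
      have := sub_nonneg.2 h2
      gcongr
    linarith
  · have h3 := ML.tang hp hx h0
    have h4 : a ^ (p - 1) ≤ b ^ (p - 1) := pow_le_pow_left₀ h0 h1 _
    have h5 : (p : ℝ) * b ^ (p - 1) * (x - a) ≤ p * a ^ (p - 1) * (x - a) := by
      have h6 : 0 ≤ a - x := sub_nonneg.2 h2
      have h7 : (p : ℝ) * a ^ (p - 1) * (a - x) ≤ p * b ^ (p - 1) * (a - x) := by gcongr
      linarith
    linarith
  · exact ML.tang hp hx hb

/-- sum over the other coordinates -/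
theorem rest_tang {ι : Type*} {p : ℕ} (hp : p = 2 ∨ p = 3 ∨ p = 4) (S : Finset ι) {x : ι → ℝ}
    (hx : ∀ l ∈ S, 0 ≤ x l) {b : ℝ} (hb : 0 ≤ b) :
    (S.card : ℝ) * b ^ p + p * b ^ (p - 1) * (∑ l ∈ S, x l - S.card * b) ≤ ∑ l ∈ S, x l ^ p := by
  have h1 : ∑ l ∈ S, (b ^ p + p * b ^ (p - 1) * (x l - b)) ≤ ∑ l ∈ S, x l ^ p :=
    Finset.sum_le_sum fun l hl => tang hp (hx l hl) hb
  rw [Finset.sum_add_distrib, Finset.sum_const, nsmul_eq_mul, ← Finset.mul_sum,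
    Finset.sum_sub_distrib, Finset.sum_const, nsmul_eq_mul] at h1
  exact h1

theorem Cfg.k_mem {n : ℕ} {x : Fin n → ℝ} {i j k : Fin n} (C : Cfg x i j k) :
    k ∈ (Finset.univ.erase i).erase j :=
  Finset.mem_erase.2 ⟨C.hjk.symm, Finset.mem_erase.2 ⟨C.hik.symm, Finset.mem_univ k⟩⟩

theorem Cfg.card3 {n : ℕ} {x : Fin n → ℝ} {i j k : Fin n} (C : Cfg x i j k) :
    (((Finset.univ.erase i).erase j).erase k).card = n - 3 := by
  rw [Finset.card_erase_of_mem C.k_mem, Finset.card_erase_of_mem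
    (Finset.mem_erase.2 ⟨C.hij.symm, Finset.mem_univ j⟩),
    Finset.card_erase_of_mem (Finset.mem_univ i), Finset.card_univ, Fintype.card_fin]
  omega

theorem Cfg.three_le {n : ℕ} {x : Fin n → ℝ} {i j k : Fin n} (C : Cfg x i j k) : 3 ≤ n := by
  have h1 := i.isLt
  have h2 := j.isLt
  have h3 := k.isLt
  have h4 : (i : ℕ) ≠ j := fun h => C.hij (Fin.ext h)
  have h5 : (i : ℕ) ≠ k := fun h => C.hik (Fin.ext h)
  have h6 : (j : ℕ) ≠ k := fun h => C.hjk (Fin.ext h)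
  omega

/-- **three admissible values** -/
theorem corner3 {n : ℕ} {x : Fin n → ℝ} {i j k : Fin n} (C : Cfg x i j k) {a1 a2 a3 b : ℝ}
    (hb : 0 ≤ b) (h1 : Adm a1 (x i) b) (h2 : Adm a2 (x j) b) (h3 : Adm a3 (x k) b)
    (hs : a1 + a2 + a3 + (n - 3) * b ≤ 1) {p : ℕ} (hp : p = 2 ∨ p = 3 ∨ p = 4) :
    a1 ^ p + a2 ^ p + a3 ^ p + (n - 3) * b ^ p ≤ ∑ l, x l ^ p := by
  have hn := C.three_le
  have hc : ((((Finset.univ.erase i).erase j).erase k).card : ℝ) = n - 3 := by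
    rw [C.card3, Nat.cast_sub hn]; norm_num
  have e1 : ∀ f : Fin n → ℝ, ∑ l, f l = f i + (f j + (f k +
      ∑ l ∈ ((Finset.univ.erase i).erase j).erase k, f l)) := by
    intro f
    rw [sum_split f C.hij, Finset.add_sum_erase _ _ C.k_mem]
  have h4 := rest_tang hp (((Finset.univ.erase i).erase j).erase k) (x := x)
    (fun l _ => C.nn l) hb
  have h5 := h1.tang hp (C.nn i) hb
  have h6 := h2.tang hp (C.nn j) hb
  have h7 := h3.tang hp (C.nn k) hb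
  rw [hc] at h4
  rw [e1 (fun l => x l ^ p)]
  have h8 := e1 x
  rw [C.sum] at h8
  have h9 : 0 ≤ (p : ℝ) * b ^ (p - 1) * (1 - (a1 + a2 + a3 + (n - 3) * b)) :=
    mul_nonneg (by positivity) (by linarith)
  set S := ∑ l ∈ ((Finset.univ.erase i).erase j).erase k, x l
  have e2 : (p : ℝ) * b ^ (p - 1) * (1 - (a1 + a2 + a3 + (n - 3) * b)) =
    p * b ^ (p - 1) * (x i - a1) + p * b ^ (p - 1) * (x j - a2) + p * b ^ (p - 1) * (x k - a3) +
      p * b ^ (p - 1) * (S - (n - 3) * b) := by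
    rw [h8]; ring
  linarith

/-- **four admissible values** -/
theorem corner4 {n : ℕ} {x : Fin n → ℝ} {i j k : Fin n} (C : Cfg x i j k) {l : Fin n}
    (hl : l ∈ ((Finset.univ.erase i).erase j).erase k) {a1 a2 a3 a4 b : ℝ}
    (hb : 0 ≤ b) (h1 : Adm a1 (x i) b) (h2 : Adm a2 (x j) b) (h3 : Adm a3 (x k) b)
    (h4 : Adm a4 (x l) b)
    (hs : a1 + a2 + a3 + a4 + (n - 4) * b ≤ 1) {p : ℕ} (hp : p = 2 ∨ p = 3 ∨ p = 4) :
    a1 ^ p + a2 ^ p + a3 ^ p + a4 ^ p + (n - 4) * b ^ p ≤ ∑ l, x l ^ p := by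
  have hn := C.three_le
  have hcard := C.card3
  have hn4 : 4 ≤ n := by
    have : 0 < (((Finset.univ.erase i).erase j).erase k).card := Finset.card_pos.2 ⟨l, hl⟩
    omega
  have hc : (((((Finset.univ.erase i).erase j).erase k).erase l).card : ℝ) = n - 4 := by
    rw [Finset.card_erase_of_mem hl, C.card3, show n - 3 - 1 = n - 4 by omega, Nat.cast_sub hn4]
    norm_num
  have e1 : ∀ f : Fin n → ℝ, ∑ l, f l = f i + (f j + (f k + (f l +
      ∑ l ∈ (((Finset.univ.erase i).erase j).erase k).erase l, f l))) := by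
    intro f
    rw [sum_split f C.hij, Finset.add_sum_erase _ _ hl, Finset.add_sum_erase _ _ C.k_mem]
  have h4' := rest_tang hp ((((Finset.univ.erase i).erase j).erase k).erase l) (x := x)
    (fun l _ => C.nn l) hb
  have h5 := h1.tang hp (C.nn i) hb
  have h6 := h2.tang hp (C.nn j) hb
  have h7 := h3.tang hp (C.nn k) hb
  have h7' := h4.tang hp (C.nn l) hb
  rw [hc] at h4'
  rw [e1 (fun l => x l ^ p)]
  have h8 := e1 x
  rw [C.sum] at h8
  have h9 : 0 ≤ (p : ℝ) * b ^ (p - 1) * (1 - (a1 + a2 + a3 + a4 + (n - 4) * b)) :=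
    mul_nonneg (by positivity) (by linarith)
  set S := ∑ l ∈ (((Finset.univ.erase i).erase j).erase k).erase l, x l
  have e2 : (p : ℝ) * b ^ (p - 1) * (1 - (a1 + a2 + a3 + a4 + (n - 4) * b)) =
    p * b ^ (p - 1) * (x i - a1) + p * b ^ (p - 1) * (x j - a2) + p * b ^ (p - 1) * (x k - a3) +
      p * b ^ (p - 1) * (x l - a4) + p * b ^ (p - 1) * (S - (n - 4) * b) := by
    rw [h8]; ring
  linarith

/-! ## dimension at least seven -/

theorem big_ineq {p : ℕ} (hp : p = 2 ∨ p = 3 ∨ p = 4) {c t r : ℝ} (hc : 0 < c) (hc7 : c ≤ 7)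
    (ht : 0 ≤ t) (hr : 0 ≤ r) (hr7 : 7 * r ≤ c) :
    r ^ p / c ^ (p - 1) - 1 / 7 ^ (p - 1) ≤ r ^ p / (c + t) ^ (p - 1) - 1 / (7 + t) ^ (p - 1) := by
  set X := c / (c + t) with hX
  set Y := 7 / (7 + t) with hY
  have hct : 0 < c + t := by linarith
  have h7t : 0 < 7 + t := by linarith
  have hX0 : 0 ≤ X := by positivity
  have hX1 : X ≤ 1 := by rw [hX, div_le_one hct]; linarith
  have hXY : X ≤ Y := by
    rw [hX, hY, div_le_div_iff₀ hct h7t]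
    nlinarith
  have hY0 : 0 ≤ Y := by positivity
  have hY1 : Y ≤ 1 := by rw [hY, div_le_one h7t]; linarith
  have eX : c * (1 - X) = t * X := by rw [hX]; field_simp; ring
  have eY : 7 * (1 - Y) = t * Y := by rw [hY]; field_simp; ring
  have hrc : r ≤ c / 7 := by linarith
  have e1 : r ^ p / c ^ (p - 1) - r ^ p / (c + t) ^ (p - 1) =
      r ^ p / c ^ (p - 1) * (1 - X ^ (p - 1)) := by
    rw [hX, div_pow]; field_simp
  have e2 : 1 / (7 : ℝ) ^ (p - 1) - 1 / (7 + t) ^ (p - 1) = 1 / 7 ^ (p - 1) * (1 - Y ^ (p - 1)) := by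
    rw [hY, div_pow]; field_simp
  have hXp : 0 ≤ 1 - X ^ (p - 1) := by
    have := pow_le_one₀ (n := p - 1) hX0 hX1
    linarith
  have h1 : r ^ p / c ^ (p - 1) * (1 - X ^ (p - 1)) ≤
      (c / 7) ^ p / c ^ (p - 1) * (1 - X ^ (p - 1)) := by gcongr
  have h2 : (c / 7) ^ p / c ^ (p - 1) * (1 - X ^ (p - 1)) ≤ 1 / 7 ^ (p - 1) * (1 - Y ^ (p - 1)) := by
    have e3 : (c / 7) ^ p / c ^ (p - 1) = c / 7 ^ p := by
      rcases hp with rfl | rfl | rfl <;> (norm_num; field_simp; norm_num)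
    have e4 : 1 / (7 : ℝ) ^ (p - 1) = 7 / 7 ^ p := by
      rcases hp with rfl | rfl | rfl <;> norm_num
    rw [e3, e4, div_mul_eq_mul_div, div_mul_eq_mul_div]
    refine div_le_div_of_nonneg_right ?_ (by positivity)
    rcases hp with rfl | rfl | rfl
    · norm_num
      rw [eX, eY]
      gcongr
    · norm_num
      have e5 : c * (1 - X ^ 2) = t * X * (1 + X) := by rw [← eX]; ring
      have e6 : 7 * (1 - Y ^ 2) = t * Y * (1 + Y) := by rw [← eY]; ring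
      rw [e5, e6]
      gcongr
    · norm_num
      have e5 : c * (1 - X ^ 3) = t * X * (1 + X + X ^ 2) := by rw [← eX]; ring
      have e6 : 7 * (1 - Y ^ 3) = t * Y * (1 + Y + Y ^ 2) := by rw [← eY]; ring
      rw [e5, e6]
      gcongr
  linarith

/-- the dimension of the tables and the dimension of the point -/
def Dim (n0 n : ℕ) : Prop := n0 = n ∨ (n0 = 7 ∧ 7 ≤ n)

theorem Dim.le {n0 n : ℕ} (h : Dim n0 n) : n0 ≤ n := by
  rcases h with rfl | ⟨rfl, h⟩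
  · exact le_rfl
  · exact h

theorem V_le {n0 n m : ℕ} (hd : Dim n0 n) (hm : m < n0) {p : ℕ} (hp : p = 2 ∨ p = 3 ∨ p = 4)
    {R s X : ℝ} (hR : 0 ≤ R) (h7 : n0 ≠ n → 7 * R ≤ 7 - m)
    (h : s + R ^ p / ((n : ℝ) - m) ^ (p - 1) ≤ X) :
    s + R ^ p / ((n0 : ℝ) - m) ^ (p - 1) - 1 / (n0 : ℝ) ^ (p - 1) ≤ X - 1 / (n : ℝ) ^ (p - 1) := by
  rcases hd with rfl | ⟨h0, h1⟩
  · linarith
  · by_cases h2 : n0 = n
    · rw [h2]; linarith
    · have h3 := h7 h2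
      subst h0
      have hm' : (m : ℝ) < 7 := by exact_mod_cast hm
      have hn7 : (7 : ℝ) ≤ n := by exact_mod_cast h1
      have hm0 : (0 : ℝ) ≤ m := by positivity
      have h4 := big_ineq hp (c := 7 - m) (t := n - 7) (r := R) (by linarith) (by linarith)
        (by linarith) hR h3
      have e1 : (7 : ℝ) - m + (n - 7) = n - m := by ring
      have e2 : (7 : ℝ) + (n - 7) = n := by ring
      rw [e1, e2] at h4
      push_cast
      linarith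

end LpSec.ML
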