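import Mathlib
import Pool.Agent.Lib.MP_1dbab3_gt.W.M13

/-!
# Soundness of the box checker, part 7: the corner
-/

open Real MeasureTheory Set Filter Topology

namespace LpSec.ML

variable {α : ℝ}

theorem cast_sub_eq (a b : ℕ) : ((a - b : ℕ) : ℝ) = max ((a : ℝ) - b) 0 := by
  rcases le_total b a with h | h
  · have : (b : ℝ) ≤ a := by exact_mod_cast h
    rw [Nat.cast_sub h, max_eq_left (by linarith)]
  · have : (a : ℝ) ≤ b := by exact_mod_cast h
    rw [Nat.sub_eq_zero_of_le h, max_eq_right (by linarith)]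
    norm_num

theorem cond_split {c a b : Bool} (h : cond c a b = true) :
    (c = true ∧ a = true) ∨ (c = false ∧ b = true) := by
  cases c with
  | true => exact Or.inl ⟨rfl, h⟩
  | false => exact Or.inr ⟨rfl, h⟩

/-- one coefficient -/
theorem coef_aux {K N ν q f : ℕ} {x D : ℝ} (hq : 0 < q) (hf : 0 < f) (hD : 0 ≤ D)
    (hx : 0 < ν → (N : ℝ) ≤ x * D * (ν * q)) (hx0 : 0 ≤ x) :
    ((1000000 * K * N / (f * ν * q) : ℕ) : ℝ) / 10 ^ 6 ≤ K / f * D * x := by
  have hf' : (0 : ℝ) < f := by exact_mod_cast hf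
  have hq' : (0 : ℝ) < q := by exact_mod_cast hq
  rcases Nat.eq_zero_or_pos ν with h0 | h0
  · rw [h0, Nat.mul_zero, Nat.zero_mul, Nat.div_zero]
    push_cast
    rw [zero_div]
    positivity
  · have h0' : (0 : ℝ) < ν := by exact_mod_cast h0
    have h1 := hx h0
    have h2 := natdiv_le (1000000 * K * N) (f * ν * q)
    rw [div_le_iff₀ (by positivity)]
    refine h2.trans ?_
    push_cast
    rw [div_le_iff₀ (by positivity)]
    calc (1000000 : ℝ) * K * N ≤ 1000000 * K * (x * D * (ν * q)) := by gcongr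
      _ = K / f * D * x * 10 ^ 6 * (f * ν * q) := by field_simp; norm_num; ring

theorem abd_sound {c : CellD} {n ν s2 s3 s4 r : ℕ} {k : ℕ → ℕ → ℕ → Bool} (hn : 0 < n)
    {D2 D3 D4 : ℝ} (h2 : 0 ≤ D2) (h3 : 0 ≤ D3) (h4 : 0 ≤ D4)
    (hV : 0 < ν → ((s2 : ℝ) + r ^ 2 / ν) / 4096 ^ 2 - 1 / n ≤ D2 ∧
      ((s3 : ℝ) + r ^ 3 / ν ^ 2) / 4096 ^ 3 - 1 / n ^ 2 ≤ D3 ∧
      ((s4 : ℝ) + r ^ 4 / ν ^ 3) / 4096 ^ 4 - 1 / n ^ 3 ≤ D4)
    (h : abd c n ν s2 s3 s4 r k = true) :
    ∃ a b d : ℕ, k a b d = true ∧ (a : ℝ) / 10 ^ 6 ≤ (c.k0 : ℝ) / 10 ^ 8 * D2 * n ^ 2 / 2 ∧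
      (b : ℝ) / 10 ^ 6 ≤ (c.k1 : ℝ) / 10 ^ 8 * D3 * n ^ 3 / 6 ∧
      (d : ℝ) / 10 ^ 6 ≤ ((c.k0 : ℝ) / 10 ^ 8) ^ 2 * D4 * n ^ 4 / 8 := by
  unfold abd at h
  rw [fc_eq, fc_eq, fc_eq, fc_eq, fc_eq, fc_eq] at h
  have hn' : (0 : ℝ) < n := by exact_mod_cast hn
  refine ⟨_, _, _, h, ?_, ?_, ?_⟩
  · set N : ℕ := n * n * (ν * s2 + r * r) - n * ν * 16777216 with hN
    have h5 := coef_aux (K := c.k0) (N := N) (ν := ν) (q := 16777216) (f := 200000000)
      (x := (n : ℝ) ^ 2) (by norm_num) (by norm_num) h2 (fun h0 => by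
        have h0' : (0 : ℝ) < ν := by exact_mod_cast h0
        rw [hN, cast_sub_eq]
        refine max_le ?_ (by positivity)
        have h6 := (hV h0).1
        have e : (((n * n * (ν * s2 + r * r) : ℕ) : ℝ) - ((n * ν * 16777216 : ℕ) : ℝ)) =
          (n : ℝ) ^ 2 * (((s2 : ℝ) + r ^ 2 / ν) / 4096 ^ 2 - 1 / n) * (ν * 16777216) := by
          push_cast
          field_simp
          norm_num
          ring
        rw [e]
        push_cast
        gcongr) (by positivity)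
    refine le_trans (le_of_eq ?_) (h5.trans (le_of_eq ?_))
    · rfl
    · push_cast; ring
  · set N : ℕ := n * n * n * (ν * ν * s3 + r * r * r) - n * (ν * ν) * 68719476736 with hN
    have h5 := coef_aux (K := c.k1) (N := N) (ν := ν * ν) (q := 68719476736) (f := 600000000)
      (x := (n : ℝ) ^ 3) (by norm_num) (by norm_num) h3 (fun h0 => by
        have h00 : 0 < ν := Nat.pos_of_ne_zero (by rintro rfl; simp at h0)
        have h0' : (0 : ℝ) < ν := by exact_mod_cast h00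
        rw [hN, cast_sub_eq]
        refine max_le ?_ (by positivity)
        have h6 := (hV h00).2.1
        have e : (((n * n * n * (ν * ν * s3 + r * r * r) : ℕ) : ℝ) -
          ((n * (ν * ν) * 68719476736 : ℕ) : ℝ)) =
          (n : ℝ) ^ 3 * (((s3 : ℝ) + r ^ 3 / ν ^ 2) / 4096 ^ 3 - 1 / n ^ 2) *
            (((ν * ν : ℕ) : ℝ) * 68719476736) := by
          push_cast
          field_simp
          norm_num
          ring
        rw [e]
        push_cast
        gcongr) (by positivity)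
    refine le_trans (le_of_eq ?_) (h5.trans (le_of_eq ?_))
    · rfl
    · push_cast; ring
  · set N : ℕ := n * n * (n * n) * (ν * ν * ν * s4 + r * r * (r * r)) -
      n * (ν * ν * ν) * 281474976710656 with hN
    have h5 := coef_aux (K := c.k0 * c.k0) (N := N) (ν := ν * ν * ν) (q := 281474976710656)
      (f := 80000000000000000)
      (x := (n : ℝ) ^ 4) (by norm_num) (by norm_num) h4 (fun h0 => by
        have h00 : 0 < ν := Nat.pos_of_ne_zero (by rintro rfl; simp at h0)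
        have h0' : (0 : ℝ) < ν := by exact_mod_cast h00
        rw [hN, cast_sub_eq]
        refine max_le ?_ (by positivity)
        have h6 := (hV h00).2.2
        have e : (((n * n * (n * n) * (ν * ν * ν * s4 + r * r * (r * r)) : ℕ) : ℝ) -
          ((n * (ν * ν * ν) * 281474976710656 : ℕ) : ℝ)) =
          (n : ℝ) ^ 4 * (((s4 : ℝ) + r ^ 4 / ν ^ 3) / 4096 ^ 4 - 1 / n ^ 3) *
            (((ν * ν * ν : ℕ) : ℝ) * 281474976710656) := by
          push_cast
          field_simp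
          norm_num
          ring
        rw [e]
        push_cast
        gcongr) (by positivity)
    refine le_trans (le_of_eq ?_) (h5.trans (le_of_eq ?_))
    · have e : (1000000 * (c.k0 * c.k0) * N) = (1000000 * c.k0 * c.k0 * N) := by ring
      rw [e]
      rfl
    · push_cast; ring

/-- ordinary corner in a box, real form -/
theorem ord_gen {n : ℕ} {x : Fin n → ℝ} {i j k : Fin n} (C : Cfg x i j k) {n0 m : ℕ}
    (hd : Dim n0 n) (hm : m < n0) {p : ℕ} (hp : p = 2 ∨ p = 3 ∨ p = 4) {R s A1 A2 A3 b : ℝ}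
    (hR : 0 ≤ R) (h7 : n0 ≠ n → 7 * R ≤ 7 - m) (hb : b = R / ((n : ℝ) - m))
    (h1 : Adm A1 (x i) b) (h2 : Adm A2 (x j) b) (h3 : Adm A3 (x k) b)
    (hs : A1 + A2 + A3 + (n - 3) * b ≤ 1)
    (he : s + ((n : ℝ) - m) * b ^ p = A1 ^ p + A2 ^ p + A3 ^ p + (n - 3) * b ^ p) :
    s + R ^ p / ((n0 : ℝ) - m) ^ (p - 1) - 1 / (n0 : ℝ) ^ (p - 1) ≤
      ∑ l, x l ^ p - 1 / (n : ℝ) ^ (p - 1) := by
  have hmn : (0 : ℝ) < (n : ℝ) - m := by
    have : m < n := lt_of_lt_of_le hm hd.le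
    have : (m : ℝ) < n := by exact_mod_cast this
    linarith
  have hb0 : 0 ≤ b := by rw [hb]; positivity
  have h5 := corner3 C hb0 h1 h2 h3 hs hp
  refine V_le hd hm hp hR h7 ?_
  have e : R ^ p / ((n : ℝ) - m) ^ (p - 1) = ((n : ℝ) - m) * b ^ p := by
    rw [hb, div_pow]
    rcases hp with rfl | rfl | rfl <;> (norm_num; field_simp)
  rw [e, he]
  exact h5

/-- corner with a bound of the minimum, real form -/
theorem low_gen {n : ℕ} {x : Fin n → ℝ} {i j k : Fin n} (C : Cfg x i j k) {l : Fin n}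
    (hl : l ∈ ((Finset.univ.erase i).erase j).erase k) {m : ℕ}
    (hm : m < n) {p : ℕ} (hp : p = 2 ∨ p = 3 ∨ p = 4) {R s A1 A2 A3 A4 b : ℝ}
    (hR : 0 ≤ R) (hb : b = R / ((n : ℝ) - m))
    (h1 : Adm A1 (x i) b) (h2 : Adm A2 (x j) b) (h3 : Adm A3 (x k) b) (h4 : Adm A4 (x l) b)
    (hs : A1 + A2 + A3 + A4 + (n - 4) * b ≤ 1)
    (he : s + ((n : ℝ) - m) * b ^ p = A1 ^ p + A2 ^ p + A3 ^ p + A4 ^ p + (n - 4) * b ^ p) :
    s + R ^ p / ((n : ℝ) - m) ^ (p - 1) - 1 / (n : ℝ) ^ (p - 1) ≤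
      ∑ l, x l ^ p - 1 / (n : ℝ) ^ (p - 1) := by
  have hmn : (0 : ℝ) < (n : ℝ) - m := by
    have : (m : ℝ) < n := by exact_mod_cast hm
    linarith
  have hb0 : 0 ≤ b := by rw [hb]; positivity
  have h5 := corner4 C hl hb0 h1 h2 h3 h4 hs hp
  have e : R ^ p / ((n : ℝ) - m) ^ (p - 1) = ((n : ℝ) - m) * b ^ p := by
    rw [hb, div_pow]
    rcases hp with rfl | rfl | rfl <;> (norm_num; field_simp)
  rw [e, he]
  linarith

end LpSec.ML
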