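import Mathlib
import Pool.Agent.Lib.MP_1dbab3_gt.W.M14

/-!
# Soundness of the box checker, part 8: the branches of the corner
-/

open Real MeasureTheory Set Filter Topology

namespace LpSec.ML

variable {α : ℝ}

/-- the bounds of the coefficients -/
def CGoal (c : CellD) (n0 : ℕ) {n : ℕ} (x : Fin n → ℝ) (k : ℕ → ℕ → ℕ → Bool) : Prop :=
  ∃ a b d : ℕ, k a b d = true ∧
    (a : ℝ) / 10 ^ 6 ≤ (c.k0 : ℝ) / 10 ^ 8 * (∑ l, x l ^ 2 - 1 / n) * n0 ^ 2 / 2 ∧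
    (b : ℝ) / 10 ^ 6 ≤ (c.k1 : ℝ) / 10 ^ 8 * (∑ l, x l ^ 3 - 1 / n ^ 2) * n0 ^ 3 / 6 ∧
    (d : ℝ) / 10 ^ 6 ≤ ((c.k0 : ℝ) / 10 ^ 8) ^ 2 * (∑ l, x l ^ 4 - 1 / n ^ 3) * n0 ^ 4 / 8

theorem powsum_nonneg {n : ℕ} {x : Fin n → ℝ} (hx : ∀ k, 0 ≤ x k) (h1 : ∑ k, x k = 1) (q : ℕ) :
    0 ≤ ∑ k, x k ^ (q + 1) - 1 / (n : ℝ) ^ q := by
  have h5 := pow_sum_div_card_le_sum_pow (s := (Finset.univ : Finset (Fin n))) (f := x)
    (fun k _ => hx k) q
  rw [h1, one_pow, Finset.card_univ, Fintype.card_fin] at h5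
  linarith

theorem abd_use {c : CellD} {n0 n m : ℕ} (hn0 : 0 < n0) {x : Fin n → ℝ} (hx : ∀ k, 0 ≤ x k)
    (h1 : ∑ k, x k = 1) {s2 s3 s4 r : ℕ} (s : ℕ → ℝ) (e2 : (s2 : ℝ) / 4096 ^ 2 = s 2)
    (e3 : (s3 : ℝ) / 4096 ^ 3 = s 3) (e4 : (s4 : ℝ) / 4096 ^ 4 = s 4)
    {k : ℕ → ℕ → ℕ → Bool}
    (H : m < n0 → ∀ p, (p = 2 ∨ p = 3 ∨ p = 4) →
      s p + ((r : ℝ) / 4096) ^ p / ((n0 : ℝ) - m) ^ (p - 1) - 1 / (n0 : ℝ) ^ (p - 1) ≤
        ∑ l, x l ^ p - 1 / (n : ℝ) ^ (p - 1))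
    (h : abd c n0 (n0 - m) s2 s3 s4 r k = true) : CGoal c n0 x k := by
  have q2 := powsum_nonneg hx h1 1
  have q3 := powsum_nonneg hx h1 2
  have q4 := powsum_nonneg hx h1 3
  rw [pow_one] at q2
  refine abd_sound hn0 q2 q3 q4 (fun hν => ?_) h
  have hm : m < n0 := by omega
  have hm' : (0 : ℝ) < (n0 : ℝ) - m := by
    have : (m : ℝ) < n0 := by exact_mod_cast hm
    linarith
  have H' := H hm
  have p2 := H' 2 (Or.inl rfl)
  have p3 := H' 3 (Or.inr (Or.inl rfl))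
  have p4 := H' 4 (Or.inr (Or.inr rfl))
  simp only [show (2 : ℕ) - 1 = 1 from rfl, pow_one] at p2
  rw [show (3 : ℕ) - 1 = 2 from rfl] at p3
  rw [show (4 : ℕ) - 1 = 3 from rfl] at p4
  rw [Nat.cast_sub hm.le]
  refine ⟨?_, ?_, ?_⟩
  · refine le_trans (le_of_eq ?_) p2
    rw [← e2, div_pow, add_div]
    congr 2
    field_simp
  · refine le_trans (le_of_eq ?_) p3
    rw [← e3, div_pow, add_div]
    congr 2
    field_simp
  · refine le_trans (le_of_eq ?_) p4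
    rw [← e4, div_pow, add_div]
    congr 2
    field_simp

theorem b_le {n0 n m r a : ℕ} (hm : m < n0) (hn : n0 ≤ n) (h : r ≤ (n0 - m) * a) :
    (r : ℝ) / 4096 / ((n : ℝ) - m) ≤ (a : ℝ) / 4096 := by
  have hm' : (m : ℝ) < n0 := by exact_mod_cast hm
  have hn' : (n0 : ℝ) ≤ n := by exact_mod_cast hn
  have h' : (r : ℝ) ≤ ((n0 : ℝ) - m) * a := by
    rw [← Nat.cast_sub hm.le]
    exact_mod_cast h
  rw [div_le_iff₀ (by linarith), div_mul_eq_mul_div]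
  have : (0 : ℝ) ≤ a := by positivity
  gcongr
  nlinarith

theorem le_b {n m r e : ℕ} (hm : m < n) (h : e * (n - m) ≤ r) :
    (e : ℝ) / 4096 ≤ (r : ℝ) / 4096 / ((n : ℝ) - m) := by
  have hm' : (m : ℝ) < n := by exact_mod_cast hm
  have h' : (e : ℝ) * ((n : ℝ) - m) ≤ r := by
    rw [← Nat.cast_sub hm.le]
    exact_mod_cast h
  rw [le_div_iff₀ (by linarith), div_mul_eq_mul_div]
  gcongr

theorem cast_cut {S : ℕ} (h : S ≤ 4096) : ((4096 - S : ℕ) : ℝ) / 4096 = 1 - (S : ℝ) / 4096 := by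
  rw [Nat.cast_sub h]; push_cast; ring

/-- three coordinates -/
theorem cornO3 {c : CellD} {n : ℕ} {x : Fin n → ℝ} {i j k : Fin n} (C : Cfg x i j k) {n0 : ℕ}
    (hn0 : 3 ≤ n0) (hd : Dim n0 n) {y0 y1 z0 z1 w0 w1 : ℕ}
    (B : Box (x i) (x j) (x k) y0 y1 z0 z1 w0 w1) {K : ℕ → ℕ → ℕ → Bool}
    (h1 : y0 + z0 + w0 ≤ 4096) (h2 : 4096 ≤ y0 + z0 + w0 + (n0 - 3) * min (min y0 z0) w0)
    (h : abd c n0 (n0 - 3) (y0 * y0 + z0 * z0 + w0 * w0)
      (y0 * y0 * y0 + z0 * z0 * z0 + w0 * w0 * w0)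
      (y0 * y0 * (y0 * y0) + z0 * z0 * (z0 * z0) + w0 * w0 * (w0 * w0))
      (4096 - (y0 + z0 + w0)) K = true) : CGoal c n0 x K := by
  refine abd_use (m := 3) (by omega) C.nn C.sum
    (fun p => ((y0 : ℝ) / 4096) ^ p + ((z0 : ℝ) / 4096) ^ p + ((w0 : ℝ) / 4096) ^ p)
    (by push_cast; ring) (by push_cast; ring) (by push_cast; ring) (fun hm p hp => ?_) h
  have hle := hd.le
  set a3 := min (min y0 z0) w0 with ha3
  have ha1 : a3 ≤ y0 := (min_le_left _ _).trans (min_le_left _ _)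
  have ha2 : a3 ≤ z0 := (min_le_left _ _).trans (min_le_right _ _)
  have ha3' : a3 ≤ w0 := min_le_right _ _
  have hb := b_le (n := n) hm hle (r := 4096 - (y0 + z0 + w0)) (a := a3) (by omega)
  have c1 : (a3 : ℝ) / 4096 ≤ (y0 : ℝ) / 4096 := by gcongr
  have c2 : (a3 : ℝ) / 4096 ≤ (z0 : ℝ) / 4096 := by gcongr
  have c3 : (a3 : ℝ) / 4096 ≤ (w0 : ℝ) / 4096 := by gcongr
  have hmn : (0 : ℝ) < (n : ℝ) - 3 := by
    have : 3 < n := lt_of_lt_of_le hm hle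
    have : (3 : ℝ) < n := by exact_mod_cast this
    linarith
  have e := cast_cut h1
  refine ord_gen C hd hm hp (R := ((4096 - (y0 + z0 + w0) : ℕ) : ℝ) / 4096) (by positivity)
    (fun hne => ?_) rfl (Or.inl ⟨hb.trans c1, B.ya⟩) (Or.inl ⟨hb.trans c2, B.za⟩)
    (Or.inl ⟨hb.trans c3, B.wa⟩) ?_ ?_
  · have h0 : n0 = 7 := by
      rcases hd with h0 | h0
      · exact absurd h0 hne
      · exact h0.1
    subst h0
    have : 7 * (4096 - (y0 + z0 + w0)) ≤ 4 * 4096 := by omega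
    have h5 : (7 : ℝ) * ((4096 - (y0 + z0 + w0) : ℕ) : ℝ) ≤ 4 * 4096 := by exact_mod_cast this
    push_cast
    linarith
  · rw [mul_div_assoc'] at *
    push_cast
    rw [mul_div_cancel_left₀ _ hmn.ne', e]
    push_cast
    linarith
  · push_cast
    ring

/-- two coordinates -/
theorem cornO2 {c : CellD} {n : ℕ} {x : Fin n → ℝ} {i j k : Fin n} (C : Cfg x i j k) {n0 : ℕ}
    (hn0 : 3 ≤ n0) (hd : Dim n0 n) {y0 y1 z0 z1 w0 w1 : ℕ}
    (B : Box (x i) (x j) (x k) y0 y1 z0 z1 w0 w1) {K : ℕ → ℕ → ℕ → Bool}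
    (h1 : y0 + z0 ≤ 4096) (h2 : 4096 ≤ y0 + z0 + (n0 - 2) * min y0 z0)
    (h : abd c n0 (n0 - 2) (y0 * y0 + z0 * z0) (y0 * y0 * y0 + z0 * z0 * z0)
      (y0 * y0 * (y0 * y0) + z0 * z0 * (z0 * z0)) (4096 - (y0 + z0)) K = true) :
    CGoal c n0 x K := by
  refine abd_use (m := 2) (by omega) C.nn C.sum
    (fun p => ((y0 : ℝ) / 4096) ^ p + ((z0 : ℝ) / 4096) ^ p)
    (by push_cast; ring) (by push_cast; ring) (by push_cast; ring) (fun hm p hp => ?_) h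
  have hle := hd.le
  set a2 := min y0 z0 with ha2
  have ha1 : a2 ≤ y0 := min_le_left _ _
  have ha2' : a2 ≤ z0 := min_le_right _ _
  have hb := b_le (n := n) hm hle (r := 4096 - (y0 + z0)) (a := a2) (by omega)
  have c1 : (a2 : ℝ) / 4096 ≤ (y0 : ℝ) / 4096 := by gcongr
  have c2 : (a2 : ℝ) / 4096 ≤ (z0 : ℝ) / 4096 := by gcongr
  have hmn : (0 : ℝ) < (n : ℝ) - 2 := by
    have : 2 < n := lt_of_lt_of_le hm hle
    have : (2 : ℝ) < n := by exact_mod_cast this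
    linarith
  have e := cast_cut h1
  refine ord_gen C hd hm hp (R := ((4096 - (y0 + z0) : ℕ) : ℝ) / 4096) (by positivity)
    (fun hne => ?_) rfl (Or.inl ⟨hb.trans c1, B.ya⟩) (Or.inl ⟨hb.trans c2, B.za⟩)
    (Or.inr (Or.inr rfl)) ?_ ?_
  · have h0 : n0 = 7 := by
      rcases hd with h0 | h0
      · exact absurd h0 hne
      · exact h0.1
    subst h0
    have : 7 * (4096 - (y0 + z0)) ≤ 5 * 4096 := by omega
    have h5 : (7 : ℝ) * ((4096 - (y0 + z0) : ℕ) : ℝ) ≤ 5 * 4096 := by exact_mod_cast this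
    push_cast
    linarith
  · set b := ((4096 - (y0 + z0) : ℕ) : ℝ) / 4096 / ((n : ℝ) - (2 : ℕ)) with hb'
    have e3 : ((n : ℝ) - 2) * b = ((4096 - (y0 + z0) : ℕ) : ℝ) / 4096 := by
      rw [hb']; push_cast; rw [mul_div_cancel₀ _ hmn.ne']
    have e4 : (y0 : ℝ) / 4096 + (z0 : ℝ) / 4096 + b + ((n : ℝ) - 3) * b =
      (y0 : ℝ) / 4096 + (z0 : ℝ) / 4096 + ((n : ℝ) - 2) * b := by ring
    rw [e4, e3, e]
    push_cast
    linarith
  · push_cast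
    ring

/-- one coordinate -/
theorem cornO1 {c : CellD} {n : ℕ} {x : Fin n → ℝ} {i j k : Fin n} (C : Cfg x i j k) {n0 : ℕ}
    (hn0 : 3 ≤ n0) (hd : Dim n0 n) {y0 y1 z0 z1 w0 w1 : ℕ}
    (B : Box (x i) (x j) (x k) y0 y1 z0 z1 w0 w1) {K : ℕ → ℕ → ℕ → Bool}
    (h1 : y0 ≤ 4096) (h2 : 4096 ≤ n0 * y0)
    (h : abd c n0 (n0 - 1) (y0 * y0) (y0 * y0 * y0) (y0 * y0 * (y0 * y0)) (4096 - y0) K = true) :
    CGoal c n0 x K := by
  refine abd_use (m := 1) (by omega) C.nn C.sum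
    (fun p => ((y0 : ℝ) / 4096) ^ p)
    (by push_cast; ring) (by push_cast; ring) (by push_cast; ring) (fun hm p hp => ?_) h
  have hle := hd.le
  have hb := b_le (n := n) hm hle (r := 4096 - y0) (a := y0) (by
    obtain ⟨t, rfl⟩ : ∃ t, n0 = t + 1 := ⟨n0 - 1, by omega⟩
    simp only [Nat.add_sub_cancel]
    have : (t + 1) * y0 = t * y0 + y0 := by ring
    omega)
  have hmn : (0 : ℝ) < (n : ℝ) - 1 := by
    have : 1 < n := lt_of_lt_of_le hm hle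
    have : (1 : ℝ) < n := by exact_mod_cast this
    linarith
  have e := cast_cut h1
  refine ord_gen C hd hm hp (R := ((4096 - y0 : ℕ) : ℝ) / 4096) (by positivity)
    (fun hne => ?_) rfl (Or.inl ⟨hb, B.ya⟩) (Or.inr (Or.inr rfl))
    (Or.inr (Or.inr rfl)) ?_ ?_
  · have h0 : n0 = 7 := by
      rcases hd with h0 | h0
      · exact absurd h0 hne
      · exact h0.1
    subst h0
    have : 7 * (4096 - y0) ≤ 6 * 4096 := by omega
    have h5 : (7 : ℝ) * ((4096 - y0 : ℕ) : ℝ) ≤ 6 * 4096 := by exact_mod_cast this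
    push_cast
    linarith
  · set b := ((4096 - y0 : ℕ) : ℝ) / 4096 / ((n : ℝ) - (1 : ℕ)) with hb'
    have e3 : ((n : ℝ) - 1) * b = ((4096 - y0 : ℕ) : ℝ) / 4096 := by
      rw [hb']; push_cast; rw [mul_div_cancel₀ _ hmn.ne']
    have e4 : (y0 : ℝ) / 4096 + b + b + ((n : ℝ) - 3) * b =
      (y0 : ℝ) / 4096 + ((n : ℝ) - 1) * b := by ring
    rw [e4, e3, e]
    linarith
  · push_cast
    ring

/-- three coordinates and the minimum -/
theorem cornL3 {c : CellD} {n : ℕ} {x : Fin n → ℝ} {i j k l : Fin n} (C : Cfg x i j k)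
    (hl : l ∈ ((Finset.univ.erase i).erase j).erase k) {y0 y1 z0 z1 w0 w1 e : ℕ}
    (he : x l ≤ (e : ℝ) / 4096) (hn : 4 ≤ n)
    (B : Box (x i) (x j) (x k) y0 y1 z0 z1 w0 w1) {K : ℕ → ℕ → ℕ → Bool}
    (h1 : y0 + z0 + w0 + e * (n - 3) ≤ 4096)
    (h2 : 4096 ≤ y0 + z0 + w0 + e + (n - 4) * min (min y0 z0) w0)
    (h : abd c n (n - 4) (y0 * y0 + z0 * z0 + w0 * w0 + e * e)
      (y0 * y0 * y0 + z0 * z0 * z0 + w0 * w0 * w0 + e * e * e)
      (y0 * y0 * (y0 * y0) + z0 * z0 * (z0 * z0) + w0 * w0 * (w0 * w0) + e * e * (e * e))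
      (4096 - (y0 + z0 + w0 + e)) K = true) : CGoal c n x K := by
  refine abd_use (m := 4) (by omega) C.nn C.sum
    (fun p => ((y0 : ℝ) / 4096) ^ p + ((z0 : ℝ) / 4096) ^ p + ((w0 : ℝ) / 4096) ^ p +
      ((e : ℝ) / 4096) ^ p)
    (by push_cast; ring) (by push_cast; ring) (by push_cast; ring) (fun hm p hp => ?_) h
  set a3 := min (min y0 z0) w0 with ha3
  have ha1 : a3 ≤ y0 := (min_le_left _ _).trans (min_le_left _ _)
  have ha2 : a3 ≤ z0 := (min_le_left _ _).trans (min_le_right _ _)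
  have ha3' : a3 ≤ w0 := min_le_right _ _
  have e0 : e * (n - 3) = e * (n - 4) + e := by
    obtain ⟨t, rfl⟩ : ∃ t, n = t + 4 := ⟨n - 4, by omega⟩
    rw [show t + 4 - 3 = t + 1 by omega, Nat.add_sub_cancel]
    ring
  have hb := b_le (n := n) hm le_rfl (r := 4096 - (y0 + z0 + w0 + e)) (a := a3) (by omega)
  have hb2 := le_b (n := n) (m := 4) (e := e) hm (r := 4096 - (y0 + z0 + w0 + e)) (by omega)
  have c1 : (a3 : ℝ) / 4096 ≤ (y0 : ℝ) / 4096 := by gcongr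
  have c2 : (a3 : ℝ) / 4096 ≤ (z0 : ℝ) / 4096 := by gcongr
  have c3 : (a3 : ℝ) / 4096 ≤ (w0 : ℝ) / 4096 := by gcongr
  have hmn : (0 : ℝ) < (n : ℝ) - 4 := by
    have : (4 : ℝ) < n := by exact_mod_cast hm
    linarith
  have hcut := cast_cut (show y0 + z0 + w0 + e ≤ 4096 by omega)
  refine low_gen C hl hm hp (R := ((4096 - (y0 + z0 + w0 + e) : ℕ) : ℝ) / 4096) (by positivity)
    rfl (Or.inl ⟨hb.trans c1, B.ya⟩) (Or.inl ⟨hb.trans c2, B.za⟩)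
    (Or.inl ⟨hb.trans c3, B.wa⟩) (Or.inr (Or.inl ⟨by positivity, hb2, he⟩)) ?_ ?_
  · set b := ((4096 - (y0 + z0 + w0 + e) : ℕ) : ℝ) / 4096 / ((n : ℝ) - (4 : ℕ)) with hb'
    have e3 : ((n : ℝ) - 4) * b = ((4096 - (y0 + z0 + w0 + e) : ℕ) : ℝ) / 4096 := by
      rw [hb']; push_cast; rw [mul_div_cancel₀ _ hmn.ne']
    rw [e3, hcut]
    push_cast
    linarith
  · push_cast
    ring

/-- two coordinates and the minimum -/
theorem cornL2 {c : CellD} {n : ℕ} {x : Fin n → ℝ} {i j k l : Fin n} (C : Cfg x i j k)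
    (hl : l ∈ ((Finset.univ.erase i).erase j).erase k) {y0 y1 z0 z1 w0 w1 e : ℕ}
    (he : x l ≤ (e : ℝ) / 4096) (hn : 4 ≤ n)
    (B : Box (x i) (x j) (x k) y0 y1 z0 z1 w0 w1) {K : ℕ → ℕ → ℕ → Bool}
    (h1 : y0 + z0 + e * (n - 2) ≤ 4096)
    (h2 : 4096 ≤ y0 + z0 + e + (n - 3) * min y0 z0)
    (h : abd c n (n - 3) (y0 * y0 + z0 * z0 + e * e)
      (y0 * y0 * y0 + z0 * z0 * z0 + e * e * e)
      (y0 * y0 * (y0 * y0) + z0 * z0 * (z0 * z0) + e * e * (e * e))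
      (4096 - (y0 + z0 + e)) K = true) : CGoal c n x K := by
  refine abd_use (m := 3) (by omega) C.nn C.sum
    (fun p => ((y0 : ℝ) / 4096) ^ p + ((z0 : ℝ) / 4096) ^ p + ((e : ℝ) / 4096) ^ p)
    (by push_cast; ring) (by push_cast; ring) (by push_cast; ring) (fun hm p hp => ?_) h
  set a2 := min y0 z0 with ha2
  have ha1 : a2 ≤ y0 := min_le_left _ _
  have ha2' : a2 ≤ z0 := min_le_right _ _
  have e0 : e * (n - 2) = e * (n - 3) + e := by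
    obtain ⟨t, rfl⟩ : ∃ t, n = t + 3 := ⟨n - 3, by omega⟩
    rw [show t + 3 - 2 = t + 1 by omega, Nat.add_sub_cancel]
    ring
  have hb := b_le (n := n) hm le_rfl (r := 4096 - (y0 + z0 + e)) (a := a2) (by omega)
  have hb2 := le_b (n := n) (m := 3) (e := e) hm (r := 4096 - (y0 + z0 + e)) (by omega)
  have c1 : (a2 : ℝ) / 4096 ≤ (y0 : ℝ) / 4096 := by gcongr
  have c2 : (a2 : ℝ) / 4096 ≤ (z0 : ℝ) / 4096 := by gcongr
  have hmn : (0 : ℝ) < (n : ℝ) - 3 := by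
    have : (3 : ℝ) < n := by exact_mod_cast hm
    linarith
  have hcut := cast_cut (show y0 + z0 + e ≤ 4096 by omega)
  refine low_gen C hl hm hp (R := ((4096 - (y0 + z0 + e) : ℕ) : ℝ) / 4096) (by positivity)
    rfl (Or.inl ⟨hb.trans c1, B.ya⟩) (Or.inl ⟨hb.trans c2, B.za⟩)
    (Or.inr (Or.inr rfl)) (Or.inr (Or.inl ⟨by positivity, hb2, he⟩)) ?_ ?_
  · set b := ((4096 - (y0 + z0 + e) : ℕ) : ℝ) / 4096 / ((n : ℝ) - (3 : ℕ)) with hb'
    have e3 : ((n : ℝ) - 3) * b = ((4096 - (y0 + z0 + e) : ℕ) : ℝ) / 4096 := by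
      rw [hb']; push_cast; rw [mul_div_cancel₀ _ hmn.ne']
    have e4 : (y0 : ℝ) / 4096 + (z0 : ℝ) / 4096 + b + (e : ℝ) / 4096 + ((n : ℝ) - 4) * b =
      (y0 : ℝ) / 4096 + (z0 : ℝ) / 4096 + (e : ℝ) / 4096 + ((n : ℝ) - 3) * b := by ring
    rw [e4, e3, hcut]
    push_cast
    linarith
  · push_cast
    ring

/-- one coordinate and the minimum -/
theorem cornL1 {c : CellD} {n : ℕ} {x : Fin n → ℝ} {i j k l : Fin n} (C : Cfg x i j k)
    (hl : l ∈ ((Finset.univ.erase i).erase j).erase k) {y0 y1 z0 z1 w0 w1 e : ℕ}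
    (he : x l ≤ (e : ℝ) / 4096) (hn : 4 ≤ n)
    (B : Box (x i) (x j) (x k) y0 y1 z0 z1 w0 w1) {K : ℕ → ℕ → ℕ → Bool}
    (h1 : y0 + e * (n - 1) ≤ 4096)
    (h2 : 4096 ≤ y0 + e + (n - 2) * y0)
    (h : abd c n (n - 2) (y0 * y0 + e * e)
      (y0 * y0 * y0 + e * e * e)
      (y0 * y0 * (y0 * y0) + e * e * (e * e))
      (4096 - (y0 + e)) K = true) : CGoal c n x K := by
  refine abd_use (m := 2) (by omega) C.nn C.sum
    (fun p => ((y0 : ℝ) / 4096) ^ p + ((e : ℝ) / 4096) ^ p)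
    (by push_cast; ring) (by push_cast; ring) (by push_cast; ring) (fun hm p hp => ?_) h
  have e0 : e * (n - 1) = e * (n - 2) + e := by
    obtain ⟨t, rfl⟩ : ∃ t, n = t + 2 := ⟨n - 2, by omega⟩
    rw [show t + 2 - 1 = t + 1 by omega, Nat.add_sub_cancel]
    ring
  have hb := b_le (n := n) hm le_rfl (r := 4096 - (y0 + e)) (a := y0) (by omega)
  have hb2 := le_b (n := n) (m := 2) (e := e) hm (r := 4096 - (y0 + e)) (by omega)
  have hmn : (0 : ℝ) < (n : ℝ) - 2 := by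
    have : (2 : ℝ) < n := by exact_mod_cast hm
    linarith
  have hcut := cast_cut (show y0 + e ≤ 4096 by omega)
  refine low_gen C hl hm hp (R := ((4096 - (y0 + e) : ℕ) : ℝ) / 4096) (by positivity)
    rfl (Or.inl ⟨hb, B.ya⟩) (Or.inr (Or.inr rfl))
    (Or.inr (Or.inr rfl)) (Or.inr (Or.inl ⟨by positivity, hb2, he⟩)) ?_ ?_
  · set b := ((4096 - (y0 + e) : ℕ) : ℝ) / 4096 / ((n : ℝ) - (2 : ℕ)) with hb'
    have e3 : ((n : ℝ) - 2) * b = ((4096 - (y0 + e) : ℕ) : ℝ) / 4096 := by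
      rw [hb']; push_cast; rw [mul_div_cancel₀ _ hmn.ne']
    have e4 : (y0 : ℝ) / 4096 + b + b + (e : ℝ) / 4096 + ((n : ℝ) - 4) * b =
      (y0 : ℝ) / 4096 + (e : ℝ) / 4096 + ((n : ℝ) - 2) * b := by ring
    rw [e4, e3, hcut]
    push_cast
    linarith
  · push_cast
    ring

/-- only the minimum -/
theorem cornL0 {c : CellD} {n : ℕ} {x : Fin n → ℝ} {i j k l : Fin n} (C : Cfg x i j k)
    (hl : l ∈ ((Finset.univ.erase i).erase j).erase k) {e : ℕ}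
    (he : x l ≤ (e : ℝ) / 4096) (hn : 4 ≤ n) {K : ℕ → ℕ → ℕ → Bool}
    (h1 : e * n ≤ 4096)
    (h : abd c n (n - 1) (e * e) (e * e * e) (e * e * (e * e)) (4096 - e) K = true) :
    CGoal c n x K := by
  refine abd_use (m := 1) (by omega) C.nn C.sum
    (fun p => ((e : ℝ) / 4096) ^ p)
    (by push_cast; ring) (by push_cast; ring) (by push_cast; ring) (fun hm p hp => ?_) h
  have e0 : e * n = e * (n - 1) + e := by
    obtain ⟨t, rfl⟩ : ∃ t, n = t + 1 := ⟨n - 1, by omega⟩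
    rw [Nat.add_sub_cancel]
    ring
  have hb2 := le_b (n := n) (m := 1) (e := e) hm (r := 4096 - e) (by omega)
  have hmn : (0 : ℝ) < (n : ℝ) - 1 := by
    have : (1 : ℝ) < n := by exact_mod_cast hm
    linarith
  have hcut := cast_cut (show e ≤ 4096 by omega)
  refine low_gen C hl hm hp (R := ((4096 - e : ℕ) : ℝ) / 4096) (by positivity)
    rfl (Or.inr (Or.inr rfl)) (Or.inr (Or.inr rfl))
    (Or.inr (Or.inr rfl)) (Or.inr (Or.inl ⟨by positivity, hb2, he⟩)) ?_ ?_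
  · set b := ((4096 - e : ℕ) : ℝ) / 4096 / ((n : ℝ) - (1 : ℕ)) with hb'
    have e3 : ((n : ℝ) - 1) * b = ((4096 - e : ℕ) : ℝ) / 4096 := by
      rw [hb']; push_cast; rw [mul_div_cancel₀ _ hmn.ne']
    have e4 : b + b + b + (e : ℝ) / 4096 + ((n : ℝ) - 4) * b =
      (e : ℝ) / 4096 + ((n : ℝ) - 1) * b := by ring
    rw [e4, e3, hcut]
    linarith
  · push_cast
    ring

end LpSec.ML
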