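import Mathlib
import Pool.Agent.Lib.MP_1dbab3_gt.W.M15

/-!
# Soundness of the box checker, part 9: corner, gain, and one box
-/

open Real MeasureTheory Set Filter Topology

namespace LpSec.ML

variable {α : ℝ}

theorem cond_left {a b : Bool} (h : cond a false b = true) : a = false ∧ b = true := by
  cases a with
  | false => exact ⟨rfl, h⟩
  | true => simp at h

theorem ne_of_ble_false {e : ℕ} (h : Nat.ble e 0 = false) : e ≠ 0 := by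
  have := ble_false.1 h
  omega

theorem corner_sound {c : CellD} {n : ℕ} {x : Fin n → ℝ} {i j k : Fin n} (C : Cfg x i j k)
    {n0 : ℕ} (hn0 : 3 ≤ n0) (hd : Dim n0 n) {d3 : Bool} {e : ℕ}
    (he : e ≠ 0 → n0 = n ∧ 4 ≤ n ∧ ∃ l ∈ ((Finset.univ.erase i).erase j).erase k,
      x l ≤ (e : ℝ) / 4096)
    {y0 y1 z0 z1 w0 w1 : ℕ}
    (B : Box (x i) (x j) (x k) y0 y1 z0 z1 w0 w1) {K : ℕ → ℕ → ℕ → Bool}
    (h : corner c n0 d3 e y0 z0 w0 K = true) : CGoal c n0 x K := by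
  unfold corner at h
  simp only [fc_eq, mn_eq] at h
  rcases cond_split h with ⟨h1, h2⟩ | ⟨-, h⟩
  · obtain ⟨-, h4⟩ := cond_false_eq_true h1
    obtain ⟨h5, h6⟩ := cond_false_eq_true h4
    exact cornO3 C hn0 hd B (ble_iff.1 h5) (ble_iff.1 h6) h2
  rcases cond_split h with ⟨h1, h2⟩ | ⟨-, h⟩
  · obtain ⟨h3, h4⟩ := cond_left h1
    obtain ⟨rfl, hn4, l, hl, hle⟩ := he (ne_of_ble_false h3)
    obtain ⟨-, h5⟩ := cond_false_eq_true h4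
    obtain ⟨h6, h7⟩ := cond_false_eq_true h5
    exact cornL3 C hl hle hn4 B (ble_iff.1 h6) (ble_iff.1 h7) h2
  rcases cond_split h with ⟨h1, h2⟩ | ⟨-, h⟩
  · obtain ⟨h3, h4⟩ := cond_left h1
    obtain ⟨rfl, hn4, l, hl, hle⟩ := he (ne_of_ble_false h3)
    obtain ⟨h6, h7⟩ := cond_false_eq_true h4
    exact cornL2 C hl hle hn4 B (ble_iff.1 h6) (ble_iff.1 h7) h2
  rcases cond_split h with ⟨h1, h2⟩ | ⟨-, h⟩
  · obtain ⟨h3, h4⟩ := cond_left h1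
    obtain ⟨rfl, hn4, l, hl, hle⟩ := he (ne_of_ble_false h3)
    obtain ⟨h6, h7⟩ := cond_false_eq_true h4
    exact cornL1 C hl hle hn4 B (ble_iff.1 h6) (ble_iff.1 h7) h2
  rcases cond_split h with ⟨h1, h2⟩ | ⟨-, h⟩
  · obtain ⟨h3, h4⟩ := cond_left h1
    obtain ⟨rfl, hn4, l, hl, hle⟩ := he (ne_of_ble_false h3)
    exact cornL0 C hl hle hn4 (ble_iff.1 h4) h2
  rcases cond_split h with ⟨h1, h2⟩ | ⟨-, h⟩
  · obtain ⟨-, h4⟩ := cond_false_eq_true h1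
    obtain ⟨h5, h6⟩ := cond_false_eq_true h4
    exact cornO3 C hn0 hd B (ble_iff.1 h5) (ble_iff.1 h6) h2
  rcases cond_split h with ⟨h1, h2⟩ | ⟨-, h⟩
  · obtain ⟨h5, h6⟩ := cond_false_eq_true h1
    exact cornO2 C hn0 hd B (ble_iff.1 h5) (ble_iff.1 h6) h2
  obtain ⟨h1, h2⟩ := cond_false_eq_true h
  obtain ⟨h5, h6⟩ := cond_false_eq_true h1
  exact cornO1 C hn0 hd B (ble_iff.1 h5) (ble_iff.1 h6) h2

theorem Wm_z1 (α : ℝ) (n : ℕ) : Wm α n (z1 α) = 0 := by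
  unfold Wm
  exact intervalIntegral.integral_same

theorem dig_use (h : Lobe α) {c : CellD} (hC : CellOk α c) {N : NumD} (hN : NumOk α c N) {y : ℝ}
    {y0 : ℕ} (hy : (y0 : ℝ) / 4096 ≤ y) (hy1 : y0 ≤ 4095) (hn : 1 ≤ N.n * y) :
    ∃ t0, z1 α ≤ t0 * (N.n * y) ∧ t0 ≤ z1 α ∧
      ((dig N.w (50 * y0 / 4096) : ℕ) : ℝ) / 10 ^ 8 ≤ Wm α N.n t0 := by
  have hc := h.z1_pos
  have hg : 50 * y0 / 4096 < 50 := by omega
  rcases hN.w _ hg with h0 | ⟨h1, h2, h3⟩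
  · refine ⟨z1 α, by nlinarith, le_rfl, ?_⟩
    rw [h0, Wm_z1]
    norm_num
  · refine ⟨_, ?_, h2, h3⟩
    have hNn : (0 : ℝ) < N.n := by
      rcases (Nat.cast_nonneg (α := ℝ) N.n).lt_or_eq with h5 | h5
      · exact h5
      · rw [← h5, zero_mul] at hn; linarith
    have hg0 : (0 : ℝ) < ((50 * y0 / 4096 : ℕ) : ℝ) := by exact_mod_cast h1
    have hgy : ((50 * y0 / 4096 : ℕ) : ℝ) ≤ 50 * y := by
      have h5 := natdiv_le (50 * y0) 4096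
      push_cast at h5
      have h6 : 50 * (y0 : ℝ) / 4096 ≤ 50 * y := by linarith
      exact h5.trans h6
    have hch := hC.ch
    have hch0 : (0 : ℝ) < (c.ch : ℝ) / 10 ^ 8 := hc.trans_le hch
    set G := ((50 * y0 / 4096 : ℕ) : ℝ) with hG
    have e : (50 * c.ch : ℝ) / (10 ^ 8 * ((N.n * (50 * y0 / 4096) : ℕ) : ℝ)) * (N.n * y) =
        (c.ch : ℝ) / 10 ^ 8 * (50 * y / G) := by
      rw [Nat.cast_mul, ← hG]
      field_simp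
    rw [e]
    have h7 : 1 ≤ 50 * y / G := by rw [le_div_iff₀ hg0]; linarith
    nlinarith

/-- the result of `gn` -/
def GGoal (α : ℝ) (c : CellD) (N : NumD) (lb : ℕ) (tA : Bool) (a b d y0 g : ℕ) : Prop :=
  ((g : ℝ) / (2 * 10 ^ 20) ≤ N.n * (Gq α N.n ((a : ℝ) / 10 ^ 6) ((b : ℝ) / 10 ^ 6)
      ((d : ℝ) / 10 ^ 6) + ((dig N.w (50 * y0 / 4096) : ℕ) : ℝ) / 10 ^ 8 / 2) - (lb : ℝ) / 10 ^ 8) ∨
  (tA = true ∧ (g : ℝ) / (2 * 10 ^ 20) ≤ N.n * (Gq α N.n ((a : ℝ) / 10 ^ 6) ((b : ℝ) / 10 ^ 6)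
      ((d : ℝ) / 10 ^ 6) + ((dig N.w (50 * y0 / 4096) : ℕ) : ℝ) / 10 ^ 8 / 2) +
      (c.al : ℝ) / 10 ^ 8 - N.n * ((N.j0 : ℝ) / 10 ^ 8))

theorem Gq_lower {c : CellD} {N : NumD} (hN : NumOk α c N) (a b d : ℕ) :
    ((2000000 * (a * N.i2 + b * N.i3 + d * N.i4) : ℕ) : ℝ) / (2 * 10 ^ 20) -
      ((a * a * N.j4 + 2 * a * b * N.j5 + ((b * b + 2 * a * d) * N.j6 + 2 * b * d * N.j7) +
        d * d * N.j8 : ℕ) : ℝ) / (2 * 10 ^ 20) ≤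
      Gq α N.n ((a : ℝ) / 10 ^ 6) ((b : ℝ) / 10 ^ 6) ((d : ℝ) / 10 ^ 6) := by
  unfold Gq
  have i2 := mul_le_mul_of_nonneg_left hN.i2 (show (0 : ℝ) ≤ (a : ℝ) / 10 ^ 6 by positivity)
  have i3 := mul_le_mul_of_nonneg_left hN.i3 (show (0 : ℝ) ≤ (b : ℝ) / 10 ^ 6 by positivity)
  have i4 := mul_le_mul_of_nonneg_left hN.i4 (show (0 : ℝ) ≤ (d : ℝ) / 10 ^ 6 by positivity)
  have j4 := mul_le_mul_of_nonneg_left hN.j4 (show (0 : ℝ) ≤ ((a : ℝ) / 10 ^ 6) ^ 2 by positivity)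
  have j5 := mul_le_mul_of_nonneg_left hN.j5
    (show (0 : ℝ) ≤ 2 * ((a : ℝ) / 10 ^ 6) * ((b : ℝ) / 10 ^ 6) by positivity)
  have j6 := mul_le_mul_of_nonneg_left hN.j6
    (show (0 : ℝ) ≤ ((b : ℝ) / 10 ^ 6) ^ 2 + 2 * ((a : ℝ) / 10 ^ 6) * ((d : ℝ) / 10 ^ 6) by
      positivity)
  have j7 := mul_le_mul_of_nonneg_left hN.j7
    (show (0 : ℝ) ≤ 2 * ((b : ℝ) / 10 ^ 6) * ((d : ℝ) / 10 ^ 6) by positivity)
  have j8 := mul_le_mul_of_nonneg_left hN.j8 (show (0 : ℝ) ≤ ((d : ℝ) / 10 ^ 6) ^ 2 by positivity)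
  push_cast
  have e : (2000000 * ((a : ℝ) * N.i2 + b * N.i3 + d * N.i4)) / (2 * 10 ^ 20) -
      ((a : ℝ) * a * N.j4 + 2 * a * b * N.j5 + ((b * b + 2 * a * d) * N.j6 + 2 * b * d * N.j7) +
        d * d * N.j8) / (2 * 10 ^ 20) =
      (a : ℝ) / 10 ^ 6 * (N.i2 / 10 ^ 8) + (b : ℝ) / 10 ^ 6 * (N.i3 / 10 ^ 8) +
        (d : ℝ) / 10 ^ 6 * (N.i4 / 10 ^ 8) -
      (((a : ℝ) / 10 ^ 6) ^ 2 * (N.j4 / 10 ^ 8) +
        2 * ((a : ℝ) / 10 ^ 6) * ((b : ℝ) / 10 ^ 6) * (N.j5 / 10 ^ 8) +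
        (((b : ℝ) / 10 ^ 6) ^ 2 + 2 * ((a : ℝ) / 10 ^ 6) * ((d : ℝ) / 10 ^ 6)) * (N.j6 / 10 ^ 8) +
        2 * ((b : ℝ) / 10 ^ 6) * ((d : ℝ) / 10 ^ 6) * (N.j7 / 10 ^ 8) +
        ((d : ℝ) / 10 ^ 6) ^ 2 * (N.j8 / 10 ^ 8)) / 2 := by
    ring
  rw [e]
  linarith

theorem gn_sound {c : CellD} {N : NumD} (hN : NumOk α c N) {lb : ℕ} {tA : Bool} {a b d y0 : ℕ}
    {K : ℕ → Bool} (h : gn c N lb tA a b d y0 K = true) :
    ∃ g : ℕ, K g = true ∧ (g ≠ 0 → GGoal α c N lb tA a b d y0 g) := by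
  unfold gn at h
  rw [fc_eq, fc_eq] at h
  obtain ⟨h1, h⟩ := cond_false_eq_true h
  rw [fc_eq, fc_eq] at h
  have h1' := ble_iff.1 h1
  set L : ℕ := 2000000 * (a * N.i2 + b * N.i3 + d * N.i4) with hL
  set Q : ℕ := a * a * N.j4 + 2 * a * b * N.j5 + ((b * b + 2 * a * d) * N.j6 + 2 * b * d * N.j7) +
    d * d * N.j8 with hQ
  have hQL : Q ≤ L := h1'
  set W : ℕ := dig N.w (50 * y0 / 4096) with hW
  set G : ℕ := N.n * (L - Q + 1000000000000 * W) with hG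
  have hlow := Gq_lower hN a b d
  rw [← hL, ← hQ] at hlow
  have hGR : (G : ℝ) / (2 * 10 ^ 20) ≤ N.n * (Gq α N.n ((a : ℝ) / 10 ^ 6) ((b : ℝ) / 10 ^ 6)
      ((d : ℝ) / 10 ^ 6) + (W : ℝ) / 10 ^ 8 / 2) := by
    have e : (G : ℝ) / (2 * 10 ^ 20) = N.n * ((L : ℝ) / (2 * 10 ^ 20) - (Q : ℝ) / (2 * 10 ^ 20) +
        (W : ℝ) / 10 ^ 8 / 2) := by
      rw [hG, Nat.cast_mul, Nat.cast_add, Nat.cast_sub hQL]
      push_cast
      ring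
    rw [e]
    gcongr
  have hgv : G - 2000000000000 * lb ≠ 0 →
      (((G - 2000000000000 * lb : ℕ) : ℝ) / (2 * 10 ^ 20) ≤
        N.n * (Gq α N.n ((a : ℝ) / 10 ^ 6) ((b : ℝ) / 10 ^ 6)
      ((d : ℝ) / 10 ^ 6) + (W : ℝ) / 10 ^ 8 / 2) - (lb : ℝ) / 10 ^ 8) := by
    intro hne
    rw [Nat.cast_sub (by omega)]
    push_cast
    have e : ((G : ℝ) - 2000000000000 * lb) / (2 * 10 ^ 20) = (G : ℝ) / (2 * 10 ^ 20) -
      (lb : ℝ) / 10 ^ 8 := by ring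
    rw [e]
    linarith
  cases tA with
  | false => exact ⟨_, h, fun hne => Or.inl (hgv hne)⟩
  | true =>
    have h' : fc (Nat.sub (Nat.add G (Nat.mul 2000000000000 c.al))
      (Nat.mul (Nat.mul 2000000000000 N.n) N.j0)) (fun gA => fc (mx (Nat.sub G
        (Nat.mul 2000000000000 lb)) gA) K) = true := h
    rw [fc_eq, fc_eq, mx_eq] at h'
    refine ⟨_, h', fun hne => ?_⟩
    rcases le_total (Nat.sub (Nat.add G (Nat.mul 2000000000000 c.al))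
      (Nat.mul (Nat.mul 2000000000000 N.n) N.j0)) (Nat.sub G (Nat.mul 2000000000000 lb))
      with h5 | h5
    · rw [max_eq_left h5] at hne ⊢
      exact Or.inl (hgv hne)
    · rw [max_eq_right h5] at hne ⊢
      refine Or.inr ⟨rfl, ?_⟩
      have hne' : (G + 2000000000000 * c.al) - 2000000000000 * N.n * N.j0 ≠ 0 := hne
      show (((G + 2000000000000 * c.al) - 2000000000000 * N.n * N.j0 : ℕ) : ℝ) / (2 * 10 ^ 20) ≤ _
      rw [Nat.cast_sub (by omega)]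
      push_cast
      have e : ((G : ℝ) + 2000000000000 * c.al - 2000000000000 * N.n * N.j0) / (2 * 10 ^ 20) =
        (G : ℝ) / (2 * 10 ^ 20) + (c.al : ℝ) / 10 ^ 8 - N.n * ((N.j0 : ℝ) / 10 ^ 8) := by ring
      rw [e]
      linarith

end LpSec.ML
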