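import Mathlib
import Pool.Agent.Lib.MP_1dbab3_gt.W.M6

/-!
# Box checker: final form (also `n = 3`)
-/

namespace LpSec.ML

/-- the corner, with the trivial lower bound when nothing else is available -/
def cornerB (c : CellD) (n : ℕ) (d3 : Bool) (e y0 z0 w0 : ℕ) (k : ℕ → ℕ → ℕ → Bool) : Bool :=
  cond (cond (Nat.ble 4096 (Nat.mul n y0)) true (Nat.ble 1 e)) (corner c n d3 e y0 z0 w0 k)
    (k 0 0 0)

/-- the tail with signs: for `n = 3` the third coordinate is determined -/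
def tlB (c : CellD) (n tab y0 y1 z0 z1 w0 w1 g : ℕ) : Bool :=
  cond (Nat.ble n 3)
    (fc (Nat.sub 4096 (Nat.add y1 z1)) fun w0' => fc (mn z1 (Nat.sub 4096 (Nat.add y0 z0))) fun w1' =>
      tlS c tab y0 y1 z0 z1 w0' w1' g)
    (tlS c tab y0 y1 z0 z1 w0 w1 g)

def chkB (c : CellD) (N : NumD) (R : RunD) (tab lb y0 y1 z0 z1 w0 w1 : ℕ) : Bool :=
  cond (Nat.ble y1 4095)
  (cornerB c N.n R.d3 (cond R.low (cond (Nat.ble y1 R.yls)
      (Nat.succ (Nat.div (Nat.mul R.rls y1) 100)) 0) 0) y0 z0 w0 fun a b d =>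
    gn c N lb R.tA a b d y0 fun g =>
    cond (Nat.ble g 0) false (cond (tl c tab y0 y1 z0 z1 w1 g) true
      (cond R.sg (tlB c N.n tab y0 y1 z0 z1 w0 w1 g) false))) false

def goB (c : CellD) (N : NumD) (R : RunD) (tab lb : ℕ) : ℕ → ℕ → ℕ → ℕ → ℕ → ℕ → ℕ → Bool :=
  fun f => Nat.rec (fun _ _ _ _ _ _ => false) (fun _ ih y0 y1 z0 z1 w0 w1 =>
    cond (out N.n R y0 y1 z0 z1 w0 w1) true
    (cond (chkB c N R tab lb y0 y1 z0 z1 w0 w1) true
    (fc (Nat.sub y1 y0) fun dy => fc (Nat.sub z1 z0) fun dz => fc (Nat.sub w1 w0) fun dw =>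
      cond (cond (Nat.ble dz dy) (cond R.d3 (Nat.ble dw dy) true) false)
        (fc (Nat.div (Nat.add y0 y1) 2) fun m => cond (ih y0 m z0 z1 w0 w1)
          (ih m y1 z0 z1 w0 w1) false)
        (cond (cond R.d3 (Nat.ble dw dz) true)
          (fc (Nat.div (Nat.add z0 z1) 2) fun m => cond (ih y0 y1 z0 m w0 w1)
            (ih y0 y1 m z1 w0 w1) false)
          (fc (Nat.div (Nat.add w0 w1) 2) fun m => cond (ih y0 y1 z0 z1 w0 m)
            (ih y0 y1 z0 z1 m w1) false))))) f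

end LpSec.ML
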