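import Mathlib
import Pool.Agent.Lib.MP_1dbab3_gt.W.M6b
import Pool.Agent.Lib.MP_1dbab3_gt.W.M16

/-!
# Soundness of the box checker, part 10: the recursion
-/

open Real MeasureTheory Set Filter Topology

namespace LpSec.ML

variable {α : ℝ}

/-- what is known about the point outside the boxes -/
structure RunHyp (α : ℝ) (c : CellD) (N : NumD) (R : RunD) (lb : ℕ) {n : ℕ} (x : Fin n → ℝ)
    (i j k : Fin n) : Prop where
  lobe : Lobe α
  conc : Conc4 α
  cell : CellOk α c
  num : NumOk α c N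
  cfg : Cfg x i j k
  hd : Dim N.n n
  hn0 : 3 ≤ N.n
  lb : n * Im α n 0 - (lb : ℝ) / 10 ^ 8 ≤ vv α n
  tA : R.tA = true → N.n = n
  sg : R.sg = true → n ≤ 4
  low : R.low = true → x i ≤ (R.yls : ℝ) / 4096 → N.n = n ∧ 4 ≤ n ∧
    ∃ l ∈ ((Finset.univ.erase i).erase j).erase k, x l ≤ (R.rls : ℝ) / 100 * x i
  hy : 1 ≤ N.n * x i
  ls : R.low = false → (R.yls : ℝ) / 4096 < x i
  tr : x i < (R.ytr : ℝ) / 4096
  np : (R.yz : ℝ) / 4096 ≤ x i + x j → (R.q0 : ℝ) / 4096 * (x i + x j) < x i - x j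
  q0 : R.q0 ≤ 4096

theorem RunHyp.sum_le {c : CellD} {N : NumD} {R : RunD} {lb n : ℕ} {x : Fin n → ℝ}
    {i j k : Fin n} (H : RunHyp α c N R lb x i j k) : x i + x j + x k ≤ 1 := by
  have h1 := sum_split x H.cfg.hij
  rw [H.cfg.sum] at h1
  have h2 : x k ≤ ∑ l ∈ (Finset.univ.erase i).erase j, x l :=
    Finset.single_le_sum (fun l _ => H.cfg.nn l) H.cfg.k_mem
  linarith

/-- `n = 3`: the tail with signs, through a fourth coordinate equal to zero -/
theorem tlS3_sound (h : Lobe α) {c : CellD} (hC : CellOk α c)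
    {x : Fin 3 → ℝ} {i j k : Fin 3} (C : Cfg x i j k) {y0 y1 z0 z1 w0 w1 g : ℕ}
    (B : Box (x i) (x j) (x k) y0 y1 z0 z1 w0 w1) (hy1 : y1 ≤ 4095)
    (ht : tlS c etab y0 y1 z0 z1 (4096 - (y1 + z1)) (min z1 (4096 - (y0 + z0))) g = true) :
    ∃ Xe Xt, ExtraOk α (x i) (x j) Xe ∧
      ∫ s in Ioi (LpSec.z1 α / x j), ∏ l, Phi α (x l * s) ≤ Xt ∧
      Xe + Xt < (g : ℝ) / (2 * 10 ^ 20) := by
  set x' : Fin 4 → ℝ := Fin.cons 0 x with hx'
  have e0 : x' 0 = 0 := rfl
  have es : ∀ l : Fin 3, x' l.succ = x l := fun l => rfl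
  have hrest : ∑ l ∈ (Finset.univ.erase i).erase j, x l = x k := by
    have h1 : (((Finset.univ.erase i).erase j).erase k).card = 0 := C.card3
    rw [← Finset.add_sum_erase _ _ C.k_mem, Finset.card_eq_zero.1 h1, Finset.sum_empty, add_zero]
  have hsum := C.rest
  rw [hrest] at hsum
  have C' : Cfg x' i.succ j.succ k.succ :=
    { nn := fun l => by
        refine Fin.cases ?_ (fun l => ?_) l
        · exact le_rfl
        · exact C.nn l
      sum := by rw [Fin.sum_univ_succ, e0, zero_add]; exact C.sum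
      hij := fun h => C.hij (Fin.succ_injective _ h)
      hik := fun h => C.hik (Fin.succ_injective _ h)
      hjk := fun h => C.hjk (Fin.succ_injective _ h)
      hz := fun l => by
        refine Fin.cases (fun _ => ?_) (fun l hl => ?_) l
        · exact C.nn j
        · exact C.hz l fun h => hl (by rw [h])
      hji := C.hji
      hw := fun l => by
        refine Fin.cases (fun _ _ => ?_) (fun l hl1 hl2 => ?_) l
        · exact C.nn k
        · exact C.hw l (fun h => hl1 (by rw [h])) (fun h => hl2 (by rw [h]))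
      hj := C.hj }
  have hya := B.ya
  have hyb := B.yb
  have hza := B.za
  have hzb := B.zb
  have B' : Box (x' i.succ) (x' j.succ) (x' k.succ) y0 y1 z0 z1 (4096 - (y1 + z1))
      (min z1 (4096 - (y0 + z0))) := by
    refine ⟨hya, hyb, hza, hzb, ?_, ?_⟩
    · rw [es, cast_sub_eq, div_le_iff₀ (by norm_num)]
      refine max_le ?_ (mul_nonneg (C.nn k) (by norm_num))
      rw [le_div_iff₀ (by norm_num)] at hyb hzb
      push_cast
      linarith
    · rw [es, le_div_iff₀ (by norm_num), Nat.cast_min]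
      refine le_min ?_ ?_
      · rw [le_div_iff₀ (by norm_num)] at hzb
        have := C.hz k C.hik.symm
        linarith
      · rw [div_le_iff₀ (by norm_num)] at hya hza
        have h1 := sub_le_cast 4096 (y0 + z0)
        push_cast at h1
        linarith
  obtain ⟨Xe, Xt, h1, h2, h3⟩ := tlS_sound h hC C' B' hy1 ht
  refine ⟨Xe, Xt, h1, ?_, h3⟩
  have e : (fun s => ∏ l, Phi α (x' l * s)) = fun s => ∏ l, Phi α (x l * s) := by
    funext s
    rw [Fin.prod_univ_succ, e0, zero_mul, Phi_zero h.one_lt, one_mul]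
    rfl
  rw [e] at h2
  exact h2

theorem cornerB_sound {c : CellD} {n : ℕ} {x : Fin n → ℝ} {i j k : Fin n} (C : Cfg x i j k)
    {n0 : ℕ} (hn0 : 3 ≤ n0) (hd : Dim n0 n) {d3 : Bool} {e : ℕ}
    (he : e ≠ 0 → n0 = n ∧ 4 ≤ n ∧ ∃ l ∈ ((Finset.univ.erase i).erase j).erase k,
      x l ≤ (e : ℝ) / 4096)
    {y0 y1 z0 z1 w0 w1 : ℕ}
    (B : Box (x i) (x j) (x k) y0 y1 z0 z1 w0 w1) {K : ℕ → ℕ → ℕ → Bool}
    (h : cornerB c n0 d3 e y0 z0 w0 K = true) : CGoal c n0 x K := by
  unfold cornerB at h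
  rcases cond_split h with ⟨-, h2⟩ | ⟨-, h2⟩
  · exact corner_sound C hn0 hd he B h2
  · have q2 := powsum_nonneg C.nn C.sum 1
    have q3 := powsum_nonneg C.nn C.sum 2
    have q4 := powsum_nonneg C.nn C.sum 3
    rw [pow_one] at q2
    exact ⟨0, 0, 0, h2, by push_cast; rw [zero_div]; positivity, by
      push_cast; rw [zero_div]; positivity, by push_cast; rw [zero_div]; positivity⟩

theorem chk_sound {c : CellD} {N : NumD} {R : RunD} {lb n : ℕ} {x : Fin n → ℝ}
    {i j k : Fin n} (H : RunHyp α c N R lb x i j k) {y0 y1 z0 z1 w0 w1 : ℕ}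
    (B : Box (x i) (x j) (x k) y0 y1 z0 z1 w0 w1)
    (h : chkB c N R etab lb y0 y1 z0 z1 w0 w1 = true) : J α x < max (AA α) (vv α n) := by
  have C := H.cfg
  have hL := H.lobe
  unfold chkB at h
  obtain ⟨h1, h⟩ := cond_false_eq_true h
  have hy1 : y1 ≤ 4095 := ble_iff.1 h1
  have hy0 : y0 ≤ 4095 := by
    have h2 : (y0 : ℝ) ≤ y1 := by
      have := B.ya.trans B.yb
      rw [div_le_div_iff_of_pos_right (by norm_num)] at this
      exact this
    have : y0 ≤ y1 := by exact_mod_cast h2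
    omega
  have hcs := cornerB_sound C H.hn0 H.hd (fun he => ?_) B h
  · obtain ⟨a, b, d, hk, ha, hb, hdd⟩ := hcs
    obtain ⟨g, hg, hgg⟩ := gn_sound H.num hk
    obtain ⟨hg0, hg⟩ := cond_left hg
    have hGG := hgg (ne_of_ble_false hg0)
    have htail : ∃ Xe Xt, ExtraOk α (x i) (x j) Xe ∧
        ∫ s in Ioi (LpSec.z1 α / x j), ∏ l, Phi α (x l * s) ≤ Xt ∧
        Xe + Xt < (g : ℝ) / (2 * 10 ^ 20) := by
      rcases cond_split hg with ⟨h2, -⟩ | ⟨-, h2⟩
      · exact tl_sound hL H.cell C B hy1 h2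
      · obtain ⟨h3, h4⟩ := cond_false_eq_true h2
        have hn4 := H.sg h3
        have hn3 := C.three_le
        have hd := H.hd
        have hN3 := H.hn0
        unfold tlB at h4
        rcases cond_split h4 with ⟨h5, h6⟩ | ⟨h5, h6⟩
        · have h5' := ble_iff.1 h5
          have hn : n = 3 := by
            rcases hd with hd | hd
            · omega
            · omega
          subst hn
          rw [fc_eq, fc_eq, mn_eq] at h6
          exact tlS3_sound hL H.cell C B hy1 h6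
        · have h5' := ble_false.1 h5
          have hn : n = 4 := by
            rcases hd with hd | hd
            · omega
            · omega
          subst hn
          exact tlS_sound hL H.cell C B hy1 h6
    obtain ⟨Xe, Xt, hXe, hXt, hlt⟩ := htail
    obtain ⟨t0, ht0, ht0', hW⟩ := dig_use hL H.cell H.num B.ya hy0 H.hy
    have hJ := J_le_flat' hL H.conc (by have := H.hn0; omega) H.hd.le C.nn C.sum C.hij C.hz C.hj
      C.hji H.hy (by positivity) H.cell.k0 (by positivity) H.cell.k1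
      (by positivity) (by positivity) (by positivity) ha hb hdd ht0 ht0' hW hXe hXt
    rcases hGG with h5 | ⟨htA, h5⟩
    · have h6 := H.lb
      exact lt_max_of_lt_right (by linarith)
    · have hNn := H.tA htA
      have h6 := H.num.j0
      have h7 := H.cell.al
      have h8 : (n : ℝ) * Im α n 0 ≤ n * ((N.j0 : ℝ) / 10 ^ 8) := by
        rw [hNn] at h6
        gcongr
      rw [hNn] at h5 hJ
      exact lt_max_of_lt_left (by linarith)
  · cases hlow : R.low with
    | false => rw [hlow] at he; exact absurd rfl he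
    | true =>
      cases hyl : Nat.ble y1 R.yls with
      | false => rw [hlow, hyl] at he; exact absurd rfl he
      | true =>
        have h2 : (y1 : ℝ) ≤ R.yls := by exact_mod_cast ble_iff.1 hyl
        obtain ⟨h3, h4, l, hl, hle⟩ := H.low hlow (B.yb.trans (by gcongr))
        refine ⟨h3, h4, l, hl, hle.trans ?_⟩
        show (R.rls : ℝ) / 100 * x i ≤ ((R.rls * y1 / 100 + 1 : ℕ) : ℝ) / 4096
        have h5 : ((R.rls * y1 : ℕ) : ℝ) / ((100 : ℕ) : ℝ) < ((R.rls * y1 / 100 + 1 : ℕ) : ℝ) := by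
          rw [div_lt_iff₀ (by norm_num)]
          have h6 : R.rls * y1 < (R.rls * y1 / 100 + 1) * 100 := by omega
          exact_mod_cast h6
        calc (R.rls : ℝ) / 100 * x i ≤ (R.rls : ℝ) / 100 * ((y1 : ℝ) / 4096) := by
              have := B.yb
              gcongr
          _ = ((R.rls * y1 : ℕ) : ℝ) / ((100 : ℕ) : ℝ) / 4096 := by push_cast; ring
          _ ≤ _ := by gcongr

theorem out_sound {c : CellD} {N : NumD} {R : RunD} {lb n : ℕ} {x : Fin n → ℝ}
    {i j k : Fin n} (H : RunHyp α c N R lb x i j k) {y0 y1 z0 z1 w0 w1 : ℕ}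
    (B : Box (x i) (x j) (x k) y0 y1 z0 z1 w0 w1)
    (h : out N.n R y0 y1 z0 z1 w0 w1 = true) : False := by
  have C := H.cfg
  have hya := B.ya
  have hyb := B.yb
  have hza := B.za
  have hzb := B.zb
  have hwa := B.wa
  have hwb := B.wb
  rw [div_le_iff₀ (by norm_num)] at hya hza hwa
  rw [le_div_iff₀ (by norm_num)] at hyb hzb hwb
  have hcard3 := C.card3
  have h3n := C.three_le
  have hsum1 := sum_split x C.hij
  rw [C.sum, ← Finset.add_sum_erase _ _ C.k_mem] at hsum1
  have hrest : ∀ S : Finset (Fin n), S ⊆ (Finset.univ.erase i).erase j →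
      ∑ l ∈ S, x l ≤ S.card * x k := by
    intro S hS
    have : ∑ l ∈ S, x l ≤ ∑ l ∈ S, x k := Finset.sum_le_sum fun l hl => by
      have h1 := hS hl
      exact C.hw l (Finset.ne_of_mem_erase (Finset.mem_of_mem_erase h1))
        (Finset.ne_of_mem_erase h1)
    rwa [Finset.sum_const, nsmul_eq_mul] at this
  have hkj : x k ≤ x j := C.hz k C.hik.symm
  unfold out at h
  rcases cond_split h with ⟨h1, -⟩ | ⟨-, h⟩
  · obtain ⟨h2, h3⟩ := cond_false_eq_true h1
    have h2' : (y1 : ℝ) ≤ R.yls := by exact_mod_cast ble_iff.1 h2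
    cases hlow : R.low with
    | false =>
      have h4 := H.ls hlow
      rw [div_lt_iff₀ (by norm_num)] at h4
      linarith
    | true =>
      rw [hlow] at h3
      have h4 : R.rls * y1 + 100 * (y1 + z1 + (N.n - 3) * w1) + 1 ≤ 409600 := ble_iff.1 h3
      obtain ⟨h5, h6, l, hl, hle⟩ := H.low hlow (by rw [le_div_iff₀ (by norm_num)]; linarith)
      rw [← Finset.add_sum_erase _ _ hl] at hsum1
      have h7 := hrest ((((Finset.univ.erase i).erase j).erase k).erase l)
        ((Finset.erase_subset _ _).trans (Finset.erase_subset _ _))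
      rw [Finset.card_erase_of_mem hl, hcard3] at h7
      obtain ⟨m, rfl⟩ : ∃ m, n = m + 4 := ⟨n - 4, by omega⟩
      rw [show m + 4 - 3 - 1 = m by omega] at h7
      rw [h5, show m + 4 - 3 = m + 1 by omega] at h4
      have h8 : (R.rls : ℝ) * y1 + 100 * (y1 + z1 + (m + 1) * w1) + 1 ≤ 409600 := by
        exact_mod_cast h4
      have h9 : (m : ℝ) * (x k * 4096) ≤ m * w1 := by gcongr
      have h10 : (R.rls : ℝ) * (x i * 4096) ≤ R.rls * y1 := by gcongr
      linarith
  rcases cond_split h with ⟨h1, -⟩ | ⟨-, h⟩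
  · have h2 : (R.ytr : ℝ) ≤ y0 := by exact_mod_cast ble_iff.1 h1
    have h3 := H.tr
    rw [lt_div_iff₀ (by norm_num)] at h3
    linarith
  rcases cond_split h with ⟨h1, -⟩ | ⟨-, h⟩
  · have h2 : (y1 : ℝ) + 1 ≤ z0 := by exact_mod_cast ble_iff.1 h1
    have := C.hji
    linarith
  rcases cond_split h with ⟨h1, -⟩ | ⟨-, h⟩
  · have h2 : (4097 : ℝ) ≤ y0 + z0 + w0 := by exact_mod_cast ble_iff.1 h1
    have := H.sum_le
    linarith
  rcases cond_split h with ⟨h1, -⟩ | ⟨-, h⟩
  · obtain ⟨h2, h3⟩ := cond_false_eq_true h1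
    have h2' : (R.yz : ℝ) ≤ y0 + z0 := by exact_mod_cast ble_iff.1 h2
    have h3' : 4096 * (y1 - z0) ≤ R.q0 * (y1 + z0) := ble_iff.1 h3
    have h4 := H.np (by rw [div_le_iff₀ (by norm_num)]; linarith)
    have hq := H.q0
    have hqR : (R.q0 : ℝ) ≤ 4096 := by exact_mod_cast hq
    have h5 : 4096 * (y1 : ℝ) ≤ R.q0 * (y1 + z0) + 4096 * z0 := by
      have : 4096 * y1 ≤ R.q0 * (y1 + z0) + 4096 * z0 := by omega
      exact_mod_cast this
    have h6 : x i * 4096 * (4096 - R.q0) ≤ y1 * (4096 - R.q0) := by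
      have : (0 : ℝ) ≤ 4096 - R.q0 := by linarith
      gcongr
    have h7 : (z0 : ℝ) * (4096 + R.q0) ≤ x j * 4096 * (4096 + R.q0) := by gcongr
    have h8 : (R.q0 : ℝ) / 4096 * (x i + x j) * 4096 = R.q0 * (x i + x j) := by ring
    nlinarith
  rcases cond_split h with ⟨h1, -⟩ | ⟨-, h⟩
  · obtain ⟨h2, h3⟩ := cond_false_eq_true h1
    have hNn := H.tA h2
    have h3' : (N.n - 1) * z1 + 1 ≤ 4096 - y1 := ble_iff.1 h3
    obtain ⟨m, hm⟩ : ∃ m, n = m + 3 := ⟨n - 3, by omega⟩
    rw [hNn, hm, show m + 3 - 1 = m + 2 by omega] at h3'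
    have h4 : ((m : ℝ) + 2) * z1 + 1 + y1 ≤ 4096 := by
      have : (m + 2) * z1 + 1 + y1 ≤ 4096 := by omega
      exact_mod_cast this
    have h7 := hrest (((Finset.univ.erase i).erase j).erase k) (Finset.erase_subset _ _)
    have hc3 : ((n - 3 : ℕ) : ℝ) = m := by rw [hm, Nat.add_sub_cancel]
    rw [hcard3, hc3] at h7
    have h9 : (m : ℝ) * (x k * 4096) ≤ m * z1 := by
      have : x k * 4096 ≤ z1 := by linarith
      gcongr
    linarith
  rcases cond_split h with ⟨-, h⟩ | ⟨-, h⟩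
  · rcases cond_split h with ⟨h1, -⟩ | ⟨-, h⟩
    · have h2 : (z1 : ℝ) + 1 ≤ w0 := by exact_mod_cast ble_iff.1 h1
      linarith
    · obtain ⟨h2, h3⟩ := cond_false_eq_true h
      have hNn := H.tA h2
      have h3' : (N.n - 2) * w1 + 1 ≤ 4096 - (y1 + z1) := ble_iff.1 h3
      obtain ⟨m, hm⟩ : ∃ m, n = m + 3 := ⟨n - 3, by omega⟩
      rw [hNn, hm, show m + 3 - 2 = m + 1 by omega] at h3'
      have h4 : ((m : ℝ) + 1) * w1 + 1 + (y1 + z1) ≤ 4096 := by
        have : (m + 1) * w1 + 1 + (y1 + z1) ≤ 4096 := by omega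
        exact_mod_cast this
      have h7 := hrest (((Finset.univ.erase i).erase j).erase k) (Finset.erase_subset _ _)
      have hc3 : ((n - 3 : ℕ) : ℝ) = m := by rw [hm, Nat.add_sub_cancel]
      rw [hcard3, hc3] at h7
      have h9 : (m : ℝ) * (x k * 4096) ≤ m * w1 := by gcongr
      linarith
  · exact absurd h (by simp)

theorem go_sound {c : CellD} {N : NumD} {R : RunD} {lb n : ℕ} {x : Fin n → ℝ}
    {i j k : Fin n} (H : RunHyp α c N R lb x i j k) : ∀ (f : ℕ) {y0 y1 z0 z1 w0 w1 : ℕ},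
    Box (x i) (x j) (x k) y0 y1 z0 z1 w0 w1 →
    goB c N R etab lb f y0 y1 z0 z1 w0 w1 = true → J α x < max (AA α) (vv α n) := by
  intro f
  induction f with
  | zero =>
    intro y0 y1 z0 z1 w0 w1 B h
    exact absurd (show false = true from h) (by simp)
  | succ f ih =>
    intro y0 y1 z0 z1 w0 w1 B h
    have h' : cond (out N.n R y0 y1 z0 z1 w0 w1) true
      (cond (chkB c N R etab lb y0 y1 z0 z1 w0 w1) true
      (fc (Nat.sub y1 y0) fun dy => fc (Nat.sub z1 z0) fun dz => fc (Nat.sub w1 w0) fun dw =>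
        cond (cond (Nat.ble dz dy) (cond R.d3 (Nat.ble dw dy) true) false)
          (fc (Nat.div (Nat.add y0 y1) 2) fun m => cond (goB c N R etab lb f y0 m z0 z1 w0 w1)
            (goB c N R etab lb f m y1 z0 z1 w0 w1) false)
          (cond (cond R.d3 (Nat.ble dw dz) true)
            (fc (Nat.div (Nat.add z0 z1) 2) fun m => cond (goB c N R etab lb f y0 y1 z0 m w0 w1)
              (goB c N R etab lb f y0 y1 m z1 w0 w1) false)
            (fc (Nat.div (Nat.add w0 w1) 2) fun m => cond (goB c N R etab lb f y0 y1 z0 z1 w0 m)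
              (goB c N R etab lb f y0 y1 z0 z1 m w1) false)))) = true := h
    rcases cond_split h' with ⟨h1, -⟩ | ⟨-, h1⟩
    · exact (out_sound H B h1).elim
    rcases cond_split h1 with ⟨h2, -⟩ | ⟨-, h2⟩
    · exact chk_sound H B h2
    rw [fc_eq, fc_eq, fc_eq] at h2
    rcases cond_split h2 with ⟨-, h3⟩ | ⟨-, h3⟩
    · rw [fc_eq] at h3
      obtain ⟨h4, h5⟩ := cond_false_eq_true h3
      rcases le_total (x i) (((Nat.div (Nat.add y0 y1) 2 : ℕ) : ℝ) / 4096) with h6 | h6
      · exact ih ⟨B.ya, h6, B.za, B.zb, B.wa, B.wb⟩ h4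
      · exact ih ⟨h6, B.yb, B.za, B.zb, B.wa, B.wb⟩ h5
    rcases cond_split h3 with ⟨-, h3⟩ | ⟨-, h3⟩
    · rw [fc_eq] at h3
      obtain ⟨h4, h5⟩ := cond_false_eq_true h3
      rcases le_total (x j) (((Nat.div (Nat.add z0 z1) 2 : ℕ) : ℝ) / 4096) with h6 | h6
      · exact ih ⟨B.ya, B.yb, B.za, h6, B.wa, B.wb⟩ h4
      · exact ih ⟨B.ya, B.yb, h6, B.zb, B.wa, B.wb⟩ h5
    · rw [fc_eq] at h3
      obtain ⟨h4, h5⟩ := cond_false_eq_true h3
      rcases le_total (x k) (((Nat.div (Nat.add w0 w1) 2 : ℕ) : ℝ) / 4096) with h6 | h6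
      · exact ih ⟨B.ya, B.yb, B.za, B.zb, B.wa, h6⟩ h4
      · exact ih ⟨B.ya, B.yb, B.za, B.zb, h6, B.wb⟩ h5

end LpSec.ML
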