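import Mathlib
import Pool.Agent.Lib.MP_1dbab3_gt.WBase
import Pool.Agent.Lib.MP_1dbab3_gt.W.LSat
import Pool.Agent.Lib.MP_1dbab3_gt.W.M17

/-!
# The window, `n ≥ 4`: large maximum, order of the coordinates, odd dimensions
-/

open Real MeasureTheory Set Filter Topology

namespace LpSec.ML

variable {α : ℝ}

/-- the region of a large maximum -/
theorem J_lt_AA_of_big (hα : 1 < α) {n : ℕ} {x : Fin n → ℝ} (hx : ∀ i, 0 ≤ x i)
    (h1 : ∑ i, x i = 1) (hlt : ∀ i, x i < 1) {i j : Fin n} (hij : i ≠ j) (hj : 0 < x j)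
    (hi : (2 : ℝ) ^ (1 / α - 1) ≤ x i) : J α x < AA α := by
  obtain ⟨m, rfl⟩ : ∃ m, n = m + 1 := ⟨n - 1, by have := i.2; omega⟩
  set a : EuclideanSpace ℂ (Fin (m + 1)) := WithLp.toLp 2 (fun i => ((√(x i) : ℝ) : ℂ)) with haD
  have hai : ∀ i, ‖a i‖ ^ 2 = x i := fun i => by
    have : a i = ((√(x i) : ℝ) : ℂ) := rfl
    rw [this, Complex.norm_real, Real.norm_of_nonneg (Real.sqrt_nonneg _), Real.sq_sqrt (hx i)]
  have ha : ‖a‖ = 1 := by
    rw [EuclideanSpace.norm_eq]
    simp only [hai]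
    rw [h1, Real.sqrt_one]
  have hi0 : 0 < x i := lt_of_lt_of_le (by positivity) hi
  have hne : a i ≠ 0 := by
    intro h
    have := hai i
    rw [h, norm_zero] at this
    norm_num at this
    exact hi0.ne this
  have h2 := sec_le_pair hα a ha i j hij hne
  have hJ := J_pos hα a ha (fun i => by rw [hai i]; exact hlt i)
  rw [sec_eq_J hα a ha (fun i => by rw [hai i]; exact hlt i)] at h2
  simp only [hai] at h2 hJ
  have hc := cst_pos hα m
  have hD : 0 < DD α := DD_pos (by linarith)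
  have hu : 0 < 1 / α := by
    have : 0 < α := by linarith
    positivity
  have h3 : (x i ^ α + x j ^ α) ^ (-(1 / α)) < 2 ^ (1 - 1 / α) := by
    have hα0 : 0 < α := by linarith
    have p1 : 0 < x i ^ α := by positivity
    have p2 : 0 < x j ^ α := by positivity
    calc (x i ^ α + x j ^ α) ^ (-(1 / α)) < (x i ^ α) ^ (-(1 / α)) :=
          rpow_lt_rpow_of_neg p1 (by linarith) (by linarith)
      _ = (x i)⁻¹ := by
          rw [← rpow_mul hi0.le]
          have : α * -(1 / α) = -1 := by field_simp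
          rw [this, rpow_neg_one]
      _ ≤ (2 ^ (1 / α - 1))⁻¹ := by
          gcongr
      _ = 2 ^ (1 - 1 / α) := by
          rw [← rpow_neg (by norm_num)]
          congr 1
          ring
  have h4 : cst α m * DD α * J α x ≤ cst α m * (x i ^ α + x j ^ α) ^ (-(1 / α)) := by
    refine (ENNReal.ofReal_le_ofReal_iff ?_).1 h2
    have : (0 : ℝ) ≤ (x i ^ α + x j ^ α) ^ (-(1 / α)) := by
      have := hx i
      have := hx j
      positivity
    positivity
  have hDA : DD α * AA α = 2 ^ (1 - 1 / α) := by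
    unfold AA
    field_simp
  have h5 : cst α m * DD α * J α x < cst α m * DD α * AA α := by
    rw [mul_assoc _ _ (AA α), hDA]
    exact h4.trans_lt (mul_lt_mul_of_pos_left h3 hc)
  exact lt_of_mul_lt_mul_left h5 (by positivity)

/-- the order of the coordinates -/
theorem exists_cfg {n : ℕ} (hn : 3 ≤ n) {x : Fin n → ℝ} (hx : ∀ i, 0 ≤ x i)
    (h1 : ∑ i, x i = 1) (hlt : ∀ i, x i < 1) : ∃ i j k, Cfg x i j k := by
  obtain ⟨i, -, hi⟩ := Finset.exists_max_image (Finset.univ : Finset (Fin n)) x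
    ⟨⟨0, by omega⟩, Finset.mem_univ _⟩
  have c1 : (Finset.univ.erase i : Finset (Fin n)).card = n - 1 := by
    rw [Finset.card_erase_of_mem (Finset.mem_univ i), Finset.card_univ, Fintype.card_fin]
  obtain ⟨j, hj, hj'⟩ := Finset.exists_max_image (Finset.univ.erase i : Finset (Fin n)) x
    (Finset.card_pos.1 (by omega))
  have c2 : ((Finset.univ.erase i).erase j : Finset (Fin n)).card = n - 2 := by
    rw [Finset.card_erase_of_mem hj, c1]
    omega
  obtain ⟨k, hk, hk'⟩ := Finset.exists_max_image ((Finset.univ.erase i).erase j : Finset (Fin n)) x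
    (Finset.card_pos.1 (by omega))
  have hji : j ≠ i := Finset.ne_of_mem_erase hj
  have hkj : k ≠ j := Finset.ne_of_mem_erase hk
  have hki : k ≠ i := Finset.ne_of_mem_erase (Finset.mem_of_mem_erase hk)
  refine ⟨i, j, k, hx, h1, hji.symm, hki.symm, hkj.symm, fun l hl => ?_, hi j (Finset.mem_univ j),
    fun l hl1 hl2 => ?_, ?_⟩
  · exact hj' l (Finset.mem_erase.2 ⟨hl, Finset.mem_univ l⟩)
  · exact hk' l (Finset.mem_erase.2 ⟨hl2, Finset.mem_erase.2 ⟨hl1, Finset.mem_univ l⟩⟩)
  · by_contra h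
    have h0 : ∑ l ∈ Finset.univ.erase i, x l ≤ 0 := Finset.sum_nonpos fun l hl => by
      have := hj' l hl
      linarith
    have h2 := Finset.add_sum_erase Finset.univ x (Finset.mem_univ i)
    rw [h1] at h2
    have := hlt i
    linarith

/-- the value at the flat point, even dimension -/
theorem lb_even (h : Lobe α) {n : ℕ} (hn : 2 ≤ n) (he : Even n) :
    n * Im α n 0 - ((0 : ℕ) : ℝ) / 10 ^ 8 ≤ vv α n := by
  have h1 := vv_lower h hn
  unfold lob at h1
  rw [if_pos he] at h1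
  simpa using h1

theorem exp_dim (h : Lobe α) : ∀ (d m : ℕ), 1 ≤ m →
    ((m + d : ℕ) : ℝ) * exp (-(cc α * ((m + d : ℕ) - 2))) ≤ m * exp (-(cc α * (m - 2))) := by
  intro d
  induction d with
  | zero => intro m _; simp
  | succ d ih =>
    intro m hm
    refine le_trans ?_ (ih m hm)
    have hc1 := cc_ge_one h
    have hmd : (1 : ℝ) ≤ ((m + d : ℕ) : ℝ) := by exact_mod_cast (by omega : 1 ≤ m + d)
    set M : ℝ := ((m + d : ℕ) : ℝ) with hM
    have e1 : ((m + (d + 1) : ℕ) : ℝ) = M + 1 := by rw [hM]; push_cast; ring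
    rw [e1]
    have e2 : exp (-(cc α * (M + 1 - 2))) = exp (-(cc α * (M - 2))) * exp (-cc α) := by
      rw [← exp_add]; congr 1; ring
    rw [e2]
    have h2 : exp (-cc α) ≤ 1 / 2 := by
      calc exp (-cc α) ≤ exp (-1) := exp_le_exp.2 (by linarith)
        _ ≤ 1 / 2 := by
            have := Real.add_one_le_exp (1 : ℝ)
            rw [exp_neg, ← one_div]
            exact one_div_le_one_div_of_le (by norm_num) (by linarith)
    have h3 : (0 : ℝ) < exp (-(cc α * (M - 2))) := exp_pos _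
    have h4 : (M + 1) * exp (-cc α) ≤ M := by nlinarith
    calc (M + 1) * (exp (-(cc α * (M - 2))) * exp (-cc α)) =
        exp (-(cc α * (M - 2))) * ((M + 1) * exp (-cc α)) := by ring
      _ ≤ exp (-(cc α * (M - 2))) * M := by gcongr
      _ = M * exp (-(cc α * (M - 2))) := by ring

theorem lb_sound (h : Lobe α) {c : CellD} (hC : CellOk α c) {n n0 : ℕ} (hn : n0 ≤ n)
    (h2 : 2 ≤ n0) : n * Im α n 0 - (lbn c etab n0 : ℝ) / 10 ^ 8 ≤ vv α n := by
  have h1 := vv_lower h (h2.trans hn)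
  have hT := T2_nonneg α (LpSec.z1 α)
  have h3 : n * lob α n ≤ (lbn c etab n0 : ℝ) / 10 ^ 8 := by
    have h4 : (n : ℝ) * lob α n ≤ n * (exp (-(cc α * (n - 2))) * T2 α (LpSec.z1 α)) := by
      unfold lob
      split_ifs
      · rw [mul_zero]; positivity
      · exact le_rfl
    refine h4.trans ?_
    obtain ⟨d, rfl⟩ : ∃ d, n = n0 + d := ⟨n - n0, by omega⟩
    have h5 := exp_dim h d n0 (by omega)
    have h6 : ((n0 + d : ℕ) : ℝ) * (exp (-(cc α * ((n0 + d : ℕ) - 2))) * T2 α (LpSec.z1 α)) ≤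
        (n0 * exp (-(cc α * (n0 - 2)))) * T2 α (LpSec.z1 α) := by
      rw [← mul_assoc]
      gcongr
    refine h6.trans ?_
    set E := En etab (128 * c.cc * (n0 - 2) / 100000000) with hE
    have h7 : exp (-(cc α * (n0 - 2))) ≤ (E : ℝ) / 10 ^ 9 := by
      refine En_sound ?_
      refine (natdiv_le _ _).trans ?_
      have h8 := hC.cc
      rw [div_le_iff₀ (by norm_num)] at h8 ⊢
      push_cast [Nat.cast_sub h2]
      have h9 : (0 : ℝ) ≤ (n0 : ℝ) - 2 := by
        have : (2 : ℝ) ≤ n0 := by exact_mod_cast h2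
        linarith
      have h10 : (c.cc : ℝ) * ((n0 : ℝ) - 2) ≤ cc α * 10 ^ 8 * ((n0 : ℝ) - 2) := by gcongr
      norm_num at h10 ⊢
      linarith
    have e1 : lbn c etab n0 = n0 * c.h * E / 1000000000 + 1 := rfl
    rw [e1]
    have h8 : ((n0 * c.h * E : ℕ) : ℝ) / 1000000000 < ((n0 * c.h * E / 1000000000 + 1 : ℕ) : ℝ) := by
      rw [div_lt_iff₀ (by norm_num)]
      have h6 : n0 * c.h * E < (n0 * c.h * E / 1000000000 + 1) * 1000000000 := by omega
      exact_mod_cast h6
    have h9 : (n0 * exp (-(cc α * (n0 - 2)))) * T2 α (LpSec.z1 α) ≤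
        (n0 * ((E : ℝ) / 10 ^ 9)) * ((c.h : ℝ) / 10 ^ 8) := by
      have := hC.h
      gcongr
    refine h9.trans ?_
    rw [le_div_iff₀ (by norm_num)]
    refine le_trans (le_of_eq ?_) h8.le
    push_cast
    ring
  linarith

end LpSec.ML
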