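import Mathlib
import Pool.Agent.Lib.MP_1dbab3_gt.W.M18

/-!
# The neighbourhood of the pair, part 1: the main part
-/

open Real MeasureTheory Set Filter Topology

namespace LpSec.ML

variable {α : ℝ}

/-- `e^{-a/(1+q)} + e^{-a/(1-q)} ≤ 2 e^{-a}` -/
theorem exp_pair {a q : ℝ} (ha : 0 ≤ a) (hq0 : 0 ≤ q) (hq1 : q < 1) (haq : a ≤ 2 * (1 - q)) :
    exp (-(a / (1 + q))) + exp (-(a / (1 - q))) ≤ 2 * exp (-a) := by
  have h1 : 0 < 1 + q := by linarith
  have h2 : 0 < 1 - q := by linarith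
  have e1 : exp (-(a / (1 + q))) = exp (-a) * exp (a * q / (1 + q)) := by
    rw [← exp_add]; congr 1; field_simp; ring
  have e2 : exp (-(a / (1 - q))) = exp (-a) * exp (-(a * q / (1 - q))) := by
    rw [← exp_add]; congr 1; field_simp; ring
  have b1 : exp (a * q / (1 + q)) ≤ 1 + a * q := by
    have h3 : 0 ≤ a * q := by positivity
    rw [← le_log_iff_exp_le (by linarith)]
    refine le_trans ?_ (Real.le_log_one_add_of_nonneg h3)
    rw [div_le_div_iff₀ h1 (by linarith)]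
    have : a * q * (a * q + 2) ≤ 2 * (a * q) * (1 + q) := by
      have : a * q + 2 ≤ 2 * (1 + q) := by nlinarith
      nlinarith
    linarith
  have b2 : exp (-(a * q / (1 - q))) ≤ 1 - a * q := by
    have h3 : 0 ≤ a * q / (1 - q) := by positivity
    refine (exp_neg_le_quad h3).trans ?_
    have h4 : (a * q / (1 - q)) ^ 2 / 2 ≤ a * q ^ 2 / (1 - q) := by
      rw [div_pow, div_div, div_le_div_iff₀ (by positivity) h2]
      have h5 : (a * q) ^ 2 * (1 - q) = a * q ^ 2 * (a * (1 - q)) := by ring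
      rw [h5]
      have h6 : a * (1 - q) ≤ (1 - q) ^ 2 * 2 := by nlinarith
      nlinarith [mul_nonneg ha (sq_nonneg q)]
    have h7 : a * q / (1 - q) = a * q + a * q ^ 2 / (1 - q) := by field_simp; ring
    linarith
  rw [e1, e2, ← mul_add]
  have := exp_pos (-a)
  nlinarith

/-- (P) the main part near a pair: the rest is bounded by the exponential -/
theorem main_exp (h : Lobe α) {n : ℕ} {x : Fin n → ℝ} (hx : ∀ k, 0 ≤ x k)
    {i j : Fin n} (hij : i ≠ j) {σ : ℝ}
    (hσ : ∑ k ∈ (Finset.univ.erase i).erase j, x k = σ)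
    (hi : 0 < x i) (hxy : ∀ k, x k ≤ x i) :
    ∫ s in (0 : ℝ)..(z1 α / x i), ∏ k, Phi α (x k * s) ≤
      ∫ s in (0 : ℝ)..(z1 α / x i), Phi α (x i * s) * Phi α (x j * s) * exp (-(σ * s)) := by
  have hc := h.z1_pos
  have hb : 0 ≤ z1 α / x i := by positivity
  refine interval_mono hb (prod_cont_Icc h.one_lt hx le_rfl hb) ?_ ?_
  · refine ContinuousOn.intervalIntegrable ?_
    rw [uIcc_of_le hb]
    refine ContinuousOn.mono ?_ (Icc_subset_Ici_self : Icc 0 (z1 α / x i) ⊆ Ici 0)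
    exact ((Phi_scale_cont h.one_lt (hx i)).mul (Phi_scale_cont h.one_lt (hx j))).mul
      (by fun_prop)
  · intro s hs0 hs
    rw [lt_div_iff₀ hi] at hs
    have hlt : ∀ k, x k * s < z1 α := fun k => lt_of_le_of_lt (by nlinarith [hxy k]) hs
    rw [prod_split _ hij, mul_assoc]
    have hi0 := (h.pos _ (mul_nonneg (hx i) hs0) (hlt i)).le
    have hj0 := (h.pos _ (mul_nonneg (hx j) hs0) (hlt j)).le
    refine mul_le_mul_of_nonneg_left (mul_le_mul_of_nonneg_left ?_ hj0) hi0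
    rw [← hσ, Finset.sum_mul, ← Finset.sum_neg_distrib, exp_sum]
    exact Finset.prod_le_prod (fun k _ => (h.pos _ (mul_nonneg (hx k) hs0) (hlt k)).le)
      fun k _ => h.le_exp (mul_nonneg (hx k) hs0) (hlt k).le

/-- two factors against their mean: `y = m (1 + q)`, `z = m (1 - q)` -/
theorem two_le (h : Lobe α) {m q s : ℝ} (hm : 0 ≤ m) (hq0 : 0 ≤ q) (hq1 : q ≤ 1) (hs : 0 ≤ s)
    (hys : m * (1 + q) * s < z1 α) {κ0 κ1 : ℝ} (hκ0 : κ0 ≤ k0 α) (hκ1 : κ1 ≤ k1 α) :
    Phi α (m * (1 + q) * s) * Phi α (m * (1 - q) * s) ≤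
      Phi α (m * s) ^ 2 * exp (-((κ0 + κ1 * (m * s)) * q ^ 2 * (m * s) ^ 2)) := by
  have hms : 0 ≤ m * s := mul_nonneg hm hs
  have h0 : 0 ≤ m * (1 + q) * s := by positivity
  have h0' : 0 ≤ m * (1 - q) * s := mul_nonneg (mul_nonneg hm (by linarith)) hs
  have h1' : m * (1 - q) * s < z1 α := lt_of_le_of_lt (by nlinarith) hys
  have hj := h.prod_le (Finset.univ : Finset (Fin 2)) ⟨0, Finset.mem_univ _⟩
    (![m * (1 + q) * s, m * (1 - q) * s]) (by
      intro i _; fin_cases i <;> simpa using by assumption) (by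
      intro i _; fin_cases i <;> simpa using by assumption) (T := m * s) (by
      simp [Fin.sum_univ_two]; ring)
  simp only [Fin.prod_univ_two, Fin.sum_univ_two, Matrix.cons_val_zero, Matrix.cons_val_one,
    Finset.card_univ, Fintype.card_fin] at hj
  refine hj.trans (mul_le_mul_of_nonneg_left (exp_le_exp.2 (neg_le_neg ?_)) (sq_nonneg _))
  have e : k0 α * ((m * (1 + q) * s) ^ 2 + (m * (1 - q) * s) ^ 2 - ((2 : ℕ) : ℝ) * (m * s) ^ 2) / 2 +
      k1 α * ((m * (1 + q) * s) ^ 3 + (m * (1 - q) * s) ^ 3 - ((2 : ℕ) : ℝ) * (m * s) ^ 3) / 6 =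
      (k0 α + k1 α * (m * s)) * q ^ 2 * (m * s) ^ 2 := by
    push_cast
    ring
  rw [e]
  gcongr

/-- the weight of a near pair after scaling -/
theorem near_cont (hα : 1 < α) (κ0 κ1 a q : ℝ) {b : ℝ} (hb : 0 ≤ b) :
    IntervalIntegrable (fun r => Phi α r ^ 2 * exp (-(a * r)) *
      exp (-((κ0 + κ1 * r) * q ^ 2 * r ^ 2))) volume 0 b := by
  refine ContinuousOn.intervalIntegrable ?_
  rw [uIcc_of_le hb]
  refine ContinuousOn.mul (ContinuousOn.mul ?_ (by fun_prop)) (by fun_prop)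
  exact ((Phi_continuousOn hα).mono Icc_subset_Ici_self).pow 2

/-- (P') the main part near a pair -/
theorem main_near (h : Lobe α) {n : ℕ} {x : Fin n → ℝ} (hx : ∀ k, 0 ≤ x k)
    {i j : Fin n} (hij : i ≠ j) {m q τ : ℝ} (hm : 0 < m) (hq0 : 0 ≤ q) (hq1 : q ≤ 1)
    (hi : x i = m * (1 + q)) (hj : x j = m * (1 - q))
    (hτ : ∑ k ∈ (Finset.univ.erase i).erase j, x k = 2 * m * τ) (hxy : ∀ k, x k ≤ x i)
    {κ0 κ1 : ℝ} (hκ0 : κ0 ≤ k0 α) (hκ1 : κ1 ≤ k1 α) :
    ∫ s in (0 : ℝ)..(z1 α / x i), ∏ k, Phi α (x k * s) ≤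
      (∫ r in (0 : ℝ)..(z1 α), Phi α r ^ 2 * exp (-(2 * τ * r)) *
        exp (-((κ0 + κ1 * r) * q ^ 2 * r ^ 2))) / m := by
  have hc := h.z1_pos
  have hi0 : 0 < x i := by rw [hi]; positivity
  have hb : 0 ≤ z1 α / x i := by positivity
  refine (main_exp h hx hij hτ hi0 hxy).trans ?_
  set f : ℝ → ℝ := fun r => Phi α r ^ 2 * exp (-(2 * τ * r)) *
        exp (-((κ0 + κ1 * r) * q ^ 2 * r ^ 2)) with hf
  have hfc : ∀ {b : ℝ}, 0 ≤ b → IntervalIntegrable f volume 0 b := fun hb =>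
    near_cont h.one_lt κ0 κ1 (2 * τ) q hb
  have hfm : IntervalIntegrable (fun s => f (m * s)) volume 0 (z1 α / x i) := by
    refine ContinuousOn.intervalIntegrable ?_
    rw [uIcc_of_le hb]
    simp only [hf]
    refine ContinuousOn.mul (ContinuousOn.mul ?_ (by fun_prop)) (by fun_prop)
    exact ((Phi_scale_cont h.one_lt hm.le).mono Icc_subset_Ici_self).pow 2
  have h1 : ∫ s in (0 : ℝ)..(z1 α / x i), Phi α (x i * s) * Phi α (x j * s) *
      exp (-(2 * m * τ * s)) ≤ ∫ s in (0 : ℝ)..(z1 α / x i), f (m * s) := by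
    refine interval_mono hb ?_ hfm ?_
    · refine ContinuousOn.intervalIntegrable ?_
      rw [uIcc_of_le hb]
      refine ContinuousOn.mono ?_ (Icc_subset_Ici_self : Icc 0 (z1 α / x i) ⊆ Ici 0)
      exact ((Phi_scale_cont h.one_lt (hx i)).mul (Phi_scale_cont h.one_lt (hx j))).mul
        (by fun_prop)
    · intro s hs0 hs
      rw [lt_div_iff₀ hi0] at hs
      have h2 := two_le h hm.le hq0 hq1 hs0 (by rw [← hi]; linarith) hκ0 hκ1
      rw [hi, hj]
      simp only [hf]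
      have e : exp (-(2 * τ * (m * s))) = exp (-(2 * m * τ * s)) := by congr 1; ring
      rw [e, mul_assoc (Phi α (m * s) ^ 2), mul_comm (exp (-(2 * m * τ * s))), ← mul_assoc]
      exact mul_le_mul_of_nonneg_right h2 (exp_pos _).le
  refine h1.trans ?_
  rw [intervalIntegral.integral_comp_mul_left f hm.ne', mul_zero, smul_eq_mul, inv_mul_eq_div]
  refine div_le_div_of_nonneg_right ?_ hm.le
  have hle : m * (z1 α / x i) ≤ z1 α := by
    rw [mul_div_assoc', div_le_iff₀ hi0, hi]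
    nlinarith [mul_nonneg (mul_nonneg hc.le hm.le) hq0]
  have h3 : ∫ r in (0 : ℝ)..(z1 α), f r = (∫ r in (0 : ℝ)..(m * (z1 α / x i)), f r) +
      ∫ r in (m * (z1 α / x i))..(z1 α), f r :=
    (intervalIntegral.integral_add_adjacent_intervals (hfc (by positivity))
      ((hfc hc.le).mono_set (by
        rw [uIcc_of_le hle, uIcc_of_le hc.le]
        exact Icc_subset_Icc_left (by positivity)))).symm
  rw [h3]
  have h4 : 0 ≤ ∫ r in (m * (z1 α / x i))..(z1 α), f r :=
    intervalIntegral.integral_nonneg hle fun r _ => by simp only [hf]; positivity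
  linarith

end LpSec.ML
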