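import Mathlib
import Pool.Agent.Lib.MP_1dbab3_gt.W.M19

/-!
# The neighbourhood of the pair, part 2: the tail in five steps, and the comparison
-/

open Real MeasureTheory Set Filter Topology

namespace LpSec.ML

variable {α : ℝ}

/-- the five values of `T2` in the neighbourhood of the pair -/
noncomputable def Tq (α : ℝ) (q : ℕ) : ℝ := T2 α ((q : ℝ) / 4 * z1 α)

theorem Tq_nonneg (α : ℝ) (q : ℕ) : 0 ≤ Tq α q := T2_nonneg _ _

theorem Tq_anti (h : Lobe α) {p q : ℕ} (hpq : p ≤ q) : Tq α q ≤ Tq α p := by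
  have hc := h.z1_pos
  refine T2_anti h.one_lt (by positivity) ?_
  have : (p : ℝ) ≤ q := by exact_mod_cast hpq
  gcongr

theorem Tq_four (α : ℝ) : Tq α 4 = T2 α (z1 α) := by
  unfold Tq
  norm_num

/-- the weighted tail: `E q` is the weight from `q / 4` on -/
noncomputable def tailE (α : ℝ) (E : ℕ → ℝ) : ℝ :=
  E 4 * (Tq α 4 - Tq α 5) + E 5 * (Tq α 5 - Tq α 6) + E 6 * (Tq α 6 - Tq α 7) +
    E 7 * (Tq α 7 - Tq α 8) + E 8 * Tq α 8

theorem tailE_mono (h : Lobe α) {E F : ℕ → ℝ} (hEF : ∀ q, 4 ≤ q → q ≤ 8 → E q ≤ F q) :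
    tailE α E ≤ tailE α F := by
  unfold tailE
  have a4 := mul_le_mul_of_nonneg_right (hEF 4 (by norm_num) (by norm_num))
    (sub_nonneg.2 (Tq_anti h (show 4 ≤ 5 by norm_num)))
  have a5 := mul_le_mul_of_nonneg_right (hEF 5 (by norm_num) (by norm_num))
    (sub_nonneg.2 (Tq_anti h (show 5 ≤ 6 by norm_num)))
  have a6 := mul_le_mul_of_nonneg_right (hEF 6 (by norm_num) (by norm_num))
    (sub_nonneg.2 (Tq_anti h (show 6 ≤ 7 by norm_num)))
  have a7 := mul_le_mul_of_nonneg_right (hEF 7 (by norm_num) (by norm_num))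
    (sub_nonneg.2 (Tq_anti h (show 7 ≤ 8 by norm_num)))
  have a8 := mul_le_mul_of_nonneg_right (hEF 8 (by norm_num) (by norm_num)) (Tq_nonneg α 8)
  linarith

theorem tailE_nonneg (h : Lobe α) {E : ℕ → ℝ} (hE : ∀ q, 4 ≤ q → q ≤ 8 → 0 ≤ E q) :
    0 ≤ tailE α E := by
  have := tailE_mono h (E := fun _ => 0) (F := E) hE
  unfold tailE at this ⊢
  simpa using this

/-- the part of scale `v` of the tail near the pair -/
theorem near_part (h : Lobe α) {v b : ℝ} (hv : 0 < v) (hvb : z1 α / v ≤ b) {W : ℝ → ℝ}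
    (hW : Antitone W) (hW0 : ∀ s, 0 ≤ W s) (hWc : Measurable W) {R : ℕ → ℝ}
    (hR : ∀ q : ℕ, 4 ≤ q → q ≤ 8 → W (max ((q : ℝ) / 4 * z1 α / v) b) ≤ R q)
    (hR' : ∀ q, 4 ≤ q → R (q + 1) ≤ R q) :
    ∫ s in Ioi b, Phi α (v * s) ^ 2 * W s ≤ tailE α R / v := by
  have hc := h.z1_pos
  have e : ∀ q : ℕ, v * ((q : ℝ) / 4 * z1 α / v) = (q : ℝ) / 4 * z1 α := fun q => by field_simp
  have hle : ∀ q : ℕ, ((q : ℕ) : ℝ) / 4 * z1 α / v ≤ ((q + 1 : ℕ) : ℝ) / 4 * z1 α / v := fun q => by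
    push_cast
    gcongr
    linarith
  have h4 : ((4 : ℕ) : ℝ) / 4 * z1 α / v = z1 α / v := by norm_num
  have hp := part_steps (α := α) h.one_lt (v := v) (a := ((4 : ℕ) : ℝ) / 4 * z1 α / v) (b := b)
    (R0 := R 4) (H := Tq α 4) hv (by positivity) (by rw [h4]; exact hvb) hW hW0 hWc
    [(((5 : ℕ) : ℝ) / 4 * z1 α / v, R 5, Tq α 5), (((6 : ℕ) : ℝ) / 4 * z1 α / v, R 6, Tq α 6),
      (((7 : ℕ) : ℝ) / 4 * z1 α / v, R 7, Tq α 7), (((8 : ℕ) : ℝ) / 4 * z1 α / v, R 8, Tq α 8)]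
    (by rw [e 4]; exact le_rfl) ((hW0 _).trans (hR 4 le_rfl (by norm_num)))
    ⟨hR 4 (by norm_num) (by norm_num), hle 4, hR' 4 (by norm_num), by rw [e 5]; exact le_rfl,
      hR 5 (by norm_num) (by norm_num), hle 5, hR' 5 (by norm_num), by rw [e 6]; exact le_rfl,
      hR 6 (by norm_num) (by norm_num), hle 6, hR' 6 (by norm_num), by rw [e 7]; exact le_rfl,
      hR 7 (by norm_num) (by norm_num), hle 7, hR' 7 (by norm_num), by rw [e 8]; exact le_rfl,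
      hR 8 (by norm_num) (by norm_num)⟩
  refine hp.trans (le_of_eq ?_)
  congr 1
  unfold tailE
  simp only [numR]
  ring

/-- the function of the pair neighbourhood -/
noncomputable def Kf (α c s : ℝ) : ℝ :=
  (∫ r in (0 : ℝ)..(z1 α), Phi α r ^ 2 * exp (-(2 * s * r))) +
    tailE α (fun q => exp (-(2 * c * ((q : ℝ) / 4) * s)))

theorem near_cont' (hα : 1 < α) (a : ℝ) {b : ℝ} (hb : 0 ≤ b) :
    IntervalIntegrable (fun r => Phi α r ^ 2 * exp (-(a * r))) volume 0 b := by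
  refine ContinuousOn.intervalIntegrable ?_
  rw [uIcc_of_le hb]
  refine ContinuousOn.mul ?_ (by fun_prop)
  exact ((Phi_continuousOn hα).mono Icc_subset_Ici_self).pow 2

theorem Kf_zero (h : Lobe α) (c : ℝ) : Kf α c 0 = AA α / 2 := by
  have hc := h.z1_pos
  have h1 := T2_sub h.one_lt le_rfl hc.le
  rw [T2_zero h.one_lt] at h1
  unfold Kf tailE
  simp only [mul_zero, zero_mul, neg_zero, exp_zero, mul_one, one_mul]
  rw [h1, Tq_four]
  ring

theorem exp_chord {a s t lam : ℝ} (h0 : 0 ≤ lam) (h1 : lam ≤ 1) :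
    exp (-(a * ((1 - lam) * s + lam * t))) ≤ (1 - lam) * exp (-(a * s)) + lam * exp (-(a * t)) := by
  have h := convexOn_exp.2 (mem_univ (-(a * s))) (mem_univ (-(a * t)))
    (show 0 ≤ 1 - lam by linarith) h0 (by ring)
  simp only [smul_eq_mul] at h
  have e : (1 - lam) * -(a * s) + lam * -(a * t) = -(a * ((1 - lam) * s + lam * t)) := by ring
  rwa [e] at h

theorem tailE_lin (a b : ℝ) (E F : ℕ → ℝ) :
    tailE α (fun q => a * E q + b * F q) = a * tailE α E + b * tailE α F := by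
  unfold tailE
  ring

theorem Kf_chord (h : Lobe α) (c : ℝ) {s t lam : ℝ} (h0 : 0 ≤ lam) (h1 : lam ≤ 1) :
    Kf α c ((1 - lam) * s + lam * t) ≤ (1 - lam) * Kf α c s + lam * Kf α c t := by
  have hc := h.z1_pos
  have g1 : ∫ r in (0 : ℝ)..(z1 α), Phi α r ^ 2 * exp (-(2 * ((1 - lam) * s + lam * t) * r)) ≤
      (1 - lam) * (∫ r in (0 : ℝ)..(z1 α), Phi α r ^ 2 * exp (-(2 * s * r))) +
      lam * ∫ r in (0 : ℝ)..(z1 α), Phi α r ^ 2 * exp (-(2 * t * r)) := by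
    rw [← intervalIntegral.integral_const_mul, ← intervalIntegral.integral_const_mul,
      ← intervalIntegral.integral_add ((near_cont' h.one_lt _ hc.le).const_mul _)
        ((near_cont' h.one_lt _ hc.le).const_mul _)]
    refine interval_mono hc.le (near_cont' h.one_lt _ hc.le)
      (((near_cont' h.one_lt _ hc.le).const_mul _).add
        ((near_cont' h.one_lt _ hc.le).const_mul _)) fun r _ _ => ?_
    have h2 := exp_chord (a := 2 * r) (s := s) (t := t) h0 h1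
    have e1 : -(2 * ((1 - lam) * s + lam * t) * r) = -(2 * r * ((1 - lam) * s + lam * t)) := by ring
    have e2 : -(2 * s * r) = -(2 * r * s) := by ring
    have e3 : -(2 * t * r) = -(2 * r * t) := by ring
    rw [e1, e2, e3]
    have := mul_le_mul_of_nonneg_left h2 (sq_nonneg (Phi α r))
    linarith
  have g2 : tailE α (fun q => exp (-(2 * c * ((q : ℝ) / 4) * ((1 - lam) * s + lam * t)))) ≤
      (1 - lam) * tailE α (fun q => exp (-(2 * c * ((q : ℝ) / 4) * s))) +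
      lam * tailE α (fun q => exp (-(2 * c * ((q : ℝ) / 4) * t))) := by
    rw [← tailE_lin]
    exact tailE_mono h fun q _ _ => exp_chord h0 h1
  unfold Kf
  linarith

/-- the quadratic term of the main part -/
noncomputable def Gp (α κ0 κ1 q0 : ℝ) : ℝ :=
  ∫ r in (0 : ℝ)..(z1 α), Phi α r ^ 2 * ((κ0 + κ1 * r) * r ^ 2 -
    ((κ0 + κ1 * r) * r ^ 2) ^ 2 * q0 ^ 2 / 2)

/-- the numbers of the pair neighbourhood `q ≤ q0`, `τ ≤ s0` -/
structure NearPair (α c κ0 κ1 q0 s0 B : ℝ) : Prop where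
  q0_nonneg : 0 ≤ q0
  q0_le : q0 ≤ 1 / 3
  s0_pos : 0 < s0
  hB : ∀ q, 0 ≤ q → q ≤ q0 → 1 ≤ (1 + B * q ^ 2) ^ 2 * (1 - q ^ 2)
  B_nonneg : 0 ≤ B
  c_pos : 0 ≤ c
  c_le : c ≤ cc α
  κ0_nonneg : 0 ≤ κ0
  κ1_nonneg : 0 ≤ κ1
  κ0_le : κ0 ≤ k0 α
  κ1_le : κ1 ≤ k1 α
  z3 : z1 α ≤ 3
  s0q : 4 * s0 ≤ 1 - q0
  P1 : ∀ τ, 0 < τ → τ ≤ s0 → (1 + τ) * Kf α c τ < AA α / 2
  P2 : B * T2 α (z1 α) < (1 - 2 * (z1 α - c) * s0) * Gp α κ0 κ1 q0
  G0 : 0 ≤ Gp α κ0 κ1 q0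

/-- the main part and the tail together, `q = 0` is the worst case -/
theorem near_core (h : Lobe α) {c κ0 κ1 q0 s0 B : ℝ} (hN : NearPair α c κ0 κ1 q0 s0 B) {q τ : ℝ}
    (hq0 : 0 ≤ q) (hq : q ≤ q0) (hτ0 : 0 ≤ τ) (hτ : τ ≤ s0) :
    (∫ r in (0 : ℝ)..(z1 α), Phi α r ^ 2 * exp (-(2 * τ * r)) *
        exp (-((κ0 + κ1 * r) * q ^ 2 * r ^ 2))) +
      (1 + B * q ^ 2) * tailE α (fun q => exp (-(2 * c * ((q : ℝ) / 4) * τ))) ≤
      Kf α c τ - exp (-(2 * c * τ)) * q ^ 2 *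
        ((1 - 2 * (z1 α - c) * s0) * Gp α κ0 κ1 q0 - B * T2 α (z1 α)) := by
  have hc := h.z1_pos
  have hQc : IntervalIntegrable (fun r => Phi α r ^ 2 * ((κ0 + κ1 * r) * r ^ 2 -
          ((κ0 + κ1 * r) * r ^ 2) ^ 2 * q0 ^ 2 / 2)) volume 0 (z1 α) := by
    refine ContinuousOn.intervalIntegrable ?_
    rw [uIcc_of_le hc.le]
    refine ContinuousOn.mul ?_ (by fun_prop)
    exact ((Phi_continuousOn h.one_lt).mono Icc_subset_Ici_self).pow 2
  have hcz : c ≤ z1 α := hN.c_le.trans (cc_le α)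
  -- main part
  have h1 : ∫ r in (0 : ℝ)..(z1 α), Phi α r ^ 2 * exp (-(2 * τ * r)) *
        exp (-((κ0 + κ1 * r) * q ^ 2 * r ^ 2)) ≤
      (∫ r in (0 : ℝ)..(z1 α), Phi α r ^ 2 * exp (-(2 * τ * r))) -
        exp (-(2 * z1 α * τ)) * q ^ 2 * Gp α κ0 κ1 q0 := by
    unfold Gp
    rw [← intervalIntegral.integral_const_mul, ← intervalIntegral.integral_sub
      (near_cont' h.one_lt _ hc.le) (hQc.const_mul _)]
    refine interval_mono hc.le (near_cont h.one_lt _ _ _ _ hc.le)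
      ((near_cont' h.one_lt _ hc.le).sub (hQc.const_mul _)) fun r hr0 hr => ?_
    set Q := (κ0 + κ1 * r) * r ^ 2 with hQ
    have hQ0 : 0 ≤ Q := mul_nonneg (add_nonneg hN.κ0_nonneg (mul_nonneg hN.κ1_nonneg hr0))
      (sq_nonneg _)
    have e1 : (κ0 + κ1 * r) * q ^ 2 * r ^ 2 = Q * q ^ 2 := by rw [hQ]; ring
    rw [e1]
    have h2' := exp_neg_le_quad (p := Q * q ^ 2) (by positivity)
    have h3 : q ^ 2 * (Q - Q ^ 2 * q0 ^ 2 / 2) ≤ Q * q ^ 2 - (Q * q ^ 2) ^ 2 / 2 := by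
      have : q ^ 2 ≤ q0 ^ 2 := by gcongr
      have h4 : 0 ≤ q ^ 2 * Q ^ 2 * (q0 ^ 2 - q ^ 2) := by
        have := sub_nonneg.2 this
        positivity
      nlinarith
    have h5 : q ^ 2 * (Q - Q ^ 2 * q0 ^ 2 / 2) ≤ 1 - exp (-(Q * q ^ 2)) := by linarith
    have h6 : 0 ≤ 1 - exp (-(Q * q ^ 2)) := by
      have : exp (-(Q * q ^ 2)) ≤ 1 := exp_le_one_iff.2 (by
        have : 0 ≤ Q * q ^ 2 := by positivity
        linarith)
      linarith
    have h7 : exp (-(2 * z1 α * τ)) ≤ exp (-(2 * τ * r)) := exp_le_exp.2 (by nlinarith)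
    have h8 : exp (-(2 * z1 α * τ)) * (q ^ 2 * (Q - Q ^ 2 * q0 ^ 2 / 2)) ≤
        exp (-(2 * τ * r)) * (1 - exp (-(Q * q ^ 2))) :=
      (mul_le_mul_of_nonneg_left h5 (exp_pos _).le).trans (mul_le_mul_of_nonneg_right h7 h6)
    have h9 := mul_le_mul_of_nonneg_left h8 (sq_nonneg (Phi α r))
    nlinarith
  -- tail
  have h2 : tailE α (fun q => exp (-(2 * c * ((q : ℝ) / 4) * τ))) ≤
      exp (-(2 * c * τ)) * T2 α (z1 α) := by
    refine (tailE_mono h (F := fun _ => exp (-(2 * c * τ))) fun q hq4 _ => exp_le_exp.2 ?_).trans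
      (le_of_eq ?_)
    · have h4 : (4 : ℝ) ≤ q := by exact_mod_cast hq4
      have h5 : 0 ≤ c * τ := mul_nonneg hN.c_pos hτ0
      nlinarith
    · unfold tailE
      rw [← Tq_four]
      ring
  have h3 : 0 ≤ B * q ^ 2 := mul_nonneg hN.B_nonneg (sq_nonneg q)
  have h4 := mul_le_mul_of_nonneg_left h2 h3
  -- comparison of the exponentials
  have h5 : exp (-(2 * c * τ)) * (1 - 2 * (z1 α - c) * s0) ≤ exp (-(2 * z1 α * τ)) := by
    have e : exp (-(2 * z1 α * τ)) = exp (-(2 * c * τ)) * exp (-(2 * (z1 α - c) * τ)) := by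
      rw [← exp_add]; congr 1; ring
    rw [e]
    refine mul_le_mul_of_nonneg_left ?_ (exp_pos _).le
    have h6 := Real.add_one_le_exp (-(2 * (z1 α - c) * τ))
    have h7 : 2 * (z1 α - c) * τ ≤ 2 * (z1 α - c) * s0 := by
      have : 0 ≤ z1 α - c := by linarith
      gcongr
    linarith
  have h6 := mul_le_mul_of_nonneg_right h5 (mul_nonneg (sq_nonneg q) hN.G0)
  unfold Kf
  nlinarith

end LpSec.ML
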