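import Mathlib
import Pool.Agent.Lib.MP_1dbab3_gt.W.M20

/-!
# The neighbourhood of the pair, part 3
-/

open Real MeasureTheory Set Filter Topology

namespace LpSec.ML

variable {α : ℝ}

/-- **the neighbourhood of the pair** -/
theorem near_pair_lt (h : Lobe α) {c κ0 κ1 q0 s0 B : ℝ} (hN : NearPair α c κ0 κ1 q0 s0 B) {n : ℕ}
    {x : Fin n → ℝ}
    (hx : ∀ k, 0 ≤ x k) (h1 : ∑ k, x k = 1) {i j : Fin n} (hij : i ≠ j)
    (hz : ∀ k, k ≠ i → x k ≤ x j) (hji : x j ≤ x i) {m q τ : ℝ} (hm : 0 < m)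
    (hi : x i = m * (1 + q)) (hj : x j = m * (1 - q))
    (hτ : ∑ k ∈ (Finset.univ.erase i).erase j, x k = 2 * m * τ)
    (hq : q ≤ q0) (hτs : τ ≤ s0) (hne : ¬ (q = 0 ∧ τ = 0)) : J α x < AA α := by
  have hc := h.z1_pos
  have hA := AA_pos h.one_lt
  have hq0 : 0 ≤ q := by rw [hi, hj] at hji; nlinarith
  have hτ0 : 0 ≤ τ := by
    have h2 : 0 ≤ 2 * m * τ := by rw [← hτ]; exact Finset.sum_nonneg fun k _ => hx k
    exact (mul_nonneg_iff_of_pos_left (by linarith)).1 h2
  have hq1 : q < 1 := by linarith [hN.q0_le]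
  have hq3 : q ≤ 1 / 3 := hq.trans hN.q0_le
  have h1q : 0 < 1 - q := by linarith
  have h1q' : 0 < 1 + q := by linarith
  have hjp : 0 < x j := by rw [hj]; positivity
  have hip : 0 < x i := by rw [hi]; positivity
  have hsum : 2 * m * (1 + τ) = 1 := by
    have := sum_split x hij
    rw [h1, hi, hj, hτ] at this
    linarith
  have hxy : ∀ k, x k ≤ x i := fun k => by
    by_cases hk : k = i
    · rw [hk]
    · exact (hz k hk).trans hji
  -- the main part
  have p1 := main_near h hx hij hm hq0 hq1.le hi hj hτ hxy hN.κ0_le hN.κ1_le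
  -- no extra term
  have hX : ExtraOk α (x i) (x j) 0 := by
    refine ⟨le_rfl, Or.inl ?_⟩
    rw [hi, hj]
    have h2 : z1 α * (1 + q) ≤ 6 * (1 - q) := by nlinarith [hN.z3]
    nlinarith
  have p0 := ml_split_signed h hx h1 hij hz hjp hji hX
  -- the weight
  have h4 : 4 * τ ≤ 1 - q := by linarith [hN.s0q]
  set S := ∑ k ∈ (Finset.univ.erase i).erase j, x k with hS
  have hcap : ∀ k ∈ (Finset.univ.erase i).erase j, x k ≤ x j := fun k hk =>
    hz k (Finset.ne_of_mem_erase (Finset.mem_of_mem_erase hk))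
  have hSj : S ≤ x j := by
    rw [hτ, hj]
    have : 2 * τ ≤ 1 - q := by linarith
    calc 2 * m * τ = m * (2 * τ) := by ring
      _ ≤ m * (1 - q) := by gcongr
  have hS0 : 0 ≤ S := by rw [hτ]; positivity
  have hwt : ∀ {θ s : ℝ}, 0 ≤ θ → θ * z1 α ≤ s → θ * S ≤ 1 →
      restW α x i j s ≤ exp (-(c * (θ * S))) := by
    intro θ s hθ hs hle
    refine (restW_theta h hx hjp hcap 0 hS0 hSj (by simp [hS]) hθ hs).trans (exp_le_exp.2 ?_)
    unfold ex
    rw [Nat.cast_zero, zero_mul, zero_add, min_eq_left hle]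
    have : 0 ≤ θ * S := mul_nonneg hθ hS0
    have := mul_le_mul_of_nonneg_right hN.c_le this
    linarith
  have hc0 : 0 ≤ c * τ := mul_nonneg hN.c_pos hτ0
  have hvb : z1 α / x i ≤ z1 α / x j := by gcongr
  -- part of scale `x i`
  have eI : ∀ q' : ℕ, (q' : ℝ) / 4 / x i * S = (q' : ℝ) / 2 * τ / (1 + q) := fun q' => by
    rw [hi, hτ]; field_simp; ring
  have eJ : ∀ q' : ℕ, (q' : ℝ) / 4 / x j * S = (q' : ℝ) / 2 * τ / (1 - q) := fun q' => by
    rw [hj, hτ]; field_simp; ring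
  have pI := near_part h hip hvb (restW_anti (α := α) hx i j) (fun s => (restW_pos x i j s).le)
    (restW_cont x i j).measurable (R := fun q' : ℕ => exp (-(c * ((q' : ℝ) / 2 * τ / (1 + q)))))
    (fun q' _ hq8 => by
      have h8 : (q' : ℝ) ≤ 8 := by exact_mod_cast hq8
      rw [← eI q']
      refine hwt (by positivity) ?_ ?_
      · refine le_trans (le_of_eq ?_) (le_max_left _ _)
        ring
      · rw [eI q', div_le_one h1q']
        nlinarith)
    (fun q' _ => by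
      refine exp_le_exp.2 (neg_le_neg ?_)
      have hcn := hN.c_pos
      push_cast
      gcongr
      linarith)
  have pJ := near_part h hjp (le_refl (z1 α / x j)) (restW_anti (α := α) hx i j)
    (fun s => (restW_pos x i j s).le)
    (restW_cont x i j).measurable (R := fun q' : ℕ => exp (-(c * ((q' : ℝ) / 2 * τ / (1 - q)))))
    (fun q' _ hq8 => by
      have h8 : (q' : ℝ) ≤ 8 := by exact_mod_cast hq8
      rw [← eJ q']
      refine hwt (by positivity) ?_ ?_
      · refine le_trans (le_of_eq ?_) (le_max_left _ _)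
        ring
      · rw [eJ q', div_le_one h1q]
        nlinarith)
    (fun q' _ => by
      refine exp_le_exp.2 (neg_le_neg ?_)
      have hcn := hN.c_pos
      push_cast
      gcongr
      linarith)
  set RI : ℕ → ℝ := fun q' : ℕ => exp (-(c * ((q' : ℝ) / 2 * τ / (1 + q)))) with hRI
  set RJ : ℕ → ℝ := fun q' : ℕ => exp (-(c * ((q' : ℝ) / 2 * τ / (1 - q)))) with hRJ
  set RE : ℕ → ℝ := fun q' : ℕ => exp (-(2 * c * ((q' : ℝ) / 4) * τ)) with hRE
  have hpair : ∀ q' : ℕ, 4 ≤ q' → q' ≤ 8 → 1 / 2 * RI q' + 1 / 2 * RJ q' ≤ RE q' := by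
    intro q' _ hq8
    have h8 : (q' : ℝ) ≤ 8 := by exact_mod_cast hq8
    have hc2 : c ≤ 2 := hN.c_le.trans (min_le_right _ _)
    have h5 : c * ((q' : ℝ) / 2 * τ) ≤ 2 * (1 - q) := by
      have h6 : (q' : ℝ) / 2 * τ ≤ 4 * τ := by nlinarith
      have h7 : 0 ≤ (q' : ℝ) / 2 * τ := by positivity
      calc c * ((q' : ℝ) / 2 * τ) ≤ 2 * ((q' : ℝ) / 2 * τ) := by gcongr
        _ ≤ 2 * (4 * τ) := by gcongr
        _ ≤ 2 * (1 - q) := by gcongr
    have h6 := exp_pair (a := c * ((q' : ℝ) / 2 * τ)) (q := q)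
      (mul_nonneg hN.c_pos (by positivity)) hq0 hq1 h5
    have e1 : RI q' = exp (-(c * ((q' : ℝ) / 2 * τ) / (1 + q))) := by
      rw [hRI]; simp only; congr 1; ring
    have e2 : RJ q' = exp (-(c * ((q' : ℝ) / 2 * τ) / (1 - q))) := by
      rw [hRJ]; simp only; congr 1; ring
    have e3 : RE q' = exp (-(c * ((q' : ℝ) / 2 * τ))) := by
      rw [hRE]; simp only; congr 1; ring
    rw [e1, e2, e3]
    linarith
  have htl := tailE_mono h hpair
  rw [tailE_lin] at htl
  have hTI : 0 ≤ tailE α RI := tailE_nonneg h fun _ _ _ => (exp_pos _).le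
  have hTJ : 0 ≤ tailE α RJ := tailE_nonneg h fun _ _ _ => (exp_pos _).le
  have hTE : 0 ≤ tailE α RE := tailE_nonneg h fun _ _ _ => (exp_pos _).le
  -- the product of the two parts
  have hb : 0 ≤ z1 α / x j := by positivity
  have hBq : 0 ≤ B * q ^ 2 := mul_nonneg hN.B_nonneg (sq_nonneg q)
  have htail : ∫ s in Ioi (z1 α / x j), ∏ k, Phi α (x k * s) ≤
      (1 + B * q ^ 2) * tailE α RE / m := by
    refine (tail_le_abs h hx hij hip hjp hb).trans ?_
    refine le_of_forall_pos_le_add fun ε hε => ?_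
    refine ml_tail h hx hij hip hjp hb pI pJ (X := (1 + B * q ^ 2) * tailE α RE / m + ε)
      (by positivity) ?_
    have hBB := hN.hB q hq0 hq
    have e1 : tailE α RI / x i * (tailE α RJ / x j) ≤ ((1 + B * q ^ 2) * tailE α RE / m) ^ 2 := by
      have h5 : tailE α RI * tailE α RJ ≤ tailE α RE ^ 2 := by
        have : (1 / 2 * tailE α RI + 1 / 2 * tailE α RJ) ^ 2 ≤ tailE α RE ^ 2 := by gcongr
        nlinarith [sq_nonneg (tailE α RI - tailE α RJ)]
      rw [div_mul_div_comm, div_pow, mul_pow, div_le_div_iff₀ (by positivity) (by positivity)]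
      have e2 : x i * x j = m ^ 2 * (1 - q ^ 2) := by rw [hi, hj]; ring
      rw [e2]
      have h6 : 0 ≤ tailE α RE ^ 2 * m ^ 2 := by positivity
      have h7 : tailE α RI * tailE α RJ * m ^ 2 ≤ tailE α RE ^ 2 * m ^ 2 := by gcongr
      have h8 := mul_le_mul_of_nonneg_left hBB h6
      calc tailE α RI * tailE α RJ * m ^ 2 ≤ tailE α RE ^ 2 * m ^ 2 * 1 := by
            rw [mul_one]; exact h7
        _ ≤ tailE α RE ^ 2 * m ^ 2 * ((1 + B * q ^ 2) ^ 2 * (1 - q ^ 2)) := h8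
        _ = (1 + B * q ^ 2) ^ 2 * tailE α RE ^ 2 * (m ^ 2 * (1 - q ^ 2)) := by ring
    refine e1.trans ?_
    have : 0 ≤ (1 + B * q ^ 2) * tailE α RE / m := by positivity
    gcongr
    linarith
  have p5 := near_core h hN hq0 hq hτ0 hτs
  set δ := (1 - 2 * (z1 α - c) * s0) * Gp α κ0 κ1 q0 - B * T2 α (z1 α) with hδ
  have hδ0 : 0 < δ := sub_pos.2 hN.P2
  have hminv : 1 / m = 2 * (1 + τ) := by rw [div_eq_iff hm.ne']; linarith
  have p9 : J α x ≤ (Kf α c τ - exp (-(2 * c * τ)) * q ^ 2 * δ) / m := by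
    refine le_trans ?_ (div_le_div_of_nonneg_right p5 hm.le)
    rw [add_div]
    linarith
  rw [div_eq_mul_one_div, hminv] at p9
  have hE : 0 < exp (-(2 * c * τ)) := exp_pos _
  rcases eq_or_lt_of_le hτ0 with hτe | hτp
  · have hqp : 0 < q := lt_of_le_of_ne hq0 fun hq => hne ⟨hq.symm, hτe.symm⟩
    have h5 : 0 < exp (-(2 * c * τ)) * q ^ 2 * δ := by positivity
    rw [← hτe, Kf_zero h c] at p9
    rw [← hτe] at h5
    linarith
  · have h5 : 0 ≤ exp (-(2 * c * τ)) * q ^ 2 * δ := by positivity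
    have h6 := hN.P1 τ hτp hτs
    have h7 : 0 ≤ (1 + τ) * (exp (-(2 * c * τ)) * q ^ 2 * δ) := by positivity
    have e : (Kf α c τ - exp (-(2 * c * τ)) * q ^ 2 * δ) * (2 * (1 + τ)) =
        2 * ((1 + τ) * Kf α c τ) - 2 * ((1 + τ) * (exp (-(2 * c * τ)) * q ^ 2 * δ)) := by ring
    rw [e] at p9
    linarith

end LpSec.ML
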