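import Mathlib
import Pool.Agent.Lib.MP_1dbab3_gt.W.M21

/-!
# The neighbourhood of the pair, part 4: the numerical check
-/

open Real MeasureTheory Set Filter Topology

namespace LpSec.ML

variable {α : ℝ}

/-- the lower bound of `T2` at `q / 4 z1` in the list, or `0` -/
def lowq (T : List (ℕ × ℕ × ℕ)) (q : ℕ) : ℕ :=
  List.rec 0 (fun p _ ih => cond (Nat.beq p.1 q) p.2.2 ih) T

/-- upper bound (scale `10^9`) of `exp (-(2 c (q / 4) s))`, `c = cc / 10^8`, `s = σ / 1000` -/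
def Ewq (tab cc σ q : ℕ) : ℕ :=
  En tab (Nat.div (Nat.mul (Nat.mul (Nat.mul 64 cc) q) σ) 100000000000)

/-- lower bound of `10^20 (A / 2 - Kf (σ / 1000))` -/
def Lq (c : CellD) (P : PairD) (tab σ : ℕ) : ℕ :=
  fn (mn 1000000000 (Ewq tab c.cc σ 4)) fun R4 =>
  fn (mn R4 (Ewq tab c.cc σ 5)) fun R5 =>
  fn (mn R5 (Ewq tab c.cc σ 6)) fun R6 =>
  fn (mn R6 (Ewq tab c.cc σ 7)) fun R7 =>
  fn (mn R7 (Ewq tab c.cc σ 8)) fun R8 =>
    (2000000000 * (σ * P.l1) + 4 * (σ * (σ * σ)) * P.l3 * 1000 / 3 +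
      1000 * ((1000000000 - R4) * P.t0 + (R4 - R5) * lowq c.T 5 + (R5 - R6) * lowq c.T 6 +
        (R6 - R7) * lowq c.T 7 + (R7 - R8) * lowq c.T 8)) -
    (2000000 * (σ * σ) * P.u2 + 2 * (σ * (σ * (σ * σ))) * P.u4 / 3 + 1)

/-- the intervals of the grid -/
def pgrid (c : CellD) (P : PairD) (tab : ℕ) : ℕ → ℕ → List ℕ → Bool
  | _, _, [] => true
  | a, La, b :: l =>
    fc (Lq c P tab b) fun Lb =>
      cond (Nat.ble (a + 1) b)
      (cond (Nat.ble (4 * a * (P.ah * 500000000000) + (Lb - La) * (b - a) + 1)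
        (4 * (1000 + a) * La))
      (cond (Nat.ble (4 * b * (P.ah * 500000000000) + (Lb - La) * (b - a) + 1)
        (4 * (1000 + b) * Lb)) (pgrid c P tab b Lb l) false) false) false

/-- the numerator of the quadratic term -/
def Gnum (c : CellD) (P : PairD) (q0 : ℕ) : ℕ :=
  2 * 16777216 * 10 ^ 8 * (c.k0 * P.l2 + c.k1 * P.l3) -
    q0 * q0 * (c.k0 * c.k0 * P.u4 + 2 * c.k0 * c.k1 * P.u5 + c.k1 * c.k1 * P.u6)

/-- the full check: `q ≤ q0 / 4096`, `τ ≤ s / 1000` with `s` the last grid point -/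
def pchk (c : CellD) (P : PairD) (tab q0 s1 : ℕ) (l : List ℕ) (s0 yz : ℕ) : Bool :=
  Nat.ble (4 * s0 * 4096 + q0 * 1000) 4096000 && Nat.ble (3 * q0) 4096 &&
  Nat.ble c.ch 300000000 && Nat.ble 1 s1 && Nat.ble (4096000) (yz * (1000 + s0)) &&
  Nat.beq (l.getLastD s1) s0 &&
  Nat.ble (11 * c.h * (10 ^ 35 * 33554432) + 1)
    (2000000000 * (10 ^ 11 - 2 * (c.ch - c.cc) * s0) * Gnum c P q0) &&
  fc (Lq c P tab s1) fun L1 => cond (Nat.ble (500000000 * s1 * P.ah) L1)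
    (pgrid c P tab s1 L1 l) false

theorem lowq_sound {c : CellD} (hC : CellOk α c) (q : ℕ) :
    (lowq c.T q : ℝ) / 10 ^ 8 ≤ Tq α q := by
  have key : ∀ T : List (ℕ × ℕ × ℕ), (∀ p ∈ T, (p.2.2 : ℝ) / 10 ^ 8 ≤ T2 α ((p.1 : ℝ) / 4 * z1 α)) →
      (lowq T q : ℝ) / 10 ^ 8 ≤ Tq α q := by
    intro T
    induction T with
    | nil =>
      intro _
      show ((0 : ℕ) : ℝ) / 10 ^ 8 ≤ _
      rw [Nat.cast_zero, zero_div]
      exact Tq_nonneg α q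
    | cons p T ih =>
      intro h
      show ((cond (Nat.beq p.1 q) p.2.2 (lowq T q) : ℕ) : ℝ) / 10 ^ 8 ≤ _
      cases hb : Nat.beq p.1 q with
      | true =>
        have hpq : p.1 = q := Nat.eq_of_beq_eq_true hb
        have := h p (by simp)
        rw [hpq] at this
        exact this
      | false => exact ih fun p' hp' => h p' (by simp [hp'])
  exact key c.T hC.low

theorem Ewq_sound {cc : ℕ} {c s : ℝ} (hc : (cc : ℝ) / 10 ^ 8 = c) {σ : ℕ}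
    (hs : (σ : ℝ) / 1000 = s) (q : ℕ) :
    exp (-(2 * c * ((q : ℝ) / 4) * s)) ≤ (Ewq etab cc σ q : ℝ) / 10 ^ 9 := by
  refine En_sound ?_
  refine (natdiv_le _ _).trans ?_
  rw [← hc, ← hs, div_le_iff₀ (by norm_num)]
  refine le_of_eq ?_
  show ((64 * cc * q * σ : ℕ) : ℝ) = _
  push_cast
  ring

theorem exp_neg_le_quartic {x : ℝ} (hx : 0 ≤ x) :
    exp (-x) ≤ 1 - x + x ^ 2 / 2 - x ^ 3 / 6 + x ^ 4 / 24 := by
  have h := Real.sum_le_exp_of_nonneg hx 5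
  simp only [Finset.sum_range_succ, Finset.sum_range_zero, Nat.factorial] at h
  norm_num at h
  set E := 1 + x + x ^ 2 / 2 + x ^ 3 / 6 + x ^ 4 / 24 with hE
  have hE0 : 0 < E := by positivity
  have h1 : exp (-x) ≤ 1 / E := by
    rw [exp_neg, ← one_div]
    exact one_div_le_one_div_of_le hE0 h
  refine h1.trans ?_
  rw [div_le_iff₀ hE0]
  have e : (1 - x + x ^ 2 / 2 - x ^ 3 / 6 + x ^ 4 / 24) * E = 1 + x ^ 6 / 72 + x ^ 8 / 576 := by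
    rw [hE]; ring
  rw [e]
  have : 0 ≤ x ^ 6 / 72 + x ^ 8 / 576 := by positivity
  linarith

/-- the main part of `A / 2 - Kf` -/
theorem main_low (h : Lobe α) {s : ℝ} (hs : 0 ≤ s) :
    2 * s * Im α 2 1 - 2 * s ^ 2 * Im α 2 2 + 4 / 3 * s ^ 3 * Im α 2 3 - 2 / 3 * s ^ 4 * Im α 2 4 ≤
      (∫ r in (0 : ℝ)..(z1 α), Phi α r ^ 2) -
        ∫ r in (0 : ℝ)..(z1 α), Phi α r ^ 2 * exp (-(2 * s * r)) := by
  have hc := h.z1_pos
  have hi := near_cont' h.one_lt 0 hc.le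
  have hi0 : IntervalIntegrable (fun r => Phi α r ^ 2) volume 0 (z1 α) := by
    refine ContinuousOn.intervalIntegrable ?_
    rw [uIcc_of_le hc.le]
    exact ((Phi_continuousOn h.one_lt).mono Icc_subset_Ici_self).pow 2
  have e2 : (fun t => ∑ k ∈ Finset.range 5, (![0, 2 * s, -(2 * s ^ 2), 4 / 3 * s ^ 3,
      -(2 / 3 * s ^ 4)] : Fin 5 → ℝ) (Fin.ofNat 5 k) * (t ^ k * Phi α t ^ 2)) =
      fun t => Phi α t ^ 2 * (2 * s * t - 2 * s ^ 2 * t ^ 2 + 4 / 3 * s ^ 3 * t ^ 3 -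
        2 / 3 * s ^ 4 * t ^ 4) := by
    funext t
    simp only [Finset.sum_range_succ, Finset.sum_range_zero]
    norm_num [Fin.ofNat]
    ring
  have h1 := sum_Im h.one_lt hc.le 2 (fun k => (![0, 2 * s, -(2 * s ^ 2), 4 / 3 * s ^ 3,
      -(2 / 3 * s ^ 4)] : Fin 5 → ℝ) (Fin.ofNat 5 k)) 5
  rw [e2] at h1
  have h2 : 2 * s * Im α 2 1 - 2 * s ^ 2 * Im α 2 2 + 4 / 3 * s ^ 3 * Im α 2 3 -
      2 / 3 * s ^ 4 * Im α 2 4 = ∫ t in (0 : ℝ)..(z1 α), Phi α t ^ 2 * (2 * s * t -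
        2 * s ^ 2 * t ^ 2 + 4 / 3 * s ^ 3 * t ^ 3 - 2 / 3 * s ^ 4 * t ^ 4) := by
    rw [h1]
    simp only [Finset.sum_range_succ, Finset.sum_range_zero]
    norm_num [Fin.ofNat]
    ring
  rw [h2, ← intervalIntegral.integral_sub hi0 (near_cont' h.one_lt _ hc.le)]
  refine interval_mono hc.le ?_ (hi0.sub (near_cont' h.one_lt _ hc.le)) fun r hr0 _ => ?_
  · refine ContinuousOn.intervalIntegrable ?_
    rw [uIcc_of_le hc.le]
    refine ContinuousOn.mul ?_ (by fun_prop)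
    exact ((Phi_continuousOn h.one_lt).mono Icc_subset_Ici_self).pow 2
  · have h3 := exp_neg_le_quartic (x := 2 * s * r) (by positivity)
    have h4 := mul_le_mul_of_nonneg_left h3 (sq_nonneg (Phi α r))
    have e : Phi α r ^ 2 * (1 - 2 * s * r + (2 * s * r) ^ 2 / 2 - (2 * s * r) ^ 3 / 6 +
        (2 * s * r) ^ 4 / 24) = Phi α r ^ 2 - Phi α r ^ 2 * (2 * s * r -
        2 * s ^ 2 * r ^ 2 + 4 / 3 * s ^ 3 * r ^ 3 - 2 / 3 * s ^ 4 * r ^ 4) := by ring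
    rw [e] at h4
    linarith

theorem Gp_eq (h : Lobe α) (κ0 κ1 q0 : ℝ) :
    Gp α κ0 κ1 q0 = κ0 * Im α 2 2 + κ1 * Im α 2 3 - q0 ^ 2 / 2 * (κ0 ^ 2 * Im α 2 4 +
      2 * κ0 * κ1 * Im α 2 5 + κ1 ^ 2 * Im α 2 6) := by
  have hc := h.z1_pos
  have e2 : (fun r => Phi α r ^ 2 * ((κ0 + κ1 * r) * r ^ 2 -
    ((κ0 + κ1 * r) * r ^ 2) ^ 2 * q0 ^ 2 / 2)) = fun t => ∑ k ∈ Finset.range 7,
      (![0, 0, κ0, κ1, -(q0 ^ 2 / 2 * κ0 ^ 2), -(q0 ^ 2 / 2 * (2 * κ0 * κ1)),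
      -(q0 ^ 2 / 2 * κ1 ^ 2)] : Fin 7 → ℝ) (Fin.ofNat 7 k) * (t ^ k * Phi α t ^ 2) := by
    funext t
    simp only [Finset.sum_range_succ, Finset.sum_range_zero]
    norm_num [Fin.ofNat]
    ring
  unfold Gp
  rw [e2, sum_Im h.one_lt hc.le]
  simp only [Finset.sum_range_succ, Finset.sum_range_zero]
  norm_num [Fin.ofNat]
  ring

end LpSec.ML
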