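import Mathlib
import Pool.Agent.Lib.MP_1dbab3_gt.W.M22

/-!
# The neighbourhood of the pair, part 5: soundness of the numerical check
-/

open Real MeasureTheory Set Filter Topology

namespace LpSec.ML

variable {α : ℝ}

theorem Kf_le (h : Lobe α) {c s : ℝ} (hc : 0 ≤ c) (hs : 0 ≤ s) : Kf α c s ≤ AA α / 2 := by
  have hz := h.z1_pos
  rw [← Kf_zero h c]
  unfold Kf
  have g1 : ∫ r in (0 : ℝ)..(z1 α), Phi α r ^ 2 * exp (-(2 * s * r)) ≤
      ∫ r in (0 : ℝ)..(z1 α), Phi α r ^ 2 * exp (-(2 * 0 * r)) := by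
    refine interval_mono hz.le (near_cont' h.one_lt _ hz.le) (near_cont' h.one_lt _ hz.le)
      fun r hr0 _ => mul_le_mul_of_nonneg_left (exp_le_exp.2 ?_) (sq_nonneg _)
    have : 0 ≤ 2 * s * r := by positivity
    linarith
  have g2 : tailE α (fun q => exp (-(2 * c * ((q : ℝ) / 4) * s))) ≤
      tailE α (fun q => exp (-(2 * c * ((q : ℝ) / 4) * 0))) := by
    refine tailE_mono h fun q _ _ => exp_le_exp.2 ?_
    have : 0 ≤ 2 * c * ((q : ℝ) / 4) * s := by positivity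
    linarith
  exact add_le_add g1 g2

theorem Lq_sound (h : Lobe α) {c : CellD} (hC : CellOk α c) {P : PairD} (hP : PairOk α P)
    (σ : ℕ) : (Lq c P etab σ : ℝ) / 10 ^ 20 ≤
      AA α / 2 - Kf α ((c.cc : ℝ) / 10 ^ 8) ((σ : ℝ) / 1000) := by
  have hz := h.z1_pos
  set cr : ℝ := (c.cc : ℝ) / 10 ^ 8 with hcr
  set s : ℝ := (σ : ℝ) / 1000 with hs
  have hcr0 : 0 ≤ cr := by positivity
  have hs0 : 0 ≤ s := by positivity
  unfold Lq
  rw [fn_eq, fn_eq, fn_eq, fn_eq, fn_eq, mn_eq, mn_eq, mn_eq, mn_eq, mn_eq]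
  set R4 := min 1000000000 (Ewq etab c.cc σ 4) with hR4
  set R5 := min R4 (Ewq etab c.cc σ 5) with hR5
  set R6 := min R5 (Ewq etab c.cc σ 6) with hR6
  set R7 := min R6 (Ewq etab c.cc σ 7) with hR7
  set R8 := min R7 (Ewq etab c.cc σ 8) with hR8
  have l4 : R4 ≤ 1000000000 := min_le_left _ _
  have l5 : R5 ≤ R4 := min_le_left _ _
  have l6 : R6 ≤ R5 := min_le_left _ _
  have l7 : R7 ≤ R6 := min_le_left _ _
  have l8 : R8 ≤ R7 := min_le_left _ _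
  have hE := fun q => Ewq_sound (cc := c.cc) (c := cr) (s := s) rfl (σ := σ) rfl q
  set E : ℕ → ℝ := fun q => exp (-(2 * cr * ((q : ℝ) / 4) * s)) with hEd
  have hE' : ∀ q, E q ≤ (Ewq etab c.cc σ q : ℝ) / 10 ^ 9 := hE
  have hanti : ∀ q, E (q + 1) ≤ E q := fun q => by
    rw [hEd]
    refine exp_le_exp.2 (neg_le_neg ?_)
    push_cast
    gcongr
    linarith
  have e4 : E 4 ≤ (R4 : ℝ) / 10 ^ 9 := by
    rw [hR4, Nat.cast_min, le_div_iff₀ (by norm_num)]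
    refine le_min ?_ ?_
    · have : E 4 ≤ 1 := exp_le_one_iff.2 (by
        have : 0 ≤ 2 * cr * (((4 : ℕ) : ℝ) / 4) * s := by positivity
        linarith)
      push_cast
      linarith
    · have := hE' 4
      rwa [le_div_iff₀ (by norm_num)] at this
  have e5 : E 5 ≤ (R5 : ℝ) / 10 ^ 9 := by
    rw [hR5, Nat.cast_min, le_div_iff₀ (by norm_num)]
    refine le_min ?_ ?_
    · have := (hanti 4).trans e4
      rwa [le_div_iff₀ (by norm_num)] at this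
    · have := hE' 5
      rwa [le_div_iff₀ (by norm_num)] at this
  have e6 : E 6 ≤ (R6 : ℝ) / 10 ^ 9 := by
    rw [hR6, Nat.cast_min, le_div_iff₀ (by norm_num)]
    refine le_min ?_ ?_
    · have := (hanti 5).trans e5
      rwa [le_div_iff₀ (by norm_num)] at this
    · have := hE' 6
      rwa [le_div_iff₀ (by norm_num)] at this
  have e7 : E 7 ≤ (R7 : ℝ) / 10 ^ 9 := by
    rw [hR7, Nat.cast_min, le_div_iff₀ (by norm_num)]
    refine le_min ?_ ?_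
    · have := (hanti 6).trans e6
      rwa [le_div_iff₀ (by norm_num)] at this
    · have := hE' 7
      rwa [le_div_iff₀ (by norm_num)] at this
  have e8 : E 8 ≤ (R8 : ℝ) / 10 ^ 9 := by
    rw [hR8, Nat.cast_min, le_div_iff₀ (by norm_num)]
    refine le_min ?_ ?_
    · have := (hanti 7).trans e7
      rwa [le_div_iff₀ (by norm_num)] at this
    · have := hE' 8
      rwa [le_div_iff₀ (by norm_num)] at this
  have hK0 := Kf_le h hcr0 hs0
  rw [cast_sub_eq, div_le_iff₀ (by norm_num)]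
  refine max_le ?_ (mul_nonneg (sub_nonneg.2 hK0) (by norm_num))
  rw [← div_le_iff₀ (by norm_num)]
  -- the real lower bound
  have h1 := T2_sub h.one_lt le_rfl hz.le
  rw [T2_zero h.one_lt] at h1
  have hm := main_low h hs0
  have hA : AA α / 2 - Kf α cr s = ((∫ r in (0 : ℝ)..(z1 α), Phi α r ^ 2) -
        ∫ r in (0 : ℝ)..(z1 α), Phi α r ^ 2 * exp (-(2 * s * r))) + (Tq α 4 - tailE α E) := by
    unfold Kf
    rw [Tq_four]
    linarith
  rw [hA]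
  have t4 := lowq_sound hC 4
  have t5 := lowq_sound hC 5
  have t6 := lowq_sound hC 6
  have t7 := lowq_sound hC 7
  have t8 := lowq_sound hC 8
  have t0 := hP.t0
  rw [← Tq_four] at t0
  have d4 : (0 : ℝ) ≤ 1 - (R4 : ℝ) / 10 ^ 9 := by
    have : (R4 : ℝ) ≤ 1000000000 := by exact_mod_cast l4
    rw [sub_nonneg, div_le_one (by norm_num)]
    linarith
  have d5 : (0 : ℝ) ≤ (R4 : ℝ) / 10 ^ 9 - (R5 : ℝ) / 10 ^ 9 := by
    have : (R5 : ℝ) ≤ R4 := by exact_mod_cast l5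
    rw [← sub_div]; exact div_nonneg (by linarith) (by norm_num)
  have d6 : (0 : ℝ) ≤ (R5 : ℝ) / 10 ^ 9 - (R6 : ℝ) / 10 ^ 9 := by
    have : (R6 : ℝ) ≤ R5 := by exact_mod_cast l6
    rw [← sub_div]; exact div_nonneg (by linarith) (by norm_num)
  have d7 : (0 : ℝ) ≤ (R6 : ℝ) / 10 ^ 9 - (R7 : ℝ) / 10 ^ 9 := by
    have : (R7 : ℝ) ≤ R6 := by exact_mod_cast l7
    rw [← sub_div]; exact div_nonneg (by linarith) (by norm_num)
  have d8 : (0 : ℝ) ≤ (R7 : ℝ) / 10 ^ 9 - (R8 : ℝ) / 10 ^ 9 := by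
    have : (R8 : ℝ) ≤ R7 := by exact_mod_cast l8
    rw [← sub_div]; exact div_nonneg (by linarith) (by norm_num)
  have htail : (1 - (R4 : ℝ) / 10 ^ 9) * ((P.t0 : ℝ) / 10 ^ 8) +
      ((R4 : ℝ) / 10 ^ 9 - (R5 : ℝ) / 10 ^ 9) * ((lowq c.T 5 : ℝ) / 10 ^ 8) +
      ((R5 : ℝ) / 10 ^ 9 - (R6 : ℝ) / 10 ^ 9) * ((lowq c.T 6 : ℝ) / 10 ^ 8) +
      ((R6 : ℝ) / 10 ^ 9 - (R7 : ℝ) / 10 ^ 9) * ((lowq c.T 7 : ℝ) / 10 ^ 8) +
      ((R7 : ℝ) / 10 ^ 9 - (R8 : ℝ) / 10 ^ 9) * ((lowq c.T 8 : ℝ) / 10 ^ 8) ≤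
      Tq α 4 - tailE α E := by
    have a4 := mul_le_mul_of_nonneg_right e4 (sub_nonneg.2 (Tq_anti h (show 4 ≤ 5 by norm_num)))
    have a5 := mul_le_mul_of_nonneg_right e5 (sub_nonneg.2 (Tq_anti h (show 5 ≤ 6 by norm_num)))
    have a6 := mul_le_mul_of_nonneg_right e6 (sub_nonneg.2 (Tq_anti h (show 6 ≤ 7 by norm_num)))
    have a7 := mul_le_mul_of_nonneg_right e7 (sub_nonneg.2 (Tq_anti h (show 7 ≤ 8 by norm_num)))
    have a8 := mul_le_mul_of_nonneg_right e8 (Tq_nonneg α 8)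
    have b4 := mul_le_mul_of_nonneg_left t0 d4
    have b5 := mul_le_mul_of_nonneg_left t5 d5
    have b6 := mul_le_mul_of_nonneg_left t6 d6
    have b7 := mul_le_mul_of_nonneg_left t7 d7
    have b8 := mul_le_mul_of_nonneg_left t8 d8
    unfold tailE
    linarith
  have i1 := mul_le_mul_of_nonneg_left hP.l1 (show (0 : ℝ) ≤ 2 * s by positivity)
  have i3 := mul_le_mul_of_nonneg_left hP.l3 (show (0 : ℝ) ≤ 4 / 3 * s ^ 3 by positivity)
  have i2 := mul_le_mul_of_nonneg_left hP.u2 (show (0 : ℝ) ≤ 2 * s ^ 2 by positivity)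
  have i4 := mul_le_mul_of_nonneg_left hP.u4 (show (0 : ℝ) ≤ 2 / 3 * s ^ 4 by positivity)
  have n3 := natdiv_le (4 * (σ * (σ * σ)) * P.l3 * 1000) 3
  have n4 : ((2 * (σ * (σ * (σ * σ))) * P.u4 : ℕ) : ℝ) / 3 ≤
      ((2 * (σ * (σ * (σ * σ))) * P.u4 / 3 : ℕ) : ℝ) + 1 := by
    have h6 : 2 * (σ * (σ * (σ * σ))) * P.u4 < (2 * (σ * (σ * (σ * σ))) * P.u4 / 3 + 1) * 3 := by
      omega
    rw [div_le_iff₀ (by norm_num)]
    exact_mod_cast h6.le
  have c4 : ((1000000000 - R4 : ℕ) : ℝ) = 10 ^ 9 - R4 := by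
    rw [Nat.cast_sub l4]; norm_num
  have c5 : ((R4 - R5 : ℕ) : ℝ) = (R4 : ℝ) - R5 := Nat.cast_sub l5
  have c6 : ((R5 - R6 : ℕ) : ℝ) = (R5 : ℝ) - R6 := Nat.cast_sub l6
  have c7 : ((R6 - R7 : ℕ) : ℝ) = (R6 : ℝ) - R7 := Nat.cast_sub l7
  have c8 : ((R7 - R8 : ℕ) : ℝ) = (R7 : ℝ) - R8 := Nat.cast_sub l8
  have hneg : 2 * s ^ 2 * ((P.u2 : ℝ) / 10 ^ 8) + 2 / 3 * s ^ 4 * ((P.u4 : ℝ) / 10 ^ 8) ≤
      ((2000000 * (σ * σ) * P.u2 + 2 * (σ * (σ * (σ * σ))) * P.u4 / 3 + 1 : ℕ) : ℝ) / 10 ^ 20 := by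
    rw [le_div_iff₀ (by norm_num), Nat.cast_add, Nat.cast_add]
    have e : (2 * s ^ 2 * ((P.u2 : ℝ) / 10 ^ 8) + 2 / 3 * s ^ 4 * ((P.u4 : ℝ) / 10 ^ 8)) * 10 ^ 20 =
        ((2000000 * (σ * σ) * P.u2 : ℕ) : ℝ) + ((2 * (σ * (σ * (σ * σ))) * P.u4 : ℕ) : ℝ) / 3 := by
      rw [hs]; push_cast; ring
    rw [e]
    push_cast at n4 ⊢
    linarith
  have hpos : ((2000000000 * (σ * P.l1) + 4 * (σ * (σ * σ)) * P.l3 * 1000 / 3 +
      1000 * ((1000000000 - R4) * P.t0 + (R4 - R5) * lowq c.T 5 + (R5 - R6) * lowq c.T 6 +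
        (R6 - R7) * lowq c.T 7 + (R7 - R8) * lowq c.T 8) : ℕ) : ℝ) / 10 ^ 20 ≤
      2 * s * ((P.l1 : ℝ) / 10 ^ 8) + 4 / 3 * s ^ 3 * ((P.l3 : ℝ) / 10 ^ 8) +
      ((1 - (R4 : ℝ) / 10 ^ 9) * ((P.t0 : ℝ) / 10 ^ 8) +
      ((R4 : ℝ) / 10 ^ 9 - (R5 : ℝ) / 10 ^ 9) * ((lowq c.T 5 : ℝ) / 10 ^ 8) +
      ((R5 : ℝ) / 10 ^ 9 - (R6 : ℝ) / 10 ^ 9) * ((lowq c.T 6 : ℝ) / 10 ^ 8) +
      ((R6 : ℝ) / 10 ^ 9 - (R7 : ℝ) / 10 ^ 9) * ((lowq c.T 7 : ℝ) / 10 ^ 8) +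
      ((R7 : ℝ) / 10 ^ 9 - (R8 : ℝ) / 10 ^ 9) * ((lowq c.T 8 : ℝ) / 10 ^ 8)) := by
    rw [div_le_iff₀ (by norm_num), Nat.cast_add, Nat.cast_add, Nat.cast_mul 1000, Nat.cast_add,
      Nat.cast_add, Nat.cast_add, Nat.cast_add, Nat.cast_mul (1000000000 - R4), Nat.cast_mul (R4 - R5),
      Nat.cast_mul (R5 - R6), Nat.cast_mul (R6 - R7), Nat.cast_mul (R7 - R8), c4, c5, c6, c7, c8]
    have e : (2 * s * ((P.l1 : ℝ) / 10 ^ 8) + 4 / 3 * s ^ 3 * ((P.l3 : ℝ) / 10 ^ 8) +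
      ((1 - (R4 : ℝ) / 10 ^ 9) * ((P.t0 : ℝ) / 10 ^ 8) +
      ((R4 : ℝ) / 10 ^ 9 - (R5 : ℝ) / 10 ^ 9) * ((lowq c.T 5 : ℝ) / 10 ^ 8) +
      ((R5 : ℝ) / 10 ^ 9 - (R6 : ℝ) / 10 ^ 9) * ((lowq c.T 6 : ℝ) / 10 ^ 8) +
      ((R6 : ℝ) / 10 ^ 9 - (R7 : ℝ) / 10 ^ 9) * ((lowq c.T 7 : ℝ) / 10 ^ 8) +
      ((R7 : ℝ) / 10 ^ 9 - (R8 : ℝ) / 10 ^ 9) * ((lowq c.T 8 : ℝ) / 10 ^ 8))) * 10 ^ 20 =
      ((2000000000 * (σ * P.l1) : ℕ) : ℝ) +
        ((4 * (σ * (σ * σ)) * P.l3 * 1000 : ℕ) : ℝ) / ((3 : ℕ) : ℝ) +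
        ((1000 : ℕ) : ℝ) * ((10 ^ 9 - (R4 : ℝ)) * P.t0 + ((R4 : ℝ) - R5) * (lowq c.T 5 : ℝ) +
        ((R5 : ℝ) - R6) * (lowq c.T 6 : ℝ) + ((R6 : ℝ) - R7) * (lowq c.T 7 : ℝ) +
        ((R7 : ℝ) - R8) * (lowq c.T 8 : ℝ)) := by
      rw [hs]; push_cast; ring
    rw [e]
    linarith
  rw [sub_div]
  linarith

theorem quad_step {A a b La Lb lam : ℝ} (h0 : 0 ≤ lam) (h1 : lam ≤ 1)
    {M : ℝ} (hM0 : 0 ≤ M) (hM : (Lb - La) * (b - a) ≤ M) (ha : M < 4 * ((1 + a) * La - a * A))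
    (hb : M < 4 * ((1 + b) * Lb - b * A)) :
    ((1 - lam) * a + lam * b) * A <
      (1 + ((1 - lam) * a + lam * b)) * ((1 - lam) * La + lam * Lb) := by
  have e : (1 + ((1 - lam) * a + lam * b)) * ((1 - lam) * La + lam * Lb) -
      ((1 - lam) * a + lam * b) * A = (1 - lam) * ((1 + a) * La - a * A) +
      lam * ((1 + b) * Lb - b * A) - lam * (1 - lam) * ((Lb - La) * (b - a)) := by ring
  have h2 : lam * (1 - lam) ≤ 1 / 4 := by nlinarith [sq_nonneg (lam - 1 / 2)]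
  have h3 : 0 ≤ lam * (1 - lam) := mul_nonneg h0 (by linarith)
  have h4 : lam * (1 - lam) * ((Lb - La) * (b - a)) ≤ lam * (1 - lam) * M := by gcongr
  have h5 : lam * (1 - lam) * M ≤ 1 / 4 * M := by gcongr
  have h6 : M / 4 < (1 - lam) * ((1 + a) * La - a * A) + lam * ((1 + b) * Lb - b * A) := by
    rcases eq_or_lt_of_le h0 with h7 | h7
    · rw [← h7]; linarith
    · have h8 : lam * (M / 4) < lam * ((1 + b) * Lb - b * A) := by gcongr; linarith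
      have h9 : (1 - lam) * (M / 4) ≤ (1 - lam) * ((1 + a) * La - a * A) := by
        have : 0 ≤ 1 - lam := by linarith
        gcongr
        linarith
      linarith
  linarith

theorem pgrid_sound (h : Lobe α) {c : CellD} (hC : CellOk α c) {P : PairD} (hP : PairOk α P) :
    ∀ (l : List ℕ) (a La : ℕ),
    (La : ℝ) / 10 ^ 20 ≤ AA α / 2 - Kf α ((c.cc : ℝ) / 10 ^ 8) ((a : ℝ) / 1000) →
    pgrid c P etab a La l = true → ∀ τ : ℝ, (a : ℝ) / 1000 < τ →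
    τ ≤ ((l.getLastD a : ℕ) : ℝ) / 1000 →
    (1 + τ) * Kf α ((c.cc : ℝ) / 10 ^ 8) τ < AA α / 2 := by
  intro l
  induction l with
  | nil =>
    intro a La _ _ τ h1 h2
    exact absurd (h1.trans_le h2) (lt_irrefl _)
  | cons b l ih =>
    intro a La hLa hp τ h1 h2
    unfold pgrid at hp
    rw [fc_eq] at hp
    obtain ⟨g1, hp⟩ := cond_false_eq_true hp
    obtain ⟨g2, hp⟩ := cond_false_eq_true hp
    obtain ⟨g3, hp⟩ := cond_false_eq_true hp
    have g1' : a + 1 ≤ b := ble_iff.1 g1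
    have g2' := ble_iff.1 g2
    have g3' := ble_iff.1 g3
    set Lb := Lq c P etab b with hLb
    have hLb' := Lq_sound h hC hP b
    rw [← hLb] at hLb'
    rcases lt_or_ge ((b : ℝ) / 1000) τ with h3 | h3
    · refine ih b Lb hLb' hp τ h3 ?_
      rwa [List.getLastD_cons] at h2
    · set cr : ℝ := (c.cc : ℝ) / 10 ^ 8 with hcr
      have habR : (a : ℝ) < b := by exact_mod_cast (by omega : a < b)
      have hab : (a : ℝ) / 1000 < (b : ℝ) / 1000 := by gcongr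
      set a' : ℝ := (a : ℝ) / 1000 with ha'
      set b' : ℝ := (b : ℝ) / 1000 with hb'
      have ha0 : 0 ≤ a' := by positivity
      set lam := (τ - a') / (b' - a') with hlam
      have hba : 0 < b' - a' := by linarith
      have hl0 : 0 ≤ lam := div_nonneg (by linarith) hba.le
      have hl1 : lam ≤ 1 := by rw [hlam, div_le_one hba]; linarith
      have hτ : (1 - lam) * a' + lam * b' = τ := by
        rw [hlam]; field_simp; ring
      have hch := Kf_chord h cr (s := a') (t := b') hl0 hl1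
      rw [hτ] at hch
      set M : ℝ := (((Lb - La : ℕ) : ℝ) / 10 ^ 20) * (b' - a') with hM
      have hbac : ((b - a : ℕ) : ℝ) = (b : ℝ) - a := Nat.cast_sub (by omega)
      have hba' : b' - a' = ((b : ℝ) - a) / 1000 := by rw [hb', ha']; ring
      have q1 := quad_step (A := (P.ah : ℝ) / 10 ^ 8 / 2) (a := a') (b := b')
        (La := (La : ℝ) / 10 ^ 20) (Lb := (Lb : ℝ) / 10 ^ 20) hl0 hl1 (M := M)
        (by positivity) (by
          rw [hM]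
          refine mul_le_mul_of_nonneg_right ?_ hba.le
          rw [← sub_div]
          gcongr
          rw [cast_sub_eq]
          exact le_max_left _ _) (by
          have : ((4 * a * (P.ah * 500000000000) + (Lb - La) * (b - a) + 1 : ℕ) : ℝ) ≤
            ((4 * (1000 + a) * La : ℕ) : ℝ) := by exact_mod_cast g2'
          rw [Nat.cast_add, Nat.cast_add, Nat.cast_mul (Lb - La), hbac] at this
          rw [hM, hba', ha']
          push_cast at this ⊢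
          have e1 : (((Lb - La : ℕ) : ℝ) / 10 ^ 20) * (((b : ℝ) - a) / 1000) * 10 ^ 23 =
            ((Lb - La : ℕ) : ℝ) * ((b : ℝ) - a) := by ring
          have e2 : 4 * ((1 + (a : ℝ) / 1000) * ((La : ℝ) / 10 ^ 20) -
            (a : ℝ) / 1000 * ((P.ah : ℝ) / 10 ^ 8 / 2)) * 10 ^ 23 =
            4 * (1000 + (a : ℝ)) * La - 4 * a * (P.ah * 500000000000) := by ring
          refine lt_of_mul_lt_mul_right ?_ (show (0 : ℝ) ≤ 10 ^ 23 by norm_num)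
          rw [e1, e2]
          linarith) (by
          have : ((4 * b * (P.ah * 500000000000) + (Lb - La) * (b - a) + 1 : ℕ) : ℝ) ≤
            ((4 * (1000 + b) * Lb : ℕ) : ℝ) := by exact_mod_cast g3'
          rw [Nat.cast_add, Nat.cast_add, Nat.cast_mul (Lb - La), hbac] at this
          rw [hM, hba', hb']
          push_cast at this ⊢
          have e1 : (((Lb - La : ℕ) : ℝ) / 10 ^ 20) * (((b : ℝ) - a) / 1000) * 10 ^ 23 =
            ((Lb - La : ℕ) : ℝ) * ((b : ℝ) - a) := by ring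
          have e2 : 4 * ((1 + (b : ℝ) / 1000) * ((Lb : ℝ) / 10 ^ 20) -
            (b : ℝ) / 1000 * ((P.ah : ℝ) / 10 ^ 8 / 2)) * 10 ^ 23 =
            4 * (1000 + (b : ℝ)) * Lb - 4 * b * (P.ah * 500000000000) := by ring
          refine lt_of_mul_lt_mul_right ?_ (show (0 : ℝ) ≤ 10 ^ 23 by norm_num)
          rw [e1, e2]
          linarith)
      rw [hτ] at q1
      have hτ0 : 0 ≤ τ := by linarith
      have hah := hP.ah
      set l := (1 - lam) * ((La : ℝ) / 10 ^ 20) + lam * ((Lb : ℝ) / 10 ^ 20) with hl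
      have hKl : Kf α cr τ ≤ AA α / 2 - l := by
        have m1 := mul_le_mul_of_nonneg_left hLa (show 0 ≤ 1 - lam by linarith)
        have m2 := mul_le_mul_of_nonneg_left hLb' hl0
        have e : (1 - lam) * Kf α cr a' + lam * Kf α cr b' = AA α / 2 -
          ((1 - lam) * (AA α / 2 - Kf α cr a') + lam * (AA α / 2 - Kf α cr b')) := by ring
        rw [e] at hch
        linarith
      have hf : (1 + τ) * Kf α cr τ ≤ (1 + τ) * (AA α / 2 - l) := by gcongr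
      have hg : τ * (AA α / 2) ≤ τ * ((P.ah : ℝ) / 10 ^ 8 / 2) := by
        have : AA α / 2 ≤ (P.ah : ℝ) / 10 ^ 8 / 2 := by linarith
        gcongr
      have e : (1 + τ) * (AA α / 2 - l) = AA α / 2 + τ * (AA α / 2) - (1 + τ) * l := by ring
      rw [e] at hf
      linarith

end LpSec.ML
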