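import Mathlib
import Pool.Agent.Lib.MP_1dbab3_gt.W.M23

/-!
# The neighbourhood of the pair, part 6: the statement from the numerical check
-/

open Real MeasureTheory Set Filter Topology

namespace LpSec.ML

variable {α : ℝ}

theorem pchk_sound (h : Lobe α) {c : CellD} (hC : CellOk α c) {P : PairD} (hP : PairOk α P)
    {q0 s1 s0 yz : ℕ} {l : List ℕ} (hk : pchk c P etab q0 s1 l s0 yz = true) :
    NearPair α ((c.cc : ℝ) / 10 ^ 8) ((c.k0 : ℝ) / 10 ^ 8) ((c.k1 : ℝ) / 10 ^ 8)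
      ((q0 : ℝ) / 4096) ((s0 : ℝ) / 1000) (11 / 20) ∧
    (1 : ℝ) ≤ (yz : ℝ) / 4096 * (1 + (s0 : ℝ) / 1000) := by
  unfold pchk at hk
  simp only [Bool.and_eq_true, ble_iff] at hk
  obtain ⟨⟨⟨⟨⟨⟨⟨k1, k2⟩, k3⟩, k4⟩, k5⟩, k6⟩, k7⟩, k8⟩ := hk
  rw [fc_eq] at k8
  obtain ⟨k8, k9⟩ := cond_false_eq_true k8
  have k8' := ble_iff.1 k8
  have k6' : l.getLastD s1 = s0 := Nat.eq_of_beq_eq_true k6
  have hA := AA_pos h.one_lt
  set cr : ℝ := (c.cc : ℝ) / 10 ^ 8 with hcr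
  have hcr0 : 0 ≤ cr := by positivity
  have hL1 := Lq_sound h hC hP s1
  have hgrid := pgrid_sound h hC hP l s1 (Lq c P etab s1) hL1 k9
  rw [k6'] at hgrid
  set L1 := Lq c P etab s1 with hL1d
  have hs1 : (0 : ℝ) < (s1 : ℝ) / 1000 := by
    have : (0 : ℝ) < s1 := by exact_mod_cast (by omega : 0 < s1)
    positivity
  have hq0 : (0 : ℝ) ≤ (q0 : ℝ) / 4096 := by positivity
  have hq3 : (q0 : ℝ) / 4096 ≤ 1 / 3 := by
    have : (3 : ℝ) * q0 ≤ 4096 := by exact_mod_cast k2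
    rw [div_le_div_iff₀ (by norm_num) (by norm_num)]
    linarith
  have hch := hC.ch
  have hz3 : z1 α ≤ 3 := by
    have : (c.ch : ℝ) ≤ 300000000 := by exact_mod_cast k3
    refine hch.trans ?_
    rw [div_le_iff₀ (by norm_num)]
    linarith
  have hcc := hC.cc
  have hcz : cr ≤ z1 α := hcc.trans (cc_le α)
  have hs0 : (0 : ℝ) < (s0 : ℝ) / 1000 := by
    by_contra hn
    have h5 : (s0 : ℝ) / 1000 = 0 := le_antisymm (not_lt.1 hn) (by positivity)
    -- the list is increasing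
    have hmono : ∀ (l : List ℕ) (a La : ℕ), pgrid c P etab a La l = true → a ≤ l.getLastD a := by
      intro l
      induction l with
      | nil => intro a La _; exact le_rfl
      | cons b l ih =>
        intro a La hp
        unfold pgrid at hp
        rw [fc_eq] at hp
        obtain ⟨g1, hp⟩ := cond_false_eq_true hp
        obtain ⟨g2, hp⟩ := cond_false_eq_true hp
        obtain ⟨g3, hp⟩ := cond_false_eq_true hp
        have g1' : a + 1 ≤ b := ble_iff.1 g1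
        rw [List.getLastD_cons]
        exact (by omega : a ≤ b).trans (ih b _ hp)
    have h6 := hmono l s1 _ k9
    rw [k6'] at h6
    have h7 : (s1 : ℝ) / 1000 ≤ (s0 : ℝ) / 1000 := by
      have : (s1 : ℝ) ≤ s0 := by exact_mod_cast h6
      gcongr
    linarith
  have hGp := Gp_eq h ((c.k0 : ℝ) / 10 ^ 8) ((c.k1 : ℝ) / 10 ^ 8) ((q0 : ℝ) / 4096)
  have hGnum : (Gnum c P q0 : ℝ) / (10 ^ 24 * 33554432) ≤
      Gp α ((c.k0 : ℝ) / 10 ^ 8) ((c.k1 : ℝ) / 10 ^ 8) ((q0 : ℝ) / 4096) ∨ Gnum c P q0 = 0 := by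
    by_cases h0 : Gnum c P q0 = 0
    · exact Or.inr h0
    · left
      have hle : q0 * q0 * (c.k0 * c.k0 * P.u4 + 2 * c.k0 * c.k1 * P.u5 + c.k1 * c.k1 * P.u6) ≤
          2 * 16777216 * 10 ^ 8 * (c.k0 * P.l2 + c.k1 * P.l3) := by
        unfold Gnum at h0; omega
      unfold Gnum
      rw [Nat.cast_sub hle, hGp]
      have i2 := mul_le_mul_of_nonneg_left hP.l2 (show (0 : ℝ) ≤ (c.k0 : ℝ) / 10 ^ 8 by positivity)
      have i3 := mul_le_mul_of_nonneg_left hP.l3 (show (0 : ℝ) ≤ (c.k1 : ℝ) / 10 ^ 8 by positivity)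
      have i4 := mul_le_mul_of_nonneg_left hP.u4
        (show (0 : ℝ) ≤ ((q0 : ℝ) / 4096) ^ 2 / 2 * ((c.k0 : ℝ) / 10 ^ 8) ^ 2 by positivity)
      have i5 := mul_le_mul_of_nonneg_left hP.u5
        (show (0 : ℝ) ≤ ((q0 : ℝ) / 4096) ^ 2 / 2 * (2 * ((c.k0 : ℝ) / 10 ^ 8) *
          ((c.k1 : ℝ) / 10 ^ 8)) by positivity)
      have i6 := mul_le_mul_of_nonneg_left hP.u6
        (show (0 : ℝ) ≤ ((q0 : ℝ) / 4096) ^ 2 / 2 * ((c.k1 : ℝ) / 10 ^ 8) ^ 2 by positivity)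
      push_cast
      have e : ((3355443200000000 * ((c.k0 : ℝ) * P.l2 + c.k1 * P.l3) -
        q0 * q0 * (c.k0 * c.k0 * P.u4 + 2 * c.k0 * c.k1 * P.u5 + c.k1 * c.k1 * P.u6)) /
        (10 ^ 24 * 33554432) : ℝ) =
        (c.k0 : ℝ) / 10 ^ 8 * ((P.l2 : ℝ) / 10 ^ 8) + (c.k1 : ℝ) / 10 ^ 8 * ((P.l3 : ℝ) / 10 ^ 8) -
        (((q0 : ℝ) / 4096) ^ 2 / 2 * ((c.k0 : ℝ) / 10 ^ 8) ^ 2 * ((P.u4 : ℝ) / 10 ^ 8) +
        ((q0 : ℝ) / 4096) ^ 2 / 2 * (2 * ((c.k0 : ℝ) / 10 ^ 8) * ((c.k1 : ℝ) / 10 ^ 8)) *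
          ((P.u5 : ℝ) / 10 ^ 8) +
        ((q0 : ℝ) / 4096) ^ 2 / 2 * ((c.k1 : ℝ) / 10 ^ 8) ^ 2 * ((P.u6 : ℝ) / 10 ^ 8)) := by
        field_simp
        ring
      rw [e]
      linarith
  have hGne : Gnum c P q0 ≠ 0 := by
    intro h0
    rw [h0, Nat.mul_zero] at k7
    omega
  have hG := hGnum.resolve_right hGne
  have hdne : 10 ^ 11 - 2 * (c.ch - c.cc) * s0 ≠ 0 := by
    intro h0
    rw [h0, Nat.mul_zero, Nat.zero_mul] at k7
    omega
  have hG0 : (0 : ℝ) < (Gnum c P q0 : ℝ) / (10 ^ 24 * 33554432) := by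
    have : (0 : ℝ) < (Gnum c P q0 : ℝ) := by exact_mod_cast Nat.pos_of_ne_zero hGne
    positivity
  have hfac : ((10 ^ 11 - 2 * (c.ch - c.cc) * s0 : ℕ) : ℝ) / 10 ^ 11 ≤
      1 - 2 * (z1 α - cr) * ((s0 : ℝ) / 1000) := by
    have hle : 2 * (c.ch - c.cc) * s0 ≤ 10 ^ 11 := by omega
    rw [Nat.cast_sub hle]
    have h6 : z1 α - cr ≤ ((c.ch - c.cc : ℕ) : ℝ) / 10 ^ 8 := by
      rw [cast_sub_eq]
      refine le_trans ?_ (div_le_div_of_nonneg_right (le_max_left _ _) (by norm_num))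
      rw [sub_div]
      linarith
    have h7 : 2 * (z1 α - cr) * ((s0 : ℝ) / 1000) ≤
        2 * (((c.ch - c.cc : ℕ) : ℝ) / 10 ^ 8) * ((s0 : ℝ) / 1000) := by gcongr
    push_cast
    have e : ((100000000000 : ℝ) - 2 * ((c.ch - c.cc : ℕ) : ℝ) * s0) / 10 ^ 11 =
      1 - 2 * (((c.ch - c.cc : ℕ) : ℝ) / 10 ^ 8) * ((s0 : ℝ) / 1000) := by
      field_simp
      ring
    rw [e]
    linarith
  have hfac0 : (0 : ℝ) < ((10 ^ 11 - 2 * (c.ch - c.cc) * s0 : ℕ) : ℝ) / 10 ^ 11 := by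
    have : (0 : ℝ) < ((10 ^ 11 - 2 * (c.ch - c.cc) * s0 : ℕ) : ℝ) := by
      exact_mod_cast Nat.pos_of_ne_zero hdne
    positivity
  refine ⟨⟨hq0, hq3, hs0, fun q hq0' hq => ?_, by norm_num, hcr0, hcc, by positivity, by positivity,
    hC.k0, hC.k1, hz3, ?_, fun τ hτ0 hτ => ?_, ?_, hG0.le.trans hG⟩, ?_⟩
  · -- the constant `11 / 20`
    have hq' : q ≤ 1 / 3 := hq.trans hq3
    set X := q ^ 2 with hX
    have hX0 : 0 ≤ X := sq_nonneg q
    have hX1 : X ≤ 1 / 9 := by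
      calc X ≤ (1 / 3) ^ 2 := by rw [hX]; gcongr
        _ = 1 / 9 := by norm_num
    have e : (1 + 11 / 20 * X) ^ 2 * (1 - X) - 1 =
      X * (1 / 10 - 319 / 400 * X - 121 / 400 * X ^ 2) := by ring
    have h6 : 0 ≤ 1 / 10 - 319 / 400 * X - 121 / 400 * X ^ 2 := by nlinarith
    have h7 : 0 ≤ X * (1 / 10 - 319 / 400 * X - 121 / 400 * X ^ 2) := mul_nonneg hX0 h6
    linarith
  · have : (4 : ℝ) * s0 * 4096 + q0 * 1000 ≤ 4096000 := by exact_mod_cast k1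
    linarith
  · rcases lt_or_ge ((s1 : ℝ) / 1000) τ with h6 | h6
    · exact hgrid τ h6 hτ
    · -- the first interval
      set lam := τ / ((s1 : ℝ) / 1000) with hlam
      have hl0 : 0 ≤ lam := by positivity
      have hl1 : lam ≤ 1 := by rw [hlam, div_le_one hs1]; exact h6
      have hch' := Kf_chord h cr (s := 0) (t := (s1 : ℝ) / 1000) hl0 hl1
      have e1 : (1 - lam) * 0 + lam * ((s1 : ℝ) / 1000) = τ := by
        rw [hlam]; field_simp; ring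
      rw [e1, Kf_zero h cr] at hch'
      have h7 : (s1 : ℝ) / 1000 * (AA α / 2) ≤ AA α / 2 - Kf α cr ((s1 : ℝ) / 1000) := by
        refine le_trans ?_ hL1
        have h8 : (500000000 : ℝ) * s1 * P.ah ≤ L1 := by exact_mod_cast k8'
        have h9 := hP.ah
        calc (s1 : ℝ) / 1000 * (AA α / 2) ≤ (s1 : ℝ) / 1000 * ((P.ah : ℝ) / 10 ^ 8 / 2) := by
              gcongr
          _ = (500000000 : ℝ) * s1 * P.ah / 10 ^ 20 := by ring
          _ ≤ (L1 : ℝ) / 10 ^ 20 := by gcongr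
      have h8 : lam * ((s1 : ℝ) / 1000 * (AA α / 2)) ≤
          lam * (AA α / 2 - Kf α cr ((s1 : ℝ) / 1000)) := by gcongr
      have e2 : lam * ((s1 : ℝ) / 1000 * (AA α / 2)) = τ * (AA α / 2) := by
        rw [hlam]; field_simp
      have h9 : Kf α cr τ ≤ AA α / 2 * (1 - τ) := by
        have e3 : (1 - lam) * (AA α / 2) + lam * Kf α cr ((s1 : ℝ) / 1000) =
          AA α / 2 - lam * (AA α / 2 - Kf α cr ((s1 : ℝ) / 1000)) := by ring
        rw [e3] at hch'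
        linarith
      calc (1 + τ) * Kf α cr τ ≤ (1 + τ) * (AA α / 2 * (1 - τ)) := by gcongr
        _ = AA α / 2 - AA α / 2 * τ ^ 2 := by ring
        _ < AA α / 2 := by
            have : 0 < AA α / 2 * τ ^ 2 := by positivity
            linarith
  · -- the quadratic term
    have h6 : (11 : ℝ) * c.h * (10 ^ 35 * 33554432) <
        2000000000 * ((10 ^ 11 - 2 * (c.ch - c.cc) * s0 : ℕ) : ℝ) * (Gnum c P q0 : ℝ) := by
      have : ((11 * c.h * (10 ^ 35 * 33554432) + 1 : ℕ) : ℝ) ≤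
        ((2000000000 * (10 ^ 11 - 2 * (c.ch - c.cc) * s0) * Gnum c P q0 : ℕ) : ℝ) := by
        exact_mod_cast k7
      rw [Nat.cast_add, Nat.cast_mul (2000000000 * _), Nat.cast_mul 2000000000] at this
      push_cast at this ⊢
      linarith
    have h7 : 11 / 20 * T2 α (z1 α) ≤ 11 / 20 * ((c.h : ℝ) / 10 ^ 8) := by
      have := hC.h
      gcongr
    refine h7.trans_lt ?_
    have h8 : 11 / 20 * ((c.h : ℝ) / 10 ^ 8) <
        ((10 ^ 11 - 2 * (c.ch - c.cc) * s0 : ℕ) : ℝ) / 10 ^ 11 *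
          ((Gnum c P q0 : ℝ) / (10 ^ 24 * 33554432)) := by
      refine lt_of_mul_lt_mul_right ?_ (show (0 : ℝ) ≤ 20 * 10 ^ 43 * 33554432 by norm_num)
      have e1 : 11 / 20 * ((c.h : ℝ) / 10 ^ 8) * (20 * 10 ^ 43 * 33554432) =
        11 * c.h * (10 ^ 35 * 33554432) := by ring
      have e2 : ((10 ^ 11 - 2 * (c.ch - c.cc) * s0 : ℕ) : ℝ) / 10 ^ 11 *
          ((Gnum c P q0 : ℝ) / (10 ^ 24 * 33554432)) * (20 * 10 ^ 43 * 33554432) =
        2000000000 * ((10 ^ 11 - 2 * (c.ch - c.cc) * s0 : ℕ) : ℝ) * (Gnum c P q0 : ℝ) := by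
        field_simp
        ring
      rw [e1, e2]
      exact h6
    refine h8.trans_le ?_
    exact mul_le_mul hfac hG hG0.le (hfac0.le.trans hfac)
  · have : (4096000 : ℝ) ≤ yz * (1000 + s0) := by exact_mod_cast k5
    have e : (yz : ℝ) / 4096 * (1 + (s0 : ℝ) / 1000) = yz * (1000 + s0) / 4096000 := by ring
    rw [e, le_div_iff₀ (by norm_num)]
    linarith

/-- **the neighbourhood of the pair**, in the form used by the box checker -/
theorem near_sound (h : Lobe α) {c : CellD} (hC : CellOk α c) {P : PairD} (hP : PairOk α P)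
    {q0 s1 s0 yz : ℕ} {l : List ℕ} (hk : pchk c P etab q0 s1 l s0 yz = true)
    {n : ℕ} {x : Fin n → ℝ} {i j k : Fin n} (C : Cfg x i j k) (hne : ¬ PairX x)
    (hyz : (yz : ℝ) / 4096 ≤ x i + x j) (hq : x i - x j ≤ (q0 : ℝ) / 4096 * (x i + x j)) :
    J α x < AA α := by
  obtain ⟨hN, hy⟩ := pchk_sound h hC hP hk
  have hi := C.hi
  have hj := C.hj
  set m := (x i + x j) / 2 with hm
  have hm0 : 0 < m := by rw [hm]; linarith
  set q := (x i - x j) / (x i + x j) with hqd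
  have hs : x i + x j ≠ 0 := by linarith
  have hS := C.rest
  have hS0 := C.rest_nonneg
  set τ := (1 - x i - x j) / (x i + x j) with hτ
  refine near_pair_lt h hN C.nn C.sum C.hij C.hz C.hji (m := m) (q := q) (τ := τ) hm0 ?_ ?_ ?_ ?_ ?_
    ?_
  · rw [hm, hqd]; field_simp; ring
  · rw [hm, hqd]; field_simp; ring
  · rw [hS, hm, hτ]; field_simp
  · rw [hqd, div_le_iff₀ (by linarith)]; exact hq
  · rw [hτ, div_le_iff₀ (by linarith)]
    have h1 : (1 : ℝ) ≤ (x i + x j) * (1 + (s0 : ℝ) / 1000) := by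
      refine hy.trans ?_
      gcongr
    linarith
  · rintro ⟨h1, h2⟩
    refine hne ⟨i, j, C.hij, ?_, ?_⟩
    · rw [hqd, div_eq_zero_iff] at h1
      rw [hτ, div_eq_zero_iff] at h2
      have h3 := h1.resolve_right hs
      have h4 := h2.resolve_right hs
      linarith
    · rw [hqd, div_eq_zero_iff] at h1
      rw [hτ, div_eq_zero_iff] at h2
      have h3 := h1.resolve_right hs
      have h4 := h2.resolve_right hs
      linarith

end LpSec.ML
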