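import Mathlib
import Pool.Agent.Lib.MP_1dbab3_gt.W.M24

/-!
# The window, `n ≥ 4`: assembly of one cell
-/

open Real MeasureTheory Set Filter Topology

namespace LpSec.ML

variable {α : ℝ}

/-- everything that is known in a cell and a dimension -/
structure Ctx (α : ℝ) (c : CellD) (N : NumD) (n : ℕ) (R : RunD) (lb : ℕ) : Prop where
  lobe : Lobe α
  conc : Conc4 α
  cell : CellOk α c
  num : NumOk α c N
  hd : Dim N.n n
  hn0 : 3 ≤ N.n
  lb : n * Im α n 0 - (lb : ℝ) / 10 ^ 8 ≤ vv α n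
  tA : R.tA = true → N.n = n
  sg : R.sg = true → n ≤ 4
  q0 : R.q0 ≤ 4096
  tr : (2 : ℝ) ^ (1 / α - 1) ≤ (R.ytr : ℝ) / 4096
  np : ∀ {x : Fin n → ℝ} {i j k : Fin n}, Cfg x i j k → ¬ PairX x →
    (R.yz : ℝ) / 4096 ≤ x i + x j → x i - x j ≤ (R.q0 : ℝ) / 4096 * (x i + x j) → J α x < AA α

theorem Cfg.two_le {n : ℕ} {x : Fin n → ℝ} {i j k : Fin n} (C : Cfg x i j k) : x j ≤ 1 / 2 := by
  have h1 := C.rest_nonneg
  have h2 := C.hji
  linarith

theorem Cfg.three {n : ℕ} {x : Fin n → ℝ} {i j k : Fin n} (C : Cfg x i j k) : x k ≤ 1 / 3 := by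
  have h1 := C.rest
  have h2 : x k ≤ ∑ l ∈ (Finset.univ.erase i).erase j, x l :=
    Finset.single_le_sum (fun l _ => C.nn l) C.k_mem
  have h3 := C.hji
  have h4 := C.hz k C.hik.symm
  linarith

theorem Cfg.one_le {n : ℕ} {x : Fin n → ℝ} {i j k : Fin n} (C : Cfg x i j k) :
    1 ≤ (n : ℝ) * x i := by
  have h1 : ∑ l, x l ≤ ∑ _l : Fin n, x i := Finset.sum_le_sum fun l _ => by
    by_cases hl : l = i
    · rw [hl]
    · exact (C.hz l hl).trans C.hji
  rw [C.sum, Finset.sum_const, Finset.card_univ, Fintype.card_fin, nsmul_eq_mul] at h1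
  exact h1

theorem Ctx.run {c : CellD} {N : NumD} {n : ℕ} {R : RunD} {lb : ℕ} (H : Ctx α c N n R lb)
    {x : Fin n → ℝ} {i j k : Fin n} (C : Cfg x i j k) (hlt : ∀ l, x l < 1) (hne : ¬ PairX x)
    (hy : 1 ≤ N.n * x i) (hls : R.low = false → (R.yls : ℝ) / 4096 < x i)
    (hlow : R.low = true → x i ≤ (R.yls : ℝ) / 4096 → N.n = n ∧ 4 ≤ n ∧
      ∃ l ∈ ((Finset.univ.erase i).erase j).erase k, x l ≤ (R.rls : ℝ) / 100 * x i)
    {f y0 y1 w1 : ℕ} (hya : (y0 : ℝ) / 4096 ≤ x i)
    (hyb : x i < (R.ytr : ℝ) / 4096 → x i ≤ (y1 : ℝ) / 4096) (hw1 : 1366 ≤ w1)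
    (hgo : goB c N R etab lb f y0 y1 0 2048 0 w1 = true) : J α x < max (AA α) (vv α n) := by
  by_cases htr : (R.ytr : ℝ) / 4096 ≤ x i
  · exact lt_max_of_lt_left (J_lt_AA_of_big H.lobe.one_lt C.nn C.sum hlt C.hij C.hj
      (H.tr.trans htr))
  have htr' := not_le.1 htr
  by_cases hnp : (R.yz : ℝ) / 4096 ≤ x i + x j ∧ x i - x j ≤ (R.q0 : ℝ) / 4096 * (x i + x j)
  · exact lt_max_of_lt_left (H.np C hne hnp.1 hnp.2)
  have hR : RunHyp α c N R lb x i j k :=
    { lobe := H.lobe, conc := H.conc, cell := H.cell, num := H.num, cfg := C, hd := H.hd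
      hn0 := H.hn0, lb := H.lb, tA := H.tA, sg := H.sg, low := hlow, hy := hy, ls := hls
      tr := htr', q0 := H.q0
      np := fun h1 => by
        by_contra h2
        exact hnp ⟨h1, not_lt.1 h2⟩ }
  refine go_sound hR f ⟨hya, hyb htr', ?_, ?_, ?_, ?_⟩ hgo
  · simpa using C.hj.le
  · have := C.two_le
    norm_num
    linarith
  · simpa using C.nn k
  · have h1 := C.three
    have h2 : (1366 : ℝ) ≤ w1 := by exact_mod_cast hw1
    rw [le_div_iff₀ (by norm_num)]
    linarith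

/-- a cell without the region of LS -/
theorem Ctx.core_all {c : CellD} {N : NumD} {n : ℕ} {R : RunD} {lb : ℕ} (H : Ctx α c N n R lb)
    (hNn : N.n = n) (hn : 3 ≤ n) (hl : R.low = false) (hyls : R.yls = 0) {f y0 w1 : ℕ}
    (hy0 : n * y0 ≤ 4096) (hw1 : 1366 ≤ w1)
    (hgo : goB c N R etab lb f y0 R.ytr 0 2048 0 w1 = true) : Core α n := by
  intro x hx h1 hlt hne _
  obtain ⟨i, j, k, C⟩ := exists_cfg hn hx h1 hlt
  have hy := C.one_le
  refine H.run C hlt hne (by rw [hNn]; exact hy) (fun _ => ?_) (fun h => ?_) ?_ (fun h => h.le)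
    hw1 hgo
  · rw [hyls]
    simpa using C.hi
  · rw [hl] at h; exact absurd h (by simp)
  · have h2 : (n : ℝ) * y0 ≤ 4096 := by exact_mod_cast hy0
    have hn0 : (0 : ℝ) < n := by exact_mod_cast (by omega : 0 < n)
    rw [div_le_iff₀ (by norm_num)]
    by_contra h3
    rw [not_le] at h3
    have h4 : (n : ℝ) * (x i * 4096) < n * y0 := by gcongr
    nlinarith

/-- a large maximum -/
theorem Ctx.core_big {c : CellD} {N : NumD} {n : ℕ} {R : RunD} {lb : ℕ} (H : Ctx α c N n R lb)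
    (hNn : N.n = n) (hn : 3 ≤ n) (hl : R.low = false) {f y0 w1 : ℕ} (hyls : R.yls < y0)
    (hw1 : 1366 ≤ w1) (hgo : goB c N R etab lb f y0 R.ytr 0 2048 0 w1 = true)
    {x : Fin n → ℝ} (hx : ∀ i, 0 ≤ x i) (h1 : ∑ i, x i = 1) (hlt : ∀ i, x i < 1)
    (hne : ¬ PairX x) (hbig : ∃ i, (y0 : ℝ) / 4096 ≤ x i) : J α x < max (AA α) (vv α n) := by
  obtain ⟨i, j, k, C⟩ := exists_cfg hn hx h1 hlt
  have hy := C.one_le
  obtain ⟨i', hi'⟩ := hbig
  have hya : (y0 : ℝ) / 4096 ≤ x i := by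
    refine hi'.trans ?_
    by_cases hl : i' = i
    · rw [hl]
    · exact (C.hz i' hl).trans C.hji
  refine H.run C hlt hne (by rw [hNn]; exact hy) (fun _ => ?_) (fun h => ?_) hya (fun h => h.le)
    hw1 hgo
  · refine lt_of_lt_of_le ?_ hya
    have : (R.yls : ℝ) < y0 := by exact_mod_cast hyls
    gcongr
  · rw [hl] at h; exact absurd h (by simp)

/-- a cell with the region of LS, no lower bound of the ratio -/
theorem Ctx.core_ls {c : CellD} {N : NumD} {n : ℕ} {R : RunD} {lb : ℕ} (H : Ctx α c N n R lb)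
    (hn : 3 ≤ n) (hl : R.low = false) {Y r : ℝ} (hr : r ≤ -1) (hLS : LSat α n Y r)
    {f y0 w1 : ℕ} (hy0 : y0 ≤ R.yls) (hN7 : 4096 ≤ N.n * R.yls ∨ N.n = n)
    (hY : (R.yls : ℝ) / 4096 ≤ Y) (hw1 : 1366 ≤ w1)
    (hgo : goB c N R etab lb f y0 R.ytr 0 2048 0 w1 = true) : Core α n := by
  intro x hx h1 hlt hne hflat
  obtain ⟨i, j, k, C⟩ := exists_cfg hn hx h1 hlt
  have hmax : ∀ l, x l ≤ x i := fun l => by
    by_cases hl : l = i
    · rw [hl]
    · exact (C.hz l hl).trans C.hji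
  rcases le_or_gt (x i) ((R.yls : ℝ) / 4096) with h2 | h2
  · refine hLS x hx h1 (fun l => ((hmax l).trans h2).trans hY) (fun a b ha => ?_) hflat
    have h3 : r * x a < 0 := by nlinarith
    exact h3.trans_le (hx b)
  · refine H.run C hlt hne ?_ (fun _ => h2) (fun h => ?_) ?_ (fun h => h.le) hw1 hgo
    · rcases hN7 with h3 | h3
      · have h4 : (4096 : ℝ) ≤ N.n * R.yls := by exact_mod_cast h3
        have h5 : (N.n : ℝ) * ((R.yls : ℝ) / 4096) ≤ N.n * x i := by gcongr
        refine le_trans ?_ h5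
        rw [mul_div_assoc', le_div_iff₀ (by norm_num)]
        linarith
      · rw [h3]; exact C.one_le
    · rw [hl] at h; exact absurd h (by simp)
    · refine le_trans ?_ h2.le
      have : (y0 : ℝ) ≤ R.yls := by exact_mod_cast hy0
      gcongr

/-- a cell with the region of LS and a lower bound of the ratio -/
theorem Ctx.core_low {c : CellD} {N : NumD} {n : ℕ} {R R' : RunD} {lb : ℕ}
    (H : Ctx α c N n R lb) (H' : Ctx α c N n R' lb) (hNn : N.n = n)
    (hn : 4 ≤ n) (hl : R.low = false) (hl' : R'.low = true) {Y r : ℝ} (hLS : LSat α n Y r)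
    (hr : r = (R'.rls : ℝ) / 100) (hr1 : R'.rls < 100)
    {f f' y0 y0' w1 w1' : ℕ} (hy0 : y0 ≤ R.yls) (hyy : R'.yls = R.yls) (hy0' : n * y0' ≤ 4096)
    (hY : (R.yls : ℝ) / 4096 ≤ Y) (hw1 : 1366 ≤ w1) (hw1' : 1366 ≤ w1')
    (hgo : goB c N R etab lb f y0 R.ytr 0 2048 0 w1 = true)
    (hgo' : goB c N R' etab lb f' y0' R'.yls 0 2048 0 w1' = true) : Core α n := by
  intro x hx h1 hlt hne hflat
  obtain ⟨i, j, k, C⟩ := exists_cfg (by omega) hx h1 hlt
  have hmax : ∀ l, x l ≤ x i := fun l => by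
    by_cases hl : l = i
    · rw [hl]
    · exact (C.hz l hl).trans C.hji
  rcases le_or_gt (x i) ((R.yls : ℝ) / 4096) with h2 | h2
  · by_cases hrat : ∀ a b, 0 < x a → r * x a < x b
    · exact hLS x hx h1 (fun l => ((hmax l).trans h2).trans hY) hrat hflat
    · push Not at hrat
      obtain ⟨a, b, ha, hab⟩ := hrat
      have hr0 : 0 ≤ r := by rw [hr]; positivity
      have hrlt : r < 1 := by
        rw [hr, div_lt_one (by norm_num)]
        exact_mod_cast hr1
      have hbi : x b ≤ r * x i := hab.trans (mul_le_mul_of_nonneg_left (hmax a) hr0)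
      have hbne : b ≠ i := by
        rintro rfl
        have := C.hi
        nlinarith
      have hcard := C.card3
      have hne3 : (((Finset.univ.erase i).erase j).erase k).Nonempty :=
        Finset.card_pos.1 (by omega)
      have hex : ∃ l ∈ ((Finset.univ.erase i).erase j).erase k, x l ≤ r * x i := by
        by_cases hb3 : b ∈ ((Finset.univ.erase i).erase j).erase k
        · exact ⟨b, hb3, hbi⟩
        · obtain ⟨l, hl⟩ := hne3
          have hlk : l ≠ k := Finset.ne_of_mem_erase hl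
          have hlj : l ≠ j := Finset.ne_of_mem_erase (Finset.mem_of_mem_erase hl)
          have hli : l ≠ i :=
            Finset.ne_of_mem_erase (Finset.mem_of_mem_erase (Finset.mem_of_mem_erase hl))
          refine ⟨l, hl, le_trans ?_ hbi⟩
          by_cases hbj : b = j
          · rw [hbj]; exact C.hz l hli
          · by_cases hbk : b = k
            · rw [hbk]; exact C.hw l hli hlj
            · exact absurd (Finset.mem_erase.2 ⟨hbk, Finset.mem_erase.2 ⟨hbj,
                Finset.mem_erase.2 ⟨hbne, Finset.mem_univ b⟩⟩⟩) hb3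
      refine H'.run C hlt hne (by rw [hNn]; exact C.one_le) (fun h => ?_)
        (fun _ _ => ⟨hNn, hn, by rw [← hr]; exact hex⟩) ?_ (fun _ => by rw [hyy]; exact h2)
        hw1' hgo'
      · rw [hl'] at h; exact absurd h (by simp)
      · have h3 : (n : ℝ) * y0' ≤ 4096 := by exact_mod_cast hy0'
        have hn0 : (0 : ℝ) < n := by exact_mod_cast (by omega : 0 < n)
        have hy := C.one_le
        rw [div_le_iff₀ (by norm_num)]
        by_contra h4
        rw [not_le] at h4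
        have h5 : (n : ℝ) * (x i * 4096) < n * y0' := by gcongr
        nlinarith
  · refine H.run C hlt hne (by rw [hNn]; exact C.one_le) (fun _ => h2) (fun h => ?_) ?_
      (fun h => h.le) hw1 hgo
    · rw [hl] at h; exact absurd h (by simp)
    · refine le_trans ?_ h2.le
      have : (y0 : ℝ) ≤ R.yls := by exact_mod_cast hy0
      gcongr

/-- no neighbourhood of the pair -/
theorem np_none {n yz q0 : ℕ} (hyz : 4097 ≤ yz) {x : Fin n → ℝ} {i j k : Fin n}
    (C : Cfg x i j k) (_ : ¬ PairX x) (h : (yz : ℝ) / 4096 ≤ x i + x j)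
    (_ : x i - x j ≤ (q0 : ℝ) / 4096 * (x i + x j)) : J α x < AA α := by
  exfalso
  have h1 := C.rest_nonneg
  have h2 : (4097 : ℝ) ≤ yz := by exact_mod_cast hyz
  rw [div_le_iff₀ (by norm_num)] at h
  linarith

end LpSec.ML
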