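import Mathlib
import Pool.Agent.Lib.MP_1dbab3_gt.W.M25

/-!
# The window, `n ≥ 4` and `n = 3`: one cell, final form for the tables
-/

open Real MeasureTheory Set Filter Topology

namespace LpSec.ML

variable {α : ℝ}

/-- the check of `2 ^ (u - 1) ≤ ytr / 4096` for `u ≤ (i + 1) / w` -/
def trOk (i w ytr : ℕ) : Bool := Nat.ble (2 ^ (i + 1) * 4096 ^ w) (ytr ^ w * 2 ^ w)

theorem trOk_sound {i w ytr : ℕ} (hw : 0 < w) (h : trOk i w ytr = true) {u : ℝ}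
    (hu : u ≤ ((i : ℝ) + 1) / w) : (2 : ℝ) ^ (u - 1) ≤ (ytr : ℝ) / 4096 := by
  have h1 : 2 ^ (i + 1) * 4096 ^ w ≤ ytr ^ w * 2 ^ w := ble_iff.1 h
  have hw' : (0 : ℝ) < w := by exact_mod_cast hw
  have h2 : ((2 : ℝ) ^ (i + 1)) * 4096 ^ w ≤ (ytr : ℝ) ^ w * 2 ^ w := by exact_mod_cast h1
  have h3 : (2 : ℝ) ^ (u - 1) ≤ 2 ^ (((i : ℝ) + 1) / w - 1) :=
    rpow_le_rpow_of_exponent_le (by norm_num) (by linarith)
  refine h3.trans ?_
  have h4 : ((2 : ℝ) ^ (((i : ℝ) + 1) / w - 1)) ^ w = 2 ^ (i + 1) / 2 ^ w := by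
    rw [← rpow_natCast, ← rpow_mul (by norm_num)]
    have e : (((i : ℝ) + 1) / w - 1) * w = ((i + 1 : ℕ) : ℝ) - (w : ℕ) := by
      push_cast; field_simp
    rw [e, rpow_sub (by norm_num), rpow_natCast, rpow_natCast]
  have h5 : ((2 : ℝ) ^ (((i : ℝ) + 1) / w - 1)) ^ w ≤ ((ytr : ℝ) / 4096) ^ w := by
    rw [h4, div_pow, div_le_div_iff₀ (by positivity) (by positivity)]
    exact h2
  exact (pow_le_pow_iff_left₀ (by positivity) (by positivity) hw.ne').1 h5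

/-- target `AA` or flat value in even dimension -/
theorem Ctx.of_even {c : CellD} {N : NumD} {n : ℕ} {R : RunD} {i w : ℕ} (h : Lobe α)
    (h4 : Conc4 α) (hC : CellOk α c) (hN : NumOk α c N) (hNn : N.n = n) (hn : 4 ≤ n)
    (he : Even n) (hsg : R.sg = true → n ≤ 4) (hq0 : R.q0 ≤ 4096) (hw : 0 < w)
    (htr : trOk i w R.ytr = true) (hu : 1 / α ≤ ((i : ℝ) + 1) / w)
    (np : ∀ {x : Fin n → ℝ} {i j k : Fin n}, Cfg x i j k → ¬ PairX x →
    (R.yz : ℝ) / 4096 ≤ x i + x j → x i - x j ≤ (R.q0 : ℝ) / 4096 * (x i + x j) → J α x < AA α) :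
    Ctx α c N n R 0 :=
  { lobe := h, conc := h4, cell := hC, num := hN, hd := Or.inl hNn, hn0 := by omega
    lb := lb_even h (by omega) he, tA := fun _ => hNn, sg := hsg, q0 := hq0
    tr := trOk_sound hw htr hu, np := np }

theorem Ctx.of_odd {c : CellD} {N : NumD} {n : ℕ} {R : RunD} {i w : ℕ} (h : Lobe α)
    (h4 : Conc4 α) (hC : CellOk α c) (hN : NumOk α c N) (hd : Dim N.n n) (hn : 3 ≤ N.n)
    (htA : R.tA = true → N.n = n)
    (hsg : R.sg = true → n ≤ 4) (hq0 : R.q0 ≤ 4096) (hw : 0 < w)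
    (htr : trOk i w R.ytr = true) (hu : 1 / α ≤ ((i : ℝ) + 1) / w)
    (np : ∀ {x : Fin n → ℝ} {i j k : Fin n}, Cfg x i j k → ¬ PairX x →
    (R.yz : ℝ) / 4096 ≤ x i + x j → x i - x j ≤ (R.q0 : ℝ) / 4096 * (x i + x j) → J α x < AA α) :
    Ctx α c N n R (lbn c etab N.n) :=
  { lobe := h, conc := h4, cell := hC, num := hN, hd := hd, hn0 := hn
    lb := lb_sound h hC hd.le (by omega), tA := htA, sg := hsg, q0 := hq0
    tr := trOk_sound hw htr hu, np := np }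

end LpSec.ML
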