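import Mathlib
import Pool.Agent.Lib.MP_1dbab3_gt.W.M26

/-!
# The window: the theorems for one cell in each dimension
-/

open Real MeasureTheory Set Filter Topology

namespace LpSec.ML

variable {α : ℝ}

/-- the cell `i / w ≤ 1 / α ≤ (i + 1) / w` with its numbers -/
structure CellHyp (α : ℝ) (i w : ℕ) (c : CellD) : Prop where
  lobe : Lobe α
  conc : Conc4 α
  cell : CellOk α c
  hw : 0 < w
  hu : 1 / α ≤ ((i : ℝ) + 1) / w

/-- the facts of the stage LS -/
structure LSHyp (α : ℝ) : Prop where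
  l4 : 14 / 100 ≤ 1 / α → LSat α 4 (34 / 100) (1 / 2)
  l5 : LSat α 5 (27 / 100) (45 / 100)
  l6 : LSat α 6 (1 / 5) (-1)
  l7 : ∀ n, 7 ≤ n → LSat α n (18 / 100) (-1)

/-- the neighbourhood of the pair is done -/
def NP (α : ℝ) (q0 yz : ℕ) : Prop :=
  ∀ {n : ℕ} {x : Fin n → ℝ} {i j k : Fin n}, Cfg x i j k → ¬ PairX x →
    (yz : ℝ) / 4096 ≤ x i + x j → x i - x j ≤ (q0 : ℝ) / 4096 * (x i + x j) → J α x < AA α

theorem NP.none {q0 yz : ℕ} (h : 4097 ≤ yz) : NP α q0 yz :=
  fun C hne h1 h2 => np_none h C hne h1 h2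

theorem CellHyp.np {i w : ℕ} {c : CellD} (H : CellHyp α i w c) {P : PairD} (hP : PairOk α P)
    {q0 s1 s0 yz : ℕ} {l : List ℕ} (hk : pchk c P etab q0 s1 l s0 yz = true) : NP α q0 yz :=
  fun C hne h1 h2 => near_sound H.lobe H.cell hP hk C hne h1 h2

section

variable {i w : ℕ} {c : CellD} {N : NumD} {ytr q0 yz : ℕ}

/-- dimension 3 -/
theorem CellHyp.three (H : CellHyp α i w c) (hN : NumOk α c N) (e : N.n = 3)
    (hnp : NP α q0 yz) (hq : q0 ≤ 4096) (htr : trOk i w ytr = true)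
    (g : fc (lbn c etab 3) (fun lb => goB c N ⟨true, false, 0, 0, false, true, ytr, q0, yz⟩
      etab lb 26 1365 ytr 0 2048 0 4096) = true) : Core α 3 := by
  rw [fc_eq] at g
  have hX := Ctx.of_odd (n := 3) (R := ⟨true, false, 0, 0, false, true, ytr, q0, yz⟩) H.lobe H.conc
    H.cell hN (Or.inl e) (by omega) (fun _ => e) (fun _ => by norm_num) hq H.hw htr H.hu hnp
  rw [e] at hX
  exact hX.core_all e le_rfl rfl rfl (by norm_num) (by norm_num) g

/-- dimension 4, without LS -/
theorem CellHyp.four_all (H : CellHyp α i w c) (hN : NumOk α c N) (e : N.n = 4)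
    (hnp : NP α q0 yz) (hq : q0 ≤ 4096) (htr : trOk i w ytr = true)
    (g : goB c N ⟨true, true, 0, 0, false, false, ytr, q0, yz⟩
      etab 0 26 1024 ytr 0 2048 0 1400 = true) : Core α 4 :=
  (Ctx.of_even (n := 4) (R := ⟨true, true, 0, 0, false, false, ytr, q0, yz⟩) H.lobe H.conc
    H.cell hN e le_rfl (by decide) (fun h => absurd h (by simp)) hq H.hw htr H.hu hnp).core_all e
    (by norm_num) rfl rfl (by norm_num) (by norm_num) g

/-- dimension 4 -/
theorem CellHyp.four (H : CellHyp α i w c) (hL : LSat α 4 (34 / 100) (1 / 2))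
    (hN : NumOk α c N) (e : N.n = 4)
    (hnp : NP α q0 yz) (hq : q0 ≤ 4096) (htr : trOk i w ytr = true)
    (g : goB c N ⟨true, true, 1392, 0, false, false, ytr, q0, yz⟩
      etab 0 26 1392 ytr 0 2048 0 1400 = true)
    (g' : goB c N ⟨true, true, 1392, 50, true, true, ytr, q0, yz⟩
      etab 0 26 1024 1392 0 2048 0 1400 = true) : Core α 4 :=
  (Ctx.of_even (n := 4) (R := ⟨true, true, 1392, 0, false, false, ytr, q0, yz⟩) H.lobe H.conc
    H.cell hN e le_rfl (by decide) (fun h => absurd h (by simp)) hq H.hw htr H.hu hnp).core_low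
    (Ctx.of_even (n := 4) (R := ⟨true, true, 1392, 50, true, true, ytr, q0, yz⟩) H.lobe H.conc
    H.cell hN e le_rfl (by decide) (fun _ => le_rfl) hq H.hw htr H.hu hnp) e
    le_rfl rfl rfl hL (by norm_num) (by norm_num) le_rfl rfl (by norm_num) (by norm_num)
    (by norm_num) (by norm_num) g g'

/-- dimension 5 -/
theorem CellHyp.five (H : CellHyp α i w c) (hL : LSat α 5 (27 / 100) (45 / 100))
    (hN : NumOk α c N) (e : N.n = 5)
    (hnp : NP α q0 yz) (hq : q0 ≤ 4096) (htr : trOk i w ytr = true)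
    (g : fc (lbn c etab 5) (fun lb => goB c N ⟨true, true, 1085, 0, false, false, ytr, q0, yz⟩
      etab lb 26 1085 ytr 0 2048 0 1400) = true)
    (g' : fc (lbn c etab 5) (fun lb => goB c N ⟨true, true, 1085, 45, true, false, ytr, q0, yz⟩
      etab lb 26 819 1085 0 2048 0 1400) = true) : Core α 5 := by
  rw [fc_eq] at g g'
  have hX := Ctx.of_odd (n := 5) (R := ⟨true, true, 1085, 0, false, false, ytr, q0, yz⟩) H.lobe
    H.conc H.cell hN (Or.inl e) (by omega) (fun _ => e) (fun h => absurd h (by simp)) hq H.hw htr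
    H.hu hnp
  have hX' := Ctx.of_odd (n := 5) (R := ⟨true, true, 1085, 45, true, false, ytr, q0, yz⟩) H.lobe
    H.conc H.cell hN (Or.inl e) (by omega) (fun _ => e) (fun h => absurd h (by simp)) hq H.hw htr
    H.hu hnp
  rw [e] at hX hX'
  exact hX.core_low hX' e (by norm_num) rfl rfl hL (by norm_num) (by norm_num) le_rfl rfl
    (by norm_num) (by norm_num) (by norm_num) (by norm_num) g g'

/-- dimension 6 -/
theorem CellHyp.six (H : CellHyp α i w c) (hL : LSat α 6 (1 / 5) (-1))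
    (hN : NumOk α c N) (e : N.n = 6)
    (hnp : NP α q0 yz) (hq : q0 ≤ 4096) (htr : trOk i w ytr = true)
    (g : goB c N ⟨true, true, 819, 0, false, false, ytr, q0, yz⟩
      etab 0 26 819 ytr 0 2048 0 1400 = true) : Core α 6 :=
  (Ctx.of_even (n := 6) (R := ⟨true, true, 819, 0, false, false, ytr, q0, yz⟩) H.lobe H.conc
    H.cell hN e (by norm_num) (by decide) (fun h => absurd h (by simp)) hq H.hw htr H.hu
    hnp).core_ls (by norm_num) rfl le_rfl hL le_rfl (Or.inr e) (by norm_num) (by norm_num) g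

/-- dimension at least 7; `d` says whether the third coordinate is used -/
theorem CellHyp.seven (H : CellHyp α i w c) (hN : NumOk α c N) (e : N.n = 7) {d : Bool}
    {w1 : ℕ} (hw1 : 1366 ≤ w1)
    (hnp : NP α q0 yz) (hq : q0 ≤ 4096) (htr : trOk i w ytr = true)
    (g : fc (lbn c etab 7) (fun lb => goB c N ⟨false, d, 737, 0, false, false, ytr, q0, yz⟩
      etab lb 26 737 ytr 0 2048 0 w1) = true) {n : ℕ} (hn : 7 ≤ n)
    (hL : LSat α n (18 / 100) (-1)) : Core α n := by
  rw [fc_eq] at g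
  have hX := Ctx.of_odd (n := n) (R := ⟨false, d, 737, 0, false, false, ytr, q0, yz⟩) H.lobe
    H.conc H.cell hN (Or.inr ⟨e, hn⟩) (by omega) (fun h => absurd h (by simp))
    (fun h => absurd h (by simp)) hq H.hw htr H.hu hnp
  rw [e] at hX
  exact hX.core_ls (by omega) rfl le_rfl hL le_rfl (Or.inl (by rw [e]; norm_num)) (by norm_num)
    hw1 g

end

theorem ge_four (h4 : Core α 4) (h5 : Core α 5) (h6 : Core α 6) (h7 : ∀ n, 7 ≤ n → Core α n)
    (n : ℕ) (hn : 4 ≤ n) : Core α n := by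
  rcases Nat.lt_or_ge n 7 with h | h
  · interval_cases n
    · exact h4
    · exact h5
    · exact h6
  · exact h7 n h

end LpSec.ML
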