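import Mathlib
import Pool.Agent.Lib.MP_1dbab3_gt.W.CoreThree
import Pool.Agent.Lib.MP_1dbab3_gt.WLobe

/-!
# The ridge: second order remainder, interface (file W/RidDef, W/RidTail)
-/

open Real MeasureTheory Set Filter Topology

namespace LpSec

/-- `Φ(λ s) = Φ(s) + (1-λ) s Phi1(s) + (1-λ)² RR λ s` (`Phi1 = -Φ'`, `Phi2 = Φ''`). -/
noncomputable def RR (α l s : ℝ) : ℝ :=
  s ^ 2 * ∫ t in (0 : ℝ)..1, t * Phi2 α ((l + (1 - l) * t) * s)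

variable {α l s : ℝ}

/-! statements of W/RidTail (helper88)

theorem RR_taylor (hα : 1 < α) (hl0 : 0 ≤ l) (hl1 : l ≤ 1) (hs : 0 ≤ s) :
    Phi α (l * s) = Phi α s + (1 - l) * (s * Phi1 α s) + (1 - l) ^ 2 * RR α l s

theorem RR_abs_le (hα : 1 < α) (hl0 : 0 ≤ l) (hl1 : l ≤ 1) (hs : 0 ≤ s) : |RR α l s| ≤ s / 2

theorem RR_abs_le' (hα : 1 < α) (hl0 : 0 ≤ l) (hl1 : l ≤ 1) (hs : 0 ≤ s) : |RR α l s| ≤ s ^ 2 / 2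

theorem RR_continuousOn (hα : 1 < α) (hl0 : 0 ≤ l) (hl1 : l ≤ 1) : ContinuousOn (RR α l) (Ici 0)

/-- (DD) -/
theorem DD_identity (hα : 1 < α) (hl0 : 0 ≤ l) (hl1 : l < 1) :
    IntegrableOn (fun s => Phi α s ^ 2 * RR α l s) (Ioi 0) ∧
    vv α 3 - (2 + l) * Nf α l =
      (1 - l) ^ 2 * (Nf α 1 / 3 - (2 + l) * ∫ s in Ioi (0 : ℝ), Phi α s ^ 2 * RR α l s)

/-- tail; `(Z, u0)` is one of `(6, 29/100)`, `(5, 38/100)`, `(4, 45/100)`, `(3, 60/100)` -/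
theorem RR_tail6 (hα : 1 < α) (h : Lobe α) (hu : 29 / 100 ≤ 1 / α) (hu' : 1 / α ≤ 81 / 100)
    (hl0 : 0 ≤ l) (hl1 : l < 1) (hs : 6 ≤ s) : (2 + l) * RR α l s ≤ 17 / 4
(RR_tail5, RR_tail4, RR_tail3 the same with 5 ≤ s, 38/100; 4 ≤ s, 45/100; 3 ≤ s, 60/100)
-/

end LpSec
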