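import Mathlib
import Pool.Agent.Lib.MP_1dbab3_gt.W.RidDef
import Pool.Agent.Lib.MP_1dbab3_gt.WFar

/-!
# The ridge: reduction of the three certificates to `∫_0^Z Φ² G < κ A`
-/

open Real MeasureTheory Set Filter Topology intervalIntegral

namespace LpSec.Rid

variable {α : ℝ}

theorem Phi_sq_mul_integrable (hα : 1 < α) {g : ℝ → ℝ} {C : ℝ} (hg : ContinuousOn g (Ici 0))
    (hC : ∀ s, 0 ≤ s → |g s| ≤ C) : IntegrableOn (fun s => Phi α s ^ 2 * g s) (Ioi 0) := by
  have h1 := Phi_sq_integrable hα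
  have hm : AEStronglyMeasurable g (volume.restrict (Ioi (0 : ℝ))) :=
    (hg.mono Ioi_subset_Ici_self).aestronglyMeasurable measurableSet_Ioi
  refine Integrable.mul_bdd (c := C) h1 hm ?_
  refine (ae_restrict_iff' measurableSet_Ioi).2 (Filter.Eventually.of_forall fun s hs => ?_)
  rw [Real.norm_eq_abs]
  exact hC s (le_of_lt hs)

/-- split at `Z` -/
theorem split_at {f : ℝ → ℝ} (hf : IntegrableOn f (Ioi 0)) {Z : ℝ} (hZ : 0 ≤ Z) :
    ∫ s in Ioi (0 : ℝ), f s = (∫ s in (0 : ℝ)..Z, f s) + ∫ s in Ioi Z, f s := by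
  have h2 : IntegrableOn f (Ioi Z) := hf.mono_set (Ioi_subset_Ioi hZ)
  exact (integral_interval_add_Ioi hf h2).symm

theorem W_add_T2 (hα : 1 < α) {Z : ℝ} (hZ : 0 ≤ Z) :
    (∫ s in (0 : ℝ)..Z, Phi α s ^ 2) + T2 α Z = AA α / 2 := by
  have h := split_at (Phi_sq_integrable hα) hZ
  rw [Phi_sq_total hα] at h
  unfold T2
  exact h.symm

theorem Phi_comp_cont (hα : 1 < α) {l : ℝ} (hl : 0 ≤ l) :
    ContinuousOn (fun s => Phi α (l * s)) (Ici 0) := by
  refine (Phi_continuousOn hα).comp (by fun_prop) fun s hs => ?_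
  have : 0 ≤ s := hs
  show 0 ≤ l * s
  positivity

theorem Nf_integrable (hα : 1 < α) {l : ℝ} (hl : 0 ≤ l) :
    IntegrableOn (fun s => Phi α s ^ 2 * Phi α (l * s)) (Ioi 0) :=
  Phi_sq_mul_integrable hα (Phi_comp_cont hα hl) (C := 1) fun s hs =>
    Phi_abs_le_one hα (by positivity)

/-- tail bound for an integrand bounded above -/
theorem tail_le (hα : 1 < α) {g : ℝ → ℝ} {Z σ : ℝ} (hZ : 0 ≤ Z)
    (hf : IntegrableOn (fun s => Phi α s ^ 2 * g s) (Ioi 0)) (h : ∀ s, Z ≤ s → g s ≤ σ) :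
    ∫ s in Ioi Z, Phi α s ^ 2 * g s ≤ σ * T2 α Z := by
  unfold T2
  rw [← MeasureTheory.integral_const_mul]
  refine setIntegral_mono_on (hf.mono_set (Ioi_subset_Ioi hZ))
    ((Phi_sq_integrable_Ioi hα hZ).const_mul _) measurableSet_Ioi fun s hs => ?_
  have h1 := h s (le_of_lt hs)
  have h2 := mul_le_mul_of_nonneg_left h1 (sq_nonneg (Phi α s))
  linarith

/-- **certificate V** -/
theorem red_V (hα : 1 < α) {l σ : ℝ} {n : ℕ} (hl : 0 ≤ l) (hσ : ∀ s, (n : ℝ) ≤ s → Phi α (l * s) ≤ σ)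
    (h : ∫ s in (0 : ℝ)..n, Phi α s ^ 2 * ((2 + l) * Phi α (l * s) + -((2 + l) * σ) + 0 * Phi α s) <
      (1 - (2 + l) * σ / 2) * AA α) : (2 + l) * Nf α l < AA α := by
  have hn : (0 : ℝ) ≤ n := Nat.cast_nonneg n
  have hf := Nf_integrable hα hl
  have h1 := split_at hf hn
  have h2 := tail_le hα hn hf hσ
  have h3 := W_add_T2 hα hn
  have hi1 : IntervalIntegrable (fun s => Phi α s ^ 2 * Phi α (l * s)) volume 0 n := by
    rw [intervalIntegrable_iff_integrableOn_Ioc_of_le hn]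
    exact hf.mono_set Ioc_subset_Ioi_self
  have hi2 : IntervalIntegrable (fun s => Phi α s ^ 2) volume 0 n := by
    rw [intervalIntegrable_iff_integrableOn_Ioc_of_le hn]
    exact (Phi_sq_integrable hα).mono_set Ioc_subset_Ioi_self
  have e : (∫ s in (0 : ℝ)..n, Phi α s ^ 2 * ((2 + l) * Phi α (l * s) + -((2 + l) * σ) +
      0 * Phi α s)) = (2 + l) * (∫ s in (0 : ℝ)..n, Phi α s ^ 2 * Phi α (l * s)) -
        (2 + l) * σ * ∫ s in (0 : ℝ)..n, Phi α s ^ 2 := by
    rw [← intervalIntegral.integral_const_mul, ← intervalIntegral.integral_const_mul,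
      ← intervalIntegral.integral_sub (hi1.const_mul _) (hi2.const_mul _)]
    refine intervalIntegral.integral_congr fun s _ => ?_
    ring
  rw [e] at h
  unfold Nf
  rw [h1]
  have h4 : 0 ≤ 2 + l := by linarith
  have h5 := mul_le_mul_of_nonneg_left h2 h4
  have h6 : T2 α n = AA α / 2 - ∫ s in (0 : ℝ)..n, Phi α s ^ 2 := by linarith
  rw [h6] at h5
  linarith

/-- **certificate F** -/
theorem red_F (hα : 1 < α) {l τ : ℝ} {n : ℕ} (hl : 0 < l)
    (hτ : ∀ s, (n : ℝ) ≤ s → Phi α (l * s) ≤ 1 - l * τ)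
    (h : ∫ s in (0 : ℝ)..n, Phi α s ^ 2 * ((2 + l) * (-((1 - Phi α (l * s)) / l)) + (2 + l) * τ +
      0 * Phi α s) < (((2 + l) * τ - 1) / 2) * AA α) : (2 + l) * Nf α l < AA α := by
  refine red_V hα (σ := 1 - l * τ) hl.le hτ ?_
  have hn : (0 : ℝ) ≤ n := Nat.cast_nonneg n
  have e : (∫ s in (0 : ℝ)..n, Phi α s ^ 2 * ((2 + l) * Phi α (l * s) + -((2 + l) * (1 - l * τ)) +
      0 * Phi α s)) = l * ∫ s in (0 : ℝ)..n, Phi α s ^ 2 * ((2 + l) *
        (-((1 - Phi α (l * s)) / l)) + (2 + l) * τ + 0 * Phi α s) := by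
    rw [← intervalIntegral.integral_const_mul]
    refine intervalIntegral.integral_congr fun s _ => ?_
    field_simp
    ring
  rw [e]
  have h2 := mul_lt_mul_of_pos_left h hl
  refine h2.trans_le (le_of_eq ?_)
  ring

/-- **certificate DD** -/
theorem red_D (hα : 1 < α) {l C : ℝ} {n : ℕ} (hl : 0 ≤ l) (hl1 : l < 1)
    (hD1 : IntegrableOn (fun s => Phi α s ^ 2 * RR α l s) (Ioi 0))
    (hD2 : vv α 3 - (2 + l) * Nf α l =
      (1 - l) ^ 2 * (Nf α 1 / 3 - (2 + l) * ∫ s in Ioi (0 : ℝ), Phi α s ^ 2 * RR α l s))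
    (hR : ∀ s, (n : ℝ) ≤ s → (2 + l) * RR α l s ≤ 17 / 4)
    (hC : 17 / 4 + 0.1324 / 3 ≤ C)
    (h : ∫ s in (0 : ℝ)..n, Phi α s ^ 2 * ((2 + l) * RR α l s + -C + -(1 / 3) * Phi α s) <
      -(C / 2) * AA α) : (2 + l) * Nf α l < vv α 3 := by
  have hn : (0 : ℝ) ≤ n := Nat.cast_nonneg n
  have h2l : 0 < 2 + l := by linarith
  have hf := Nf_integrable hα (l := 1) zero_le_one
  have h1 := split_at hf hn
  have h1' := split_at hD1 hn
  have h3 := W_add_T2 hα hn
  have hT := T2_nonneg α n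
  -- tails
  have t1 : -(0.1324 * T2 α n) ≤ ∫ s in Ioi (n : ℝ), Phi α s ^ 2 * Phi α (1 * s) := by
    unfold T2
    rw [← MeasureTheory.integral_const_mul, ← MeasureTheory.integral_neg]
    refine setIntegral_mono_on ((Phi_sq_integrable_Ioi hα hn).const_mul _).neg
      (hf.mono_set (Ioi_subset_Ioi hn)) measurableSet_Ioi fun s hs => ?_
    have hs0 : 0 ≤ s := hn.trans (le_of_lt hs)
    have g1 := Phi_lower hα hs0
    rw [one_mul]
    have g2 := mul_le_mul_of_nonneg_left g1 (sq_nonneg (Phi α s))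
    linarith
  have t2 : ∫ s in Ioi (n : ℝ), Phi α s ^ 2 * RR α l s ≤ 17 / 4 / (2 + l) * T2 α n := by
    refine tail_le hα hn hD1 fun s hs => ?_
    rw [le_div_iff₀ h2l]
    have := hR s hs
    linarith
  have t2' := mul_le_mul_of_nonneg_left t2 h2l.le
  have e0 : (2 + l) * (17 / 4 / (2 + l) * T2 α n) = 17 / 4 * T2 α n := by
    field_simp
  rw [e0] at t2'
  -- the main part
  have hi1 : IntervalIntegrable (fun s => Phi α s ^ 2 * RR α l s) volume 0 n := by
    rw [intervalIntegrable_iff_integrableOn_Ioc_of_le hn]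
    exact hD1.mono_set Ioc_subset_Ioi_self
  have hi2 : IntervalIntegrable (fun s => Phi α s ^ 2) volume 0 n := by
    rw [intervalIntegrable_iff_integrableOn_Ioc_of_le hn]
    exact (Phi_sq_integrable hα).mono_set Ioc_subset_Ioi_self
  have hi3 : IntervalIntegrable (fun s => Phi α s ^ 2 * Phi α (1 * s)) volume 0 n := by
    rw [intervalIntegrable_iff_integrableOn_Ioc_of_le hn]
    exact hf.mono_set Ioc_subset_Ioi_self
  have e : (∫ s in (0 : ℝ)..n, Phi α s ^ 2 * ((2 + l) * RR α l s + -C + -(1 / 3) * Phi α s)) =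
      (2 + l) * (∫ s in (0 : ℝ)..n, Phi α s ^ 2 * RR α l s) -
        C * (∫ s in (0 : ℝ)..n, Phi α s ^ 2) -
        1 / 3 * ∫ s in (0 : ℝ)..n, Phi α s ^ 2 * Phi α (1 * s) := by
    rw [← intervalIntegral.integral_const_mul, ← intervalIntegral.integral_const_mul,
      ← intervalIntegral.integral_const_mul,
      ← intervalIntegral.integral_sub (hi1.const_mul _) (hi2.const_mul _),
      ← intervalIntegral.integral_sub ((hi1.const_mul _).sub (hi2.const_mul _)) (hi3.const_mul _)]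
    refine intervalIntegral.integral_congr fun s _ => ?_
    simp only [one_mul]
    ring
  rw [e] at h
  have hpos : 0 < Nf α 1 / 3 - (2 + l) * ∫ s in Ioi (0 : ℝ), Phi α s ^ 2 * RR α l s := by
    have e1 : Nf α 1 = ∫ s in Ioi (0 : ℝ), Phi α s ^ 2 * Phi α (1 * s) := rfl
    rw [e1, h1, h1']
    have hCT : (17 / 4 + 0.1324 / 3) * T2 α n ≤ C * T2 α n := mul_le_mul_of_nonneg_right hC hT
    have e2 : C * AA α / 2 = C * (∫ s in (0 : ℝ)..n, Phi α s ^ 2) + C * T2 α n := by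
      rw [← mul_add, h3]; ring
    linarith
  have h1l : 0 < 1 - l := by linarith
  have : 0 < vv α 3 - (2 + l) * Nf α l := by
    rw [hD2]
    positivity
  linarith

/-! ## tails of `Φ` -/

theorem exp_neg_le (m : ℕ) {x y : ℝ} (hx : 0 < x) (h : 1 / y ≤ ∑ i ∈ Finset.range m, x ^ i / i.factorial)
    (hy : 0 < y) : exp (-x) ≤ y := by
  have h1 := Real.sum_le_exp_of_nonneg hx.le m
  rw [exp_neg, inv_le_comm₀ (exp_pos _) hy, ← one_div]
  exact h.trans h1

/-- upper bound of `Φ(λ s)`, `s ≥ 6`, `λ ≥ i / 40`, scale `10^4` -/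
def sgm (i : ℕ) : ℕ :=
  if i < 6 then 5489 else if i < 8 then 4067 else if i < 10 then 3013 else if i < 12 then 2232
  else if i < 14 then 1654 else if i < 16 then 1225 else 910

theorem sgm_exp {i : ℕ} (hi : 4 ≤ i) (hi' : i ≤ 16) : exp (-(6 * ((i : ℝ) / 40))) ≤
    (sgm i : ℝ) / 10000 := by
  have mono : ∀ j : ℕ, j ≤ i → exp (-(6 * ((i : ℝ) / 40))) ≤ exp (-(6 * ((j : ℝ) / 40))) := by
    intro j hj
    have : (j : ℝ) ≤ i := by exact_mod_cast hj
    exact exp_le_exp.2 (by linarith)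
  unfold sgm
  split_ifs with h1 h2 h3 h4 h5 h6
  · refine (mono 4 hi).trans ?_
    refine exp_neg_le 8 (by norm_num) ?_ (by norm_num)
    norm_num [Finset.sum_range_succ, Nat.factorial]
  · refine (mono 6 (by omega)).trans ?_
    refine exp_neg_le 9 (by norm_num) ?_ (by norm_num)
    norm_num [Finset.sum_range_succ, Nat.factorial]
  · refine (mono 8 (by omega)).trans ?_
    refine exp_neg_le 10 (by norm_num) ?_ (by norm_num)
    norm_num [Finset.sum_range_succ, Nat.factorial]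
  · refine (mono 10 (by omega)).trans ?_
    refine exp_neg_le 11 (by norm_num) ?_ (by norm_num)
    norm_num [Finset.sum_range_succ, Nat.factorial]
  · refine (mono 12 (by omega)).trans ?_
    refine exp_neg_le 12 (by norm_num) ?_ (by norm_num)
    norm_num [Finset.sum_range_succ, Nat.factorial]
  · refine (mono 14 (by omega)).trans ?_
    refine exp_neg_le 13 (by norm_num) ?_ (by norm_num)
    norm_num [Finset.sum_range_succ, Nat.factorial]
  · refine (mono 16 (by omega)).trans ?_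
    refine exp_neg_le 14 (by norm_num) ?_ (by norm_num)
    norm_num [Finset.sum_range_succ, Nat.factorial]

/-- `Φ(x) ≤ max(e^{-a}, 0.091)` for `x ≥ a` -/
theorem Phi_ge_le (h : Lobe α) {a x B : ℝ} (ha : 0 ≤ a) (hax : a ≤ x) (hB : exp (-a) ≤ B)
    (hB' : 0.091 ≤ B) : Phi α x ≤ B := by
  have hx0 : 0 ≤ x := ha.trans hax
  rcases le_or_gt x (z1 α) with h1 | h1
  · exact ((h.le_exp hx0 h1).trans (exp_le_exp.2 (by linarith))).trans hB
  · rcases le_or_gt x 6 with h2 | h2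
    · exact (h.neg x h1.le h2).trans (by linarith)
    · exact (h.far x h2.le).trans hB'

theorem sgm_sound (h : Lobe α) {i : ℕ} (hi : 4 ≤ i) {l s : ℝ} (hl : (i : ℝ) / 40 ≤ l)
    (hs : 6 ≤ s) : Phi α (l * s) ≤ (sgm i : ℝ) / 10000 := by
  rcases le_or_gt i 16 with hi' | hi'
  · refine Phi_ge_le h (a := 6 * ((i : ℝ) / 40)) (by positivity) ?_ (sgm_exp hi hi') ?_
    · have : 0 ≤ (i : ℝ) / 40 := by positivity
      nlinarith
    · unfold sgm
      split_ifs <;> norm_num
  · have e : sgm i = sgm 16 := by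
      unfold sgm
      split_ifs <;> omega
    rw [e]
    refine Phi_ge_le h (a := 6 * (((16 : ℕ) : ℝ) / 40)) (by positivity) ?_
      (sgm_exp (by norm_num) le_rfl) (by norm_num [sgm])
    have h16 : ((16 : ℕ) : ℝ) ≤ i := by exact_mod_cast hi'.le
    have : (0.4 : ℝ) ≤ l := by
      refine le_trans ?_ hl
      rw [le_div_iff₀ (by norm_num)]
      push_cast at h16
      linarith
    push_cast
    nlinarith

theorem tau_sound (h : Lobe α) {l s : ℝ} (hl : 0 < l) (hl1 : l ≤ 1 / 10) (hs : 6 ≤ s) :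
    Phi α (l * s) ≤ 1 - l * (9 / 2) := by
  have key : exp (-(6 * l)) ≤ 1 - l * (9 / 2) := by
    have hc := convexOn_exp.2 (Set.mem_univ 0) (Set.mem_univ (-(6 * (1 / 10) : ℝ)))
      (show 0 ≤ 1 - 10 * l by linarith) (show 0 ≤ 10 * l by linarith) (by ring)
    simp only [smul_eq_mul, mul_zero, exp_zero, mul_one, zero_add] at hc
    have e : 10 * l * -(6 * (1 / 10)) = -(6 * l) := by ring
    rw [e] at hc
    refine hc.trans ?_
    have h6 : exp (-(6 * (1 / 10) : ℝ)) ≤ 0.5489 := by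
      refine exp_neg_le 8 (by norm_num) ?_ (by norm_num)
      norm_num [Finset.sum_range_succ, Nat.factorial]
    nlinarith
  refine Phi_ge_le h (a := 6 * l) (by positivity) (by nlinarith) key (by linarith)

end LpSec.Rid
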