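import Mathlib

/-!
# Weights `w_{k+1} = λ w_k + d_k` and their chords
-/

namespace LpSec.Rid

open Finset

/-- `w_0 = c`, `w_{k+1} = λ w_k + d_k` -/
noncomputable def wt (c : ℕ) (d : ℕ → ℕ) (l : ℝ) : ℕ → ℝ
  | 0 => c
  | k + 1 => l * wt c d l k + d k

/-- value at `λ = 1` -/
def wt1 (c : ℕ) (d : ℕ → ℕ) : ℕ → ℕ
  | 0 => c
  | k + 1 => wt1 c d k + d k

/-- Lipschitz constants -/
def wtL (c : ℕ) (d : ℕ → ℕ) : ℕ → ℕ
  | 0 => 0
  | k + 1 => wtL c d k + wt1 c d k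

/-- half of the second derivative -/
def wtM (c : ℕ) (d : ℕ → ℕ) : ℕ → ℕ
  | 0 => 0
  | k + 1 => wtM c d k + wtL c d k

variable {c : ℕ} {d : ℕ → ℕ}

theorem wt_nonneg {l : ℝ} (hl : 0 ≤ l) : ∀ k, 0 ≤ wt c d l k
  | 0 => Nat.cast_nonneg _
  | k + 1 => by
    have := wt_nonneg hl k
    rw [wt]
    positivity

theorem wt_le_one {l : ℝ} (hl : 0 ≤ l) (hl1 : l ≤ 1) : ∀ k, wt c d l k ≤ wt1 c d k
  | 0 => le_refl _
  | k + 1 => by
    have h1 := wt_le_one hl hl1 k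
    have h2 := wt_nonneg (c := c) (d := d) hl k
    rw [wt, wt1]
    push_cast
    nlinarith

theorem wt_lip {a b : ℝ} (ha : 0 ≤ a) (hab : a ≤ b) (hb : b ≤ 1) : ∀ k,
    0 ≤ wt c d b k - wt c d a k ∧ wt c d b k - wt c d a k ≤ (b - a) * wtL c d k
  | 0 => by simp [wt, wtL]
  | k + 1 => by
    obtain ⟨h1, h2⟩ := wt_lip ha hab hb k
    have h3 := wt_nonneg (c := c) (d := d) ha k
    have h4 := wt_le_one (c := c) (d := d) ha (hab.trans hb) k
    have hb0 : 0 ≤ b := ha.trans hab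
    have e : wt c d b (k + 1) - wt c d a (k + 1) =
        b * (wt c d b k - wt c d a k) + (b - a) * wt c d a k := by
      rw [wt, wt]; ring
    rw [e, wtL]
    have hba : 0 ≤ b - a := by linarith
    push_cast
    refine ⟨by positivity, ?_⟩
    have h5 : b * (wt c d b k - wt c d a k) ≤ 1 * ((b - a) * wtL c d k) :=
      mul_le_mul hb h2 h1 zero_le_one
    have h6 : (b - a) * wt c d a k ≤ (b - a) * wt1 c d k := mul_le_mul_of_nonneg_left h4 hba
    linarith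

/-- defect of the chord of the weights -/
theorem wt_chord {a b t : ℝ} (ha : 0 ≤ a) (hab : a ≤ b) (hb : b ≤ 1) (ht : 0 ≤ t) (ht1 : t ≤ 1) :
    ∀ k, 0 ≤ (1 - t) * wt c d a k + t * wt c d b k - wt c d ((1 - t) * a + t * b) k ∧
      (1 - t) * wt c d a k + t * wt c d b k - wt c d ((1 - t) * a + t * b) k ≤
        t * (1 - t) * (b - a) ^ 2 * wtM c d k
  | 0 => by
    have e : (1 - t) * (c : ℝ) + t * c - c = 0 := by ring
    simp only [wt, wtM, Nat.cast_zero, mul_zero, e]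
    exact ⟨le_refl _, le_refl _⟩
  | k + 1 => by
    obtain ⟨h1, h2⟩ := wt_chord ha hab hb ht ht1 k
    obtain ⟨h3, h4⟩ := wt_lip (c := c) (d := d) ha hab hb k
    set x := (1 - t) * a + t * b with hx
    have hb0 : 0 ≤ b := ha.trans hab
    have ht' : 0 ≤ 1 - t := by linarith
    have hx0 : 0 ≤ x := by positivity
    have hx1 : x ≤ 1 := by nlinarith
    set D := (1 - t) * wt c d a k + t * wt c d b k - wt c d x k with hD
    have e : (1 - t) * wt c d a (k + 1) + t * wt c d b (k + 1) - wt c d x (k + 1) =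
        x * D + t * (1 - t) * (b - a) * (wt c d b k - wt c d a k) := by
      rw [wt, wt, wt, hD, hx]; ring
    rw [e, wtM]
    have hba : 0 ≤ b - a := by linarith
    push_cast
    refine ⟨by positivity, ?_⟩
    have h5 : x * D ≤ 1 * (t * (1 - t) * (b - a) ^ 2 * wtM c d k) := mul_le_mul hx1 h2 h1 zero_le_one
    have h6 : t * (1 - t) * (b - a) * (wt c d b k - wt c d a k) ≤
        t * (1 - t) * (b - a) * ((b - a) * wtL c d k) :=
      mul_le_mul_of_nonneg_left h4 (by positivity)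
    nlinarith

/-- constants for `(2 + λ) w_k` -/
def wtG (c : ℕ) (d : ℕ → ℕ) (k : ℕ) : ℕ := 3 * wtM c d k + wtL c d k

theorem wt2_chord {a b t : ℝ} (ha : 0 ≤ a) (hab : a ≤ b) (hb : b ≤ 1) (ht : 0 ≤ t) (ht1 : t ≤ 1)
    (k : ℕ) : 0 ≤ (1 - t) * ((2 + a) * wt c d a k) + t * ((2 + b) * wt c d b k) -
        (2 + ((1 - t) * a + t * b)) * wt c d ((1 - t) * a + t * b) k ∧
      (1 - t) * ((2 + a) * wt c d a k) + t * ((2 + b) * wt c d b k) -
        (2 + ((1 - t) * a + t * b)) * wt c d ((1 - t) * a + t * b) k ≤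
        (b - a) ^ 2 / 4 * wtG c d k := by
  obtain ⟨h1, h2⟩ := wt_chord (c := c) (d := d) ha hab hb ht ht1 k
  obtain ⟨h3, h4⟩ := wt_lip (c := c) (d := d) ha hab hb k
  set x := (1 - t) * a + t * b with hx
  have hb0 : 0 ≤ b := ha.trans hab
  have ht' : 0 ≤ 1 - t := by linarith
  have hx0 : 0 ≤ x := by positivity
  have hx1 : x ≤ 1 := by nlinarith
  set D := (1 - t) * wt c d a k + t * wt c d b k - wt c d x k with hD
  have e : (1 - t) * ((2 + a) * wt c d a k) + t * ((2 + b) * wt c d b k) - (2 + x) * wt c d x k =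
      (2 + x) * D + t * (1 - t) * (b - a) * (wt c d b k - wt c d a k) := by
    rw [hD, hx]; ring
  rw [e]
  have hba : 0 ≤ b - a := by linarith
  refine ⟨by positivity, ?_⟩
  have h5 : (2 + x) * D ≤ 3 * (t * (1 - t) * (b - a) ^ 2 * wtM c d k) :=
    mul_le_mul (by linarith) h2 h1 (by norm_num)
  have h6 : t * (1 - t) * (b - a) * (wt c d b k - wt c d a k) ≤
      t * (1 - t) * (b - a) * ((b - a) * wtL c d k) :=
    mul_le_mul_of_nonneg_left h4 (by positivity)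
  have h7 : t * (1 - t) ≤ 1 / 4 := by nlinarith [sq_nonneg (t - 1 / 2)]
  have hG : ((wtG c d k : ℕ) : ℝ) = 3 * wtM c d k + wtL c d k := by unfold wtG; push_cast; ring
  rw [hG]
  have h8 : 0 ≤ (b - a) ^ 2 * (3 * (wtM c d k : ℝ) + wtL c d k) := by positivity
  have h9 := mul_le_mul_of_nonneg_right h7 h8
  nlinarith

/-! ## node sums -/

/-- value of a list at `k`, scaled -/
noncomputable def lv (t : List ℕ) (k : ℕ) : ℝ := ((t.getD k 0 : ℕ) : ℝ)

/-- state before entry `k`: `r = w_k Q^k`, `q = Q^k`, `P - N = (-1)^k Q^k (sum so far)` -/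
def fld (i Q : ℕ) (d : ℕ → ℕ) : ℕ → ℕ → ℕ → ℕ → ℕ → List ℕ → ℕ × ℕ × ℕ
  | _, _, q, P, N, [] => (P, N, q)
  | k, r, q, P, N, t :: ts =>
    fld i Q d (k + 1) (Nat.add (Nat.mul i r) (Nat.mul (d k) (Nat.mul q Q))) (Nat.mul q Q)
      (Nat.mul Q N) (Nat.mul Q (Nat.add P (Nat.mul r t))) ts

theorem fld_sound {i Q : ℕ} (hQ : 0 < Q) {d : ℕ → ℕ} (l : ℝ) (hl : l = (i : ℝ) / Q) (w : ℕ → ℝ)
    (hw : ∀ k, w (k + 1) = l * w k + d k) :
    ∀ (ts : List ℕ) (k r q P N : ℕ), (r : ℝ) = w k * q → q = Q ^ k →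
    0 < (fld i Q d k r q P N ts).2.2 ∧
    (((fld i Q d k r q P N ts).1 : ℝ) - (fld i Q d k r q P N ts).2.1) =
      (-1) ^ ts.length * ((fld i Q d k r q P N ts).2.2 : ℝ) *
        (((P : ℝ) - N) / q + ∑ j ∈ range ts.length, (-1) ^ j * w (k + j) * lv ts j)
  | [], k, r, q, P, N, _, hq => by
    have hq0 : 0 < q := by rw [hq]; positivity
    have hq' : (q : ℝ) ≠ 0 := by positivity
    simp only [fld, List.length_nil, pow_zero, one_mul, range_zero, sum_empty, add_zero]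
    refine ⟨hq0, ?_⟩
    field_simp
  | t :: ts, k, r, q, P, N, hr, hq => by
    have hq0 : 0 < q := by rw [hq]; positivity
    have hq' : (q : ℝ) ≠ 0 := by positivity
    have hQ' : (Q : ℝ) ≠ 0 := by positivity
    have hr' : ((Nat.add (Nat.mul i r) (Nat.mul (d k) (Nat.mul q Q)) : ℕ) : ℝ) =
        w (k + 1) * ((Nat.mul q Q : ℕ) : ℝ) := by
      show ((i * r + d k * (q * Q) : ℕ) : ℝ) = w (k + 1) * ((q * Q : ℕ) : ℝ)
      push_cast
      rw [hr, hw, hl]
      field_simp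
    have hq1 : Nat.mul q Q = Q ^ (k + 1) := by
      show q * Q = Q ^ (k + 1)
      rw [hq, pow_succ]
    have ih := fld_sound hQ l hl w hw ts (k + 1) _ _ (Nat.mul Q N) (Nat.mul Q (Nat.add P (Nat.mul r t)))
      hr' hq1
    have e : fld i Q d k r q P N (t :: ts) =
      fld i Q d (k + 1) (Nat.add (Nat.mul i r) (Nat.mul (d k) (Nat.mul q Q))) (Nat.mul q Q)
        (Nat.mul Q N) (Nat.mul Q (Nat.add P (Nat.mul r t))) ts := rfl
    rw [e]
    refine ⟨ih.1, ?_⟩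
    rw [ih.2, List.length_cons, sum_range_succ' _ ts.length]
    have e1 : (((Nat.mul Q N : ℕ) : ℝ) - ((Nat.mul Q (Nat.add P (Nat.mul r t)) : ℕ) : ℝ)) /
        ((Nat.mul q Q : ℕ) : ℝ) = -((((P : ℝ) - N) / q) + w k * t) := by
      show (((Q * N : ℕ) : ℝ) - ((Q * (P + r * t) : ℕ) : ℝ)) / ((q * Q : ℕ) : ℝ) = _
      push_cast
      rw [hr]
      field_simp
      ring
    rw [e1]
    have e2 : ∑ j ∈ range ts.length, (-1 : ℝ) ^ (j + 1) * w (k + (j + 1)) * lv (t :: ts) (j + 1) =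
        -∑ j ∈ range ts.length, (-1 : ℝ) ^ j * w (k + 1 + j) * lv ts j := by
      rw [← sum_neg_distrib]
      refine sum_congr rfl fun j _ => ?_
      have e3 : k + (j + 1) = k + 1 + j := by ring
      rw [e3]
      unfold lv
      rw [List.getD_cons_succ]
      ring
    rw [e2]
    have e4 : lv (t :: ts) 0 = t := by simp [lv]
    rw [e4]
    simp only [pow_zero, one_mul, add_zero]
    ring

/-- `(2 + λ)(m ∑ (-1)^k w_k t_k + x1) + x0 ≤ (2 + λ) y1 + y0`, `λ = i / 40` -/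
def ndOk (i c : ℕ) (d : ℕ → ℕ) (t : List ℕ) (m x1 x0 y1 y0 : ℕ) : Bool :=
  match fld i 40 d 0 c 1 0 0 t with
  | (P, N, q) => Nat.ble
      (Nat.add (Nat.mul (Nat.add 80 i) (Nat.add (Nat.mul m P) (Nat.mul x1 q)))
        (Nat.mul x0 (Nat.mul 40 q)))
      (Nat.add (Nat.mul (Nat.add 80 i) (Nat.add (Nat.mul m N) (Nat.mul y1 q)))
        (Nat.mul y0 (Nat.mul 40 q)))

theorem ndOk_sound {i c : ℕ} {d : ℕ → ℕ} {t : List ℕ} (ht : t.length = 16) {m x1 x0 y1 y0 : ℕ}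
    (h : ndOk i c d t m x1 x0 y1 y0 = true) :
    (2 + (i : ℝ) / 40) * (m * (∑ k ∈ range 16, (-1) ^ k * wt c d ((i : ℝ) / 40) k * lv t k) + x1) +
      x0 ≤ (2 + (i : ℝ) / 40) * y1 + y0 := by
  have h1 := fld_sound (i := i) (Q := 40) (by norm_num) (d := d) ((i : ℝ) / 40) (by norm_num)
    (wt c d ((i : ℝ) / 40)) (fun k => rfl) t 0 c 1 0 0 (by simp [wt]) (by simp)
  unfold ndOk at h
  rcases hv : fld i 40 d 0 c 1 0 0 t with ⟨P, N, q⟩
  rw [hv] at h h1
  simp only at h h1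
  obtain ⟨hq, h1⟩ := h1
  rw [ht] at h1
  have h16 : (-1 : ℝ) ^ 16 = 1 := by norm_num
  rw [h16] at h1
  simp only [Nat.cast_zero, sub_self, zero_div, zero_add, one_mul, Nat.cast_one] at h1
  have h2 : (80 + i) * (m * P + x1 * q) + x0 * (40 * q) ≤
      (80 + i) * (m * N + y1 * q) + y0 * (40 * q) := Nat.le_of_ble_eq_true h
  have h3 : ((80 : ℝ) + i) * (m * P + x1 * q) + x0 * (40 * q) ≤
      (80 + i) * (m * N + y1 * q) + y0 * (40 * q) := by exact_mod_cast h2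
  have hq' : (0 : ℝ) < q := by exact_mod_cast hq
  set X := ∑ k ∈ range 16, (-1) ^ k * wt c d ((i : ℝ) / 40) k * lv t k
  have h4 : ((2 + (i : ℝ) / 40) * (m * X + x1) + x0) * (40 * q) =
      (80 + i) * (m * (q * X) + x1 * q) + x0 * (40 * q) := by
    ring
  have h5 : ((2 + (i : ℝ) / 40) * y1 + y0) * (40 * q) = (80 + i) * (y1 * q) + y0 * (40 * q) := by
    ring
  have h6 : ((2 + (i : ℝ) / 40) * (m * X + x1) + x0) * (40 * q) ≤
      ((2 + (i : ℝ) / 40) * y1 + y0) * (40 * q) := by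
    rw [h4, h5, ← h1]
    linarith
  exact le_of_mul_le_mul_right h6 (by positivity)

end LpSec.Rid
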