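import Mathlib
import Pool.Agent.Lib.MP_1dbab3_gt.W.Two

/-!
# Integrals of products of cell polynomials, comparison with the true functions
-/

open Real MeasureTheory Set Filter Topology Finset intervalIntegral

namespace LpSec.Rid

open LpSec.W

/-- comparison of integrals on `[0, n]` -/
theorem int_cmp {f g : ℝ → ℝ} (e : ℕ → ℝ) : ∀ n : ℕ, ContinuousOn f (Icc 0 (n : ℝ)) →
    ContinuousOn g (Icc 0 (n : ℝ)) →
    (∀ i < n, ∀ s, (i : ℝ) ≤ s → s ≤ i + 1 → f s ≤ g s + e i) →
    ∫ s in (0 : ℝ)..n, f s ≤ (∫ s in (0 : ℝ)..n, g s) + ∑ i ∈ range n, e i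
  | 0, _, _, _ => by simp
  | n + 1, hf, hg, h => by
    have h01 : (0 : ℝ) ≤ n := Nat.cast_nonneg n
    have hc : ((n + 1 : ℕ) : ℝ) = n + 1 := by push_cast; ring
    rw [hc] at hf hg ⊢
    have sub1 : Icc (0 : ℝ) n ⊆ Icc 0 ((n : ℝ) + 1) := Icc_subset_Icc_right (by linarith)
    have sub2 : Icc (n : ℝ) (n + 1) ⊆ Icc 0 ((n : ℝ) + 1) := Icc_subset_Icc_left h01
    have ih := int_cmp e n (hf.mono sub1) (hg.mono sub1) fun i hi => h i (by omega)
    have if1 : IntervalIntegrable f volume 0 n :=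
      ContinuousOn.intervalIntegrable_of_Icc h01 (hf.mono sub1)
    have if2 : IntervalIntegrable f volume n (n + 1) :=
      ContinuousOn.intervalIntegrable_of_Icc (by linarith) (hf.mono sub2)
    have ig1 : IntervalIntegrable g volume 0 n :=
      ContinuousOn.intervalIntegrable_of_Icc h01 (hg.mono sub1)
    have ig2 : IntervalIntegrable g volume n (n + 1) :=
      ContinuousOn.intervalIntegrable_of_Icc (by linarith) (hg.mono sub2)
    rw [← integral_add_adjacent_intervals if1 if2, ← integral_add_adjacent_intervals ig1 ig2,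
      sum_range_succ]
    have h2 : ∫ s in (n : ℝ)..(n + 1), f s ≤ (∫ s in (n : ℝ)..(n + 1), g s) + e n := by
      have h3 : ∫ s in (n : ℝ)..(n + 1), f s ≤ ∫ s in (n : ℝ)..(n + 1), (g s + e n) := by
        refine integral_mono_on (by linarith) if2 (ig2.add intervalIntegrable_const) fun s hs => ?_
        exact h n (by omega) s hs.1 hs.2
      refine h3.trans (le_of_eq ?_)
      rw [integral_add ig2 intervalIntegrable_const, intervalIntegral.integral_const]
      simp
    linarith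

/-- the polynomial of a cell -/
noncomputable def PL (pA pB : List ℕ) (th s : ℝ) : ℝ :=
  ((1 - th) * altE pA s + th * altE pB s) / 100000000000000000000

/-- its coefficients -/
noncomputable def pc (pA pB : List ℕ) (th : ℝ) (k : ℕ) : ℝ :=
  ((1 - th) * ((pA.getD k 0 : ℕ) : ℝ) + th * ((pB.getD k 0 : ℕ) : ℝ)) / 100000000000000000000

variable {pA pB : List ℕ} {th : ℝ}

theorem pc_nonneg (h0 : 0 ≤ th) (h1 : th ≤ 1) (k : ℕ) : 0 ≤ pc pA pB th k := by
  have : 0 ≤ 1 - th := by linarith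
  unfold pc
  positivity

theorem PL_eq (hA : pA.length = 16) (hB : pB.length = 16) (s : ℝ) :
    PL pA pB th s = ∑ k ∈ range 16, (-1) ^ k * pc pA pB th k * s ^ k := by
  unfold PL pc
  rw [altE_sum, altE_sum, hA, hB, mul_sum, mul_sum, ← sum_add_distrib, sum_div]
  refine sum_congr rfl fun k _ => ?_
  ring

theorem PL_continuous : Continuous (PL pA pB th) := by
  have h1 := altE_continuous pA
  have h2 := altE_continuous pB
  unfold PL
  fun_prop

/-- weighted polynomial -/
noncomputable def YP (pA pB : List ℕ) (th : ℝ) (w : ℕ → ℝ) (s : ℝ) : ℝ :=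
  ∑ k ∈ range 16, (-1) ^ k * w k * pc pA pB th k * s ^ k

theorem YP_continuous (w : ℕ → ℝ) : Continuous (YP pA pB th w) := by
  unfold YP
  fun_prop

/-- the numbers `T_k = c_k ∫_0^Z s^k P²` -/
noncomputable def TM (pA pB : List ℕ) (th : ℝ) (n k : ℕ) : ℝ :=
  pc pA pB th k * ∫ s in (0 : ℝ)..n, s ^ k * PL pA pB th s ^ 2

theorem int_YP (w : ℕ → ℝ) (n : ℕ) : ∫ s in (0 : ℝ)..n, PL pA pB th s ^ 2 * YP pA pB th w s =
    ∑ k ∈ range 16, (-1) ^ k * w k * TM pA pB th n k := by
  have hc := PL_continuous (pA := pA) (pB := pB) (th := th)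
  have e : ∀ s : ℝ, PL pA pB th s ^ 2 * YP pA pB th w s =
      ∑ k ∈ range 16, ((-1) ^ k * w k * pc pA pB th k) * (s ^ k * PL pA pB th s ^ 2) := by
    intro s
    unfold YP
    rw [mul_sum]
    exact sum_congr rfl fun k _ => by ring
  simp only [e]
  rw [intervalIntegral.integral_finsetSum]
  · refine sum_congr rfl fun k _ => ?_
    rw [intervalIntegral.integral_const_mul]
    unfold TM
    ring
  · intro k _
    exact (by fun_prop : Continuous fun s : ℝ => ((-1) ^ k * w k * pc pA pB th k) *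
      (s ^ k * PL pA pB th s ^ 2)).intervalIntegrable _ _

theorem int_P3 (hA : pA.length = 16) (hB : pB.length = 16) (n : ℕ) :
    ∫ s in (0 : ℝ)..n, PL pA pB th s ^ 2 * PL pA pB th s =
    ∑ k ∈ range 16, (-1) ^ k * TM pA pB th n k := by
  have h := int_YP (pA := pA) (pB := pB) (th := th) (fun _ => 1) n
  simp only [mul_one] at h
  rw [← h]
  congr 1
  funext s
  rw [PL_eq hA hB]
  unfold YP
  simp only [mul_one]

theorem int_P2 (hA0 : pA.getD 0 0 = 100000000000000000000)
    (hB0 : pB.getD 0 0 = 100000000000000000000) (n : ℕ) :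
    ∫ s in (0 : ℝ)..n, PL pA pB th s ^ 2 = TM pA pB th n 0 := by
  unfold TM pc
  rw [hA0, hB0]
  simp only [pow_zero, one_mul]
  push_cast
  have e : ((1 - th) * 100000000000000000000 + th * 100000000000000000000) /
    (100000000000000000000 : ℝ) = 1 := by ring
  rw [e, one_mul]

theorem TM_nonneg (h0 : 0 ≤ th) (h1 : th ≤ 1) (n k : ℕ) : 0 ≤ TM pA pB th n k := by
  unfold TM
  refine mul_nonneg (pc_nonneg h0 h1 k) ?_
  refine intervalIntegral.integral_nonneg (Nat.cast_nonneg n) fun s hs => ?_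
  have := hs.1
  positivity

/-- pointwise estimate -/
theorem pt_bound {F P G GP φ E H T : ℝ} (h1 : |F| ≤ φ) (h2 : |F - P| ≤ E) (h3 : |G| ≤ H)
    (h4 : |G - GP| ≤ T) :
    F ^ 2 * G ≤ P ^ 2 * GP + (E * (2 * φ + E) * (H + T) + φ ^ 2 * T) := by
  have hφ : 0 ≤ φ := (abs_nonneg _).trans h1
  have hE : 0 ≤ E := (abs_nonneg _).trans h2
  have hH : 0 ≤ H := (abs_nonneg _).trans h3
  have hT : 0 ≤ T := (abs_nonneg _).trans h4
  have h5 : |GP| ≤ H + T := by
    have : GP = G - (G - GP) := by ring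
    rw [this]
    exact (abs_sub _ _).trans (add_le_add h3 h4)
  have h6 : |F + P| ≤ 2 * φ + E := by
    have : F + P = 2 * F - (F - P) := by ring
    rw [this]
    refine (abs_sub _ _).trans ?_
    rw [abs_mul, abs_two]
    linarith
  have h7 : |(F - P) * (F + P) * GP| ≤ E * (2 * φ + E) * (H + T) := by
    rw [abs_mul, abs_mul]
    exact mul_le_mul (mul_le_mul h2 h6 (abs_nonneg _) hE) h5 (abs_nonneg _) (by positivity)
  have h8 : |F ^ 2 * (G - GP)| ≤ φ ^ 2 * T := by
    rw [abs_mul, abs_pow]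
    exact mul_le_mul (pow_le_pow_left₀ (abs_nonneg _) h1 2) h4 (abs_nonneg _) (by positivity)
  have e : F ^ 2 * G = P ^ 2 * GP + (F - P) * (F + P) * GP + F ^ 2 * (G - GP) := by ring
  rw [e]
  have := le_abs_self ((F - P) * (F + P) * GP)
  have := le_abs_self (F ^ 2 * (G - GP))
  linarith

/-- **comparison** -/
theorem core_bound {Φ Y : ℝ → ℝ} {n : ℕ} (hΦ : ContinuousOn Φ (Icc 0 (n : ℝ)))
    (hY : ContinuousOn Y (Icc 0 (n : ℝ))) (hA : pA.length = 16) (hB : pB.length = 16)
    (hA0 : pA.getD 0 0 = 100000000000000000000) (hB0 : pB.getD 0 0 = 100000000000000000000)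
    {w : ℕ → ℝ} {μ γ β : ℝ} (φ E H T : ℕ → ℝ)
    (h : ∀ i < n, ∀ s, (i : ℝ) ≤ s → s ≤ i + 1 → |Φ s| ≤ φ i ∧ |Φ s - PL pA pB th s| ≤ E i ∧
      |μ * Y s + γ + β * Φ s| ≤ H i ∧
      |(μ * Y s + γ + β * Φ s) - (μ * YP pA pB th w s + γ + β * PL pA pB th s)| ≤ T i) :
    ∫ s in (0 : ℝ)..n, Φ s ^ 2 * (μ * Y s + γ + β * Φ s) ≤
      μ * (∑ k ∈ range 16, (-1) ^ k * w k * TM pA pB th n k) + γ * TM pA pB th n 0 +
        β * (∑ k ∈ range 16, (-1) ^ k * TM pA pB th n k) +
        ∑ i ∈ range n, (E i * (2 * φ i + E i) * (H i + T i) + φ i ^ 2 * T i) := by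
  have hc := PL_continuous (pA := pA) (pB := pB) (th := th)
  have hyc := YP_continuous (pA := pA) (pB := pB) (th := th) w
  have h1 := int_cmp (f := fun s => Φ s ^ 2 * (μ * Y s + γ + β * Φ s))
    (g := fun s => PL pA pB th s ^ 2 * (μ * YP pA pB th w s + γ + β * PL pA pB th s))
    (fun i => E i * (2 * φ i + E i) * (H i + T i) + φ i ^ 2 * T i) n
    (by fun_prop) (by fun_prop) (by
      intro i hi s hs hs1
      obtain ⟨a1, a2, a3, a4⟩ := h i hi s hs hs1
      exact pt_bound a1 a2 a3 a4)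
  refine h1.trans (add_le_add (le_of_eq ?_) le_rfl)
  have e : ∀ s : ℝ, PL pA pB th s ^ 2 * (μ * YP pA pB th w s + γ + β * PL pA pB th s) =
      μ * (PL pA pB th s ^ 2 * YP pA pB th w s) + γ * PL pA pB th s ^ 2 +
        β * (PL pA pB th s ^ 2 * PL pA pB th s) := by
    intro s; ring
  simp only [e]
  rw [intervalIntegral.integral_add, intervalIntegral.integral_add,
    intervalIntegral.integral_const_mul, intervalIntegral.integral_const_mul,
    intervalIntegral.integral_const_mul, int_YP, int_P2 hA0 hB0, int_P3 hA hB]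
  all_goals exact (by fun_prop : Continuous _).intervalIntegrable _ _

end LpSec.Rid
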