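import Mathlib
import Pool.Agent.Lib.MP_1dbab3_gt.W.RidC

/-!
# Bernstein form in the cell variable, check of the literals
-/

open Real MeasureTheory Set Filter Topology Finset intervalIntegral

namespace LpSec.Rid

open LpSec.W

/-- Bernstein weights of degree 3 -/
noncomputable def bw (th : ℝ) : ℕ → ℝ
  | 0 => (1 - th) ^ 3
  | 1 => 3 * th * (1 - th) ^ 2
  | 2 => 3 * th ^ 2 * (1 - th)
  | 3 => th ^ 3
  | _ => 0

theorem bw_nonneg {th : ℝ} (h0 : 0 ≤ th) (h1 : th ≤ 1) : ∀ c, 0 ≤ bw th c := by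
  have h2 : 0 ≤ 1 - th := by linarith
  intro c
  unfold bw
  split <;> positivity

theorem bw_sum (th : ℝ) : ∑ c ∈ range 4, bw th c = 1 := by
  simp only [sum_range_succ, range_zero, sum_empty, bw]
  ring

theorem bw_affine (th x0 x1 : ℝ) : (1 - th) * x0 + th * x1 =
    (bw th 0 * (3 * x0) + bw th 1 * (2 * x0 + x1) + bw th 2 * (x0 + 2 * x1) +
      bw th 3 * (3 * x1)) / 3 := by
  simp only [bw]
  ring

/-- least common multiple of the first 46 numbers -/
def LL : ℕ := 9419588158802421600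

/-- base of the Kronecker substitution, `2^160` -/
def BB : ℕ := 1461501637330902918203684832716283019655932542976

theorem divs_all : ∀ k < 16, divs LL (k + 1) 31 = true := by decide +kernel

theorem horN_E (L A : ℕ) : ∀ (q : List ℕ) (i : ℕ), (horN L A 1 q i).2.2 = 1
  | [], _ => rfl
  | a :: t, i => by rw [horN_cons, horN_E L A t (i + 1)]

theorem I_eq {p q : List ℕ} (hp : p.length = 16) (hq : q.length = 16)
    (sp : p.sum < 2 ^ 80) (sq : q.sum < 2 ^ 80) (n : ℕ) {k : ℕ} (hk : k < 16) :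
    (LL : ℝ) * ∫ s in (0 : ℝ)..n, s ^ k * (altE p s * altE q s) =
      (n : ℝ) ^ (k + 1) * (((horN LL n 1 (prodK BB [p, q]) (k + 1)).1 : ℝ) -
        ((horN LL n 1 (prodK BB [p, q]) (k + 1)).2.1 : ℝ)) := by
  have hne : ∀ r ∈ [p, q], r ≠ [] := by
    intro r hr
    simp only [List.mem_cons, List.not_mem_nil, or_false] at hr
    intro h0
    rcases hr with h | h
    · rw [← h, h0] at hp; simp at hp
    · rw [← h, h0] at hq; simp at hq
  have hS : sums [p, q] < BB := by
    show p.sum * (q.sum * 1) < BB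
    rw [mul_one]
    have e : BB = 2 ^ 80 * 2 ^ 80 := by norm_num [BB]
    rw [e]
    exact Nat.mul_lt_mul'' sp sq
  have hlen : (convs [p, q]).length = 31 := by
    rw [length_convs _ hne]
    show p.length + (q.length + 1 - 1) - 1 = 31
    omega
  rw [prodK_eq hne hS]
  have hs := horN_sound (L := LL) (A := n) (D := 1) (by norm_num [LL]) (by norm_num)
    (convs [p, q]) (k + 1) (by omega) (by rw [hlen]; exact divs_all k hk)
  have h2 := hs.2
  rw [horN_E] at h2
  simp only [Nat.cast_one, div_one, mul_one] at h2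
  have e1 : (fun s : ℝ => s ^ k * (altE p s * altE q s)) = fun s => s ^ k * altE (convs [p, q]) s := by
    funext s
    rw [altE_convs]
    simp
  rw [e1, integral_altE, zero_pow (Nat.succ_ne_zero k), zero_mul, sub_zero, ← h2]
  ring

/-- `|X - Y - t V| ≤ V` -/
def near (X Y t V : ℕ) : Bool :=
  Bool.and (Nat.ble X (Nat.add Y (Nat.mul (Nat.add t 1) V)))
    (Nat.ble (Nat.add Y (Nat.mul t V)) (Nat.add X V))

theorem near_sound {X Y t V : ℕ} (h : near X Y t V = true) :
    |(X : ℝ) - Y - t * V| ≤ V := by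
  unfold near at h
  rw [Bool.and_eq_true] at h
  have h1 : X ≤ Y + (t + 1) * V := Nat.le_of_ble_eq_true h.1
  have h2 : Y + t * V ≤ X + V := Nat.le_of_ble_eq_true h.2
  have h1' : (X : ℝ) ≤ Y + (t + 1) * V := by exact_mod_cast h1
  have h2' : (Y : ℝ) + t * V ≤ X + V := by exact_mod_cast h2
  rw [abs_le]
  constructor <;> linarith

/-- check of the four literals at the index `k`; `x, y, z` the Horner triples of `AA, AB, BB`,
`w = n^(k+1)`, `V = LL 10^46` -/
def tOne (w V a b : ℕ) (x y z : ℕ × ℕ × ℕ) (t0 t1 t2 t3 : ℕ) : Bool :=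
  Bool.and (near (Nat.mul w (Nat.mul a x.1)) (Nat.mul w (Nat.mul a x.2.1)) t0 V)
  (Bool.and (near (Nat.mul w (Nat.add (Nat.mul b x.1) (Nat.mul 2 (Nat.mul a y.1))))
      (Nat.mul w (Nat.add (Nat.mul b x.2.1) (Nat.mul 2 (Nat.mul a y.2.1)))) t1 (Nat.mul 3 V))
  (Bool.and (near (Nat.mul w (Nat.add (Nat.mul a z.1) (Nat.mul 2 (Nat.mul b y.1))))
      (Nat.mul w (Nat.add (Nat.mul a z.2.1) (Nat.mul 2 (Nat.mul b y.2.1)))) t2 (Nat.mul 3 V))
    (near (Nat.mul w (Nat.mul b z.1)) (Nat.mul w (Nat.mul b z.2.1)) t3 V)))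

theorem lit_aux {L X Y I t c : ℝ} (hL : 0 < L) (h : |X - Y - t * (c * (L * 10 ^ 46))| ≤ c * (L * 10 ^ 46))
    (hI : L * I = X - Y) (hc : 0 < c) : |I / c / 10 ^ 60 - t / 10 ^ 14| ≤ 1 / 10 ^ 14 := by
  have e : X - Y - t * (c * (L * 10 ^ 46)) = (c * (L * 10 ^ 60)) * (I / c / 10 ^ 60 - t / 10 ^ 14) := by
    rw [← hI]
    field_simp
  rw [e, abs_mul, abs_of_pos (by positivity : 0 < c * (L * 10 ^ 60))] at h
  have h2 : 0 < c * (L * 10 ^ 60) := by positivity
  rw [← le_div_iff₀' h2] at h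
  refine h.trans (le_of_eq ?_)
  field_simp

variable {pA pB : List ℕ} {th : ℝ}

/-- the four coefficients of `T_k` -/
noncomputable def Tc (pA pB : List ℕ) (n k : ℕ) : ℕ → ℝ
  | 0 => ((pA.getD k 0 : ℕ) : ℝ) * (∫ s in (0 : ℝ)..n, s ^ k * (altE pA s * altE pA s)) / 10 ^ 60
  | 1 => (((pB.getD k 0 : ℕ) : ℝ) * (∫ s in (0 : ℝ)..n, s ^ k * (altE pA s * altE pA s)) +
      2 * (((pA.getD k 0 : ℕ) : ℝ) * (∫ s in (0 : ℝ)..n, s ^ k * (altE pA s * altE pB s)))) / 3 /
        10 ^ 60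
  | 2 => (((pA.getD k 0 : ℕ) : ℝ) * (∫ s in (0 : ℝ)..n, s ^ k * (altE pB s * altE pB s)) +
      2 * (((pB.getD k 0 : ℕ) : ℝ) * (∫ s in (0 : ℝ)..n, s ^ k * (altE pA s * altE pB s)))) / 3 /
        10 ^ 60
  | 3 => ((pB.getD k 0 : ℕ) : ℝ) * (∫ s in (0 : ℝ)..n, s ^ k * (altE pB s * altE pB s)) / 10 ^ 60
  | _ => 0

theorem TM_bern (n k : ℕ) : TM pA pB th n k = ∑ c ∈ range 4, bw th c * Tc pA pB n k c := by
  have hA := altE_continuous pA
  have hB := altE_continuous pB
  have e : ∫ s in (0 : ℝ)..n, s ^ k * PL pA pB th s ^ 2 =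
      ((1 - th) ^ 2 * (∫ s in (0 : ℝ)..n, s ^ k * (altE pA s * altE pA s)) +
        2 * th * (1 - th) * (∫ s in (0 : ℝ)..n, s ^ k * (altE pA s * altE pB s)) +
        th ^ 2 * (∫ s in (0 : ℝ)..n, s ^ k * (altE pB s * altE pB s))) / 10 ^ 40 := by
    have e1 : ∀ s : ℝ, s ^ k * PL pA pB th s ^ 2 =
        (1 - th) ^ 2 / 10 ^ 40 * (s ^ k * (altE pA s * altE pA s)) +
        2 * th * (1 - th) / 10 ^ 40 * (s ^ k * (altE pA s * altE pB s)) +
        th ^ 2 / 10 ^ 40 * (s ^ k * (altE pB s * altE pB s)) := by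
      intro s
      unfold PL
      ring
    simp only [e1]
    rw [intervalIntegral.integral_add, intervalIntegral.integral_add,
      intervalIntegral.integral_const_mul, intervalIntegral.integral_const_mul,
      intervalIntegral.integral_const_mul]
    · ring
    all_goals exact (by fun_prop : Continuous _).intervalIntegrable _ _
  unfold TM pc
  rw [e]
  simp only [sum_range_succ, range_zero, sum_empty, bw, Tc]
  ring

/-- check of all literals, `AA, AB, BB'` the products -/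
def tAll (n : ℕ) (pA pB AA AB BB' t0 t1 t2 t3 : List ℕ) : Bool :=
  [0, 1, 2, 3, 4, 5, 6, 7, 8, 9, 10, 11, 12, 13, 14, 15].all fun k =>
    tOne (Nat.pow n (k + 1)) (Nat.mul LL 10000000000000000000000000000000000000000000000)
      (pA.getD k 0) (pB.getD k 0) (horN LL n 1 AA (k + 1)) (horN LL n 1 AB (k + 1))
      (horN LL n 1 BB' (k + 1)) (t0.getD k 0) (t1.getD k 0) (t2.getD k 0) (t3.getD k 0)

/-- the check of a cell -/
def litOk (n : ℕ) (pA pB t0 t1 t2 t3 : List ℕ) : Bool :=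
  Bool.and (Bool.and (Nat.beq pA.length 16) (Nat.beq pB.length 16))
  (Bool.and (Bool.and (Nat.blt pA.sum (2 ^ 80)) (Nat.blt pB.sum (2 ^ 80)))
    (tAll n pA pB (prodK BB [pA, pA]) (prodK BB [pA, pB]) (prodK BB [pB, pB]) t0 t1 t2 t3))

/-- the literal lists as a function -/
def tl4 (t0 t1 t2 t3 : List ℕ) : ℕ → List ℕ
  | 0 => t0
  | 1 => t1
  | 2 => t2
  | 3 => t3
  | _ => []

/-- the approximate `T_k`, in units `10^-14` -/
noncomputable def tt (th : ℝ) (t0 t1 t2 t3 : List ℕ) (k : ℕ) : ℝ :=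
  ∑ c ∈ range 4, bw th c * (((tl4 t0 t1 t2 t3 c).getD k 0 : ℕ) : ℝ)

theorem tt_nonneg (h0 : 0 ≤ th) (h1 : th ≤ 1) (t0 t1 t2 t3 : List ℕ) (k : ℕ) :
    0 ≤ tt th t0 t1 t2 t3 k :=
  sum_nonneg fun c _ => mul_nonneg (bw_nonneg h0 h1 c) (Nat.cast_nonneg _)

theorem lit_sound {n : ℕ} {t0 t1 t2 t3 : List ℕ} (h : litOk n pA pB t0 t1 t2 t3 = true)
    (h0 : 0 ≤ th) (h1 : th ≤ 1) {k : ℕ} (hk : k < 16) :
    |TM pA pB th n k * 10 ^ 14 - tt th t0 t1 t2 t3 k| ≤ 1 := by
  unfold litOk at h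
  simp only [Bool.and_eq_true, Nat.blt_eq] at h
  obtain ⟨⟨hA', hB'⟩, ⟨sA, sB⟩, h⟩ := h
  have hA : pA.length = 16 := Nat.eq_of_beq_eq_true hA'
  have hB : pB.length = 16 := Nat.eq_of_beq_eq_true hB'
  unfold tAll at h
  rw [List.all_eq_true] at h
  have hk' := h k (by interval_cases k <;> simp)
  unfold tOne at hk'
  simp only [Bool.and_eq_true] at hk'
  obtain ⟨c0, c1, c2, c3⟩ := hk'
  have iAA := I_eq hA hA sA sA n hk
  have iAB := I_eq hA hB sA sB n hk
  have iBB := I_eq hB hB sB sB n hk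
  have hLL : (0 : ℝ) < (LL : ℝ) := by norm_num [LL]
  set a := pA.getD k 0
  set b := pB.getD k 0
  set x := horN LL n 1 (prodK BB [pA, pA]) (k + 1)
  set y := horN LL n 1 (prodK BB [pA, pB]) (k + 1)
  set z := horN LL n 1 (prodK BB [pB, pB]) (k + 1)
  set IA := ∫ s in (0 : ℝ)..n, s ^ k * (altE pA s * altE pA s) with hIA
  set IB := ∫ s in (0 : ℝ)..n, s ^ k * (altE pA s * altE pB s) with hIB
  set IC := ∫ s in (0 : ℝ)..n, s ^ k * (altE pB s * altE pB s) with hIC
  have key : ∀ c < 4, |Tc pA pB n k c - (((tl4 t0 t1 t2 t3 c).getD k 0 : ℕ) : ℝ) / 10 ^ 14| ≤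
      1 / 10 ^ 14 := by
    intro c hc
    interval_cases c
    · have := near_sound c0
      have e := lit_aux (L := (LL : ℝ)) (X := (n : ℝ) ^ (k + 1) * (a * x.1))
        (Y := (n : ℝ) ^ (k + 1) * (a * x.2.1)) (I := a * IA) (t := (t0.getD k 0 : ℕ)) (c := 1) hLL
        (by
          have e2 := this
          simp only [Nat.mul_eq, Nat.pow_eq, Nat.cast_mul, Nat.cast_pow] at e2
          rw [one_mul]
          convert e2 using 3
          all_goals norm_num)
        (by
          calc (LL : ℝ) * (a * IA) = a * (LL * IA) := by ring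
            _ = _ := by rw [iAA]; ring) one_pos
      rw [div_one] at e
      exact e
    · have := near_sound c1
      have e := lit_aux (L := (LL : ℝ)) (X := (n : ℝ) ^ (k + 1) * (b * x.1 + 2 * (a * y.1)))
        (Y := (n : ℝ) ^ (k + 1) * (b * x.2.1 + 2 * (a * y.2.1))) (I := b * IA + 2 * (a * IB))
        (t := (t1.getD k 0 : ℕ)) (c := 3) hLL
        (by
          have e2 := this
          simp only [Nat.mul_eq, Nat.add_eq, Nat.pow_eq, Nat.cast_mul, Nat.cast_pow, Nat.cast_add,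
            Nat.cast_ofNat] at e2
          convert e2 using 3
          all_goals norm_num)
        (by
          calc (LL : ℝ) * (b * IA + 2 * (a * IB)) = b * (LL * IA) + 2 * a * (LL * IB) := by ring
            _ = _ := by rw [iAA, iAB]; ring) (by norm_num)
      exact e
    · have := near_sound c2
      have e := lit_aux (L := (LL : ℝ)) (X := (n : ℝ) ^ (k + 1) * (a * z.1 + 2 * (b * y.1)))
        (Y := (n : ℝ) ^ (k + 1) * (a * z.2.1 + 2 * (b * y.2.1))) (I := a * IC + 2 * (b * IB))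
        (t := (t2.getD k 0 : ℕ)) (c := 3) hLL
        (by
          have e2 := this
          simp only [Nat.mul_eq, Nat.add_eq, Nat.pow_eq, Nat.cast_mul, Nat.cast_pow, Nat.cast_add,
            Nat.cast_ofNat] at e2
          convert e2 using 3
          all_goals norm_num)
        (by
          calc (LL : ℝ) * (a * IC + 2 * (b * IB)) = a * (LL * IC) + 2 * b * (LL * IB) := by ring
            _ = _ := by rw [iBB, iAB]; ring) (by norm_num)
      exact e
    · have := near_sound c3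
      have e := lit_aux (L := (LL : ℝ)) (X := (n : ℝ) ^ (k + 1) * (b * z.1))
        (Y := (n : ℝ) ^ (k + 1) * (b * z.2.1)) (I := b * IC) (t := (t3.getD k 0 : ℕ)) (c := 1) hLL
        (by
          have e2 := this
          simp only [Nat.mul_eq, Nat.pow_eq, Nat.cast_mul, Nat.cast_pow] at e2
          rw [one_mul]
          convert e2 using 3
          all_goals norm_num)
        (by
          calc (LL : ℝ) * (b * IC) = b * (LL * IC) := by ring
            _ = _ := by rw [iBB]; ring) one_pos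
      rw [div_one] at e
      exact e
  rw [TM_bern, sum_mul]
  unfold tt
  rw [← sum_sub_distrib]
  refine (abs_sum_le_sum_abs _ _).trans ?_
  rw [← bw_sum th]
  refine sum_le_sum fun c hc => ?_
  have hk2 := key c (Finset.mem_range.1 hc)
  have hb := bw_nonneg h0 h1 c
  have e : bw th c * Tc pA pB n k c * 10 ^ 14 - bw th c * (((tl4 t0 t1 t2 t3 c).getD k 0 : ℕ) : ℝ) =
      bw th c * 10 ^ 14 * (Tc pA pB n k c - (((tl4 t0 t1 t2 t3 c).getD k 0 : ℕ) : ℝ) / 10 ^ 14) := by
    field_simp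
  rw [e, abs_mul, abs_of_nonneg (by positivity : 0 ≤ bw th c * 10 ^ 14)]
  calc bw th c * 10 ^ 14 * |Tc pA pB n k c - (((tl4 t0 t1 t2 t3 c).getD k 0 : ℕ) : ℝ) / 10 ^ 14| ≤
      bw th c * 10 ^ 14 * (1 / 10 ^ 14) := mul_le_mul_of_nonneg_left hk2 (by positivity)
    _ = bw th c := by field_simp

end LpSec.Rid
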