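import Mathlib
import Pool.Agent.Lib.MP_1dbab3_gt.W.RidB
import Pool.Agent.Lib.MP_1dbab3_gt.W.RidE

/-!
# Node checks in Bernstein form, segments of the second variable
-/

open Real MeasureTheory Set Filter Topology Finset intervalIntegral

namespace LpSec.Rid

open LpSec.W

/-- parameters of a node check -/
structure Par where
  x1 : ℕ
  x0 : ℕ
  y1 : ℕ
  y0 : ℕ

/-- four sets of parameters as a function -/
def pr4 (p0 p1 p2 p3 : Par) : ℕ → Par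
  | 0 => p0
  | 1 => p1
  | 2 => p2
  | _ => p3

/-- the check at a node, all four Bernstein coefficients -/
def nd4 (i c : ℕ) (d : ℕ → ℕ) (t0 t1 t2 t3 : List ℕ) (p0 p1 p2 p3 : Par) : Bool :=
  Bool.and (ndOk i c d t0 60000 p0.x1 p0.x0 p0.y1 p0.y0)
  (Bool.and (ndOk i c d t1 60000 p1.x1 p1.x0 p1.y1 p1.y0)
  (Bool.and (ndOk i c d t2 60000 p2.x1 p2.x0 p2.y1 p2.y0)
    (ndOk i c d t3 60000 p3.x1 p3.x0 p3.y1 p3.y0)))

/-- all literal lists have length 16 -/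
def len4 (t0 t1 t2 t3 : List ℕ) : Prop :=
  t0.length = 16 ∧ t1.length = 16 ∧ t2.length = 16 ∧ t3.length = 16

/-- Bernstein combination of a parameter -/
noncomputable def bs (th : ℝ) (f : ℕ → ℕ) : ℝ := ∑ c ∈ range 4, bw th c * (f c : ℝ)

variable {th : ℝ} {t0 t1 t2 t3 : List ℕ}

theorem bs_nonneg (h0 : 0 ≤ th) (h1 : th ≤ 1) (f : ℕ → ℕ) : 0 ≤ bs th f :=
  sum_nonneg fun c _ => mul_nonneg (bw_nonneg h0 h1 c) (Nat.cast_nonneg _)

theorem bs_le (h0 : 0 ≤ th) (h1 : th ≤ 1) {f g : ℕ → ℕ} (h : ∀ c < 4, f c ≤ g c) :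
    bs th f ≤ bs th g :=
  sum_le_sum fun c hc => mul_le_mul_of_nonneg_left (by exact_mod_cast h c (Finset.mem_range.1 hc))
    (bw_nonneg h0 h1 c)

theorem nd4_sound (h0 : 0 ≤ th) (h1 : th ≤ 1) (hlen : len4 t0 t1 t2 t3) {i c : ℕ} {d : ℕ → ℕ}
    {p0 p1 p2 p3 : Par} (h : nd4 i c d t0 t1 t2 t3 p0 p1 p2 p3 = true) :
    (2 + (i : ℝ) / 40) * (60000 * (∑ k ∈ range 16, (-1) ^ k * wt c d ((i : ℝ) / 40) k *
      tt th t0 t1 t2 t3 k) + bs th fun c => (pr4 p0 p1 p2 p3 c).x1) +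
      (bs th fun c => (pr4 p0 p1 p2 p3 c).x0) ≤
      (2 + (i : ℝ) / 40) * (bs th fun c => (pr4 p0 p1 p2 p3 c).y1) +
        bs th fun c => (pr4 p0 p1 p2 p3 c).y0 := by
  unfold nd4 at h
  simp only [Bool.and_eq_true] at h
  obtain ⟨g0, g1, g2, g3⟩ := h
  obtain ⟨l0, l1, l2, l3⟩ := hlen
  have k0 := mul_le_mul_of_nonneg_left (ndOk_sound l0 g0) (bw_nonneg h0 h1 0)
  have k1 := mul_le_mul_of_nonneg_left (ndOk_sound l1 g1) (bw_nonneg h0 h1 1)
  have k2 := mul_le_mul_of_nonneg_left (ndOk_sound l2 g2) (bw_nonneg h0 h1 2)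
  have k3 := mul_le_mul_of_nonneg_left (ndOk_sound l3 g3) (bw_nonneg h0 h1 3)
  have e : ∑ k ∈ range 16, (-1) ^ k * wt c d ((i : ℝ) / 40) k * tt th t0 t1 t2 t3 k =
      bw th 0 * (∑ k ∈ range 16, (-1) ^ k * wt c d ((i : ℝ) / 40) k * lv t0 k) +
      bw th 1 * (∑ k ∈ range 16, (-1) ^ k * wt c d ((i : ℝ) / 40) k * lv t1 k) +
      bw th 2 * (∑ k ∈ range 16, (-1) ^ k * wt c d ((i : ℝ) / 40) k * lv t2 k) +
      bw th 3 * (∑ k ∈ range 16, (-1) ^ k * wt c d ((i : ℝ) / 40) k * lv t3 k) := by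
    rw [mul_sum, mul_sum, mul_sum, mul_sum, ← sum_add_distrib, ← sum_add_distrib,
      ← sum_add_distrib]
    refine sum_congr rfl fun k _ => ?_
    have e1 : tt th t0 t1 t2 t3 k = bw th 0 * lv t0 k + bw th 1 * lv t1 k + bw th 2 * lv t2 k +
        bw th 3 * lv t3 k := by
      unfold tt lv
      simp only [sum_range_succ, range_zero, sum_empty, tl4]
      ring
    rw [e1]
    ring
  rw [e]
  clear e
  generalize (∑ k ∈ range 16, (-1) ^ k * wt c d ((i : ℝ) / 40) k * lv t0 k) = S0 at k0 ⊢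
  generalize (∑ k ∈ range 16, (-1) ^ k * wt c d ((i : ℝ) / 40) k * lv t1 k) = S1 at k1 ⊢
  generalize (∑ k ∈ range 16, (-1) ^ k * wt c d ((i : ℝ) / 40) k * lv t2 k) = S2 at k2 ⊢
  generalize (∑ k ∈ range 16, (-1) ^ k * wt c d ((i : ℝ) / 40) k * lv t3 k) = S3 at k3 ⊢
  unfold bs
  simp only [sum_range_succ, range_zero, sum_empty, pr4]
  push_cast at k0 k1 k2 k3 ⊢
  linarith

/-- sum over odd indices -/
def chN (G t : List ℕ) : ℕ :=
  Nat.add (Nat.mul (G.getD 1 0) (t.getD 1 0)) (Nat.add (Nat.mul (G.getD 3 0) (t.getD 3 0))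
  (Nat.add (Nat.mul (G.getD 5 0) (t.getD 5 0)) (Nat.add (Nat.mul (G.getD 7 0) (t.getD 7 0))
  (Nat.add (Nat.mul (G.getD 9 0) (t.getD 9 0)) (Nat.add (Nat.mul (G.getD 11 0) (t.getD 11 0))
  (Nat.add (Nat.mul (G.getD 13 0) (t.getD 13 0)) (Nat.mul (G.getD 15 0) (t.getD 15 0))))))))

theorem chN_bs (G : List ℕ) : bs th (fun c => chN G (tl4 t0 t1 t2 t3 c)) =
    ∑ k ∈ range 16, if k % 2 = 1 then ((G.getD k 0 : ℕ) : ℝ) * tt th t0 t1 t2 t3 k else 0 := by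
  unfold bs tt chN
  simp only [Nat.add_eq, Nat.mul_eq]
  push_cast
  simp only [sum_range_succ, range_zero, sum_empty, tl4]
  norm_num
  ring

/-- **from nodes to the whole interval** -/
theorem chord_seg {c : ℕ} {d : ℕ → ℕ} {T : ℕ → ℝ} (hT : ∀ k, 0 ≤ T k) {a b l : ℝ} (ha0 : 0 ≤ a)
    (hab : a < b) (hb : b ≤ 1) (hal : a ≤ l) (hlb : l ≤ b) {X1 X0 Y1 Y0 δ : ℝ}
    (ha : (2 + a) * (60000 * (∑ k ∈ range 16, (-1) ^ k * wt c d a k * T k) + X1) + (X0 + δ) ≤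
      (2 + a) * Y1 + Y0)
    (hb' : (2 + b) * (60000 * (∑ k ∈ range 16, (-1) ^ k * wt c d b k * T k) + X1) + (X0 + δ) ≤
      (2 + b) * Y1 + Y0)
    (hδ : 60000 * ((b - a) ^ 2 / 4) * (∑ k ∈ range 16, if k % 2 = 1 then (wtG c d k : ℝ) * T k
      else 0) ≤ δ) :
    (2 + l) * (60000 * (∑ k ∈ range 16, (-1) ^ k * wt c d l k * T k) + X1) + X0 ≤
      (2 + l) * Y1 + Y0 := by
  have hba : 0 < b - a := by linarith
  set t := (l - a) / (b - a) with ht
  have ht0 : 0 ≤ t := div_nonneg (by linarith) hba.le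
  have ht1 : t ≤ 1 := (div_le_one hba).2 (by linarith)
  have hl : l = (1 - t) * a + t * b := by
    rw [ht]
    field_simp
    ring
  have h1t : 0 ≤ 1 - t := by linarith
  have key : (2 + l) * (∑ k ∈ range 16, (-1) ^ k * wt c d l k * T k) ≤
      (1 - t) * ((2 + a) * (∑ k ∈ range 16, (-1) ^ k * wt c d a k * T k)) +
      t * ((2 + b) * (∑ k ∈ range 16, (-1) ^ k * wt c d b k * T k)) +
      (b - a) ^ 2 / 4 * (∑ k ∈ range 16, if k % 2 = 1 then (wtG c d k : ℝ) * T k else 0) := by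
    rw [mul_sum, mul_sum, mul_sum, mul_sum, mul_sum, mul_sum, ← sum_add_distrib,
      ← sum_add_distrib]
    refine sum_le_sum fun k _ => ?_
    obtain ⟨g1, g2⟩ := wt2_chord (c := c) (d := d) ha0 hab.le hb ht0 ht1 k
    rw [← hl] at g1 g2
    have hTk := hT k
    rcases Nat.even_or_odd k with hk | hk
    · have hk2 : k % 2 = 0 := Nat.even_iff.1 hk
      rw [hk.neg_one_pow, hk2]
      simp only [one_mul, zero_ne_one, if_false, mul_zero, add_zero]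
      have := mul_nonneg g1 hTk
      linarith
    · have hk2 : k % 2 = 1 := Nat.odd_iff.1 hk
      rw [hk.neg_one_pow, if_pos hk2]
      have := mul_le_mul_of_nonneg_right g2 hTk
      linarith
  have h3 := mul_le_mul_of_nonneg_left ha h1t
  have h4 := mul_le_mul_of_nonneg_left hb' ht0
  have h5 := mul_le_mul_of_nonneg_left key (by norm_num : (0 : ℝ) ≤ 60000)
  have e1 : (2 + l) = (1 - t) * (2 + a) + t * (2 + b) := by rw [hl]; ring
  have e2 : (2 + l) * X1 = (1 - t) * ((2 + a) * X1) + t * ((2 + b) * X1) := by rw [e1]; ring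
  have e3 : (2 + l) * Y1 = (1 - t) * ((2 + a) * Y1) + t * ((2 + b) * Y1) := by rw [e1]; ring
  have e4 : (2 + l) * (60000 * (∑ k ∈ range 16, (-1) ^ k * wt c d l k * T k) + X1) =
      60000 * ((2 + l) * (∑ k ∈ range 16, (-1) ^ k * wt c d l k * T k)) + (2 + l) * X1 := by ring
  rw [e4, e2, e3]
  linarith

/-- add the chord constant -/
def pAdd (st : ℕ) (G t : List ℕ) (p : Par) : Par :=
  ⟨p.x1, Nat.add p.x0 (Nat.mul (Nat.mul 10 (Nat.mul st st)) (chN G t)), p.y1, p.y0⟩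

/-- nodes `i, i + st, …, i + r st` -/
def sgRec (st c : ℕ) (d : ℕ → ℕ) (t0 t1 t2 t3 : List ℕ) (p0 p1 p2 p3 : Par) : ℕ → ℕ → Bool
  | 0, i => nd4 i c d t0 t1 t2 t3 p0 p1 p2 p3
  | r + 1, i => Bool.and (nd4 i c d t0 t1 t2 t3 p0 p1 p2 p3)
      (sgRec st c d t0 t1 t2 t3 p0 p1 p2 p3 r (i + st))

/-- the check of a segment -/
def sgOk (st c : ℕ) (d : ℕ → ℕ) (G : List ℕ) (t0 t1 t2 t3 : List ℕ) (p0 p1 p2 p3 : Par)
    (r i : ℕ) : Bool :=
  Bool.and (Nat.blt 0 st) (sgRec st c d t0 t1 t2 t3 (pAdd st G t0 p0) (pAdd st G t1 p1)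
    (pAdd st G t2 p2) (pAdd st G t3 p3) r i)

theorem sgRec_mem {st c : ℕ} {d : ℕ → ℕ} {p0 p1 p2 p3 : Par} : ∀ (r i : ℕ),
    sgRec st c d t0 t1 t2 t3 p0 p1 p2 p3 r i = true → ∀ j ≤ r,
      nd4 (i + j * st) c d t0 t1 t2 t3 p0 p1 p2 p3 = true
  | 0, i, h, j, hj => by
    have : j = 0 := by omega
    rw [this, zero_mul, add_zero]
    exact h
  | r + 1, i, h, j, hj => by
    have h' : Bool.and (nd4 i c d t0 t1 t2 t3 p0 p1 p2 p3)
      (sgRec st c d t0 t1 t2 t3 p0 p1 p2 p3 r (i + st)) = true := h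
    rw [Bool.and_eq_true] at h'
    cases j with
    | zero => rw [zero_mul, add_zero]; exact h'.1
    | succ j =>
      have := sgRec_mem r (i + st) h'.2 j (by omega)
      have e : i + st + j * st = i + (j + 1) * st := by ring
      rwa [e] at this

theorem find_step {st : ℕ} (hst : 0 < st) (i : ℕ) {l : ℝ} : ∀ r : ℕ, 0 < r → (i : ℝ) / 40 ≤ l →
    l ≤ ((i + r * st : ℕ) : ℝ) / 40 → ∃ j < r, ((i + j * st : ℕ) : ℝ) / 40 ≤ l ∧
      l ≤ ((i + (j + 1) * st : ℕ) : ℝ) / 40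
  | 0, h, _, _ => absurd h (lt_irrefl _)
  | r + 1, _, h1, h2 => by
    rcases le_or_gt l (((i + r * st : ℕ) : ℝ) / 40) with h | h
    · rcases Nat.eq_zero_or_pos r with hr | hr
      · subst hr
        refine ⟨0, by omega, ?_, ?_⟩
        · simpa using h1
        · refine h.trans ?_
          gcongr
      · obtain ⟨j, hj, g1, g2⟩ := find_step hst i r hr h1 h
        exact ⟨j, by omega, g1, g2⟩
    · exact ⟨r, by omega, h.le, h2⟩

theorem sg_sound (h0 : 0 ≤ th) (h1 : th ≤ 1) (hlen : len4 t0 t1 t2 t3) {st c : ℕ} {d : ℕ → ℕ}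
    {G : List ℕ} (hG : ∀ k < 16, k % 2 = 1 → wtG c d k ≤ G.getD k 0) {p0 p1 p2 p3 : Par}
    {r i : ℕ} (h : sgOk st c d G t0 t1 t2 t3 p0 p1 p2 p3 r i = true) (hr : 0 < r)
    (h40 : i + r * st ≤ 40) {l : ℝ} (hl : (i : ℝ) / 40 ≤ l) (hl' : l ≤ ((i + r * st : ℕ) : ℝ) / 40) :
    (2 + l) * (60000 * (∑ k ∈ range 16, (-1) ^ k * wt c d l k *
      tt th t0 t1 t2 t3 k) + bs th fun c => (pr4 p0 p1 p2 p3 c).x1) +
      (bs th fun c => (pr4 p0 p1 p2 p3 c).x0) ≤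
      (2 + l) * (bs th fun c => (pr4 p0 p1 p2 p3 c).y1) +
        bs th fun c => (pr4 p0 p1 p2 p3 c).y0 := by
  unfold sgOk at h
  simp only [Bool.and_eq_true, Nat.blt_eq] at h
  obtain ⟨hst, h⟩ := h
  obtain ⟨j, hj, g1, g2⟩ := find_step hst i r hr hl hl'
  have k1 := nd4_sound h0 h1 hlen (sgRec_mem r i h j (by omega))
  have k2 := nd4_sound h0 h1 hlen (sgRec_mem r i h (j + 1) (by omega))
  have hjr : i + (j + 1) * st ≤ i + r * st := by
    have : (j + 1) * st ≤ r * st := Nat.mul_le_mul_right _ (by omega)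
    omega
  have hb1 : ((i + (j + 1) * st : ℕ) : ℝ) / 40 ≤ 1 := by
    rw [div_le_one (by norm_num)]
    exact_mod_cast hjr.trans h40
  have hst' : (0 : ℝ) < st := by exact_mod_cast hst
  have hdiff : ((i + (j + 1) * st : ℕ) : ℝ) / 40 - ((i + j * st : ℕ) : ℝ) / 40 = (st : ℝ) / 40 := by
    push_cast
    ring
  have ex1 : (bs th fun c => (pr4 (pAdd st G t0 p0) (pAdd st G t1 p1) (pAdd st G t2 p2)
      (pAdd st G t3 p3) c).x1) = bs th fun c => (pr4 p0 p1 p2 p3 c).x1 := by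
    unfold bs
    simp only [sum_range_succ, range_zero, sum_empty, pr4, pAdd]
  have ey1 : (bs th fun c => (pr4 (pAdd st G t0 p0) (pAdd st G t1 p1) (pAdd st G t2 p2)
      (pAdd st G t3 p3) c).y1) = bs th fun c => (pr4 p0 p1 p2 p3 c).y1 := by
    unfold bs
    simp only [sum_range_succ, range_zero, sum_empty, pr4, pAdd]
  have ey0 : (bs th fun c => (pr4 (pAdd st G t0 p0) (pAdd st G t1 p1) (pAdd st G t2 p2)
      (pAdd st G t3 p3) c).y0) = bs th fun c => (pr4 p0 p1 p2 p3 c).y0 := by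
    unfold bs
    simp only [sum_range_succ, range_zero, sum_empty, pr4, pAdd]
  have ex0 : (bs th fun c => (pr4 (pAdd st G t0 p0) (pAdd st G t1 p1) (pAdd st G t2 p2)
      (pAdd st G t3 p3) c).x0) = (bs th fun c => (pr4 p0 p1 p2 p3 c).x0) +
      10 * (st * st) * bs th (fun c => chN G (tl4 t0 t1 t2 t3 c)) := by
    unfold bs
    simp only [sum_range_succ, range_zero, sum_empty, pr4, pAdd, tl4, Nat.add_eq, Nat.mul_eq]
    push_cast
    ring
  rw [ex1, ex0, ey1, ey0] at k1 k2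
  refine chord_seg (tt_nonneg h0 h1 t0 t1 t2 t3) (by positivity) (by
    rw [← sub_pos, hdiff]; positivity) hb1 g1 g2 k1 k2 ?_
  rw [hdiff, chN_bs]
  have hs1 : ∑ k ∈ range 16, (if k % 2 = 1 then (wtG c d k : ℝ) * tt th t0 t1 t2 t3 k else 0) ≤
      ∑ k ∈ range 16, if k % 2 = 1 then ((G.getD k 0 : ℕ) : ℝ) * tt th t0 t1 t2 t3 k else 0 := by
    refine sum_le_sum fun k hk => ?_
    split_ifs with hk2
    · refine mul_le_mul_of_nonneg_right ?_ (tt_nonneg h0 h1 _ _ _ _ k)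
      exact_mod_cast hG k (Finset.mem_range.1 hk) hk2
    · exact le_rfl
  have hs2 : 0 ≤ ∑ k ∈ range 16, if k % 2 = 1 then ((G.getD k 0 : ℕ) : ℝ) *
      tt th t0 t1 t2 t3 k else 0 := by
    refine sum_nonneg fun k _ => ?_
    split_ifs
    · exact mul_nonneg (Nat.cast_nonneg _) (tt_nonneg h0 h1 _ _ _ _ k)
    · exact le_rfl
  have e1 : (60000 : ℝ) * (((st : ℝ) / 40) ^ 2 / 4) = 75 / 8 * (st * st) := by ring
  rw [e1]
  have hss : (0 : ℝ) ≤ (st : ℝ) * st := by positivity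
  calc 75 / 8 * ((st : ℝ) * st) * ∑ k ∈ range 16, (if k % 2 = 1 then (wtG c d k : ℝ) *
        tt th t0 t1 t2 t3 k else 0) ≤ 75 / 8 * ((st : ℝ) * st) *
        ∑ k ∈ range 16, (if k % 2 = 1 then ((G.getD k 0 : ℕ) : ℝ) * tt th t0 t1 t2 t3 k else 0) :=
      mul_le_mul_of_nonneg_left hs1 (by positivity)
    _ ≤ _ := mul_le_mul_of_nonneg_right (by linarith) hs2

end LpSec.Rid
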