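import Mathlib
import Pool.Agent.Lib.MP_1dbab3_gt.WBox
import Pool.Agent.Lib.MP_1dbab3_gt.W.RidDef

/-!
# Power series of `s Phi1(s)` and of the second order remainder
-/

open Real MeasureTheory Set Filter Topology

namespace LpSec.Rid

variable {α : ℝ}

/-- coefficients of `Phi`: `Phi α s = ∑ (-1)^k cf α k s^k` -/
noncomputable def cf (α : ℝ) (k : ℕ) : ℝ := mom α k / ((k.factorial : ℝ) * (k.factorial : ℝ))

theorem cf_nonneg (hα : 1 < α) (k : ℕ) : 0 ≤ cf α k := by
  have := mom_nonneg hα k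
  unfold cf
  positivity

theorem cf_succ_le (hα : 1 < α) (k : ℕ) : cf α (k + 1) * (k + 1) ≤ cf α k := by
  have h4 := mom_succ_le hα k
  have hf : ((k + 1).factorial : ℝ) = ((k : ℝ) + 1) * (k.factorial : ℝ) := by
    rw [Nat.factorial_succ]; push_cast; ring
  have hf0 : (0 : ℝ) < (k.factorial : ℝ) := by exact_mod_cast Nat.factorial_pos _
  have hk : (0 : ℝ) < (k : ℝ) + 1 := by positivity
  unfold cf
  rw [hf]
  have e : mom α (k + 1) / (((k : ℝ) + 1) * (k.factorial : ℝ) * (((k : ℝ) + 1) * (k.factorial : ℝ))) *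
      ((k : ℝ) + 1) = mom α (k + 1) / ((k : ℝ) + 1) / ((k.factorial : ℝ) * (k.factorial : ℝ)) := by
    field_simp
  rw [e]
  refine div_le_div_of_nonneg_right ?_ (by positivity)
  rw [div_le_iff₀ hk]
  linarith

theorem Phi_hasSum' (hα : 1 < α) {s : ℝ} (hs : 0 ≤ s) :
    HasSum (fun k : ℕ => (-1) ^ k * cf α k * s ^ k) (Phi α s) := by
  refine (Phi_hasSum hα hs).2.congr_fun ?_
  intro k
  unfold cf
  ring

theorem Phi1_hasSum_aux (hα : 1 < α) {s : ℝ} (hs : 0 ≤ s) :
    HasSum (fun j : ℕ => (-1) ^ j * mom α (j + 1) * s ^ j /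
      ((j.factorial : ℝ) * ((j + 1).factorial : ℝ))) (Phi1 α s) := by
  have hα0 : 0 < α := by linarith
  set f : ℕ → ℝ → ℝ := fun j ρ => ((-1) ^ j * s ^ j / ((j.factorial : ℝ) * ((j + 1).factorial : ℝ))) *
    (ρ ^ (j + 1) * F α ρ) with hf
  have hfi : ∀ j, Integrable (f j) (volume.restrict (Ioi (0 : ℝ))) := fun j =>
    (mom_integrable hα (j + 1)).const_mul _
  have hnorm : ∀ j, ∫ ρ in Ioi (0 : ℝ), ‖f j ρ‖ =
      mom α (j + 1) * s ^ j / ((j.factorial : ℝ) * ((j + 1).factorial : ℝ)) := by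
    intro j
    have e : ∀ ρ ∈ Ioi (0 : ℝ), ‖f j ρ‖ =
        (s ^ j / ((j.factorial : ℝ) * ((j + 1).factorial : ℝ))) * (ρ ^ (j + 1) * F α ρ) := by
      intro ρ hρ
      have hρ0 : (0 : ℝ) < ρ := hρ
      have h1 := F_pos hα0 ρ
      simp only [hf]
      rw [norm_mul, norm_div, norm_mul, norm_pow, norm_neg, norm_one, one_pow, one_mul,
        Real.norm_of_nonneg (by positivity : 0 ≤ s ^ j),
        Real.norm_of_nonneg (by positivity : (0 : ℝ) ≤ (j.factorial : ℝ) * ((j + 1).factorial : ℝ)),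
        Real.norm_of_nonneg (by positivity : 0 ≤ ρ ^ (j + 1) * F α ρ)]
    rw [setIntegral_congr_fun measurableSet_Ioi e, integral_const_mul]
    unfold mom
    ring
  have hsum : Summable (fun j : ℕ => mom α (j + 1) * s ^ j /
      ((j.factorial : ℝ) * ((j + 1).factorial : ℝ))) := by
    -- compare with the series of `Phi` at `2 s`
    rcases hs.eq_or_lt with h0 | h0
    · refine summable_of_ne_finset_zero (s := {0}) fun j hj => ?_
      have : j ≠ 0 := by simpa using hj
      rw [← h0, zero_pow this]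
      simp
    · have h1 := (summable_nat_add_iff 1).2 (Phi_hasSum hα (s := 2 * s) (by positivity)).1
      refine Summable.of_nonneg_of_le (fun j => ?_) (fun j => ?_) (h1.mul_left (1 / s))
      · have := mom_nonneg hα (j + 1)
        positivity
      · have hm := mom_nonneg hα (j + 1)
        have hf1 : ((j + 1).factorial : ℝ) = ((j : ℝ) + 1) * (j.factorial : ℝ) := by
          rw [Nat.factorial_succ]; push_cast; ring
        have hf0 : (0 : ℝ) < (j.factorial : ℝ) := by exact_mod_cast Nat.factorial_pos _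
        have hj1 : (0 : ℝ) < (j : ℝ) + 1 := by positivity
        have h2 : ((j : ℝ) + 1) ≤ 2 ^ (j + 1) := by
          have := Nat.lt_two_pow_self (n := j + 1)
          have h3 : ((j + 1 : ℕ) : ℝ) ≤ ((2 ^ (j + 1) : ℕ) : ℝ) := by exact_mod_cast this.le
          push_cast at h3
          exact h3
        rw [hf1]
        have e1 : mom α (j + 1) * s ^ j / ((j.factorial : ℝ) * (((j : ℝ) + 1) * (j.factorial : ℝ))) =
            mom α (j + 1) * s ^ j * ((j : ℝ) + 1) /
              (((j : ℝ) + 1) * (j.factorial : ℝ) * (((j : ℝ) + 1) * (j.factorial : ℝ))) := by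
          field_simp
        have e2 : 1 / s * (mom α (j + 1) * (2 * s) ^ (j + 1) /
            (((j : ℝ) + 1) * (j.factorial : ℝ) * (((j : ℝ) + 1) * (j.factorial : ℝ)))) =
            mom α (j + 1) * s ^ j * 2 ^ (j + 1) /
              (((j : ℝ) + 1) * (j.factorial : ℝ) * (((j : ℝ) + 1) * (j.factorial : ℝ))) := by
          rw [mul_pow, pow_succ s]
          field_simp
        rw [e1, e2]
        refine div_le_div_of_nonneg_right ?_ (by positivity)
        exact mul_le_mul_of_nonneg_left h2 (by positivity)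
  have h1 := hasSum_integral_of_summable_integral_norm hfi (by
    simp only [hnorm]
    exact hsum)
  have e1 : (fun j => ∫ ρ in Ioi (0 : ℝ), f j ρ) = fun j : ℕ =>
      (-1) ^ j * mom α (j + 1) * s ^ j / ((j.factorial : ℝ) * ((j + 1).factorial : ℝ)) := by
    funext j
    simp only [hf]
    rw [integral_const_mul]
    unfold mom
    ring
  have e2 : ∫ ρ in Ioi (0 : ℝ), ∑' j, f j ρ = Phi1 α s := by
    unfold Phi1
    refine setIntegral_congr_fun measurableSet_Ioi fun ρ _ => ?_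
    simp only [hf]
    unfold K
    rw [← tsum_mul_left]
    refine tsum_congr fun j => ?_
    rw [neg_pow (s * ρ), mul_pow s ρ]
    ring
  rw [e1, e2] at h1
  exact h1

theorem Phi1_hasSum (hα : 1 < α) {s : ℝ} (hs : 0 ≤ s) :
    HasSum (fun k : ℕ => -((-1) ^ k * (k : ℝ) * cf α k * s ^ k)) (s * Phi1 α s) := by
  have h1 := (Phi1_hasSum_aux hα hs).mul_left s
  refine (hasSum_nat_add_iff' 1).1 ?_
  simp only [Finset.range_one, Finset.sum_singleton, Nat.cast_zero, mul_zero, zero_mul, neg_zero,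
    sub_zero]
  refine h1.congr_fun ?_
  intro j
  have hf1 : ((j + 1).factorial : ℝ) = ((j : ℝ) + 1) * (j.factorial : ℝ) := by
    rw [Nat.factorial_succ]; push_cast; ring
  have hf0 : (j.factorial : ℝ) ≠ 0 := by exact_mod_cast (Nat.factorial_pos j).ne'
  have hj1 : ((j : ℝ) + 1) ≠ 0 := by positivity
  unfold cf
  rw [hf1, pow_succ, pow_succ]
  push_cast
  field_simp

/-- `ρ_0 = 0`, `ρ_{k+1} = λ ρ_k + k` -/
noncomputable def rho (l : ℝ) : ℕ → ℝ
  | 0 => 0
  | k + 1 => l * rho l k + k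

theorem rho_eq (l : ℝ) : ∀ k, (1 - l) ^ 2 * rho l k = l ^ k - 1 + (1 - l) * k
  | 0 => by simp [rho]
  | k + 1 => by
    have := rho_eq l k
    rw [rho, mul_add, ← mul_assoc, mul_comm _ l, mul_assoc, this]
    push_cast
    ring

theorem rho_nonneg {l : ℝ} (hl : 0 ≤ l) : ∀ k, 0 ≤ rho l k
  | 0 => le_refl _
  | k + 1 => by
    have := rho_nonneg hl k
    rw [rho]
    positivity

theorem rho_le {l : ℝ} (hl : 0 ≤ l) (hl1 : l ≤ 1) : ∀ k : ℕ, rho l k ≤ (k : ℝ) * (k - 1) / 2
  | 0 => by simp [rho]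
  | k + 1 => by
    have h1 := rho_le hl hl1 k
    have h2 := rho_nonneg hl k
    rw [rho]
    push_cast
    nlinarith

/-- series of the second order remainder -/
theorem RR_hasSum_of (hα : 1 < α) {l s : ℝ} (hl0 : 0 ≤ l) (hl1 : l < 1) (hs : 0 ≤ s)
    (ht : Phi α (l * s) = Phi α s + (1 - l) * (s * Phi1 α s) + (1 - l) ^ 2 * RR α l s) :
    HasSum (fun k : ℕ => (-1) ^ k * rho l k * cf α k * s ^ k) (RR α l s) := by
  have h1 : (0 : ℝ) < (1 - l) ^ 2 := by
    have : 0 < 1 - l := by linarith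
    positivity
  have a1 := Phi_hasSum' hα (s := l * s) (by positivity)
  have a2 := Phi_hasSum' hα hs
  have a3 := (Phi1_hasSum hα hs).mul_left (1 - l)
  have a4 := ((a1.sub a2).sub a3).mul_left ((1 - l) ^ 2)⁻¹
  have e : ((1 - l) ^ 2)⁻¹ * (Phi α (l * s) - Phi α s - (1 - l) * (s * Phi1 α s)) = RR α l s := by
    rw [ht, inv_mul_eq_iff_eq_mul₀ h1.ne']
    ring
  rw [e] at a4
  refine a4.congr_fun ?_
  intro k
  have h2 := rho_eq l k
  have h3 : rho l k = ((1 - l) ^ 2)⁻¹ * (l ^ k - 1 + (1 - l) * k) := by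
    rw [← h2, inv_mul_cancel_left₀ h1.ne']
  rw [h3, mul_pow]
  ring

/-- geometric domination of the tail of a power series with coefficients `cf` -/
theorem tail_geom (hα : 1 < α) {s : ℝ} (hs : 0 ≤ s) (hs6 : s ≤ 6) {l : ℝ} (hl0 : 0 ≤ l)
    (hl1 : l ≤ 1) : ∀ i : ℕ, rho l (i + 16) * cf α (i + 16) * s ^ (i + 16) ≤
      120 * (cf α 16 * s ^ 16) * (2 / 5) ^ i := by
  have key : ∀ i : ℕ, ((i + 16 : ℕ) : ℝ) * (((i + 16 : ℕ) : ℝ) - 1) / 2 * (cf α (i + 16) *
      s ^ (i + 16)) ≤ 120 * (cf α 16 * s ^ 16) * (2 / 5) ^ i := by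
    intro i
    induction i with
    | zero =>
      have := cf_nonneg hα 16
      norm_num
    | succ i ih =>
      have h1 := cf_succ_le hα (i + 16)
      have h0 := cf_nonneg hα (i + 16)
      have h0' := cf_nonneg hα (i + 16 + 1)
      set k : ℝ := ((i + 16 : ℕ) : ℝ) with hk
      have hk16 : 16 ≤ k := by rw [hk]; push_cast; linarith [(Nat.cast_nonneg i : (0 : ℝ) ≤ i)]
      have e1 : i + 1 + 16 = i + 16 + 1 := by ring
      rw [e1]
      have e2 : ((i + 16 + 1 : ℕ) : ℝ) = k + 1 := by rw [hk]; push_cast; ring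
      rw [e2, pow_succ s, pow_succ (2 / 5 : ℝ)]
      have hc : cf α (i + 16 + 1) ≤ cf α (i + 16) / (k + 1) := by
        rw [le_div_iff₀ (by linarith)]
        exact h1
      have hsp : 0 ≤ s ^ (i + 16) := by positivity
      have step : (k + 1) * (k + 1 - 1) / 2 * (cf α (i + 16 + 1) * (s ^ (i + 16) * s)) ≤
          (k * (k - 1) / 2 * (cf α (i + 16) * s ^ (i + 16))) * (2 / 5) := by
        have h2 : (k + 1) * (k + 1 - 1) / 2 * (cf α (i + 16 + 1) * (s ^ (i + 16) * s)) ≤
            (k + 1) * (k + 1 - 1) / 2 * (cf α (i + 16) / (k + 1) * (s ^ (i + 16) * 6)) := by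
          have hkk : 0 ≤ (k + 1) * (k + 1 - 1) / 2 := by
            have : 0 ≤ (k + 1) * (k + 1 - 1) := by
              apply mul_nonneg <;> linarith
            linarith
          refine mul_le_mul_of_nonneg_left ?_ hkk
          refine mul_le_mul hc ?_ (by positivity) (by positivity)
          exact mul_le_mul_of_nonneg_left hs6 hsp
        refine h2.trans ?_
        have e3 : (k + 1) * (k + 1 - 1) / 2 * (cf α (i + 16) / (k + 1) * (s ^ (i + 16) * 6)) =
            3 * k * (cf α (i + 16) * s ^ (i + 16)) := by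
          field_simp
          ring
        rw [e3]
        have e4 : (k * (k - 1) / 2 * (cf α (i + 16) * s ^ (i + 16))) * (2 / 5) =
            k * (k - 1) / 5 * (cf α (i + 16) * s ^ (i + 16)) := by ring
        rw [e4]
        refine mul_le_mul_of_nonneg_right ?_ (by positivity)
        nlinarith
      refine step.trans ?_
      refine (mul_le_mul_of_nonneg_right ih (by norm_num)).trans (le_of_eq ?_)
      ring
  intro i
  refine le_trans ?_ (key i)
  rw [mul_assoc]
  refine mul_le_mul_of_nonneg_right (rho_le hl0 hl1 _) ?_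
  have := cf_nonneg hα (i + 16)
  positivity

theorem RR_trunc (hα : 1 < α) {l s : ℝ} (hl0 : 0 ≤ l) (hl1 : l < 1) (hs : 0 ≤ s) (hs6 : s ≤ 6)
    (ht : Phi α (l * s) = Phi α s + (1 - l) * (s * Phi1 α s) + (1 - l) ^ 2 * RR α l s) :
    |RR α l s - ∑ k ∈ Finset.range 16, (-1) ^ k * rho l k * cf α k * s ^ k| ≤
      200 * (cf α 16 * s ^ 16) := by
  have h2 := RR_hasSum_of hα hl0 hl1 hs ht
  have h3 := (hasSum_nat_add_iff' 16).2 h2
  have hg := (hasSum_geometric_of_lt_one (r := (2 / 5 : ℝ)) (by norm_num) (by norm_num)).mul_left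
    (120 * (cf α 16 * s ^ 16))
  have h6 : ‖RR α l s - ∑ k ∈ Finset.range 16, (-1) ^ k * rho l k * cf α k * s ^ k‖ ≤
      120 * (cf α 16 * s ^ 16) * (1 - 2 / 5)⁻¹ := by
    rw [← h3.tsum_eq]
    refine tsum_of_norm_bounded hg fun i => ?_
    have h4 := rho_nonneg hl0 (i + 16)
    have h5 := cf_nonneg hα (i + 16)
    rw [norm_mul, norm_mul, norm_mul, norm_pow, norm_neg, norm_one, one_pow, one_mul,
      Real.norm_of_nonneg h4, Real.norm_of_nonneg h5,
      Real.norm_of_nonneg (by positivity : 0 ≤ s ^ (i + 16))]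
    exact tail_geom hα hs hs6 hl0 hl1.le i
  rw [Real.norm_eq_abs] at h6
  refine h6.trans (le_of_eq ?_)
  norm_num
  ring

end LpSec.Rid
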