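import Mathlib
import Pool.Agent.Lib.MP_1dbab3_gt.W.Two
import Pool.Agent.Lib.MP_1dbab3_gt.W.RidS

/-!
# The data of a cell: polynomials, coefficients, errors
-/

open Real MeasureTheory Set Filter Topology

namespace LpSec.Rid

open LpSec.W

/-- what a cell of the two-sided table gives -/
structure PolData (α l : ℝ) (pA pB e : List ℕ) : Prop where
  lenA : pA.length = 16
  lenB : pB.length = 16
  lenE : e.length = 17
  A0 : pA.getD 0 0 = 100000000000000000000
  B0 : pB.getD 0 0 = 100000000000000000000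
  coef : ∀ k, k < 16 → |cf α k - ((1 - l) * ((pA.getD k 0 : ℕ) : ℝ) +
    l * ((pB.getD k 0 : ℕ) : ℝ)) / 100000000000000000000| ≤
      ((e.getD k 0 : ℕ) : ℝ) / 100000000000000000000
  c16 : cf α 16 * 39 ≤ 25 * (((e.getD 16 0 : ℕ) : ℝ) / 100000000000000000000)
  phi : ∀ s, 0 ≤ s → s ≤ 61 / 10 →
    |Phi α s - ((1 - l) * altE pA s + l * altE pB s) / 100000000000000000000| ≤
      posE e s / 100000000000000000000

theorem polData_of {MA MB d : Rw} {pA pB e : List ℕ} (h : polOk MA MB d pA pB e = true)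
    {α l : ℝ} (hα : 1 < α) (hl : 0 ≤ l) (hl1 : l ≤ 1)
    (hm : ∀ k, k < 17 → |mom α k - ((1 - l) * MA.f k + l * MB.f k)| ≤ d.g k) :
    PolData α l pA pB e := by
  have hphi := fun s hs hs6 => two_sound (s := s) h hα hl hl1 hm hs hs6
  unfold polOk at h
  rw [Bool.and_eq_true, Bool.and_eq_true, Bool.and_eq_true, Bool.and_eq_true, Bool.and_eq_true,
    Bool.and_eq_true, Bool.and_eq_true] at h
  obtain ⟨hA, hB, hE, hA0, hB0, hA1, hB1, h⟩ := h
  rw [Bool.and_eq_true] at h
  obtain ⟨h2, h⟩ := h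
  rw [Bool.and_eq_true] at h
  obtain ⟨h3, h⟩ := h
  rw [Bool.and_eq_true] at h
  obtain ⟨h4, h⟩ := h
  rw [Bool.and_eq_true] at h
  obtain ⟨h5, h⟩ := h
  rw [Bool.and_eq_true] at h
  obtain ⟨h6, h⟩ := h
  rw [Bool.and_eq_true] at h
  obtain ⟨h7, h⟩ := h
  rw [Bool.and_eq_true] at h
  obtain ⟨h8, h⟩ := h
  rw [Bool.and_eq_true] at h
  obtain ⟨h9, h⟩ := h
  rw [Bool.and_eq_true] at h
  obtain ⟨h10, h⟩ := h
  rw [Bool.and_eq_true] at h
  obtain ⟨h11, h⟩ := h
  rw [Bool.and_eq_true] at h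
  obtain ⟨h12, h⟩ := h
  rw [Bool.and_eq_true] at h
  obtain ⟨h13, h⟩ := h
  rw [Bool.and_eq_true] at h
  obtain ⟨h14, h⟩ := h
  rw [Bool.and_eq_true] at h
  obtain ⟨h15, h⟩ := h
  rw [Bool.and_eq_true] at h
  simp only [Nat.ble_eq] at h
  have hA' : pA.length = 16 := Nat.eq_of_beq_eq_true hA
  have hB' : pB.length = 16 := Nat.eq_of_beq_eq_true hB
  have hE' : e.length = 17 := Nat.eq_of_beq_eq_true hE
  have hA0' : pA.getD 0 0 = 100000000000000000000 := Nat.eq_of_beq_eq_true hA0
  have hB0' : pB.getD 0 0 = 100000000000000000000 := Nat.eq_of_beq_eq_true hB0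
  have hA1' : pA.getD 1 0 = 100000000000000000000 := Nat.eq_of_beq_eq_true hA1
  have hB1' : pB.getD 1 0 = 100000000000000000000 := Nat.eq_of_beq_eq_true hB1
  have key : ∀ k, k < 16 → |mom α k / ((k.factorial : ℝ) * (k.factorial : ℝ)) -
      ((1 - l) * ((pA.getD k 0 : ℕ) : ℝ) + l * ((pB.getD k 0 : ℕ) : ℝ)) / 100000000000000000000| ≤
      ((e.getD k 0 : ℕ) : ℝ) / 100000000000000000000 := by
    intro k hk
    have hmk := hm k (by omega)
    interval_cases k
    · rw [mom_zero hα, hA0', hB0']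
      have e1 : (1 : ℝ) / (((0 : ℕ).factorial : ℝ) * ((0 : ℕ).factorial : ℝ)) -
          ((1 - l) * ((100000000000000000000 : ℕ) : ℝ) + l * ((100000000000000000000 : ℕ) : ℝ)) /
            100000000000000000000 = 0 := by
        norm_num
        ring
      rw [e1, abs_zero]
      positivity
    · rw [mom_one hα, hA1', hB1']
      have e1 : (1 : ℝ) / (((1 : ℕ).factorial : ℝ) * ((1 : ℕ).factorial : ℝ)) -
          ((1 - l) * ((100000000000000000000 : ℕ) : ℝ) + l * ((100000000000000000000 : ℕ) : ℝ)) /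
            100000000000000000000 = 0 := by
        norm_num
        ring
      rw [e1, abs_zero]
      positivity
    · have := coef_aux (by norm_num) h2 hl hl1 hmk
      have e1 : ((Nat.factorial 2 : ℕ) : ℝ) * ((Nat.factorial 2 : ℕ) : ℝ) = ((4 : ℕ) : ℝ) := by
        norm_num [Nat.factorial]
      rw [e1]
      exact this
    · have := coef_aux (by norm_num) h3 hl hl1 hmk
      have e1 : ((Nat.factorial 3 : ℕ) : ℝ) * ((Nat.factorial 3 : ℕ) : ℝ) = ((36 : ℕ) : ℝ) := by
        norm_num [Nat.factorial]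
      rw [e1]
      exact this
    · have := coef_aux (by norm_num) h4 hl hl1 hmk
      have e1 : ((Nat.factorial 4 : ℕ) : ℝ) * ((Nat.factorial 4 : ℕ) : ℝ) = ((576 : ℕ) : ℝ) := by
        norm_num [Nat.factorial]
      rw [e1]
      exact this
    · have := coef_aux (by norm_num) h5 hl hl1 hmk
      have e1 : ((Nat.factorial 5 : ℕ) : ℝ) * ((Nat.factorial 5 : ℕ) : ℝ) = ((14400 : ℕ) : ℝ) := by
        norm_num [Nat.factorial]
      rw [e1]
      exact this
    · have := coef_aux (by norm_num) h6 hl hl1 hmk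
      have e1 : ((Nat.factorial 6 : ℕ) : ℝ) * ((Nat.factorial 6 : ℕ) : ℝ) = ((518400 : ℕ) : ℝ) := by
        norm_num [Nat.factorial]
      rw [e1]
      exact this
    · have := coef_aux (by norm_num) h7 hl hl1 hmk
      have e1 : ((Nat.factorial 7 : ℕ) : ℝ) * ((Nat.factorial 7 : ℕ) : ℝ) = ((25401600 : ℕ) : ℝ) := by
        norm_num [Nat.factorial]
      rw [e1]
      exact this
    · have := coef_aux (by norm_num) h8 hl hl1 hmk
      have e1 : ((Nat.factorial 8 : ℕ) : ℝ) * ((Nat.factorial 8 : ℕ) : ℝ) = ((1625702400 : ℕ) : ℝ) := by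
        norm_num [Nat.factorial]
      rw [e1]
      exact this
    · have := coef_aux (by norm_num) h9 hl hl1 hmk
      have e1 : ((Nat.factorial 9 : ℕ) : ℝ) * ((Nat.factorial 9 : ℕ) : ℝ) = ((131681894400 : ℕ) : ℝ) := by
        norm_num [Nat.factorial]
      rw [e1]
      exact this
    · have := coef_aux (by norm_num) h10 hl hl1 hmk
      have e1 : ((Nat.factorial 10 : ℕ) : ℝ) * ((Nat.factorial 10 : ℕ) : ℝ) = ((13168189440000 : ℕ) : ℝ) := by
        norm_num [Nat.factorial]
      rw [e1]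
      exact this
    · have := coef_aux (by norm_num) h11 hl hl1 hmk
      have e1 : ((Nat.factorial 11 : ℕ) : ℝ) * ((Nat.factorial 11 : ℕ) : ℝ) = ((1593350922240000 : ℕ) : ℝ) := by
        norm_num [Nat.factorial]
      rw [e1]
      exact this
    · have := coef_aux (by norm_num) h12 hl hl1 hmk
      have e1 : ((Nat.factorial 12 : ℕ) : ℝ) * ((Nat.factorial 12 : ℕ) : ℝ) = ((229442532802560000 : ℕ) : ℝ) := by
        norm_num [Nat.factorial]
      rw [e1]
      exact this
    · have := coef_aux (by norm_num) h13 hl hl1 hmk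
      have e1 : ((Nat.factorial 13 : ℕ) : ℝ) * ((Nat.factorial 13 : ℕ) : ℝ) = ((38775788043632640000 : ℕ) : ℝ) := by
        norm_num [Nat.factorial]
      rw [e1]
      exact this
    · have := coef_aux (by norm_num) h14 hl hl1 hmk
      have e1 : ((Nat.factorial 14 : ℕ) : ℝ) * ((Nat.factorial 14 : ℕ) : ℝ) = ((7600054456551997440000 : ℕ) : ℝ) := by
        norm_num [Nat.factorial]
      rw [e1]
      exact this
    · have := coef_aux (by norm_num) h15 hl hl1 hmk
      have e1 : ((Nat.factorial 15 : ℕ) : ℝ) * ((Nat.factorial 15 : ℕ) : ℝ) = ((1710012252724199424000000 : ℕ) : ℝ) := by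
        norm_num [Nat.factorial]
      rw [e1]
      exact this
  refine ⟨hA', hB', hE', hA0', hB0', key, ?_, hphi⟩
  have hm16 := hm 16 (by norm_num)
  have k1 := (Nat.cast_le (α := ℝ)).2 h.1
  have k2 := (Nat.cast_le (α := ℝ)).2 h.2
  push_cast at k1 k2
  have h1l : 0 ≤ 1 - l := by linarith
  have a1 := mul_le_mul_of_nonneg_left k1 h1l
  have a3 := mul_le_mul_of_nonneg_left k2 hl
  have b2 := (abs_le.1 hm16).2
  simp only [Rw.f, Rw.g] at b2
  have e1 : ((Nat.factorial 16 : ℕ) : ℝ) * ((Nat.factorial 16 : ℕ) : ℝ) = 437763136697395052544000000 := by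
    norm_num [Nat.factorial]
  unfold cf
  rw [e1]
  have b3 : mom α 16 / 437763136697395052544000000 / (25 / 39) ≤ ((e.getD 16 0 : ℕ) : ℝ) / 100000000000000000000 := by
    rw [div_div, div_le_div_iff₀ (by norm_num) (by norm_num)]
    linarith
  linarith

end LpSec.Rid
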