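import Mathlib
import Pool.Agent.Lib.MP_1dbab3_gt.W.RidA
import Pool.Agent.Lib.MP_1dbab3_gt.W.RidF
import Pool.Agent.Lib.MP_1dbab3_gt.W.RidP

/-!
# The three certificates on a cell
-/

open Real MeasureTheory Set Filter Topology Finset intervalIntegral

namespace LpSec.Rid

open LpSec.W

/-! ## weights -/

def dF : ℕ → ℕ
  | 0 => 1
  | _ + 1 => 0

theorem wt_V (l : ℝ) : ∀ k, wt 1 (fun _ => 0) l k = l ^ k
  | 0 => by simp [wt]
  | k + 1 => by rw [wt, wt_V l k]; simp; ring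

theorem wt_F (l : ℝ) : ∀ k, wt 0 dF l (k + 1) = l ^ k
  | 0 => by simp [wt, dF]
  | k + 1 => by
    rw [wt, wt_F l k]
    simp only [dF]
    push_cast
    ring

theorem wt_D (l : ℝ) : ∀ k, wt 0 (fun k => k) l k = rho l k
  | 0 => by simp [wt, rho]
  | k + 1 => by rw [wt, wt_D l k, rho]

def GV : List ℕ := [0, 1, 0, 12, 0, 35, 0, 70, 0, 117, 0, 176, 0, 247, 0, 330]
def GF : List ℕ := [0, 0, 0, 5, 0, 22, 0, 51, 0, 92, 0, 145, 0, 210, 0, 287]
def GD : List ℕ := [0, 0, 0, 1, 0, 25, 0, 140, 0, 462, 0, 1155, 0, 2431, 0, 4550]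

theorem GV_ok : ∀ k < 16, k % 2 = 1 → wtG 1 (fun _ => 0) k ≤ GV.getD k 0 := by decide +kernel
theorem GF_ok : ∀ k < 16, k % 2 = 1 → wtG 0 dF k ≤ GF.getD k 0 := by decide +kernel
theorem GD_ok : ∀ k < 16, k % 2 = 1 → wtG 0 (fun k => k) k ≤ GD.getD k 0 := by decide +kernel

/-! ## bounds of `Φ` by unit intervals -/

/-- scale `10^20` -/
def phN : ℕ → ℕ
  | 0 => 100000000000000000000
  | 1 => 36788000000000000000
  | 2 => 13534000000000000000
  | _ => 13240000000000000000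

variable {α : ℝ}

theorem phN_sound (h : Lobe α) {i : ℕ} (hi : i < 6) {s : ℝ} (hs : (i : ℝ) ≤ s) (hs1 : s ≤ i + 1) :
    |Phi α s| ≤ (phN i : ℝ) / 10 ^ 20 := by
  have hα := h.one_lt
  have hs0 : 0 ≤ s := (Nat.cast_nonneg i).trans hs
  have hlow := Phi_lower hα hs0
  have hi6 : ((i : ℝ) + 1) ≤ 6 := by
    have : ((i + 1 : ℕ) : ℝ) ≤ 6 := by exact_mod_cast (by omega : i + 1 ≤ 6)
    push_cast at this
    exact this
  -- upper bound by `e^{-i}` or `0`
  have hup : Phi α s ≤ exp (-(i : ℝ)) := by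
    rcases le_or_gt s (z1 α) with h1 | h1
    · exact (h.le_exp hs0 h1).trans (exp_le_exp.2 (by linarith))
    · exact (h.neg s h1.le (hs1.trans hi6)).trans (exp_pos _).le
  have e1 : exp (-(1 : ℝ)) ≤ 0.36788 := by
    refine exp_neg_le 9 (by norm_num) ?_ (by norm_num)
    norm_num [Finset.sum_range_succ, Nat.factorial]
  have e2 : exp (-(2 : ℝ)) ≤ 0.13534 := by
    refine exp_neg_le 12 (by norm_num) ?_ (by norm_num)
    norm_num [Finset.sum_range_succ, Nat.factorial]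
  have e3 : exp (-(3 : ℝ)) ≤ 0.1324 := by
    refine exp_neg_le 12 (by norm_num) ?_ (by norm_num)
    norm_num [Finset.sum_range_succ, Nat.factorial]
  have e3' : 3 ≤ i → exp (-(i : ℝ)) ≤ 0.1324 := by
    intro h3
    refine le_trans (exp_le_exp.2 ?_) e3
    have : (3 : ℝ) ≤ i := by exact_mod_cast h3
    linarith
  rw [abs_le]
  rcases lt_or_ge i 3 with h3 | h3
  · interval_cases i
    · simp only [phN]
      norm_num at hup ⊢
      constructor <;> linarith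
    · simp only [phN]
      norm_num at hup e1 ⊢
      constructor <;> linarith
    · simp only [phN]
      norm_num at hup e2 ⊢
      constructor <;> linarith
  · have hp : phN i = 13240000000000000000 := by
      obtain ⟨j, rfl⟩ : ∃ j, i = j + 3 := ⟨i - 3, by omega⟩
      rfl
    rw [hp]
    have := e3' h3
    norm_num at this hup hlow ⊢
    constructor <;> linarith

/-! ## errors -/

/-- value of a polynomial with nonnegative coefficients -/
def posN : List ℕ → ℕ → ℕ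
  | [], _ => 0
  | a :: t, x => Nat.add a (Nat.mul x (posN t x))

theorem posN_eq : ∀ (p : List ℕ) (x : ℕ), ((posN p x : ℕ) : ℝ) = posE p x
  | [], x => by simp [posN, posE]
  | a :: t, x => by
    rw [posN, posE, ← posN_eq t x]
    show ((a + x * posN t x : ℕ) : ℝ) = _
    push_cast
    ring

/-- weighted error -/
def wmul : List ℕ → List ℕ → List ℕ
  | a :: p, b :: q => Nat.mul a b :: wmul p q
  | _, _ => []

def wD : List ℕ := [0, 0, 1, 3, 6, 10, 15, 21, 28, 36, 45, 55, 66, 78, 91, 105, 130]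

/-- `∑ (E (2 φ + E) (H + T) + φ² T)` -/
def erS (φ E H T : ℕ → ℕ) : ℕ → ℕ
  | 0 => 0
  | n + 1 => Nat.add (erS φ E H T n) (Nat.add (Nat.mul (Nat.mul (E n) (Nat.add (Nat.mul 2 (φ n))
      (E n))) (Nat.add (H n) (T n))) (Nat.mul (Nat.mul (φ n) (φ n)) (T n)))

theorem erS_eq (φ E H T : ℕ → ℕ) : ∀ n : ℕ, ∑ i ∈ range n,
    (((E i : ℝ) / 10 ^ 20) * (2 * ((φ i : ℝ) / 10 ^ 20) + (E i : ℝ) / 10 ^ 20) *
      ((H i : ℝ) / 10 ^ 20 + (T i : ℝ) / 10 ^ 20) + ((φ i : ℝ) / 10 ^ 20) ^ 2 *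
        ((T i : ℝ) / 10 ^ 20)) = (erS φ E H T n : ℝ) / 10 ^ 60
  | 0 => by simp [erS]
  | n + 1 => by
    rw [sum_range_succ, erS_eq φ E H T n, erS]
    simp only [Nat.add_eq, Nat.mul_eq]
    push_cast
    ring

def ENf (e : List ℕ) (i : ℕ) : ℕ := posN e (i + 1)
def HVf (_ : ℕ) : ℕ := 465000000000000000000
def HFf (_ : ℕ) : ℕ := 945000000000000000000
def HDf (i : ℕ) : ℕ := Nat.mul (150 * (i + 1) + 463) 1000000000000000000
def TVf (e : List ℕ) (i : ℕ) : ℕ := Nat.mul 3 (posN e (i + 1))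
def TDf (e : List ℕ) (i : ℕ) : ℕ := Nat.mul 4 (posN (wmul wD e) (i + 1))

/-- the check of an error constant (scale `10^14`) -/
def erOk (E H T : ℕ → ℕ) (n err : ℕ) : Bool :=
  Nat.ble (erS phN E H T n) (Nat.mul err 10000000000000000000000000000000000000000000000)

theorem erOk_sound {E H T : ℕ → ℕ} {n err : ℕ} (h : erOk E H T n err = true) :
    ∑ i ∈ range n, (((E i : ℝ) / 10 ^ 20) * (2 * ((phN i : ℝ) / 10 ^ 20) + (E i : ℝ) / 10 ^ 20) *
      ((H i : ℝ) / 10 ^ 20 + (T i : ℝ) / 10 ^ 20) + ((phN i : ℝ) / 10 ^ 20) ^ 2 *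
        ((T i : ℝ) / 10 ^ 20)) ≤ (err : ℝ) / 10 ^ 14 := by
  rw [erS_eq]
  have h1 : erS phN E H T n ≤ err * 10000000000000000000000000000000000000000000000 :=
    Nat.le_of_ble_eq_true h
  have h2 : (erS phN E H T n : ℝ) ≤ err * 10000000000000000000000000000000000000000000000 := by
    exact_mod_cast h1
  rw [div_le_div_iff₀ (by norm_num) (by norm_num)]
  calc (erS phN E H T n : ℝ) * 10 ^ 14 ≤
      (err * 10000000000000000000000000000000000000000000000) * 10 ^ 14 :=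
        mul_le_mul_of_nonneg_right h2 (by norm_num)
    _ = _ := by ring

/-! ## the cell -/

variable {pA pB e : List ℕ} {th : ℝ} {t0 t1 t2 t3 : List ℕ}

theorem PL_near (hP : PolData α th pA pB e) {s : ℝ} (hs : 0 ≤ s) (hs6 : s ≤ 6) :
    |Phi α s - PL pA pB th s| ≤ posE e s / 10 ^ 20 := by
  have := hP.phi s hs (by linarith)
  unfold PL
  norm_num at this ⊢
  exact this

theorem EN_bound (hP : PolData α th pA pB e) {i : ℕ} {s x : ℝ} (hx : 0 ≤ x) (hxs : x ≤ s)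
    (hs1 : s ≤ i + 1) (hi : i < 6) : |Phi α x - PL pA pB th x| ≤ (ENf e i : ℝ) / 10 ^ 20 := by
  have hi6 : ((i : ℝ) + 1) ≤ 6 := by
    have : ((i + 1 : ℕ) : ℝ) ≤ 6 := by exact_mod_cast (by omega : i + 1 ≤ 6)
    push_cast at this
    exact this
  refine (PL_near hP hx (by linarith)).trans ?_
  unfold ENf
  rw [posN_eq]
  refine div_le_div_of_nonneg_right ?_ (by norm_num)
  have := posE_mono e hx ((hxs.trans hs1) : x ≤ (i : ℝ) + 1)
  push_cast
  exact this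

/-- the bounds of `AA` on the cell (scale `10^14`) -/
structure ABd (α th : ℝ) (l0 l1 u0 u1 : ℕ) : Prop where
  lo : (1 - th) * l0 + th * l1 ≤ AA α * 10 ^ 14
  up : AA α * 10 ^ 14 ≤ (1 - th) * u0 + th * u1

/-- Bernstein coefficients (times 3) of an affine function -/
def af4 (x0 x1 : ℕ) : ℕ → ℕ
  | 0 => 3 * x0
  | 1 => 2 * x0 + x1
  | 2 => x0 + 2 * x1
  | _ => 3 * x1

theorem bs_af4 (th : ℝ) (x0 x1 : ℕ) : bs th (af4 x0 x1) = 3 * ((1 - th) * x0 + th * x1) := by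
  rw [bw_affine]
  unfold bs
  simp only [sum_range_succ, range_zero, sum_empty, af4]
  push_cast
  ring

theorem bs_const (th : ℝ) (x : ℕ) : bs th (fun _ => x) = x := by
  unfold bs
  rw [← sum_mul, bw_sum, one_mul]

/-- parameters of V -/
def pV (σ err U L t00 : ℕ) : Par :=
  ⟨Nat.mul σ (Nat.sub (Nat.add U 6) (Nat.mul 6 t00)), Nat.mul 60000 (Nat.add err 5000), 0,
    Nat.mul 20000 L⟩

def pF (err U L t00 : ℕ) : Par :=
  ⟨Nat.mul 270000 t00, Nat.add (Nat.mul 60000 (Nat.add err 5000)) (Nat.mul 10000 U),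
    Nat.mul 45000 L, 0⟩

/-- sums over even and odd indices -/
def evS (t : List ℕ) : ℕ :=
  t.getD 0 0 + (t.getD 2 0 + (t.getD 4 0 + (t.getD 6 0 + (t.getD 8 0 + (t.getD 10 0 +
    (t.getD 12 0 + t.getD 14 0))))))
def odS (t : List ℕ) : ℕ :=
  t.getD 1 0 + (t.getD 3 0 + (t.getD 5 0 + (t.getD 7 0 + (t.getD 9 0 + (t.getD 11 0 +
    (t.getD 13 0 + t.getD 15 0))))))

def pD (err U : ℕ) (t : List ℕ) : Par :=
  ⟨0, Nat.add (Nat.mul 60000 (Nat.add err 5000)) (Nat.add (Nat.mul 42942 U)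
    (Nat.mul 20000 (odS t))), 0, Nat.add (Nat.mul 20000 (evS t)) (Nat.mul 257652 (t.getD 0 0))⟩

/-- weighted sums with `T_k` and with the literals differ little -/
theorem sum_near (h0 : 0 ≤ th) (h1 : th ≤ 1) {n : ℕ} (hlit : litOk n pA pB t0 t1 t2 t3 = true)
    {w : ℕ → ℝ} (hw : ∀ k, 0 ≤ w k) {B : ℝ} (hB : ∑ k ∈ range 16, w k ≤ B) :
    |10 ^ 14 * (∑ k ∈ range 16, (-1) ^ k * w k * TM pA pB th n k) -
      ∑ k ∈ range 16, (-1) ^ k * w k * tt th t0 t1 t2 t3 k| ≤ B := by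
  rw [mul_sum, ← sum_sub_distrib]
  refine (abs_sum_le_sum_abs _ _).trans (le_trans (sum_le_sum fun k hk => ?_) hB)
  have h2 := lit_sound hlit h0 h1 (Finset.mem_range.1 hk)
  have e : 10 ^ 14 * ((-1) ^ k * w k * TM pA pB th n k) - (-1) ^ k * w k * tt th t0 t1 t2 t3 k =
      (-1) ^ k * w k * (TM pA pB th n k * 10 ^ 14 - tt th t0 t1 t2 t3 k) := by ring
  rw [e, abs_mul, abs_mul, abs_pow, abs_neg, abs_one, one_pow, one_mul, abs_of_nonneg (hw k)]
  calc w k * |TM pA pB th n k * 10 ^ 14 - tt th t0 t1 t2 t3 k| ≤ w k * 1 :=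
      mul_le_mul_of_nonneg_left h2 (hw k)
    _ = w k := mul_one _

theorem bs_t00 : bs th (fun c => (tl4 t0 t1 t2 t3 c).getD 0 0) = tt th t0 t1 t2 t3 0 := rfl

theorem V_num (h0 : 0 ≤ th) (h1 : th ≤ 1) {n : ℕ} (hlit : litOk n pA pB t0 t1 t2 t3 = true)
    {l : ℝ} (hl0 : 0 ≤ l) (hl1 : l ≤ 1) {σ err l0 l1 u0 u1 : ℕ} (hA : ABd α th l0 l1 u0 u1)
    (h : (2 + l) * (60000 * (∑ k ∈ range 16, (-1) ^ k * wt 1 (fun _ => 0) l k *
      tt th t0 t1 t2 t3 k) + bs th fun c => σ * (af4 u0 u1 c + 6 - 6 *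
        (tl4 t0 t1 t2 t3 c).getD 0 0)) + (bs th fun _ => 60000 * (err + 5000)) ≤
      (2 + l) * (bs th fun _ => 0) + bs th fun c => 20000 * af4 l0 l1 c) :
    (2 + l) * (∑ k ∈ range 16, (-1) ^ k * wt 1 (fun _ => 0) l k * TM pA pB th n k) +
      -((2 + l) * ((σ : ℝ) / 10000)) * TM pA pB th n 0 +
      0 * (∑ k ∈ range 16, (-1) ^ k * TM pA pB th n k) + (err : ℝ) / 10 ^ 14 <
      (1 - (2 + l) * ((σ : ℝ) / 10000) / 2) * AA α := by
  have hw : ∀ k, 0 ≤ wt 1 (fun _ => 0) l k := fun k => wt_nonneg hl0 k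
  have hwB : ∑ k ∈ range 16, wt 1 (fun _ => 0) l k ≤ 16 := by
    calc ∑ k ∈ range 16, wt 1 (fun _ => 0) l k ≤ ∑ k ∈ range 16, (1 : ℝ) := by
          refine sum_le_sum fun k _ => ?_
          rw [wt_V]
          exact pow_le_one₀ hl0 hl1
      _ = 16 := by simp
  have k1 := (abs_le.1 (sum_near h0 h1 hlit hw hwB)).2
  have k2 := (abs_le.1 (lit_sound hlit h0 h1 (k := 0) (by norm_num))).1
  set SM := ∑ k ∈ range 16, (-1) ^ k * wt 1 (fun _ => 0) l k * TM pA pB th n k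
  set S1 := ∑ k ∈ range 16, (-1) ^ k * wt 1 (fun _ => 0) l k * tt th t0 t1 t2 t3 k
  set T0 := TM pA pB th n 0
  have hx1 : (σ : ℝ) * (bs th (af4 u0 u1) + 6 - 6 * tt th t0 t1 t2 t3 0) ≤
      bs th fun c => σ * (af4 u0 u1 c + 6 - 6 * (tl4 t0 t1 t2 t3 c).getD 0 0) := by
    have e : (σ : ℝ) * (bs th (af4 u0 u1) + 6 - 6 * tt th t0 t1 t2 t3 0) = ∑ c ∈ range 4,
        bw th c * (σ * ((af4 u0 u1 c : ℝ) + 6 - 6 * (((tl4 t0 t1 t2 t3 c).getD 0 0 : ℕ) : ℝ))) := by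
      have e6 : (6 : ℝ) = ∑ c ∈ range 4, bw th c * 6 := by rw [← sum_mul, bw_sum, one_mul]
      have e7 : bs th (af4 u0 u1) + 6 - 6 * tt th t0 t1 t2 t3 0 = ∑ c ∈ range 4,
          bw th c * ((af4 u0 u1 c : ℝ) + 6 - 6 * (((tl4 t0 t1 t2 t3 c).getD 0 0 : ℕ) : ℝ)) := by
        unfold bs tt
        nth_rw 1 [e6]
        rw [mul_sum, ← sum_add_distrib, ← sum_sub_distrib]
        exact sum_congr rfl fun c _ => by ring
      rw [e7, mul_sum]
      exact sum_congr rfl fun c _ => by ring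
    rw [e]
    unfold bs
    refine sum_le_sum fun c _ => mul_le_mul_of_nonneg_left ?_ (bw_nonneg h0 h1 c)
    push_cast
    refine mul_le_mul_of_nonneg_left ?_ (Nat.cast_nonneg σ)
    have := le_tsub_add (a := 6 * (tl4 t0 t1 t2 t3 c).getD 0 0) (b := af4 u0 u1 c + 6)
    have h3 : ((af4 u0 u1 c + 6 : ℕ) : ℝ) ≤ ((af4 u0 u1 c + 6 -
      6 * (tl4 t0 t1 t2 t3 c).getD 0 0 : ℕ) : ℝ) + ((6 * (tl4 t0 t1 t2 t3 c).getD 0 0 : ℕ) : ℝ) := by
      exact_mod_cast this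
    push_cast at h3
    linarith
  have hL : (bs th fun c => 20000 * af4 l0 l1 c) = 20000 * (3 * ((1 - th) * l0 + th * l1)) := by
    rw [← bs_af4]
    unfold bs
    rw [mul_sum]
    refine sum_congr rfl fun c _ => ?_
    push_cast
    ring
  rw [bs_const, bs_const, hL] at h
  rw [bs_af4] at hx1
  have hlo := hA.lo
  have hup := hA.up
  set A := AA α
  have hσ : (0 : ℝ) ≤ σ := Nat.cast_nonneg σ
  have hμ : 0 ≤ 2 + l := by linarith
  -- multiply out
  have m1 : (2 + l) * (10 ^ 14 * SM) ≤ (2 + l) * (S1 + 16) :=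
    mul_le_mul_of_nonneg_left (by linarith) hμ
  have m2 : (2 + l) * (σ * (3 * ((1 - th) * u0 + th * u1) + 6 - 6 * tt th t0 t1 t2 t3 0)) ≤
      (2 + l) * (bs th fun c => σ * (af4 u0 u1 c + 6 - 6 * (tl4 t0 t1 t2 t3 c).getD 0 0)) :=
    mul_le_mul_of_nonneg_left hx1 hμ
  have m3 : (2 + l) * (σ * (3 * (A * 10 ^ 14) - 6 * (T0 * 10 ^ 14))) ≤
      (2 + l) * (σ * (3 * ((1 - th) * u0 + th * u1) + 6 - 6 * tt th t0 t1 t2 t3 0)) := by
    refine mul_le_mul_of_nonneg_left (mul_le_mul_of_nonneg_left ?_ hσ) hμ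
    linarith
  have goal' : 60000 * ((2 + l) * (10 ^ 14 * SM)) +
      (2 + l) * (σ * (3 * (A * 10 ^ 14) - 6 * (T0 * 10 ^ 14))) + 60000 * err <
      60000 * (A * 10 ^ 14) := by
    have h5 : (2 + l) * 16 ≤ 48 := by linarith
    push_cast at h
    linarith
  have e : (60000 * 10 ^ 14 : ℝ) * (((2 + l) * SM + -((2 + l) * ((σ : ℝ) / 10000)) * T0 +
      0 * (∑ k ∈ range 16, (-1) ^ k * TM pA pB th n k) + (err : ℝ) / 10 ^ 14)) =
      60000 * ((2 + l) * (10 ^ 14 * SM)) - (2 + l) * (σ * (6 * (T0 * 10 ^ 14))) + 60000 * err := by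
    ring
  have e' : (60000 * 10 ^ 14 : ℝ) * ((1 - (2 + l) * ((σ : ℝ) / 10000) / 2) * A) =
      60000 * (A * 10 ^ 14) - (2 + l) * (σ * (3 * (A * 10 ^ 14))) := by
    ring
  refine lt_of_mul_lt_mul_left (a := (60000 * 10 ^ 14 : ℝ)) ?_ (by norm_num)
  rw [e, e']
  linarith

theorem F_num (h0 : 0 ≤ th) (h1 : th ≤ 1) {n : ℕ} (hlit : litOk n pA pB t0 t1 t2 t3 = true)
    {l : ℝ} (hl0 : 0 ≤ l) (hl1 : l ≤ 1) {err l0 l1 u0 u1 : ℕ} (hA : ABd α th l0 l1 u0 u1)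
    (h : (2 + l) * (60000 * (∑ k ∈ range 16, (-1) ^ k * wt 0 dF l k *
      tt th t0 t1 t2 t3 k) + bs th fun c => 270000 * (tl4 t0 t1 t2 t3 c).getD 0 0) +
        (bs th fun c => 60000 * (err + 5000) + 10000 * af4 u0 u1 c) ≤
      (2 + l) * (bs th fun c => 45000 * af4 l0 l1 c) + bs th fun _ => 0) :
    (2 + l) * (∑ k ∈ range 16, (-1) ^ k * wt 0 dF l k * TM pA pB th n k) +
      (2 + l) * (9 / 2) * TM pA pB th n 0 +
      0 * (∑ k ∈ range 16, (-1) ^ k * TM pA pB th n k) + (err : ℝ) / 10 ^ 14 <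
      (((2 + l) * (9 / 2) - 1) / 2) * AA α := by
  have hw : ∀ k, 0 ≤ wt 0 dF l k := fun k => wt_nonneg hl0 k
  have hwB : ∑ k ∈ range 16, wt 0 dF l k ≤ 16 := by
    calc ∑ k ∈ range 16, wt 0 dF l k ≤ ∑ k ∈ range 16, (1 : ℝ) := by
          refine sum_le_sum fun k _ => ?_
          rcases k with _ | k
          · simp [wt]
          · rw [wt_F]
            exact pow_le_one₀ hl0 hl1
      _ = 16 := by simp
  have k1 := (abs_le.1 (sum_near h0 h1 hlit hw hwB)).2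
  have k2 := (abs_le.1 (lit_sound hlit h0 h1 (k := 0) (by norm_num))).2
  set SM := ∑ k ∈ range 16, (-1) ^ k * wt 0 dF l k * TM pA pB th n k
  set S1 := ∑ k ∈ range 16, (-1) ^ k * wt 0 dF l k * tt th t0 t1 t2 t3 k
  set T0 := TM pA pB th n 0
  have hx1 : (bs th fun c => 270000 * (tl4 t0 t1 t2 t3 c).getD 0 0) =
      270000 * tt th t0 t1 t2 t3 0 := by
    unfold bs tt
    rw [mul_sum]
    exact sum_congr rfl fun c _ => by push_cast; ring
  have hx0 : (bs th fun c => 60000 * (err + 5000) + 10000 * af4 u0 u1 c) =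
      60000 * (err + 5000) + 10000 * (3 * ((1 - th) * u0 + th * u1)) := by
    rw [← bs_af4]
    have e6 : (60000 * ((err : ℝ) + 5000)) = ∑ c ∈ range 4, bw th c * (60000 * ((err : ℝ) + 5000)) := by
      rw [← sum_mul, bw_sum, one_mul]
    unfold bs
    rw [e6, mul_sum, ← sum_add_distrib]
    exact sum_congr rfl fun c _ => by push_cast; ring
  have hL : (bs th fun c => 45000 * af4 l0 l1 c) = 45000 * (3 * ((1 - th) * l0 + th * l1)) := by
    rw [← bs_af4]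
    unfold bs
    rw [mul_sum]
    refine sum_congr rfl fun c _ => ?_
    push_cast
    ring
  rw [bs_const, hL, hx1, hx0] at h
  have hlo := hA.lo
  have hup := hA.up
  set A := AA α
  have hμ : 0 ≤ 2 + l := by linarith
  have m1 : (2 + l) * (10 ^ 14 * SM) ≤ (2 + l) * (S1 + 16) :=
    mul_le_mul_of_nonneg_left (by linarith) hμ
  have m2 : (2 + l) * (T0 * 10 ^ 14) ≤ (2 + l) * (tt th t0 t1 t2 t3 0 + 1) :=
    mul_le_mul_of_nonneg_left (by linarith) hμ
  have m3 : (2 + l) * ((1 - th) * l0 + th * l1) ≤ (2 + l) * (A * 10 ^ 14) :=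
    mul_le_mul_of_nonneg_left hlo hμ
  have e : (60000 * 10 ^ 14 : ℝ) * (((2 + l) * SM + (2 + l) * (9 / 2) * T0 +
      0 * (∑ k ∈ range 16, (-1) ^ k * TM pA pB th n k) + (err : ℝ) / 10 ^ 14)) =
      60000 * ((2 + l) * (10 ^ 14 * SM)) + 270000 * ((2 + l) * (T0 * 10 ^ 14)) + 60000 * err := by
    ring
  have e' : (60000 * 10 ^ 14 : ℝ) * ((((2 + l) * (9 / 2) - 1) / 2) * A) =
      135000 * ((2 + l) * (A * 10 ^ 14)) - 30000 * (A * 10 ^ 14) := by
    ring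
  refine lt_of_mul_lt_mul_left (a := (60000 * 10 ^ 14 : ℝ)) ?_ (by norm_num)
  rw [e, e']
  have h5 : (2 + l) * 16 ≤ 48 := by linarith
  push_cast at h
  linarith

theorem D_num (h0 : 0 ≤ th) (h1 : th ≤ 1) {n : ℕ} (hlit : litOk n pA pB t0 t1 t2 t3 = true)
    {l : ℝ} (hl0 : 0 ≤ l) (hl1 : l ≤ 1) {err l0 l1 u0 u1 : ℕ} (hA : ABd α th l0 l1 u0 u1)
    (h : (2 + l) * (60000 * (∑ k ∈ range 16, (-1) ^ k * wt 0 (fun k => k) l k *
      tt th t0 t1 t2 t3 k) + bs th fun _ => 0) +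
        (bs th fun c => 60000 * (err + 5000) + (42942 * af4 u0 u1 c +
          20000 * odS (tl4 t0 t1 t2 t3 c))) ≤
      (2 + l) * (bs th fun _ => 0) + bs th fun c => 20000 * evS (tl4 t0 t1 t2 t3 c) +
        257652 * (tl4 t0 t1 t2 t3 c).getD 0 0) :
    (2 + l) * (∑ k ∈ range 16, (-1) ^ k * wt 0 (fun k => k) l k * TM pA pB th n k) +
      -(4.2942) * TM pA pB th n 0 +
      -(1 / 3) * (∑ k ∈ range 16, (-1) ^ k * TM pA pB th n k) + (err : ℝ) / 10 ^ 14 <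
      -(4.2942 / 2) * AA α := by
  have hw : ∀ k, 0 ≤ wt 0 (fun k => k) l k := fun k => wt_nonneg hl0 k
  have hwB : ∑ k ∈ range 16, wt 0 (fun k => k) l k ≤ 560 := by
    calc ∑ k ∈ range 16, wt 0 (fun k => k) l k ≤ ∑ k ∈ range 16, (k : ℝ) * (k - 1) / 2 := by
          refine sum_le_sum fun k _ => ?_
          rw [wt_D]
          exact rho_le hl0 hl1 k
      _ = 560 := by norm_num [sum_range_succ]
  have k1 := (abs_le.1 (sum_near h0 h1 hlit hw hwB)).2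
  have k2 := (abs_le.1 (lit_sound hlit h0 h1 (k := 0) (by norm_num))).1
  have k3 := (abs_le.1 (sum_near h0 h1 hlit (w := fun _ => 1) (fun _ => zero_le_one) (B := 16)
    (by simp))).1
  simp only [mul_one] at k3
  set SM := ∑ k ∈ range 16, (-1) ^ k * wt 0 (fun k => k) l k * TM pA pB th n k
  set S1 := ∑ k ∈ range 16, (-1) ^ k * wt 0 (fun k => k) l k * tt th t0 t1 t2 t3 k
  set N0 := ∑ k ∈ range 16, (-1) ^ k * TM pA pB th n k
  set T0 := TM pA pB th n 0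
  have hx0 : (bs th fun c => 60000 * (err + 5000) + (42942 * af4 u0 u1 c +
          20000 * odS (tl4 t0 t1 t2 t3 c))) =
      60000 * (err + 5000) + 42942 * (3 * ((1 - th) * u0 + th * u1)) +
        20000 * bs th (fun c => odS (tl4 t0 t1 t2 t3 c)) := by
    rw [← bs_af4]
    have e6 : (60000 * ((err : ℝ) + 5000)) = ∑ c ∈ range 4, bw th c * (60000 * ((err : ℝ) + 5000)) := by
      rw [← sum_mul, bw_sum, one_mul]
    unfold bs
    rw [e6, mul_sum, mul_sum, ← sum_add_distrib, ← sum_add_distrib]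
    exact sum_congr rfl fun c _ => by push_cast; ring
  have hy0 : (bs th fun c => 20000 * evS (tl4 t0 t1 t2 t3 c) +
        257652 * (tl4 t0 t1 t2 t3 c).getD 0 0) =
      20000 * bs th (fun c => evS (tl4 t0 t1 t2 t3 c)) + 257652 * tt th t0 t1 t2 t3 0 := by
    unfold bs tt
    rw [mul_sum, mul_sum, ← sum_add_distrib]
    exact sum_congr rfl fun c _ => by push_cast; ring
  have hN : ∑ k ∈ range 16, (-1) ^ k * tt th t0 t1 t2 t3 k =
      bs th (fun c => evS (tl4 t0 t1 t2 t3 c)) - bs th (fun c => odS (tl4 t0 t1 t2 t3 c)) := by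
    unfold bs tt evS odS
    simp only [sum_range_succ, range_zero, sum_empty, tl4]
    push_cast
    ring
  rw [bs_const, hx0, hy0] at h
  rw [hN] at k3
  have hup := hA.up
  set A := AA α
  have hμ : 0 ≤ 2 + l := by linarith
  have m1 : (2 + l) * (10 ^ 14 * SM) ≤ (2 + l) * (S1 + 560) :=
    mul_le_mul_of_nonneg_left (by linarith) hμ
  have e : (60000 * 10 ^ 14 : ℝ) * ((2 + l) * SM + -(4.2942) * T0 + -(1 / 3) * N0 +
      (err : ℝ) / 10 ^ 14) =
      60000 * ((2 + l) * (10 ^ 14 * SM)) - 257652 * (T0 * 10 ^ 14) - 20000 * (10 ^ 14 * N0) +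
        60000 * err := by
    ring
  have e' : (60000 * 10 ^ 14 : ℝ) * (-(4.2942 / 2) * A) = -128826 * (A * 10 ^ 14) := by
    ring
  refine lt_of_mul_lt_mul_left (a := (60000 * 10 ^ 14 : ℝ)) ?_ (by norm_num)
  rw [e, e']
  have h5 : (2 + l) * 560 ≤ 1680 := by linarith
  push_cast at h
  linarith

end LpSec.Rid
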