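import Mathlib
import Pool.Agent.Lib.MP_1dbab3_gt.Base

/-!
# W/RidTail, part 1: bounds on the kernels `K 0`, `w K 2 w`
-/

open Real MeasureTheory Set Filter Topology

namespace LpSec.Rid

theorem k0_36 : -0.4027 ≤ K 0 (18 / 5) ∧ K 0 (18 / 5) ≤ -0.4024 := by
  apply kn_K_bounds 0 12 <;> norm_num [Finset.sum_range_succ, Nat.factorial]

theorem k1_89 : -0.0950 ≤ K 1 (89 / 10) ∧ K 1 (89 / 10) ≤ -0.0948 := by
  apply kn_K_bounds 1 16 <;> norm_num [Finset.sum_range_succ, Nat.factorial]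

theorem k2_89 : -0.0270 ≤ K 2 (89 / 10) ∧ K 2 (89 / 10) ≤ -0.0260 := by
  apply kn_K_bounds 2 16 <;> norm_num [Finset.sum_range_succ, Nat.factorial]

theorem k3_89 : 0.0040 ≤ K 3 (89 / 10) ∧ K 3 (89 / 10) ≤ 0.0050 := by
  apply kn_K_bounds 3 16 <;> norm_num [Finset.sum_range_succ, Nat.factorial]

theorem k1_115 : -0.0209 ≤ K 1 (23 / 2) ∧ K 1 (23 / 2) ≤ -0.0208 := by
  apply kn_K_bounds 1 18 <;> norm_num [Finset.sum_range_succ, Nat.factorial]

theorem k2_115 : -0.0272 ≤ K 2 (23 / 2) ∧ K 2 (23 / 2) ≤ -0.0271 := by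
  apply kn_K_bounds 2 18 <;> norm_num [Finset.sum_range_succ, Nat.factorial]

theorem k3_115 : -0.0030 ≤ K 3 (23 / 2) ∧ K 3 (23 / 2) ≤ -0.0029 := by
  apply kn_K_bounds 3 18 <;> norm_num [Finset.sum_range_succ, Nat.factorial]

theorem k0_122 : 0.2995 ≤ K 0 (61 / 5) ∧ K 0 (61 / 5) ≤ 0.3001 := by
  apply kn_K_bounds 0 18 <;> norm_num [Finset.sum_range_succ, Nat.factorial]

theorem k1_122 : -0.0030 ≤ K 1 (61 / 5) ∧ K 1 (61 / 5) ≤ -0.0020 := by
  apply kn_K_bounds 1 18 <;> norm_num [Finset.sum_range_succ, Nat.factorial]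

theorem k0_15 : K 0 (3 / 2) ≤ 0 :=
  (kn_K_bounds 0 10 (lo := -1) (hi := 0) (by norm_num) (by norm_num)
    (by norm_num [Finset.sum_range_succ, Nat.factorial])
    (by norm_num [Finset.sum_range_succ, Nat.factorial])).2

theorem k2_abs_89 {v : ℝ} (h : 89 / 10 ≤ v) : |K 2 v| ≤ 0.031 :=
  kn_K_abs_of_energy 2 (u := 89 / 10) (v := v) (B := 0.031) (by norm_num) h (by norm_num)
    (by
      have := kn_sq_bd k2_89.1 k2_89.2 (by norm_num)
      have := kn_sq_bd' k3_89.1 k3_89.2 (by norm_num)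
      norm_num at *
      linarith)

theorem k2_abs_115 {v : ℝ} (h : 23 / 2 ≤ v) : |K 2 v| ≤ 0.0291 :=
  kn_K_abs_of_energy 2 (u := 23 / 2) (v := v) (B := 0.0291) (by norm_num) h (by norm_num)
    (by
      have := kn_sq_bd k2_115.1 k2_115.2 (by norm_num)
      have := kn_sq_bd k3_115.1 k3_115.2 (by norm_num)
      norm_num at *
      linarith)

theorem k1_nonpos {v : ℝ} (h : 13 / 2 ≤ v) (h' : v ≤ 61 / 5) : K 1 v ≤ 0 := by
  rcases le_total v (89 / 10) with h1 | h1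
  · have h2 := kn_K_upper_of 1 (B := 0.05345) h (fun w hw _ => (abs_le.mp (kn_K2_abs_65 hw)).1)
    have h3 := kn_K1_65.2
    norm_num at *
    linarith
  rcases le_total v (23 / 2) with h2 | h2
  · have h3 := kn_K_upper_of 1 (B := 0.031) h1 (fun w hw _ => (abs_le.mp (k2_abs_89 hw)).1)
    have h4 := k1_89.2
    norm_num at *
    linarith
  · have h3 := kn_K_upper_of 1 (B := 0.0291) h2 (fun w hw _ => (abs_le.mp (k2_abs_115 hw)).1)
    have h4 := k1_115.2
    norm_num at *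
    linarith

/-- `K 0 ≥ -0.403` everywhere -/
theorem K0_ge_all {v : ℝ} (h : 0 ≤ v) : -0.403 ≤ K 0 v := by
  rcases le_total v (18 / 5) with h1 | h1
  · have h2 : AntitoneOn (K 0) (Icc 0 (18 / 5)) := by
      refine kn_K_antitoneOn fun u hu => ?_
      have h3 := K1_antitone (a := u) (b := 18 / 5) ⟨hu.1, by linarith [hu.2]⟩
        ⟨by norm_num, by norm_num⟩ hu.2
      have h4 := kn_K1_36.1
      norm_num at *
      linarith
    have h3 := h2 ⟨h, h1⟩ ⟨by norm_num, le_refl _⟩ h1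
    have h4 := k0_36.1
    norm_num at *
    linarith
  · have h2 := kn_K_abs_of_energy 0 (u := 18 / 5) (v := v) (B := 0.403) (by norm_num) h1
      (by norm_num)
      (by
        have := kn_sq_bd k0_36.1 k0_36.2 (by norm_num)
        have := kn_sq_bd' kn_K1_36.1 kn_K1_36.2 (by norm_num)
        norm_num at *
        linarith)
    exact (abs_le.mp h2).1

/-- `K 0 ≤ 0.3005` beyond `3/2` -/
theorem K0_le_far {v : ℝ} (h : 3 / 2 ≤ v) : K 0 v ≤ 0.3005 := by
  have hfar : ∀ v : ℝ, 61 / 5 ≤ v → K 0 v ≤ 0.3005 := fun v hv =>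
    (abs_le.mp (kn_K_abs_of_energy 0 (u := 61 / 5) (v := v) (B := 0.3005) (by norm_num) hv
      (by norm_num)
      (by
        have := kn_sq_bd' k0_122.1 k0_122.2 (by norm_num)
        have := kn_sq_bd k1_122.1 k1_122.2 (by norm_num)
        norm_num at *
        linarith))).2
  rcases le_total v (13 / 2) with h1 | h1
  · have h2 := K0_convex.2 (show (3 / 2 : ℝ) ∈ Icc (0 : ℝ) (13 / 2) from ⟨by norm_num, by norm_num⟩)
      (show (13 / 2 : ℝ) ∈ Icc (0 : ℝ) (13 / 2) from ⟨by norm_num, le_refl _⟩)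
      (show 0 ≤ (13 / 2 - v) / 5 by linarith) (show 0 ≤ (v - 3 / 2) / 5 by linarith) (by ring)
    have e : ((13 / 2 - v) / 5) • (3 / 2 : ℝ) + ((v - 3 / 2) / 5) • (13 / 2 : ℝ) = v := by
      simp only [smul_eq_mul]
      ring
    rw [e] at h2
    simp only [smul_eq_mul] at h2
    have h3 := k0_15
    have h4 := kn_K0_65.2
    have h5 : (13 / 2 - v) / 5 * K 0 (3 / 2) ≤ 0 :=
      mul_nonpos_of_nonneg_of_nonpos (by linarith) h3
    have h6 : (v - 3 / 2) / 5 * K 0 (13 / 2) ≤ 0 :=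
      mul_nonpos_of_nonneg_of_nonpos (by linarith) (by norm_num at *; linarith)
    norm_num at *
    linarith
  rcases le_total v (61 / 5) with h2 | h2
  · have h3 : MonotoneOn (K 0) (Icc (13 / 2) (61 / 5)) := by
      refine monotoneOn_of_deriv_nonneg (convex_Icc _ _) (K_continuous 0).continuousOn
        (kn_K_differentiable 0).differentiableOn ?_
      intro u hu
      rw [kn_K_deriv]
      have h4 := k1_nonpos (interior_subset hu).1 (interior_subset hu).2
      simpa using h4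
    exact (h3 ⟨h1, h2⟩ ⟨by norm_num, le_refl _⟩ h2).trans (hfar _ le_rfl)
  · exact hfar v h2

theorem wK2_eq (w : ℝ) : w * K 2 w = K 1 w - K 0 w := by
  have h := K_rec 0 w
  simp only [Nat.cast_zero, zero_add, one_mul] at h
  exact h

theorem wK2_le {w : ℝ} (h : 0 ≤ w) : w * K 2 w ≤ 1 / 2 := by
  rcases le_total w 3 with h1 | h1
  · have h2 := (abs_le.mp (K_trunc 2 3 h (by push_cast; linarith))).2
    norm_num [Finset.sum_range_succ, Nat.factorial] at h2
    have h3 : K 2 w ≤ 1 / 2 - w / 6 + w ^ 2 / 48 - w ^ 3 / 720 + w ^ 4 / 17280 := by linarith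
    have h4 : w * K 2 w ≤ w * (1 / 2 - w / 6 + w ^ 2 / 48 - w ^ 3 / 720 + w ^ 4 / 17280) :=
      mul_le_mul_of_nonneg_left h3 h
    refine h4.trans ?_
    have h5 : 0 ≤ w * (3 - w) := mul_nonneg h (by linarith)
    nlinarith [sq_nonneg (w - 7 / 3), mul_nonneg h (sq_nonneg (w - 7 / 3)),
      mul_nonneg h5 (sq_nonneg (w - 7 / 3)), mul_nonneg (mul_nonneg h h) (sq_nonneg (w - 7 / 3)),
      mul_nonneg (mul_nonneg h h5) (sq_nonneg (w - 7 / 3))]
  · rw [wK2_eq]
    have h2 := K1_le_kap (u := 3) (v := w) (by norm_num) h1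
    have h3 := K0_ge_all (v := w) h
    have h4 : kap 3 ≤ 0.0928 := by
      unfold kap
      norm_num
    linarith

theorem wK2_ge {w : ℝ} (h : 0 ≤ w) : -0.433 ≤ w * K 2 w := by
  rcases le_total w (13 / 2) with h1 | h1
  · have h2 := kn_K2_nonneg' w ⟨h, h1⟩
    have h3 := mul_nonneg h h2
    linarith
  · rw [wK2_eq]
    have h2 := (abs_le.mp (kn_K1_abs_65 h1)).1
    have h3 := K0_le_far (v := w) (by linarith)
    linarith

end LpSec.Rid
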