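import Mathlib
import Pool.Agent.Lib.MP_1dbab3_gt.GamX
import Pool.Agent.Lib.MP_1dbab3_gt.W.RidTailA

/-!
# W/RidTail, part 2: bounds on `s Phi1 s`, `s Phi2 s`, `s² Phi2 s`
-/

open Real MeasureTheory Set Filter Topology

namespace LpSec.Rid

variable {α : ℝ}

theorem G_sq_integrable (hα : 1 < α) : IntegrableOn (fun t => t * (t * G α t)) (Ioi 0) := by
  have hα0 : 0 < α := by linarith
  have h := (aux_Gmom hα0 (q := 2) (by linarith)).1
  refine h.congr_fun (fun t _ => ?_) measurableSet_Ioi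
  simp only [rpow_two]
  ring

theorem Phi1_eq_G (hα : 1 < α) {s : ℝ} (hs : 0 < s) :
    Phi1 α s = ∫ t in Ioi (0 : ℝ), t * G α t * K 2 (s * t) := by
  have h1 := Phi_hasDerivAt hα hs
  have h2 := phic2_deriv (G_integrable hα) (G_mul_integrable hα) 1 hs
  have h3 : (fun s => ∫ ρ in Ioi (0 : ℝ), G α ρ * K 1 (s * ρ)) =ᶠ[𝓝 s] Phi α := by
    filter_upwards [Ioi_mem_nhds hs] with x hx
    exact (Phi_eq_G hα (le_of_lt hx)).symm
  have h4 := (h2.congr_of_eventuallyEq h3.symm).unique h1
  linarith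

theorem Phi2_eq_G (hα : 1 < α) {s : ℝ} (hs : 0 < s) :
    Phi2 α s = ∫ t in Ioi (0 : ℝ), t * (t * G α t) * K 3 (s * t) := by
  have h1 := Phi1_hasDerivAt hα hs
  have h2 := phic2_deriv (G_mul_integrable hα) (G_sq_integrable hα) 2 hs
  have h3 : (fun s => ∫ ρ in Ioi (0 : ℝ), ρ * G α ρ * K 2 (s * ρ)) =ᶠ[𝓝 s] Phi1 α := by
    filter_upwards [Ioi_mem_nhds hs] with x hx
    exact (Phi1_eq_G hα hx).symm
  have h4 := (h2.congr_of_eventuallyEq h3.symm).unique h1
  linarith

theorem wK2_abs {w : ℝ} (h : 0 ≤ w) : |w * K 2 w| ≤ 1 / 2 :=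
  abs_le.2 ⟨by linarith [wK2_ge h], wK2_le h⟩

/-- `∫ G (s t) K 2 (s t)` -/
theorem GK2_int (hα : 1 < α) {s : ℝ} (hs : 0 ≤ s) :
    IntegrableOn (fun t => G α t * (s * t * K 2 (s * t))) (Ioi 0) := by
  refine Integrable.mono' (G_integrable hα).norm ?_ ?_
  · refine (G_integrable hα).aestronglyMeasurable.mul ?_
    exact ((continuous_const.mul continuous_id).mul
      ((K_continuous 2).comp (continuous_const.mul continuous_id))).aestronglyMeasurable
  · refine (ae_restrict_mem measurableSet_Ioi).mono (fun t ht => ?_)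
    have h := wK2_abs (w := s * t) (mul_nonneg hs (le_of_lt ht))
    rw [norm_mul]
    refine mul_le_of_le_one_right (norm_nonneg _) ?_
    rw [Real.norm_eq_abs]
    linarith

theorem sPhi1_eq (hα : 1 < α) {s : ℝ} (hs : 0 < s) :
    s * Phi1 α s = ∫ t in Ioi (0 : ℝ), G α t * (s * t * K 2 (s * t)) := by
  rw [Phi1_eq_G hα hs, ← integral_const_mul]
  refine integral_congr_ae (Eventually.of_forall fun t => ?_)
  simp only
  ring

theorem int_G_mul_le (hα : 1 < α) {f : ℝ → ℝ} {c : ℝ}
    (hf : IntegrableOn (fun t => G α t * f t) (Ioi 0)) (h : ∀ t, 0 < t → f t ≤ c) :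
    ∫ t in Ioi (0 : ℝ), G α t * f t ≤ c := by
  have h1 : ∫ t in Ioi (0 : ℝ), G α t * f t ≤ ∫ t in Ioi (0 : ℝ), G α t * c := by
    refine setIntegral_mono_on hf ((G_integrable hα).mul_const c) measurableSet_Ioi fun t ht => ?_
    exact mul_le_mul_of_nonneg_left (h t ht) (G_nonneg (by linarith) ht)
  rw [integral_mul_const, G_integral hα, one_mul] at h1
  exact h1

theorem le_int_G_mul (hα : 1 < α) {f : ℝ → ℝ} {c : ℝ}
    (hf : IntegrableOn (fun t => G α t * f t) (Ioi 0)) (h : ∀ t, 0 < t → c ≤ f t) :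
    c ≤ ∫ t in Ioi (0 : ℝ), G α t * f t := by
  have h1 : ∫ t in Ioi (0 : ℝ), G α t * c ≤ ∫ t in Ioi (0 : ℝ), G α t * f t := by
    refine setIntegral_mono_on ((G_integrable hα).mul_const c) hf measurableSet_Ioi fun t ht => ?_
    exact mul_le_mul_of_nonneg_left (h t ht) (G_nonneg (by linarith) ht)
  rw [integral_mul_const, G_integral hα, one_mul] at h1
  exact h1

theorem sPhi1_le (hα : 1 < α) {s : ℝ} (hs : 0 ≤ s) : s * Phi1 α s ≤ 1 / 2 := by
  rcases eq_or_lt_of_le hs with rfl | hs'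
  · rw [zero_mul]; norm_num
  rw [sPhi1_eq hα hs']
  exact int_G_mul_le hα (GK2_int hα hs) fun t ht => wK2_le (mul_nonneg hs ht.le)

theorem sPhi1_ge (hα : 1 < α) {s : ℝ} (hs : 0 ≤ s) : -0.433 ≤ s * Phi1 α s := by
  rcases eq_or_lt_of_le hs with rfl | hs'
  · rw [zero_mul]; norm_num
  rw [sPhi1_eq hα hs']
  exact le_int_G_mul hα (GK2_int hα hs) fun t ht => wK2_ge (mul_nonneg hs ht.le)

theorem sPhi2_abs (hα : 1 < α) {s : ℝ} (hs : 0 ≤ s) : |s * Phi2 α s| ≤ 1 / 2 := by
  have e : s * Phi2 α s = ∫ ρ in Ioi (0 : ℝ), ρ * F α ρ * (s * ρ * K 2 (s * ρ)) := by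
    unfold Phi2
    rw [← integral_const_mul]
    refine integral_congr_ae (Eventually.of_forall fun t => ?_)
    simp only
    ring
  have h1 : ∫ ρ in Ioi (0 : ℝ), ρ * F α ρ * (1 / 2) = 1 / 2 := by
    rw [integral_mul_const, F_mean hα, one_mul]
  rw [e, ← Real.norm_eq_abs]
  refine (norm_integral_le_of_norm_le ((F_mul_integrable hα).mul_const (1 / 2)) ?_).trans
    (le_of_eq h1)
  refine (ae_restrict_mem measurableSet_Ioi).mono (fun t ht => ?_)
  have ht' : (0 : ℝ) < t := ht
  have hF := F_pos (α := α) (by linarith) t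
  rw [norm_mul, Real.norm_eq_abs, Real.norm_eq_abs, abs_of_nonneg (by positivity)]
  exact mul_le_mul_of_nonneg_left (wK2_abs (mul_nonneg hs ht'.le)) (by positivity)

/-- the derivative of `t G α t` -/
noncomputable def gd (α t : ℝ) : ℝ :=
  (DD α)⁻¹ * (α ^ 2 * (mu α * t) ^ α * ((1 + 1 / α) - (mu α * t) ^ α) * exp (-(mu α * t) ^ α))

theorem tG_hasDerivAt (hα : 1 < α) {t : ℝ} (ht : 0 < t) :
    HasDerivAt (fun t => t * G α t) (gd α t) t := by
  have hα0 : 0 < α := by linarith
  have hmu := mu_pos hα0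
  have hmt : 0 < mu α * t := by positivity
  have h1 : HasDerivAt (fun t => mu α * t) (mu α) t := by
    simpa using (hasDerivAt_id t).const_mul (mu α)
  have h2 : HasDerivAt (fun t => (mu α * t) ^ α) (mu α * α * (mu α * t) ^ (α - 1)) t :=
    h1.rpow_const (Or.inl hmt.ne')
  have h3 := (((h2.const_mul α).mul h2.neg.exp).const_mul (DD α)⁻¹)
  have h4 := (hasDerivAt_id t).mul h3
  refine h4.congr_deriv ?_
  unfold gd
  simp only [Pi.neg_apply, Pi.mul_apply, id]
  rw [rpow_sub_one hmt.ne']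
  field_simp
  ring

theorem G_continuousOn (hα : 1 < α) : ContinuousOn (G α) (Ici 0) := by
  have hα0 : 0 < α := by linarith
  have h1 : Continuous (fun t : ℝ => (mu α * t) ^ α) :=
    (continuous_const.mul continuous_id).rpow_const fun _ => Or.inr hα0.le
  have h2 : Continuous (G α) := by
    unfold G
    exact continuous_const.mul ((continuous_const.mul h1).mul (continuous_exp.comp h1.neg))
  exact h2.continuousOn

theorem gd_eq (hα : 1 < α) {t : ℝ} (ht : 0 < t) :
    gd α t = (α + 1) * G α t - α * mu α ^ α * (t ^ α * G α t) := by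
  have hα0 : 0 < α := by linarith
  have hmu := mu_pos hα0
  unfold gd G
  rw [mul_rpow hmu.le ht.le]
  field_simp

theorem gd_integrable (hα : 1 < α) : IntegrableOn (gd α) (Ioi 0) := by
  have hα0 : 0 < α := by linarith
  have h1 := ((G_integrable hα).const_mul (α + 1)).sub
    ((aux_Gmom hα0 (q := α) (by linarith)).1.const_mul (α * mu α ^ α))
  refine IntegrableOn.congr_fun h1 (fun t ht => ?_) measurableSet_Ioi
  exact (gd_eq hα ht).symm

theorem gdK_integrable (hα : 1 < α) {s : ℝ} (hs : 0 ≤ s) :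
    IntegrableOn (fun t => gd α t * K 0 (s * t)) (Ioi 0) := by
  refine Integrable.mono' (gd_integrable hα).norm ?_ ?_
  · exact (gd_integrable hα).aestronglyMeasurable.mul
      ((K_continuous 0).comp (continuous_const.mul continuous_id)).aestronglyMeasurable
  · refine (ae_restrict_mem measurableSet_Ioi).mono (fun t ht => ?_)
    have h := phic2_K_le_one 0 (mul_nonneg hs (le_of_lt ht))
    rw [norm_mul]
    refine mul_le_of_le_one_right (norm_nonneg _) ?_
    rw [Real.norm_eq_abs]
    exact h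

theorem tGK_integrable (hα : 1 < α) (ν : ℕ) {s : ℝ} (hs : 0 ≤ s) :
    IntegrableOn (fun t => t * G α t * K ν (s * t)) (Ioi 0) := by
  refine Integrable.mono' (G_mul_integrable hα).norm ?_ ?_
  · exact (G_mul_integrable hα).aestronglyMeasurable.mul
      ((K_continuous ν).comp (continuous_const.mul continuous_id)).aestronglyMeasurable
  · refine (ae_restrict_mem measurableSet_Ioi).mono (fun t ht => ?_)
    have h := phic2_K_le_one ν (mul_nonneg hs (le_of_lt ht))
    rw [norm_mul]
    refine mul_le_of_le_one_right (norm_nonneg _) ?_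
    rw [Real.norm_eq_abs]
    exact h

/-- integration by parts -/
theorem parts (hα : 1 < α) {s : ℝ} (hs : 0 ≤ s) :
    ∫ t in Ioi (0 : ℝ), t * G α t * K 1 (s * t) * s = ∫ t in Ioi (0 : ℝ), gd α t * K 0 (s * t) := by
  have hα0 : 0 < α := by linarith
  have hder : ∀ t ∈ Ioi (0 : ℝ), HasDerivAt (fun t => t * G α t * K 0 (s * t))
      (gd α t * K 0 (s * t) - t * G α t * K 1 (s * t) * s) t := by
    intro t ht
    have h1 : HasDerivAt (fun t => s * t) s t := by
      simpa using (hasDerivAt_id t).const_mul s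
    have h2 : HasDerivAt (fun t => K 0 (s * t)) (-(K 1 (s * t)) * s) t :=
      (K_hasDerivAt 0 (s * t)).comp t h1
    refine ((tG_hasDerivAt hα ht).mul h2).congr_deriv ?_
    ring
  have hcont : ContinuousWithinAt (fun t => t * G α t * K 0 (s * t)) (Ici 0) 0 := by
    have h1 : ContinuousWithinAt (G α) (Ici 0) 0 := G_continuousOn hα 0 self_mem_Ici
    have h2 : Continuous (fun t => K 0 (s * t)) :=
      (K_continuous 0).comp (continuous_const.mul continuous_id)
    exact (continuousWithinAt_id.mul h1).mul h2.continuousWithinAt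
  have hI1 := gdK_integrable hα hs
  have hI2 := (tGK_integrable hα 1 hs).mul_const s
  have hlim := tendsto_zero_of_hasDerivAt_of_integrableOn_Ioi hder (hI1.sub hI2)
    (tGK_integrable hα 0 hs)
  have key := integral_Ioi_of_hasDerivAt_of_tendsto hcont hder (hI1.sub hI2) hlim
  rw [integral_sub hI1 hI2] at key
  simp only [zero_mul, sub_zero] at key
  linarith

/-- the maximum point of `t G α t` -/
noncomputable def tst (α : ℝ) : ℝ := (1 + 1 / α) ^ (1 / α) / mu α

theorem tst_pos (hα : 1 < α) : 0 < tst α := by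
  have := mu_pos (α := α) (by linarith)
  unfold tst
  positivity

theorem gd_nonneg (hα : 1 < α) {t : ℝ} (ht : 0 < t) (h : t ≤ tst α) : 0 ≤ gd α t := by
  have hα0 : 0 < α := by linarith
  have hmu := mu_pos hα0
  have hD := DD_pos hα0
  have h1 : (mu α * t) ^ α ≤ 1 + 1 / α := by
    have h2 : mu α * t ≤ (1 + 1 / α) ^ (1 / α) := by
      unfold tst at h
      rw [le_div_iff₀ hmu] at h
      linarith
    have h3 := rpow_le_rpow (by positivity) h2 hα0.le
    rwa [← rpow_mul (by positivity), one_div_mul_cancel hα0.ne', rpow_one] at h3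
  have h2 : 0 ≤ (1 + 1 / α) - (mu α * t) ^ α := by linarith
  unfold gd
  positivity

theorem gd_nonpos (hα : 1 < α) {t : ℝ} (h : tst α ≤ t) : gd α t ≤ 0 := by
  have hα0 : 0 < α := by linarith
  have hmu := mu_pos hα0
  have hD := DD_pos hα0
  have ht : 0 < t := (tst_pos hα).trans_le h
  have h1 : 1 + 1 / α ≤ (mu α * t) ^ α := by
    have h2 : (1 + 1 / α) ^ (1 / α) ≤ mu α * t := by
      unfold tst at h
      rw [div_le_iff₀ hmu] at h
      linarith
    have h3 := rpow_le_rpow (by positivity) h2 hα0.le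
    rwa [← rpow_mul (by positivity), one_div_mul_cancel hα0.ne', rpow_one] at h3
  have h2 : 0 ≤ (mu α * t) ^ α - (1 + 1 / α) := by linarith
  have h3 : 0 ≤ (DD α)⁻¹ * (α ^ 2 * (mu α * t) ^ α * ((mu α * t) ^ α - (1 + 1 / α)) *
    exp (-(mu α * t) ^ α)) := by positivity
  unfold gd
  nlinarith

theorem gd_int_left (hα : 1 < α) : ∫ t in (0 : ℝ)..tst α, gd α t = tst α * G α (tst α) := by
  have h1 := intervalIntegral.integral_eq_sub_of_hasDerivAt_of_le (a := 0) (b := tst α)
    (f := fun t => t * G α t) (f' := gd α) (tst_pos hα).le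
    (continuousOn_id.mul ((G_continuousOn hα).mono Icc_subset_Ici_self))
    (fun t ht => tG_hasDerivAt hα ht.1)
    ((intervalIntegrable_iff_integrableOn_Ioc_of_le (tst_pos hα).le).2
      ((gd_integrable hα).mono_set Ioc_subset_Ioi_self))
  rw [h1, zero_mul, sub_zero]

theorem gd_int_right (hα : 1 < α) : ∫ t in Ioi (tst α), gd α t = -(tst α * G α (tst α)) := by
  have hder : ∀ t ∈ Ioi (0 : ℝ), HasDerivAt (fun t => t * G α t) (gd α t) t := fun t ht =>
    tG_hasDerivAt hα ht
  have hlim := tendsto_zero_of_hasDerivAt_of_integrableOn_Ioi hder (gd_integrable hα)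
    (G_mul_integrable hα)
  have h := integral_Ioi_of_hasDerivAt_of_tendsto (a := tst α)
    (tG_hasDerivAt hα (tst_pos hα)).continuousAt.continuousWithinAt
    (fun t ht => hder t ((tst_pos hα).trans ht))
    ((gd_integrable hα).mono_set (Ioi_subset_Ioi (tst_pos hα).le)) hlim
  rw [h, zero_sub]

/-- the constant `max t G α t` -/
noncomputable def MG (α : ℝ) : ℝ := tst α * G α (tst α)

theorem gdK_le (hα : 1 < α) {s : ℝ} (hs : 0 ≤ s) (h : 3 / 2 ≤ s * tst α) :
    -∫ t in Ioi (0 : ℝ), gd α t * K 0 (s * t) ≤ 0.7035 * MG α := by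
  have hI := gdK_integrable hα hs
  have hT := tst_pos hα
  have hI1 : IntegrableOn (fun t => gd α t * K 0 (s * t)) (Ioc 0 (tst α)) :=
    hI.mono_set Ioc_subset_Ioi_self
  have hI2 : IntegrableOn (fun t => gd α t * K 0 (s * t)) (Ioi (tst α)) :=
    hI.mono_set (Ioi_subset_Ioi hT.le)
  have h1 := intervalIntegral.integral_interval_add_Ioi hI hI2
  have h2 : -(0.403 * MG α) ≤ ∫ t in (0 : ℝ)..tst α, gd α t * K 0 (s * t) := by
    have h3 : ∫ t in (0 : ℝ)..tst α, gd α t * (-0.403) = -(0.403 * MG α) := by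
      rw [intervalIntegral.integral_mul_const, gd_int_left hα, MG]
      ring
    rw [← h3, intervalIntegral.integral_of_le hT.le, intervalIntegral.integral_of_le hT.le]
    refine setIntegral_mono_on (((gd_integrable hα).mono_set Ioc_subset_Ioi_self).mul_const _)
      hI1 measurableSet_Ioc fun t ht => ?_
    exact mul_le_mul_of_nonneg_left (K0_ge_all (mul_nonneg hs ht.1.le)) (gd_nonneg hα ht.1 ht.2)
  have h3 : -(0.3005 * MG α) ≤ ∫ t in Ioi (tst α), gd α t * K 0 (s * t) := by
    have h4 : ∫ t in Ioi (tst α), gd α t * 0.3005 = -(0.3005 * MG α) := by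
      rw [integral_mul_const, gd_int_right hα, MG]
      ring
    rw [← h4]
    refine setIntegral_mono_on (((gd_integrable hα).mono_set (Ioi_subset_Ioi hT.le)).mul_const _)
      hI2 measurableSet_Ioi fun t ht => ?_
    have ht' : tst α < t := ht
    exact mul_le_mul_of_nonpos_left (K0_le_far (h.trans (mul_le_mul_of_nonneg_left ht'.le hs)))
      (gd_nonpos hα ht'.le)
  linarith

theorem s2Phi2_le (hα : 1 < α) {s : ℝ} (hs : 0 < s) (h : 3 / 2 ≤ s * tst α) :
    s ^ 2 * Phi2 α s ≤ 1 + 0.7035 * MG α := by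
  have e : s ^ 2 * Phi2 α s = 2 * (∫ t in Ioi (0 : ℝ), G α t * (s * t * K 2 (s * t))) -
      ∫ t in Ioi (0 : ℝ), t * G α t * K 1 (s * t) * s := by
    rw [Phi2_eq_G hα hs, ← integral_const_mul, ← integral_const_mul,
      ← integral_sub ((GK2_int hα hs.le).const_mul 2) ((tGK_integrable hα 1 hs.le).mul_const s)]
    refine integral_congr_ae (Eventually.of_forall fun t => ?_)
    simp only
    have h2 := K_rec 1 (s * t)
    norm_num at h2
    have h3 : (s * t) * ((s * t) * K 3 (s * t)) = (s * t) * (2 * K 2 (s * t) - K 1 (s * t)) := by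
      rw [h2]
    linear_combination (G α t) * h3
  have h1 := int_G_mul_le hα (GK2_int hα hs.le) fun t ht => wK2_le (mul_nonneg hs.le ht.le)
  have h2 := gdK_le hα hs.le h
  rw [e, parts hα hs.le]
  linarith

end LpSec.Rid
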