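import Mathlib
import Pool.Agent.Lib.MP_1dbab3_gt.W.RidTailB

/-!
# W/RidTail, part 3: numerical values of `MG` and `tst`
-/

open Real MeasureTheory Set Filter Topology

namespace LpSec.Rid

variable {α : ℝ}

theorem log_up3 {t : ℝ} (ht : 0 ≤ t) : log (1 + t) ≤ t - t ^ 2 / 2 + t ^ 3 / 3 := by
  set f : ℝ → ℝ := fun t => (t - t ^ 2 / 2 + t ^ 3 / 3) - log (1 + t) with hf
  have hd : ∀ s ∈ Set.Ici (0 : ℝ), HasDerivWithinAt f (s ^ 3 / (1 + s)) (Set.Ici 0) s := by
    intro s hs
    have hs' : (0 : ℝ) < 1 + s := by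
      have : (0 : ℝ) ≤ s := hs
      linarith
    have h1 : HasDerivAt (fun t : ℝ => log (1 + t)) (1 / (1 + s)) s := by
      have := ((hasDerivAt_id s).const_add 1).log hs'.ne'
      simpa using this
    have h2 : HasDerivAt (fun t : ℝ => t - t ^ 2 / 2 + t ^ 3 / 3) (1 - s + s ^ 2) s := by
      have h3 := (((hasDerivAt_id s).sub (((hasDerivAt_id s).pow 2).div_const 2)).add
        (((hasDerivAt_id s).pow 3).div_const 3))
      refine h3.congr_deriv ?_
      simp
    refine ((h2.sub h1).congr_deriv ?_).hasDerivWithinAt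
    field_simp
    ring
  have hmono : MonotoneOn f (Set.Ici 0) := by
    refine monotoneOn_of_deriv_nonneg (convex_Ici 0)
      (fun s hs => (hd s hs).continuousWithinAt) ?_ ?_
    · intro s hs
      rw [interior_Ici] at hs
      exact ((hd s (mem_Ici.2 (le_of_lt (mem_Ioi.1 hs)))).hasDerivAt (Ici_mem_nhds hs)).differentiableAt.differentiableWithinAt
    · intro s hs
      rw [interior_Ici] at hs
      rw [((hd s (mem_Ici.2 (le_of_lt (mem_Ioi.1 hs)))).hasDerivAt (Ici_mem_nhds hs)).deriv]
      have : (0 : ℝ) < s := hs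
      positivity
  have h := hmono (mem_Ici.2 (le_refl (0 : ℝ))) (mem_Ici.2 ht) ht
  simp only [hf] at h
  norm_num at h
  linarith

theorem logG_32 : -0.122 ≤ log (Gamma (3 / 2)) := by
  have h1 : Gamma (3 / 2) = √π / 2 := by
    have h := Real.Gamma_add_one (s := 1 / 2) (by norm_num)
    rw [Real.Gamma_one_half_eq] at h
    rw [show (3 / 2 : ℝ) = 1 / 2 + 1 by norm_num, h]
    ring
  have h2 : (1.772 : ℝ) ≤ √π := by
    apply Real.le_sqrt_of_sq_le
    have := Real.pi_gt_d6
    norm_num at *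
    linarith
  have h3 : exp (-0.122) ≤ 0.8859 := by
    refine testfn_exp_neg_le _ _ (by norm_num) (by norm_num) ?_
    simp only [Finset.sum_range_succ, Finset.sum_range_zero, Nat.factorial]
    norm_num
  rw [h1, Real.le_log_iff_exp_le (by positivity)]
  norm_num at *
  linarith

theorem logG_left {u : ℝ} (h0 : 0 ≤ u) (h1 : u ≤ 1 / 2) : -0.244 * (1 - u) ≤ log (Gamma (1 + u)) := by
  have h := Real.convexOn_log_Gamma.2 (show 1 + u ∈ Ioi (0 : ℝ) from by
      simp only [mem_Ioi]; linarith)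
    (show (2 : ℝ) ∈ Ioi (0 : ℝ) from by simp) (show 0 ≤ 1 / (2 * (1 - u)) from by
      have : 0 < 1 - u := by linarith
      positivity)
    (show 0 ≤ (1 - 2 * u) / (2 * (1 - u)) from div_nonneg (by linarith) (by linarith))
    (by
      have : 1 - u ≠ 0 := by linarith
      field_simp
      ring)
  have e : (1 / (2 * (1 - u))) • (1 + u) + ((1 - 2 * u) / (2 * (1 - u))) • (2 : ℝ) = 3 / 2 := by
    have : 1 - u ≠ 0 := by linarith
    simp only [smul_eq_mul]
    field_simp
    ring
  rw [e] at h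
  simp only [Function.comp, smul_eq_mul, Real.Gamma_two, Real.log_one, mul_zero, add_zero] at h
  have h2 := logG_32.trans h
  have h3 : 0 < 2 * (1 - u) := by linarith
  rw [one_div, inv_mul_eq_div, le_div_iff₀ h3] at h2
  linarith

theorem logG_right {u : ℝ} (h0 : 1 / 2 ≤ u) : -0.244 * u ≤ log (Gamma (1 + u)) := by
  have h := Real.convexOn_log_Gamma.2 (show (1 : ℝ) ∈ Ioi (0 : ℝ) from by simp)
    (show 1 + u ∈ Ioi (0 : ℝ) from by simp only [mem_Ioi]; linarith)
    (show 0 ≤ (2 * u - 1) / (2 * u) from div_nonneg (by linarith) (by linarith))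
    (show 0 ≤ 1 / (2 * u) from by positivity)
    (by
      have : u ≠ 0 := by linarith
      field_simp
      ring)
  have e : ((2 * u - 1) / (2 * u)) • (1 : ℝ) + (1 / (2 * u)) • (1 + u) = 3 / 2 := by
    have : u ≠ 0 := by linarith
    simp only [smul_eq_mul]
    field_simp
    ring
  rw [e] at h
  simp only [Function.comp, smul_eq_mul, Real.Gamma_one, Real.log_one, mul_zero, zero_add] at h
  have h2 := logG_32.trans h
  have h3 : 0 < 2 * u := by linarith
  rw [one_div, inv_mul_eq_div, le_div_iff₀ h3] at h2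
  linarith

theorem Gamma_le_one {x : ℝ} (h1 : 1 ≤ x) (h2 : x ≤ 2) : Gamma x ≤ 1 := by
  have h := Real.convexOn_log_Gamma.2 (show (1 : ℝ) ∈ Ioi (0 : ℝ) from by simp)
    (show (2 : ℝ) ∈ Ioi (0 : ℝ) from by simp)
    (show 0 ≤ 2 - x from by linarith) (show 0 ≤ x - 1 from by linarith) (by ring)
  have e : (2 - x) • (1 : ℝ) + (x - 1) • (2 : ℝ) = x := by
    simp only [smul_eq_mul]
    ring
  rw [e] at h
  simp only [Function.comp, smul_eq_mul, Real.Gamma_one, Real.Gamma_two, Real.log_one, mul_zero,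
    add_zero] at h
  exact (Real.log_nonpos_iff (Gamma_pos_of_pos (by linarith)).le).1 h

theorem MG_eq (hα : 1 < α) : MG α * (1 / α * Gamma (1 + 1 / α)) =
    exp ((1 + 1 / α) * log (1 + 1 / α) - (1 + 1 / α)) := by
  have hα0 : 0 < α := by linarith
  have hmu := mu_pos hα0
  have hG : 0 < Gamma (1 + 1 / α) := Gamma_pos_of_pos (by positivity)
  have h1 : mu α * tst α = (1 + 1 / α) ^ (1 / α) := by
    unfold tst
    field_simp
  have h2 : (mu α * tst α) ^ α = 1 + 1 / α := by
    rw [h1, ← rpow_mul (by positivity), one_div_mul_cancel hα0.ne', rpow_one]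
  have h3 : exp ((1 + 1 / α) * log (1 + 1 / α) - (1 + 1 / α)) =
      (1 + 1 / α) * (1 + 1 / α) ^ (1 / α) * exp (-(1 + 1 / α)) := by
    rw [sub_eq_add_neg, exp_add, mul_comm (1 + 1 / α) (log _), ← rpow_def_of_pos (by positivity),
      rpow_add (by positivity), rpow_one]
  unfold MG G
  rw [h2, h3, DD_eq hα0]
  unfold tst
  field_simp

theorem MG_le_of (hα : 1 < α) {c v w : ℝ} (hG : -v ≤ log (Gamma (1 + 1 / α)))
    (h : -1 + (1 / α) ^ 2 / 2 - (1 / α) ^ 3 / 6 + (1 / α) ^ 4 / 3 + v ≤ -w)
    (hw : exp (-w) ≤ c * (1 / α)) : MG α ≤ c := by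
  have hα0 : 0 < α := by linarith
  have hGp : 0 < Gamma (1 + 1 / α) := Gamma_pos_of_pos (by positivity)
  set u : ℝ := 1 / α with hu
  have hu0 : 0 < u := by positivity
  have h1 := MG_eq hα
  rw [← hu] at h1
  have h2 := log_up3 hu0.le
  have h3 : (1 + u) * log (1 + u) ≤ (1 + u) * (u - u ^ 2 / 2 + u ^ 3 / 3) :=
    mul_le_mul_of_nonneg_left h2 (by linarith)
  have h4 : exp (-v) ≤ Gamma (1 + u) := (Real.le_log_iff_exp_le hGp).1 hG
  have h5 : exp ((1 + u) * log (1 + u) - (1 + u)) ≤ exp (-w) * exp (-v) := by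
    rw [← exp_add, exp_le_exp]
    nlinarith
  have h6 : MG α * (u * Gamma (1 + u)) ≤ c * (u * Gamma (1 + u)) := by
    rw [h1]
    calc _ ≤ exp (-w) * exp (-v) := h5
      _ ≤ (c * u) * Gamma (1 + u) := mul_le_mul hw h4 (exp_pos _).le ((exp_pos _).le.trans hw)
      _ = _ := by ring
  exact le_of_mul_le_mul_right h6 (by positivity)

theorem MG_le_B (hα : 1 < α) (h1 : 45 / 100 ≤ 1 / α) (h2 : 1 / α ≤ 81 / 100) : MG α ≤ 1.14 := by
  set u : ℝ := 1 / α with hu
  rcases le_total u (1 / 2) with h | h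
  · refine MG_le_of hα (v := 0.244 * (1 - u)) (w := 0.753) ?_ ?_ ?_
    · have := logG_left (u := u) (by linarith) h
      rw [← hu]
      linarith
    · rw [← hu]
      nlinarith [mul_nonneg (sub_nonneg.2 h1) (sub_nonneg.2 h), sq_nonneg u,
        mul_nonneg (sq_nonneg u) (sub_nonneg.2 h), mul_nonneg (sq_nonneg u) (sub_nonneg.2 h1)]
    · have := testfn_exp_neg_le 0.753 0.48 (by norm_num) (by norm_num) (by
        simp only [Finset.sum_range_succ, Finset.sum_range_zero, Nat.factorial]
        norm_num)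
      rw [← hu]
      linarith
  have hG := logG_right (u := u) h
  rcases le_total u (3 / 5) with h3 | h3
  · refine MG_le_of hα (v := 0.244 * u) (w := 0.666) ?_ ?_ ?_
    · rw [← hu]
      linarith
    · rw [← hu]
      nlinarith [mul_nonneg (sub_nonneg.2 h) (sub_nonneg.2 h3), sq_nonneg u,
        mul_nonneg (sq_nonneg u) (sub_nonneg.2 h3), mul_nonneg (sq_nonneg u) (sub_nonneg.2 h),
        mul_nonneg (sq_nonneg (u ^ 2)) (sub_nonneg.2 h3)]
    · have := testfn_exp_neg_le 0.666 0.57 (by norm_num) (by norm_num) (by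
        simp only [Finset.sum_range_succ, Finset.sum_range_zero, Nat.factorial]
        norm_num)
      rw [← hu]
      linarith
  · refine MG_le_of hα (v := 0.244 * u) (w := 0.419) ?_ ?_ ?_
    · rw [← hu]
      linarith
    · rw [← hu]
      nlinarith [mul_nonneg (sub_nonneg.2 h3) (sub_nonneg.2 h2), sq_nonneg u,
        mul_nonneg (sq_nonneg u) (sub_nonneg.2 h2), mul_nonneg (sq_nonneg u) (sub_nonneg.2 h3)]
    · have := testfn_exp_neg_le 0.419 0.684 (by norm_num) (by norm_num) (by
        simp only [Finset.sum_range_succ, Finset.sum_range_zero, Nat.factorial]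
        norm_num)
      rw [← hu]
      linarith

theorem MG_le_A (hα : 1 < α) (h1 : 29 / 100 ≤ 1 / α) (h2 : 1 / α ≤ 81 / 100) : MG α ≤ 1.6 := by
  set u : ℝ := 1 / α with hu
  rcases le_total u (1 / 2) with h | h
  · rcases le_total u (3 / 10) with h3 | h3
    · refine MG_le_of hα (v := 0.244 * (1 - u)) (w := 0.785) ?_ ?_ ?_
      · have := logG_left (u := u) (by linarith) h
        rw [← hu]
        linarith
      · rw [← hu]
        nlinarith [mul_nonneg (sub_nonneg.2 h1) (sub_nonneg.2 h3), sq_nonneg u,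
          mul_nonneg (sq_nonneg u) (sub_nonneg.2 h3)]
      · have := testfn_exp_neg_le 0.785 0.464 (by norm_num) (by norm_num) (by
          simp only [Finset.sum_range_succ, Finset.sum_range_zero, Nat.factorial]
          norm_num)
        rw [← hu]
        linarith
    · refine MG_le_of hα (v := 0.244 * (1 - u)) (w := 0.753) ?_ ?_ ?_
      · have := logG_left (u := u) (by linarith) h
        rw [← hu]
        linarith
      · rw [← hu]
        nlinarith [mul_nonneg (sub_nonneg.2 h3) (sub_nonneg.2 h), sq_nonneg u,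
          mul_nonneg (sq_nonneg u) (sub_nonneg.2 h), mul_nonneg (sq_nonneg u) (sub_nonneg.2 h3)]
      · have := testfn_exp_neg_le 0.753 0.48 (by norm_num) (by norm_num) (by
          simp only [Finset.sum_range_succ, Finset.sum_range_zero, Nat.factorial]
          norm_num)
        rw [← hu]
        linarith
  · exact (MG_le_B hα (by linarith) h2).trans (by norm_num)

theorem tst_ge (hα : 1 < α) (h1 : 29 / 100 ≤ 1 / α) (h2 : 1 / α ≤ 81 / 100) :
    3 / 2 ≤ tst α := by
  have hα0 : 0 < α := by linarith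
  have hmu := mu_pos hα0
  set u : ℝ := 1 / α with hu
  have hu0 : 0 < u := by positivity
  have e2 : 2 / α = 2 * u := by rw [hu]; ring
  have hG : 0 < Gamma (1 + u) := Gamma_pos_of_pos (by positivity)
  have hG2 : 0 < Gamma (1 + 2 * u) := Gamma_pos_of_pos (by positivity)
  have hT : tst α = (1 + u) ^ u * (2 * Gamma (1 + u)) / Gamma (1 + 2 * u) := by
    unfold tst mu
    rw [e2, ← hu]
    field_simp
  rw [hT, le_div_iff₀ hG2]
  rcases le_total u (1 / 2) with h | h
  · have h3 := Gamma_le_one (x := 1 + 2 * u) (by linarith) (by linarith)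
    have h4 : 1 ≤ (1 + u) ^ u := one_le_rpow (by linarith) hu0.le
    have h5 := (Real.le_log_iff_exp_le hG).1 (logG_left hu0.le h)
    have h6 : 3 / 4 ≤ Gamma (1 + u) := by
      have := Real.add_one_le_exp (-0.244 * (1 - u))
      linarith
    nlinarith
  · have h3 : Gamma (1 + 2 * u) ≤ 2 * u := by
      have h4 := Real.Gamma_add_one (s := 2 * u) (by positivity)
      rw [add_comm 1 (2 * u), h4]
      have h5 := Gamma_le_one (x := 2 * u) (by linarith) (by linarith)
      nlinarith
    have h4 := (Real.le_log_iff_exp_le hG).1 (logG_right h)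
    have h5 : exp (2 * u ^ 2 / (u + 2)) ≤ (1 + u) ^ u := by
      rw [rpow_def_of_pos (by linarith), exp_le_exp]
      have h6 := Real.le_log_one_add_of_nonneg hu0.le
      have h7 := mul_le_mul_of_nonneg_right h6 hu0.le
      have h8 : 2 * u / (u + 2) * u = 2 * u ^ 2 / (u + 2) := by ring
      linarith
    have h6 : 3 / 2 * u ≤ (1 + u) ^ u * Gamma (1 + u) := by
      have h7 : exp (2 * u ^ 2 / (u + 2)) * exp (-0.244 * u) ≤ (1 + u) ^ u * Gamma (1 + u) :=
        mul_le_mul h5 h4 (exp_pos _).le (by positivity)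
      rw [← exp_add] at h7
      refine le_trans ?_ h7
      have h8 := Real.add_one_le_exp (2 * u ^ 2 / (u + 2) + -0.244 * u)
      refine le_trans ?_ h8
      have h9 : 0 < u + 2 := by linarith
      have h10 : 3 / 2 * u + 0.244 * u - 1 ≤ 2 * u ^ 2 / (u + 2) := by
        rw [le_div_iff₀ h9]
        nlinarith
      linarith
    nlinarith

end LpSec.Rid
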