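import Mathlib
import Pool.Agent.Lib.MP_1dbab3_gt.W.RidDef
import Pool.Agent.Lib.MP_1dbab3_gt.W.RidTailC

/-!
# W/RidTail, part 4: Taylor formula, crude bounds, the identity (DD)
-/

open Real MeasureTheory Set Filter Topology

namespace LpSec

variable {α l s : ℝ}

theorem RR_arg_pos (hl0 : 0 ≤ l) (hl1 : l ≤ 1) {t : ℝ} (ht0 : 0 < t) (_ht1 : t < 1) :
    0 < l + (1 - l) * t := by
  rcases lt_or_eq_of_le hl1 with h | h
  · have : 0 < (1 - l) * t := mul_pos (by linarith) ht0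
    linarith
  · rw [h]; norm_num

theorem RR_taylor (hα : 1 < α) (hl0 : 0 ≤ l) (hl1 : l ≤ 1) (hs : 0 ≤ s) :
    Phi α (l * s) = Phi α s + (1 - l) * (s * Phi1 α s) + (1 - l) ^ 2 * RR α l s := by
  rcases eq_or_lt_of_le hs with rfl | hs'
  · simp [RR]
  have hx : Continuous fun t : ℝ => (l + (1 - l) * t) * s := by fun_prop
  have hmaps : ∀ t ∈ Icc (0 : ℝ) 1, (l + (1 - l) * t) * s ∈ Ici (0 : ℝ) := by
    intro t ht
    exact mul_nonneg (add_nonneg hl0 (mul_nonneg (by linarith) ht.1)) hs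
  have hder : ∀ t ∈ Ioo (0 : ℝ) 1, HasDerivAt (fun t => -(t * ((1 - l) * s) *
      Phi1 α ((l + (1 - l) * t) * s)) - Phi α ((l + (1 - l) * t) * s))
      (((1 - l) * s) ^ 2 * (t * Phi2 α ((l + (1 - l) * t) * s))) t := by
    intro t ht
    have hp : 0 < (l + (1 - l) * t) * s := mul_pos (RR_arg_pos hl0 hl1 ht.1 ht.2) hs'
    have h1 : HasDerivAt (fun t : ℝ => (l + (1 - l) * t) * s) ((1 - l) * s) t := by
      have := (((hasDerivAt_id t).const_mul (1 - l)).const_add l).mul_const s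
      simpa using this
    have h2 := (Phi1_hasDerivAt hα hp).comp t h1
    have h3 := (Phi_hasDerivAt hα hp).comp t h1
    have h4 := (((hasDerivAt_id t).mul_const ((1 - l) * s)).mul h2).neg.sub h3
    refine h4.congr_deriv ?_
    simp only [id, Function.comp]
    ring
  have hc1 : ContinuousOn (fun t => Phi1 α ((l + (1 - l) * t) * s)) (Icc 0 1) :=
    (Phi1_continuousOn hα).comp hx.continuousOn hmaps
  have hc0 : ContinuousOn (fun t => Phi α ((l + (1 - l) * t) * s)) (Icc 0 1) :=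
    (Phi_continuousOn hα).comp hx.continuousOn hmaps
  have hc2 : ContinuousOn (fun t => Phi2 α ((l + (1 - l) * t) * s)) (Icc 0 1) :=
    (Phi2_continuousOn hα).comp hx.continuousOn hmaps
  have hI : IntervalIntegrable (fun t => ((1 - l) * s) ^ 2 *
      (t * Phi2 α ((l + (1 - l) * t) * s))) volume 0 1 := by
    refine ContinuousOn.intervalIntegrable ?_
    rw [uIcc_of_le zero_le_one]
    exact continuousOn_const.mul (continuousOn_id.mul hc2)
  have h := intervalIntegral.integral_eq_sub_of_hasDerivAt_of_le (a := 0) (b := 1) zero_le_one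
    (((((continuous_id.mul continuous_const).continuousOn).mul hc1).neg).sub hc0) hder hI
  rw [intervalIntegral.integral_const_mul] at h
  unfold RR
  have e1 : (l + (1 - l) * 1) * s = s := by ring
  have e2 : (l + (1 - l) * 0) * s = l * s := by ring
  simp only [e1, e2, Pi.mul_apply, Pi.neg_apply, Pi.sub_apply, id, zero_mul, one_mul] at h
  linear_combination -h

theorem RR_abs_aux (hα : 1 < α) (hl0 : 0 ≤ l) (hl1 : l ≤ 1) (hs : 0 ≤ s) {c : ℝ}
    (h : ∀ t ∈ Icc (0 : ℝ) 1, |s ^ 2 * (t * Phi2 α ((l + (1 - l) * t) * s))| ≤ c * (2 * t)) :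
    |RR α l s| ≤ c := by
  have hx : Continuous fun t : ℝ => (l + (1 - l) * t) * s := by fun_prop
  have hmaps : ∀ t ∈ Icc (0 : ℝ) 1, (l + (1 - l) * t) * s ∈ Ici (0 : ℝ) := by
    intro t ht
    exact mul_nonneg (add_nonneg hl0 (mul_nonneg (by linarith) ht.1)) hs
  have hc2 : ContinuousOn (fun t => Phi2 α ((l + (1 - l) * t) * s)) (Icc 0 1) :=
    (Phi2_continuousOn hα).comp hx.continuousOn hmaps
  unfold RR
  rw [← intervalIntegral.integral_const_mul]
  have h1 := intervalIntegral.norm_integral_le_of_norm_le (a := (0 : ℝ)) (b := 1) zero_le_one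
    (f := fun t => s ^ 2 * (t * Phi2 α ((l + (1 - l) * t) * s))) (g := fun t => c * (2 * t))
    (μ := volume) (Eventually.of_forall fun t ht => by
      rw [Real.norm_eq_abs]
      exact h t ⟨ht.1.le, ht.2⟩) (Continuous.intervalIntegrable (by fun_prop) _ _)
  rw [Real.norm_eq_abs] at h1
  refine h1.trans (le_of_eq ?_)
  rw [intervalIntegral.integral_const_mul, intervalIntegral.integral_const_mul, integral_id]
  ring

theorem RR_abs_le (hα : 1 < α) (hl0 : 0 ≤ l) (hl1 : l ≤ 1) (hs : 0 ≤ s) :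
    |RR α l s| ≤ s / 2 := by
  unfold RR
  rw [← intervalIntegral.integral_const_mul]
  have h1 := intervalIntegral.norm_integral_le_of_norm_le_const (a := (0 : ℝ)) (b := 1)
    (f := fun t => s ^ 2 * (t * Phi2 α ((l + (1 - l) * t) * s))) (C := s / 2) (by
      intro t ht
      rw [uIoc_of_le zero_le_one] at ht
      have h0 : t ≤ l + (1 - l) * t := by nlinarith [ht.1.le, ht.2]
      have h1 : 0 ≤ (l + (1 - l) * t) * s :=
        mul_nonneg (add_nonneg hl0 (mul_nonneg (by linarith) ht.1.le)) hs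
      have h2 := Rid.sPhi2_abs hα h1
      rw [abs_mul, abs_of_nonneg h1] at h2
      rw [Real.norm_eq_abs, abs_mul, abs_mul, abs_of_nonneg (sq_nonneg s), abs_of_nonneg ht.1.le]
      have h3 : t * s * |Phi2 α ((l + (1 - l) * t) * s)| ≤
          (l + (1 - l) * t) * s * |Phi2 α ((l + (1 - l) * t) * s)| := by
        gcongr
      calc s ^ 2 * (t * |Phi2 α ((l + (1 - l) * t) * s)|)
          = s * (t * s * |Phi2 α ((l + (1 - l) * t) * s)|) := by ring
        _ ≤ s * (1 / 2) := mul_le_mul_of_nonneg_left (h3.trans h2) hs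
        _ = s / 2 := by ring)
  rw [Real.norm_eq_abs] at h1
  simpa using h1

theorem RR_abs_le' (hα : 1 < α) (hl0 : 0 ≤ l) (hl1 : l ≤ 1) (hs : 0 ≤ s) :
    |RR α l s| ≤ s ^ 2 / 2 := by
  refine RR_abs_aux hα hl0 hl1 hs fun t ht => ?_
  have h1 : 0 ≤ (l + (1 - l) * t) * s :=
    mul_nonneg (add_nonneg hl0 (mul_nonneg (by linarith) ht.1)) hs
  have h2 := Phi2_abs_le hα h1
  rw [abs_mul, abs_mul, abs_of_nonneg (sq_nonneg s), abs_of_nonneg ht.1]
  have h3 : s ^ 2 * (t * |Phi2 α ((l + (1 - l) * t) * s)|) ≤ s ^ 2 * (t * 1) := by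
    gcongr
    exact ht.1
  linarith

theorem RR_eq_of_lt (hα : 1 < α) (hl0 : 0 ≤ l) (hl1 : l < 1) (hs : 0 ≤ s) :
    RR α l s = (Phi α (l * s) - Phi α s - (1 - l) * (s * Phi1 α s)) / (1 - l) ^ 2 := by
  have h := RR_taylor hα hl0 hl1.le hs
  have h1 : (1 - l) ^ 2 ≠ 0 := by
    have : 1 - l ≠ 0 := by linarith
    positivity
  rw [eq_div_iff h1]
  linarith

theorem RR_one (α s : ℝ) : RR α 1 s = s ^ 2 * Phi2 α s / 2 := by
  unfold RR
  have e : ∀ t : ℝ, t * Phi2 α ((1 + (1 - 1) * t) * s) = t * Phi2 α s := by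
    intro t
    congr 2
    ring
  simp only [e]
  rw [intervalIntegral.integral_mul_const, integral_id]
  ring

theorem RR_continuousOn (hα : 1 < α) (hl0 : 0 ≤ l) (hl1 : l ≤ 1) :
    ContinuousOn (RR α l) (Ici 0) := by
  rcases lt_or_eq_of_le hl1 with h | rfl
  · have h1 : ContinuousOn (fun s => (Phi α (l * s) - Phi α s - (1 - l) * (s * Phi1 α s)) /
        (1 - l) ^ 2) (Ici 0) := by
      have h2 : ContinuousOn (fun s => Phi α (l * s)) (Ici 0) :=
        (Phi_continuousOn hα).comp (by fun_prop) fun s hs => mul_nonneg hl0 (mem_Ici.1 hs)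
      refine ContinuousOn.div_const ?_ _
      exact (h2.sub (Phi_continuousOn hα)).sub
        (continuousOn_const.mul (continuousOn_id.mul (Phi1_continuousOn hα)))
    exact h1.congr fun s hs => RR_eq_of_lt hα hl0 h (mem_Ici.1 hs)
  · have h1 : ContinuousOn (fun s => s ^ 2 * Phi2 α s / 2) (Ici 0) :=
      ((continuousOn_id.pow 2).mul (Phi2_continuousOn hα)).div_const 2
    exact h1.congr fun s _ => RR_one α s

theorem bdd_mul_integrable (hα : 1 < α) {f : ℝ → ℝ} {C : ℝ} (hf : ContinuousOn f (Ici 0))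
    (hC : ∀ s, 0 < s → |f s| ≤ C) : IntegrableOn (fun s => Phi α s ^ 2 * f s) (Ioi 0) := by
  refine Integrable.mono' ((Phi_sq_integrable hα).mul_const C) ?_ ?_
  · exact ((((Phi_continuousOn hα).pow 2).mul hf).mono Ioi_subset_Ici_self).aestronglyMeasurable
      measurableSet_Ioi
  · refine (ae_restrict_mem measurableSet_Ioi).mono (fun t ht => ?_)
    rw [norm_mul, Real.norm_eq_abs, Real.norm_eq_abs, abs_of_nonneg (sq_nonneg _)]
    exact mul_le_mul_of_nonneg_left (hC t ht) (sq_nonneg _)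

theorem RR_integrable (hα : 1 < α) (hl0 : 0 ≤ l) (hl1 : l < 1) :
    IntegrableOn (fun s => Phi α s ^ 2 * RR α l s) (Ioi 0) := by
  refine bdd_mul_integrable hα (C := 3 / (1 - l) ^ 2) (RR_continuousOn hα hl0 hl1.le)
    fun s hs => ?_
  rw [RR_eq_of_lt hα hl0 hl1 hs.le, abs_div, abs_of_nonneg (sq_nonneg (1 - l))]
  refine div_le_div_of_nonneg_right ?_ (sq_nonneg _)
  have h1 := abs_le.1 (Phi_abs_le_one hα (s := l * s) (mul_nonneg hl0 hs.le))
  have h2 := abs_le.1 (Phi_abs_le_one hα hs.le)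
  have h3 := Rid.sPhi1_le hα hs.le
  have h4 := Rid.sPhi1_ge hα hs.le
  rw [abs_le]
  constructor <;> nlinarith

/-- `∫ (s Φ³)' = 0` -/
theorem int_sPhi1 (hα : 1 < α) :
    ∫ s in Ioi (0 : ℝ), Phi α s ^ 2 * (s * Phi1 α s) = Nf α 1 / 3 := by
  have hI1 : IntegrableOn (fun s => Phi α s ^ 2 * Phi α s) (Ioi 0) :=
    bdd_mul_integrable hα (C := 1) (Phi_continuousOn hα) fun s hs => Phi_abs_le_one hα hs.le
  have hI2 : IntegrableOn (fun s => Phi α s ^ 2 * (s * Phi1 α s)) (Ioi 0) :=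
    bdd_mul_integrable hα (C := 1 / 2) (continuousOn_id.mul (Phi1_continuousOn hα))
      fun s hs => abs_le.2 ⟨by linarith [Rid.sPhi1_ge hα hs.le], Rid.sPhi1_le hα hs.le⟩
  have hder : ∀ s ∈ Ioi (0 : ℝ), HasDerivAt (fun s => s * Phi α s ^ 3)
      (Phi α s ^ 2 * Phi α s - 3 * (Phi α s ^ 2 * (s * Phi1 α s))) s := by
    intro s hs
    have h1 := (Phi_hasDerivAt hα (mem_Ioi.1 hs)).pow 3
    refine ((hasDerivAt_id s).mul h1).congr_deriv ?_
    simp only [id, Pi.pow_apply]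
    norm_num
    ring
  have hlim : Tendsto (fun s => s * Phi α s ^ 3) atTop (𝓝 0) := by
    have h1 : Tendsto (fun s : ℝ => 1 / √s) atTop (𝓝 0) := by
      refine Tendsto.div_atTop tendsto_const_nhds ?_
      exact tendsto_sqrt_atTop
    refine squeeze_zero_norm' ?_ h1
    filter_upwards [eventually_gt_atTop 0] with s hs
    have h2 := Phi_abs_le_sqrt hα hs
    have hsq : 0 < √s := sqrt_pos.2 hs
    rw [norm_mul, norm_pow, Real.norm_eq_abs, Real.norm_eq_abs, abs_of_pos hs]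
    calc s * |Phi α s| ^ 3 ≤ s * (1 / √s) ^ 3 := by gcongr
      _ = 1 / √s := by
        have : s = √s * √s := (mul_self_sqrt hs.le).symm
        nth_rewrite 1 [this]
        field_simp
  have key := integral_Ioi_of_hasDerivAt_of_tendsto
    (f := fun s => s * Phi α s ^ 3)
    (continuousWithinAt_id.mul ((Phi_continuousOn hα 0 self_mem_Ici).pow 3)) hder
    (hI1.sub (hI2.const_mul 3)) hlim
  rw [integral_sub hI1 (hI2.const_mul 3), integral_const_mul] at key
  have e : Nf α 1 = ∫ s in Ioi (0 : ℝ), Phi α s ^ 2 * Phi α s := by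
    unfold Nf
    simp only [one_mul]
  rw [e]
  simp only [zero_mul, sub_zero] at key
  linarith

theorem vv3_eq (α : ℝ) : vv α 3 = 3 * Nf α 1 := by
  have h := J_ridge α (m := 1 / 3) (l := 1) (by norm_num)
  have e : (![1 / 3, 1 / 3, 1 * (1 / 3)] : Fin 3 → ℝ) = fun _ => 1 / ((3 : ℕ) : ℝ) := by
    funext i
    fin_cases i <;> simp
  rw [e] at h
  unfold vv
  rw [h]
  ring

/-- (DD) -/
theorem DD_identity (hα : 1 < α) (hl0 : 0 ≤ l) (hl1 : l < 1) :
    IntegrableOn (fun s => Phi α s ^ 2 * RR α l s) (Ioi 0) ∧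
    vv α 3 - (2 + l) * Nf α l =
      (1 - l) ^ 2 * (Nf α 1 / 3 - (2 + l) * ∫ s in Ioi (0 : ℝ), Phi α s ^ 2 * RR α l s) := by
  have hI0 := RR_integrable hα hl0 hl1
  refine ⟨hI0, ?_⟩
  have hI1 : IntegrableOn (fun s => Phi α s ^ 2 * Phi α s) (Ioi 0) :=
    bdd_mul_integrable hα (C := 1) (Phi_continuousOn hα) fun s hs => Phi_abs_le_one hα hs.le
  have hI2 : IntegrableOn (fun s => Phi α s ^ 2 * (s * Phi1 α s)) (Ioi 0) :=
    bdd_mul_integrable hα (C := 1 / 2) (continuousOn_id.mul (Phi1_continuousOn hα))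
      fun s hs => abs_le.2 ⟨by linarith [Rid.sPhi1_ge hα hs.le], Rid.sPhi1_le hα hs.le⟩
  have h1 : Nf α l = (∫ s in Ioi (0 : ℝ), Phi α s ^ 2 * Phi α s) +
      (1 - l) * (∫ s in Ioi (0 : ℝ), Phi α s ^ 2 * (s * Phi1 α s)) +
      (1 - l) ^ 2 * ∫ s in Ioi (0 : ℝ), Phi α s ^ 2 * RR α l s := by
    have hI3 : IntegrableOn (fun s => Phi α s ^ 2 * Phi α s +
        (1 - l) * (Phi α s ^ 2 * (s * Phi1 α s))) (Ioi 0) := hI1.add (hI2.const_mul _)
    rw [← integral_const_mul, ← integral_const_mul, ← integral_add hI1 (hI2.const_mul _),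
      ← integral_add hI3 (hI0.const_mul _)]
    unfold Nf
    refine setIntegral_congr_fun measurableSet_Ioi fun s hs => ?_
    rw [RR_taylor hα hl0 hl1.le (le_of_lt (mem_Ioi.1 hs))]
    ring
  have e : Nf α 1 = ∫ s in Ioi (0 : ℝ), Phi α s ^ 2 * Phi α s := by
    unfold Nf
    simp only [one_mul]
  rw [← e, int_sPhi1 hα] at h1
  rw [vv3_eq, h1]
  ring

end LpSec
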