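import Mathlib
import Pool.Agent.Lib.MP_1dbab3_gt.W.RidTailD

/-!
# W/RidTail, part 5: the tail bound
-/

open Real MeasureTheory Set Filter Topology

namespace LpSec

variable {α l s : ℝ}

theorem Phi_le_of_exp (h : Lobe α) {x y E : ℝ} (hx : 0 ≤ x) (hyx : y ≤ x) (hE : exp (-y) ≤ E)
    (h91 : 0.091 ≤ E) : Phi α x ≤ E := by
  rcases le_total x (z1 α) with h1 | h1
  · refine (h.le_exp hx h1).trans (le_trans ?_ hE)
    exact exp_le_exp.2 (by linarith)
  rcases le_total x 6 with h2 | h2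
  · exact (h.neg x h1 h2).trans (by linarith)
  · exact (h.far x h2).trans h91

theorem RR_caseA (h : Lobe α) (hl0 : 0 ≤ l) (hl1 : l < 1) {Z a E : ℝ} (ha : 0 ≤ a) (hZ : 0 ≤ Z)
    (hs : Z ≤ s) (hal : a ≤ l) (hE : exp (-(Z * a)) ≤ E) (h91 : 0.091 ≤ E)
    (hfin : (2 + l) * (E + 0.1324 + 0.433 * (1 - l)) ≤ 17 / 4 * (1 - l) ^ 2) :
    (2 + l) * RR α l s ≤ 17 / 4 := by
  have hα := h.one_lt
  have hs0 : 0 ≤ s := hZ.trans hs
  have hp : 0 < (1 - l) ^ 2 := by
    have : 0 < 1 - l := by linarith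
    positivity
  have hZa : Z * a ≤ l * s := by
    calc Z * a ≤ s * a := mul_le_mul_of_nonneg_right hs ha
      _ ≤ s * l := mul_le_mul_of_nonneg_left hal hs0
      _ = l * s := mul_comm _ _
  have h1 := Phi_le_of_exp h (mul_nonneg hl0 hs0) hZa hE h91
  have h2 := Phi_lower hα hs0
  have h3 := Rid.sPhi1_ge hα hs0
  have h4 : Phi α (l * s) - Phi α s - (1 - l) * (s * Phi1 α s) ≤ E + 0.1324 + 0.433 * (1 - l) := by
    nlinarith
  rw [RR_eq_of_lt hα hl0 hl1 hs0, mul_div_assoc', div_le_iff₀ hp]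
  refine le_trans ?_ hfin
  exact mul_le_mul_of_nonneg_left h4 (by linarith)

theorem inv_sq_convex {y a w : ℝ} (ha : 0 < a) (hw0 : 0 ≤ w) (hw1 : w ≤ 1)
    (hy : y = w * a + (1 - w)) : 1 / y ^ 2 ≤ w / a ^ 2 + (1 - w) := by
  have hy0 : 0 < y := by
    rcases eq_or_lt_of_le hw0 with h | h
    · rw [hy, ← h]; norm_num
    · rw [hy]; nlinarith
  have key : ∀ b : ℝ, 0 < b → 1 / y ^ 2 - 2 * (b - y) / y ^ 3 ≤ 1 / b ^ 2 := by
    intro b hb
    rw [div_sub_div _ _ (by positivity) (by positivity), div_le_div_iff₀ (by positivity)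
      (by positivity)]
    nlinarith [mul_nonneg (mul_nonneg hy0.le hy0.le)
      (mul_nonneg (sq_nonneg (y - b)) (by linarith : 0 ≤ y + 2 * b))]
  have h1 := mul_le_mul_of_nonneg_left (key a ha) hw0
  have h2 := mul_le_mul_of_nonneg_left (key 1 one_pos) (sub_nonneg.2 hw1)
  have h3 : w * (1 / y ^ 2 - 2 * (a - y) / y ^ 3) + (1 - w) * (1 / y ^ 2 - 2 * (1 - y) / y ^ 3) =
      1 / y ^ 2 := by
    have : w * a + (1 - w) - y = 0 := by rw [hy]; ring
    have h4 : w * (1 / y ^ 2 - 2 * (a - y) / y ^ 3) + (1 - w) * (1 / y ^ 2 - 2 * (1 - y) / y ^ 3) =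
      1 / y ^ 2 - 2 * (w * a + (1 - w) - y) / y ^ 3 := by ring
    rw [h4, this]
    simp
  have h4 : w * (1 / a ^ 2) = w / a ^ 2 := by ring
  rw [h4] at h1
  rw [one_pow, div_one, mul_one] at h2
  linarith

/-- the integral `∫ t / (l₁ + (1-l₁) t)²` -/
theorem kapRR_int {l₁ : ℝ} (h0 : 0 < l₁) (h1 : l₁ < 1) :
    ∫ t in (0 : ℝ)..1, t / (l₁ + (1 - l₁) * t) ^ 2 = (-log l₁ - (1 - l₁)) / (1 - l₁) ^ 2 := by
  have hy : ∀ t ∈ Icc (0 : ℝ) 1, 0 < l₁ + (1 - l₁) * t := fun t ht => by
    have : 0 ≤ (1 - l₁) * t := mul_nonneg (by linarith) ht.1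
    linarith
  have hne : (1 - l₁) ≠ 0 := by linarith
  have hd : ∀ t ∈ uIcc (0 : ℝ) 1, HasDerivAt (fun t => (log (l₁ + (1 - l₁) * t) +
      l₁ / (l₁ + (1 - l₁) * t)) / (1 - l₁) ^ 2) (t / (l₁ + (1 - l₁) * t) ^ 2) t := by
    intro t ht
    rw [uIcc_of_le zero_le_one] at ht
    have hp := hy t ht
    have h2 : HasDerivAt (fun t : ℝ => l₁ + (1 - l₁) * t) (1 - l₁) t := by
      simpa using ((hasDerivAt_id t).const_mul (1 - l₁)).const_add l₁
    have h3 := (h2.log hp.ne').add ((hasDerivAt_const t l₁).div h2 hp.ne')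
    refine (h3.div_const ((1 - l₁) ^ 2)).congr_deriv ?_
    field_simp
    ring
  have hc : ContinuousOn (fun t : ℝ => t / (l₁ + (1 - l₁) * t) ^ 2) (uIcc 0 1) := by
    rw [uIcc_of_le zero_le_one]
    refine ContinuousOn.div (by fun_prop) (by fun_prop) fun t ht => ?_
    have := hy t ht
    positivity
  rw [intervalIntegral.integral_eq_sub_of_hasDerivAt hd hc.intervalIntegrable]
  have e1 : l₁ + (1 - l₁) * 1 = 1 := by ring
  have e2 : l₁ + (1 - l₁) * 0 = l₁ := by ring
  rw [e1, e2, Real.log_one, div_self h0.ne']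
  ring

theorem RR_caseB (hα : 1 < α) {l₁ B κ : ℝ} (h0 : 0 < l₁) (h1 : l₁ ≤ l) (hl1 : l < 1) (hB : 0 ≤ B)
    (hs : 1 ≤ l₁ * s) (hb : ∀ x, 1 ≤ x → x ^ 2 * Phi2 α x ≤ B)
    (hκ : -log l₁ - (1 - l₁) ≤ κ * (1 - l₁) ^ 2)
    (hfin : (2 + l) * (B * ((1 - l) / (1 - l₁) * κ + (l - l₁) / (1 - l₁) / 2)) ≤ 17 / 4) :
    (2 + l) * RR α l s ≤ 17 / 4 := by
  have hs0 : 0 < s := by
    by_contra hcon
    push Not at hcon
    nlinarith
  have hl0 : 0 < l := by linarith
  have hd1 : 0 < 1 - l₁ := by linarith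
  set w : ℝ := (1 - l) / (1 - l₁) with hw
  have hw0 : 0 ≤ w := div_nonneg (by linarith) hd1.le
  have hw1 : w ≤ 1 := by
    rw [hw, div_le_one hd1]
    linarith
  have hmaps : ∀ t ∈ Icc (0 : ℝ) 1, (l + (1 - l) * t) * s ∈ Ici (0 : ℝ) := by
    intro t ht
    exact mul_nonneg (add_nonneg hl0.le (mul_nonneg (by linarith) ht.1)) hs0.le
  have hc2 : ContinuousOn (fun t => Phi2 α ((l + (1 - l) * t) * s)) (Icc 0 1) :=
    (Phi2_continuousOn hα).comp (by fun_prop) hmaps
  have hy : ∀ t ∈ Icc (0 : ℝ) 1, 0 < l₁ + (1 - l₁) * t := fun t ht => by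
    have : 0 ≤ (1 - l₁) * t := mul_nonneg (by linarith) ht.1
    linarith
  have hcc : ContinuousOn (fun t : ℝ => t / (l₁ + (1 - l₁) * t) ^ 2) (Icc 0 1) := by
    refine ContinuousOn.div (by fun_prop) (by fun_prop) fun t ht => ?_
    have := hy t ht
    positivity
  have hI1 : IntervalIntegrable (fun t : ℝ => t / (l₁ + (1 - l₁) * t) ^ 2) volume 0 1 := by
    refine ContinuousOn.intervalIntegrable ?_
    rwa [uIcc_of_le zero_le_one]
  have hpt : ∀ t ∈ Icc (0 : ℝ) 1, s ^ 2 * (t * Phi2 α ((l + (1 - l) * t) * s)) ≤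
      B * (w * (t / (l₁ + (1 - l₁) * t) ^ 2) + (1 - w) * t) := by
    intro t ht
    have hyt := hy t ht
    have hlt : l ≤ l + (1 - l) * t := by
      have : 0 ≤ (1 - l) * t := mul_nonneg (by linarith) ht.1
      linarith
    have hx1 : 1 ≤ (l + (1 - l) * t) * s := by
      calc 1 ≤ l₁ * s := hs
        _ ≤ (l + (1 - l) * t) * s := mul_le_mul_of_nonneg_right (by linarith) hs0.le
    have h2 := hb _ hx1
    have hyp : 0 < l + (1 - l) * t := by linarith
    have h3 : s ^ 2 * Phi2 α ((l + (1 - l) * t) * s) ≤ B * (1 / (l + (1 - l) * t) ^ 2) := by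
      rw [mul_one_div, le_div_iff₀ (by positivity)]
      calc s ^ 2 * Phi2 α ((l + (1 - l) * t) * s) * (l + (1 - l) * t) ^ 2 =
          ((l + (1 - l) * t) * s) ^ 2 * Phi2 α ((l + (1 - l) * t) * s) := by ring
        _ ≤ B := h2
    have h4 := inv_sq_convex (y := l + (1 - l) * t) (a := l₁ + (1 - l₁) * t) (w := w) hyt hw0 hw1
      (by
        rw [hw]
        field_simp
        ring)
    calc s ^ 2 * (t * Phi2 α ((l + (1 - l) * t) * s)) =
        t * (s ^ 2 * Phi2 α ((l + (1 - l) * t) * s)) := by ring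
      _ ≤ t * (B * (1 / (l + (1 - l) * t) ^ 2)) := mul_le_mul_of_nonneg_left h3 ht.1
      _ ≤ t * (B * (w / (l₁ + (1 - l₁) * t) ^ 2 + (1 - w))) := by
        have := ht.1
        gcongr
      _ = B * (w * (t / (l₁ + (1 - l₁) * t) ^ 2) + (1 - w) * t) := by ring
  have h2 : RR α l s ≤ B * (w * κ + (1 - w) / 2) := by
    unfold RR
    rw [← intervalIntegral.integral_const_mul]
    have h3 := intervalIntegral.integral_mono_on (μ := volume) (a := 0) (b := 1) zero_le_one
      (f := fun t => s ^ 2 * (t * Phi2 α ((l + (1 - l) * t) * s)))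
      (g := fun t => B * (w * (t / (l₁ + (1 - l₁) * t) ^ 2) + (1 - w) * t)) (by
        refine ContinuousOn.intervalIntegrable ?_
        rw [uIcc_of_le zero_le_one]
        exact continuousOn_const.mul (continuousOn_id.mul hc2)) (by
        refine ContinuousOn.intervalIntegrable ?_
        rw [uIcc_of_le zero_le_one]
        exact continuousOn_const.mul ((continuousOn_const.mul hcc).add (by fun_prop))) hpt
    refine h3.trans ?_
    rw [intervalIntegral.integral_const_mul, intervalIntegral.integral_add (hI1.const_mul _)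
      (Continuous.intervalIntegrable (by fun_prop) _ _), intervalIntegral.integral_const_mul,
      intervalIntegral.integral_const_mul, kapRR_int h0 (by linarith), integral_id]
    refine mul_le_mul_of_nonneg_left ?_ hB
    have h5 : (-log l₁ - (1 - l₁)) / (1 - l₁) ^ 2 ≤ κ := by
      rw [div_le_iff₀ (by positivity)]
      exact hκ
    have h6 := mul_le_mul_of_nonneg_left h5 hw0
    linarith
  refine le_trans (mul_le_mul_of_nonneg_left h2 (by linarith)) ?_
  refine le_trans (le_of_eq ?_) hfin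
  have h7 : (1 - w) = (l - l₁) / (1 - l₁) := by
    rw [hw]
    field_simp
    ring
  rw [h7]

theorem exp_neg_le' (a B : ℝ) (ha : 0 ≤ a) (hB : 0 < B)
    (h : B⁻¹ ≤ ∑ i ∈ Finset.range 12, a ^ i / (i.factorial : ℝ)) : exp (-a) ≤ B :=
  testfn_exp_neg_le a B ha hB h

/-- the tail, `Z = 5`, `u ≥ 0.29` -/
theorem RR_tail5' (h : Lobe α) (hu : 29 / 100 ≤ 1 / α) (hu' : 1 / α ≤ 81 / 100)
    (hl0 : 0 ≤ l) (hl1 : l < 1) (hs : 5 ≤ s) : (2 + l) * RR α l s ≤ 17 / 4 := by
  have hα := h.one_lt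
  have e1 : exp (-(5 * (1 / 10))) ≤ 0.6066 := exp_neg_le' _ _ (by norm_num) (by norm_num) (by
    simp only [Finset.sum_range_succ, Finset.sum_range_zero, Nat.factorial]
    norm_num)
  have e2 : exp (-(5 * (1 / 5))) ≤ 0.3679 := exp_neg_le' _ _ (by norm_num) (by norm_num) (by
    simp only [Finset.sum_range_succ, Finset.sum_range_zero, Nat.factorial]
    norm_num)
  have e3 : exp (-(5 * (3 / 10))) ≤ 0.2232 := exp_neg_le' _ _ (by norm_num) (by norm_num) (by
    simp only [Finset.sum_range_succ, Finset.sum_range_zero, Nat.factorial]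
    norm_num)
  have e4 : exp (-(5 * (9 / 25))) ≤ 0.1654 := exp_neg_le' _ _ (by norm_num) (by norm_num) (by
    simp only [Finset.sum_range_succ, Finset.sum_range_zero, Nat.factorial]
    norm_num)
  have e5 : exp (-(5 * (21 / 50))) ≤ 0.1225 := exp_neg_le' _ _ (by norm_num) (by norm_num) (by
    simp only [Finset.sum_range_succ, Finset.sum_range_zero, Nat.factorial]
    norm_num)
  have e6 : exp (-(5 * (9 / 20))) ≤ 0.1055 := exp_neg_le' _ _ (by norm_num) (by norm_num) (by
    simp only [Finset.sum_range_succ, Finset.sum_range_zero, Nat.factorial]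
    norm_num)
  rcases le_total l (1 / 10) with c1 | c1
  · refine RR_caseA h hl0 hl1 (Z := 5) (a := 0) (E := 1) le_rfl (by norm_num) hs hl0
      (by norm_num) (by norm_num) ?_
    nlinarith
  rcases le_total l (1 / 5) with c2 | c2
  · refine RR_caseA h hl0 hl1 (Z := 5) (a := 1 / 10) (by norm_num) (by norm_num) hs c1 e1
      (by norm_num) ?_
    nlinarith
  rcases le_total l (3 / 10) with c3 | c3
  · refine RR_caseA h hl0 hl1 (Z := 5) (a := 1 / 5) (by norm_num) (by norm_num) hs c2 e2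
      (by norm_num) ?_
    nlinarith
  rcases le_total l (9 / 25) with c4 | c4
  · refine RR_caseA h hl0 hl1 (Z := 5) (a := 3 / 10) (by norm_num) (by norm_num) hs c3 e3
      (by norm_num) ?_
    nlinarith
  rcases le_total l (21 / 50) with c5 | c5
  · refine RR_caseA h hl0 hl1 (Z := 5) (a := 9 / 25) (by norm_num) (by norm_num) hs c4 e4
      (by norm_num) ?_
    nlinarith
  rcases le_total l (9 / 20) with c6 | c6
  · refine RR_caseA h hl0 hl1 (Z := 5) (a := 21 / 50) (by norm_num) (by norm_num) hs c5 e5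
      (by norm_num) ?_
    nlinarith
  rcases le_total l (12 / 25) with c7 | c7
  · refine RR_caseA h hl0 hl1 (Z := 5) (a := 9 / 20) (by norm_num) (by norm_num) hs c6 e6
      (by norm_num) ?_
    nlinarith
  -- the range `l ≥ 12/25`
  have hM := Rid.MG_le_A hα hu hu'
  have hT := Rid.tst_ge hα hu hu'
  refine RR_caseB hα (l₁ := 12 / 25) (B := 2.1256) (κ := 0.79444) (by norm_num) c7 hl1
    (by norm_num) (by linarith) (fun x hx => ?_) ?_ ?_
  · have h1 := Rid.s2Phi2_le hα (s := x) (by linarith) (by nlinarith)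
    linarith
  · have h2 : -log (12 / 25 : ℝ) ≤ 0.734815 := by
      have h3 : (12 / 25 : ℝ) = (2 * (25 / 24))⁻¹ := by norm_num
      rw [h3, Real.log_inv, Real.log_mul (by norm_num) (by norm_num)]
      have h4 := Real.log_two_lt_d9
      have h5 := Real.log_le_sub_one_of_pos (show (0 : ℝ) < 25 / 24 by norm_num)
      norm_num at h5
      linarith
    norm_num at *
    linarith
  · have h3 : (2 + l) * (2.1256 * ((1 - l) / (1 - 12 / 25) * 0.79444
        + (l - 12 / 25) / (1 - 12 / 25) / 2))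
        = 2.1256 * (25 / 13) * (1.10888 - 0.03444 * l - 0.29444 * l ^ 2) := by ring
    rw [h3]
    nlinarith [mul_nonneg (sub_nonneg.2 c7) (sub_nonneg.2 c7)]

theorem RR_tail3' (h : Lobe α) (hu : 45 / 100 ≤ 1 / α) (hu' : 1 / α ≤ 81 / 100)
    (hl0 : 0 ≤ l) (hl1 : l < 1) (hs : 3 ≤ s) : (2 + l) * RR α l s ≤ 17 / 4 := by
  have hα := h.one_lt
  have e1 : exp (-(3 * (1 / 10))) ≤ 0.7409 := exp_neg_le' _ _ (by norm_num) (by norm_num) (by
    simp only [Finset.sum_range_succ, Finset.sum_range_zero, Nat.factorial]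
    norm_num)
  have e2 : exp (-(3 * (4 / 25))) ≤ 0.6188 := exp_neg_le' _ _ (by norm_num) (by norm_num) (by
    simp only [Finset.sum_range_succ, Finset.sum_range_zero, Nat.factorial]
    norm_num)
  have e3 : exp (-(3 * (21 / 100))) ≤ 0.5327 := exp_neg_le' _ _ (by norm_num) (by norm_num) (by
    simp only [Finset.sum_range_succ, Finset.sum_range_zero, Nat.factorial]
    norm_num)
  have e4 : exp (-(3 * (1 / 4))) ≤ 0.4724 := exp_neg_le' _ _ (by norm_num) (by norm_num) (by
    simp only [Finset.sum_range_succ, Finset.sum_range_zero, Nat.factorial]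
    norm_num)
  have e5 : exp (-(3 * (7 / 25))) ≤ 0.4318 := exp_neg_le' _ _ (by norm_num) (by norm_num) (by
    simp only [Finset.sum_range_succ, Finset.sum_range_zero, Nat.factorial]
    norm_num)
  have e6 : exp (-(3 * (31 / 100))) ≤ 0.3946 := exp_neg_le' _ _ (by norm_num) (by norm_num) (by
    simp only [Finset.sum_range_succ, Finset.sum_range_zero, Nat.factorial]
    norm_num)
  have e7 : exp (-(3 * (81 / 250))) ≤ 0.3784 := exp_neg_le' _ _ (by norm_num) (by norm_num) (by
    simp only [Finset.sum_range_succ, Finset.sum_range_zero, Nat.factorial]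
    norm_num)
  rcases le_total l (1 / 10) with c1 | c1
  · refine RR_caseA h hl0 hl1 (Z := 3) (a := 0) (E := 1) le_rfl (by norm_num) hs hl0
      (by norm_num) (by norm_num) ?_
    nlinarith
  rcases le_total l (4 / 25) with c2 | c2
  · refine RR_caseA h hl0 hl1 (Z := 3) (a := 1 / 10) (by norm_num) (by norm_num) hs c1 e1
      (by norm_num) ?_
    nlinarith
  rcases le_total l (21 / 100) with c3 | c3
  · refine RR_caseA h hl0 hl1 (Z := 3) (a := 4 / 25) (by norm_num) (by norm_num) hs c2 e2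
      (by norm_num) ?_
    nlinarith
  rcases le_total l (1 / 4) with c4 | c4
  · refine RR_caseA h hl0 hl1 (Z := 3) (a := 21 / 100) (by norm_num) (by norm_num) hs c3 e3
      (by norm_num) ?_
    nlinarith
  rcases le_total l (7 / 25) with c5 | c5
  · refine RR_caseA h hl0 hl1 (Z := 3) (a := 1 / 4) (by norm_num) (by norm_num) hs c4 e4
      (by norm_num) ?_
    nlinarith
  rcases le_total l (31 / 100) with c6 | c6
  · refine RR_caseA h hl0 hl1 (Z := 3) (a := 7 / 25) (by norm_num) (by norm_num) hs c5 e5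
      (by norm_num) ?_
    nlinarith
  rcases le_total l (81 / 250) with c7 | c7
  · refine RR_caseA h hl0 hl1 (Z := 3) (a := 31 / 100) (by norm_num) (by norm_num) hs c6 e6
      (by norm_num) ?_
    nlinarith
  rcases le_total l (1 / 3) with c8 | c8
  · refine RR_caseA h hl0 hl1 (Z := 3) (a := 81 / 250) (by norm_num) (by norm_num) hs c7 e7
      (by norm_num) ?_
    nlinarith
  have hM := Rid.MG_le_B hα hu hu'
  have hT := Rid.tst_ge hα (by linarith) hu'
  refine RR_caseB hα (l₁ := 1 / 3) (B := 1.802) (κ := 0.975) (by norm_num) c8 hl1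
    (by norm_num) (by linarith) (fun x hx => ?_) ?_ ?_
  · have h1 := Rid.s2Phi2_le hα (s := x) (by linarith) (by nlinarith)
    linarith
  · have h2 : -log (1 / 3 : ℝ) ≤ 1.1 := by
      rw [one_div, Real.log_inv, neg_neg, Real.log_le_iff_le_exp (by norm_num)]
      have h3 := Real.sum_le_exp_of_nonneg (x := 1.1) (by norm_num) 8
      refine le_trans ?_ h3
      simp only [Finset.sum_range_succ, Finset.sum_range_zero, Nat.factorial]
      norm_num
    norm_num at *
    linarith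
  · have h3 : (2 + l) * (1.802 * ((1 - l) / (1 - 1 / 3) * 0.975
        + (l - 1 / 3) / (1 - 1 / 3) / 2))
        = 1.802 * (3 / 2) * ((2 + l) * (0.975 * (1 - l) + (l - 1 / 3) / 2)) := by ring
    rw [h3]
    nlinarith [mul_nonneg (sub_nonneg.2 c8) (sub_nonneg.2 c8)]

end LpSec
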