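import Mathlib
import Pool.Agent.Lib.MP_1dbab3_gt.W.RidTailE

/-!
# W/RidTail: the tail bounds, in the form used by the ridge
-/

open Real MeasureTheory Set Filter Topology

namespace LpSec

variable {α l s : ℝ}

theorem RR_tail6 (_hα : 1 < α) (h : Lobe α) (hu : 29 / 100 ≤ 1 / α) (hu' : 1 / α ≤ 81 / 100)
    (hl0 : 0 ≤ l) (hl1 : l < 1) (hs : 6 ≤ s) : (2 + l) * RR α l s ≤ 17 / 4 :=
  RR_tail5' h hu hu' hl0 hl1 (by linarith)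

theorem RR_tail5 (_hα : 1 < α) (h : Lobe α) (hu : 38 / 100 ≤ 1 / α) (hu' : 1 / α ≤ 81 / 100)
    (hl0 : 0 ≤ l) (hl1 : l < 1) (hs : 5 ≤ s) : (2 + l) * RR α l s ≤ 17 / 4 :=
  RR_tail5' h (by linarith) hu' hl0 hl1 hs

theorem RR_tail4 (_hα : 1 < α) (h : Lobe α) (hu : 45 / 100 ≤ 1 / α) (hu' : 1 / α ≤ 81 / 100)
    (hl0 : 0 ≤ l) (hl1 : l < 1) (hs : 4 ≤ s) : (2 + l) * RR α l s ≤ 17 / 4 :=
  RR_tail3' h hu hu' hl0 hl1 (by linarith)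

theorem RR_tail3 (_hα : 1 < α) (h : Lobe α) (hu : 60 / 100 ≤ 1 / α) (hu' : 1 / α ≤ 81 / 100)
    (hl0 : 0 ≤ l) (hl1 : l < 1) (hs : 3 ≤ s) : (2 + l) * RR α l s ≤ 17 / 4 :=
  RR_tail3' h (by linarith) hu' hl0 hl1 hs

end LpSec
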