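import Mathlib
import Pool.Agent.Lib.MP_1dbab3_gt.W.RidG
import Pool.Agent.Lib.MP_1dbab3_gt.W.RidTail

/-!
# From the node checks to the ridge inequality on a cell
-/

open Real MeasureTheory Set Filter Topology Finset intervalIntegral

namespace LpSec.Rid

open LpSec.W

variable {α : ℝ} {pA pB e : List ℕ} {th : ℝ} {t0 t1 t2 t3 : List ℕ}

theorem bs_congr {f g : ℕ → ℕ} (h : ∀ c < 4, f c = g c) : bs th f = bs th g :=
  sum_congr rfl fun c hc => by rw [h c (Finset.mem_range.1 hc)]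

theorem YP_V (hA : pA.length = 16) (hB : pB.length = 16) (l s : ℝ) :
    YP pA pB th (wt 1 (fun _ => 0) l) s = PL pA pB th (l * s) := by
  rw [PL_eq hA hB]
  unfold YP
  refine sum_congr rfl fun k _ => ?_
  rw [wt_V, mul_pow]
  ring

theorem pc_zero (hP : PolData α th pA pB e) : pc pA pB th 0 = 1 := by
  unfold pc
  rw [hP.A0, hP.B0]
  push_cast
  ring

theorem YP_F (hP : PolData α th pA pB e) {l : ℝ} (hl : l ≠ 0) (s : ℝ) :
    YP pA pB th (wt 0 dF l) s = (PL pA pB th (l * s) - 1) / l := by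
  rw [PL_eq hP.lenA hP.lenB]
  unfold YP
  rw [sum_range_succ' _ 15, sum_range_succ' _ 15, pc_zero hP]
  simp only [pow_zero, one_mul, mul_one, add_sub_cancel_right]
  have : wt 0 dF l 0 = 0 := by simp [wt]
  rw [this, add_zero, sum_div]
  refine sum_congr rfl fun k _ => ?_
  rw [wt_F, mul_pow, pow_succ l]
  field_simp

theorem wmul_getD : ∀ (p q : List ℕ) (k : ℕ), (wmul p q).getD k 0 = p.getD k 0 * q.getD k 0
  | [], q, k => by simp [wmul]
  | a :: p, [], k => by simp [wmul]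
  | a :: p, b :: q, 0 => by simp [wmul]
  | a :: p, b :: q, k + 1 => by
    have := wmul_getD p q k
    simp only [wmul, List.getD_cons_succ]
    exact this

theorem wmul_length : ∀ (p q : List ℕ), (wmul p q).length = min p.length q.length
  | [], q => by simp [wmul]
  | a :: p, [] => by simp [wmul]
  | a :: p, b :: q => by
    simp only [wmul, List.length_cons, wmul_length p q]
    omega

theorem posE_wD (hE : e.length = 17) (s : ℝ) : posE (wmul wD e) s =
    ∑ k ∈ range 17, ((wD.getD k 0 : ℕ) : ℝ) * ((e.getD k 0 : ℕ) : ℝ) * s ^ k := by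
  rw [posE_sum, wmul_length, hE]
  have : min wD.length 17 = 17 := by decide
  rw [this]
  refine sum_congr rfl fun k _ => ?_
  rw [wmul_getD]
  push_cast
  ring

theorem posE_le_wD (hE : e.length = 17) (e0 : e.getD 0 0 = 0) (e1 : e.getD 1 0 = 0) {s : ℝ}
    (hs : 0 ≤ s) : posE e s ≤ posE (wmul wD e) s := by
  rw [posE_wD hE, posE_sum, hE]
  refine sum_le_sum fun k hk => ?_
  have hk17 := Finset.mem_range.1 hk
  rcases Nat.lt_or_ge k 2 with h2 | h2
  · interval_cases k
    · rw [e0]; simp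
    · rw [e1]; simp
  · have h1 : 1 ≤ wD.getD k 0 := by
      interval_cases k <;> simp [wD]
    have h1' : (1 : ℝ) ≤ ((wD.getD k 0 : ℕ) : ℝ) := by exact_mod_cast h1
    have h3 : (0 : ℝ) ≤ ((e.getD k 0 : ℕ) : ℝ) * s ^ k := by positivity
    nlinarith

theorem wD_ge : ∀ k : ℕ, k < 16 → (k : ℝ) * (k - 1) / 2 ≤ ((wD.getD k 0 : ℕ) : ℝ) := by
  intro k hk
  interval_cases k <;> norm_num [wD]

/-- truncation of the second order remainder in a cell -/
theorem RR_near (hα : 1 < α) (hP : PolData α th pA pB e) {l s : ℝ} (hl0 : 0 ≤ l) (hl1 : l < 1)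
    (hs : 0 ≤ s) (hs6 : s ≤ 6) : |RR α l s - YP pA pB th (wt 0 (fun k => k) l) s| ≤
      posE (wmul wD e) s / 10 ^ 20 := by
  have h1 := RR_trunc hα hl0 hl1 hs hs6 (RR_taylor hα hl0 hl1.le hs)
  have h2 : |∑ k ∈ range 16, (-1) ^ k * rho l k * cf α k * s ^ k -
      YP pA pB th (wt 0 (fun k => k) l) s| ≤
      ∑ k ∈ range 16, ((wD.getD k 0 : ℕ) : ℝ) * ((e.getD k 0 : ℕ) : ℝ) * s ^ k / 10 ^ 20 := by
    unfold YP
    rw [← sum_sub_distrib]
    refine (abs_sum_le_sum_abs _ _).trans (sum_le_sum fun k hk => ?_)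
    have hk16 := Finset.mem_range.1 hk
    have hc := hP.coef k hk16
    have hr0 := rho_nonneg hl0 k
    have hr1 := (rho_le hl0 hl1.le k).trans (wD_ge k hk16)
    have e1 : (-1) ^ k * rho l k * cf α k * s ^ k -
        (-1) ^ k * wt 0 (fun k => k) l k * pc pA pB th k * s ^ k =
        (-1) ^ k * (rho l k * s ^ k) * (cf α k - pc pA pB th k) := by
      rw [wt_D]; ring
    have hsk : 0 ≤ s ^ k := by positivity
    rw [e1, abs_mul, abs_mul, abs_pow, abs_neg, abs_one, one_pow, one_mul,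
      abs_of_nonneg (mul_nonneg hr0 hsk)]
    have hc' : |cf α k - pc pA pB th k| ≤ ((e.getD k 0 : ℕ) : ℝ) / 10 ^ 20 := by
      unfold pc
      norm_num at hc ⊢
      exact hc
    calc rho l k * s ^ k * |cf α k - pc pA pB th k| ≤
        (((wD.getD k 0 : ℕ) : ℝ) * s ^ k) * (((e.getD k 0 : ℕ) : ℝ) / 10 ^ 20) :=
          mul_le_mul (mul_le_mul_of_nonneg_right hr1 hsk) hc' (abs_nonneg _) (by positivity)
      _ = _ := by ring
  have h3 : 200 * (cf α 16 * s ^ 16) ≤
      ((wD.getD 16 0 : ℕ) : ℝ) * ((e.getD 16 0 : ℕ) : ℝ) * s ^ 16 / 10 ^ 20 := by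
    have hc := hP.c16
    have hw : ((wD.getD 16 0 : ℕ) : ℝ) = 130 := by norm_num [wD]
    have he : (0 : ℝ) ≤ ((e.getD 16 0 : ℕ) : ℝ) := Nat.cast_nonneg _
    rw [hw]
    generalize ((e.getD 16 0 : ℕ) : ℝ) = X at hc he ⊢
    have h4 : 200 * cf α 16 ≤ 130 * X / 10 ^ 20 := by
      norm_num at hc ⊢
      linarith
    have hs16 : 0 ≤ s ^ 16 := by positivity
    have := mul_le_mul_of_nonneg_right h4 hs16
    calc 200 * (cf α 16 * s ^ 16) = 200 * cf α 16 * s ^ 16 := by ring
      _ ≤ _ := this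
      _ = _ := by ring
  rw [posE_wD hP.lenE, sum_range_succ _ 16, add_div, sum_div]
  have e1 : RR α l s - YP pA pB th (wt 0 (fun k => k) l) s =
      (RR α l s - ∑ k ∈ range 16, (-1) ^ k * rho l k * cf α k * s ^ k) +
      (∑ k ∈ range 16, (-1) ^ k * rho l k * cf α k * s ^ k -
        YP pA pB th (wt 0 (fun k => k) l) s) := by ring
  rw [e1]
  refine (abs_add_le _ _).trans ?_
  linarith

theorem posE_scale (e0 : e.getD 0 0 = 0) {l s : ℝ} (hl0 : 0 ≤ l) (hl1 : l ≤ 1) (hs : 0 ≤ s) :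
    posE e (l * s) ≤ l * posE e s := by
  rcases e with _ | ⟨a, t⟩
  · simp [posE]
  · have ha : a = 0 := by simpa using e0
    subst ha
    simp only [posE, Nat.cast_zero, zero_add]
    have h1 := posE_mono t (mul_nonneg hl0 hs) (show l * s ≤ s by nlinarith)
    have h2 := mul_le_mul_of_nonneg_left h1 (mul_nonneg hl0 hs)
    linarith

theorem six_of {i n : ℕ} (hi : i < n) (hn : n ≤ 6) : i < 6 ∧ ((i : ℝ) + 1) ≤ 6 := by
  have h : i < 6 := by omega
  refine ⟨h, ?_⟩
  have : ((i + 1 : ℕ) : ℝ) ≤ 6 := by exact_mod_cast (by omega : i + 1 ≤ 6)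
  push_cast at this
  exact this

theorem Phi_cont_Icc (hα : 1 < α) (n : ℕ) : ContinuousOn (Phi α) (Icc 0 (n : ℝ)) :=
  (Phi_continuousOn hα).mono fun _ hs => hs.1

theorem Phi_comp_Icc (hα : 1 < α) {l : ℝ} (hl : 0 ≤ l) (n : ℕ) :
    ContinuousOn (fun s => Phi α (l * s)) (Icc 0 (n : ℝ)) :=
  (Phi_comp_cont hα hl).mono fun _ hs => hs.1

/-- **V on a segment** -/
theorem V_cell (h : Lobe α) (hP : PolData α th pA pB e) (h0 : 0 ≤ th) (h1 : th ≤ 1)
    (hlen : len4 t0 t1 t2 t3) (hlit : litOk 6 pA pB t0 t1 t2 t3 = true) {err : ℕ}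
    (her : erOk (ENf e) HVf (TVf e) 6 err = true) {l0 l1 u0 u1 : ℕ} (hA : ABd α th l0 l1 u0 u1)
    {st r i : ℕ} (hi4 : 4 ≤ i)
    (hsg : sgOk st 1 (fun _ => 0) GV t0 t1 t2 t3
      (pV (sgm i) err (af4 u0 u1 0) (af4 l0 l1 0) (t0.getD 0 0))
      (pV (sgm i) err (af4 u0 u1 1) (af4 l0 l1 1) (t1.getD 0 0))
      (pV (sgm i) err (af4 u0 u1 2) (af4 l0 l1 2) (t2.getD 0 0))
      (pV (sgm i) err (af4 u0 u1 3) (af4 l0 l1 3) (t3.getD 0 0)) r i = true)
    (hr : 0 < r) (h40 : i + r * st ≤ 40) {l : ℝ} (hl : (i : ℝ) / 40 ≤ l)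
    (hl' : l ≤ ((i + r * st : ℕ) : ℝ) / 40) : (2 + l) * Nf α l < AA α := by
  have hα := h.one_lt
  have hl0 : 0 ≤ l := le_trans (by positivity) hl
  have hl1 : l ≤ 1 := hl'.trans (by
    rw [div_le_one (by norm_num)]
    exact_mod_cast h40)
  have hs := sg_sound h0 h1 hlen GV_ok hsg hr h40 hl hl'
  have hnum := V_num h0 h1 hlit hl0 hl1 (σ := sgm i) (err := err) hA (by
    refine le_trans (le_of_eq ?_) (hs.trans (le_of_eq ?_))
    · congr 1
    · congr 1)
  have hσ1 : (sgm i : ℝ) / 10000 ≤ 0.5489 := by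
    have : sgm i ≤ 5489 := by
      unfold sgm
      split_ifs <;> omega
    have : (sgm i : ℝ) ≤ 5489 := by exact_mod_cast this
    rw [div_le_iff₀ (by norm_num)]
    linarith
  have hσ0 : 0 ≤ (sgm i : ℝ) / 10000 := by positivity
  refine red_V hα (σ := (sgm i : ℝ) / 10000) (n := 6) hl0 (fun s hs => ?_) ?_
  · exact sgm_sound h hi4 hl (by exact_mod_cast hs)
  have hcb := core_bound (Φ := Phi α) (Y := fun s => Phi α (l * s)) (n := 6) (th := th)
    (Phi_cont_Icc hα 6) (Phi_comp_Icc hα hl0 6) hP.lenA hP.lenB hP.A0 hP.B0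
    (w := wt 1 (fun _ => 0) l) (μ := 2 + l) (γ := -((2 + l) * ((sgm i : ℝ) / 10000))) (β := 0)
    (fun i => (phN i : ℝ) / 10 ^ 20) (fun i => (ENf e i : ℝ) / 10 ^ 20)
    (fun i => (HVf i : ℝ) / 10 ^ 20) (fun i => (TVf e i : ℝ) / 10 ^ 20) (by
      intro j hj s hs hs1
      obtain ⟨hj6, hj6'⟩ := six_of hj le_rfl
      have hs0 : 0 ≤ s := (Nat.cast_nonneg j).trans hs
      have hls : 0 ≤ l * s := mul_nonneg hl0 hs0
      have hls' : l * s ≤ s := by nlinarith
      have b := EN_bound hP hls hls' hs1 hj6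
      have p1 := abs_le.1 (Phi_abs_le_one hα hls)
      refine ⟨phN_sound h hj6 hs hs1, EN_bound hP hs0 le_rfl hs1 hj6, ?_, ?_⟩
      · have e1 : (2 + l) * Phi α (l * s) + -((2 + l) * ((sgm i : ℝ) / 10000)) + 0 * Phi α s =
            (2 + l) * (Phi α (l * s) - (sgm i : ℝ) / 10000) := by ring
        rw [e1, abs_mul, abs_of_nonneg (by linarith : 0 ≤ 2 + l)]
        have h2 : |Phi α (l * s) - (sgm i : ℝ) / 10000| ≤ 1.5489 := by
          rw [abs_le]; constructor <;> linarith [p1.1, p1.2]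
        calc (2 + l) * |Phi α (l * s) - (sgm i : ℝ) / 10000| ≤ 3 * 1.5489 :=
              mul_le_mul (by linarith) h2 (abs_nonneg _) (by norm_num)
          _ ≤ (HVf j : ℝ) / 10 ^ 20 := by norm_num [HVf]
      · rw [YP_V hP.lenA hP.lenB]
        have e1 : (2 + l) * Phi α (l * s) + -((2 + l) * ((sgm i : ℝ) / 10000)) + 0 * Phi α s -
            ((2 + l) * PL pA pB th (l * s) + -((2 + l) * ((sgm i : ℝ) / 10000)) +
              0 * PL pA pB th s) = (2 + l) * (Phi α (l * s) - PL pA pB th (l * s)) := by ring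
        rw [e1, abs_mul, abs_of_nonneg (by linarith : 0 ≤ 2 + l)]
        calc (2 + l) * |Phi α (l * s) - PL pA pB th (l * s)| ≤ 3 * ((ENf e j : ℝ) / 10 ^ 20) :=
              mul_le_mul (by linarith) b (abs_nonneg _) (by norm_num)
          _ = (TVf e j : ℝ) / 10 ^ 20 := by
              unfold TVf ENf
              rw [Nat.mul_eq]
              push_cast
              ring)
  have her' := erOk_sound her
  exact (hcb.trans (add_le_add le_rfl her')).trans_lt hnum

/-- **F on a segment** -/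
theorem F_cell (h : Lobe α) (hP : PolData α th pA pB e) (he0 : e.getD 0 0 = 0) (h0 : 0 ≤ th)
    (h1 : th ≤ 1)
    (hlen : len4 t0 t1 t2 t3) (hlit : litOk 6 pA pB t0 t1 t2 t3 = true) {err : ℕ}
    (her : erOk (ENf e) HFf (TVf e) 6 err = true) {l0 l1 u0 u1 : ℕ} (hA : ABd α th l0 l1 u0 u1)
    {st r i : ℕ}
    (hsg : sgOk st 0 dF GF t0 t1 t2 t3
      (pF err (af4 u0 u1 0) (af4 l0 l1 0) (t0.getD 0 0))
      (pF err (af4 u0 u1 1) (af4 l0 l1 1) (t1.getD 0 0))
      (pF err (af4 u0 u1 2) (af4 l0 l1 2) (t2.getD 0 0))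
      (pF err (af4 u0 u1 3) (af4 l0 l1 3) (t3.getD 0 0)) r i = true)
    (hr : 0 < r) (h4 : i + r * st ≤ 4) {l : ℝ} (hlpos : 0 < l) (hl : (i : ℝ) / 40 ≤ l)
    (hl' : l ≤ ((i + r * st : ℕ) : ℝ) / 40) : (2 + l) * Nf α l < AA α := by
  have hα := h.one_lt
  have hl0 : 0 ≤ l := hlpos.le
  have hl10 : l ≤ 1 / 10 := hl'.trans (by
    rw [div_le_div_iff₀ (by norm_num) (by norm_num)]
    have : ((i + r * st : ℕ) : ℝ) ≤ 4 := by exact_mod_cast h4
    linarith)
  have hl1 : l ≤ 1 := by linarith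
  have hs := sg_sound h0 h1 hlen GF_ok hsg hr (by omega) hl hl'
  have hnum := F_num h0 h1 hlit hl0 hl1 (err := err) hA (by
    refine le_trans (le_of_eq ?_) (hs.trans (le_of_eq ?_))
    · congr 1
    · congr 1)
  refine red_F hα (τ := 9 / 2) (n := 6) hlpos (fun s hs => ?_) ?_
  · exact tau_sound h hlpos hl10 (by exact_mod_cast hs)
  have hcY : ContinuousOn (fun s => -((1 - Phi α (l * s)) / l)) (Icc 0 ((6 : ℕ) : ℝ)) :=
    ((continuousOn_const.sub (Phi_comp_Icc hα hl0 6)).div_const l).neg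
  have hcb := core_bound (Φ := Phi α) (Y := fun s => -((1 - Phi α (l * s)) / l)) (n := 6) (th := th)
    (Phi_cont_Icc hα 6) hcY hP.lenA hP.lenB hP.A0 hP.B0
    (w := wt 0 dF l) (μ := 2 + l) (γ := (2 + l) * (9 / 2)) (β := 0)
    (fun i => (phN i : ℝ) / 10 ^ 20) (fun i => (ENf e i : ℝ) / 10 ^ 20)
    (fun i => (HFf i : ℝ) / 10 ^ 20) (fun i => (TVf e i : ℝ) / 10 ^ 20) (by
      intro j hj s hs hs1
      obtain ⟨hj6, hj6'⟩ := six_of hj le_rfl
      have hs0 : 0 ≤ s := (Nat.cast_nonneg j).trans hs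
      have hls : 0 ≤ l * s := mul_nonneg hl0 hs0
      have p1 := abs_le.1 (Phi_abs_le_one hα hls)
      have p2 := Phi_ge hα hls
      refine ⟨phN_sound h hj6 hs hs1, EN_bound hP hs0 le_rfl hs1 hj6, ?_, ?_⟩
      · have e1 : (2 + l) * -((1 - Phi α (l * s)) / l) + (2 + l) * (9 / 2) + 0 * Phi α s =
            (2 + l) * (9 / 2 - (1 - Phi α (l * s)) / l) := by ring
        rw [e1, abs_mul, abs_of_nonneg (by linarith : 0 ≤ 2 + l)]
        have q1 : 0 ≤ (1 - Phi α (l * s)) / l := div_nonneg (by linarith [p1.2]) hl0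
        have q2 : (1 - Phi α (l * s)) / l ≤ s := by
          rw [div_le_iff₀ hlpos]
          linarith
        have h2 : |9 / 2 - (1 - Phi α (l * s)) / l| ≤ 9 / 2 := by
          rw [abs_le]; constructor <;> linarith
        calc (2 + l) * |9 / 2 - (1 - Phi α (l * s)) / l| ≤ 2.1 * (9 / 2) :=
              mul_le_mul (by linarith) h2 (abs_nonneg _) (by norm_num)
          _ ≤ (HFf j : ℝ) / 10 ^ 20 := by norm_num [HFf]
      · rw [YP_F hP hlpos.ne']
        have e1 : (2 + l) * -((1 - Phi α (l * s)) / l) + (2 + l) * (9 / 2) + 0 * Phi α s -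
            ((2 + l) * ((PL pA pB th (l * s) - 1) / l) + (2 + l) * (9 / 2) +
              0 * PL pA pB th s) = (2 + l) * ((Phi α (l * s) - PL pA pB th (l * s)) / l) := by
          field_simp
          ring
        have b := PL_near hP hls (show l * s ≤ 6 by nlinarith)
        have b2 := posE_scale he0 hl0 hl1 hs0
        have b3 := posE_mono e hs0 hs1
        have b4 : |(Phi α (l * s) - PL pA pB th (l * s)) / l| ≤ (ENf e j : ℝ) / 10 ^ 20 := by
          rw [abs_div, abs_of_pos hlpos, div_le_iff₀ hlpos]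
          refine b.trans ?_
          unfold ENf
          rw [posN_eq]
          push_cast
          have b5 := mul_le_mul_of_nonneg_left b3 hl0
          rw [div_mul_eq_mul_div]
          refine div_le_div_of_nonneg_right ?_ (by norm_num)
          linarith
        rw [e1, abs_mul, abs_of_nonneg (by linarith : 0 ≤ 2 + l)]
        calc (2 + l) * |(Phi α (l * s) - PL pA pB th (l * s)) / l| ≤
              3 * ((ENf e j : ℝ) / 10 ^ 20) :=
              mul_le_mul (by linarith) b4 (abs_nonneg _) (by norm_num)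
          _ = (TVf e j : ℝ) / 10 ^ 20 := by
              unfold TVf ENf
              rw [Nat.mul_eq]
              push_cast
              ring)
  have her' := erOk_sound her
  exact (hcb.trans (add_le_add le_rfl her')).trans_lt hnum

/-- **DD on a segment** -/
theorem D_cell (h : Lobe α) (hP : PolData α th pA pB e) (he0 : e.getD 0 0 = 0)
    (he1 : e.getD 1 0 = 0) (h0 : 0 ≤ th) (h1 : th ≤ 1) {n : ℕ} (hn : n ≤ 6)
    (hlen : len4 t0 t1 t2 t3) (hlit : litOk n pA pB t0 t1 t2 t3 = true) {err : ℕ}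
    (her : erOk (ENf e) HDf (TDf e) n err = true) {l0 l1 u0 u1 : ℕ} (hA : ABd α th l0 l1 u0 u1)
    {st r i : ℕ}
    (hsg : sgOk st 0 (fun k => k) GD t0 t1 t2 t3
      (pD err (af4 u0 u1 0) t0) (pD err (af4 u0 u1 1) t1)
      (pD err (af4 u0 u1 2) t2) (pD err (af4 u0 u1 3) t3) r i = true)
    (hr : 0 < r) (h40 : i + r * st ≤ 40) {l : ℝ} (hl : (i : ℝ) / 40 ≤ l)
    (hl' : l ≤ ((i + r * st : ℕ) : ℝ) / 40) (hl1 : l < 1)
    (hR : ∀ s, (n : ℝ) ≤ s → (2 + l) * RR α l s ≤ 17 / 4) : (2 + l) * Nf α l < vv α 3 := by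
  have hα := h.one_lt
  have hl0 : 0 ≤ l := le_trans (by positivity) hl
  have hs := sg_sound h0 h1 hlen GD_ok hsg hr h40 hl hl'
  have hnum := D_num h0 h1 hlit hl0 hl1.le (err := err) hA (by
    refine le_trans (le_of_eq ?_) (hs.trans (le_of_eq ?_))
    · congr 1
    · congr 1)
  obtain ⟨hD1, hD2⟩ := DD_identity hα hl0 hl1
  refine red_D hα (C := 4.2942) (n := n) hl0 hl1 hD1 hD2 hR (by norm_num) ?_
  have hcY : ContinuousOn (RR α l) (Icc 0 (n : ℝ)) :=
    (RR_continuousOn hα hl0 hl1.le).mono fun _ hs => hs.1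
  have hcb := core_bound (Φ := Phi α) (Y := RR α l) (n := n) (th := th)
    (Phi_cont_Icc hα n) hcY hP.lenA hP.lenB hP.A0 hP.B0
    (w := wt 0 (fun k => k) l) (μ := 2 + l) (γ := -4.2942) (β := -(1 / 3))
    (fun i => (phN i : ℝ) / 10 ^ 20) (fun i => (ENf e i : ℝ) / 10 ^ 20)
    (fun i => (HDf i : ℝ) / 10 ^ 20) (fun i => (TDf e i : ℝ) / 10 ^ 20) (by
      intro j hj s hs hs1
      obtain ⟨hj6, hj6'⟩ := six_of hj hn
      have hs0 : 0 ≤ s := (Nat.cast_nonneg j).trans hs
      have p1 := abs_le.1 (Phi_abs_le_one hα hs0)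
      have r1 := abs_le.1 (RR_abs_le hα hl0 hl1.le hs0)
      refine ⟨phN_sound h hj6 hs hs1, EN_bound hP hs0 le_rfl hs1 hj6, ?_, ?_⟩
      · have r2 : |(2 + l) * RR α l s| ≤ 3 * (((j : ℝ) + 1) / 2) := by
          rw [abs_mul, abs_of_nonneg (by linarith : 0 ≤ 2 + l)]
          refine mul_le_mul (by linarith) ?_ (abs_nonneg _) (by norm_num)
          exact (RR_abs_le hα hl0 hl1.le hs0).trans (by linarith)
        have r3 := abs_le.1 r2
        have e1 : (HDf j : ℝ) / 10 ^ 20 = 3 * (((j : ℝ) + 1) / 2) + 4.63 := by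
          unfold HDf
          rw [Nat.mul_eq]
          push_cast
          ring
        rw [e1, abs_le]
        constructor <;> linarith [p1.1, p1.2, r3.1, r3.2]
      · have b := RR_near hα hP hl0 hl1 hs0 (show s ≤ 6 by linarith)
        have b2 := PL_near hP hs0 (show s ≤ 6 by linarith)
        have b3 := posE_le_wD hP.lenE he0 he1 hs0
        have b4 := posE_mono (wmul wD e) hs0 hs1
        have b5 : posE (wmul wD e) s / 10 ^ 20 ≤ (posN (wmul wD e) (j + 1) : ℝ) / 10 ^ 20 := by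
          rw [posN_eq]
          push_cast
          exact div_le_div_of_nonneg_right b4 (by norm_num)
        have b6 : |Phi α s - PL pA pB th s| ≤ posE (wmul wD e) s / 10 ^ 20 :=
          b2.trans (div_le_div_of_nonneg_right b3 (by norm_num))
        have e1 : (2 + l) * RR α l s + -4.2942 + -(1 / 3) * Phi α s -
            ((2 + l) * YP pA pB th (wt 0 (fun k => k) l) s + -4.2942 +
              -(1 / 3) * PL pA pB th s) =
            (2 + l) * (RR α l s - YP pA pB th (wt 0 (fun k => k) l) s) -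
              1 / 3 * (Phi α s - PL pA pB th s) := by ring
        rw [e1]
        have c1 : |(2 + l) * (RR α l s - YP pA pB th (wt 0 (fun k => k) l) s)| ≤
            3 * (posE (wmul wD e) s / 10 ^ 20) := by
          rw [abs_mul, abs_of_nonneg (by linarith : 0 ≤ 2 + l)]
          exact mul_le_mul (by linarith) b (abs_nonneg _) (by norm_num)
        have c2 : |1 / 3 * (Phi α s - PL pA pB th s)| ≤ 1 / 3 * (posE (wmul wD e) s / 10 ^ 20) := by
          rw [abs_mul, abs_of_nonneg (by norm_num : (0 : ℝ) ≤ 1 / 3)]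
          exact mul_le_mul_of_nonneg_left b6 (by norm_num)
        have e2 : (TDf e j : ℝ) / 10 ^ 20 = 4 * ((posN (wmul wD e) (j + 1) : ℝ) / 10 ^ 20) := by
          unfold TDf
          rw [Nat.mul_eq]
          push_cast
          ring
        rw [e2]
        have c0 : 0 ≤ posE (wmul wD e) s / 10 ^ 20 := (abs_nonneg _).trans b
        refine (abs_sub _ _).trans ?_
        linarith)
  have her' := erOk_sound her
  exact (hcb.trans (add_le_add le_rfl her')).trans_lt hnum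

end LpSec.Rid
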