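import Mathlib
import Pool.Agent.Lib.MP_1dbab3_gt.W.RidH
import Pool.Agent.Lib.MP_1dbab3_gt.W.DCell

/-!
# The checker of a cell of the ridge
-/

open Real MeasureTheory Set Filter Topology Finset intervalIntegral

namespace LpSec.Rid

open LpSec.W

/-- data of a cell: literals, error constants, segments `(kind, step, number of steps)`;
kind `0`: F, `1`: V, other: DD -/
structure CD where
  t0 : List ℕ
  t1 : List ℕ
  t2 : List ℕ
  t3 : List ℕ
  eV : ℕ
  eF : ℕ
  eD : ℕ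
  sg : List (ℕ × ℕ × ℕ)

instance : Inhabited CD := ⟨⟨[], [], [], [], 0, 0, 0, []⟩⟩

/-- value of the chord of the table of `AA` at `(i + r / q) / 100`, scale `10^14` -/
def baseA (q i r : ℕ) : ℕ := Nat.mul (10000 / q) (Nat.add (Nat.mul (q - r) (ac i))
  (Nat.mul r (ac (i + 1))))

def loA (q i r : ℕ) : ℕ := Nat.sub (baseA q i r) 5000000000
def upA (q i r : ℕ) : ℕ := Nat.add (baseA q i r) 210000000

/-- one segment -/
def segK (n : ℕ) (e : List ℕ) (l0 l1 u0 u1 : ℕ) (d : CD) (b : Bool) (s kind w r : ℕ) : Bool :=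
  match kind with
  | 0 => Bool.and (Bool.and (Nat.beq n 6) (Nat.ble (s + r * w) 4))
      (Bool.and (erOk (ENf e) HFf (TVf e) 6 d.eF)
        (sgOk w 0 dF GF d.t0 d.t1 d.t2 d.t3
          (pF d.eF (af4 u0 u1 0) (af4 l0 l1 0) (d.t0.getD 0 0))
          (pF d.eF (af4 u0 u1 1) (af4 l0 l1 1) (d.t1.getD 0 0))
          (pF d.eF (af4 u0 u1 2) (af4 l0 l1 2) (d.t2.getD 0 0))
          (pF d.eF (af4 u0 u1 3) (af4 l0 l1 3) (d.t3.getD 0 0)) r s))
  | 1 => Bool.and (Bool.and (Nat.beq n 6) (Nat.ble 4 s))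
      (Bool.and (erOk (ENf e) HVf (TVf e) 6 d.eV)
        (sgOk w 1 (fun _ => 0) GV d.t0 d.t1 d.t2 d.t3
          (pV (sgm s) d.eV (af4 u0 u1 0) (af4 l0 l1 0) (d.t0.getD 0 0))
          (pV (sgm s) d.eV (af4 u0 u1 1) (af4 l0 l1 1) (d.t1.getD 0 0))
          (pV (sgm s) d.eV (af4 u0 u1 2) (af4 l0 l1 2) (d.t2.getD 0 0))
          (pV (sgm s) d.eV (af4 u0 u1 3) (af4 l0 l1 3) (d.t3.getD 0 0)) r s))
  | _ => Bool.and (Bool.and (Nat.ble n 6) b)
      (Bool.and (erOk (ENf e) HDf (TDf e) n d.eD)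
        (sgOk w 0 (fun k => k) GD d.t0 d.t1 d.t2 d.t3
          (pD d.eD (af4 u0 u1 0) d.t0) (pD d.eD (af4 u0 u1 1) d.t1)
          (pD d.eD (af4 u0 u1 2) d.t2) (pD d.eD (af4 u0 u1 3) d.t3) r s))

/-- all segments, from the node `s` to the node `40` -/
def segsK (n : ℕ) (e : List ℕ) (l0 l1 u0 u1 : ℕ) (d : CD) (b : Bool) :
    ℕ → List (ℕ × ℕ × ℕ) → Bool
  | s, [] => Nat.beq s 40
  | s, (kind, w, r) :: t => Bool.and (Bool.and (Nat.blt 0 r) (Nat.ble (s + r * w) 40))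
      (Bool.and (segK n e l0 l1 u0 u1 d b s kind w r) (segsK n e l0 l1 u0 u1 d b (s + r * w) t))

/-- the check of a cell `[(i + r / q) / 100, (i + (r + 1) / q) / 100]` -/
def cellK (q i r n : ℕ) (b : Bool) (pA pB e : List ℕ) (d : CD) : Bool :=
  Bool.and (Bool.and (Bool.and (Nat.beq (pA.getD 0 0) 100000000000000000000)
    (Nat.beq (pB.getD 0 0) 100000000000000000000)) (Bool.and (Nat.beq e.length 17)
      (Bool.and (Nat.beq (e.getD 0 0) 0) (Nat.beq (e.getD 1 0) 0))))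
  (Bool.and (Bool.and (Bool.and (Nat.beq d.t0.length 16) (Nat.beq d.t1.length 16))
    (Bool.and (Nat.beq d.t2.length 16) (Nat.beq d.t3.length 16)))
  (Bool.and (litOk n pA pB d.t0 d.t1 d.t2 d.t3)
    (segsK n e (loA q i r) (loA q i (r + 1)) (upA q i r) (upA q i (r + 1)) d b 0 d.sg)))

variable {α : ℝ} {pA pB e : List ℕ} {th : ℝ}

theorem segsK_sound (h : Lobe α) (hP : PolData α th pA pB e) (he0 : e.getD 0 0 = 0)
    (he1 : e.getD 1 0 = 0) (h0 : 0 ≤ th) (h1 : th ≤ 1) {n : ℕ} {d : CD}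
    (hlen : len4 d.t0 d.t1 d.t2 d.t3) (hlit : litOk n pA pB d.t0 d.t1 d.t2 d.t3 = true)
    {l0 l1 u0 u1 : ℕ} (hA : ABd α th l0 l1 u0 u1) {b : Bool}
    (hR : b = true → ∀ l s : ℝ, 0 ≤ l → l < 1 → (n : ℝ) ≤ s → (2 + l) * RR α l s ≤ 17 / 4)
    {l : ℝ} (hlpos : 0 < l) (hl1 : l < 1) : ∀ (L : List (ℕ × ℕ × ℕ)) (s : ℕ),
    segsK n e l0 l1 u0 u1 d b s L = true → (s : ℝ) / 40 ≤ l →
      (2 + l) * Nf α l < max (AA α) (vv α 3)
  | [], s, hs, hsl => by
    have hs' : s = 40 := Nat.eq_of_beq_eq_true hs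
    subst hs'
    norm_num at hsl
    linarith
  | (kind, w, r) :: t, s, hs, hsl => by
    have hs' : Bool.and (Bool.and (Nat.blt 0 r) (Nat.ble (s + r * w) 40))
      (Bool.and (segK n e l0 l1 u0 u1 d b s kind w r)
        (segsK n e l0 l1 u0 u1 d b (s + r * w) t)) = true := hs
    rw [Bool.and_eq_true, Bool.and_eq_true, Bool.and_eq_true] at hs'
    obtain ⟨⟨hr', h40'⟩, hk, hrest⟩ := hs'
    have hr : 0 < r := by simpa using hr'
    have h40 : s + r * w ≤ 40 := Nat.le_of_ble_eq_true h40'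
    rcases le_or_gt l (((s + r * w : ℕ) : ℝ) / 40) with hle | hgt
    · unfold segK at hk
      split at hk
      · rw [Bool.and_eq_true, Bool.and_eq_true, Bool.and_eq_true] at hk
        obtain ⟨⟨hn, h4⟩, her, hsg⟩ := hk
        have hn6 : n = 6 := Nat.eq_of_beq_eq_true hn
        subst hn6
        have h4' : s + r * w ≤ 4 := Nat.le_of_ble_eq_true h4
        exact lt_max_of_lt_left (F_cell h hP he0 h0 h1 hlen hlit her hA hsg hr h4' hlpos hsl hle)
      · rw [Bool.and_eq_true, Bool.and_eq_true, Bool.and_eq_true] at hk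
        obtain ⟨⟨hn, h4⟩, her, hsg⟩ := hk
        have hn6 : n = 6 := Nat.eq_of_beq_eq_true hn
        subst hn6
        have h4' : 4 ≤ s := Nat.le_of_ble_eq_true h4
        exact lt_max_of_lt_left (V_cell h hP h0 h1 hlen hlit her hA h4' hsg hr h40 hsl hle)
      · rw [Bool.and_eq_true, Bool.and_eq_true, Bool.and_eq_true] at hk
        obtain ⟨⟨hn, hb⟩, her, hsg⟩ := hk
        have hn6 : n ≤ 6 := Nat.le_of_ble_eq_true hn
        exact lt_max_of_lt_right (D_cell h hP he0 he1 h0 h1 hn6 hlen hlit her hA hsg hr h40 hsl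
          hle hl1 fun s hs => hR hb l s hlpos.le hl1 hs)
    · exact segsK_sound h hP he0 he1 h0 h1 hlen hlit hA hR hlpos hl1 t (s + r * w) hrest hgt.le

/-- the bounds of `AA` -/
theorem ABd_of {q i r : ℕ} (hq : 0 < q) (hq4 : q ∣ 10000) (hi : i < 100) (hi0 : 0 < i)
    (hr : r < q) (h0 : 0 ≤ th) (h1 : th ≤ 1)
    (hα : α = 1 / (((i : ℝ) + ((r : ℝ) + th) / q) / 100)) :
    ABd α th (loA q i r) (loA q i (r + 1)) (upA q i r) (upA q i (r + 1)) := by
  have hq' : (0 : ℝ) < q := by exact_mod_cast hq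
  have hrq : (r : ℝ) + 1 ≤ q := by exact_mod_cast hr
  have hr0 : (0 : ℝ) ≤ r := Nat.cast_nonneg r
  set l : ℝ := ((r : ℝ) + th) / q with hl
  have hl0 : 0 ≤ l := by positivity
  have hl1 : l ≤ 1 := by
    rw [hl, div_le_one hq']
    linarith
  have hi0' : (0 : ℝ) < i := by exact_mod_cast hi0
  obtain ⟨a1, a2⟩ := AA_cell hi hl0 hl1 (by positivity)
  rw [← hα] at a1 a2
  obtain ⟨m, hm⟩ := hq4
  have hm1 : 10000 / q = m := by rw [hm]; exact Nat.mul_div_cancel_left m hq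
  have hm' : (q : ℝ) * m = 10000 := by exact_mod_cast hm.symm
  have hac1 : (8800000000 : ℕ) ≤ ac i := by
    have := okA_all i (by omega)
    simp only [okA, Bool.and_eq_true, decide_eq_true_eq] at this
    exact this.1.1.1.1.2
  have hac2 : (8800000000 : ℕ) ≤ ac (i + 1) := by
    have := okA_all (i + 1) (by omega)
    simp only [okA, Bool.and_eq_true, decide_eq_true_eq] at this
    exact this.1.1.1.1.2
  have hbase : ∀ r' ≤ q, ((baseA q i r' : ℕ) : ℝ) = m * ((q - r') * ac i + r' * ac (i + 1)) := by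
    intro r' hr'
    unfold baseA
    rw [hm1]
    show ((m * ((q - r') * ac i + r' * ac (i + 1)) : ℕ) : ℝ) = _
    push_cast [Nat.cast_sub hr']
    ring
  have hbig : ∀ r' ≤ q, 5000000000 ≤ baseA q i r' := by
    intro r' hr'
    have h3 := hbase r' hr'
    have h4 : (5000000000 : ℝ) ≤ ((baseA q i r' : ℕ) : ℝ) := by
      rw [h3]
      have c1 : (8800000000 : ℝ) ≤ ac i := by exact_mod_cast hac1
      have c2 : (8800000000 : ℝ) ≤ ac (i + 1) := by exact_mod_cast hac2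
      have c3 : (r' : ℝ) ≤ q := by exact_mod_cast hr'
      have c4 : (0 : ℝ) ≤ r' := Nat.cast_nonneg _
      have c5 : (q : ℝ) * 8800000000 ≤ (q - r') * ac i + r' * ac (i + 1) := by nlinarith
      have c6 : (0 : ℝ) ≤ m := Nat.cast_nonneg _
      calc (5000000000 : ℝ) ≤ (q * m) * 8800000000 := by rw [hm']; norm_num
        _ = m * (q * 8800000000) := by ring
        _ ≤ _ := mul_le_mul_of_nonneg_left c5 c6
    exact_mod_cast h4
  have hlo : ∀ r' ≤ q, ((loA q i r' : ℕ) : ℝ) = m * ((q - r') * ac i + r' * ac (i + 1)) -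
      5000000000 := by
    intro r' hr'
    unfold loA
    rw [← hbase r' hr']
    show ((baseA q i r' - 5000000000 : ℕ) : ℝ) = _
    rw [Nat.cast_sub (hbig r' hr')]
    norm_num
  have hup : ∀ r' ≤ q, ((upA q i r' : ℕ) : ℝ) = m * ((q - r') * ac i + r' * ac (i + 1)) +
      210000000 := by
    intro r' hr'
    unfold upA
    rw [← hbase r' hr']
    show ((baseA q i r' + 210000000 : ℕ) : ℝ) = _
    push_cast
    ring
  have key : (1 - th) * (m * ((q - r) * ac i + r * ac (i + 1))) +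
      th * (m * ((q - (r + 1)) * ac i + (r + 1) * ac (i + 1))) =
      ((1 - l) * ac i + l * ac (i + 1)) * 10 ^ 4 := by
    have e1 : (10 : ℝ) ^ 4 = q * m := by rw [hm']; norm_num
    have e2 : l * q = r + th := by rw [hl]; field_simp
    rw [e1]
    have : ((1 - l) * ac i + l * ac (i + 1)) * (q * m) =
        m * ((q - l * q) * ac i + l * q * ac (i + 1)) := by ring
    rw [this, e2]
    ring
  constructor
  · rw [hlo r hr.le, hlo (r + 1) hr]
    push_cast
    have e3 : (1 - th) * (m * ((q - r) * ac i + r * ac (i + 1)) - 5000000000) +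
        th * (m * ((q - (r + 1)) * ac i + (r + 1) * ac (i + 1)) - 5000000000) =
        ((1 - l) * ac i + l * ac (i + 1)) * 10 ^ 4 - 5000000000 := by
      rw [← key]; ring
    rw [e3]
    calc ((1 - l) * ac i + l * ac (i + 1)) * 10 ^ 4 - 5000000000 =
        (((1 - l) * ac i + l * ac (i + 1)) / 10 ^ 10 - 5 / 10 ^ 5) * 10 ^ 14 := by ring
      _ ≤ AA α * 10 ^ 14 := mul_le_mul_of_nonneg_right a1 (by norm_num)
  · rw [hup r hr.le, hup (r + 1) hr]
    push_cast
    have e3 : (1 - th) * (m * ((q - r) * ac i + r * ac (i + 1)) + 210000000) +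
        th * (m * ((q - (r + 1)) * ac i + (r + 1) * ac (i + 1)) + 210000000) =
        ((1 - l) * ac i + l * ac (i + 1)) * 10 ^ 4 + 210000000 := by
      rw [← key]; ring
    rw [e3]
    calc AA α * 10 ^ 14 ≤ (((1 - l) * ac i + l * ac (i + 1)) / 10 ^ 10 + 2.1 / 10 ^ 6) * 10 ^ 14 :=
          mul_le_mul_of_nonneg_right a2 (by norm_num)
      _ = _ := by ring

/-- **soundness of the check of a cell** -/
theorem cellK_sound (h : Lobe α) {q i r n : ℕ} (hq : 0 < q) (hq4 : q ∣ 10000) (hi : i < 100)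
    (hi0 : 0 < i) (hr : r < q) (h0 : 0 ≤ th) (h1 : th ≤ 1)
    (hα : α = 1 / (((i : ℝ) + ((r : ℝ) + th) / q) / 100)) {b : Bool} {d : CD}
    (hcoef : ∀ k, k < 16 → |mom α k / ((k.factorial : ℝ) * (k.factorial : ℝ)) -
      ((1 - th) * ((pA.getD k 0 : ℕ) : ℝ) + th * ((pB.getD k 0 : ℕ) : ℝ)) /
        100000000000000000000| ≤ ((e.getD k 0 : ℕ) : ℝ) / 100000000000000000000)
    (h16 : mom α 16 / ((Nat.factorial 16 : ℝ) * (Nat.factorial 16 : ℝ)) * (39 / 25) ≤
      ((e.getD 16 0 : ℕ) : ℝ) / 100000000000000000000)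
    (hphi : ∀ s, 0 ≤ s → s ≤ 61 / 10 →
      |Phi α s - ((1 - th) * altE pA s + th * altE pB s) / 100000000000000000000| ≤
        posE e s / 100000000000000000000)
    (hk : cellK q i r n b pA pB e d = true)
    (hR : b = true → ∀ l s : ℝ, 0 ≤ l → l < 1 → (n : ℝ) ≤ s → (2 + l) * RR α l s ≤ 17 / 4)
    {l : ℝ} (hlpos : 0 < l) (hl1 : l < 1) : (2 + l) * Nf α l < max (AA α) (vv α 3) := by
  unfold cellK at hk
  simp only [Bool.and_eq_true] at hk
  obtain ⟨⟨⟨hA0, hB0⟩, hE, he0, he1⟩, ⟨⟨g0, g1⟩, g2, g3⟩, hlit, hseg⟩ := hk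
  have hlit' := hlit
  unfold litOk at hlit'
  simp only [Bool.and_eq_true] at hlit'
  obtain ⟨⟨hA, hB⟩, _⟩ := hlit'
  have hP : PolData α th pA pB e :=
    { lenA := Nat.eq_of_beq_eq_true hA
      lenB := Nat.eq_of_beq_eq_true hB
      lenE := Nat.eq_of_beq_eq_true hE
      A0 := Nat.eq_of_beq_eq_true hA0
      B0 := Nat.eq_of_beq_eq_true hB0
      coef := fun k hk16 => hcoef k hk16
      c16 := by
        unfold cf
        linarith
      phi := hphi }
  have hlen : len4 d.t0 d.t1 d.t2 d.t3 :=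
    ⟨Nat.eq_of_beq_eq_true g0, Nat.eq_of_beq_eq_true g1, Nat.eq_of_beq_eq_true g2,
      Nat.eq_of_beq_eq_true g3⟩
  exact segsK_sound h hP (Nat.eq_of_beq_eq_true he0) (Nat.eq_of_beq_eq_true he1) h0 h1 hlen hlit
    (ABd_of hq hq4 hi hi0 hr h0 h1 hα) hR hlpos hl1 d.sg 0 hseg (by simpa using hlpos.le)

end LpSec.Rid
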