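import Mathlib
import Pool.Agent.Lib.MP_1dbab3_gt.W.RidI

/-!
# Lists of cells of the ridge
-/

open Real MeasureTheory Set Filter Topology Finset intervalIntegral

namespace LpSec.Rid

open LpSec.W

/-- the check of the cells `j, j + 1, …` -/
def rowsK (q n : ℕ) (b : Bool) (pol err : ℕ → List ℕ) : ℕ → List CD → Bool
  | _, [] => true
  | j, d :: t => Bool.and (cellK q (j / q) (j % q) n b (pol j) (pol (j + 1)) (err j) d)
      (rowsK q n b pol err (j + 1) t)

theorem rowsK_get {q n : ℕ} {b : Bool} {pol err : ℕ → List ℕ} : ∀ (ds : List CD) (j0 : ℕ),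
    rowsK q n b pol err j0 ds = true → ∀ j, j0 ≤ j → j < j0 + ds.length →
      ∃ d, cellK q (j / q) (j % q) n b (pol j) (pol (j + 1)) (err j) d = true
  | [], j0, _, j, h1, h2 => by
    simp only [List.length_nil, Nat.add_zero] at h2
    omega
  | d :: t, j0, h, j, h1, h2 => by
    unfold rowsK at h
    rw [Bool.and_eq_true] at h
    rcases Nat.eq_or_lt_of_le h1 with h3 | h3
    · exact ⟨d, h3 ▸ h.1⟩
    · refine rowsK_get t (j0 + 1) h.2 j h3 ?_
      rw [List.length_cons] at h2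
      omega

/-- **the ridge on a union of cells** -/
theorem rows_sound {q n a m : ℕ} {D : ℝ} {b : Bool} {pol err : ℕ → List ℕ} {ds : List CD}
    (hq : 0 < q) (hq4 : q ∣ 10000) (hD : D = 100 * (q : ℝ)) (ha : q ≤ a) (hm : ds.length = m)
    (ham : a + m ≤ 100 * q) (hrows : rowsK q n b pol err a ds = true)
    (hcoef : ∀ i : ℕ, a ≤ i → i < a + m → ∀ l : ℝ, 0 ≤ l → l ≤ 1 →
      (∀ k, k < 16 → |mom (1 / (((i : ℝ) + l) / D)) k / ((k.factorial : ℝ) * (k.factorial : ℝ)) -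
        ((1 - l) * (((pol i).getD k 0 : ℕ) : ℝ) + l * (((pol (i + 1)).getD k 0 : ℕ) : ℝ)) /
          100000000000000000000| ≤ (((err i).getD k 0 : ℕ) : ℝ) / 100000000000000000000) ∧
      mom (1 / (((i : ℝ) + l) / D)) 16 / ((Nat.factorial 16 : ℝ) * (Nat.factorial 16 : ℝ)) *
        (39 / 25) ≤ (((err i).getD 16 0 : ℕ) : ℝ) / 100000000000000000000)
    (hphi : ∀ i : ℕ, a ≤ i → i < a + m → ∀ l : ℝ, 0 ≤ l → l ≤ 1 → ∀ s : ℝ, 0 ≤ s → s ≤ 61 / 10 →
      |Phi (1 / (((i : ℝ) + l) / D)) s -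
        ((1 - l) * altE (pol i) s + l * altE (pol (i + 1)) s) / 100000000000000000000| ≤
        posE (err i) s / 100000000000000000000)
    {α u : ℝ} (hαu : α = 1 / u) (hu : (a : ℝ) / D ≤ u) (hu1 : u < ((a : ℝ) + m) / D)
    (h : Lobe α)
    (hR : b = true → ∀ l s : ℝ, 0 ≤ l → l < 1 → (n : ℝ) ≤ s → (2 + l) * RR α l s ≤ 17 / 4)
    {l : ℝ} (hlpos : 0 < l) (hl1 : l < 1) : (2 + l) * Nf α l < max (AA α) (vv α 3) := by
  have hq' : (0 : ℝ) < q := by exact_mod_cast hq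
  have hD0 : 0 < D := by rw [hD]; positivity
  have hDn : D ≠ 0 := hD0.ne'
  set v := u * D with hv
  have hav : (a : ℝ) ≤ v := by rwa [div_le_iff₀ hD0] at hu
  have hvm : v < (a : ℝ) + m := by rwa [lt_div_iff₀ hD0] at hu1
  have hv0 : 0 ≤ v := (Nat.cast_nonneg a).trans hav
  set j := ⌊v⌋₊ with hj
  have hj1 : (j : ℝ) ≤ v := Nat.floor_le hv0
  have hj2 : v < (j : ℝ) + 1 := Nat.lt_floor_add_one v
  have hja : a ≤ j := Nat.le_floor hav
  have hjm : j < a + m := by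
    rw [hj, Nat.floor_lt hv0]
    push_cast
    exact hvm
  obtain ⟨d, hd⟩ := rowsK_get ds a hrows j hja (by rw [hm]; exact hjm)
  set th := v - j with hth
  have h0 : 0 ≤ th := by rw [hth]; linarith
  have h1 : th ≤ 1 := by rw [hth]; linarith
  have huD : u = ((j : ℝ) + th) / D := by
    rw [hth, hv]
    field_simp
    ring
  have hα : α = 1 / (((j : ℝ) + th) / D) := by rw [hαu, huD]
  have hjq : (j : ℝ) = (q : ℝ) * ((j / q : ℕ) : ℝ) + ((j % q : ℕ) : ℝ) := by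
    exact_mod_cast (Nat.div_add_mod j q).symm
  have hα2 : α = 1 / ((((j / q : ℕ) : ℝ) + (((j % q : ℕ) : ℝ) + th) / q) / 100) := by
    rw [hα]
    congr 1
    rw [hD]
    conv_lhs => rw [hjq]
    field_simp
    ring
  have hi : j / q < 100 := by
    rw [Nat.div_lt_iff_lt_mul hq]
    omega
  have hi0 : 0 < j / q := Nat.div_pos (ha.trans hja) hq
  have hc := hcoef j hja hjm th h0 h1
  have hp := hphi j hja hjm th h0 h1
  rw [← hα] at hc hp
  exact cellK_sound h hq hq4 hi hi0 (Nat.mod_lt _ hq) h0 h1 hα2 hc.1 hc.2 hp hd hR hlpos hl1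

end LpSec.Rid
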