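import Mathlib
import Pool.Agent.Lib.MP_1dbab3_gt.W.RidJ
import Pool.Agent.Lib.MP_1dbab3_gt.W.Seg400

/-!
# Ridge: data of the cells `[i / 400, (i + 1) / 400]`, `136 ≤ i < 138`
-/

set_option maxRecDepth 100000

namespace LpSec.Rid

open LpSec.W

def rdat5 : List CD := [
  ⟨[44735837709161, 22015774294707, 12288204589322, 7452981656106, 3718280665788, 1421617661987,
    424413289543, 102012069338, 20271944884, 3401771221, 490210407, 61493478, 6790610, 666357,
    58582, 4639],
   [44735350662540, 22001109969964, 12267840193681, 7440259488852, 3714662371234, 1421758284976,
    424985695756, 102289945547, 20357144624, 3421410072, 493850923, 62056538, 6865022, 674904,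
    59439, 4743],
   [44734887483472, 21986514148228, 12247530495414, 7427536424846, 3711017212132, 1421877969590,
    425548729470, 102564853806, 20441621883, 3440907305, 497468396, 62616418, 6939055, 683412,
    60292, 4848],
   [44734448171959, 21971986829500, 12227275742181, 7414812925391, 3707345582788, 1421976925371,
    426102469352, 102836816523, 20525381732, 3460263860, 501062973, 63173136, 7012711, 691880,
    61141, 4952],
   0, 304697208540, 461406194727, [(0, 2, 2), (2, 2, 2), (2, 4, 1), (2, 5, 4), (2, 8, 1)]⟩,
  ⟨[44734448171959, 21971986829500, 12227275742181, 7414812925391, 3707345582788, 1421976925371,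
    426102469352, 102836816523, 20525381732, 3460263860, 501062973, 63173136, 7012711, 691880,
    61141, 4952],
   [44734013742263, 21957441483465, 12206993855439, 7402084254788, 3703695778310, 1422102970405,
    426673547375, 103116267152, 20611551098, 3480230525, 504783519, 63751609, 7089572, 700758,
    62052, 5001],
   [44733603249085, 21942964828845, 12186767007518, 7389354925457, 3700019091512, 1422207944613,
    427235150774, 103392703750, 20696983229, 3500051940, 508480303, 64326784, 7166037, 709595,
    62959, 5049],
   [44733216692425, 21928556865641, 12166595447573, 7376625402244, 3696315920661, 1422292060260,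
    427787359509, 103666149180, 20781683322, 3519729076, 512153477, 64898680, 7242110, 718390,
    63862, 5098],
   0, 306773189900, 464835028059, [(0, 1, 2), (2, 1, 1), (2, 2, 2), (2, 4, 2), (2, 5, 5)]⟩]

theorem rdat5_ok : rowsK 4 6 true pol400 err400 136 rdat5 = true := by decide +kernel

theorem rdat5_length : rdat5.length = 2 := by decide +kernel

end LpSec.Rid
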