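import Mathlib
import Pool.Agent.Lib.MP_1dbab3_gt.W.RidD0
import Pool.Agent.Lib.MP_1dbab3_gt.W.RidD1
import Pool.Agent.Lib.MP_1dbab3_gt.W.RidD2
import Pool.Agent.Lib.MP_1dbab3_gt.W.RidD3
import Pool.Agent.Lib.MP_1dbab3_gt.W.RidD4
import Pool.Agent.Lib.MP_1dbab3_gt.W.RidD5
import Pool.Agent.Lib.MP_1dbab3_gt.W.RidD6
import Pool.Agent.Lib.MP_1dbab3_gt.W.RidD7
import Pool.Agent.Lib.MP_1dbab3_gt.W.RidD8
import Pool.Agent.Lib.MP_1dbab3_gt.W.RidD9
import Pool.Agent.Lib.MP_1dbab3_gt.W.RidD10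
import Pool.Agent.Lib.MP_1dbab3_gt.W.RidTail
import Pool.Agent.Lib.MP_1dbab3_gt.W.LobeAll
import Pool.Agent.Lib.MP_1dbab3_gt.WAvg.C4

/-!
# The ridge and dimension three for `26/100 ≤ 1/α ≤ 70/100`
-/

open Real MeasureTheory Set Filter Topology Finset intervalIntegral

namespace LpSec

open LpSec.W LpSec.Rid

variable {α : ℝ}

private theorem rreg0 (h : Lobe α) (hu : 104 / 400 ≤ 1 / α) (hu1 : 1 / α < 112 / 400) {l : ℝ}
    (hl0 : 0 < l) (hl1 : l < 1) : (2 + l) * Nf α l < max (AA α) (vv α 3) :=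
  rows_sound (D := 400) (by norm_num) (by norm_num) (by norm_num) (by norm_num) rdat0_length
    (by norm_num) rdat0_ok
    (fun i h1 h2 l hl hl1 => coef_cell400 (i := i) (by omega) (by omega) hl hl1)
    (fun i h1 h2 l hl hl1 s hs hs6 => Phi_cell400 (i := i) (by omega) (by omega) hl hl1 hs hs6)
    (one_div_one_div α).symm (by norm_num at hu ⊢; linarith) (by norm_num at hu1 ⊢; linarith) h
    (fun hb => absurd hb (by decide)) hl0 hl1

private theorem rreg1 (h : Lobe α) (hu : 224 / 800 ≤ 1 / α) (hu1 : 1 / α < 232 / 800) {l : ℝ}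
    (hl0 : 0 < l) (hl1 : l < 1) : (2 + l) * Nf α l < max (AA α) (vv α 3) :=
  rows_sound (D := 800) (by norm_num) (by norm_num) (by norm_num) (by norm_num) rdat1_length
    (by norm_num) rdat1_ok
    (fun i h1 h2 l hl hl1 => coef_cell800 (i := i) (by omega) (by omega) hl hl1)
    (fun i h1 h2 l hl hl1 s hs hs6 => Phi_cell800 (i := i) (by omega) (by omega) hl hl1 hs hs6)
    (one_div_one_div α).symm (by norm_num at hu ⊢; linarith) (by norm_num at hu1 ⊢; linarith) h
    (fun hb => absurd hb (by decide)) hl0 hl1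

private theorem rreg2 (h : Lobe α) (hu : 232 / 800 ≤ 1 / α) (hu1 : 1 / α < 248 / 800) {l : ℝ}
    (hl0 : 0 < l) (hl1 : l < 1) : (2 + l) * Nf α l < max (AA α) (vv α 3) :=
  rows_sound (D := 800) (by norm_num) (by norm_num) (by norm_num) (by norm_num) rdat2_length
    (by norm_num) rdat2_ok
    (fun i h1 h2 l hl hl1 => coef_cell800 (i := i) (by omega) (by omega) hl hl1)
    (fun i h1 h2 l hl hl1 s hs hs6 => Phi_cell800 (i := i) (by omega) (by omega) hl hl1 hs hs6)
    (one_div_one_div α).symm (by norm_num at hu ⊢; linarith) (by norm_num at hu1 ⊢; linarith) h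
    (fun _ l s h0 h1 hs => RR_tail5' h (by linarith) (by linarith) h0 h1 (by norm_num at hs; linarith))
    hl0 hl1

private theorem rreg3 (h : Lobe α) (hu : 248 / 800 ≤ 1 / α) (hu1 : 1 / α < 264 / 800) {l : ℝ}
    (hl0 : 0 < l) (hl1 : l < 1) : (2 + l) * Nf α l < max (AA α) (vv α 3) :=
  rows_sound (D := 800) (by norm_num) (by norm_num) (by norm_num) (by norm_num) rdat3_length
    (by norm_num) rdat3_ok
    (fun i h1 h2 l hl hl1 => coef_cell800 (i := i) (by omega) (by omega) hl hl1)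
    (fun i h1 h2 l hl hl1 s hs hs6 => Phi_cell800 (i := i) (by omega) (by omega) hl hl1 hs hs6)
    (one_div_one_div α).symm (by norm_num at hu ⊢; linarith) (by norm_num at hu1 ⊢; linarith) h
    (fun _ l s h0 h1 hs => RR_tail5' h (by linarith) (by linarith) h0 h1 (by norm_num at hs; linarith))
    hl0 hl1

private theorem rreg4 (h : Lobe α) (hu : 264 / 800 ≤ 1 / α) (hu1 : 1 / α < 272 / 800) {l : ℝ}
    (hl0 : 0 < l) (hl1 : l < 1) : (2 + l) * Nf α l < max (AA α) (vv α 3) :=
  rows_sound (D := 800) (by norm_num) (by norm_num) (by norm_num) (by norm_num) rdat4_length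
    (by norm_num) rdat4_ok
    (fun i h1 h2 l hl hl1 => coef_cell800 (i := i) (by omega) (by omega) hl hl1)
    (fun i h1 h2 l hl hl1 s hs hs6 => Phi_cell800 (i := i) (by omega) (by omega) hl hl1 hs hs6)
    (one_div_one_div α).symm (by norm_num at hu ⊢; linarith) (by norm_num at hu1 ⊢; linarith) h
    (fun _ l s h0 h1 hs => RR_tail5' h (by linarith) (by linarith) h0 h1 (by norm_num at hs; linarith))
    hl0 hl1

private theorem rreg5 (h : Lobe α) (hu : 136 / 400 ≤ 1 / α) (hu1 : 1 / α < 138 / 400) {l : ℝ}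
    (hl0 : 0 < l) (hl1 : l < 1) : (2 + l) * Nf α l < max (AA α) (vv α 3) :=
  rows_sound (D := 400) (by norm_num) (by norm_num) (by norm_num) (by norm_num) rdat5_length
    (by norm_num) rdat5_ok
    (fun i h1 h2 l hl hl1 => coef_cell400 (i := i) (by omega) (by omega) hl hl1)
    (fun i h1 h2 l hl hl1 s hs hs6 => Phi_cell400 (i := i) (by omega) (by omega) hl hl1 hs hs6)
    (one_div_one_div α).symm (by norm_num at hu ⊢; linarith) (by norm_num at hu1 ⊢; linarith) h
    (fun _ l s h0 h1 hs => RR_tail5' h (by linarith) (by linarith) h0 h1 (by norm_num at hs; linarith))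
    hl0 hl1

private theorem rreg6 (h : Lobe α) (hu : 138 / 400 ≤ 1 / α) (hu1 : 1 / α < 152 / 400) {l : ℝ}
    (hl0 : 0 < l) (hl1 : l < 1) : (2 + l) * Nf α l < max (AA α) (vv α 3) :=
  rows_sound (D := 400) (by norm_num) (by norm_num) (by norm_num) (by norm_num) rdat6_length
    (by norm_num) rdat6_ok
    (fun i h1 h2 l hl hl1 => coef_cell400 (i := i) (by omega) (by omega) hl hl1)
    (fun i h1 h2 l hl hl1 s hs hs6 => Phi_cell400 (i := i) (by omega) (by omega) hl hl1 hs hs6)
    (one_div_one_div α).symm (by norm_num at hu ⊢; linarith) (by norm_num at hu1 ⊢; linarith) h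
    (fun _ l s h0 h1 hs => RR_tail5' h (by linarith) (by linarith) h0 h1 (by exact_mod_cast hs))
    hl0 hl1

private theorem rreg7 (h : Lobe α) (hu : 76 / 200 ≤ 1 / α) (hu1 : 1 / α < 90 / 200) {l : ℝ}
    (hl0 : 0 < l) (hl1 : l < 1) : (2 + l) * Nf α l < max (AA α) (vv α 3) :=
  rows_sound (D := 200) (by norm_num) (by norm_num) (by norm_num) (by norm_num) rdat7_length
    (by norm_num) rdat7_ok
    (fun i h1 h2 l hl hl1 => coef_cell200 (i := i) (by omega) (by omega) hl hl1)
    (fun i h1 h2 l hl hl1 s hs hs6 => Phi_cell200 (i := i) (by omega) (by omega) hl hl1 hs hs6)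
    (one_div_one_div α).symm (by norm_num at hu ⊢; linarith) (by norm_num at hu1 ⊢; linarith) h
    (fun _ l s h0 h1 hs => RR_tail5' h (by linarith) (by linarith) h0 h1 (by exact_mod_cast hs))
    hl0 hl1

private theorem rreg8 (h : Lobe α) (hu : 90 / 200 ≤ 1 / α) (hu1 : 1 / α < 106 / 200) {l : ℝ}
    (hl0 : 0 < l) (hl1 : l < 1) : (2 + l) * Nf α l < max (AA α) (vv α 3) :=
  rows_sound (D := 200) (by norm_num) (by norm_num) (by norm_num) (by norm_num) rdat8_length
    (by norm_num) rdat8_ok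
    (fun i h1 h2 l hl hl1 => coef_cell200 (i := i) (by omega) (by omega) hl hl1)
    (fun i h1 h2 l hl hl1 s hs hs6 => Phi_cell200 (i := i) (by omega) (by omega) hl hl1 hs hs6)
    (one_div_one_div α).symm (by norm_num at hu ⊢; linarith) (by norm_num at hu1 ⊢; linarith) h
    (fun _ l s h0 h1 hs => RR_tail3' h (by linarith) (by linarith) h0 h1 (by norm_num at hs; linarith))
    hl0 hl1

private theorem rreg9 (h : Lobe α) (hu : 106 / 200 ≤ 1 / α) (hu1 : 1 / α < 122 / 200) {l : ℝ}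
    (hl0 : 0 < l) (hl1 : l < 1) : (2 + l) * Nf α l < max (AA α) (vv α 3) :=
  rows_sound (D := 200) (by norm_num) (by norm_num) (by norm_num) (by norm_num) rdat9_length
    (by norm_num) rdat9_ok
    (fun i h1 h2 l hl hl1 => coef_cell200 (i := i) (by omega) (by omega) hl hl1)
    (fun i h1 h2 l hl hl1 s hs hs6 => Phi_cell200 (i := i) (by omega) (by omega) hl hl1 hs hs6)
    (one_div_one_div α).symm (by norm_num at hu ⊢; linarith) (by norm_num at hu1 ⊢; linarith) h
    (fun _ l s h0 h1 hs => RR_tail3' h (by linarith) (by linarith) h0 h1 (by norm_num at hs; linarith))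
    hl0 hl1

private theorem rreg10 (h : Lobe α) (hu : 122 / 200 ≤ 1 / α) (hu1 : 1 / α < 141 / 200) {l : ℝ}
    (hl0 : 0 < l) (hl1 : l < 1) : (2 + l) * Nf α l < max (AA α) (vv α 3) :=
  rows_sound (D := 200) (by norm_num) (by norm_num) (by norm_num) (by norm_num) rdat10_length
    (by norm_num) rdat10_ok
    (fun i h1 h2 l hl hl1 => coef_cell200 (i := i) (by omega) (by omega) hl hl1)
    (fun i h1 h2 l hl hl1 s hs hs6 => Phi_cell200 (i := i) (by omega) (by omega) hl hl1 hs hs6)
    (one_div_one_div α).symm (by norm_num at hu ⊢; linarith) (by norm_num at hu1 ⊢; linarith) h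
    (fun _ l s h0 h1 hs => RR_tail3' h (by linarith) (by linarith) h0 h1 (by norm_num at hs; linarith))
    hl0 hl1

/-- **the ridge** for `26/100 ≤ 1/α ≤ 70/100` -/
theorem ridge_mid (hu : 26 / 100 ≤ 1 / α) (hu1 : 1 / α ≤ 70 / 100) {l : ℝ} (hl0 : 0 < l)
    (hl1 : l < 1) : (2 + l) * Nf α l < max (AA α) (vv α 3) := by
  have h0 : 0 < α := by
    have : 0 < 1 / α := by linarith
    exact one_div_pos.1 this
  have h54 : 5 / 4 ≤ α := by
    rw [div_le_iff₀ h0] at hu1
    linarith
  have h := lobe h54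
  rcases lt_or_ge (1 / α) (112 / 400) with h0 | h0
  · exact rreg0 h (by linarith) h0 hl0 hl1
  rcases lt_or_ge (1 / α) (232 / 800) with h1 | h1
  · exact rreg1 h (by linarith) h1 hl0 hl1
  rcases lt_or_ge (1 / α) (248 / 800) with h2 | h2
  · exact rreg2 h (by linarith) h2 hl0 hl1
  rcases lt_or_ge (1 / α) (264 / 800) with h3 | h3
  · exact rreg3 h (by linarith) h3 hl0 hl1
  rcases lt_or_ge (1 / α) (272 / 800) with h4 | h4
  · exact rreg4 h (by linarith) h4 hl0 hl1
  rcases lt_or_ge (1 / α) (138 / 400) with h5 | h5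
  · exact rreg5 h (by linarith) h5 hl0 hl1
  rcases lt_or_ge (1 / α) (152 / 400) with h6 | h6
  · exact rreg6 h (by linarith) h6 hl0 hl1
  rcases lt_or_ge (1 / α) (90 / 200) with h7 | h7
  · exact rreg7 h (by linarith) h7 hl0 hl1
  rcases lt_or_ge (1 / α) (106 / 200) with h8 | h8
  · exact rreg8 h (by linarith) h8 hl0 hl1
  rcases lt_or_ge (1 / α) (122 / 200) with h9 | h9
  · exact rreg9 h (by linarith) h9 hl0 hl1
  exact rreg10 h (by linarith) (by linarith) hl0 hl1

/-- **dimension three** for `26/100 ≤ 1/α ≤ 70/100` -/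
theorem core_three_mid (hu : 26 / 100 ≤ 1 / α) (hu1 : 1 / α ≤ 70 / 100) : Core α 3 := by
  have h0 : 0 < α := by
    have : 0 < 1 / α := by linarith
    exact one_div_pos.1 this
  have h1 : 1 < α := by
    rw [div_le_iff₀ h0] at hu1
    linarith
  have h4 : α ≤ 4 := by
    rw [le_div_iff₀ h0] at hu
    linarith
  exact core_three_of_ridge h1
    (fun y z w hw hwz hzy hs => Avg.avg3 h1 h4 y z w hw hwz hzy hs)
    fun _ hl0 hl1 => ridge_mid hu hu1 hl0 hl1

end LpSec
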