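import Mathlib
import Pool.Agent.Lib.MP_1dbab3_gt.W.RidD11
import Pool.Agent.Lib.MP_1dbab3_gt.W.RidZ
import Pool.Agent.Lib.MP_1dbab3_gt.WAvg.D5

/-!
# The ridge for `25/100 ≤ 1/α ≤ 70/100` and dimension three for `1 < α ≤ 4`
-/

open Real MeasureTheory Set Filter Topology Finset intervalIntegral

namespace LpSec

open LpSec.W LpSec.Rid

variable {α : ℝ}

private theorem rreg11 (h : Lobe α) (hu : 100 / 400 ≤ 1 / α) (hu1 : 1 / α < 104 / 400) {l : ℝ}
    (hl0 : 0 < l) (hl1 : l < 1) : (2 + l) * Nf α l < max (AA α) (vv α 3) :=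
  rows_sound (D := 400) (by norm_num) (by norm_num) (by norm_num) (by norm_num) rdat11_length
    (by norm_num) rdat11_ok
    (fun i h1 h2 l hl hl1 => coef_cell400a (i := i) (by omega) (by omega) hl hl1
      (by have : (100 : ℝ) ≤ (i : ℝ) := by exact_mod_cast h1
          linarith))
    (fun i h1 h2 l hl hl1 s hs hs6 => Phi_cell400a (i := i) (by omega) (by omega) hl hl1
      (by have : (100 : ℝ) ≤ (i : ℝ) := by exact_mod_cast h1
          linarith) hs hs6)
    (one_div_one_div α).symm (by norm_num at hu ⊢; linarith) (by norm_num at hu1 ⊢; linarith) h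
    (fun hb => absurd hb (by decide)) hl0 hl1

/-- **the ridge** for `25/100 ≤ 1/α ≤ 70/100` -/
theorem ridge_mid25 (hu : 25 / 100 ≤ 1 / α) (hu1 : 1 / α ≤ 70 / 100) {l : ℝ} (hl0 : 0 < l)
    (hl1 : l < 1) : (2 + l) * Nf α l < max (AA α) (vv α 3) := by
  rcases lt_or_ge (1 / α) (104 / 400) with h0 | h0
  · have h1 : 0 < α := by
      have : 0 < 1 / α := by linarith
      exact one_div_pos.1 this
    have h54 : 5 / 4 ≤ α := by
      rw [div_le_iff₀ h1] at hu1
      linarith
    exact rreg11 (lobe h54) (by linarith) h0 hl0 hl1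
  · exact ridge_mid (by linarith) hu1 hl0 hl1

/-- **dimension three** for `25/100 ≤ 1/α ≤ 70/100` -/
theorem core_three_mid25 (hu : 25 / 100 ≤ 1 / α) (hu1 : 1 / α ≤ 70 / 100) : Core α 3 := by
  have h0 : 0 < α := by
    have : 0 < 1 / α := by linarith
    exact one_div_pos.1 this
  have h1 : 1 < α := by
    rw [div_le_iff₀ h0] at hu1
    linarith
  have h4 : α ≤ 4 := by
    rw [le_div_iff₀ h0] at hu
    linarith
  exact core_three_of_ridge h1
    (fun y z w hw hwz hzy hs => Avg.avg3 h1 h4 y z w hw hwz hzy hs)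
    fun _ hl0 hl1 => ridge_mid25 hu hu1 hl0 hl1

/-- **dimension three** for `1 < α ≤ 4` -/
theorem core_three_le_four (h1 : 1 < α) (h4 : α ≤ 4) : Core α 3 := by
  have h0 : 0 < α := by linarith
  rcases le_or_gt (1 / α) (70 / 100) with h | h
  · refine core_three_mid25 ?_ h
    rw [le_div_iff₀ h0]
    linarith
  · refine core_three_small h1 ?_
    rw [lt_div_iff₀ h0] at h
    linarith

end LpSec
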