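import Mathlib
import Pool.Agent.Lib.MP_1dbab3_gt.W.Two

/-!
# Gluing of the checks of consecutive nodes and cells
-/

namespace LpSec.W

theorem forall_glue {P : ℕ → Prop} {a b c : ℕ} (h1 : ∀ i, i < a → P i)
    (h2 : ∀ i, i < b → P (a + i)) (hc : a + b = c) : ∀ i, i < c → P i := by
  intro i hi
  rcases Nat.lt_or_ge i a with h | h
  · exact h1 i h
  · obtain ⟨k, rfl⟩ := Nat.exists_eq_add_of_le h
    exact h2 k (by omega)

theorem nodesOk_append {N D : ℕ} {l2 : List Node} : ∀ {l1 : List Node} {a b n : ℕ},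
    nodesOk N D a l1 = true → l1.length = n → a + n = b → nodesOk N D b l2 = true →
      nodesOk N D a (l1 ++ l2) = true
  | [], a, b, n, _, h2, h3, h4 => by
    rw [List.length_nil] at h2
    subst h2
    rw [Nat.add_zero] at h3
    subst h3
    exact h4
  | x :: l, a, b, n, h1, h2, h3, h4 => by
    unfold nodesOk at h1
    rw [Bool.and_eq_true] at h1
    rw [List.length_cons] at h2
    have := nodesOk_append (a := a + 1) h1.2 rfl (by omega) h4
    rw [List.cons_append]
    unfold nodesOk
    rw [h1.1, this]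
    rfl

theorem segOk_app {D : ℕ} {y : Node} {t : List Node} {c2 : List TCell} :
    ∀ {n1 : List Node} {c1 : List TCell}, segOk D (n1 ++ [y]) c1 = true →
      n1.length = c1.length → segOk D (y :: t) c2 = true →
      segOk D (n1 ++ (y :: t)) (c1 ++ c2) = true
  | [], [], _, _, h => h
  | [], _ :: _, _, h, _ => by simp at h
  | _ :: _, [], _, h, _ => by simp at h
  | [x], [c], h1, h2, h3 => by
    have h' : (mcOk D x.l x.u y.l y.u x.c y.c c.d &&
      (polOk x.c y.c c.d x.p y.p c.e && segOk D [y] [])) = true := h1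
    rw [Bool.and_eq_true, Bool.and_eq_true] at h'
    show (mcOk D x.l x.u y.l y.u x.c y.c c.d &&
      (polOk x.c y.c c.d x.p y.p c.e && segOk D (y :: t) c2)) = true
    rw [h'.1, h'.2.1, h3]
    rfl
  | [x], c :: c' :: cs, _, h, _ => by simp at h
  | _ :: _ :: _, [c], _, h, _ => by simp at h
  | x :: x' :: l, c :: c' :: cs, h1, h2, h3 => by
    have h' : (mcOk D x.l x.u x'.l x'.u x.c x'.c c.d &&
      (polOk x.c x'.c c.d x.p x'.p c.e && segOk D ((x' :: l) ++ [y]) (c' :: cs))) = true := h1
    rw [Bool.and_eq_true, Bool.and_eq_true] at h'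
    have := segOk_app (n1 := x' :: l) (c1 := c' :: cs) h'.2.2
      (by simpa using h2) h3
    show (mcOk D x.l x.u x'.l x'.u x.c x'.c c.d &&
      (polOk x.c x'.c c.d x.p x'.p c.e && segOk D ((x' :: l) ++ (y :: t)) ((c' :: cs) ++ c2))) = true
    rw [h'.1, h'.2.1, this]
    rfl

theorem segOk_append {D : ℕ} {n1 n2 n3 : List Node} {c1 c2 : List TCell}
    (h1 : segOk D (n1 ++ n2.take 1) c1 = true) (h2 : n1.length = c1.length)
    (h3 : n2.length ≠ 0) (h4 : segOk D (n2 ++ n3) c2 = true) :
    segOk D (n1 ++ (n2 ++ n3)) (c1 ++ c2) = true := by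
  cases n2 with
  | nil => exact absurd rfl h3
  | cons y t => exact segOk_app h1 h2 h4

theorem segOk_append_last {D : ℕ} {n1 n2 : List Node} {c1 c2 : List TCell}
    (h1 : segOk D (n1 ++ n2.take 1) c1 = true) (h2 : n1.length = c1.length)
    (h3 : n2.length ≠ 0) (h4 : segOk D n2 c2 = true) :
    segOk D (n1 ++ n2) (c1 ++ c2) = true := by
  cases n2 with
  | nil => exact absurd rfl h3
  | cons y t => exact segOk_app h1 h2 h4

end LpSec.W
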