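import Mathlib
import Pool.Agent.Lib.MP_1dbab3_gt.W.TabDef
import Pool.Agent.Lib.MP_1dbab3_gt.W.SegApp

/-!
# Gluing of the checks of the step functions
-/

namespace LpSec.W

theorem tabsOk_app {w : ℕ} {y : P3} {t : List P3} {e2 : List P3} {t2 : List Tab} :
    ∀ {p1 e1 : List P3} {t1 : List Tab}, tabsOk w (p1 ++ [y]) e1 t1 = true →
      p1.length = e1.length → e1.length = t1.length → tabsOk w (y :: t) e2 t2 = true →
      tabsOk w (p1 ++ (y :: t)) (e1 ++ e2) (t1 ++ t2) = true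
  | [], [], [], _, _, _, h => h
  | [], _ :: _, _, _, h, _, _ => by simp at h
  | _ :: _, [], _, _, h, _, _ => by simp at h
  | _, [], _ :: _, _, _, h, _ => by simp at h
  | _, _ :: _, [], _, _, h, _ => by simp at h
  | [A], [E], [T], h1, _, _, h4 => by
    have h' : (tabOk w A y E T && tabsOk w [y] [] []) = true := h1
    rw [Bool.and_eq_true] at h'
    show (tabOk w A y E T && tabsOk w (y :: t) e2 t2) = true
    rw [h'.1, h4]
    rfl
  | [A], _ :: _ :: _, _, _, h, _, _ => by simp at h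
  | _ :: _ :: _, [_], _, _, h, _, _ => by simp at h
  | _, [_], _ :: _ :: _, _, _, h, _ => by simp at h
  | _, _ :: _ :: _, [_], _, _, h, _ => by simp at h
  | A :: A' :: P, E :: E' :: Es, T :: T' :: Ts, h1, h2, h3, h4 => by
    have h' : (tabOk w A A' E T && tabsOk w ((A' :: P) ++ [y]) (E' :: Es) (T' :: Ts)) = true := h1
    rw [Bool.and_eq_true] at h'
    have := tabsOk_app (p1 := A' :: P) (e1 := E' :: Es) (t1 := T' :: Ts) h'.2
      (by simpa using h2) (by simpa using h3) h4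
    show (tabOk w A A' E T &&
      tabsOk w ((A' :: P) ++ (y :: t)) ((E' :: Es) ++ e2) ((T' :: Ts) ++ t2)) = true
    rw [h'.1, this]
    rfl

theorem tabsOk_append {w : ℕ} {p1 p2 p3 e1 e2 : List P3} {t1 t2 : List Tab}
    (h1 : tabsOk w (p1 ++ p2.take 1) e1 t1 = true) (h2 : p1.length = e1.length)
    (h3 : e1.length = t1.length) (h4 : p2.length ≠ 0) (h5 : tabsOk w (p2 ++ p3) e2 t2 = true) :
    tabsOk w (p1 ++ (p2 ++ p3)) (e1 ++ e2) (t1 ++ t2) = true := by
  cases p2 with
  | nil => exact absurd rfl h4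
  | cons y t => exact tabsOk_app h1 h2 h3 h5

theorem tabsOk_append_last {w : ℕ} {p1 p2 e1 e2 : List P3} {t1 t2 : List Tab}
    (h1 : tabsOk w (p1 ++ p2.take 1) e1 t1 = true) (h2 : p1.length = e1.length)
    (h3 : e1.length = t1.length) (h4 : p2.length ≠ 0) (h5 : tabsOk w p2 e2 t2 = true) :
    tabsOk w (p1 ++ p2) (e1 ++ e2) (t1 ++ t2) = true := by
  cases p2 with
  | nil => exact absurd rfl h4
  | cons y t => exact tabsOk_app h1 h2 h3 h5

end LpSec.W
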