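import Mathlib
import Pool.Agent.Lib.MP_1dbab3_gt.W.GamM

/-!
# Checker of the table of moments `m_k(i/100)`
-/

namespace LpSec.W

open Real Filter Topology Finset

/-- number of factors used at `u = i / 100` -/
def NN (i : ℕ) : ℕ := if i ≤ 80 then 100 else 240

/-- one entry: `lo ≤ 10^10 m_k(i/100) ≤ hi` -/
def okEntry (i k lo hi : ℕ) : Bool :=
  decide (0 ≤ thLo (NN i) k ((i : ℚ) / (100 : ℕ))) &&
  (decide ((lo : ℚ) / 10 ^ 10 ≤ mMain (NN i) k i 100 * eLo (thLo (NN i) k ((i : ℚ) / (100 : ℕ)))) &&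
  (decide (0 ≤ thHi (NN i) k ((i : ℚ) / (100 : ℕ))) &&
  (decide (thHi (NN i) k ((i : ℚ) / (100 : ℕ)) ≤ 1) &&
  decide (mMain (NN i) k i 100 * eHi (thHi (NN i) k ((i : ℚ) / (100 : ℕ))) ≤ (hi : ℚ) / 10 ^ 10))))

theorem okEntry_sound {i k lo hi : ℕ} (hk : 1 ≤ k) (h : okEntry i k lo hi = true) :
    (lo : ℝ) / 10 ^ 10 ≤ mm k ((i : ℝ) / 100) ∧ mm k ((i : ℝ) / 100) ≤ (hi : ℝ) / 10 ^ 10 := by
  unfold okEntry at h
  simp only [Bool.and_eq_true, decide_eq_true_eq] at h
  obtain ⟨h1, h2, h3, h4, h5⟩ := h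
  have e := mm_ge (N := NN i) (a := i) (b := 100) (by norm_num) hk h1 h2
  have f := mm_le (N := NN i) (a := i) (b := 100) (by norm_num) hk h3 h4 h5
  push_cast at e f
  exact ⟨e, f⟩

/-- a row: `k`, `k + 1`, … -/
def rowOk (i : ℕ) : ℕ → List (ℕ × ℕ) → Bool
  | _, [] => true
  | k, p :: t => okEntry i k p.1 p.2 && rowOk i (k + 1) t

theorem rowOk_sound {i : ℕ} : ∀ (L : List (ℕ × ℕ)) (k : ℕ), 1 ≤ k → rowOk i k L = true →
    ∀ j, (h : j < L.length) → ((L[j].1 : ℕ) : ℝ) / 10 ^ 10 ≤ mm (k + j) ((i : ℝ) / 100) ∧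
      mm (k + j) ((i : ℝ) / 100) ≤ ((L[j].2 : ℕ) : ℝ) / 10 ^ 10
  | [], _, _, _, j, h => absurd h (Nat.not_lt_zero j)
  | p :: t, k, hk, h, j, hj => by
    have h' : (okEntry i k p.1 p.2 && rowOk i (k + 1) t) = true := h
    rw [Bool.and_eq_true] at h'
    cases j with
    | zero => exact okEntry_sound hk h'.1
    | succ j =>
      have := rowOk_sound t (k + 1) (by omega) h'.2 j (by simpa using hj)
      have e : k + 1 + j = k + (j + 1) := by omega
      rw [e] at this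
      simpa using this

/-- rows `i`, `i + 1`, …, each starting at `k = 2` -/
def tblOk : ℕ → List (List (ℕ × ℕ)) → Bool
  | _, [] => true
  | i, r :: t => rowOk i 2 r && tblOk (i + 1) t

theorem tblOk_sound : ∀ (T : List (List (ℕ × ℕ))) (i : ℕ), tblOk i T = true →
    ∀ a, (h : a < T.length) → rowOk (i + a) 2 T[a] = true
  | [], _, _, a, h => absurd h (Nat.not_lt_zero a)
  | r :: t, i, h, a, ha => by
    have h' : (rowOk i 2 r && tblOk (i + 1) t) = true := h
    rw [Bool.and_eq_true] at h'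
    cases a with
    | zero => exact h'.1
    | succ a =>
      have := tblOk_sound t (i + 1) h'.2 a (by simpa using ha)
      have e : i + 1 + a = i + (a + 1) := by omega
      rw [e] at this
      simpa using this

end LpSec.W
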