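import Mathlib

/-!
# The trapezoid rule of fourth order

`|∫ g - trapezoid sum + (h²/12) (g'(b) - g'(a))| ≤ h⁴/384 ∫ |g''''|`.
-/

namespace LpSec.W

open MeasureTheory Finset

/-- one cell -/
theorem trap_cell {g g1 g2 g3 g4 : ℝ → ℝ} (d1 : ∀ t, HasDerivAt g (g1 t) t)
    (d2 : ∀ t, HasDerivAt g1 (g2 t) t) (d3 : ∀ t, HasDerivAt g2 (g3 t) t)
    (d4 : ∀ t, HasDerivAt g3 (g4 t) t) (hc : Continuous g4) (a : ℝ) {h : ℝ} (hh : 0 ≤ h) :
    |(∫ t in a..(a + h), g t) - h * ((g a + g (a + h)) / 2) +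
      h ^ 2 / 12 * (g1 (a + h) - g1 a)| ≤ h ^ 4 / 384 * ∫ t in a..(a + h), |g4 t| := by
  have cg : Continuous g := continuous_iff_continuousAt.2 fun t => (d1 t).continuousAt
  set k : ℝ → ℝ := fun t => (t - a) ^ 2 * (a + h - t) ^ 2 / 24 with hk
  have ck : Continuous k := by
    rw [hk]
    fun_prop
  set F : ℝ → ℝ := fun t => ((t - a) - h / 2) * g t
    - (h ^ 2 - 6 * (t - a) * h + 6 * (t - a) ^ 2) / 12 * g1 t
    + ((t - a) * h ^ 2 - 3 * (t - a) ^ 2 * h + 2 * (t - a) ^ 3) / 12 * g2 t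
    - k t * g3 t with hF
  have hFd : ∀ t, HasDerivAt F (g t - k t * g4 t) t := by
    intro t
    have e0 : HasDerivAt (fun t => (t - a) - h / 2) 1 t := by
      have := ((hasDerivAt_id t).sub_const a).sub_const (h / 2)
      simpa using this
    have e1 : HasDerivAt (fun t => (h ^ 2 - 6 * (t - a) * h + 6 * (t - a) ^ 2) / 12)
        ((t - a) - h / 2) t := by
      have h1 : HasDerivAt (fun t : ℝ => t - a) 1 t := by
        simpa using (hasDerivAt_id t).sub_const a
      have h2 := ((((h1.const_mul 6).mul_const h).const_sub (h ^ 2)).add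
        ((h1.pow 2).const_mul 6)).div_const 12
      refine h2.congr_deriv ?_
      push_cast
      ring
    have e2 : HasDerivAt (fun t => ((t - a) * h ^ 2 - 3 * (t - a) ^ 2 * h + 2 * (t - a) ^ 3) / 12)
        ((h ^ 2 - 6 * (t - a) * h + 6 * (t - a) ^ 2) / 12) t := by
      have h1 : HasDerivAt (fun t : ℝ => t - a) 1 t := by
        simpa using (hasDerivAt_id t).sub_const a
      have h2 := (((h1.mul_const (h ^ 2)).sub (((h1.pow 2).const_mul 3).mul_const h)).add
        ((h1.pow 3).const_mul 2)).div_const 12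
      refine h2.congr_deriv ?_
      push_cast
      ring
    have e3 : HasDerivAt k (((t - a) * h ^ 2 - 3 * (t - a) ^ 2 * h + 2 * (t - a) ^ 3) / 12) t := by
      have h1 : HasDerivAt (fun t : ℝ => t - a) 1 t := by
        simpa using (hasDerivAt_id t).sub_const a
      have h3 : HasDerivAt (fun t : ℝ => a + h - t) (-1) t := by
        simpa using (hasDerivAt_id t).const_sub (a + h)
      have h2 := ((h1.fun_pow 2).fun_mul (h3.fun_pow 2)).div_const 24
      refine h2.congr_deriv ?_
      push_cast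
      ring
    have h5 := (((e0.mul (d1 t)).sub (e1.mul (d2 t))).add (e2.mul (d3 t))).sub (e3.mul (d4 t))
    refine h5.congr_deriv ?_
    ring
  have hI1 : IntervalIntegrable g volume a (a + h) := cg.intervalIntegrable _ _
  have hI2 : IntervalIntegrable (fun t => k t * g4 t) volume a (a + h) :=
    (ck.mul hc).intervalIntegrable _ _
  have hint : ∫ t in a..(a + h), (g t - k t * g4 t) = F (a + h) - F a :=
    intervalIntegral.integral_eq_sub_of_hasDerivAt (fun t _ => hFd t) (hI1.sub hI2)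
  rw [intervalIntegral.integral_sub hI1 hI2] at hint
  have hval : F (a + h) - F a = h * ((g a + g (a + h)) / 2) - h ^ 2 / 12 * (g1 (a + h) - g1 a) := by
    simp only [hF, hk]
    ring
  have heq : (∫ t in a..(a + h), g t) - h * ((g a + g (a + h)) / 2) +
      h ^ 2 / 12 * (g1 (a + h) - g1 a) = ∫ t in a..(a + h), k t * g4 t := by
    rw [hval] at hint
    linarith
  rw [heq]
  have hle : a ≤ a + h := by linarith
  refine (intervalIntegral.abs_integral_le_integral_abs hle).trans ?_
  rw [← intervalIntegral.integral_const_mul]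
  refine intervalIntegral.integral_mono_on hle ((ck.mul hc).abs.intervalIntegrable _ _)
    ((continuous_const.mul hc.abs).intervalIntegrable _ _) ?_
  intro t ht
  rw [abs_mul]
  refine mul_le_mul_of_nonneg_right ?_ (abs_nonneg _)
  have hk0 : 0 ≤ k t := by
    simp only [hk]
    positivity
  rw [abs_of_nonneg hk0]
  simp only [hk]
  have h6 : 0 ≤ (t - a) * (a + h - t) := mul_nonneg (by linarith [ht.1]) (by linarith [ht.2])
  have h7 : (t - a) * (a + h - t) ≤ h ^ 2 / 4 := by nlinarith [sq_nonneg ((t - a) - (a + h - t))]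
  have h8 : ((t - a) * (a + h - t)) ^ 2 ≤ (h ^ 2 / 4) ^ 2 := pow_le_pow_left₀ h6 h7 2
  have h9 : (t - a) ^ 2 * (a + h - t) ^ 2 = ((t - a) * (a + h - t)) ^ 2 := by ring
  rw [h9]
  have h10 : (h ^ 2 / 4) ^ 2 = h ^ 4 / 16 := by ring
  rw [h10] at h8
  linarith

/-- the composite rule -/
theorem trap_sum {g g1 g2 g3 g4 : ℝ → ℝ} (d1 : ∀ t, HasDerivAt g (g1 t) t)
    (d2 : ∀ t, HasDerivAt g1 (g2 t) t) (d3 : ∀ t, HasDerivAt g2 (g3 t) t)
    (d4 : ∀ t, HasDerivAt g3 (g4 t) t) (hc : Continuous g4) (a : ℝ) {h : ℝ} (hh : 0 ≤ h) (N : ℕ) :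
    |(∫ t in a..(a + N * h), g t) -
      h * (∑ j ∈ range N, g (a + j * h) + (g (a + N * h) - g a) / 2) +
      h ^ 2 / 12 * (g1 (a + N * h) - g1 a)| ≤ h ^ 4 / 384 * ∫ t in a..(a + N * h), |g4 t| := by
  have cg : Continuous g := continuous_iff_continuousAt.2 fun t => (d1 t).continuousAt
  induction N with
  | zero => simp
  | succ N ih =>
    have h1 := trap_cell d1 d2 d3 d4 hc (a + N * h) hh
    have e1 : a + N * h + h = a + ((N + 1 : ℕ) : ℝ) * h := by
      push_cast
      ring
    rw [e1] at h1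
    have h2 : ∫ t in a..(a + ((N + 1 : ℕ) : ℝ) * h), g t = (∫ t in a..(a + N * h), g t) +
        ∫ t in (a + N * h)..(a + ((N + 1 : ℕ) : ℝ) * h), g t :=
      (intervalIntegral.integral_add_adjacent_intervals (cg.intervalIntegrable _ _)
        (cg.intervalIntegrable _ _)).symm
    have h3 : ∫ t in a..(a + ((N + 1 : ℕ) : ℝ) * h), |g4 t| = (∫ t in a..(a + N * h), |g4 t|) +
        ∫ t in (a + N * h)..(a + ((N + 1 : ℕ) : ℝ) * h), |g4 t| :=
      (intervalIntegral.integral_add_adjacent_intervals (hc.abs.intervalIntegrable _ _)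
        (hc.abs.intervalIntegrable _ _)).symm
    rw [h2, h3, sum_range_succ]
    refine le_trans ?_ ((add_le_add ih h1).trans (le_of_eq (mul_add _ _ _).symm))
    refine le_trans (le_of_eq ?_) (abs_add_le _ _)
    congr 1
    ring

end LpSec.W
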